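import Pool.Agent.MP_5f72fe_nt.MS.S2

/-! Row A0: the two generators in the chart. -/

namespace Pool.Agent.MP_5f72fe_nt.MS

namespace A0A

theorem inAdd (h : RowBAS) {x y : ℚ} (hx : In x) (hy : In y) : In (x + y) := by
  obtain ⟨O, hO⟩ := h.ring
  exact (hO _).1 (O.add_mem ((hO _).2 hx) ((hO _).2 hy))

theorem inSub (h : RowBAS) {x y : ℚ} (hx : In x) (hy : In y) : In (x - y) := by
  obtain ⟨O, hO⟩ := h.ring
  exact (hO _).1 (O.sub_mem ((hO _).2 hx) ((hO _).2 hy))

theorem inMul (h : RowBAS) {x y : ℚ} (hx : In x) (hy : In y) : In (x * y) := by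
  obtain ⟨O, hO⟩ := h.ring
  exact (hO _).1 (O.mul_mem ((hO _).2 hx) ((hO _).2 hy))

theorem inPow (h : RowBAS) {x : ℚ} (hx : In x) (n : ℕ) : In (x ^ n) := by
  obtain ⟨O, hO⟩ := h.ring
  exact (hO _).1 (O.pow_mem ((hO _).2 hx) n)

theorem inInt (n : ℤ) : In (n : ℚ) := by
  simp [In]

theorem inNat (n : ℕ) : In (n : ℚ) := by
  simp [In]

theorem in3 : In 3 := inNat 3

theorem in9 : In 9 := inNat 9

theorem in1 : In 1 := by simp [In]

theorem red_neg (m : ℕ) (x : ℚ) : red m (-x) = -red m x := by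
  simp [red]

theorem red_add3 (h : RowBAS) {x z : ℚ} (hx : In x) (hz : In z) :
    red 3 (x + 3 * z) = red 3 x := by
  have h3 : In (3 * z) := inMul h in3 hz
  rw [h.red3.1 _ _ hx h3, (h.red3.2.2.2 _ h3).2 (by simpa using hz), add_zero]

theorem in_cube (h : RowBAS) {u : ℚ} (hu : In u) : In ((u ^ 3 - u) / 3) := by
  rcases h.tri u hu with h1 | h1 | h1
  · have := inMul h h1 (inSub h (inPow h hu 2) in1)
    rwa [show u / 3 * (u ^ 2 - 1) = (u ^ 3 - u) / 3 by ring] at this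
  · have := inMul h h1 (inAdd h (inPow h hu 2) hu)
    rwa [show (u - 1) / 3 * (u ^ 2 + u) = (u ^ 3 - u) / 3 by ring] at this
  · have := inMul h h1 (inSub h (inPow h hu 2) hu)
    rwa [show (u + 1) / 3 * (u ^ 2 - u) = (u ^ 3 - u) / 3 by ring] at this

theorem in_p (h : RowBAS) {u y : ℚ} (hu : In u) (hy : In y) :
    In (u * y * (u ^ 2 - y ^ 2) / 3) := by
  have := inSub h (inMul h hy (in_cube h hu)) (inMul h hu (in_cube h hy))
  rwa [show y * ((u ^ 3 - u) / 3) - u * ((y ^ 3 - y) / 3) = u * y * (u ^ 2 - y ^ 2) / 3 by ring]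
    at this

theorem co1_sum (hb : RowBN) (b : ℚ → F3) (K : ℕ) (c : ℕ → F3)
    (h : ∀ m : ℕ, b m = ∑ k ∈ Finset.range K, c k * (m.choose k : ℕ)) (i : ℕ) :
    co1 b i = if i < K then c i else 0 := by
  have h1 : co1 b = co1 (∑ k ∈ Finset.range K, c k • bn k) := by
    refine hb.congr _ _ fun m => ?_
    rw [h, Finset.sum_apply]
    refine Finset.sum_congr rfl fun k _ => ?_
    rw [Pi.smul_apply, hb.nat, smul_eq_mul]
  rw [h1]
  have h2 : co1 (∑ k ∈ Finset.range K, c k • bn k) i =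
      ∑ k ∈ Finset.range K, c k * co1 (bn k) i := by
    unfold co1
    rw [fwdDiff_iter_finsetSum, Finset.sum_apply]
    refine Finset.sum_congr rfl fun k _ => ?_
    rw [fwdDiff_iter_const_smul, Pi.smul_apply, smul_eq_mul]
  rw [h2]
  simp only [hb.basis, mul_ite, mul_one, mul_zero, Finset.sum_ite_eq, Finset.mem_range]

theorem co_sum (hb : RowBN) (a : Ch F3) (K : ℕ) (c : ℕ → ℕ → F3)
    (h : ∀ m n : ℕ, a m n = ∑ l ∈ Finset.range K,
      (∑ k ∈ Finset.range K, c k l * (m.choose k : ℕ)) * (n.choose l : ℕ)) (i j : ℕ) :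
    co a i j = if i < K ∧ j < K then c i j else 0 := by
  unfold co
  by_cases hj : j < K
  · rw [co1_sum hb _ K (fun k => c k j) (fun m => by rw [co1_sum hb _ K _ (h m), if_pos hj])]
    simp [hj]
  · rw [co1_sum hb _ 0 (fun _ => 0) (fun m => by rw [co1_sum hb _ K _ (h m), if_neg hj]; simp)]
    simp [hj]

theorem ch2 (m : ℕ) : ((m.choose 2 : ℕ) : ℚ) = m * (m - 1) / 2 := Nat.cast_choose_two ℚ m

theorem ch3 (m : ℕ) : ((m.choose 3 : ℕ) : ℚ) = m * (m - 1) * (m - 2) / 6 := by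
  induction m with
  | zero => simp
  | succ m ih =>
    rw [Nat.choose_succ_succ, Nat.cast_add, ih, ch2]
    push_cast
    ring

def cm (k l : ℕ) : F3 := if k = 2 ∧ l = 1 then 2 else if k = 1 ∧ l = 2 then 1 else 0

def cp (k l : ℕ) : F3 :=
  if (k = 2 ∨ k = 3) ∧ l = 1 then 2 else if k = 1 ∧ (l = 2 ∨ l = 3) then 1 else 0

theorem co_m (h : RowBAS) (hb : RowBN) (i j : ℕ) :
    co a0m i j = if i < 4 ∧ j < 4 then cm i j else 0 := by
  refine co_sum hb a0m 4 cm (fun m n => ?_) i j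
  have e : (m : ℚ) * n * (m - n) =
      ((2 * (m.choose 2 : ℕ) * n - 2 * m * (n.choose 2 : ℕ) : ℤ) : ℚ) := by
    push_cast
    rw [ch2, ch2]
    ring
  unfold a0m
  rw [e, h.red3.2.2.1]
  simp only [Finset.sum_range_succ, Finset.sum_range_zero, cm]
  norm_num
  have h3 : (3 : F3) = 0 := by decide
  linear_combination (-(m : F3) * (n.choose 2 : ℕ)) * h3

theorem co_p (h : RowBAS) (hb : RowBN) (i j : ℕ) :
    co a0p i j = if i < 4 ∧ j < 4 then cp i j else 0 := by
  refine co_sum hb a0p 4 cp (fun m n => ?_) i j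
  have e : (m : ℚ) * n * (m ^ 2 - n ^ 2) / 3 =
      ((2 * ((m.choose 2 : ℕ) + (m.choose 3 : ℕ)) * n -
        2 * m * ((n.choose 2 : ℕ) + (n.choose 3 : ℕ)) : ℤ) : ℚ) := by
    push_cast
    rw [ch2, ch2, ch3, ch3]
    ring
  unfold a0p
  rw [e, h.red3.2.2.1]
  simp only [Finset.sum_range_succ, Finset.sum_range_zero, cp]
  norm_num
  have h3 : (3 : F3) = 0 := by decide
  linear_combination (-(m : F3) * ((n.choose 2 : ℕ) + (n.choose 3 : ℕ))) * h3

theorem mu_N (u : ℚ) : mu mN u = -u := by simp [mu, mN]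

theorem my_N (y : ℚ) : my mN y = -y := by
  simp [my, mN, div_neg]

theorem chi_cube (u : ℚ) : chi u ^ 3 = chi u ∧ In (chi u) := by
  unfold chi
  split_ifs
  · exact ⟨by norm_num, by simp [In]⟩
  · exact ⟨by norm_num, by simp [In]⟩
  · exact ⟨by norm_num, by simp [In]⟩

end A0A

open A0A in
theorem rowA0 : OfA0 := by
  intro h hb _ ho
  refine ⟨⟨⟨1, fun u y b c hu hy hb' hc => ?_⟩, fun u y _ _ => ?_, fun u y _ _ => ?_,
    fun i j _ _ hij => ?_, ?_⟩, ⟨⟨2, fun u y b c hu hy hb' hc => ?_⟩, fun u y _ _ => ?_,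
    fun u y _ _ => ?_, fun i j _ _ hij => ?_, ?_⟩, fun u y hu hy => ?_⟩
  · unfold a0m
    have e : (u + 3 ^ 1 * b) * (y + 3 ^ 1 * c) * (u + 3 ^ 1 * b - (y + 3 ^ 1 * c)) =
        u * y * (u - y) + 3 * (u * y * (b - c) +
          (u * c + b * y + 3 * (b * c)) * (u - y + 3 * (b - c))) := by ring
    rw [e]
    refine red_add3 h (inMul h (inMul h hu hy) (inSub h hu hy)) ?_
    exact inAdd h (inMul h (inMul h hu hy) (inSub h hb' hc))
      (inMul h (inAdd h (inAdd h (inMul h hu hc) (inMul h hb' hy)) (inMul h in3 (inMul h hb' hc)))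
        (inAdd h (inSub h hu hy) (inMul h in3 (inSub h hb' hc))))
  · simp only [act, mu_N, my_N, a0m, Pi.neg_apply]
    rw [← red_neg]
    congr 1
    ring
  · simp only [sw, a0m, Pi.neg_apply]
    rw [← red_neg]
    congr 1
    ring
  · rw [co_m h hb]
    split_ifs with h1
    · unfold cm
      rw [if_neg (by omega), if_neg (by omega)]
    · rfl
  · rw [co_m h hb, co_m h hb]
    decide
  · unfold a0p
    have e : (u + 3 ^ 2 * b) * (y + 3 ^ 2 * c) * ((u + 3 ^ 2 * b) ^ 2 - (y + 3 ^ 2 * c) ^ 2) / 3 =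
        u * y * (u ^ 2 - y ^ 2) / 3 +
          3 * (u * y * ((u + u + 9 * b) * b - (y + y + 9 * c) * c) +
            (u * c + b * y + 9 * (b * c)) * ((u + 9 * b) ^ 2 - (y + 9 * c) ^ 2)) := by ring
    rw [e]
    refine red_add3 h (in_p h hu hy) ?_
    have h1 : In (9 * b) := inMul h in9 hb'
    have h2 : In (9 * c) := inMul h in9 hc
    exact inAdd h (inMul h (inMul h hu hy) (inSub h (inMul h (inAdd h (inAdd h hu hu) h1) hb')
        (inMul h (inAdd h (inAdd h hy hy) h2) hc)))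
      (inMul h (inAdd h (inAdd h (inMul h hu hc) (inMul h hb' hy)) (inMul h in9 (inMul h hb' hc)))
        (inSub h (inPow h (inAdd h hu h1) 2) (inPow h (inAdd h hy h2) 2)))
  · simp only [act, mu_N, my_N, a0p]
    congr 1
    ring
  · simp only [sw, a0p, Pi.neg_apply]
    rw [← red_neg]
    congr 1
    ring
  · rw [co_p h hb]
    split_ifs with h1
    · unfold cp
      rw [if_neg (by omega), if_neg (by omega)]
    · rfl
  · rw [co_p h hb]
    decide
  · have hu' := ho.2.2.2.2.2.1 u hu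
    have hy' := ho.2.2.2.2.2.1 y hy
    obtain ⟨cu, iu⟩ := chi_cube u
    obtain ⟨cy, iy⟩ := chi_cube y
    set s := chi u with hs
    set t := chi y with ht
    set p := (u - s) / 3 with hp
    set q := (y - t) / 3 with hq
    have eu : u = s + 3 * p := by rw [hp]; ring
    have ey : y = t + 3 * q := by rw [hq]; ring
    have e1 : (s * y - t * u) / 3 = s * q - t * p := by rw [hp, hq]; ring
    have hi : In (s * q - t * p) := inSub h (inMul h iu hy') (inMul h iy hu')
    rw [e1]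
    refine ⟨hi, ?_⟩
    unfold a0p
    have e2 : u * y * (u ^ 2 - y ^ 2) / 3 = s * q - t * p +
        3 * (y * (s ^ 2 * p + 3 * (s * p ^ 2) + 3 * p ^ 3) -
          u * (t ^ 2 * q + 3 * (t * q ^ 2) + 3 * q ^ 3)) := by
      clear_value s t p q
      subst eu ey
      linear_combination ((t + 3 * q) / 3) * cu - ((s + 3 * p) / 3) * cy
    rw [e2]
    refine (red_add3 h hi ?_).symm
    exact inSub h
      (inMul h hy (inAdd h (inAdd h (inMul h (inPow h iu 2) hu')
        (inMul h in3 (inMul h iu (inPow h hu' 2)))) (inMul h in3 (inPow h hu' 3))))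
      (inMul h hu (inAdd h (inAdd h (inMul h (inPow h iy 2) hy')
        (inMul h in3 (inMul h iy (inPow h hy' 2)))) (inMul h in3 (inPow h hy' 3))))

end Pool.Agent.MP_5f72fe_nt.MS
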