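import Pool.Agent.MP_5f72fe_nt.MS.S1

/-! Row ACT: the action on the chart and the degree filtration. -/

namespace Pool.Agent.MP_5f72fe_nt.MS

namespace ACTA

def sU (f : ℚ → ℚ) (a : Ch F3) : Ch F3 := fun u y => a (f u) y

def sY (f : ℚ → ℚ) (a : Ch F3) : Ch F3 := fun u y => a u (f y)

def Lp (f : ℚ → ℚ) : Prop :=
  (∀ u, In u → In (f u)) ∧ ∀ (u b : ℚ) (n : ℕ), In u → In b →
    ∃ b', In b' ∧ f (u + 3 ^ n * b) = f u + 3 ^ n * b'

def Tr (f : ℚ → ℚ) : Prop := ∀ (b : ℚ → F3) (n : ℕ), LC1 b → Z1 n b → Z1 n fun u => b (f u)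

def Dr (w : ℕ) (f : ℚ → ℚ) : Prop :=
  ∀ (b : ℚ → F3) (n : ℕ), LC1 b → Z1 (n + w) b → Z1 n fun u => b (f u) - b u

theorem co1_sub (b b' : ℚ → F3) (i : ℕ) : co1 (b - b') i = co1 b i - co1 b' i := by
  have : (fwdDiff (1 : ℚ))^[i] (b - b') = (fwdDiff (1 : ℚ))^[i] b - (fwdDiff (1 : ℚ))^[i] b' := by
    induction i with
    | zero => rfl
    | succ i ih =>
      rw [Function.iterate_succ_apply', Function.iterate_succ_apply', Function.iterate_succ_apply',
        ih]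
      funext u
      simp only [fwdDiff, Pi.sub_apply]
      ring
  rw [co1, this]; rfl

theorem co_sU (f : ℚ → ℚ) (a : Ch F3) (i j : ℕ) :
    co (sU f a - a) i j = co1 (fun u => co1 (a (f u)) j - co1 (a u) j) i := by
  rw [co]
  congr 1
  funext u
  exact co1_sub _ _ _

theorem lcY {f : ℚ → ℚ} (hf : Lp f) {a : Ch F3} (ha : LC2 a) : LC2 (sY f a) := by
  obtain ⟨n, hn⟩ := ha
  refine ⟨n, fun u y b c hu hy hb hc => ?_⟩
  obtain ⟨c', hc', e⟩ := hf.2 y c n hy hc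
  simp only [sY, e]
  exact hn u _ b c' hu (hf.1 y hy) hb hc'

theorem lc_sw {a : Ch F3} (ha : LC2 a) : LC2 (sw a) := by
  obtain ⟨n, hn⟩ := ha
  exact ⟨n, fun u y b c hu hy hb hc => hn y u c b hy hu hc hb⟩

theorem lc_sub {a b : Ch F3} (hM : RowMOB) (ha : LC2 a) (hb : LC2 b) : LC2 (a - b) := by
  obtain ⟨M, hM⟩ := hM.grp F3
  exact (hM _).1 (M.sub_mem ((hM _).2 ha) ((hM _).2 hb))

section
variable (hN : RowN2)
include hN

theorem co_add (a b : Ch F3) : co (a + b) = co a + co b := by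
  obtain ⟨C, hC⟩ := hN.lin
  rw [← hC, ← hC, ← hC, map_add]

theorem co_sub (a b : Ch F3) : co (a - b) = co a - co b := by
  obtain ⟨C, hC⟩ := hN.lin
  rw [← hC, ← hC, ← hC, map_sub]

theorem up_sw {i j n : ℕ} {a : Ch F3} (h : Up i j n (co a)) : Up j i n (co (sw a)) :=
  fun i' j' h1 h2 h3 => by rw [hN.swap]; exact h _ _ h2 h1 (by omega)

theorem up_add {i j n : ℕ} {a b : Ch F3} (h : Up i j n (co a)) (h' : Up i j n (co b)) :
    Up i j n (co (a + b)) := fun i' j' h1 h2 h3 => by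
  rw [co_add hN, Pi.add_apply, Pi.add_apply, h _ _ h1 h2 h3, h' _ _ h1 h2 h3, add_zero]

theorem up_sub {i j n : ℕ} {a b : Ch F3} (h : Up i j n (co a)) (h' : Up i j n (co b)) :
    Up i j n (co (a - b)) := fun i' j' h1 h2 h3 => by
  rw [co_sub hN, Pi.sub_apply, Pi.sub_apply, h _ _ h1 h2 h3, h' _ _ h1 h2 h3, sub_zero]

theorem triU {f : ℚ → ℚ} (hf : Tr f) {a : Ch F3} (ha : LC2 a) {i j n : ℕ} (h : Up i j n (co a)) :
    Up i j n (co (sU f a)) := fun i' j' h1 h2 h3 =>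
  hf (fun u => co1 (a u) j') i' (hN.col a ha j').1
    (fun k hk => h k j' (by omega) h2 (by omega)) i' le_rfl

theorem drU {w : ℕ} {f : ℚ → ℚ} (hf : Dr w f) {a : Ch F3} (ha : LC2 a) {i j n : ℕ}
    (h : Up i j (n + w) (co a)) : Up i j n (co (sU f a - a)) := fun i' j' h1 h2 h3 => by
  rw [co_sU]
  exact hf (fun u => co1 (a u) j') i' (hN.col a ha j').1
    (fun k hk => h k j' (by omega) h2 (by omega)) i' le_rfl

theorem triY {f : ℚ → ℚ} (hf : Tr f) {a : Ch F3} (ha : LC2 a) {i j n : ℕ} (h : Up i j n (co a)) :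
    Up i j n (co (sY f a)) :=
  up_sw hN (triU hN hf (lc_sw ha) (up_sw hN h))

theorem drY {w : ℕ} {f : ℚ → ℚ} (hf : Dr w f) {a : Ch F3} (ha : LC2 a) {i j n : ℕ}
    (h : Up i j (n + w) (co a)) : Up i j n (co (sY f a - a)) :=
  up_sw hN (drU hN hf (lc_sw ha) (up_sw hN h))

theorem drUY {w : ℕ} {f g : ℚ → ℚ} (hf : Dr w f) (hg : Dr w g) (tg : Tr g) (lg : Lp g)
    {a : Ch F3} (ha : LC2 a) {i j n : ℕ} (h : Up i j (n + w) (co a)) :
    Up i j n (co (sU f (sY g a) - a)) := by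
  rw [← sub_add_sub_cancel _ (sY g a)]
  exact up_add hN (drU hN hf (lcY lg ha) (triY hN tg ha h)) (drY hN hg ha h)

theorem top (hM : RowMOB) {f g : ℚ → ℚ} (hf : Dr 1 f) (hg : Dr 1 g) (lg : Lp g)
    {a : Ch F3} (ha : LC2 a) {i j : ℕ} (h : Up i j (i + j + 2) (co a)) :
    co (sU f (sY g a) - a) i j = co (sU f a - a) i j + co (sU g (sw a) - sw a) j i := by
  have e : sU f (sY g a) - a = (sU f (sY g a - a) - (sY g a - a)) + ((sU f a - a) +
      sw (sU g (sw a) - sw a)) := by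
    funext u y
    simp only [sU, sY, sw, Pi.sub_apply, Pi.add_apply]
    ring
  have h1 := drU hN hf (lc_sub hM (lcY lg ha) ha) (drY hN (n := i + j + 1) hg ha h) i j le_rfl
    le_rfl le_rfl
  rw [e, co_add hN, co_add hN]
  simp only [Pi.add_apply]
  rw [h1, zero_add, hN.swap]

end

theorem in_int (n : ℤ) : In n := by simp [In]

theorem my_eq (g : Mt) : my g = mob g.2.2.2 (g.2.2.1 / 3) (3 * g.2.1) g.1 := by
  funext y
  rw [my, mob, add_comm, add_comm (g.1 : ℚ)]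

theorem mbU (hB : RowBAS) {g : Mt} (h : G0 g) : Mb g.1 g.2.1 g.2.2.1 g.2.2.2 :=
  ⟨(hB.int _).2.2 h.2.1, in_int _, (hB.int _).1.2 h.1, (hB.int _).2.2 h.2.2⟩

theorem mbY (hB : RowBAS) {g : Mt} (h : G0 g) : Mb g.2.2.2 (g.2.2.1 / 3) (3 * g.2.1) g.1 :=
  ⟨(hB.int _).2.2 h.2.2, (hB.int _).1.2 h.1, by
    rw [mul_div_cancel_left₀ _ three_ne_zero]; exact in_int _, (hB.int _).2.2 h.2.1⟩

theorem in_of {x : ℚ} (n : ℤ) (h : x = n) : In x := h ▸ in_int n

end ACTA

open ACTA in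
theorem rowACT : OfACT := by
  intro hB hM _ hD hX hN
  have lp : ∀ g, G0 g → Lp (my g) := fun g hg =>
    ⟨fun u hu => (hM.pres g hg u hu).2.1, fun u b n hu hb => (hM.lip g hg u b n hu hb).2⟩
  have trU : ∀ g, G0 g → Tr (mu g) := fun g hg b n hb =>
    (hD.tri _ _ _ _ (mbU hB hg) b n hb).2.1
  have trY : ∀ g, G0 g → Tr (my g) := fun g hg b n hb => by
    rw [my_eq]; exact (hD.tri _ _ _ _ (mbY hB hg) b n hb).2.1
  have d1U : ∀ g, G0 g → 3 ∣ g.1 - g.2.2.2 → Dr 1 (mu g) := fun g hg h =>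
    hD.dr1 _ _ _ _ (mbU hB hg) (by exact_mod_cast (hB.int _).1.2 h)
  have d1Y : ∀ g, G0 g → 3 ∣ g.1 - g.2.2.2 → Dr 1 (my g) := fun g hg h => by
    rw [my_eq]
    exact hD.dr1 _ _ _ _ (mbY hB hg) (by exact_mod_cast (hB.int _).1.2 (dvd_sub_comm.1 h))
  have tri : ∀ g, G0 g → ∀ (a : Ch F3) (i j n : ℕ), LC2 a → Up i j n (co a) →
      Up i j n (co (act g a)) := fun g hg a i j n ha h =>
    triU hN (trU g hg) (lcY (lp g hg) ha) (triY hN (trY g hg) ha h)
  have dr1 : ∀ g, G0 g → 3 ∣ g.1 - g.2.2.2 → ∀ (a : Ch F3) (i j n : ℕ), LC2 a →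
      Up i j (n + 1) (co a) → Up i j n (co (act g a - a)) := fun g hg h3 a i j n ha h =>
    drUY hN (d1U g hg h3) (d1Y g hg h3) (trY g hg) (lp g hg) ha h
  have gT : G0 mT := by simp [G0, mT]
  have gL : G0 mL := by simp [G0, mL]
  have gT' : G0 (adj mT) := by simp [G0, mT, adj]
  have gL' : G0 (adj mL) := by simp [G0, mL, adj]
  have gN : G0 mN := by simp [G0, mN]
  have lcA : ∀ g, G0 g → ∀ a : Ch F3, LC2 a → LC2 (act g a) := fun g hg a ha =>
    (hM.lc F3 a ha).1 g hg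
  have shift : ∀ (a : Ch F3) (i j : ℕ), co (sU (fun u => u + 1) a - a) i j = co a (i + 1) j :=
    fun a i j => by rw [co_sU]; exact hX.shift (fun u => co1 (a u) j) i
  have low : ∀ (a : Ch F3) (i j : ℕ), LC2 a → Up i j (i + j + 2) (co a) →
      co (sU (mob 1 0 3 1) a - a) i j = if i % 3 = 2 then co a (i + 1) j else 0 :=
    fun a i j ha h => by
      rw [co_sU]
      exact hD.top (fun u => co1 (a u) j) i (hN.col a ha j).1
        fun k hk => h k j (by omega) le_rfl (by omega)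
  have sgn : ∀ p s : ℚ, Mb p 0 0 s → p / s = (-1 : ℤ) → ∀ (a : Ch F3) (i j : ℕ), LC2 a →
      Up i j (i + j + 1) (co a) → co (sU (mob p 0 0 s) a) i j = (-1) ^ i * co a i j :=
    fun p s hb e a i j ha h => by
      have := (hD.tri _ _ _ _ hb (fun u => co1 (a u) j) i (hN.col a ha j).1).2.2
        fun k hk => h k j (by omega) le_rfl (by omega)
      rw [e, hB.red3.2.2.1, Int.cast_neg, Int.cast_one] at this
      exact this
  refine ⟨tri, dr1, ?_, ?_, ?_, ?_, ?_⟩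
  · rintro g ⟨⟨q, hq⟩, ⟨r, hr⟩, ⟨t, ht⟩, hp⟩ a i j n ha h
    have hg : G0 g := ⟨by omega, hp, by omega⟩
    have hq' : (g.2.1 : ℚ) = 9 * q := by exact_mod_cast hq
    have hr' : (g.2.2.1 : ℚ) = 27 * r := by exact_mod_cast hr
    have ht' : (g.1 : ℚ) - g.2.2.2 = 9 * t := by exact_mod_cast ht
    refine drUY hN (w := 7) (f := mu g) (hD.dr7 _ _ _ _ (mbU hB hg) (in_of t (by linarith))
      (in_of q (by linarith)) (in_of (3 * r) (by push_cast; linarith))) ?_ (trY g hg) (lp g hg) ha h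
    rw [my_eq]
    exact hD.dr7 _ _ _ _ (mbY hB hg) (in_of (-t) (by push_cast; linarith))
      (in_of r (by linarith)) (in_of (3 * q) (by push_cast; linarith))
  · intro a i j n ha h
    have lE := lc_sub hM (lcA _ gT a ha) ha
    have lF := lc_sub hM (lcA _ gL a ha) ha
    have h1 := dr1 mL gL (by decide) _ i j n lE (dr1 mT gT (by decide) a i j (n + 1) ha h)
    have h2 := dr1 mT gT (by decide) _ i j n lF (dr1 mL gL (by decide) a i j (n + 1) ha h)
    have l3 := lc_sub hM (lc_sub hM (lcA _ gL _ lE) lE) (lc_sub hM (lcA _ gT _ lF) lF)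
    have h4 := tri _ gL' _ i j n (lcA _ gT' _ l3) (tri _ gT' _ i j n l3 (up_sub hN h1 h2))
    rw [hN.congr _ _ ?_]
    · exact h4
    intro u y hu hy
    obtain ⟨g1, c1⟩ := hM.comp _ _ gT' gL'
    obtain ⟨g2, c2⟩ := hM.comp _ _ gL g1
    obtain ⟨-, c3⟩ := hM.comp _ _ gT g2
    obtain ⟨g4, c4⟩ := hM.comp _ _ gT g1
    obtain ⟨-, c5⟩ := hM.comp _ _ gL g4
    have eH : mul mT (mul mL (mul (adj mT) (adj mL))) = mH := by decide
    have eI : mul mL (mul mT (mul (adj mT) (adj mL))) = mI := by decide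
    have iU : mu mI u = u := by simp [mu, mI]
    have iY : my mI y = y := by simp [my, mI]
    rw [eH] at c3
    rw [eI] at c5
    simp only [act, Pi.sub_apply]
    rw [← (c1 u hu).1, ← (c1 y hy).2, ← (c2 u hu).1, ← (c2 y hy).2, ← (c3 u hu).1, ← (c3 y hy).2,
      ← (c4 u hu).1, ← (c4 y hy).2, ← (c5 u hu).1, ← (c5 y hy).2, iU, iY]
    ring
  · intro a i j ha h
    have e1 : mu mT = fun u => u + 1 := by funext u; simp [mu, mT]
    have e2 : my mT = mob 1 0 3 1 := by rw [my_eq]; simp [mT]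
    have := top hN hM (d1U _ gT (by decide)) (d1Y _ gT (by decide)) (lp _ gT) ha h
    rw [show act mT a = sU (mu mT) (sY (my mT) a) from rfl, this, e1, e2, shift,
      low _ _ _ (lc_sw ha) (add_comm i j ▸ up_sw hN h), hN.swap, egr]
  · intro a i j ha h
    have e1 : mu mL = mob 1 0 3 1 := by funext u; simp [mu, mL, mob]
    have e2 : my mL = fun u => u + 1 := by funext u; simp [my, mL, add_comm]
    have := top hN hM (d1U _ gL (by decide)) (d1Y _ gL (by decide)) (lp _ gL) ha h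
    rw [show act mL a = sU (mu mL) (sY (my mL) a) from rfl, this, e1, e2, shift, low _ _ _ ha h,
      hN.swap, fgr, add_comm]
  · intro a i j ha h
    have e1 : mu mN = mob (-1) 0 0 1 := by funext u; simp [mu, mN, mob]
    have e2 : my mN = mob 1 0 0 (-1) := by rw [my_eq]; simp [mN]
    have b1 : Mb (-1) 0 0 1 := by simpa [mN] using mbU hB gN
    have b2 : Mb 1 0 0 (-1) := by simpa [mN] using mbY hB gN
    rw [show act mN a = sU (mu mN) (sY (my mN) a) from rfl, e1,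
      sgn _ _ b1 (by norm_num) _ i j (lcY (lp _ gN) ha) (triY hN (trY _ gN) ha h), e2,
      show sY (mob 1 0 0 (-1)) a = sw (sU (mob 1 0 0 (-1)) (sw a)) from rfl, hN.swap,
      sgn _ _ b2 (by norm_num) _ j i (lc_sw ha) (add_comm i j ▸ up_sw hN h), hN.swap, pow_add,
      mul_assoc]

end Pool.Agent.MP_5f72fe_nt.MS
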