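import Pool.Agent.MP_5f72fe_nt.MS.S3

/-! Operations on automorphic forms. -/

namespace Pool.Agent.MP_5f72fe_nt.MS

namespace AUTA

theorem ap_add (g : Mt) (v w : V) : ap g (v + w) = ap g v + ap g w := by
  ext <;> simp [ap] <;> ring

theorem ap_sub (g : Mt) (v w : V) : ap g (v - w) = ap g v - ap g w := by
  ext <;> simp [ap] <;> ring

theorem ap_smul (g : Mt) (a : ℚ) (v : V) : ap g (a • v) = a • ap g v := by
  ext <;> simp [ap] <;> ring

theorem dt_ap (g : Mt) (v w : V) : dt (ap g v) (ap g w) = (det g : ℚ) * dt v w := by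
  simp only [dt, ap, det]
  push_cast
  ring

theorem dt_add (a : ℚ) (v w : V) : dt (v + a • w) w = dt v w := by
  simp [dt]; ring

theorem dt_sub (a : ℚ) (v w : V) : dt (v - a • w) w = dt v w := by
  simp [dt]; ring

/-- `dep` as a linear map -/
noncomputable def depL : Af →ₗ[ℂ] Af where
  toFun := dep
  map_add' F G := by
    funext v w z
    simp only [dep, Pi.add_apply, Pi.sub_apply, Pi.smul_apply, Rat.smul_def]
    ring
  map_smul' a F := by
    funext v w z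
    simp only [dep, Pi.add_apply, Pi.sub_apply, Pi.smul_apply, Rat.smul_def, smul_eq_mul,
      RingHom.id_apply]
    ring

/-- `tw` as a linear map -/
noncomputable def twL : Af →ₗ[ℂ] Af where
  toFun := tw
  map_add' F G := by
    funext v w z
    simp only [tw, Pi.add_apply, Pi.sub_apply, Pi.smul_apply, Rat.smul_def]
    ring
  map_smul' a F := by
    funext v w z
    simp only [tw, Pi.add_apply, Pi.sub_apply, Pi.smul_apply, Rat.smul_def, smul_eq_mul,
      RingHom.id_apply]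
    ring

theorem qs (q : ℚ) (h : ℂ → ℂ) : q • h = (q : ℂ) • h := by
  funext z
  simp only [Pi.smul_apply, Rat.smul_def, smul_eq_mul]

theorem lF_dep (hC : RowCU) (k : ℕ) (g : Mt) (F : Af) : lF k g (dep F) = dep (lF k g F) := by
  obtain ⟨L, hL⟩ := hC.lin k g
  funext v w
  simp only [lF, dep, ← hL, ap_add, ap_sub, ap_smul, qs, map_sub, map_add, map_smul]

theorem lF_tw (hO : RowOM) (hC : RowCU) (k : ℕ) (g : Mt) (F : Af) :
    lF k g (tw F) = ((om (det g : ℚ) : ℚ) : ℂ) • tw (lF k g F) := by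
  obtain ⟨L, hL⟩ := hC.lin k g
  funext v w
  simp only [lF, tw, ← hL, ap_add, ap_sub, ap_smul, qs, map_sub, map_smul, dt_ap, hO.1,
    Pi.smul_apply, smul_smul, Rat.cast_mul]

theorem om_pow (hO : RowOM) (a : ℕ) : om ((3 : ℚ) ^ a) = 1 := by
  induction a with
  | zero =>
    have h := hO.1 1 3
    rw [one_mul, hO.2.1, mul_one] at h
    simpa using h.symm
  | succ a ih => rw [pow_succ, hO.1, ih, hO.2.1, one_mul]

theorem inv_iff (k : ℕ) (g : Mt) (F : Af) :
    (∀ v w, sl k g (F (ap g v) (ap g w)) = F v w) ↔ lF k g F = F :=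
  ⟨fun h => by funext v w; exact h v w, fun h v w => congrFun (congrFun h v) w⟩

theorem cg (hB : RowBAS) (hC : RowCU) (k n : ℕ) (F : Af) (hn : 1 ≤ n) (hF : Aut k n F) (v w : V) :
    Cg k (F v w) := by
  obtain ⟨M, hM⟩ := hC.subg k
  by_cases hD : dt v w = 0
  · rw [hF.junk v w hD, ← hM]; exact M.zero_mem
  obtain ⟨O, hO⟩ := hB.ring
  have h3 : ∀ j : ℕ, (3 : ℚ) ^ j ∈ O := fun j => O.pow_mem (by exact_mod_cast natCast_mem O 3) j
  have big : ∀ x : ℚ, ∃ e : ℕ, ∀ f : ℕ, e ≤ f → 3 ^ f * x ∈ O := by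
    intro x
    obtain ⟨e, he⟩ := hB.big x
    refine ⟨e, fun f hf => ?_⟩
    obtain ⟨d, rfl⟩ := Nat.exists_eq_add_of_le hf
    have := O.mul_mem (h3 d) ((hO _).2 he)
    rwa [← mul_assoc, ← pow_add, add_comm] at this
  obtain ⟨a1, h1⟩ := big v.1
  obtain ⟨a2, h2⟩ := big v.2
  obtain ⟨a3, h3'⟩ := big w.1
  obtain ⟨a4, h4⟩ := big w.2
  obtain ⟨a5, h5⟩ := big (dt v w)⁻¹
  set a := a1 + a2 + a3 + a4 + a5 with ha
  have k1 := h1 a (by omega)
  have k2 := h2 a (by omega)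
  have k3 := h3' a (by omega)
  have k4 := h4 a (by omega)
  have k5 := h5 a (by omega)
  obtain ⟨n', rfl⟩ := Nat.exists_eq_add_of_le' hn
  refine ⟨n' + 1 + 3 * a, fun g hg ⟨m1, e1⟩ ⟨m2, e2⟩ ⟨m3, e3⟩ ⟨m4, e4⟩ => ?_⟩
  have q1 : (g.1 : ℚ) = 1 + 3 ^ (n' + 1 + 3 * a) * m1 := by
    have : g.1 = 1 + 3 ^ (n' + 1 + 3 * a) * m1 := by linarith
    exact_mod_cast this
  have q2 : (g.2.1 : ℚ) = 3 ^ (n' + 1 + 3 * a) * m2 := by exact_mod_cast e2
  have q3 : (g.2.2.1 : ℚ) = 3 ^ (n' + 1 + 3 * a) * m3 := by exact_mod_cast e3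
  have q4 : (g.2.2.2 : ℚ) = 1 + 3 ^ (n' + 1 + 3 * a) * m4 := by
    have : g.2.2.2 = 1 + 3 ^ (n' + 1 + 3 * a) * m4 := by linarith
    exact_mod_cast this
  have i1 := intCast_mem O m1
  have i2 := intCast_mem O m2
  have i3 := intCast_mem O m3
  have i4 := intCast_mem O m4
  have key : ∀ x y u : V, 3 ^ a * x.1 ∈ O → 3 ^ a * x.2 ∈ O → 3 ^ a * y.1 ∈ O → 3 ^ a * y.2 ∈ O →
      (3 ^ a * (dt v w)⁻¹ * ((m1 * (3 ^ a * x.1) + m2 * (3 ^ a * x.2)) * (3 ^ a * y.2) -
        (m3 * (3 ^ a * x.1) + m4 * (3 ^ a * x.2)) * (3 ^ a * y.1))) ∈ O := by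
    intro x y _ x1 x2 y1 y2
    exact O.mul_mem k5 (O.sub_mem
      (O.mul_mem (O.add_mem (O.mul_mem i1 x1) (O.mul_mem i2 x2)) y2)
      (O.mul_mem (O.add_mem (O.mul_mem i3 x1) (O.mul_mem i4 x2)) y1))
  have cα := key v w v k1 k2 k3 k4
  have cβ := O.neg_mem (key v v v k1 k2 k1 k2)
  have cγ := key w w v k3 k4 k3 k4
  have cδ := O.neg_mem (key w v v k3 k4 k1 k2)
  have u1 : Un (1 : ℚ) := by
    have := (hB.int 1).2.2 (by decide)
    simpa using this
  have uα := hB.unAdd _ _ u1 ((hO _).1 (O.mul_mem (h3 n') cα))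
  have uδ := hB.unAdd _ _ u1 ((hO _).1 (O.mul_mem (h3 n') cδ))
  have hr := hF.rk v w _ _ _ _ uα uδ ((hO _).1 cβ) ((hO _).1 cγ)
  have hi := hF.inv g 0 (by simpa using hg) v w
  have hD' : v.1 * w.2 - v.2 * w.1 ≠ 0 := hD
  rw [← hi]
  congr 1
  rw [hi, ← hr]
  congr 1
  · ext <;> simp only [ap, q1, q2, q3, q4, dt, Prod.fst_add, Prod.snd_add, Prod.smul_fst,
      Prod.smul_snd, smul_eq_mul] <;> field_simp <;> ring
  · ext <;> simp only [ap, q1, q2, q3, q4, dt, Prod.fst_add, Prod.snd_add, Prod.smul_fst,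
      Prod.smul_snd, smul_eq_mul] <;> field_simp <;> ring

end AUTA

open AUTA in
theorem rowAUT : OfAUT := by
  intro hB hO hL hC
  obtain ⟨O, hOr⟩ := hB.ring
  have h3 : (3 : ℚ) ∈ O := by exact_mod_cast natCast_mem O 3
  refine ⟨fun k n F hF => ⟨hF.junk, hF.cu, hF.inv, ?_⟩, fun k n F G a hF hG => ⟨?_, ?_, ?_, ?_⟩,
    fun k n F hn hF => ⟨?_, ?_, ?_, ?_⟩, cg hB hC, fun k r F hr hF h0 => ⟨⟨?_, ?_, ?_, ?_⟩,
      ⟨?_, ?_, ?_, ?_⟩, ?_⟩⟩
  · intro v w x y b c hx hy hb hc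
    have := hF.rk v w x y (3 * b) (3 * c) hx hy ((hOr _).1 (O.mul_mem h3 ((hOr _).2 hb)))
      ((hOr _).1 (O.mul_mem h3 ((hOr _).2 hc)))
    rw [← this, pow_succ, mul_assoc, mul_assoc]
  · intro v w h
    simp [hF.junk v w h, hG.junk v w h]
  · intro v w
    obtain ⟨M, hM⟩ := hC.sub k
    exact (hM _).1 (M.add_mem ((hM _).2 (hF.cu v w)) (M.smul_mem a ((hM _).2 (hG.cu v w))))
  · intro g e hg v w
    obtain ⟨L, hL'⟩ := hC.lin k g
    have h1 := hF.inv g e hg v w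
    have h2 := hG.inv g e hg v w
    rw [← hL'] at h1 h2 ⊢
    simp only [Pi.add_apply, Pi.smul_apply, map_add, map_smul, h1, h2]
  · intro v w x y b c hx hy hb hc
    simp only [Pi.add_apply, Pi.smul_apply, hF.rk v w x y b c hx hy hb hc,
      hG.rk v w x y b c hx hy hb hc]
  · intro v w h
    have : dt w ((3 : ℚ) • v) = 0 := by
      have h' : dt w ((3 : ℚ) • v) = -3 * dt v w := by simp [dt]; ring
      rw [h', h, mul_zero]
    simp [Fw, hF.junk _ _ this]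
  · intro v w
    obtain ⟨M, hM⟩ := hC.sub k
    exact (hM _).1 (M.smul_mem _ ((hM _).2 (hF.cu _ _)))
  · intro g e hg v w
    obtain ⟨L, hL'⟩ := hC.lin k g
    have h1 := hF.inv g e hg w ((3 : ℚ) • v)
    rw [← hL'] at h1 ⊢
    simp only [Fw, map_smul, ← ap_smul, h1]
  · intro v w x y b c hx hy hb hc
    have := hF.rk w ((3 : ℚ) • v) y x c (3 * (3 * b)) hy hx hc
      ((hOr _).1 (O.mul_mem h3 (O.mul_mem h3 ((hOr _).2 hb))))
    simp only [Fw]
    rw [← this]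
    congr 2
    · ext <;> simp <;> ring
    · ext <;> simp <;> ring
  · intro v w h
    simp [dep, hF.junk v w h, hF.junk _ w ((dt_add _ v w).trans h),
      hF.junk _ w ((dt_sub _ v w).trans h), -one_div]
  · intro v w
    obtain ⟨M, hM⟩ := hC.sub k
    have c := fun v w => (hM _).2 (hF.cu v w)
    simp only [dep, qs]
    exact (hM _).1 (M.sub_mem (c _ _) (M.smul_mem _ (M.add_mem (M.add_mem (c _ _) (c _ _)) (c _ _))))
  · intro g e hg
    rw [inv_iff, lF_dep hC, (inv_iff k g F).1 (hF.inv g e hg)]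
  · exact (hL.rk _ _ r (by omega) (hL.ops _ F r hr h0).1).1
  · intro v w h
    simp [tw, hF.junk _ w ((dt_add _ v w).trans h), hF.junk _ w ((dt_sub _ v w).trans h), -one_div]
  · intro v w
    obtain ⟨M, hM⟩ := hC.sub k
    have c := fun v w => (hM _).2 (hF.cu v w)
    simp only [tw, qs]
    exact (hM _).1 (M.smul_mem _ (M.sub_mem (c _ _) (c _ _)))
  · intro g e hg
    rw [inv_iff, lF_tw hO hC, (inv_iff k g F).1 (hF.inv g e hg), hg]
    push_cast
    rw [om_pow hO]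
    simp
  · exact (hL.rk _ _ r (by omega) (hL.ops _ F r hr h0).2.1).1
  · rintro l - ⟨a, ha⟩
    constructor
    · refine ⟨a, ?_⟩
      have := congrArg depL ha
      rw [map_smul, TF, map_add, map_sum] at this
      simp only [TF, lF_dep hC]
      exact this
    · refine ⟨((om (l : ℚ) : ℚ) : ℂ) * a, ?_⟩
      have := congrArg twL ha
      rw [map_smul, TF, map_add, map_sum] at this
      have d1 : ((det ((l : ℤ), 0, 0, 1) : ℤ) : ℚ) = l := by simp [det]
      have d2 : ∀ j : ℕ, ((det (1, (j : ℤ), 0, (l : ℤ)) : ℤ) : ℚ) = l := by intro j; simp [det]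
      simp only [TF, lF_tw hO hC, d1, d2]
      rw [← Finset.smul_sum, ← smul_add, mul_smul]
      congr 1

end Pool.Agent.MP_5f72fe_nt.MS
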