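import Pool.Agent.MP_5f72fe_nt.MS.S1

/-! Arithmetic of the rationals that are integral at `3`. -/

namespace Pool.Agent.MP_5f72fe_nt.MS

namespace BASA

theorem p3 : Prime (3 : ℤ) := Int.prime_three

theorem in_iff (x : ℚ) : In x ↔ ∃ d n : ℤ, ¬ 3 ∣ d ∧ (d : ℚ) * x = n := by
  constructor
  · intro h
    refine ⟨x.den, x.num, fun h' => h (by exact_mod_cast h'), ?_⟩
    simp
  · rintro ⟨d, n, hd, e⟩ h
    have hd0 : (d : ℚ) ≠ 0 := by
      intro h0
      apply hd
      have : d = 0 := by exact_mod_cast h0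
      simp [this]
    have hx : x = Rat.divInt n d := by
      rw [Rat.divInt_eq_div, eq_div_iff hd0, mul_comm, e]
    have h1 : ((x.den : ℕ) : ℤ) ∣ d := by
      rw [hx]; exact Rat.den_dvd n d
    exact hd ((show (3 : ℤ) ∣ ((x.den : ℕ) : ℤ) by exact_mod_cast h).trans h1)

theorem nd_mul {d d' : ℤ} (h : ¬ 3 ∣ d) (h' : ¬ 3 ∣ d') : ¬ 3 ∣ d * d' := fun e =>
  (p3.dvd_or_dvd e).elim h h'

theorem in_int (n : ℤ) : In n := (in_iff _).2 ⟨1, n, by decide, by simp⟩

theorem in_add {x y : ℚ} (hx : In x) (hy : In y) : In (x + y) := by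
  obtain ⟨d, n, hd, e⟩ := (in_iff _).1 hx
  obtain ⟨d', n', hd', e'⟩ := (in_iff _).1 hy
  refine (in_iff _).2 ⟨d * d', n * d' + n' * d, nd_mul hd hd', ?_⟩
  push_cast
  linear_combination (d' : ℚ) * e + (d : ℚ) * e'

theorem in_mul {x y : ℚ} (hx : In x) (hy : In y) : In (x * y) := by
  obtain ⟨d, n, hd, e⟩ := (in_iff _).1 hx
  obtain ⟨d', n', hd', e'⟩ := (in_iff _).1 hy
  refine (in_iff _).2 ⟨d * d', n * n', nd_mul hd hd', ?_⟩
  push_cast
  rw [← e, ← e']
  ring

theorem in_neg {x : ℚ} (hx : In x) : In (-x) := by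
  have := in_mul (in_int (-1)) hx
  simpa using this

theorem in_sub {x y : ℚ} (hx : In x) (hy : In y) : In (x - y) := by
  rw [sub_eq_add_neg]; exact in_add hx (in_neg hy)

theorem in_one : In 1 := by simpa using in_int 1

theorem in_zero : In 0 := by simpa using in_int 0

theorem cop {d : ℤ} (hd : ¬ 3 ∣ d) (j : ℕ) : IsCoprime ((3 : ℤ) ^ j) d :=
  IsCoprime.pow_left ((Prime.coprime_iff_not_dvd p3).2 hd)

theorem key {x : ℚ} {d n : ℤ} (hd : ¬ 3 ∣ d) (e : (d : ℚ) * x = n) (j : ℕ) :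
    In (x / 3 ^ j) ↔ 3 ^ j ∣ n := by
  have h3 : (3 : ℚ) ^ j ≠ 0 := by positivity
  constructor
  · intro h
    obtain ⟨d', n', hd', e'⟩ := (in_iff _).1 h
    have h1 : (d' : ℚ) * x = 3 ^ j * n' := by
      rw [← e']; field_simp
    have h2 : d' * n = 3 ^ j * (d * n') := by
      have : (d' : ℚ) * n = 3 ^ j * (d * n') := by
        linear_combination (d : ℚ) * h1 - (d' : ℚ) * e
      exact_mod_cast this
    exact (cop hd' j).dvd_of_dvd_mul_left ⟨_, h2⟩
  · rintro ⟨k, rfl⟩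
    refine (in_iff _).2 ⟨d, k, hd, ?_⟩
    push_cast at e
    rw [← mul_div_assoc, e]
    field_simp

theorem key1 {x : ℚ} {d n : ℤ} (hd : ¬ 3 ∣ d) (e : (d : ℚ) * x = n) :
    In (x / 3) ↔ 3 ∣ n := by
  simpa using key hd e 1

theorem un_iff (x : ℚ) : Un x ↔ In x ∧ ¬ In (x / 3) := by
  unfold Un
  refine and_congr_right fun h => not_congr (key1 (d := x.den) (n := x.num) ?_ ?_).symm
  · exact fun h' => h (by exact_mod_cast h')
  · simp

theorem un_iff2 (x : ℚ) : Un x ↔ ∃ d n : ℤ, ¬ 3 ∣ d ∧ ¬ 3 ∣ n ∧ (d : ℚ) * x = n := by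
  rw [un_iff]
  constructor
  · rintro ⟨h, h'⟩
    obtain ⟨d, n, hd, e⟩ := (in_iff _).1 h
    exact ⟨d, n, hd, fun hn => h' ((key1 hd e).2 hn), e⟩
  · rintro ⟨d, n, hd, hn, e⟩
    exact ⟨(in_iff _).2 ⟨d, n, hd, e⟩, fun h => hn ((key1 hd e).1 h)⟩

theorem un_iff3 (x : ℚ) : Un x ↔ x ≠ 0 ∧ In x ∧ In x⁻¹ := by
  rw [un_iff2]
  constructor
  · rintro ⟨d, n, hd, hn, e⟩
    have hx : x ≠ 0 := by
      rintro rfl
      apply hn
      have : n = 0 := by
        have : (n : ℚ) = 0 := by rw [← e, mul_zero]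
        exact_mod_cast this
      simp [this]
    refine ⟨hx, (in_iff _).2 ⟨d, n, hd, e⟩, (in_iff _).2 ⟨n, d, hn, ?_⟩⟩
    rw [← e]; field_simp
  · rintro ⟨hx, h, h'⟩
    obtain ⟨d, n, hd, e⟩ := (in_iff _).1 h
    obtain ⟨d', n', hd', e'⟩ := (in_iff _).1 h'
    refine ⟨d, n, hd, fun hn => nd_mul hd hd' ?_, e⟩
    have h2 : d * d' = n * n' := by
      have : (d : ℚ) * d' = n * n' := by
        rw [← e, ← e']; field_simp
      exact_mod_cast this
    rw [h2]
    exact hn.mul_right _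

theorem un_mul {x y : ℚ} (hx : Un x) (hy : Un y) : Un (x * y) := by
  obtain ⟨h1, h2, h3⟩ := (un_iff3 _).1 hx
  obtain ⟨h4, h5, h6⟩ := (un_iff3 _).1 hy
  refine (un_iff3 _).2 ⟨mul_ne_zero h1 h4, in_mul h2 h5, ?_⟩
  rw [mul_inv]
  exact in_mul h3 h6

theorem un_inv {x : ℚ} (hx : Un x) : Un x⁻¹ := by
  obtain ⟨h1, h2, h3⟩ := (un_iff3 _).1 hx
  refine (un_iff3 _).2 ⟨inv_ne_zero h1, h3, ?_⟩
  rwa [inv_inv]

theorem un_neg {x : ℚ} (hx : Un x) : Un (-x) := by
  obtain ⟨h1, h2, h3⟩ := (un_iff3 _).1 hx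
  refine (un_iff3 _).2 ⟨neg_ne_zero.2 h1, in_neg h2, ?_⟩
  rw [inv_neg]
  exact in_neg h3

theorem fac {n : ℤ} (hn : n ≠ 0) : ∃ (a : ℕ) (k : ℤ), n = 3 ^ a * k ∧ ¬ 3 ∣ k := by
  have h : FiniteMultiplicity (3 : ℤ) n := Int.finiteMultiplicity_iff.2 ⟨by decide, hn⟩
  obtain ⟨k, h1, h2⟩ := h.exists_eq_pow_mul_and_not_dvd
  exact ⟨_, k, h1, h2⟩

section Red

variable {m j : ℕ}

theorem unit_d (hm : m = 3 ^ j) {d : ℤ} (hd : ¬ 3 ∣ d) : IsUnit (d : ZMod m) := by
  obtain ⟨a, b, e⟩ := cop hd j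
  have h1 : ((3 : ZMod m)) ^ j = 0 := by
    have : ((m : ℕ) : ZMod m) = 0 := ZMod.natCast_self m
    rw [← this]
    conv_rhs => rw [show ((m : ℕ) : ZMod m) = ((3 ^ j : ℕ) : ZMod m) by rw [← hm]]
    push_cast
    rfl
  have h2 : (b : ZMod m) * d = 1 := by
    have := congrArg (fun z : ℤ => (z : ZMod m)) e
    simp only [Int.cast_add, Int.cast_mul, Int.cast_pow, Int.cast_ofNat, Int.cast_one, h1,
      mul_zero, zero_add] at this
    exact this
  exact IsUnit.of_mul_eq_one_right _ h2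

theorem red_spec (hm : m = 3 ^ j) {x : ℚ} (hx : In x) {d n : ℤ} (e : (d : ℚ) * x = n) :
    (d : ZMod m) * red m x = n := by
  have hc : Nat.Coprime x.den m := by
    rw [hm]
    exact Nat.Coprime.pow_right _
      ((Nat.Prime.coprime_iff_not_dvd Nat.prime_three).2 hx).symm
  have h1 : (x.den : ZMod m) * (x.den : ZMod m)⁻¹ = 1 := ZMod.coe_mul_inv_eq_one _ hc
  have h2 : d * x.num = n * x.den := by
    have : (d : ℚ) * x.num = n * x.den := by
      rw [← e, mul_assoc, Rat.mul_den_eq_num]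
    exact_mod_cast this
  have h3 : (d : ZMod m) * x.num = n * x.den := by
    have := congrArg (fun z : ℤ => (z : ZMod m)) h2
    simpa using this
  unfold red
  rw [← mul_assoc, h3, mul_assoc, h1, mul_one]

theorem red_add (hm : m = 3 ^ j) (x y : ℚ) (hx : In x) (hy : In y) :
    red m (x + y) = red m x + red m y := by
  obtain ⟨d, n, hd, e⟩ := (in_iff _).1 hx
  obtain ⟨d', n', hd', e'⟩ := (in_iff _).1 hy
  have h1 := red_spec hm hx e
  have h2 := red_spec hm hy e'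
  have h3 := red_spec hm (in_add hx hy) (d := d * d') (n := n * d' + n' * d) (by
    push_cast
    linear_combination (d' : ℚ) * e + (d : ℚ) * e')
  refine (unit_d hm (nd_mul hd hd')).mul_left_cancel ?_
  rw [h3]
  push_cast
  rw [← h1, ← h2]
  ring

theorem red_mul (hm : m = 3 ^ j) (x y : ℚ) (hx : In x) (hy : In y) :
    red m (x * y) = red m x * red m y := by
  obtain ⟨d, n, hd, e⟩ := (in_iff _).1 hx
  obtain ⟨d', n', hd', e'⟩ := (in_iff _).1 hy
  have h1 := red_spec hm hx e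
  have h2 := red_spec hm hy e'
  have h3 := red_spec hm (in_mul hx hy) (d := d * d') (n := n * n') (by
    push_cast
    rw [← e, ← e']
    ring)
  refine (unit_d hm (nd_mul hd hd')).mul_left_cancel ?_
  rw [h3]
  push_cast
  rw [← h1, ← h2]
  ring

theorem red_int (hm : m = 3 ^ j) (n : ℤ) : red m n = n := by
  have := red_spec hm (in_int n) (d := 1) (n := n) (by simp)
  simpa using this

theorem red_zero (hm : m = 3 ^ j) (x : ℚ) (hx : In x) : red m x = 0 ↔ In (x / 3 ^ j) := by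
  obtain ⟨d, n, hd, e⟩ := (in_iff _).1 hx
  have h1 := red_spec hm hx e
  rw [key hd e, ← (unit_d hm hd).mul_right_eq_zero, h1, ZMod.intCast_zmod_eq_zero_iff_dvd, hm]
  push_cast
  rfl

end Red

theorem ex_nat (x : ℚ) (n : ℕ) (hx : In x) : ∃ m : ℕ, m < 3 ^ n ∧ In ((x - m) / 3 ^ n) := by
  have : NeZero (3 ^ n) := ⟨by positivity⟩
  refine ⟨(red (3 ^ n) x).val, ZMod.val_lt _, ?_⟩
  have h1 : x - ((red (3 ^ n) x).val : ℚ) = x + ((-((red (3 ^ n) x).val : ℤ) : ℤ) : ℚ) := by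
    push_cast; ring
  rw [h1, ← red_zero rfl _ (in_add hx (in_int _)), red_add rfl _ _ hx (in_int _), red_int rfl]
  push_cast
  rw [ZMod.natCast_zmod_val, add_neg_cancel]

end BASA

open BASA in
theorem rowBAS : RowBAS where
  ring := ⟨{ carrier := {x | In x}
             mul_mem' := in_mul
             one_mem' := in_one
             add_mem' := in_add
             zero_mem' := in_zero
             neg_mem' := in_neg }, fun _ => Iff.rfl⟩
  int n := by
    have h : In ((n : ℚ) / 3) ↔ 3 ∣ n := key1 (d := 1) (by decide) (by simp)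
    refine ⟨h, ?_⟩
    rw [un_iff, h]
    exact and_iff_right (in_int n)
  un := un_iff
  un' := un_iff3
  unMul x y hx hy := ⟨un_mul hx hy, by
    rw [div_eq_mul_inv]; exact un_mul hx (un_inv hy), un_inv hx, un_neg hx⟩
  unAdd x y hx hy := by
    obtain ⟨h1, h2⟩ := (un_iff _).1 hx
    have h3 : In (3 : ℚ) := by simpa using in_int 3
    refine (un_iff _).2 ⟨in_add h1 (in_mul h3 hy), fun h => h2 ?_⟩
    have := in_sub h hy
    rwa [show (x + 3 * y) / 3 - y = x / 3 by ring] at this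
  div x y hx hy := by
    rw [div_eq_mul_inv]
    exact in_mul hx ((un_iff3 _).1 hy).2.2
  prime x y hx hy h := by
    by_contra hc
    rw [not_or] at hc
    exact ((un_iff _).1 (un_mul ((un_iff _).2 ⟨hx, hc.1⟩) ((un_iff _).2 ⟨hy, hc.2⟩))).2 h
  tri x hx := by
    obtain ⟨m, h1, h2⟩ := ex_nat x 1 hx
    rw [pow_one] at h1 h2
    interval_cases m
    · left; simpa using h2
    · right; left; simpa using h2
    · right; right
      have := in_add h2 in_one
      rwa [show (x - ((2 : ℕ) : ℚ)) / 3 + 1 = (x + 1) / 3 by push_cast; ring] at this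
  nat := ex_nat
  val x hx := by
    obtain ⟨a, k, h1, h2⟩ := fac (Rat.num_ne_zero.2 hx)
    obtain ⟨b, d, h3, h4⟩ := fac (n := (x.den : ℤ)) (by exact_mod_cast x.den_ne_zero)
    refine ⟨(b : ℤ) - a, (un_iff2 _).2 ⟨d, k, h4, h2, ?_⟩⟩
    have h5 : x * (3 ^ b * d) = 3 ^ a * k := by
      have h6 : (x.den : ℚ) = 3 ^ b * d := by exact_mod_cast h3
      have h7 : (x.num : ℚ) = 3 ^ a * k := by exact_mod_cast h1
      rw [← h6, ← h7, Rat.mul_den_eq_num]
    rw [zpow_sub₀ (by norm_num), zpow_natCast, zpow_natCast]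
    field_simp
    linear_combination h5
  big x := by
    obtain ⟨b, d, h3, h4⟩ := fac (n := (x.den : ℤ)) (by exact_mod_cast x.den_ne_zero)
    refine ⟨b, (in_iff _).2 ⟨d, x.num, h4, ?_⟩⟩
    have h6 : (x.den : ℚ) = 3 ^ b * d := by exact_mod_cast h3
    rw [← Rat.mul_den_eq_num, h6]
    ring
  sep x h := by
    have hx : In x := by simpa using h 0
    obtain ⟨d, n, hd, e⟩ := (in_iff _).1 hx
    by_contra h0
    have hn : n ≠ 0 := by
      rintro rfl
      have hd0 : d = 0 := by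
        have : (d : ℚ) = 0 := by simpa [h0] using e
        exact_mod_cast this
      exact hd (by simp [hd0])
    obtain ⟨a, k, h1, h2⟩ := fac hn
    have h3 := (key hd e (a + 1)).1 (h _)
    rw [h1, pow_succ] at h3
    exact h2 ((mul_dvd_mul_iff_left (by positivity)).1 h3)
  zint x e n hx h := by
    have h3 : (3 : ℚ) ^ e ≠ 0 := by positivity
    have h1 : x = (n : ℚ) / 3 ^ e := by rw [← h]; field_simp
    obtain ⟨m, hm⟩ := (key (x := (n : ℚ)) (d := 1) (n := n) (by decide) (by simp) e).1 (h1 ▸ hx)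
    refine ⟨m, ?_⟩
    rw [h1, hm]
    push_cast
    field_simp
  redAdd _ := red_add rfl
  redMul _ := red_mul rfl
  redInt _ := red_int rfl
  redZero _ := red_zero rfl
  red3 := ⟨red_add (j := 1) (by norm_num), red_mul (j := 1) (by norm_num),
    red_int (j := 1) (by norm_num), fun x hx => by
      simpa using red_zero (m := 3) (j := 1) (by norm_num) x hx⟩

end Pool.Agent.MP_5f72fe_nt.MS
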