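import Pool.Agent.MP_5f72fe_nt.MS.S2

/-! Symbols with polynomial coefficients: the diagonal, linear maps, the sign, rectangles. -/

namespace Pool.Agent.MP_5f72fe_nt.MS

open scoped NumberTheorySymbols

namespace BDA

lemma in_zero : In 0 := by simp [In]

lemma dt_ap (g : Mt) (v w : V) : dt (ap g v) (ap g w) = det g * dt v w := by
  simp only [dt, ap, det]; push_cast; ring

lemma ap_add (g : Mt) (v w : V) : ap g (v + w) = ap g v + ap g w := by
  ext <;> simp only [ap, Prod.fst_add, Prod.snd_add] <;> ring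

lemma ap_smul (g : Mt) (l : ℚ) (v : V) : ap g (l • v) = l • ap g v := by
  ext <;> simp only [ap, Prod.smul_fst, Prod.smul_snd, smul_eq_mul] <;> ring

lemma ap_zero (g : Mt) : ap g 0 = 0 := by ext <;> simp [ap]

lemma apN_ne {c : V} (h : c ≠ 0) : ap mN c ≠ 0 := fun e => h (by
  have h1 := congrArg Prod.fst e
  have h2 := congrArg Prod.snd e
  simp [ap, mN] at h1 h2
  exact Prod.ext h1 h2)

lemma dt_N (v w : V) : dt (ap mN v) (ap mN w) = -dt v w := by
  rw [dt_ap]; simp [det, mN]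

lemma N_ap (g : Mt) (c : V) : ap mN (ap g c) = ap (mul mN (mul g mN)) (ap mN c) := by
  ext <;> simp [ap, mul, mN, add_comm]

lemma det_N (g : Mt) : det (mul mN (mul g mN)) = det g := by
  simp [det, mul, mN]

lemma dt_smul (x y : ℚ) (v w : V) : dt (x • v) (y • w) = x * y * dt v w := by
  simp only [dt, Prod.smul_fst, Prod.smul_snd, smul_eq_mul]; ring

variable {K : Type} [AddCommGroup K] [Module ℚ K] {k n : ℕ} {B : Bf K}

lemma hp_map {m : ℕ} {P : V → K} (h : Hp m P) (l : K →ₗ[ℚ] ℚ) : Hp m fun x => l (P x) := by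
  obtain ⟨β, h⟩ := h
  exact ⟨fun i => l (β i), fun x => by simp only [h, map_sum, map_smul]⟩

lemma sy (hb : RowBAS) (hi : RowINT) (h : BD k n B) : Sy (ph k B) where
  junk c c' v w hc := by rw [ph, h.junk _ _ _ _ _ _ hc, smul_zero]
  ad v w := ⟨fun c l hc hl => by rw [ph, (h.ad v w v w).hom c l hc hl, smul_zero],
    fun c c' c'' h1 h2 h3 => by
      simp only [ph]
      rw [← smul_add, (h.ad v w v w).add c c' c'' h1 h2 h3]⟩
  inv g a hg := by
    funext c c' v w
    have h0 : (det g : ℚ) ≠ 0 := by rw [hg]; positivity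
    simp only [lf, ph]
    rw [h.inv g a hg, dt_ap, smul_smul, ← mul_pow, mul_inv, mul_right_comm, inv_mul_cancel₀ h0,
      one_mul]
  tor c c' v w x y hx hy := by
    have h1 := h.rk c c' (x • v) (y • w) v w x y 0 0 hx hy in_zero in_zero
    have h2 := (hi.hom K _ _ (h.p1 c c' v w (y • w))).1 x v
    have h3 := (hi.hom K _ _ (h.p2 c c' v w v)).1 y w
    have hx0 := ((hb.un' x).1 hx).1
    have hy0 := ((hb.un' y).1 hy).1
    simp only [mul_zero, zero_smul, add_zero] at h1
    simp only [ph]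
    rw [h1, h2, h3, dt_smul, smul_smul, smul_smul, ← mul_pow, ← mul_pow]
    congr 2
    field_simp

lemma lin (h : BD k n B) (l : K →ₗ[ℚ] ℚ) : BD k n fun c c' v w x y => l (B c c' v w x y) where
  junk c c' v w x y hc := by rw [h.junk _ _ _ _ _ _ hc, map_zero]
  ad v w x y := ⟨fun c a hc hl => by rw [(h.ad v w x y).hom c a hc hl, map_zero],
    fun c c' c'' h1 h2 h3 => by rw [← map_add, (h.ad v w x y).add c c' c'' h1 h2 h3]⟩
  inv g a hg c c' v w x y := by rw [h.inv g a hg, map_smul]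
  rk c c' x y v w a b d e h1 h2 h3 h4 := congrArg l (h.rk c c' x y v w a b d e h1 h2 h3 h4)
  p1 c c' v w y := hp_map (h.p1 c c' v w y) l
  p2 c c' v w x := hp_map (h.p2 c c' v w x) l

lemma sym (hi : RowINT) (h : BD k n B) (η : ℚ) : BD k n fun c c' v w x y => B c c' v w x y +
    η • B (ap mN c) (ap mN c') (ap mN v) (ap mN w) (ap mN x) (ap mN y) where
  junk c c' v w x y hc := by
    rw [h.junk _ _ _ _ _ _ hc, h.junk, smul_zero, add_zero]
    rcases hc with rfl | rfl | hc
    · exact Or.inl (ap_zero _)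
    · exact Or.inr (Or.inl (ap_zero _))
    · exact Or.inr (Or.inr (by rw [dt_N, hc, neg_zero]))
  ad v w x y := ⟨fun c a hc hl => by
      rw [(h.ad v w x y).hom c a hc hl, ap_smul, (h.ad _ _ _ _).hom _ a (apN_ne hc) hl, smul_zero,
        add_zero],
    fun c c' c'' h1 h2 h3 => by
      rw [← (h.ad v w x y).add c c' c'' h1 h2 h3,
        ← (h.ad (ap mN v) (ap mN w) (ap mN x) (ap mN y)).add _ _ _ (apN_ne h1) (apN_ne h2)
          (apN_ne h3), smul_add]
      abel⟩
  inv g a hg c c' v w x y := by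
    simp only [N_ap g]
    rw [h.inv g a hg, h.inv _ a ((det_N g).trans hg), det_N, smul_add, smul_comm η]
  rk c c' x y v w a b d e h1 h2 h3 h4 := by
    have e1 := h.rk c c' x y v w a b d e h1 h2 h3 h4
    have e2 := h.rk (ap mN c) (ap mN c') (ap mN x) (ap mN y) (ap mN v) (ap mN w) a b d e h1 h2 h3 h4
    simp only [ap_add, ap_smul] at e1 e2 ⊢
    rw [e1, e2]
  p1 c c' v w y := by
    obtain ⟨M, hM⟩ := hi.sub K (k - 1)
    exact (hM _).1 (M.add_mem ((hM _).2 (h.p1 c c' v w y)) (M.smul_mem η ((hM _).2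
      ((hi.hom K _ _ (h.p1 (ap mN c) (ap mN c') (ap mN v) (ap mN w) (ap mN y))).2.2 mN))))
  p2 c c' v w x := by
    obtain ⟨M, hM⟩ := hi.sub K (k - 1)
    exact (hM _).1 (M.add_mem ((hM _).2 (h.p2 c c' v w x)) (M.smul_mem η ((hM _).2
      ((hi.hom K _ _ (h.p2 (ap mN c) (ap mN c') (ap mN v) (ap mN w) (ap mN x))).2.2 mN))))

end BDA

open BDA

theorem rowBD : OfBD := by
  intro hb hi K _ _ k n B h
  refine ⟨sy hb hi h, lin h, sym hi h, fun ε => ?_⟩
  funext c c' v w
  simp only [ph, cj, lf, Pi.add_apply, Pi.smul_apply, smul_add, dt_N]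
  rw [← Int.cast_smul_eq_zsmul ℚ, smul_smul, smul_smul, inv_neg, neg_pow (dt v w)⁻¹]
  congr 2
  ring

theorem rowTHMB : OfTHMB := by
  intro ho hd hn hp hr τ ε N k n K _ _ B hτ hε hs h1 h2 h3 h4 h h5 h6 h7 M c c' x y hM v w α β
    a1 a2 a3 a4
  refine (Module.forall_dual_apply_eq_zero_iff ℚ _).1 fun l => ?_
  obtain ⟨s1, s2, -⟩ := hd K k n B h
  have hl := s2 l
  obtain ⟨e, b1, b2⟩ := hn k n _ h4 hl
  let i : K →+ ℚ := ((3 : ℚ) ^ e • l).toAddMonoidHom
  have hi : (fun c c' v w => 3 ^ e * ph k (fun c c' v w x y => l (B c c' v w x y)) c c' v w) =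
      fun c c' v w => i (ph k B c c' v w) := by
    funext c c' v w
    simp [i, ph, mul_left_comm]
  obtain ⟨m1, -, m2⟩ := ho.map K ℚ i (ph k B)
  have hc := hp τ ε N _ hτ hε hs h1 h2 h3 (hi ▸ m1 s1) b1 b2 (by
    rw [hi]
    funext c c' v w
    exact (congrArg i (congrFun (congrFun (congrFun (congrFun h5 c) c') v) w)).trans
      (map_zsmul i _ _)) (by
    rw [hi]
    funext c c' v w
    exact (map_neg i _).symm.trans ((congrArg i
      (congrFun (congrFun (congrFun (congrFun h6 c) c') v) w)).trans (map_zsmul i _ _)))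
    (fun l => by rw [hi, m2, h7, map_zero]) c c'
  have := hr τ (k - 1) n e (fun v w x y => l (B c c' v w x y)) hτ h4 (hl.rk c c') (hl.p1 c c')
    (hl.p2 c c') hc M x y hM v w α β a1 a2 a3 a4
  simpa only [Rc, map_sum, map_zsmul, map_add, map_sub] using this

end Pool.Agent.MP_5f72fe_nt.MS
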