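import Pool.Agent.MP_5f72fe_nt.MS.S1

/-! Row BN: Newton coefficients and binomial coefficients modulo `3`. -/

namespace Pool.Agent.MP_5f72fe_nt.MS

namespace BNA

set_option linter.unusedSectionVars false

open Finset

theorem co1_eq (b : ℚ → F3) (i : ℕ) :
    co1 b i = ∑ k ∈ range (i + 1), ((-1 : ℤ) ^ (i - k) * i.choose k) • b k := by
  simp only [co1, fwdDiff_iter_eq_sum_shift, zero_add, nsmul_eq_mul, mul_one]

theorem congr (b b' : ℚ → F3) (h : ∀ m : ℕ, b m = b' m) : co1 b = co1 b' := by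
  funext i
  simp only [co1_eq, h]

theorem co1_cast (b : ℚ → F3) (f : ℕ → ℤ) (h : ∀ m : ℕ, b m = (f m : F3)) (i : ℕ) :
    co1 b i = (((fwdDiff (1 : ℕ))^[i] f 0 : ℤ) : F3) := by
  simp only [co1_eq, h, fwdDiff_iter_eq_sum_shift, zero_add, smul_eq_mul, mul_one, zsmul_eq_mul,
    Int.cast_sum, Int.cast_mul]

theorem co1_add (b b' : ℚ → F3) (i : ℕ) : co1 (b + b') i = co1 b i + co1 b' i := by
  simp only [co1, fwdDiff_iter_add, Pi.add_apply]

theorem co1_iter (b : ℚ → F3) (k n : ℕ) : co1 ((fwdDiff (1 : ℚ))^[n] b) k = co1 b (k + n) := by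
  simp only [co1, Function.iterate_add_apply]

theorem co1_succ (b : ℚ → F3) (k : ℕ) : co1 (fwdDiff (1 : ℚ) b) k = co1 b (k + 1) :=
  co1_iter b k 1

theorem z1_iff (b : ℚ → F3) (n : ℕ) : Z1 n b ↔ ∀ m : ℕ, (fwdDiff (1 : ℚ))^[n] b m = 0 := by
  constructor
  · intro h m
    have h1 := shift_eq_sum_fwdDiff_iter (1 : ℚ) ((fwdDiff (1 : ℚ))^[n] b) m 0
    rw [zero_add, nsmul_eq_mul, mul_one] at h1
    rw [h1]
    refine sum_eq_zero fun k _ => ?_
    have h2 : (fwdDiff (1 : ℚ))^[k] ((fwdDiff (1 : ℚ))^[n] b) 0 = 0 :=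
      (co1_iter b k n).trans (h _ (by omega))
    rw [h2, smul_zero]
  · intro h i hi
    obtain ⟨k, rfl⟩ := Nat.exists_eq_add_of_le' hi
    rw [← co1_iter, co1_eq]
    simp only [h, smul_zero, sum_const_zero]

theorem z1_mono {b : ℚ → F3} {n n' : ℕ} (h : Z1 n b) (hn : n ≤ n') : Z1 n' b :=
  fun i hi => h i (hn.trans hi)

theorem z1_succ (b : ℚ → F3) (n : ℕ) : Z1 (n + 1) b ↔ Z1 n (fwdDiff (1 : ℚ) b) := by
  simp only [z1_iff, Function.iterate_succ_apply]

theorem mul0 (b b' : ℚ → F3) (h : Z1 0 b') : Z1 0 (b * b') := by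
  rw [z1_iff] at h ⊢
  intro m
  have h1 : b' m = 0 := h m
  simp [h1]

theorem co1_shift (b : ℚ → F3) (i : ℕ) : co1 (fun u => b (u + 1)) i = co1 b i + co1 b (i + 1) := by
  rw [← co1_succ, ← co1_add]
  congr 1
  funext u
  simp [fwdDiff]

theorem leib (b b' : ℚ → F3) : fwdDiff (1 : ℚ) (b * b') =
    fwdDiff (1 : ℚ) b * (fun u => b' (u + 1)) + b * fwdDiff (1 : ℚ) b' := by
  funext u
  simp only [fwdDiff, Pi.add_apply, Pi.mul_apply]
  ring

theorem mul_aux (s : ℕ) : ∀ (b b' : ℚ → F3) (m n : ℕ), m + n = s → Z1 (m + 1) b → Z1 (n + 1) b' →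
    Z1 (s + 1) (b * b') ∧ co1 (b * b') s = (s.choose m : ℕ) * co1 b m * co1 b' n := by
  induction s with
  | zero =>
    intro b b' m n h hb hb'
    obtain rfl : m = 0 := by omega
    obtain rfl : n = 0 := by omega
    refine ⟨?_, by simp [co1]⟩
    rw [z1_succ] at hb hb' ⊢
    rw [leib, mul_comm (fwdDiff _ b)]
    intro i hi
    rw [co1_add, mul0 _ _ hb i hi, mul0 _ _ hb' i hi, add_zero]
  | succ s ih =>
    intro b b' m n h hb hb'
    have hs : Z1 (n + 1) fun u => b' (u + 1) := fun i hi => by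
      rw [co1_shift, hb' i hi, hb' _ (by omega), add_zero]
    have h1 : Z1 (s + 1) (fwdDiff (1 : ℚ) b * fun u => b' (u + 1)) ∧
        co1 (fwdDiff (1 : ℚ) b * fun u => b' (u + 1)) s =
          (s.choose n : ℕ) * co1 b m * co1 b' n := by
      rw [z1_succ] at hb
      rcases m with _ | m
      · have h0 := mul0 (fun u => b' (u + 1)) _ hb
        rw [mul_comm] at h0
        refine ⟨z1_mono h0 (by omega), ?_⟩
        rw [h0 s (by omega), Nat.choose_eq_zero_of_lt (by omega)]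
        simp
      · obtain ⟨h2, h3⟩ := ih _ _ m n (by omega) hb hs
        refine ⟨h2, ?_⟩
        rw [h3, co1_succ, co1_shift, hb' (n + 1) le_rfl, add_zero,
          Nat.choose_symm_of_eq_add (show s = m + n by omega)]
    have h2 : Z1 (s + 1) (b * fwdDiff (1 : ℚ) b') ∧
        co1 (b * fwdDiff (1 : ℚ) b') s = (s.choose m : ℕ) * co1 b m * co1 b' n := by
      rw [z1_succ] at hb'
      rcases n with _ | n
      · have h0 := mul0 b _ hb'
        refine ⟨z1_mono h0 (by omega), ?_⟩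
        rw [h0 s (by omega), Nat.choose_eq_zero_of_lt (by omega)]
        simp
      · obtain ⟨h2, h3⟩ := ih _ _ m n (by omega) hb hb'
        exact ⟨h2, by rw [h3, co1_succ]⟩
    have h3 : (s + 1).choose m = s.choose n + s.choose m := by
      rcases m with _ | m
      · rw [Nat.choose_eq_zero_of_lt (show s < n by omega)]
        simp
      · rw [Nat.choose_succ_succ', Nat.choose_symm_of_eq_add (show s = m + n by omega)]
    refine ⟨?_, ?_⟩
    · rw [z1_succ, leib]
      intro i hi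
      rw [co1_add, h1.1 i hi, h2.1 i hi, add_zero]
    · rw [← co1_succ, leib, co1_add, h1.2, h2.2, h3]
      push_cast
      ring

theorem poly (P : Polynomial ℕ) (e k : ℕ) (hP : P.natDegree ≤ e) (b : ℚ → F3)
    (h : ∀ m : ℕ, b m = ((P.eval m).choose k : ℕ)) : Z1 (e * k + 1) b := by
  intro i hi
  rw [co1_cast b (fun m => ((P.eval m).choose k : ℕ)) fun m => by rw [h, Int.cast_natCast]]
  have hd : ((descPochhammer ℤ k).comp (P.map (Nat.castRingHom ℤ))).natDegree < i := by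
    refine lt_of_le_of_lt Polynomial.natDegree_comp_le ?_
    rw [descPochhammer_natDegree]
    have := Nat.mul_le_mul_left k 
      ((Polynomial.natDegree_map_le (f := Nat.castRingHom ℤ)).trans hP)
    rw [mul_comm k e] at this
    omega
  have h1 := congrFun (Polynomial.fwdDiff_iter_eq_zero_of_degree_lt hd) 0
  have h2 : (k.factorial : ℤ) *
      (fwdDiff (1 : ℕ))^[i] (fun m => (((P.eval m).choose k : ℕ) : ℤ)) 0 = 0 := by
    rw [Pi.zero_apply, fwdDiff_iter_eq_sum_shift] at h1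
    rw [fwdDiff_iter_eq_sum_shift, mul_sum, ← h1]
    refine sum_congr rfl fun j _ => ?_
    have h3 : (P.map (Nat.castRingHom ℤ)).eval (j : ℤ) = ((P.eval j : ℕ) : ℤ) :=
      Polynomial.eval_natCast_map _ _ _
    simp only [zero_add, smul_eq_mul, mul_one, nsmul_eq_mul, Polynomial.eval_comp, h3,
      descPochhammer_eval_eq_descFactorial, Nat.descFactorial_eq_factorial_mul_choose]
    push_cast
    ring
  rw [(mul_eq_zero.1 h2).resolve_left (by exact_mod_cast k.factorial_ne_zero), Int.cast_zero]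

theorem cast_choose {n k : ℕ} (h0 : k ≠ 0) (h1 : k ≠ 3 ^ n) : (((3 ^ n).choose k : ℕ) : F3) = 0 :=
  (ZMod.natCast_eq_zero_iff _ 3).2 (Nat.prime_three.dvd_choose_pow h0 h1)

theorem diff_pow (b : ℚ → F3) (n : ℕ) (y : ℚ) :
    (fwdDiff (1 : ℚ))^[3 ^ n] b y = b (y + 3 ^ n * 1) - b y := by
  have h1 := shift_eq_sum_fwdDiff_iter (1 : ℚ) b (3 ^ n) y
  rw [nsmul_eq_mul, Nat.cast_pow, Nat.cast_ofNat, sum_range_succ,
    sum_eq_single 0 (fun k hk h0 => by
      rw [nsmul_eq_mul, cast_choose h0 (mem_range.1 hk).ne, zero_mul]) (by simp)] at h1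
  rw [h1]
  simp

theorem cper {k n : ℕ} (hk : k < 3 ^ n) (m t : ℕ) :
    (((m + 3 ^ n * t).choose k : ℕ) : F3) = (m.choose k : ℕ) := by
  induction t with
  | zero => simp
  | succ t ih =>
    rw [mul_add, mul_one, ← add_assoc, Nat.add_choose_eq, Nat.cast_sum,
      sum_eq_single (k, 0) (fun p hp hne => ?_) (by simp)]
    · simpa using ih
    · have h1 := mem_antidiagonal.1 hp
      have h2 : p.2 ≠ 0 := fun h => hne (Prod.ext (by simp only; omega) h)
      rw [Nat.cast_mul, cast_choose h2 (by omega), mul_zero]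

theorem cmod {k n m m' : ℕ} (hk : k < 3 ^ n) (h : m ≡ m' [MOD 3 ^ n]) :
    ((m.choose k : ℕ) : F3) = (m'.choose k : ℕ) := by
  rw [← Nat.mod_add_div m (3 ^ n), ← Nat.mod_add_div m' (3 ^ n), cper hk, cper hk, h]

theorem lt3 (k : ℕ) : k < 3 ^ k := Nat.lt_pow_self (by norm_num)

/-- periodic of level `n` -/
def Per (n : ℕ) (b : ℚ → F3) : Prop := ∀ u x, In u → In x → b (u + 3 ^ n * x) = b u

/-- congruent modulo `3 ^ n` -/
def Cg (n : ℕ) (x y : ℚ) : Prop := In ((x - y) / 3 ^ n)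

section
variable (H : RowBAS)
include H

theorem in_nat (m : ℕ) : In m := by
  obtain ⟨O, hO⟩ := H.ring
  exact (hO _).1 (natCast_mem O m)

theorem in_add {x y : ℚ} (hx : In x) (hy : In y) : In (x + y) := by
  obtain ⟨O, hO⟩ := H.ring
  exact (hO _).1 (O.add_mem ((hO _).2 hx) ((hO _).2 hy))

theorem in_sub {x y : ℚ} (hx : In x) (hy : In y) : In (x - y) := by
  obtain ⟨O, hO⟩ := H.ring
  exact (hO _).1 (O.sub_mem ((hO _).2 hx) ((hO _).2 hy))

theorem in_mul {x y : ℚ} (hx : In x) (hy : In y) : In (x * y) := by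
  obtain ⟨O, hO⟩ := H.ring
  exact (hO _).1 (O.mul_mem ((hO _).2 hx) ((hO _).2 hy))

theorem in_int (m : ℤ) : In m := by
  obtain ⟨O, hO⟩ := H.ring
  exact (hO _).1 (intCast_mem O m)

theorem in_one : In 1 := by simpa using in_nat H 1

theorem in_pow (j : ℕ) : In (3 ^ j) := by simpa using in_nat H (3 ^ j)

theorem Per.mono {n n' : ℕ} {b : ℚ → F3} (h : Per n b) (hn : n ≤ n') : Per n' b := by
  obtain ⟨j, rfl⟩ := Nat.exists_eq_add_of_le hn
  intro u x hu hx
  rw [pow_add, mul_assoc]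
  exact h u _ hu (in_mul H (in_pow H j) hx)

theorem Per.cg {n : ℕ} {b : ℚ → F3} (h : Per n b) {x y : ℚ} (hy : In y) (hc : Cg n x y) :
    b x = b y := by
  rw [← h y _ hy hc]
  congr 1
  field_simp
  ring

theorem Per.diff {n : ℕ} {b : ℚ → F3} (h : Per n b) (k : ℕ) :
    Per n ((fwdDiff (1 : ℚ))^[k] b) := by
  induction k with
  | zero => exact h
  | succ k ih =>
    intro u x hu hx
    rw [Function.iterate_succ_apply']
    simp only [fwdDiff]
    rw [add_right_comm, ih _ x (in_add H hu (in_one H)) hx, ih u x hu hx]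

theorem Cg.mono {n n' : ℕ} {x y : ℚ} (h : Cg n' x y) (hn : n ≤ n') : Cg n x y := by
  obtain ⟨j, rfl⟩ := Nat.exists_eq_add_of_le hn
  have h1 := in_mul H (in_pow H j) h
  unfold Cg
  convert h1 using 1
  field_simp
  ring

theorem cg_nat {n m m' : ℕ} (h : Cg n m m') : m ≡ m' [MOD 3 ^ n] := by
  have h1 : In ((((m : ℤ) - m' : ℤ) : ℚ) / 3 ^ n) := by
    push_cast
    exact h
  have h2 := (H.redZero n _ (in_int H _)).2 h1
  rw [H.redInt] at h2
  push_cast at h2
  exact (ZMod.natCast_eq_natCast_iff _ _ _).1 (sub_eq_zero.1 h2)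

theorem cg_red (n : ℕ) {x : ℚ} (hx : In x) : Cg n x ((red (3 ^ n) x).val : ℕ) := by
  have h1 := H.redAdd n x _ hx (in_int H (-((red (3 ^ n) x).val : ℤ)))
  rw [H.redInt, Int.cast_neg (R := ZMod _), Int.cast_natCast, ZMod.natCast_zmod_val,
    add_neg_cancel] at h1
  have h2 := (H.redZero n _ (in_add H hx (in_int H _))).1 h1
  unfold Cg
  convert h2 using 2
  push_cast
  ring

theorem key {k n m : ℕ} {x : ℚ} (hk : k < 3 ^ n) (hx : In x) (h : Cg n x m) :
    bn k x = (m.choose k : ℕ) := by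
  have h1 := (cg_red H (k + 1) hx).mono H (min_le_right n (k + 1))
  have h2 := h.mono H (min_le_left n (k + 1))
  have h3 : Cg (min n (k + 1)) ((red (3 ^ (k + 1)) x).val : ℕ) m := by
    have := in_sub H h2 h1
    unfold Cg
    convert this using 1
    ring
  refine cmod (n := min n (k + 1)) ?_ (cg_nat H h3)
  rcases min_choice n (k + 1) with e | e <;> rw [e]
  · exact hk
  · exact (Nat.lt_succ_self k).trans (lt3 _)

theorem nat (k m : ℕ) : bn k m = (m.choose k : ℕ) :=
  key H (lt3 k) (in_nat H m) (by simpa [Cg] using in_nat H 0)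

theorem ex (n : ℕ) {x : ℚ} (hx : In x) : ∃ m : ℕ, Cg n x m := by
  obtain ⟨m, -, h⟩ := H.nat x n hx
  exact ⟨m, h⟩

theorem iff (b : ℚ → F3) (n : ℕ) (hb : LC1 b) :
    Z1 n b ↔ ∀ u, In u → (fwdDiff (1 : ℚ))^[n] b u = 0 := by
  rw [z1_iff]
  refine ⟨fun h u hu => ?_, fun h m => h m (in_nat H m)⟩
  obtain ⟨N, hN⟩ := hb
  obtain ⟨m, hm⟩ := ex H N hu
  rw [(Per.diff H hN n).cg H (in_nat H m) hm, h]

theorem per (k n : ℕ) (u x : ℚ) (hk : k < 3 ^ n) (hu : In u) (hx : In x) :
    bn k (u + 3 ^ n * x) = bn k u := by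
  obtain ⟨m, hm⟩ := ex H n hu
  rw [key H hk hu hm, key H hk (in_add H hu (in_mul H (in_pow H n) hx)) (m := m)]
  have := in_add H hm hx
  unfold Cg
  convert this using 1
  field_simp
  ring

theorem basis (k i : ℕ) : co1 (bn k) i = if i = k then 1 else 0 := by
  rw [co1_cast (bn k) (fun m => (m.choose k : ℕ)) fun m => by rw [nat H, Int.cast_natCast],
    fwdDiff_iter_choose_zero]
  split_ifs <;> simp

theorem low (x : ℚ) (hx : In x) : bn 0 x = 1 ∧ bn 1 x = red 3 x := by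
  refine ⟨by simp [bn], ?_⟩
  obtain ⟨m, hm⟩ := ex H 1 hx
  rw [key H (by norm_num) hx hm, Nat.choose_one_right]
  have h1 := H.red3.1 x _ hx (in_int H (-(m : ℤ)))
  have h2 := (H.red3.2.2.2 _ (in_add H hx (in_int H (-(m : ℤ))))).2 (by
    unfold Cg at hm
    convert hm using 1
    push_cast
    ring)
  rw [h2, H.red3.2.2.1] at h1
  push_cast at h1
  exact (add_neg_eq_zero.1 h1.symm).symm

theorem newton (b : ℚ → F3) (n : ℕ) (x h : ℚ) (hb : LC1 b) (hz : Z1 n b) (hx : In x) (hh : In h) :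
    b (x + h) = ∑ k ∈ range n, bn k h * (fwdDiff (1 : ℚ))^[k] b x := by
  obtain ⟨N, hN⟩ := id hb
  obtain ⟨m, hm⟩ := ex H (N + n) hh
  have h1 : b (x + h) = b (x + m) :=
    (Per.mono H hN (Nat.le_add_right N n)).cg H (in_add H hx (in_nat H m)) (by
      unfold Cg at hm ⊢
      convert hm using 2
      ring)
  have h2 := shift_eq_sum_fwdDiff_iter (1 : ℚ) b m x
  rw [nsmul_eq_mul, mul_one] at h2
  have h3 : ∀ k ∈ range n, bn k h * (fwdDiff (1 : ℚ))^[k] b x =
      m.choose k • (fwdDiff (1 : ℚ))^[k] b x := fun k hk => by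
    rw [key H (((mem_range.1 hk).trans_le (Nat.le_add_left n N)).trans (lt3 _)) hh hm,
      nsmul_eq_mul]
  rw [h1, h2, sum_congr rfl h3,
    sum_subset (range_mono (Nat.le_add_right (m + 1) n)) fun k _ hk => ?_,
    sum_subset (range_mono (Nat.le_add_left n (m + 1))) fun k _ hk => ?_]
  · rw [(iff H b k hb).1 (z1_mono hz (by simpa using hk)) x hx, smul_zero]
  · rw [Nat.choose_eq_zero_of_lt (by simpa using hk), zero_smul]

theorem three (k : ℕ) (x : ℚ) (hx : In x) :
    bn k (3 * x) = if 3 ∣ k then bn (k / 3) x else 0 := by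
  obtain ⟨m, hm⟩ := ex H k hx
  have h3 : In 3 := by simpa using in_nat H 3
  have : Fact (Nat.Prime 3) := ⟨Nat.prime_three⟩
  rw [key H (lt3 k) (in_mul H h3 hx) (m := 3 * m) (by
      have := in_mul H h3 hm
      unfold Cg
      convert this using 1
      push_cast
      ring),
    key H ((Nat.div_le_self k 3).trans_lt (lt3 k)) hx hm,
    (ZMod.natCast_eq_natCast_iff _ _ 3).2
      (Choose.choose_modEq_choose_mod_mul_choose_div_nat (n := 3 * m) (k := k) (p := 3)),
    Nat.mul_mod_right, Nat.mul_div_cancel_left m (by norm_num)]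
  split_ifs with h
  · rw [Nat.mod_eq_zero_of_dvd h]
    simp
  · rw [Nat.choose_eq_zero_of_lt (by omega)]
    simp

theorem vdm (k : ℕ) (x y : ℚ) (hx : In x) (hy : In y) :
    bn k (x + y) = ∑ i ∈ range (k + 1), bn i x * bn (k - i) y := by
  obtain ⟨m, hm⟩ := ex H k hx
  obtain ⟨m', hm'⟩ := ex H k hy
  rw [key H (lt3 k) (in_add H hx hy) (m := m + m') (by
      have := in_add H hm hm'
      unfold Cg
      convert this using 1
      push_cast
      ring), Nat.add_choose_eq,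
    Nat.sum_antidiagonal_eq_sum_range_succ (fun i j => m.choose i * m'.choose j), Nat.cast_sum]
  refine sum_congr rfl fun i hi => ?_
  rw [key H ((Nat.lt_succ_iff.1 (mem_range.1 hi)).trans_lt (lt3 k)) hx hm,
    key H ((Nat.sub_le k i).trans_lt (lt3 k)) hy hm', Nat.cast_mul]

theorem grp : ∃ M : Subring (ℚ → F3), ∀ b, b ∈ M ↔ LC1 b := by
  refine ⟨{ carrier := {b | LC1 b}
            mul_mem' := ?_, add_mem' := ?_, one_mem' := ⟨0, fun _ _ _ _ => rfl⟩
            zero_mem' := ⟨0, fun _ _ _ _ => rfl⟩, neg_mem' := ?_ }, fun _ => Iff.rfl⟩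
  · rintro a b ⟨n, ha⟩ ⟨n', hb⟩
    refine ⟨n + n', fun u x hu hx => ?_⟩
    rw [Pi.mul_apply, Pi.mul_apply, Per.mono H ha (Nat.le_add_right n n') u x hu hx,
      Per.mono H hb (Nat.le_add_left n' n) u x hu hx]
  · rintro a b ⟨n, ha⟩ ⟨n', hb⟩
    refine ⟨n + n', fun u x hu hx => ?_⟩
    rw [Pi.add_apply, Pi.add_apply, Per.mono H ha (Nat.le_add_right n n') u x hu hx,
      Per.mono H hb (Nat.le_add_left n' n) u x hu hx]
  · rintro a ⟨n, ha⟩
    exact ⟨n, fun u x hu hx => by rw [Pi.neg_apply, Pi.neg_apply, ha u x hu hx]⟩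

end

end BNA

open BNA in
theorem rowBN : OfBN := fun H =>
  { congr := BNA.congr
    grp := grp H
    fin := fun b n h => (z1_iff b _).2 fun m => by
      rw [diff_pow, h _ _ (in_nat H m) (in_one H), sub_self]
    diff := fun _ ⟨n, h⟩ k => ⟨n, Per.diff H h k⟩
    iff := BNA.iff H
    nat := nat H
    per := per H
    basis := basis H
    low := low H
    newton := newton H
    three := three H
    vdm := vdm H
    mul := fun b b' m n => mul_aux _ b b' m n rfl
    mul0 := mul0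
    poly := poly }

end Pool.Agent.MP_5f72fe_nt.MS

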