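import Pool.Agent.MP_5f72fe_nt.MS.S2

/-! Symbols with polynomial coefficients have bounded denominators and are uniformly continuous. -/

namespace Pool.Agent.MP_5f72fe_nt.MS

namespace BNDA

/-- integral vectors -/
def IV (x : V) : Prop := In x.1 ∧ In x.2

theorem fin_big {ι : Type} (s : Finset ι) (P : ι → ℕ → Prop)
    (hm : ∀ i e e', e ≤ e' → P i e → P i e') (h : ∀ i, ∃ e, P i e) : ∃ e, ∀ i ∈ s, P i e := by
  choose f hf using h
  exact ⟨s.sup f, fun i hi => hm i _ _ (Finset.le_sup hi) (hf i)⟩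

theorem ap_adj (g : Mt) (v : V) : ap g (ap (adj g) v) = (det g : ℚ) • v := by
  simp only [ap, adj, det]
  ext
  · simp only [Prod.smul_fst, smul_eq_mul]; push_cast; ring
  · simp only [Prod.smul_snd, smul_eq_mul]; push_cast; ring

theorem dt_ap (g : Mt) (v w : V) : dt (ap g v) (ap g w) = det g * dt v w := by
  simp only [ap, dt, det]; push_cast; ring

theorem ap_comb (g : Mt) (v w : V) (a b : ℚ) : ap g (a • v + b • w) = a • ap g v + b • ap g w := by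
  simp only [ap]
  ext
  · simp only [Prod.fst_add, Prod.snd_add, Prod.smul_fst, Prod.smul_snd, smul_eq_mul]; ring
  · simp only [Prod.fst_add, Prod.snd_add, Prod.smul_fst, Prod.smul_snd, smul_eq_mul]; ring

theorem ap_sc (M : ℕ) (v : V) : ap (3 ^ M, 0, 0, 3 ^ M) v = (3 ^ M : ℚ) • v := by
  simp only [ap]
  ext
  · simp only [Prod.smul_fst, smul_eq_mul]; push_cast; ring
  · simp only [Prod.smul_snd, smul_eq_mul]; push_cast; ring

theorem ad_sc {f : V → V → ℚ} (hf : Ad f) {c c' : V} (hc : c ≠ 0) (hc' : c' ≠ 0) {l : ℚ}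
    (hl : l ≠ 0) : f (l • c) (l • c') = f c c' := by
  have h1 := hf.add c (l • c) c' hc (smul_ne_zero hl hc) hc'
  have h2 := hf.add (l • c) c' (l • c') (smul_ne_zero hl hc) hc' (smul_ne_zero hl hc')
  rw [hf.hom c l hc hl] at h1
  rw [hf.hom c' l hc' hl] at h2
  linarith

theorem cusp_sc {k n : ℕ} {B : Bf ℚ} (h : BD k n B) (c c' v w x y : V) {l : ℚ} (hl : l ≠ 0) :
    B (l • c) (l • c') v w x y = B c c' v w x y := by
  by_cases hc : c = 0
  · rw [h.junk _ _ _ _ _ _ (Or.inl hc), h.junk _ _ _ _ _ _ (Or.inl (by rw [hc, smul_zero]))]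
  by_cases hc' : c' = 0
  · rw [h.junk _ _ _ _ _ _ (Or.inr (Or.inl hc')),
      h.junk _ _ _ _ _ _ (Or.inr (Or.inl (by rw [hc', smul_zero])))]
  exact ad_sc (h.ad v w x y) hc hc' hl

/-- the symbol in the coordinates of the basis -/
noncomputable def CC (k : ℕ) (B : Bf ℚ) (c c' v w x y : V) : ℚ :=
  (dt v w)⁻¹ ^ (k - 1) * B c c' v w (x.1 • v + x.2 • w) (y.1 • v + y.2 • w)

theorem ph_eq (k : ℕ) (B : Bf ℚ) (c c' v w : V) : ph k B c c' v w = CC k B c c' v w e1 e2 := by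
  simp only [ph, CC, e1, e2, one_smul, zero_smul, add_zero, zero_add, smul_eq_mul]

theorem CC_inv {k n : ℕ} {B : Bf ℚ} (h : BD k n B) (g : Mt) (a M : ℕ) (hg : det g = 3 ^ a)
    (c c' v w v' w' x y : V) (hv : (3 ^ M : ℚ) • v = ap g v') (hw : (3 ^ M : ℚ) • w = ap g w') :
    CC k B c c' v w x y = CC k B (ap (adj g) c) (ap (adj g) c') v' w' x y := by
  have hg' : (det g : ℚ) = 3 ^ a := by rw [hg]; push_cast; rfl
  have hX : ∀ z : V, ap g (z.1 • v' + z.2 • w') = (3 ^ M : ℚ) • (z.1 • v + z.2 • w) := fun z => by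
    rw [ap_comb, ← hv, ← hw, smul_add, smul_comm z.1, smul_comm z.2]
  have h1 := h.inv g a hg (ap (adj g) c) (ap (adj g) c') v' w' (x.1 • v' + x.2 • w')
    (y.1 • v' + y.2 • w')
  rw [ap_adj, ap_adj, hX, hX, ← hv, ← hw, hg', cusp_sc h _ _ _ _ _ _ (by positivity)] at h1
  have hd : det ((3 ^ M, 0, 0, 3 ^ M) : Mt) = 3 ^ (2 * M) := by
    simp only [det]; ring
  have h2 := h.inv (3 ^ M, 0, 0, 3 ^ M) (2 * M) hd c c' v w (x.1 • v + x.2 • w)
    (y.1 • v + y.2 • w)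
  simp only [ap_sc] at h2
  rw [cusp_sc h _ _ _ _ _ _ (by positivity), hd, h1] at h2
  have h3 : (3 : ℚ) ^ a * dt v' w' = 3 ^ (2 * M) * dt v w := by
    rw [← hg', ← dt_ap, ← hv, ← hw]
    simp only [dt, Prod.smul_fst, Prod.smul_snd, smul_eq_mul]
    ring
  have h4 : (dt v w)⁻¹ = 3 ^ (2 * M) * ((3 ^ a)⁻¹ * (dt v' w')⁻¹) := by
    rw [← mul_inv, h3, mul_inv, ← mul_assoc, mul_inv_cancel₀ (by positivity), one_mul]
  simp only [smul_eq_mul] at h2
  push_cast at h2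
  have h5 : ((3 : ℚ) ^ a)⁻¹ ^ (k - 1) * (3 ^ a) ^ (k - 1) = 1 := by
    rw [← mul_pow, inv_mul_cancel₀ (by positivity), one_pow]
  simp only [CC]
  rw [h4, mul_pow, mul_pow]
  linear_combination (-((3 ^ a)⁻¹ ^ (k - 1) * (dt v' w')⁻¹ ^ (k - 1))) * h2 +
    ((dt v' w')⁻¹ ^ (k - 1) * B (ap (adj g) c) (ap (adj g) c') v' w' (x.1 • v' + x.2 • w')
      (y.1 • v' + y.2 • w')) * h5

theorem hp_mul (hI : RowINT) {m : ℕ} {P : V → ℚ} (hP : Hp m P) (c : ℚ) :
    Hp m fun x => c * P x := by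
  obtain ⟨M, hM⟩ := hI.sub ℚ m
  exact (hM _).1 (M.smul_mem c ((hM _).2 hP))

theorem CC_p1 (hI : RowINT) {k n : ℕ} {B : Bf ℚ} (h : BD k n B) (c c' v w y : V) :
    Hp (k - 1) fun x => CC k B c c' v w x y :=
  hp_mul hI ((hI.hom ℚ _ _ (h.p1 c c' v w (y.1 • v + y.2 • w))).2.1 v w) _

theorem CC_p2 (hI : RowINT) {k n : ℕ} {B : Bf ℚ} (h : BD k n B) (c c' v w x : V) :
    Hp (k - 1) fun y => CC k B c c' v w x y :=
  hp_mul hI ((hI.hom ℚ _ _ (h.p2 c c' v w (x.1 • v + x.2 • w))).2.1 v w) _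

section

variable (hB : RowBAS)
include hB

theorem iadd {x y : ℚ} (hx : In x) (hy : In y) : In (x + y) := by
  obtain ⟨O, hO⟩ := hB.ring
  exact (hO _).1 (O.add_mem ((hO _).2 hx) ((hO _).2 hy))

theorem isub {x y : ℚ} (hx : In x) (hy : In y) : In (x - y) := by
  obtain ⟨O, hO⟩ := hB.ring
  exact (hO _).1 (O.sub_mem ((hO _).2 hx) ((hO _).2 hy))

theorem imul {x y : ℚ} (hx : In x) (hy : In y) : In (x * y) := by
  obtain ⟨O, hO⟩ := hB.ring
  exact (hO _).1 (O.mul_mem ((hO _).2 hx) ((hO _).2 hy))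

theorem ineg {x : ℚ} (hx : In x) : In (-x) := by
  obtain ⟨O, hO⟩ := hB.ring
  exact (hO _).1 (O.neg_mem ((hO _).2 hx))

theorem ipow {x : ℚ} (hx : In x) (a : ℕ) : In (x ^ a) := by
  obtain ⟨O, hO⟩ := hB.ring
  exact (hO _).1 (O.pow_mem ((hO _).2 hx) a)

theorem iint (n : ℤ) : In n := by
  obtain ⟨O, hO⟩ := hB.ring
  exact (hO _).1 (intCast_mem O n)

theorem inat (n : ℕ) : In n := by
  obtain ⟨O, hO⟩ := hB.ring
  exact (hO _).1 (natCast_mem O n)

theorem izero : In 0 := by simpa using inat hB 0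

theorem ione : In 1 := by simpa using inat hB 1

theorem ithree (a : ℕ) : In (3 ^ a) := ipow hB (by simpa using inat hB 3) a

theorem uone : Un 1 := by simpa using (hB.int 1).2

theorem mono {e e' : ℕ} (h : e ≤ e') {x : ℚ} (hx : In (3 ^ e * x)) : In (3 ^ e' * x) := by
  obtain ⟨f, rfl⟩ := Nat.exists_eq_add_of_le h
  rw [add_comm, pow_add, mul_assoc]
  exact imul hB (ithree hB f) hx

theorem un_add {x y : ℚ} {n : ℕ} (hn : 1 ≤ n) (hx : Un x) (hy : In y) : Un (x + 3 ^ n * y) := by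
  obtain ⟨f, rfl⟩ := Nat.exists_eq_add_of_le hn
  rw [pow_add, pow_one, mul_assoc]
  exact hB.unAdd _ _ hx (imul hB (ithree hB f) hy)

theorem iv_ap (g : Mt) {v : V} (hv : IV v) : IV (ap g v) :=
  ⟨iadd hB (imul hB (iint hB _) hv.1) (imul hB (iint hB _) hv.2),
    iadd hB (imul hB (iint hB _) hv.1) (imul hB (iint hB _) hv.2)⟩

theorem iv_comb {v w x : V} (hv : IV v) (hw : IV w) (hx : IV x) : IV (x.1 • v + x.2 • w) :=
  ⟨iadd hB (imul hB hx.1 hv.1) (imul hB hx.2 hw.1), iadd hB (imul hB hx.1 hv.2) (imul hB hx.2 hw.2)⟩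

theorem idt {v w : V} (hv : IV v) (hw : IV w) : In (dt v w) :=
  isub hB (imul hB hv.1 hw.2) (imul hB hv.2 hw.1)

/-- one polynomial in two vector variables -/
theorem step1 (hI : RowINT) (m : ℕ) (F : V → V → ℚ) (h1 : ∀ y, Hp m fun x => F x y)
    (h2 : ∀ x, Hp m fun y => F x y) : ∃ e : ℕ, ∀ x y, IV x → IV y → In (3 ^ e * F x y) := by
  obtain ⟨e0, he0⟩ := hI.bd m
  obtain ⟨e1, he1⟩ := fin_big (Finset.range (m + 1) ×ˢ Finset.range (m + 1))
    (fun p e => In (3 ^ e * F (1, p.1) (1, p.2))) (fun _ _ _ h => mono hB h) fun p => hB.big _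
  refine ⟨e0 + (e0 + e1), fun x y hx hy => ?_⟩
  have h3 : ∀ b : ℕ, b ≤ m → In (3 ^ (e0 + e1) * F x (1, b)) := fun b hb => by
    have := (he0 _ (hp_mul hI (h1 (1, b)) (3 ^ e1)) (fun a ha => he1 (a, b) (by
      simp only [Finset.mem_product, Finset.mem_range]; omega)) x x 0 hx.1 hx.2 hx.1 hx.2).1
    rwa [← mul_assoc, ← pow_add] at this
  have := (he0 _ (hp_mul hI (h2 x) (3 ^ (e0 + e1))) h3 y y 0 hy.1 hy.2 hy.1 hy.2).1
  rwa [← mul_assoc, ← pow_add] at this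

/-- reduction of a basis of the standard lattice -/
theorem rk_red {n : ℕ} (hn : 1 ≤ n) {F : V → V → ℚ} (hF : RK n F) {v w α β : V} (hv : IV v)
    (hw : IV w) (hd : Un (dt v w)) (hα : IV α) (hβ : IV β) :
    F (v + (3 ^ n : ℚ) • α) (w + (3 ^ n : ℚ) • β) = F v w := by
  have hne : dt v w ≠ 0 := ((hB.un' _).1 hd).1
  have cr : ∀ z : V, z = (dt z w / dt v w) • v + (dt v z / dt v w) • w := fun z => by
    ext
    · simp only [Prod.fst_add, Prod.smul_fst, smul_eq_mul]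
      field_simp
      simp only [dt]; ring
    · simp only [Prod.snd_add, Prod.smul_snd, smul_eq_mul]
      field_simp
      simp only [dt]; ring
  have h1 := hF v w (1 + 3 ^ n * (dt α w / dt v w)) (1 + 3 ^ n * (dt v β / dt v w))
    (dt v α / dt v w) (dt β w / dt v w)
    (un_add hB hn (uone hB) (hB.div _ _ (idt hB hα hw) hd))
    (un_add hB hn (uone hB) (hB.div _ _ (idt hB hv hβ) hd))
    (hB.div _ _ (idt hB hv hα) hd) (hB.div _ _ (idt hB hβ hw) hd)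
  rw [← h1]
  congr 1
  · conv_lhs => rw [cr α]
    module
  · conv_lhs => rw [cr β]
    module

/-- fixed cusps, all bases of the standard lattice -/
theorem step2 (hI : RowINT) {k n : ℕ} {B : Bf ℚ} (hn : 1 ≤ n) (h : BD k n B) (c c' : V) :
    ∃ e : ℕ, ∀ v w x y, IV v → IV w → Un (dt v w) → IV x → IV y → In (3 ^ e * B c c' v w x y) := by
  obtain ⟨e, he⟩ := fin_big ((Finset.range (3 ^ n) ×ˢ Finset.range (3 ^ n)) ×ˢ
      (Finset.range (3 ^ n) ×ˢ Finset.range (3 ^ n)))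
    (fun p e => ∀ x y, IV x → IV y → In (3 ^ e * B c c' (p.1.1, p.1.2) (p.2.1, p.2.2) x y))
    (fun _ _ _ h h' x y hx hy => mono hB h (h' x y hx hy))
    fun p => step1 hB hI (k - 1) _ (h.p1 c c' _ _) (h.p2 c c' _ _)
  refine ⟨e, fun v w x y hv hw hd hx hy => ?_⟩
  obtain ⟨p, hp, hp'⟩ := hB.nat v.1 n hv.1
  obtain ⟨q, hq, hq'⟩ := hB.nat v.2 n hv.2
  obtain ⟨r, hr, hr'⟩ := hB.nat w.1 n hw.1
  obtain ⟨s, hs, hs'⟩ := hB.nat w.2 n hw.2
  have h1 := he ((p, q), (r, s)) (by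
    simp only [Finset.mem_product, Finset.mem_range]; exact ⟨⟨hp, hq⟩, hr, hs⟩) x y hx hy
  have h2 := rk_red hB hn (h.rk c c' x y) (α := (-((v.1 - p) / 3 ^ n), -((v.2 - q) / 3 ^ n)))
    (β := (-((w.1 - r) / 3 ^ n), -((w.2 - s) / 3 ^ n))) hv hw hd ⟨ineg hB hp', ineg hB hq'⟩
    ⟨ineg hB hr', ineg hB hs'⟩
  have e : ∀ (z : V) (a b : ℚ),
      z + (3 ^ n : ℚ) • (-((z.1 - a) / 3 ^ n), -((z.2 - b) / 3 ^ n)) = (a, b) := fun z a b => by
    ext
    · simp only [Prod.fst_add, Prod.smul_fst, smul_eq_mul]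
      field_simp
      ring
    · simp only [Prod.snd_add, Prod.smul_snd, smul_eq_mul]
      field_simp
      ring
  rw [e, e] at h2
  rw [← h2]
  exact h1

/-- all cusps, all bases of the standard lattice -/
theorem step4 (h1 : RowIND1) (hI : RowINT) {k n : ℕ} {B : Bf ℚ} (hn : 1 ≤ n) (h : BD k n B) :
    ∃ e : ℕ, ∀ c c' v w x y, IV v → IV w → Un (dt v w) → IV x → IV y →
      In (3 ^ e * B c c' v w x y) := by
  obtain ⟨e, he⟩ := step2 hB hI hn h e1 e2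
  refine ⟨e, fun c c' v w x y hv hw hd hx hy => ?_⟩
  by_cases hc : c = 0
  · rw [h.junk _ _ _ _ _ _ (Or.inl hc), mul_zero]; exact izero hB
  by_cases hc' : c' = 0
  · rw [h.junk _ _ _ _ _ _ (Or.inr (Or.inl hc')), mul_zero]; exact izero hB
  let P : AddSubgroup ℚ :=
    { carrier := {q | In (3 ^ e * q)}
      add_mem' := fun {a b} ha hb => by
        change In (3 ^ e * (a + b))
        rw [mul_add]; exact iadd hB ha hb
      zero_mem' := by
        change In (3 ^ e * 0)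
        rw [mul_zero]; exact izero hB
      neg_mem' := fun {a} ha => by
        change In (3 ^ e * -a)
        rw [mul_neg]; exact ineg hB ha }
  refine h1 ℚ (fun c c' => B c c' v w x y) P (h.ad v w x y) (fun g hg => ?_) c c' hc hc'
  change In (3 ^ e * B (ap g e1) (ap g e2) v w x y)
  have h2 := h.inv g 0 (by rw [hg, pow_zero]) e1 e2 (ap (adj g) v) (ap (adj g) w) (ap (adj g) x)
    (ap (adj g) y)
  simp only [ap_adj, hg, Int.cast_one, one_smul, one_pow] at h2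
  rw [h2]
  refine he _ _ _ _ (iv_ap hB _ hv) (iv_ap hB _ hw) ?_ (iv_ap hB _ hx) (iv_ap hB _ hy)
  have h3 : det (adj g) = 1 := by
    rw [← hg]; simp only [det, adj]; ring
  rw [dt_ap, h3, Int.cast_one, one_mul]
  exact hd

/-- all cusps, all bases -/
theorem step5 (hS : RowSA) (h1 : RowIND1) (hI : RowINT) {k n : ℕ} {B : Bf ℚ} (hn : 1 ≤ n)
    (h : BD k n B) :
    ∃ e : ℕ, ∀ c c' v w x y, IV x → IV y → In (3 ^ e * CC k B c c' v w x y) := by
  obtain ⟨e, he⟩ := step4 hB h1 hI hn h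
  refine ⟨e, fun c c' v w x y hx hy => ?_⟩
  by_cases hd : dt v w = 0
  · rw [CC, h.junk _ _ _ _ _ _ (Or.inr (Or.inr hd)), mul_zero, mul_zero]; exact izero hB
  obtain ⟨g, a, M, p, q, b, d, hg, hp, hq, hb, hd', hv, hw⟩ := hS 1 v w hd
  rw [CC_inv h g a M hg c c' v w _ _ x y hv hw, CC, mul_left_comm]
  have hv' : IV (3 ^ 1 * b, p) := ⟨imul hB (ithree hB 1) hb, hp.1⟩
  have hw' : IV (q, 3 ^ 1 * d) := ⟨hq.1, imul hB (ithree hB 1) hd'⟩
  have hu : Un (dt (3 ^ 1 * b, p) (q, 3 ^ 1 * d)) := by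
    have e : dt (3 ^ 1 * b, p) (q, 3 ^ 1 * d) = -(p * q) + 3 * (b * (3 ^ 1 * d)) := by
      simp only [dt]; ring
    rw [e]
    have h2 := (hB.unMul p q hp hq).1
    exact hB.unAdd _ _ (hB.unMul _ _ h2 h2).2.2.2 (imul hB hb hw'.2)
  exact imul hB (ipow hB ((hB.un' _).1 hu).2.2 _)
    (he _ _ _ _ _ _ hv' hw' hu (iv_comb hB hv' hw' hx) (iv_comb hB hv' hw' hy))

/-- the value at a nearby basis -/
theorem near (hI : RowINT) {k n : ℕ} {B : Bf ℚ} (hn : 1 ≤ n) (h : BD k n B) (j : ℕ)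
    (c c' v w : V) {x y b d : ℚ} (hx : Un x) (hy : Un y) (hb : In b) (hd : In d) :
    ∃ X Y : V, IV X ∧ IV Y ∧
      ph k B c c' (x • v + (3 ^ (n + j) * b) • w) (y • w + (3 ^ (n + j) * d) • v) =
        CC k B c c' v w (e1 + (3 ^ (n + j) : ℚ) • X) (e2 + (3 ^ (n + j) : ℚ) • Y) := by
  set t : ℚ := 3 ^ (n + j) with ht
  have hti : In t := ithree hB _
  have hu : Un (x * y - t * b * (t * d)) := by
    have := un_add hB (n := n + j) (by omega) (hB.unMul x y hx hy).1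
      (ineg hB (imul hB hb (imul hB hti hd)))
    rwa [← ht, show x * y + t * -(b * (t * d)) = x * y - t * b * (t * d) by ring] at this
  obtain ⟨hu0, -, hui⟩ := (hB.un' _).1 hu
  obtain ⟨hy0, -, hyi⟩ := (hB.un' _).1 hy
  set u : ℚ := (x * y - t * b * (t * d))⁻¹ with hu'
  have hu1 : u * (x * y - t * b * (t * d)) = 1 := inv_mul_cancel₀ hu0
  have hy1 : y⁻¹ * y = 1 := inv_mul_cancel₀ hy0
  refine ⟨(t * b * d * u, u * y * b), (y⁻¹ * d, 0),
    ⟨imul hB (imul hB (imul hB hti hb) hd) hui, imul hB (imul hB hui hy.1) hb⟩,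
    ⟨imul hB hyi hd, izero hB⟩, ?_⟩
  have h1 : ∀ X Y, B c c' (x • v + (t * b) • w) (y • w + (t * d) • v) X Y = B c c' v w X Y :=
    fun X Y => by
      have := h.rk c c' X Y v w x y (3 ^ j * b) (3 ^ j * d) hx hy (imul hB (ithree hB j) hb)
        (imul hB (ithree hB j) hd)
      rwa [← mul_assoc, ← mul_assoc, ← pow_add] at this
  have h2 : (dt (x • v + (t * b) • w) (y • w + (t * d) • v))⁻¹ = u * (dt v w)⁻¹ := by
    rw [hu', ← mul_inv]
    congr 1
    simp only [dt, Prod.fst_add, Prod.snd_add, Prod.smul_fst, Prod.smul_snd, smul_eq_mul]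
    ring
  have h3 : (e1 + t • (t * b * d * u, u * y * b)).1 • v + (e1 + t • (t * b * d * u, u * y * b)).2 • w
      = (u * y) • (x • v + (t * b) • w) := by
    have a1 : (e1 + t • (t * b * d * u, u * y * b)).1 = u * y * x := by
      simp only [e1, Prod.fst_add, Prod.smul_fst, smul_eq_mul]
      linear_combination -hu1
    have a2 : (e1 + t • (t * b * d * u, u * y * b)).2 = u * y * (t * b) := by
      simp only [e1, Prod.snd_add, Prod.smul_snd, smul_eq_mul]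
      ring
    rw [a1, a2]
    module
  have h4 : (e2 + t • (y⁻¹ * d, (0 : ℚ))).1 • v + (e2 + t • (y⁻¹ * d, (0 : ℚ))).2 • w
      = y⁻¹ • (y • w + (t * d) • v) := by
    have a1 : (e2 + t • (y⁻¹ * d, (0 : ℚ))).1 = y⁻¹ * (t * d) := by
      simp only [e2, Prod.fst_add, Prod.smul_fst, smul_eq_mul]
      ring
    have a2 : (e2 + t • (y⁻¹ * d, (0 : ℚ))).2 = y⁻¹ * y := by
      simp only [e2, Prod.snd_add, Prod.smul_snd, smul_eq_mul]
      linear_combination -hy1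
    rw [a1, a2]
    module
  have h5 := (hI.hom ℚ _ _ (h.p1 c c' v w (y⁻¹ • (y • w + (t * d) • v)))).1 (u * y)
    (x • v + (t * b) • w)
  have h6 := (hI.hom ℚ _ _ (h.p2 c c' v w (x • v + (t * b) • w))).1 y⁻¹ (y • w + (t * d) • v)
  have h7 : (u * y) ^ (k - 1) * y⁻¹ ^ (k - 1) = u ^ (k - 1) := by
    rw [← mul_pow, mul_assoc, mul_inv_cancel₀ hy0, mul_one]
  simp only [ph, CC]
  rw [h1, h2, h3, h4, h5, h6, smul_eq_mul, smul_eq_mul, smul_eq_mul, mul_pow u, ← h7]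
  ring

end

end BNDA

open BNDA in
theorem rowBND : OfBND := by
  intro hB hS h1 hI k n B hn h
  obtain ⟨e, he⟩ := step5 hB hS h1 hI hn h
  obtain ⟨e0, he0⟩ := hI.bd (k - 1)
  have i1 : IV e1 := ⟨ione hB, izero hB⟩
  have i2 : IV e2 := ⟨izero hB, ione hB⟩
  have nd : ∀ a : ℕ, IV (1, a) := fun a => ⟨ione hB, inat hB a⟩
  refine ⟨e0 + e, fun c c' v w => ?_, fun j => ⟨n + j, by omega, ?_⟩⟩
  · rw [ph_eq]
    exact mono hB (Nat.le_add_left _ _) (he c c' v w e1 e2 i1 i2)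
  · intro c c' v w x y b d hx hy hb hd
    obtain ⟨X, Y, hX, hY, hE⟩ := near hB hI hn h j c c' v w hx hy hb hd
    have hY' : IV (e2 + (3 ^ (n + j) : ℚ) • Y) :=
      ⟨iadd hB i2.1 (imul hB (ithree hB _) hY.1), iadd hB i2.2 (imul hB (ithree hB _) hY.2)⟩
    have a1 := (he0 _ (hp_mul hI (CC_p1 hI h c c' v w (e2 + (3 ^ (n + j) : ℚ) • Y)) (3 ^ e))
      (fun a _ => he c c' v w _ _ (nd a) hY') e1 X (n + j) i1.1 i1.2 hX.1 hX.2).2
    have a2 := (he0 _ (hp_mul hI (CC_p2 hI h c c' v w e1) (3 ^ e))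
      (fun a _ => he c c' v w _ _ i1 (nd a)) e2 Y (n + j) i2.1 i2.2 hY.1 hY.2).2
    have a3 := imul hB (ithree hB n) (iadd hB a1 a2)
    beta_reduce
    rw [hE, ph_eq]
    have e' : ∀ P Q R : ℚ, (3 ^ (e0 + e) * P - 3 ^ (e0 + e) * R) / 3 ^ j =
        3 ^ n * (3 ^ e0 * (3 ^ e * P - 3 ^ e * Q) / 3 ^ (n + j) +
          3 ^ e0 * (3 ^ e * Q - 3 ^ e * R) / 3 ^ (n + j)) := fun P Q R => by
      field_simp
      ring
    rw [e']
    exact a3

end Pool.Agent.MP_5f72fe_nt.MS
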