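import Pool.Agent.MP_5f72fe_nt.MS.S1

/-! The Hecke operators at `2` and `7` in the chart. -/

namespace Pool.Agent.MP_5f72fe_nt.MS

namespace CHTA

variable {A : Type} [AddCommGroup A]

theorem ap_mul (g h : Mt) (v : V) : ap (mul g h) v = ap g (ap h v) := by
  simp only [ap, mul, Prod.mk.injEq]
  constructor <;> push_cast <;> ring

/-- the normal form of a cusp -/
def nf (c : V) : V := if c.2 = 0 then (1, 0) else (c.1 / c.2, 1)

theorem nf_spec (c : V) (hc : c ≠ 0) : ∃ l : ℚ, l ≠ 0 ∧ nf c = l • c := by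
  obtain ⟨a, b⟩ := c
  by_cases hb : b = 0
  · subst hb
    have ha : a ≠ 0 := fun h => hc (by rw [h]; rfl)
    refine ⟨a⁻¹, inv_ne_zero ha, ?_⟩
    simp [nf, ha]
  · refine ⟨b⁻¹, inv_ne_zero hb, ?_⟩
    simp [nf, hb, div_eq_inv_mul]

theorem e1_ne : e1 ≠ 0 := by simp [e1]

theorem ad_nf {f : V → V → A} (h : Ad f) (c : V) (hc : c ≠ 0) : f e1 (nf c) = f e1 c := by
  obtain ⟨l, hl, e⟩ := nf_spec c hc
  have h1 := h.add e1 c (l • c) e1_ne hc (smul_ne_zero hl hc)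
  rw [h.hom c l hc hl, add_zero] at h1
  rw [e, h1]

theorem ad_path {f : V → V → A} (h : Ad f) (c c' : V) (hc : c ≠ 0) (hc' : c' ≠ 0) :
    f c c' = f e1 (nf c') - f e1 (nf c) := by
  rw [ad_nf h c hc, ad_nf h c' hc', ← h.add e1 c c' e1_ne hc hc']
  abel

theorem col_ne (g : Mt) (hg : det g ≠ 0) : ap g e1 ≠ 0 ∧ ap g e2 ≠ 0 := by
  obtain ⟨p, q, r, s⟩ := g
  simp only [det] at hg
  constructor
  · intro h
    simp only [ap, e1, mul_one, mul_zero, add_zero, Prod.mk_eq_zero, Int.cast_eq_zero] at h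
    apply hg
    rw [h.1, h.2]; ring
  · intro h
    simp only [ap, e2, mul_one, mul_zero, zero_add, Prod.mk_eq_zero, Int.cast_eq_zero] at h
    apply hg
    rw [h.1, h.2]; ring

/-- the value on the path from infinity to `c` -/
def Pt (φ : Sb A) (δ : Mt) (v w c : V) : A := φ e1 c (ap δ v) (ap δ w)

theorem gen (φ : Sb A) (h : Sy φ) (δ γ : Mt) (s t v w : V) (hg : det γ ≠ 0)
    (hs : nf (γ.1, γ.2.2.1) = s) (ht : nf (γ.2.1, γ.2.2.2) = t) :
    φ (ap γ e1) (ap γ e2) (ap δ v) (ap δ w) = Pt φ δ v w t - Pt φ δ v w s := by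
  have h1 := ad_path (h.ad (ap δ v) (ap δ w)) _ _ (col_ne γ hg).1 (col_ne γ hg).2
  have e : ap γ e1 = ((γ.1 : ℚ), (γ.2.2.1 : ℚ)) := by simp [ap, e1]
  have e' : ap γ e2 = ((γ.2.1 : ℚ), (γ.2.2.2 : ℚ)) := by simp [ap, e2]
  rw [h1, e, e', hs, ht]
  rfl

theorem path (φ : Sb A) (h : Sy φ) (δ : Mt) (s t v w : V) (hg : det δ ≠ 0)
    (hs : nf (δ.1, δ.2.2.1) = s) (ht : nf (δ.2.1, δ.2.2.2) = t) :
    lf δ φ e1 e2 v w = Pt φ δ v w t - Pt φ δ v w s :=
  gen φ h δ δ s t v w hg hs ht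

theorem key (hM : RowMOB) (φ : Sb A) (h : Sy φ) (δ γ m : Mt) (s t : V) {u y : ℚ} (hu : In u)
    (hy : In y) (hg : det γ = 1) (hd : mul γ m = δ)
    (hm : m.2.2.1 % 3 = 0 ∧ m.1 % 3 ≠ 0 ∧ m.2.2.2 % 3 ≠ 0)
    (hs : nf (γ.1, γ.2.2.1) = s) (ht : nf (γ.2.1, γ.2.2.2) = t) :
    act m (ch φ) u y = Pt φ δ (u, 1) (1, 3 * y) t - Pt φ δ (u, 1) (1, 3 * y) s := by
  have hG : G0 m := ⟨by omega, by omega, by omega⟩
  rw [← gen φ h δ γ s t _ _ (by rw [hg]; exact one_ne_zero) hs ht, ← hd, ap_mul, ap_mul]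
  have h1 := congrFun (congrFun (congrFun (congrFun (h.inv γ 0 (by rw [hg]; rfl)) e1) e2)
    (ap m (u, 1))) (ap m (1, 3 * y))
  simp only [lf] at h1
  rw [h1, (hM.vec m hG u hu).1, (hM.vec m hG y hy).2,
    h.tor _ _ _ _ _ _ (hM.pres m hG u hu).2.2.1 (hM.pres m hG y hy).2.2.2]
  rfl

theorem two (hM : RowMOB) (φ : Sb A) (h : Sy φ) :
    EqO (ch (cj (Tl 2 φ))) (app T2p (ch φ)) := by
  intro u y hu hy
  have a0 := path φ h (-2, 0, 0, 1) (1, 0) (0, 1) (u, 1) (1, 3 * y) (by decide)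
    (by norm_num [nf]) (by norm_num [nf])
  have a1 := path φ h (-1, 0, 0, 2) (1, 0) (0, 1) (u, 1) (1, 3 * y) (by decide)
    (by norm_num [nf]) (by norm_num [nf])
  have a2 := path φ h (-1, 1, 0, 2) (1, 0) (1 / 2, 1) (u, 1) (1, 3 * y) (by decide)
    (by norm_num [nf]) (by norm_num [nf])
  have b0 := key hM φ h (-2, 0, 0, 1) (1, 0, 0, 1) (-2, 0, 0, 1) (1, 0) (0, 1) hu hy
    (by decide) (by decide) (by decide) (by norm_num [nf]) (by norm_num [nf])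
  have b1 := key hM φ h (-1, 0, 0, 2) (1, 0, 0, 1) (-1, 0, 0, 2) (1, 0) (0, 1) hu hy
    (by decide) (by decide) (by decide) (by norm_num [nf]) (by norm_num [nf])
  have b2 := key hM φ h (-1, 1, 0, 2) (1, 0, 0, 1) (-1, 1, 0, 2) (1, 0) (0, 1) hu hy
    (by decide) (by decide) (by decide) (by norm_num [nf]) (by norm_num [nf])
  have b3 := key hM φ h (-1, 1, 0, 2) (1, -1, 3, -2) (2, 0, 3, -1) (1 / 3, 1) (1 / 2, 1) hu hy
    (by decide) (by decide) (by decide) (by norm_num [nf]) (by norm_num [nf])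
  have b4 := key hM φ h (-1, 1, 0, 2) (1, 0, 3, 1) (-1, 1, 3, -1) (1 / 3, 1) (0, 1) hu hy
    (by decide) (by decide) (by decide) (by norm_num [nf]) (by norm_num [nf])
  have e0 : mul ((2 : ℕ), 0, 0, 1) mN = (-2, 0, 0, 1) := by decide
  have e1' : mul (1, (0 : ℕ), 0, (2 : ℕ)) mN = (-1, 0, 0, 2) := by decide
  have e2' : mul (1, (1 : ℕ), 0, (2 : ℕ)) mN = (-1, 1, 0, 2) := by decide
  have hL : ch (cj (Tl 2 φ)) u y = lf (-2, 0, 0, 1) φ e1 e2 (u, 1) (1, 3 * y) +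
      (lf (-1, 0, 0, 2) φ e1 e2 (u, 1) (1, 3 * y) + lf (-1, 1, 0, 2) φ e1 e2 (u, 1) (1, 3 * y)) := by
    rw [← e0, ← e1', ← e2']
    simp only [ch, res, cj, Tl, lf, Finset.sum_range_succ, Finset.sum_range_zero, zero_add,
      Pi.add_apply, ap_mul]
  rw [hL, a0, a1, a2]
  simp only [app, T2p, List.map_cons, List.map_nil, List.sum_cons, List.sum_nil, Pi.add_apply,
    Pi.smul_apply, Pi.zero_apply]
  rw [b0, b1, b2, b3, b4]
  abel

theorem seven (hM : RowMOB) (φ : Sb A) (h : Sy φ) :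
    EqO (ch (Tl 7 φ)) (app T7c (ch φ)) := by
  intro u y hu hy
  have a0 := path φ h (7, 0, 0, 1) (1, 0) (0, 1) (u, 1) (1, 3 * y) (by decide)
    (by norm_num [nf]) (by norm_num [nf])
  have a1 := path φ h (1, 0, 0, 7) (1, 0) (0, 1) (u, 1) (1, 3 * y) (by decide)
    (by norm_num [nf]) (by norm_num [nf])
  have a2 := path φ h (1, 1, 0, 7) (1, 0) (1 / 7, 1) (u, 1) (1, 3 * y) (by decide)
    (by norm_num [nf]) (by norm_num [nf])
  have a3 := path φ h (1, 2, 0, 7) (1, 0) (2 / 7, 1) (u, 1) (1, 3 * y) (by decide)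
    (by norm_num [nf]) (by norm_num [nf])
  have a4 := path φ h (1, 3, 0, 7) (1, 0) (3 / 7, 1) (u, 1) (1, 3 * y) (by decide)
    (by norm_num [nf]) (by norm_num [nf])
  have a5 := path φ h (1, 4, 0, 7) (1, 0) (4 / 7, 1) (u, 1) (1, 3 * y) (by decide)
    (by norm_num [nf]) (by norm_num [nf])
  have a6 := path φ h (1, 5, 0, 7) (1, 0) (5 / 7, 1) (u, 1) (1, 3 * y) (by decide)
    (by norm_num [nf]) (by norm_num [nf])
  have a7 := path φ h (1, 6, 0, 7) (1, 0) (6 / 7, 1) (u, 1) (1, 3 * y) (by decide)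
    (by norm_num [nf]) (by norm_num [nf])
  have b0 := key hM φ h (7, 0, 0, 1) (1, 0, 0, 1) (7, 0, 0, 1) (1, 0) (0, 1) hu hy
    (by decide) (by decide) (by decide) (by norm_num [nf]) (by norm_num [nf])
  have b1 := key hM φ h (1, 4, 0, 7) (1, 1, 0, 1) (1, -3, 0, 7) (1, 0) (1, 1) hu hy
    (by decide) (by decide) (by decide) (by norm_num [nf]) (by norm_num [nf])
  have b2 := key hM φ h (1, 4, 0, 7) (-2, 1, -3, 1) (1, -3, 3, -2) (2 / 3, 1) (1, 1) hu hy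
    (by decide) (by decide) (by decide) (by norm_num [nf]) (by norm_num [nf])
  have b3 := key hM φ h (1, 4, 0, 7) (2, 1, 3, 2) (2, 1, -3, 2) (2 / 3, 1) (1 / 2, 1) hu hy
    (by decide) (by decide) (by decide) (by norm_num [nf]) (by norm_num [nf])
  have b4 := key hM φ h (1, 4, 0, 7) (-5, 4, -9, 7) (7, 0, 9, 1) (5 / 9, 1) (4 / 7, 1) hu hy
    (by decide) (by decide) (by decide) (by norm_num [nf]) (by norm_num [nf])
  have b5 := key hM φ h (1, 4, 0, 7) (5, 1, 9, 2) (2, 1, -9, -1) (5 / 9, 1) (1 / 2, 1) hu hy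
    (by decide) (by decide) (by decide) (by norm_num [nf]) (by norm_num [nf])
  have b6 := key hM φ h (1, 5, 0, 7) (1, 1, 0, 1) (1, -2, 0, 7) (1, 0) (1, 1) hu hy
    (by decide) (by decide) (by decide) (by norm_num [nf]) (by norm_num [nf])
  have b7 := key hM φ h (1, 5, 0, 7) (-2, 1, -3, 1) (1, -2, 3, 1) (2 / 3, 1) (1, 1) hu hy
    (by decide) (by decide) (by decide) (by norm_num [nf]) (by norm_num [nf])
  have b8 := key hM φ h (1, 5, 0, 7) (-2, 5, -3, 7) (7, 0, 3, 1) (2 / 3, 1) (5 / 7, 1) hu hy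
    (by decide) (by decide) (by decide) (by norm_num [nf]) (by norm_num [nf])
  have b9 := key hM φ h (1, 6, 0, 7) (1, 1, 0, 1) (1, -1, 0, 7) (1, 0) (1, 1) hu hy
    (by decide) (by decide) (by decide) (by norm_num [nf]) (by norm_num [nf])
  have b10 := key hM φ h (1, 6, 0, 7) (-5, 6, -6, 7) (7, 0, 6, 1) (5 / 6, 1) (6 / 7, 1) hu hy
    (by decide) (by decide) (by decide) (by norm_num [nf]) (by norm_num [nf])
  have b11 := key hM φ h (1, 6, 0, 7) (-5, 1, -6, 1) (1, -1, 6, 1) (5 / 6, 1) (1, 1) hu hy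
    (by decide) (by decide) (by decide) (by norm_num [nf]) (by norm_num [nf])
  have b12 := key hM φ h (1, 0, 0, 7) (1, 0, 0, 1) (1, 0, 0, 7) (1, 0) (0, 1) hu hy
    (by decide) (by decide) (by decide) (by norm_num [nf]) (by norm_num [nf])
  have b13 := key hM φ h (1, 1, 0, 7) (1, 0, 0, 1) (1, 1, 0, 7) (1, 0) (0, 1) hu hy
    (by decide) (by decide) (by decide) (by norm_num [nf]) (by norm_num [nf])
  have b14 := key hM φ h (1, 1, 0, 7) (1, 0, 6, 1) (1, 1, -6, 1) (1 / 6, 1) (0, 1) hu hy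
    (by decide) (by decide) (by decide) (by norm_num [nf]) (by norm_num [nf])
  have b15 := key hM φ h (1, 1, 0, 7) (1, 1, 6, 7) (7, 0, -6, 1) (1 / 6, 1) (1 / 7, 1) hu hy
    (by decide) (by decide) (by decide) (by norm_num [nf]) (by norm_num [nf])
  have b16 := key hM φ h (1, 2, 0, 7) (1, 0, 0, 1) (1, 2, 0, 7) (1, 0) (0, 1) hu hy
    (by decide) (by decide) (by decide) (by norm_num [nf]) (by norm_num [nf])
  have b17 := key hM φ h (1, 2, 0, 7) (1, 0, 3, 1) (1, 2, -3, 1) (1 / 3, 1) (0, 1) hu hy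
    (by decide) (by decide) (by decide) (by norm_num [nf]) (by norm_num [nf])
  have b18 := key hM φ h (1, 2, 0, 7) (1, 2, 3, 7) (7, 0, -3, 1) (1 / 3, 1) (2 / 7, 1) hu hy
    (by decide) (by decide) (by decide) (by norm_num [nf]) (by norm_num [nf])
  have b19 := key hM φ h (1, 3, 0, 7) (1, 0, 0, 1) (1, 3, 0, 7) (1, 0) (0, 1) hu hy
    (by decide) (by decide) (by decide) (by norm_num [nf]) (by norm_num [nf])
  have b20 := key hM φ h (1, 3, 0, 7) (-1, 1, -3, 2) (2, -1, 3, 2) (1 / 3, 1) (1 / 2, 1) hu hy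
    (by decide) (by decide) (by decide) (by norm_num [nf]) (by norm_num [nf])
  have b21 := key hM φ h (1, 3, 0, 7) (1, 0, 3, 1) (1, 3, -3, -2) (1 / 3, 1) (0, 1) hu hy
    (by decide) (by decide) (by decide) (by norm_num [nf]) (by norm_num [nf])
  have b22 := key hM φ h (1, 3, 0, 7) (-4, 1, -9, 2) (2, -1, 9, -1) (4 / 9, 1) (1 / 2, 1) hu hy
    (by decide) (by decide) (by decide) (by norm_num [nf]) (by norm_num [nf])
  have b23 := key hM φ h (1, 3, 0, 7) (4, 3, 9, 7) (7, 0, -9, 1) (4 / 9, 1) (3 / 7, 1) hu hy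
    (by decide) (by decide) (by decide) (by norm_num [nf]) (by norm_num [nf])
  have hL : ch (Tl 7 φ) u y = lf (7, 0, 0, 1) φ e1 e2 (u, 1) (1, 3 * y) +
      (lf (1, 0, 0, 7) φ e1 e2 (u, 1) (1, 3 * y) + lf (1, 1, 0, 7) φ e1 e2 (u, 1) (1, 3 * y) +
      lf (1, 2, 0, 7) φ e1 e2 (u, 1) (1, 3 * y) + lf (1, 3, 0, 7) φ e1 e2 (u, 1) (1, 3 * y) +
      lf (1, 4, 0, 7) φ e1 e2 (u, 1) (1, 3 * y) + lf (1, 5, 0, 7) φ e1 e2 (u, 1) (1, 3 * y) +
      lf (1, 6, 0, 7) φ e1 e2 (u, 1) (1, 3 * y)) := by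
    simp only [ch, res, Tl, Finset.sum_range_succ, Finset.sum_range_zero, zero_add,
      Pi.add_apply]
    rfl
  rw [hL, a0, a1, a2, a3, a4, a5, a6, a7]
  simp only [app, T7c, List.map_cons, List.map_nil, List.sum_cons, List.sum_nil, Pi.add_apply,
    Pi.smul_apply, Pi.zero_apply]
  rw [b0, b1, b2, b3, b4, b5, b6, b7, b8, b9, b10, b11, b12, b13, b14, b15, b16, b17, b18, b19,
    b20, b21, b22, b23]
  abel

end CHTA

theorem rowCHT : OfCHT := fun _ hM _ _ φ h => ⟨CHTA.two hM φ h, CHTA.seven hM φ h⟩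

end Pool.Agent.MP_5f72fe_nt.MS
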