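import Pool.Agent.MP_5f72fe_nt.MS.S3

/-! Modular symbols at `3`: rapidly decreasing holomorphic functions and their periods. -/

namespace Pool.Agent.MP_5f72fe_nt.MS

open Complex MeasureTheory Set Filter

namespace CUA

theorem den_ne {g : Mt} (hg : 0 < det g) {z : ℂ} (hz : 0 < z.im) :
    (g.2.2.1 : ℂ) * z + g.2.2.2 ≠ 0 := by
  intro h
  have h1 : (g.2.2.1 : ℝ) * z.im = 0 := by simpa using congrArg im h
  have h2 : g.2.2.1 = 0 := by exact_mod_cast (mul_eq_zero.1 h1).resolve_right hz.ne'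
  rw [h2] at h
  have h3 : g.2.2.2 = 0 := by simpa using h
  simp [det, h2, h3] at hg

theorem im_eq {g : Mt} (hg : 0 < det g) {z : ℂ} (hz : 0 < z.im) :
    ((g.1 * z + g.2.1) / (g.2.2.1 * z + g.2.2.2) : ℂ).im =
      det g * z.im / ‖(g.2.2.1 : ℂ) * z + g.2.2.2‖ ^ 2 := by
  have h := normSq_pos.2 (den_ne hg hz)
  rw [div_im, ← normSq_eq_norm_sq]
  field_simp
  simp [det]
  ring

theorem im_pos {g : Mt} (hg : 0 < det g) {z : ℂ} (hz : 0 < z.im) :
    0 < ((g.1 * z + g.2.1) / (g.2.2.1 * z + g.2.2.2) : ℂ).im := by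
  have h := norm_pos_iff.2 (den_ne hg hz)
  have h' : (0 : ℝ) < det g := by exact_mod_cast hg
  rw [im_eq hg hz]
  positivity

theorem lf_eq {g : Mt} (hg : 0 < det g) {z : ℂ} (hz : 0 < z.im) (c : V) :
    Lf (ap g c) ((g.1 * z + g.2.1) / (g.2.2.1 * z + g.2.2.2)) =
      det g * Lf c z / (g.2.2.1 * z + g.2.2.2) := by
  have h := den_ne hg hz
  simp only [Lf, ap, det]
  push_cast
  field_simp
  ring

theorem ap_ne {g : Mt} (hg : 0 < det g) {c : V} (hc : c ≠ 0) : ap g c ≠ 0 := by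
  intro h
  have h' : (det g : ℚ) ≠ 0 := by exact_mod_cast hg.ne'
  have h1 : (g.1 : ℚ) * c.1 + g.2.1 * c.2 = 0 := congrArg Prod.fst h
  have h2 : (g.2.2.1 : ℚ) * c.1 + g.2.2.2 * c.2 = 0 := congrArg Prod.snd h
  refine hc (Prod.ext (mul_left_cancel₀ h' ?_) (mul_left_cancel₀ h' ?_))
  · simp only [det, Prod.fst_zero]
    push_cast
    linear_combination g.2.2.2 * h1 - g.2.1 * h2
  · simp only [det, Prod.snd_zero]
    push_cast
    linear_combination g.1 * h2 - g.2.2.1 * h1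

theorem cu (k : ℕ) (g : Mt) (h : ℂ → ℂ) (hg : 0 < det g) (H : Cu k h) : Cu k (sl k g h) where
  zero z hz := if_neg (not_lt.2 hz)
  hol := by
    have e : ∀ z ∈ {z : ℂ | 0 < z.im}, (g.2.2.1 : ℂ) * z + g.2.2.2 ≠ 0 := fun z hz => den_ne hg hz
    refine DifferentiableOn.congr (f := fun z => (det g : ℂ) ^ k / (g.2.2.1 * z + g.2.2.2) ^ (2 * k) *
      h ((g.1 * z + g.2.1) / (g.2.2.1 * z + g.2.2.2))) ?_ fun z hz => if_pos hz
    exact (DifferentiableOn.div (by fun_prop) (by fun_prop) fun z hz => pow_ne_zero _ (e z hz)).mul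
      (H.hol.comp (DifferentiableOn.div (by fun_prop) (by fun_prop) e) fun z hz => im_pos hg hz)
  bd c hc s := by
    obtain ⟨C, hC⟩ := H.bd (ap g c) (ap_ne hg hc) s
    refine ⟨C * det g ^ s, fun z hz => ?_⟩
    have h1 := hC _ (im_pos hg hz)
    have h2 := norm_pos_iff.2 (den_ne hg hz)
    have h3 : (0 : ℝ) < det g := by exact_mod_cast hg
    have h4 : ‖(det g : ℂ)‖ = det g := by rw [norm_intCast, abs_of_pos h3]
    rw [lf_eq hg hz, im_eq hg hz, norm_div, norm_mul, h4] at h1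
    rw [sl, if_pos hz, norm_mul, norm_div, norm_pow, norm_pow, h4]
    refine (Eq.trans_le ?_ h1).trans_eq ?_
    · rw [div_pow, mul_pow, ← pow_mul]
      ring
    · rw [mul_assoc, ← mul_pow]
      congr 2
      field_simp

theorem comp (k : ℕ) (g g' : Mt) (h : ℂ → ℂ) (hg : 0 < det g) (hg' : 0 < det g') :
    sl k (mul g g') h = sl k g' (sl k g h) := by
  funext z
  by_cases hz : 0 < z.im
  · have h1 := den_ne hg' hz
    have h2 := den_ne hg (im_pos hg' hz)
    have e1 : ((mul g g').2.2.1 : ℂ) * z + (mul g g').2.2.2 = (g.2.2.1 * ((g'.1 * z + g'.2.1) /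
        (g'.2.2.1 * z + g'.2.2.2)) + g.2.2.2) * (g'.2.2.1 * z + g'.2.2.2) := by
      simp only [mul]
      push_cast
      field_simp
      ring
    have e2 : ((mul g g').1 : ℂ) * z + (mul g g').2.1 = (g.1 * ((g'.1 * z + g'.2.1) /
        (g'.2.2.1 * z + g'.2.2.2)) + g.2.1) * (g'.2.2.1 * z + g'.2.2.2) := by
      simp only [mul]
      push_cast
      field_simp
      ring
    have e3 : (det (mul g g') : ℂ) = det g * det g' := by
      simp only [det, mul]
      push_cast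
      ring
    simp only [sl, if_pos hz, if_pos (im_pos hg' hz)]
    rw [e1, e2, e3, mul_div_mul_right _ _ h1, mul_pow, mul_pow, mul_div_mul_comm]
    ring
  · simp only [sl, if_neg hz]

theorem sc (k : ℕ) (a : ℤ) (h : ℂ → ℂ) (ha : a ≠ 0) (H : Cu k h) : sl k (a, 0, 0, a) h = h := by
  funext z
  have ha' : (a : ℂ) ≠ 0 := by exact_mod_cast ha
  by_cases hz : 0 < z.im
  · simp only [sl, if_pos hz, det]
    push_cast
    rw [zero_mul, zero_add, add_zero, sub_zero, mul_div_cancel_left₀ _ ha', pow_mul,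
      sq, div_self (pow_ne_zero _ (mul_ne_zero ha' ha')), one_mul]
  · rw [sl, if_neg hz, H.zero z (not_lt.1 hz)]

/-- the slash operator as a linear map -/
noncomputable def slL (k : ℕ) (g : Mt) : (ℂ → ℂ) →ₗ[ℂ] (ℂ → ℂ) where
  toFun := sl k g
  map_add' h h' := by
    funext z
    simp only [sl, Pi.add_apply]
    split_ifs
    · ring
    · simp
  map_smul' a h := by
    funext z
    simp only [sl, Pi.smul_apply, smul_eq_mul, RingHom.id_apply]
    split_ifs
    · ring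
    · simp

theorem sub (k : ℕ) : ∃ M : Submodule ℂ (ℂ → ℂ), ∀ h, h ∈ M ↔ Cu k h := by
  refine ⟨⟨⟨⟨{h | Cu k h}, fun {f g} hf hg => ⟨fun z hz => ?_, hf.hol.add hg.hol, fun c hc s => ?_⟩⟩,
    ⟨fun _ _ => rfl, differentiableOn_const 0, fun c hc s => ⟨0, fun z hz => by simp⟩⟩⟩,
    fun a f hf => ⟨fun z hz => ?_, hf.hol.const_smul a, fun c hc s => ?_⟩⟩, fun _ => Iff.rfl⟩
  · rw [Pi.add_apply, hf.zero z hz, hg.zero z hz, add_zero]
  · obtain ⟨C, hC⟩ := hf.bd c hc s
    obtain ⟨D, hD⟩ := hg.bd c hc s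
    refine ⟨C + D, fun z hz => ?_⟩
    have := mul_le_mul_of_nonneg_right (norm_add_le (f z) (g z)) (pow_pos hz k).le
    rw [Pi.add_apply]
    linarith [hC z hz, hD z hz]
  · rw [Pi.smul_apply, hf.zero z hz, smul_zero]
  · obtain ⟨C, hC⟩ := hf.bd c hc s
    refine ⟨‖a‖ * C, fun z hz => ?_⟩
    rw [Pi.smul_apply, norm_smul, mul_assoc, mul_assoc]
    exact mul_le_mul_of_nonneg_left (hC z hz) (norm_nonneg _)

theorem subg (k : ℕ) : ∃ M : Submodule ℂ (ℂ → ℂ), ∀ h, h ∈ M ↔ Cg k h := by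
  refine ⟨⟨⟨⟨{h | Cg k h}, ?_⟩, ⟨0, fun g _ _ _ _ _ => (slL k g).map_zero⟩⟩, ?_⟩, fun _ => Iff.rfl⟩
  · rintro f h ⟨e, he⟩ ⟨e', he'⟩
    have d : (3 : ℤ) ^ e ∣ 3 ^ (e + e') := pow_dvd_pow _ (Nat.le_add_right _ _)
    have d' : (3 : ℤ) ^ e' ∣ 3 ^ (e + e') := pow_dvd_pow _ (Nat.le_add_left _ _)
    refine ⟨e + e', fun g h0 h1 h2 h3 h4 => ((slL k g).map_add f h).trans ?_⟩
    exact congrArg₂ (· + ·) (he g h0 (d.trans h1) (d.trans h2) (d.trans h3) (d.trans h4))
      (he' g h0 (d'.trans h1) (d'.trans h2) (d'.trans h3) (d'.trans h4))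
  · rintro a f ⟨e, he⟩
    exact ⟨e, fun g h0 h1 h2 h3 h4 => ((slL k g).map_smul a f).trans
      (congrArg (a • ·) (he g h0 h1 h2 h3 h4))⟩

/-- continuous and rapidly decreasing on the half line -/
def Dec (f : ℝ → ℂ) : Prop :=
  ContinuousOn f (Ioi 0) ∧ ∀ M : ℕ, ∃ C : ℝ, ∀ t, 0 < t → ‖f t‖ * (1 + t) ^ M ≤ C

theorem Dec.int {f : ℝ → ℂ} (h : Dec f) : IntegrableOn f (Ioi 0) := by
  obtain ⟨C, hC⟩ := h.2 2
  refine Integrable.mono' (integrable_inv_one_add_sq.const_mul C).integrableOn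
    (h.1.aestronglyMeasurable measurableSet_Ioi)
    ((ae_restrict_iff' measurableSet_Ioi).2 (Eventually.of_forall fun t ht => ?_))
  have ht' : 0 < t := ht
  rw [← div_eq_mul_inv, le_div_iff₀ (by positivity)]
  exact (mul_le_mul_of_nonneg_left (by nlinarith) (norm_nonneg _)).trans (hC t ht)

theorem Dec.aff {f : ℝ → ℂ} (h : Dec f) (a b : ℂ) : Dec fun t => f t * (a + b * t) := by
  refine ⟨h.1.mul (by fun_prop), fun M => ?_⟩
  obtain ⟨C, hC⟩ := h.2 (M + 1)
  refine ⟨(‖a‖ + ‖b‖) * C, fun t ht => ?_⟩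
  have h1 : ‖a + b * t‖ ≤ (‖a‖ + ‖b‖) * (1 + t) := by
    refine (norm_add_le _ _).trans ?_
    rw [norm_mul, norm_real, Real.norm_of_nonneg ht.le]
    nlinarith [norm_nonneg a, norm_nonneg b]
  calc ‖f t * (a + b * t)‖ * (1 + t) ^ M ≤ ‖f t‖ * ((‖a‖ + ‖b‖) * (1 + t)) * (1 + t) ^ M := by
        rw [norm_mul]
        gcongr
    _ = (‖a‖ + ‖b‖) * (‖f t‖ * (1 + t) ^ (M + 1)) := by ring
    _ ≤ _ := mul_le_mul_of_nonneg_left (hC t ht) (by positivity)

/-- rapidly decreasing on the vertical lines above rational points -/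
def Good (f : ℂ → ℂ) : Prop := ∀ q : ℚ, Dec fun t : ℝ => f (q + t * I)

theorem Good.pow {f : ℂ → ℂ} (h : Good f) (a b : ℂ) (n : ℕ) :
    Good fun z => f z * (a - b * z) ^ n := by
  induction n with
  | zero => simpa using h
  | succ n ih =>
    intro q
    have e : (fun t : ℝ => f (q + t * I) * (a - b * (q + t * I)) ^ (n + 1)) =
        fun t : ℝ => f (q + t * I) * (a - b * (q + t * I)) ^ n * (a - b * q + -(b * I) * t) := by
      funext t
      ring
    exact e ▸ (ih q).aff _ _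

theorem good {k : ℕ} {h : ℂ → ℂ} (H : Cu k h) : Good h := by
  intro q
  have im : ∀ t : ℝ, ((q : ℂ) + t * I).im = t := fun t => by simp
  refine ⟨H.hol.continuousOn.comp (by fun_prop) fun t ht => by simpa using ht, fun M => ?_⟩
  obtain ⟨C, hC⟩ := H.bd (q, 1) (by simp) k
  obtain ⟨D, hD⟩ := H.bd e1 (by simp [e1]) M
  refine ⟨max C D * 2 ^ M, fun t ht => ?_⟩
  have h1 := hC (q + t * I) (by rwa [im])
  have h2 := hD (q + t * I) (by rwa [im])
  have e1' : ‖Lf (q, 1) (q + t * I)‖ ^ 2 / t = t := by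
    simp only [Lf, Rat.cast_one, one_mul, sub_add_cancel_left, norm_neg, norm_mul, norm_I, mul_one,
      norm_real, Real.norm_of_nonneg ht.le]
    field_simp
  have e2' : ‖Lf e1 (q + t * I)‖ ^ 2 = 1 := by simp [Lf, e1]
  rw [im, e1'] at h1
  rw [im, e2', div_pow, one_pow, mul_one_div, le_div_iff₀ (pow_pos ht M)] at h2
  have h3 := le_of_mul_le_mul_right h1 (pow_pos ht k)
  rcases le_total t 1 with h4 | h4
  · exact mul_le_mul (h3.trans (le_max_left _ _)) (pow_le_pow_left₀ (by linarith) (by linarith) M)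
      (by positivity) ((norm_nonneg _).trans (h3.trans (le_max_left _ _)))
  · have h5 : (1 + t) ^ M ≤ t ^ k * t ^ M * 2 ^ M := by
      rw [mul_assoc, ← mul_pow]
      exact (pow_le_pow_left₀ (by linarith) (by linarith) M).trans
        (le_mul_of_one_le_left (by positivity) (one_le_pow₀ h4))
    refine (mul_le_mul_of_nonneg_left h5 (norm_nonneg _)).trans ?_
    rw [← mul_assoc, ← mul_assoc]
    exact mul_le_mul_of_nonneg_right (h2.trans (le_max_right _ _)) (by positivity)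

theorem good_xi {k : ℕ} {h : ℂ → ℂ} (H : Cu k h) (x y : V) : Good fun z => h z * xi k x y z := by
  have e : (fun z => h z * xi k x y z) =
      fun z => h z * ((x.1 : ℂ) - x.2 * z) ^ (k - 1) * ((y.1 : ℂ) - y.2 * z) ^ (k - 1) := by
    funext z
    rw [xi, mul_pow, mul_assoc]
    rfl
  exact e ▸ ((good H).pow _ _ _).pow _ _ _

theorem pc_sum {ι : Type} (s : Finset ι) (a : ι → ℂ) (f : ι → ℂ → ℂ) (hf : ∀ i, Good (f i))
    (c : V) : Pc (fun z => ∑ i ∈ s, a i * f i z) c = ∑ i ∈ s, a i * Pc (f i) c := by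
  unfold Pc
  split_ifs
  · simp
  · rw [integral_finsetSum _ fun i _ => (hf i _).int.const_mul _, Finset.mul_sum]
    refine Finset.sum_congr rfl fun i _ => ?_
    rw [integral_const_mul]
    ring

theorem pc_add {f g : ℂ → ℂ} (hf : Good f) (hg : Good g) (c : V) :
    Pc (fun z => f z + g z) c = Pc f c + Pc g c := by
  unfold Pc
  split_ifs
  · simp
  · rw [integral_add (hf _).int (hg _).int, mul_add]

theorem pc_mul (a : ℂ) (f : ℂ → ℂ) (c : V) : Pc (fun z => a * f z) c = a * Pc f c := by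
  unfold Pc
  split_ifs
  · simp
  · rw [integral_const_mul]
    ring

theorem pol {k : ℕ} {h : ℂ → ℂ} (H : Cu k h) (c c' y : V) :
    Hp (k - 1) fun x => Per k h x y c c' := by
  let f : ℕ → ℂ → ℂ := fun i z =>
    h z * ((0 : ℂ) - 1 * z) ^ (k - 1 - i) * ((y.1 : ℂ) - y.2 * z) ^ (k - 1)
  have hf : ∀ i, Good (f i) := fun i => ((good H).pow _ _ _).pow _ _ _
  refine ⟨fun i => ((k - 1).choose i : ℂ) * (Pc (f i) c' - Pc (f i) c), fun x => ?_⟩
  have e : (fun z => h z * xi k x y z) = fun z => ∑ i ∈ Finset.range (k - 1 + 1),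
      ((x.1 : ℂ) ^ i * (x.2 : ℂ) ^ (k - 1 - i) * ((k - 1).choose i : ℂ)) * f i z := by
    funext z
    rw [xi, mul_pow, Lf, sub_eq_add_neg, add_pow, Finset.sum_mul, Finset.mul_sum]
    refine Finset.sum_congr rfl fun i _ => ?_
    simp only [f, Lf, zero_sub, one_mul, ← mul_neg, mul_pow]
    ring
  simp only [Per]
  rw [e, pc_sum _ _ _ hf, pc_sum _ _ _ hf, ← Finset.sum_sub_distrib]
  refine Finset.sum_congr rfl fun i _ => ?_
  rw [Rat.smul_def]
  push_cast
  ring

theorem pc_hom (f : ℂ → ℂ) (c : V) {l : ℚ} (hl : l ≠ 0) : Pc f (l • c) = Pc f c := by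
  simp only [Pc, Prod.smul_fst, Prod.smul_snd, smul_eq_mul, mul_eq_zero, hl, false_or,
    mul_div_mul_left _ _ hl]

end CUA

open CUA in
theorem rowCU : OfCU := fun _ =>
  { sub := sub
    subg := subg
    lin := fun k g => ⟨slL k g, fun _ => rfl⟩
    cu := cu
    comp := comp
    sc := sc
    int := fun k h x y u q H hu => by
      simpa only [hu, ofReal_ratCast] using (good_xi H x y q).int
    perLin := fun k x y c c' h h' a H H' => by
      simp only [Per, Pi.add_apply, Pi.smul_apply, smul_eq_mul, add_mul, mul_assoc, pc_mul,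
        pc_add (good_xi H x y) (good_xi H' x y)]
      exact ⟨by ring, by ring⟩
    perPol := fun k h c c' y H => ⟨pol H c c' y, fun x => by
      simp only [Per, xi, mul_comm (Lf x _)]⟩
    perAd := fun k h x y => ⟨fun c l _ hl => by rw [Per, pc_hom _ _ hl, sub_self],
      fun c c' c'' _ _ _ => by simp only [Per]; ring⟩ }

end Pool.Agent.MP_5f72fe_nt.MS
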