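import Pool.Agent.MP_5f72fe_nt.MS.S3

/-! Row CUF: cusp forms of level a power of `3` as functions on the complex plane. -/

namespace Pool.Agent.MP_5f72fe_nt.MS

open Complex Filter Topology
open scoped Real MatrixGroups UpperHalfPlane ModularForm Pointwise

namespace CUFA

theorem fc_coe (f : ℍ → ℂ) (w : ℍ) : fc f w = f w := by
  have : 0 < (w : ℂ).im := w.im_pos
  rw [fc, dif_pos this]

theorem ph_bd {Γ : Subgroup (GL (Fin 2) ℝ)} [Γ.IsArithmetic] {k : ℕ}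
    (f : CuspForm Γ (2 * k : ℕ)) (s : ℕ) :
    ∃ C : ℝ, 0 ≤ C ∧ ∀ w : ℍ, ‖f w‖ * w.im ^ k * w.im ^ s ≤ C := by
  obtain ⟨C0, hC0⟩ := CuspFormClass.exists_bound f
  have b0 : ∀ w : ℍ, ‖f w‖ * w.im ^ k ≤ C0 := fun w => by
    have h := hC0 w
    have h2 : (((((2 * k : ℕ) : ℤ) : ℝ)) / 2) = (k : ℝ) := by push_cast; ring
    rwa [h2, Real.rpow_natCast, le_div_iff₀ (pow_pos w.im_pos _)] at h
  obtain ⟨c, hc, hO⟩ := CuspFormClass.exp_decay_atImInfty' f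
  obtain ⟨D, hD0, hD⟩ := hO.exists_pos
  obtain ⟨A, hA⟩ := (UpperHalfPlane.atImInfty_mem _).1 hD.bound
  have ht := tendsto_rpow_mul_exp_neg_mul_atTop_nhds_zero ((k + s : ℕ) : ℝ) c hc
  obtain ⟨B, hB⟩ := eventually_atTop.1 (ht.eventually (gt_mem_nhds one_pos))
  set T : ℝ := max (max A B) 0 with hT
  have p0 : ∀ w : ℍ, 0 ≤ ‖f w‖ * w.im ^ k := fun w =>
    mul_nonneg (norm_nonneg _) (pow_nonneg w.im_pos.le _)
  have C00 : 0 ≤ C0 := (p0 UpperHalfPlane.I).trans (b0 _)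
  have T0 : 0 ≤ T := le_max_right _ _
  refine ⟨C0 * T ^ s + D, by positivity, fun w => ?_⟩
  have hw := w.im_pos
  rcases le_total w.im T with h | h
  · have h1 : w.im ^ s ≤ T ^ s := pow_le_pow_left₀ hw.le h s
    have h2 : ‖f w‖ * w.im ^ k * w.im ^ s ≤ C0 * T ^ s :=
      mul_le_mul (b0 w) h1 (by positivity) C00
    linarith
  · have h1 : ‖f w‖ ≤ D * Real.exp (-c * w.im) := by
      have := hA w ((le_max_left _ _).trans ((le_max_left _ _).trans h))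
      simpa using this
    have h2 := hB w.im ((le_max_right _ _).trans ((le_max_left _ _).trans h))
    rw [Real.rpow_natCast] at h2
    have h3 : ‖f w‖ * w.im ^ k * w.im ^ s = ‖f w‖ * w.im ^ (k + s) := by ring
    have h4 : ‖f w‖ * w.im ^ (k + s) ≤ D * Real.exp (-c * w.im) * w.im ^ (k + s) :=
      mul_le_mul_of_nonneg_right h1 (by positivity)
    have h5 : D * (w.im ^ (k + s) * Real.exp (-c * w.im)) ≤ D * 1 :=
      mul_le_mul_of_nonneg_left h2.le hD0.le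
    have h6 : 0 ≤ C0 * T ^ s := by positivity
    nlinarith

/-- the bound at the cusp of a matrix -/
theorem cusp_bd {Γ : Subgroup (GL (Fin 2) ℝ)} [Γ.IsArithmetic] {k : ℕ}
    (f : CuspForm Γ (2 * k : ℕ)) (s : ℕ) (g : SL(2, ℤ)) :
    ∃ C : ℝ, 0 ≤ C ∧ ∀ z : ℍ,
      ‖f z‖ * z.im ^ k ≤ C * (‖((g 0 0 : ℤ) : ℂ) - (g 1 0 : ℤ) * z‖ ^ 2 / z.im) ^ s := by
  have : ((ConjAct.toConjAct (g : GL (Fin 2) ℝ)⁻¹) • Γ).IsArithmetic := by
    simpa [(show Rat.castHom ℝ = algebraMap ℚ ℝ by rfl), map_inv,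
      Matrix.SpecialLinearGroup.map_mapGL]
      using! Subgroup.IsArithmetic.conj Γ (Matrix.SpecialLinearGroup.mapGL ℚ g)⁻¹
  obtain ⟨C, hC0, hC⟩ := ph_bd (CuspForm.translate f (g : GL (Fin 2) ℝ)) s
  refine ⟨C, hC0, fun z => ?_⟩
  have hb := hC (g⁻¹ • z)
  have hw := (g⁻¹ • z).im_pos
  have hi := ModularGroup.im_smul_eq_div_normSq g⁻¹ z
  have hi2 := ModularGroup.im_smul_eq_div_normSq g (g⁻¹ • z)
  rw [CuspForm.coe_translate, ModularForm.SL_slash_apply, smul_inv_smul] at hb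
  rw [smul_inv_smul, Complex.normSq_eq_norm_sq] at hi2
  have hd : UpperHalfPlane.denom (g⁻¹ : SL(2, ℤ)) z = ((g 0 0 : ℤ) : ℂ) - (g 1 0 : ℤ) * z := by
    rw [ModularGroup.denom_apply, Matrix.SpecialLinearGroup.SL2_inv_expl]
    simp
    ring
  rw [hd, Complex.normSq_eq_norm_sq] at hi
  have hn : 0 < ‖UpperHalfPlane.denom g ((g⁻¹ • z : ℍ) : ℂ)‖ :=
    norm_pos_iff.2 (UpperHalfPlane.denom_ne_zero _ _)
  have e : ‖f z * UpperHalfPlane.denom g ((g⁻¹ • z : ℍ) : ℂ) ^ (-((2 * k : ℕ) : ℤ))‖ *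
      (g⁻¹ • z).im ^ k = ‖f z‖ * z.im ^ k := by
    rw [norm_mul, norm_zpow, zpow_neg, zpow_natCast, hi2, div_pow, pow_mul]
    field_simp
  rw [e] at hb
  rw [← inv_div, ← hi, inv_pow, ← div_eq_mul_inv, le_div_iff₀ (by positivity)]
  exact hb

/-- a vector is a multiple of a primitive vector -/
theorem prim (c : V) (hc : c ≠ 0) :
    ∃ (g : SL(2, ℤ)) (l : ℚ), ((g 0 0 : ℤ) : ℚ) = l * c.1 ∧ ((g 1 0 : ℤ) : ℚ) = l * c.2 := by
  by_cases h : c.2 = 0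
  · have h1 : c.1 ≠ 0 := fun h1 => hc (Prod.ext h1 h)
    exact ⟨1, c.1⁻¹, by simp [h1], by simp [h]⟩
  · have hco : IsCoprime (c.1 / c.2).num ((c.1 / c.2).den : ℤ) :=
      Int.isCoprime_iff_gcd_eq_one.2 (c.1 / c.2).reduced
    obtain ⟨g, h0, h1⟩ := hco.exists_SL2_col 0
    refine ⟨g, (c.1 / c.2).den / c.2, ?_, ?_⟩
    · rw [h0, ← Rat.den_mul_eq_num]
      ring
    · rw [h1]
      push_cast
      field_simp

end CUFA

open CUFA in
theorem rowCUF : OfCUF := by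
  intro _ r k f _
  have : NeZero (3 ^ r) := ⟨by positivity⟩
  have hp : (1 : ℝ) ∈ (CongruenceSubgroup.Gamma0 (3 ^ r) : Subgroup (GL (Fin 2) ℝ)).strictPeriods := by
    simp
  refine ⟨⟨fun z hz => by simp [fc, not_lt.2 hz], ?_, fun c hc s => ?_⟩, fun g hg h3 => ?_,
    ⟨CuspFormClass.qExpansion_coeff_zero f one_pos hp, fun z hz => ?_⟩, ?_⟩
  · refine (UpperHalfPlane.mdifferentiable_iff.1 (ModularFormClass.holo f)).congr fun z hz => ?_
    have hz' : 0 < z.im := hz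
    simp [fc, hz', UpperHalfPlane.ofComplex_apply_of_im_pos hz']
  · obtain ⟨g, l, h0, h1⟩ := prim c hc
    obtain ⟨C, -, hC⟩ := cusp_bd f s g
    refine ⟨C * (‖(l : ℂ)‖ ^ 2) ^ s, fun z hz => ?_⟩
    have hb := hC ⟨z, hz⟩
    have a0 : ((g 0 0 : ℤ) : ℂ) = l * c.1 := by exact_mod_cast congrArg (Rat.cast : ℚ → ℂ) h0
    have a1 : ((g 1 0 : ℤ) : ℂ) = l * c.2 := by exact_mod_cast congrArg (Rat.cast : ℚ → ℂ) h1
    have e : ((g 0 0 : ℤ) : ℂ) - (g 1 0 : ℤ) * z = l * Lf c z := by rw [a0, a1, Lf]; ring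
    have e1 : fc f z = f ⟨z, hz⟩ := fc_coe f ⟨z, hz⟩
    rw [e1]
    refine hb.trans (le_of_eq ?_)
    change C * (‖((g 0 0 : ℤ) : ℂ) - (g 1 0 : ℤ) * z‖ ^ 2 / z.im) ^ s = _
    rw [e, norm_mul, mul_pow, mul_div_assoc, mul_pow, mul_assoc]
  · funext z
    by_cases hz : 0 < z.im
    · obtain ⟨p, q, u, v⟩ := g
      let γ : SL(2, ℤ) := ⟨!![p, q; u, v], by rw [Matrix.det_fin_two_of]; exact hg⟩
      have hγ : γ ∈ CongruenceSubgroup.Gamma0 (3 ^ r) := by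
        rw [CongruenceSubgroup.Gamma0_mem, ZMod.intCast_zmod_eq_zero_iff_dvd]
        exact_mod_cast h3
      have e := SlashInvariantForm.slash_action_eqn_SL'' f hγ ⟨z, hz⟩
      have e2 : ((γ • (⟨z, hz⟩ : ℍ) : ℍ) : ℂ) = (p * z + q) / (u * z + v) := by
        rw [UpperHalfPlane.coe_specialLinearGroup_apply]
        simp [γ]
      have e3 : UpperHalfPlane.denom γ ((⟨z, hz⟩ : ℍ) : ℂ) = u * z + v := by
        rw [ModularGroup.denom_apply]
        simp [γ]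
      have e4 : (u : ℂ) * z + v ≠ 0 := e3 ▸ UpperHalfPlane.denom_ne_zero _ _
      have e1 : fc f z = f ⟨z, hz⟩ := fc_coe f ⟨z, hz⟩
      rw [e3, zpow_natCast] at e
      simp only [sl, if_pos hz, hg]
      rw [← e2, fc_coe, e, e1]
      field_simp
      simp
    · simp [sl, fc, hz]
  · have h := ModularForm.hasSum_qExpansion f one_pos hp ⟨z, hz⟩
    have e1 : fc f z = f ⟨z, hz⟩ := fc_coe f ⟨z, hz⟩
    rw [e1]
    convert h using 3 with n
    · rfl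
    · rw [Function.Periodic.qParam, ← Complex.exp_nat_mul]
      congr 1
      simp
      ring
  · have h := CuspFormClass.qExpansion_isBigO f
    have h2 : (((((2 * k : ℕ) : ℤ) : ℝ)) / 2) = (k : ℝ) := by push_cast; ring
    rw [h2, CongruenceSubgroup.strictWidthInfty_Gamma0] at h
    exact h

end Pool.Agent.MP_5f72fe_nt.MS
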