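import Pool.Agent.MP_5f72fe_nt.MS.DGM

/-! Substitutions in one variable. -/

namespace Pool.Agent.MP_5f72fe_nt.MS

namespace D1B

open DGMA

theorem co1_diff (b : ℚ → F3) (k i : ℕ) : co1 ((fwdDiff (1 : ℚ))^[k] b) i = co1 b (i + k) := by
  rw [co1, co1, Function.iterate_add_apply]

theorem co1_add (b b' : ℚ → F3) (i : ℕ) : co1 (b + b') i = co1 b i + co1 b' i := by
  simp only [co1, fwdDiff_iter_add, Pi.add_apply]

theorem co1_smul (c : F3) (b : ℚ → F3) (i : ℕ) : co1 (fun u => c * b u) i = c * co1 b i := by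
  have := congrFun (fwdDiff_iter_const_smul (1 : ℚ) c b i) 0
  exact this

theorem expand (hB : RowBAS) (hN : RowBN) (g : ℚ → ℚ) (hg : ∀ m : ℕ, In (g m)) (b : ℚ → F3) (n : ℕ)
    (h1 : LC1 b) (h2 : Z1 (n + 1) b) : co1 (fun u => b (u + g u) - b u) =
      co1 (∑ k ∈ Finset.range n, (fun u => bn (k + 1) (g u)) * (fwdDiff (1 : ℚ))^[k + 1] b) :=
  hN.congr _ _ fun m => by
    rw [hN.newton b _ m (g m) h1 h2 (in_nat hB m) (hg m), Finset.sum_range_succ',
      (hN.low _ (hg m)).1]
    simp [Finset.sum_apply]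

theorem term (hN : RowBN) (c b : ℚ → F3) (k d n : ℕ) (h1 : Z1 (k + 1 - d) c) (h2 : Z1 (n + d) b) :
    Z1 n (c * (fwdDiff (1 : ℚ))^[k] b) := by
  by_cases e : k + 1 ≤ d
  · rw [mul_comm]
    exact Z1_mono (hN.mul0 _ _ (Z1_mono h1 (by omega))) n.zero_le
  by_cases e' : n + d ≤ k
  · exact Z1_mono (hN.mul0 _ _ fun i _ => by
      rw [co1_diff]
      exact h2 _ (by omega)) n.zero_le
  exact Z1_mono (hN.mul c _ (k - d) (n + d - k - 1) (Z1_mono h1 (by omega)) fun i hi => by
    rw [co1_diff]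
    exact h2 _ (by omega)).1 (by omega)

theorem drop (hB : RowBAS) (hN : RowBN) (g : ℚ → ℚ) (hg : ∀ m : ℕ, In (g m)) (d : ℕ)
    (hd : ∀ k, Z1 (k + 1 + 1 - (d + 1)) fun u => bn (k + 1) (g u)) (b : ℚ → F3) (n : ℕ)
    (h1 : LC1 b) (h2 : Z1 (n + (d + 1)) b) : Z1 n fun u => b (u + g u) - b u := by
  intro i hi
  rw [expand hB hN g hg b (n + d) h1 h2]
  exact Z1_sum (fun k _ => term hN _ b (k + 1) (d + 1) n (hd k) h2) i hi

theorem three (hN : RowBN) (m : ℚ → ℚ) (hm : ∀ u : ℕ, In (m u)) (f : ℕ → ℕ)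
    (h : ∀ k, Z1 (f k) fun u => bn k (m u)) (k : ℕ) :
    Z1 (if 3 ∣ k then f (k / 3) else 0) fun u => bn k (3 * m u) := by
  split_ifs with e
  · exact Z1_congr hN (fun u => by rw [hN.three k _ (hm u), if_pos e]) (h _)
  · exact Z1_congr hN (b' := 0) (fun u => by rw [hN.three k _ (hm u), if_neg e]; rfl)
      fun i _ => co1_zero i

theorem quad (hB : RowBAS) {a b c r s : ℚ} (ha : In a) (hb : In b) (hc : In c) (hr : In (r / 3))
    (hs : Un s) (u : ℕ) : In ((a * u ^ 2 + b * u + c) / (r * u + s)) :=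
  hB.div _ _ (in_add hB (in_add hB (in_mul hB ha (in_pow hB (in_nat hB u) 2))
    (in_mul hB hb (in_nat hB u))) hc) (den_un hB hr hs (in_nat hB u))

end D1B

open D1B DGMA in
theorem rowD1x : OfD1 := by
  intro hB hN hD
  have i3 : ∀ x, In (x / 3) → In x := fun x h => by
    have := in_mul hB (in_three hB) h
    rwa [mul_div_cancel₀ _ (by norm_num)] at this
  have inm : ∀ p q r s, Mb p q r s → ∀ u, In u → In (mob p q r s u) := fun p q r s h u hu =>
    hB.div _ _ (in_add hB (in_mul hB h.1.1 hu) h.2.1) (den_un hB h.2.2.1 h.2.2.2 hu)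
  have ex : ∀ p q r s, Mb p q r s → ∀ (b : ℚ → F3) (n : ℕ), LC1 b → Z1 n b → ∀ u, In u →
      b (mob p q r s u) = (∑ k ∈ Finset.range n, fun u => co1 b k * bn k (mob p q r s u)) u :=
    fun p q r s h b n h1 h2 u hu => by
      have := hN.newton b n 0 _ h1 h2 (by simp [In]) (inm p q r s h u hu)
      rw [zero_add] at this
      rw [this, Finset.sum_apply]
      exact Finset.sum_congr rfl fun k _ => mul_comm _ _
  have tri : ∀ p q r s, Mb p q r s → ∀ (b : ℚ → F3) (n : ℕ), LC1 b →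
      LC1 (fun u => b (mob p q r s u)) ∧ (Z1 n b → Z1 n fun u => b (mob p q r s u)) ∧
      (Z1 (n + 1) b → co1 (fun u => b (mob p q r s u)) n = red 3 (p / s) ^ n * co1 b n) := by
    intro p q r s h b n h1
    refine ⟨?_, fun h2 => ?_, fun h2 => ?_⟩
    · obtain ⟨e, he⟩ := h1
      refine ⟨e, fun u x hu hx => ?_⟩
      have hu' := in_add hB hu (in_mul hB (in_pow hB (in_three hB) e) hx)
      have d1 := den_un hB h.2.2.1 h.2.2.2 hu
      have d2 := den_un hB h.2.2.1 h.2.2.2 hu'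
      have := he (mob p q r s u) ((p * s - q * r) * x / ((r * u + s) * (r * (u + 3 ^ e * x) + s)))
        (inm p q r s h u hu) (hB.div _ _ (in_mul hB (in_sub hB (in_mul hB h.1.1 h.2.2.2.1)
          (in_mul hB h.2.1 (i3 _ h.2.2.1))) hx) (hB.unMul _ _ d1 d2).1)
      refine Eq.trans (congrArg b ?_) this
      have key : ∀ D E : ℚ, D ≠ 0 → E ≠ 0 → D = r * u + s → E = r * (u + 3 ^ e * x) + s →
          (p * (u + 3 ^ e * x) + q) / E = (p * u + q) / D + 3 ^ e * ((p * s - q * r) * x / (D * E)) := by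
        intro D E a b c d
        field_simp
        rw [c, d]
        ring
      exact key _ _ (un_ne hB d1) (un_ne hB d2) rfl rfl
    · refine Z1_congr hN (fun m => ex p q r s h b n h1 h2 m (in_nat hB m)) (Z1_sum fun k hk i hi => ?_)
      rw [co1_smul, (hD.one p q r s h k).2.1 i (by have := Finset.mem_range.1 hk; omega), mul_zero]
    · rw [hN.congr _ _ fun m => ex p q r s h b _ h1 h2 m (in_nat hB m), co1_sum,
        Finset.sum_range_succ, Finset.sum_eq_zero fun k hk => ?_, zero_add, co1_smul,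
        (hD.one p q r s h n).2.2, mul_comm]
      rw [co1_smul, (hD.one p q r s h k).2.1 n (by have := Finset.mem_range.1 hk; omega), mul_zero]
  have d3 : ∀ a b c r s : ℚ, In a → In b → In c → In (r / 3) → Un s → ∀ (f : ℚ → F3) (n : ℕ),
      LC1 f → Z1 (n + 1) f →
      Z1 n fun u => f (u + 3 * ((a * u ^ 2 + b * u + c) / (r * u + s))) - f u :=
    fun a b c r s ha hb hc hr hs f n h1 h2 =>
      drop hB hN (fun u => 3 * ((a * u ^ 2 + b * u + c) / (r * u + s)))
        (fun m => in_mul hB (in_three hB) (quad hB ha hb hc hr hs m)) 0 (fun k =>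
        Z1_mono (three hN (fun u => (a * u ^ 2 + b * u + c) / (r * u + s)) (quad hB ha hb hc hr hs) _
          (fun k => (hD.two a b c r s ha hb hc hr hs k).2)
          (k + 1)) (by split_ifs <;> omega)) f n h1 h2
  refine ⟨tri, fun p q r s h h3 b n h1 h2 => ?_, fun p q r s h h3 h4 h5 b n h1 h2 => ?_,
    fun b n h1 h2 => ?_⟩
  · obtain ⟨m, -, hm⟩ := hB.nat (q / s) 1 (hB.div _ _ h.2.1 h.2.2.2)
    have s0 := un_ne hB h.2.2.2
    have u1 : Un 1 := by
      have := (hB.int 1).2.2 (by decide)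
      exact_mod_cast this
    have mb : Mb 1 m 0 1 := ⟨u1, in_nat hB m, by simp [In], u1⟩
    obtain ⟨t1, t2, t3⟩ := tri 1 m 0 1 mb b (n + 1) h1
    obtain ⟨-, -, t4⟩ := tri 1 m 0 1 mb b n h1
    have a := d3 (-(r / 3)) ((p - s) / 3 - m * (r / 3)) ((q / s - m) / 3 ^ 1 * s) r s
      (in_neg hB h.2.2.1) (in_sub hB h3 (in_mul hB (in_nat hB m) h.2.2.1)) (in_mul hB hm h.2.2.2.1)
      h.2.2.1 h.2.2.2 _ n t1 (t2 h2)
    have e : co1 (fun u => b (mob p q r s u) - b u) = co1 ((fun u => b (mob 1 m 0 1 (u + 3 *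
        ((-(r / 3) * u ^ 2 + ((p - s) / 3 - m * (r / 3)) * u + (q / s - m) / 3 ^ 1 * s) /
          (r * u + s)))) - b (mob 1 m 0 1 u)) + ((fun u => b (mob 1 m 0 1 u)) +
            fun u => -1 * b u)) := hN.congr _ _ fun u => by
      have := un_ne hB (den_un hB h.2.2.1 h.2.2.2 (in_nat hB u))
      simp only [Pi.add_apply]
      rw [show mob 1 m 0 1 (u + 3 * ((-(r / 3) * u ^ 2 + ((p - s) / 3 - m * (r / 3)) * u +
        (q / s - m) / 3 ^ 1 * s) / (r * u + s))) = mob p q r s u by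
          have key : ∀ E : ℚ, E ≠ 0 → E = r * u + s → (1 * (u + 3 * ((-(r / 3) * u ^ 2 +
              ((p - s) / 3 - m * (r / 3)) * u + (q / s - m) / 3 ^ 1 * s) / E)) + m) / 1 =
              (p * u + q) / E := fun E a c => by
            field_simp
            rw [c]
            ring
          rw [mob, zero_mul, zero_add]
          exact key _ this rfl]
      ring
    intro i hi
    rw [e, co1_add, a i hi, co1_add, co1_smul]
    rcases hi.eq_or_lt with rfl | hi
    · rw [t4 h2, div_one, show red 3 1 = 1 by simp [red]]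
      ring
    · rw [t2 h2 i hi, h2 i hi]
      ring
  · have q1 := quad hB (in_neg hB h5) h3 h4 h.2.2.1 h.2.2.2
    have q2 := fun m => in_mul hB (in_three hB) (q1 m)
    refine Z1_congr hN (fun u => ?_) (drop hB hN
      (fun u => 3 * (3 * ((-(r / 9) * u ^ 2 + (p - s) / 9 * u + q / 9) / (r * u + s))))
      (fun m => in_mul hB (in_three hB) (q2 m)) 6 (fun k => Z1_mono (three hN
        (fun u => 3 * ((-(r / 9) * u ^ 2 + (p - s) / 9 * u + q / 9) / (r * u + s))) q2 _ (three hN
        (fun u => (-(r / 9) * u ^ 2 + (p - s) / 9 * u + q / 9) / (r * u + s)) q1 _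
        fun k => (hD.two _ _ _ r s (in_neg hB h5) h3 h4 h.2.2.1 h.2.2.2 k).2) (k + 1))
        (by split_ifs <;> omega)) b n h1 h2)
    have := un_ne hB (den_un hB h.2.2.1 h.2.2.2 (in_nat hB u))
    congr 2
    unfold mob
    generalize hE : r * u + s = E at this ⊢
    field_simp
    rw [← hE]
    ring
  · have u1 : Un 1 := by
      have := (hB.int 1).2.2 (by decide)
      exact_mod_cast this
    have j1 : In (-1) := by simp [In]
    have j0 : In 0 := by simp [In]
    have j3 : In (3 / 3) := by simp [In]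
    have q1 := quad hB j1 j0 j0 j3 u1
    have e : co1 (fun u => b (mob 1 0 3 1 u) - b u) = co1 fun u =>
        b (u + 3 * ((-1 * u ^ 2 + 0 * u + 0) / (3 * u + 1))) - b u := hN.congr _ _ fun u => by
      have := un_ne hB (den_un hB j3 u1 (in_nat hB u))
      congr 2
      unfold mob
      field_simp
      ring
    have z := three hN (fun u => (-1 * u ^ 2 + 0 * u + 0) / (3 * u + 1)) q1 _ fun k => (hD.two _ _ _ 3 1 j1 j0 j0 j3 u1 k).2
    rw [e, expand hB hN (fun u => 3 * ((-1 * u ^ 2 + 0 * u + 0) / (3 * u + 1)))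
      (fun m => in_mul hB (in_three hB) (q1 m)) b (n + 1) h1 h2, co1_sum,
      Finset.sum_eq_single 2 (fun k _ hk => term hN _ b (k + 1) 2 n
        (Z1_mono (z (k + 1)) (by split_ifs <;> omega)) h2 n le_rfl)]
    swap
    · intro h
      exact hN.mul0 _ _ (fun i _ => by
        rw [co1_diff]
        exact h2 _ (by simp at h; omega)) n n.zero_le
    rcases Nat.lt_or_ge n 2 with h | h
    · rw [if_neg (by omega)]
      exact hN.mul0 _ _ (fun i _ => by
        rw [co1_diff]
        exact h2 _ (by omega)) n n.zero_le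
    obtain ⟨n, rfl⟩ : ∃ m, n = 2 + m := ⟨n - 2, by omega⟩
    rw [(hN.mul _ _ 2 n (Z1_mono (z 3) (by norm_num)) fun i hi => by
      rw [co1_diff]
      exact h2 _ (by omega)).2, co1_diff, show n + (2 + 1) = 2 + n + 1 by omega]
    have c2 : co1 (fun u => bn (2 + 1) (3 * ((-1 * u ^ 2 + 0 * u + 0) / (3 * u + 1)))) 2 = 1 := by
      have v : ∀ m : ℕ, bn (2 + 1) (3 * ((-1 * (m : ℚ) ^ 2 + 0 * m + 0) / (3 * m + 1))) =
          red 3 ((-1 * (m : ℚ) ^ 2 + 0 * m + 0) / (3 * m + 1)) := fun m => by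
        rw [hN.three _ _ (q1 m), if_pos (by norm_num), (hN.low _ (q1 m)).2]
      have v0 := v 0
      have v1 := v 1
      have v2 := v 2
      simp only [co1, Function.iterate_succ, Function.iterate_zero, Function.comp, fwdDiff, id]
      norm_num [red] at v0 v1 v2 ⊢
      rw [v0, v1, v2, show (4 : ZMod 3) = 1 by decide, show (7 : ZMod 3) = 1 by decide, inv_one]
      decide
    rw [c2, mul_one]
    have c3 : (((2 + n).choose 2 : ℕ) : F3) = if (2 + n) % 3 = 2 then 1 else 0 := by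
      have h2 : (2 : F3) * ((2 + n).choose 2 : ℕ) = (2 + n : ℕ) * ((1 + n : ℕ) : F3) := by
        have := Nat.add_one_mul_choose_eq (1 + n) 1
        rw [Nat.choose_one_right, show 1 + n + 1 = 2 + n by omega] at this
        rw [← Nat.cast_mul, this]
        push_cast
        ring
      rw [← ZMod.natCast_mod (2 + n) 3, ← ZMod.natCast_mod (1 + n) 3] at h2
      generalize (((2 + n).choose 2 : ℕ) : F3) = x at h2
      rcases (by omega : n % 3 = 0 ∨ n % 3 = 1 ∨ n % 3 = 2) with e | e | e <;>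
        simp only [Nat.add_mod 2 n, Nat.add_mod 1 n, e] at h2 ⊢ <;> revert x <;> decide
    rw [c3]
    split_ifs <;> simp

end Pool.Agent.MP_5f72fe_nt.MS
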