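import Pool.Agent.MP_5f72fe_nt.MS.S1

/-! Degrees of binomial coefficients of rational functions. -/

namespace Pool.Agent.MP_5f72fe_nt.MS

namespace DGMA

theorem co1_sum (s : Finset ℕ) (f : ℕ → ℚ → F3) (n : ℕ) :
    co1 (∑ i ∈ s, f i) n = ∑ i ∈ s, co1 (f i) n := by
  simp only [co1, fwdDiff_iter_finsetSum, Finset.sum_apply]

theorem co1_zero (n : ℕ) : co1 0 n = 0 := by
  have := co1_sum ∅ (fun _ => 0) n
  simpa using this

theorem Z1_mono {m n : ℕ} {b : ℚ → F3} (h : Z1 m b) (hmn : m ≤ n) : Z1 n b :=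
  fun i hi => h i (hmn.trans hi)

theorem Z1_sum {s : Finset ℕ} {f : ℕ → ℚ → F3} {n : ℕ} (h : ∀ i ∈ s, Z1 n (f i)) :
    Z1 n (∑ i ∈ s, f i) := fun j hj => by
  rw [co1_sum]
  exact Finset.sum_eq_zero fun i hi => h i hi j hj

theorem Z1_congr (hN : RowBN) {b b' : ℚ → F3} {n : ℕ} (h : ∀ m : ℕ, b m = b' m) (h' : Z1 n b') :
    Z1 n b := fun i hi => by rw [hN.congr b b' h]; exact h' i hi

/-- polynomial functions with coefficients integral at `3` -/
def Pol (e : ℕ) (f : ℚ → ℚ) : Prop :=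
  ∃ c : ℕ → ℚ, (∀ i, In (c i)) ∧ ∀ u, f u = ∑ i ∈ Finset.range (e + 1), c i * u ^ i

section
variable (hB : RowBAS)
include hB

theorem in_nat (m : ℕ) : In m := by
  obtain ⟨O, hO⟩ := hB.ring
  exact (hO _).1 (natCast_mem O m)

theorem in_add {x y : ℚ} (hx : In x) (hy : In y) : In (x + y) := by
  obtain ⟨O, hO⟩ := hB.ring
  exact (hO _).1 (O.add_mem ((hO _).2 hx) ((hO _).2 hy))

theorem in_mul {x y : ℚ} (hx : In x) (hy : In y) : In (x * y) := by
  obtain ⟨O, hO⟩ := hB.ring
  exact (hO _).1 (O.mul_mem ((hO _).2 hx) ((hO _).2 hy))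

theorem in_neg {x : ℚ} (hx : In x) : In (-x) := by
  obtain ⟨O, hO⟩ := hB.ring
  exact (hO _).1 (O.neg_mem ((hO _).2 hx))

theorem in_sub {x y : ℚ} (hx : In x) (hy : In y) : In (x - y) := by
  rw [sub_eq_add_neg]
  exact in_add hB hx (in_neg hB hy)

theorem in_pow {x : ℚ} (hx : In x) (n : ℕ) : In (x ^ n) := by
  obtain ⟨O, hO⟩ := hB.ring
  exact (hO _).1 (O.pow_mem ((hO _).2 hx) n)

theorem in_three : In 3 := by exact_mod_cast in_nat hB 3

theorem in_sum {s : Finset ℕ} {f : ℕ → ℚ} (h : ∀ i ∈ s, In (f i)) : In (∑ i ∈ s, f i) := by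
  obtain ⟨O, hO⟩ := hB.ring
  exact (hO _).1 (O.sum_mem fun i hi => (hO _).2 (h i hi))

theorem Pol.in {e : ℕ} {f : ℚ → ℚ} (hf : Pol e f) {u : ℚ} (hu : In u) : In (f u) := by
  obtain ⟨c, hc, h⟩ := hf
  rw [h]
  exact in_sum hB fun i _ => in_mul hB (hc i) (in_pow hB hu i)

theorem Pol.smul {e : ℕ} {f : ℚ → ℚ} (hf : Pol e f) {a : ℚ} (ha : In a) :
    Pol e fun u => a * f u := by
  obtain ⟨c, hc, h⟩ := hf
  refine ⟨fun i => a * c i, fun i => in_mul hB ha (hc i), fun u => ?_⟩
  simp only [h, Finset.mul_sum, mul_assoc]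

theorem Pol.mulX {e : ℕ} {f : ℚ → ℚ} (hf : Pol e f) : Pol (e + 1) fun u => f u * u := by
  obtain ⟨c, hc, h⟩ := hf
  refine ⟨fun i => Nat.casesOn i 0 c, fun i => ?_, fun u => ?_⟩
  · cases i with
    | zero => exact_mod_cast in_nat hB 0
    | succ i => exact hc i
  · rw [Finset.sum_range_succ']
    simp only [h, Finset.sum_mul, pow_succ, mul_assoc]
    simp

theorem den_un {r s u : ℚ} (hr : In (r / 3)) (hs : Un s) (hu : In u) : Un (r * u + s) := by
  have := hB.unAdd s (r / 3 * u) hs (in_mul hB hr hu)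
  rwa [show s + 3 * (r / 3 * u) = r * u + s by ring] at this

theorem un_ne {x : ℚ} (hx : Un x) : x ≠ 0 := ((hB.un' x).1 hx).1

theorem un_inv {x : ℚ} (hx : Un x) : In x⁻¹ := ((hB.un' x).1 hx).2.2

variable (hN : RowBN)
include hN

theorem pol_deg {e : ℕ} {f : ℚ → ℚ} (hf : Pol e f) (k : ℕ) :
    Z1 (e * k + 1) fun u => bn k (f u) := by
  obtain ⟨c, hc, h⟩ := hf
  choose n _ hn using fun i => hB.nat (c i) k (hc i)
  refine hN.poly (∑ i ∈ Finset.range (e + 1), Polynomial.monomial i (n i)) e k ?_ _ fun m => ?_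
  · refine Polynomial.natDegree_sum_le_of_forall_le _ _ fun i hi => ?_
    exact (Polynomial.natDegree_monomial_le _).trans (Nat.lt_succ_iff.1 (Finset.mem_range.1 hi))
  · rw [← hN.nat]
    have h1 : f m = (((∑ i ∈ Finset.range (e + 1), Polynomial.monomial i (n i)).eval m : ℕ) : ℚ) +
        3 ^ k * ∑ i ∈ Finset.range (e + 1), (c i - n i) / 3 ^ k * (m : ℚ) ^ i := by
      rw [h, Polynomial.eval_finsetSum, Finset.mul_sum]
      push_cast
      rw [← Finset.sum_add_distrib]
      refine Finset.sum_congr rfl fun i _ => ?_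
      rw [Polynomial.eval_monomial]
      push_cast
      field_simp
      ring
    show bn k (f m) = _
    rw [h1]
    exact hN.per k k _ _ (Nat.lt_pow_self (by norm_num)) (in_nat hB _)
      (in_sum hB fun i _ => in_mul hB (hn i) (in_pow hB (in_nat hB m) i))

/-- the splitting of a rational function -/
theorem split {e : ℕ} {f : ℚ → ℚ} (hf : Pol e f) {r s : ℚ} (hr : In (r / 3)) (hs : Un s) (k m : ℕ) :
    bn k (f m / (r * m + s)) = (∑ i ∈ Finset.range (k + 1), (fun u => bn i (s⁻¹ * f u)) *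
      fun u => if 3 ∣ k - i then bn ((k - i) / 3) (-(r / 3) * s⁻¹ * f u * u / (r * u + s))
        else 0) (m : ℚ) := by
  have hm := in_nat hB m
  have hD := den_un hB hr hs hm
  have h1 : In (s⁻¹ * f m) := in_mul hB (un_inv hB hs) (hf.in hB hm)
  have h2 : In (-(r / 3) * s⁻¹ * f m * m / (r * m + s)) :=
    hB.div _ _ (in_mul hB (in_mul hB (in_mul hB (in_neg hB hr) (un_inv hB hs)) (hf.in hB hm)) hm) hD
  have h3 : f m / (r * m + s) = s⁻¹ * f m + 3 * (-(r / 3) * s⁻¹ * f m * m / (r * m + s)) := by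
    have := un_ne hB hD
    have := un_ne hB hs
    field_simp
    ring
  rw [h3, hN.vdm k _ _ h1 (in_mul hB (in_three hB) h2), Finset.sum_apply]
  refine Finset.sum_congr rfl fun i _ => ?_
  rw [hN.three _ _ h2]
  rfl

theorem rat_deg {r s : ℚ} (hr : In (r / 3)) (hs : Un s) (k : ℕ) :
    ∀ (e : ℕ) (f : ℚ → ℚ), 1 ≤ e → Pol e f →
      Z1 (e * k + 1) (fun u => bn k (f u / (r * u + s))) ∧
      co1 (fun u => bn k (f u / (r * u + s))) (e * k) =
        co1 (fun u => bn k (s⁻¹ * f u)) (e * k) := by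
  induction k using Nat.strong_induction_on with
  | _ k ih =>
    intro e f he hf
    have hP : Pol e fun u => s⁻¹ * f u := hf.smul hB (un_inv hB hs)
    have hQ : Pol (e + 1) fun u => -(r / 3) * s⁻¹ * f u * u :=
      (hf.smul hB (in_mul hB (in_neg hB hr) (un_inv hB hs))).mulX hB
    set T : ℕ → ℚ → F3 := fun i => (fun u => bn i (s⁻¹ * f u)) *
      fun u => if 3 ∣ k - i then bn ((k - i) / 3) (-(r / 3) * s⁻¹ * f u * u / (r * u + s))
        else 0 with hT
    have hlow : ∀ i, i < k → Z1 (e * k) (T i) := by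
      intro i hi
      by_cases h3 : 3 ∣ k - i
      · obtain ⟨j, hj⟩ := h3
        have hj1 : (k - i) / 3 = j := by omega
        have h1 := (ih j (by omega) (e + 1) _ (by omega) hQ).1
        have h2 := (hN.mul _ _ _ _ (pol_deg hB hN hP i) h1).1
        simp only [hT, hj, dvd_mul_right, if_true, Nat.mul_div_cancel_left _ (show 0 < 3 by omega)]
        refine Z1_mono h2 ?_
        have hk : k = i + 3 * j := by omega
        have hj0 : 1 ≤ j := by omega
        rw [hk]
        nlinarith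
      · simp only [hT, h3, if_false]
        exact Z1_mono (hN.mul0 _ _ fun n _ => co1_zero n) (Nat.zero_le _)
    have htop : ∀ m : ℕ, T k m = bn k (s⁻¹ * f m) := by
      intro m
      have hm := in_nat hB m
      have h2 : In (-(r / 3) * s⁻¹ * f m * m / (r * m + s)) :=
        hB.div _ _ (hQ.in hB hm) (den_un hB hr hs hm)
      simp only [hT, Nat.sub_self, dvd_zero, if_true, Nat.zero_div, Pi.mul_apply,
        (hN.low _ h2).1, mul_one]
    have hc : co1 (fun u => bn k (f u / (r * u + s))) =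
        co1 (∑ i ∈ Finset.range (k + 1), T i) := hN.congr _ _ (split hB hN hf hr hs k)
    have hc2 : ∀ n, e * k ≤ n → co1 (fun u => bn k (f u / (r * u + s))) n =
        co1 (fun u => bn k (s⁻¹ * f u)) n := by
      intro n hn
      rw [hc, co1_sum, Finset.sum_range_succ,
        Finset.sum_eq_zero fun i hi => hlow i (Finset.mem_range.1 hi) n hn, zero_add,
        hN.congr _ (fun u => bn k (s⁻¹ * f u)) htop]
    exact ⟨fun n hn => by rw [hc2 n (by omega)]; exact pol_deg hB hN hP k n hn, hc2 _ le_rfl⟩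

omit hB hN in
theorem pol_lin {a b : ℚ} (ha : In a) (hb : In b) : Pol 1 fun u => a * u + b := by
  refine ⟨fun i => if i = 0 then b else a, fun i => by dsimp only; split_ifs <;> assumption, fun u => ?_⟩
  simp [Finset.sum_range_succ, add_comm]

theorem lin_top_nat {b : ℚ} (hb : In b) (l : ℕ) :
    ∀ k : ℕ, co1 (fun u => bn k (l * u + b)) k = (l : F3) ^ k := by
  induction l with
  | zero =>
    intro k
    have h0 : Pol 0 fun u => ((0 : ℕ) : ℚ) * u + b :=
      ⟨fun _ => b, fun _ => hb, fun u => by simp⟩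
    rcases Nat.eq_zero_or_pos k with rfl | hk
    · simp [co1, (hN.low b hb).1]
    · rw [pol_deg hB hN h0 k k (by omega), Nat.cast_zero, zero_pow hk.ne']
  | succ l ih =>
    intro k
    have hP := pol_lin (in_nat hB l) hb
    have h1 : co1 (fun u => bn k (((l + 1 : ℕ) : ℚ) * u + b)) =
        co1 (∑ i ∈ Finset.range (k + 1), bn i * fun u => bn (k - i) (l * u + b)) := by
      refine hN.congr _ _ fun m => ?_
      have hm := in_nat hB m
      rw [show ((l + 1 : ℕ) : ℚ) * m + b = m + (l * m + b) by push_cast; ring,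
        hN.vdm k _ _ hm (hP.in hB hm), Finset.sum_apply]
      rfl
    rw [h1, co1_sum, Nat.cast_succ, add_comm (l : F3), add_pow]
    refine Finset.sum_congr rfl fun i hi => ?_
    have hik : i ≤ k := Nat.lt_succ_iff.1 (Finset.mem_range.1 hi)
    have h2 : Z1 (i + 1) (bn i) := fun n hn => by rw [hN.basis, if_neg (by omega)]
    have h3 := pol_deg hB hN hP (k - i)
    rw [one_mul] at h3
    have h4 := (hN.mul _ _ _ _ h2 h3).2
    rw [Nat.add_sub_cancel' hik] at h4
    rw [h4, hN.basis, if_pos rfl, ih]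
    ring

theorem lin_top {a b : ℚ} (ha : In a) (hb : In b) (k : ℕ) :
    co1 (fun u => bn k (a * u + b)) k = red 3 a ^ k := by
  obtain ⟨l, _, hl⟩ := hB.nat a (k + 1) ha
  have h1 : co1 (fun u => bn k (a * u + b)) = co1 fun u => bn k (l * u + b) := by
    refine hN.congr _ _ fun m => ?_
    have hm := in_nat hB m
    rw [show a * m + b = l * m + b + 3 ^ (k + 1) * ((a - l) / 3 ^ (k + 1) * m) by field_simp; ring]
    exact hN.per k (k + 1) _ _ ((Nat.lt_succ_self k).trans (Nat.lt_pow_self (by norm_num)))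
      (in_add hB (in_mul hB (in_nat hB l) hm) hb) (in_mul hB hl hm)
  have h2 : red 3 a = l := by
    have hx : In (3 ^ k * ((a - l) / 3 ^ (k + 1))) := in_mul hB (in_pow hB (in_three hB) k) hl
    have h3 : In (a - l) := in_sub hB ha (in_nat hB l)
    have h4 : red 3 (a - l) = 0 := (hB.red3.2.2.2 _ h3).2 (by
      rwa [show (a - l) / 3 = 3 ^ k * ((a - l) / 3 ^ (k + 1)) by field_simp; ring])
    have h5 := hB.red3.1 _ _ h3 (in_nat hB l)
    have h6 := hB.red3.2.2.1 (l : ℤ)
    rw [Int.cast_natCast, Int.cast_natCast] at h6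
    rwa [sub_add_cancel, h4, zero_add, h6] at h5
  rw [h1, lin_top_nat hB hN hb, h2]

theorem lc_two {a b c r s : ℚ} (ha : In a) (hb : In b) (hc : In c) (hr : In (r / 3)) (hs : Un s)
    (k : ℕ) : LC1 fun u => bn k ((a * u ^ 2 + b * u + c) / (r * u + s)) := by
  refine ⟨k, fun u x hu hx => ?_⟩
  have h3 : In (3 ^ k * x) := in_mul hB (in_pow hB (in_three hB) k) hx
  have hu' : In (u + 3 ^ k * x) := in_add hB hu h3
  have hD := den_un hB hr hs hu
  have hD' := den_un hB hr hs hu'
  have hr' : In r := by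
    have := in_mul hB (in_three hB) hr
    rwa [show 3 * (r / 3) = r by ring] at this
  have hnum : In (a * u ^ 2 + b * u + c) :=
    in_add hB (in_add hB (in_mul hB ha (in_pow hB hu 2)) (in_mul hB hb hu)) hc
  have h1 : (a * (u + 3 ^ k * x) ^ 2 + b * (u + 3 ^ k * x) + c) / (r * (u + 3 ^ k * x) + s) =
      (a * u ^ 2 + b * u + c) / (r * u + s) + 3 ^ k *
        (x * ((a * (u + (u + 3 ^ k * x)) + b) * (r * u + s) - r * (a * u ^ 2 + b * u + c)) /
          (r * u + s) / (r * (u + 3 ^ k * x) + s)) := by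
    have e1 := un_ne hB hD
    have e2 := un_ne hB hD'
    rw [div_div, ← mul_div_assoc, div_add_div _ _ e1 (mul_ne_zero e1 e2),
      div_eq_div_iff e2 (mul_ne_zero e1 (mul_ne_zero e1 e2))]
    ring
  show bn k _ = bn k _
  rw [h1]
  exact hN.per k k _ _ (Nat.lt_pow_self (by norm_num)) (hB.div _ _ hnum hD)
    (hB.div _ _ (hB.div _ _ (in_mul hB hx (in_sub hB (in_mul hB (in_add hB (in_mul hB ha
      (in_add hB hu hu')) hb) hD.1) (in_mul hB hr' hnum))) hD) hD')

end

end DGMA

open DGMA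

theorem rowDGM : OfDGM := by
  intro hB hN
  refine ⟨fun p q r s ⟨hp, hq, hr, hs⟩ k => ?_, fun a b c r s ha hb hc hr hs k => ?_⟩
  · have h1 := rat_deg hB hN hr hs k 1 _ le_rfl (pol_lin hp.1 hq)
    rw [one_mul] at h1
    refine ⟨?_, h1.1, ?_⟩
    · have := lc_two hB hN (a := 0) (by exact_mod_cast in_nat hB 0) hp.1 hq hr hs k
      simpa only [mob, zero_mul, zero_add] using this
    · refine h1.2.trans ?_
      rw [← lin_top hB hN (hB.div _ _ hp.1 hs) (hB.div _ _ hq hs) k]
      congr 2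
      funext u
      congr 1
      ring
  · refine ⟨lc_two hB hN ha hb hc hr hs k, (rat_deg hB hN hr hs k 2 _ (by omega) ?_).1⟩
    refine ⟨fun i => if i = 0 then c else if i = 1 then b else a,
      fun i => by dsimp only; split_ifs <;> assumption, fun u => ?_⟩
    simp [Finset.sum_range_succ]
    ring

end Pool.Agent.MP_5f72fe_nt.MS
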