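import Pool.Agent.MP_5f72fe_nt.MS.S2

/-! The reciprocity law of Dedekind sums. -/

namespace Pool.Agent.MP_5f72fe_nt.MS

open Finset

namespace DREC2A

theorem saw_add (y : ℚ) (m : ℤ) : saw (y + m) = saw y := by
  unfold saw
  rw [Rat.add_intCast_den, Int.fract_add_intCast]

theorem saw_neg (y : ℚ) : saw (-y) = -saw y := by
  unfold saw
  rw [Rat.den_neg_eq_den]
  split_ifs with h
  · simp
  · rw [Int.fract_neg]
    · ring
    · rw [Ne, Int.fract_eq_zero_iff]
      rintro ⟨m, rfl⟩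
      exact h (Rat.den_intCast m)

theorem saw_div (n : ℕ) {k : ℕ} (hk : 0 < k) :
    saw ((n : ℚ) / k) = if k ∣ n then 0 else ((n % k : ℕ) : ℚ) / k - 1 / 2 := by
  unfold saw
  rw [Int.fract_div_natCast_eq_div_natCast_mod]
  simp only [Rat.den_div_natCast_eq_one_iff n k hk.ne']

theorem sum_perm {h k : ℕ} (hc : Nat.Coprime h k) (φ : ℕ → ℚ) :
    ∑ i ∈ range k, φ (h * i % k) = ∑ i ∈ range k, φ i := by
  have hinj : Set.InjOn (fun i => h * i % k) (range k : Finset ℕ) := fun i hi j hj e =>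
    Nat.ModEq.eq_of_lt_of_lt (Nat.ModEq.cancel_left_of_coprime hc.symm e)
      (mem_range.1 (mem_coe.1 hi)) (mem_range.1 (mem_coe.1 hj))
  have him : (range k).image (fun i => h * i % k) = range k := by
    refine eq_of_subset_of_card_le (fun x hx => ?_) (card_image_of_injOn hinj).ge
    obtain ⟨i, hi, rfl⟩ := mem_image.1 hx
    exact mem_range.2 (Nat.mod_lt _ (by have := mem_range.1 hi; omega))
  conv_rhs => rw [← him]
  rw [sum_image hinj]

theorem s0 (k : ℕ) : ∑ i ∈ range k, (i : ℚ) = k * (k - 1) / 2 := by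
  induction k with
  | zero => simp
  | succ k ih => rw [sum_range_succ, ih]; push_cast; ring

theorem s2 (k : ℕ) : ∑ i ∈ range k, (i : ℚ) ^ 2 = (k - 1) * k * (2 * k - 1) / 6 := by
  induction k with
  | zero => simp
  | succ k ih => rw [sum_range_succ, ih]; push_cast; ring

theorem mod_eq (h k i : ℕ) : ((h * i % k : ℕ) : ℚ) = h * i - k * ((h * i / k : ℕ) : ℚ) := by
  have := congrArg (Nat.cast : ℕ → ℚ) (Nat.mod_add_div (h * i) k)
  push_cast at this ⊢
  linarith

theorem sq_eq {f h : ℕ} (hf : f < h) :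
    (f : ℚ) ^ 2 = ∑ j ∈ range h, if j < f then (2 * (j : ℚ) + 1) else 0 := by
  rw [← sum_filter, show (range h).filter (· < f) = range f by ext; simp; omega]
  clear hf
  induction f with
  | zero => simp
  | succ f ih => rw [sum_range_succ, ← ih]; push_cast; ring

theorem count {h k j : ℕ} (hc : Nat.Coprime h k) (hk : 0 < k) (hj : j + 1 < h) (c : ℚ) :
    (∑ i ∈ range k, if j < h * i / k then c else 0) =
      c * (k - 1 - ((k * (j + 1) / h : ℕ) : ℚ)) := by
  have hh : 0 < h := by omega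
  have h1 : k * (j + 1) / h < k := by
    rw [Nat.div_lt_iff_lt_mul hh]; exact Nat.mul_lt_mul_of_pos_left hj hk
  have hnd : ¬ h ∣ k * (j + 1) := fun hd =>
    absurd (Nat.le_of_dvd (Nat.succ_pos j) (hc.dvd_of_dvd_mul_left hd)) (by omega)
  have h2 : (range k).filter (fun i => j < h * i / k) = Ico (k * (j + 1) / h + 1) k := by
    ext i
    rw [mem_filter, mem_range, mem_Ico, Nat.lt_iff_add_one_le (m := j),
      Nat.le_div_iff_mul_le hk, Nat.add_one_le_iff, Nat.div_lt_iff_lt_mul hh, and_comm,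
      mul_comm (j + 1) k, mul_comm i h]
    refine and_congr_left fun _ => ⟨fun h3 => lt_of_le_of_ne h3 fun e => hnd ⟨i, e⟩, le_of_lt⟩
  rw [← sum_filter, h2, sum_const, Nat.card_Ico, nsmul_eq_mul, Nat.cast_sub h1]
  push_cast
  ring

/-- The double count. -/
theorem dbl {h k : ℕ} (hc : Nat.Coprime h k) (hh : 0 < h) (hk : 0 < k) :
    ∑ i ∈ range k, ((h * i / k : ℕ) : ℚ) ^ 2 =
      ∑ j ∈ range h, (2 * (j : ℚ) - 1) * (k - 1 - ((k * j / h : ℕ) : ℚ)) + (k - 1) := by
  have h1 : ∀ i ∈ range k, ((h * i / k : ℕ) : ℚ) ^ 2 =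
      ∑ j ∈ range h, if j < h * i / k then (2 * (j : ℚ) + 1) else 0 := fun i hi =>
    sq_eq (by
      rw [Nat.div_lt_iff_lt_mul hk]; exact Nat.mul_lt_mul_of_pos_left (mem_range.1 hi) hh)
  rw [sum_congr rfl h1, sum_comm]
  obtain ⟨m, rfl⟩ := Nat.exists_eq_add_one_of_ne_zero hh.ne'
  rw [sum_range_succ, sum_range_succ']
  have h2 : (∑ i ∈ range k, if m < (m + 1) * i / k then (2 * (m : ℚ) + 1) else 0) = 0 := by
    refine sum_eq_zero fun i hi => if_neg ?_
    rw [not_lt, ← Nat.lt_add_one_iff, Nat.div_lt_iff_lt_mul hk]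
    exact Nat.mul_lt_mul_of_pos_left (mem_range.1 hi) hh
  rw [h2, sum_congr rfl fun j hj => count hc hk (Nat.succ_lt_succ (mem_range.1 hj)) _]
  simp only [Nat.cast_zero, mul_zero, Nat.zero_div]
  rw [show ∀ a : ℚ, a + (0 - 1) * (k - 1 - 0) + (k - 1) = a + 0 from fun a => by ring]
  congr 1
  exact sum_congr rfl fun j _ => by push_cast; ring

/-- The sum in terms of integer parts. -/
theorem val {h k : ℕ} (hc : Nat.Coprime h k) (hk : 0 < k) :
    ∑ i ∈ range k, saw ((i : ℚ) / k) * saw (i * ((h : ℚ) / k)) =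
      (h * ((k - 1) * k * (2 * k - 1) / 6) - k * ∑ i ∈ range k, i * ((h * i / k : ℕ) : ℚ)) / k ^ 2
        - (k - 1) / 4 := by
  have hk' : (k : ℚ) ≠ 0 := by positivity
  have h1 : ∀ i ∈ range k, saw ((i : ℚ) / k) * saw (i * ((h : ℚ) / k)) =
      (h * (i : ℚ) ^ 2 - k * (i * ((h * i / k : ℕ) : ℚ))) / k ^ 2 - i / (2 * k) -
        ((h * i % k : ℕ) : ℚ) / (2 * k) + 1 / 4 - if i = 0 then 1 / 4 else 0 := by
    intro i hi
    have hi' := mem_range.1 hi
    rw [show (i : ℚ) * (h / k) = ((h * i : ℕ) : ℚ) / k by push_cast; ring, saw_div _ hk,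
      saw_div _ hk]
    rcases Nat.eq_zero_or_pos i with rfl | h0
    · simp
    · have h2 : ¬ k ∣ i := fun hd => absurd (Nat.le_of_dvd h0 hd) (by omega)
      rw [if_neg h2, if_neg fun hd => h2 (hc.symm.dvd_of_dvd_mul_left hd), if_neg h0.ne',
        Nat.mod_eq_of_lt hi', mod_eq]
      field_simp
      ring
  rw [sum_congr rfl h1]
  simp only [sum_sub_distrib, sum_add_distrib, ← sum_div, ← mul_sum, sum_ite_eq', mem_range, hk,
    if_true, sum_const, card_range, nsmul_eq_mul]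
  rw [sum_perm hc fun i => (i : ℚ), s0, s2]
  field_simp
  ring

theorem lin {h k : ℕ} (hc : Nat.Coprime h k) (hk : 0 < k) :
    ∑ i ∈ range k, ((h * i / k : ℕ) : ℚ) = (h - 1) * (k - 1) / 2 := by
  have hk' : (k : ℚ) ≠ 0 := by positivity
  have h1 := sum_perm hc fun i => (i : ℚ)
  simp only [mod_eq, sum_sub_distrib, ← mul_sum, s0] at h1
  apply mul_left_cancel₀ hk'
  linarith

theorem quad {h k : ℕ} (hc : Nat.Coprime h k) :
    (h : ℚ) ^ 2 * ((k - 1) * k * (2 * k - 1) / 6) -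
      2 * h * k * ∑ i ∈ range k, i * ((h * i / k : ℕ) : ℚ) +
      k ^ 2 * ∑ i ∈ range k, ((h * i / k : ℕ) : ℚ) ^ 2 = (k - 1) * k * (2 * k - 1) / 6 := by
  have h1 := sum_perm hc fun i => (i : ℚ) ^ 2
  rw [s2] at h1
  rw [← h1, h1, ← s2, mul_sum, mul_sum, mul_sum, ← sum_sub_distrib, ← sum_add_distrib, s2, ← h1]
  exact sum_congr rfl fun i _ => by rw [mod_eq]; ring

theorem recip {h k : ℕ} (hc : Nat.Coprime h k) (hh : 0 < h) (hk : 0 < k) :
    12 * ∑ i ∈ range k, saw ((i : ℚ) / k) * saw (i * ((h : ℚ) / k)) +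
      12 * ∑ i ∈ range h, saw ((i : ℚ) / h) * saw (i * ((k : ℚ) / h)) =
      h / k + k / h + 1 / (h * k) - 3 := by
  have hk' : (k : ℚ) ≠ 0 := by positivity
  have hh' : (h : ℚ) ≠ 0 := by positivity
  have h1 := quad hc
  have h2 := dbl hc hh hk
  have h3 : ∑ j ∈ range h, (2 * (j : ℚ) - 1) * (k - 1 - ((k * j / h : ℕ) : ℚ)) =
      2 * (k - 1) * ∑ j ∈ range h, (j : ℚ) - h * (k - 1) -
        2 * ∑ j ∈ range h, j * ((k * j / h : ℕ) : ℚ) + ∑ j ∈ range h, ((k * j / h : ℕ) : ℚ) := by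
    rw [show (h : ℚ) * (k - 1) = ∑ _j ∈ range h, ((k : ℚ) - 1) by
        rw [sum_const, card_range, nsmul_eq_mul], mul_sum, mul_sum,
      ← sum_sub_distrib, ← sum_sub_distrib, ← sum_add_distrib]
    exact sum_congr rfl fun j _ => by ring
  rw [h3, s0, lin hc.symm hh] at h2
  rw [h2] at h1
  rw [val hc hk, val hc.symm hh]
  generalize ∑ i ∈ range k, i * ((h * i / k : ℕ) : ℚ) = G at h1 ⊢
  generalize ∑ j ∈ range h, j * ((k * j / h : ℕ) : ℚ) = G' at h1 ⊢
  field_simp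
  apply mul_left_cancel₀ hk'
  linear_combination 144 * h1

theorem odd (x : ℚ) : DD (-x) = -DD x := by
  unfold DD
  rw [Rat.den_neg_eq_den, ← mul_neg, ← sum_neg_distrib]
  congr 1
  exact sum_congr rfl fun i _ => by rw [mul_neg, saw_neg, mul_neg]

theorem pos (x : ℚ) (hx : 0 < x) : DD x + DD x⁻¹ = x + x⁻¹ + 1 / (x.num * x.den) - 3 := by
  have h0 : 0 < x.num := Rat.num_pos.2 hx
  have h1 : ((x.num.natAbs : ℕ) : ℚ) = x.num := by
    rw [← Int.cast_natCast, Int.natAbs_of_nonneg h0.le]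
  have h2 : x = (x.num.natAbs : ℕ) / (x.den : ℚ) := by rw [h1, Rat.num_div_den]
  have h3 : x⁻¹ = (x.den : ℚ) / (x.num.natAbs : ℕ) := by
    conv_lhs => rw [h2]
    rw [inv_div]
  have := recip x.reduced (Int.natAbs_pos.2 h0.ne') x.den_pos
  rw [← h2, ← h3, h1] at this
  unfold DD
  rw [Rat.den_inv_of_ne_zero hx.ne', h1]
  exact this

end DREC2A

theorem rowDREC2 : RowDREC where
  per x n := by
    unfold DD
    rw [Rat.add_intCast_den]
    congr 1
    refine sum_congr rfl fun i _ => ?_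
    rw [show (i : ℚ) * (x + n) = i * x + ((i * n : ℤ) : ℚ) by push_cast; ring, DREC2A.saw_add]
  odd := DREC2A.odd
  recip x hx := by
    rcases lt_or_gt_of_ne hx with h | h
    · have := DREC2A.pos (-x) (neg_pos.2 h)
      rw [inv_neg, DREC2A.odd, DREC2A.odd, Rat.den_neg_eq_den, Rat.num_neg_eq_neg_num] at this
      rw [sn, if_neg (not_lt.2 h.le)]
      push_cast at this
      rw [neg_mul, one_div_neg_eq_neg_one_div] at this
      linarith
    · rw [sn, if_pos h, mul_one]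
      exact DREC2A.pos x h

end Pool.Agent.MP_5f72fe_nt.MS
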