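import Pool.Agent.MP_5f72fe_nt.MS.S2

/-! The twisted sum of Dedekind sums is the square of the generalised Bernoulli number. -/

namespace Pool.Agent.MP_5f72fe_nt.MS

open scoped NumberTheorySymbols

namespace DSUMA

lemma saw_add (x : ℚ) (n : ℕ) : saw (x + n) = saw x := by
  unfold saw
  rw [Rat.add_natCast_den, Int.fract_add_natCast]

variable {N : ℕ} [NeZero N]

noncomputable def cc (N : ℕ) (a : ZMod N) : ℚ := (J(a.val | N) : ℤ)

noncomputable def ss (N : ℕ) (a : ZMod N) : ℚ := saw (a.val / N)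

lemma ss_cast (m : ℕ) : ss N (m : ZMod N) = saw (m / N) := by
  have hN : (N : ℚ) ≠ 0 := Nat.cast_ne_zero.2 (NeZero.ne N)
  have h : (m : ℚ) / N = ((m % N : ℕ) : ℚ) / N + (m / N : ℕ) := by
    have := Nat.mod_add_div m N
    have h2 : (m : ℚ) = ((m % N : ℕ) : ℚ) + N * (m / N : ℕ) := by exact_mod_cast this.symm
    field_simp
    linarith
  rw [h, saw_add, ss, ZMod.val_natCast]

lemma cc_cast (m : ℕ) : cc N (m : ZMod N) = (J(m | N) : ℤ) := by
  rw [cc, ZMod.val_natCast, jacobiSym.mod_left (m : ℤ) N, Int.natCast_mod]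

lemma cc_mul (a b : ZMod N) : cc N (a * b) = cc N a * cc N b := by
  have : a * b = ((a.val * b.val : ℕ) : ZMod N) := by simp
  rw [this, cc_cast, Nat.cast_mul, jacobiSym.mul_left]
  simp [cc]

lemma sum_zmod (f : ZMod N → ℚ) : ∑ m ∈ Finset.range N, f (m : ZMod N) = ∑ a, f a := by
  refine Finset.sum_nbij' (fun m => (m : ZMod N)) ZMod.val (fun _ _ => Finset.mem_univ _)
    (fun a _ => Finset.mem_range.2 (ZMod.val_lt a)) (fun m hm => ?_) (fun a _ => ?_) fun _ _ => rfl
  · exact ZMod.val_cast_of_lt (Finset.mem_range.1 hm)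
  · simp

lemma cc_ne (a : ZMod N) : cc N a ≠ 0 ↔ IsUnit a := by
  have h : a = ((a.val : ℕ) : ZMod N) := by simp
  rw [cc, Int.cast_ne_zero, Ne, jacobiSym.eq_zero_iff_not_coprime, not_not, Int.gcd_natCast_natCast]
  conv_rhs => rw [h]
  exact (ZMod.isUnit_iff_coprime _ _).symm

lemma cc_sq (a : ZMod N) (ha : IsUnit a) : cc N a * cc N a = 1 := by
  have h := (cc_ne a).2 ha
  unfold cc at h ⊢
  rcases jacobiSym.trichotomy (a.val : ℤ) N with h0 | h0 | h0
  · rw [h0] at h; simp at h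
  · rw [h0]; norm_num
  · rw [h0]; norm_num

noncomputable def GG (N : ℕ) [NeZero N] (i : ZMod N) : ℚ := ∑ m, cc N m * ss N (i * m)

lemma GG_mul (i t : ZMod N) (ht : IsUnit t) : GG N (i * t) = cc N t * GG N i := by
  obtain ⟨u, rfl⟩ := ht
  unfold GG
  rw [Finset.mul_sum, ← Equiv.sum_comp u.mulLeft fun m => cc N u * (cc N m * ss N (i * m))]
  refine Finset.sum_congr rfl fun m _ => ?_
  have := cc_sq (u : ZMod N) u.isUnit
  simp only [Units.mulLeft_apply]
  rw [cc_mul, ← mul_assoc, ← mul_assoc, ← mul_assoc, this, one_mul]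

lemma exists_t (hodd : N % 2 = 1) (hs : Squarefree N) (i : ZMod N) (hi : ¬ IsUnit i) :
    ∃ t : ZMod N, cc N t = -1 ∧ i * t = i := by
  have h : i = ((i.val : ℕ) : ZMod N) := by simp
  rw [h, ZMod.isUnit_iff_coprime] at hi
  obtain ⟨p, hp, hpi, hpN⟩ := Nat.Prime.not_coprime_iff_dvd.1 hi
  obtain ⟨M, hM⟩ := hpN
  have hco : Nat.Coprime p M := by
    rw [hM] at hs
    exact Nat.coprime_of_squarefree_mul hs
  have : Fact p.Prime := ⟨hp⟩
  have hp2 : p ≠ 2 := by
    rintro rfl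
    omega
  have hM0 : M ≠ 0 := by
    rintro rfl
    exact NeZero.ne N (by simpa using hM)
  have hch : ringChar (ZMod p) ≠ 2 := by rwa [ZMod.ringChar_zmod_n]
  obtain ⟨r, hr⟩ := quadraticChar_exists_neg_one hch
  obtain ⟨t, ht1, ht2⟩ := Nat.chineseRemainder hco r.val 1
  refine ⟨(t : ZMod N), ?_, ?_⟩
  · rw [cc_cast]
    have : NeZero p := ⟨hp.ne_zero⟩
    have : NeZero M := ⟨hM0⟩
    have h1 : J(t | p) = -1 := by
      rw [← jacobiSym.legendreSym.to_jacobiSym, legendreSym, Int.cast_natCast,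
        (ZMod.natCast_eq_natCast_iff _ _ _).2 ht1]
      simpa using hr
    have h2 : J(t | M) = 1 := by
      rw [jacobiSym.mod_left' (a₂ := 1) (Int.natCast_modEq_iff.2 ht2), jacobiSym.one_left]
    conv_lhs => rw [hM, jacobiSym.mul_right, h1, h2]
    norm_num
  · rw [h, ← Nat.cast_mul, ZMod.natCast_eq_natCast_iff]
    obtain ⟨k, hk⟩ := hpi
    have h3 : p * t ≡ p * 1 [MOD p * M] := ht2.mul_left' p
    have h4 := h3.mul_right k
    rw [← hM] at h4
    rw [hk]
    convert h4 using 1 <;> ring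

lemma GG_eq (hodd : N % 2 = 1) (hs : Squarefree N) (i : ZMod N) : GG N i = cc N i * GG N 1 := by
  by_cases hi : IsUnit i
  · rw [← GG_mul 1 i hi, one_mul]
  · obtain ⟨t, ht, hit⟩ := exists_t hodd hs i hi
    have hu : IsUnit t := (cc_ne t).1 (by rw [ht]; norm_num)
    have h1 := GG_mul i t hu
    rw [hit, ht] at h1
    have h0 : cc N i = 0 := by
      by_contra h
      exact hi ((cc_ne i).1 h)
    rw [h0]
    linarith

lemma sum_cc (h4 : N % 4 = 3) : ∑ a, cc N a = 0 := by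
  have hm : cc N (-1) = -1 := by
    have h1 : (-1 : ZMod N) = ((N - 1 : ℕ) : ZMod N) := by
      rw [Nat.cast_sub (by omega)]
      simp
    have h2 : ((N - 1 : ℕ) : ℤ) % N = -1 % N := by
      rw [Nat.cast_sub (by omega), sub_eq_neg_add, Int.add_emod_right]
      simp
    rw [h1, cc_cast, jacobiSym.mod_left' h2, jacobiSym.at_neg_one (Nat.odd_iff.2 (by omega)),
      ZMod.χ₄_nat_three_mod_four h4]
    norm_num
  have h := Equiv.sum_comp (Equiv.neg (ZMod N)) (cc N)
  have h' : ∀ a : ZMod N, cc N (Equiv.neg (ZMod N) a) = -cc N a := by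
    intro a
    rw [Equiv.neg_apply, ← neg_one_mul, cc_mul, hm, neg_one_mul]
  simp only [h', Finset.sum_neg_distrib] at h
  linarith

lemma den_eq (m : ℕ) (h : (J(m | N) : ℤ) ≠ 0) : ((m : ℚ) / N).den = N := by
  rw [Ne, jacobiSym.eq_zero_iff_not_coprime, not_not, Int.gcd_natCast_natCast] at h
  have h1 := Rat.den_div_eq_of_coprime (a := m) (b := N)
    (by exact_mod_cast Nat.pos_of_ne_zero (NeZero.ne N)) (by simpa using h)
  rw [Int.cast_natCast, Int.cast_natCast] at h1
  exact Int.ofNat.inj h1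

lemma GG_one (h4 : N % 4 = 3) : GG N 1 = BB N := by
  have hN : (0 : ℚ) < N := by exact_mod_cast Nat.pos_of_ne_zero (NeZero.ne N)
  have h0 := sum_cc h4
  rw [← sum_zmod] at h0
  unfold GG BB
  rw [← sum_zmod, Finset.sum_div]
  have : ∀ m ∈ Finset.range N, cc N (m : ZMod N) * ss N (1 * (m : ZMod N)) =
      (m : ℚ) * J(m | N) / N - 1 / 2 * cc N (m : ZMod N) := by
    intro m hm
    rw [one_mul, ss_cast, cc_cast]
    by_cases h : (J(m | N) : ℤ) = 0
    · rw [h]; simp
    · have hlt : (m : ℚ) / N < 1 := by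
        rw [div_lt_one hN]
        exact_mod_cast Finset.mem_range.1 hm
      rw [saw, den_eq m h, if_neg (by omega), Int.fract_eq_self.2 ⟨by positivity, hlt⟩]
      ring
  rw [Finset.sum_congr rfl this, Finset.sum_sub_distrib, ← Finset.mul_sum, h0]
  ring

end DSUMA

open DSUMA in
theorem rowDSUM : OfDSUM := by
  intro _ N h4 hs
  have : NeZero N := ⟨by omega⟩
  have h1 : ∀ m ∈ Finset.range N, (J(m | N) : ℚ) * DD (m / N) =
      12 * ∑ i, ss N i * (cc N (m : ZMod N) * ss N (i * (m : ZMod N))) := by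
    intro m _
    rw [cc_cast]
    by_cases h : (J(m | N) : ℤ) = 0
    · rw [h]; simp
    · rw [DD, den_eq m h, ← sum_zmod, mul_left_comm, Finset.mul_sum]
      congr 1
      refine Finset.sum_congr rfl fun i _ => ?_
      rw [← Nat.cast_mul, ss_cast, ss_cast, Nat.cast_mul, mul_div_assoc]
      ring
  rw [Finset.sum_congr rfl h1, ← Finset.mul_sum,
    sum_zmod fun m => ∑ i, ss N i * (cc N m * ss N (i * m)), Finset.sum_comm]
  have h2 : ∀ i : ZMod N, ∑ m, ss N i * (cc N m * ss N (i * m)) =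
      cc N i * ss N (1 * i) * GG N 1 := by
    intro i
    rw [← Finset.mul_sum, one_mul]
    have := GG_eq (by omega) hs i
    unfold GG at this ⊢
    rw [this]
    ring
  rw [Finset.sum_congr rfl fun i _ => h2 i, ← Finset.sum_mul]
  have h3 : ∑ i, cc N i * ss N (1 * i) = GG N 1 := rfl
  rw [h3, GG_one h4, sq]

end Pool.Agent.MP_5f72fe_nt.MS
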