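import Pool.Agent.MP_5f72fe_nt.MS.S2

/-! The transformation law of Dedekind sums. -/

namespace Pool.Agent.MP_5f72fe_nt.MS

namespace DTRA

lemma numden {a b : ℤ} (hb : b ≠ 0) (h : IsCoprime a b) :
    (((a : ℚ) / b).num : ℚ) * ((a : ℚ) / b).den = a * b := by
  have key : ∀ a b : ℤ, 0 < b → IsCoprime a b →
      (((a : ℚ) / b).num : ℚ) * ((a : ℚ) / b).den = a * b := by
    intro a b hb h
    have hc : Nat.Coprime a.natAbs b.natAbs := Int.isCoprime_iff_gcd_eq_one.1 h
    have h2 : ((((a : ℚ) / b).den : ℤ) : ℚ) = b := by rw [Rat.den_div_eq_of_coprime hb hc]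
    rw [Int.cast_natCast] at h2
    rw [Rat.num_div_eq_of_coprime hb hc, h2]
  rcases hb.lt_or_gt with hb | hb
  · have := key (-a) (-b) (by omega) h.neg_neg
    push_cast at this
    rwa [neg_div_neg_eq, neg_mul_neg] at this
  · exact key a b hb h

lemma sn_mul {x y : ℚ} (hx : x ≠ 0) (hy : y ≠ 0) : sn (x * y) = sn x * sn y := by
  unfold sn
  rcases hx.lt_or_gt with hx | hx <;> rcases hy.lt_or_gt with hy | hy
  · simp [mul_pos_of_neg_of_neg hx hy, hx.not_gt, hy.not_gt]
  · simp [(mul_neg_of_neg_of_pos hx hy).not_gt, hx.not_gt, hy]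
  · simp [(mul_neg_of_pos_of_neg hx hy).not_gt, hx, hy.not_gt]
  · simp [mul_pos hx hy, hx, hy]

lemma sn_neg {x : ℚ} (hx : x ≠ 0) : sn (-x) = -sn x := by
  unfold sn
  rcases hx.lt_or_gt with hx | hx
  · simp [hx, hx.not_gt]
  · simp [hx, hx.not_gt]

lemma sn_div {x y : ℚ} (hy : y ≠ 0) : sn (x / y) = sn (x * y) := by
  have : 0 < x / y ↔ 0 < x * y := by
    rw [show x * y = x / y * y ^ 2 by field_simp, mul_pos_iff_of_pos_right (by positivity)]
  simp only [sn, this]

lemma sn_id {p r J J' k : ℚ} (hp : p ≠ 0) (hr : r ≠ 0) (hJ : J ≠ 0) (hJ' : J' ≠ 0) (hk : k ≠ 0)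
    (e : k = p * J - r * J') :
    sn (J' * J) + sn (J * k * r) - sn (p * r) = sn (J' * k * p) := by
  rw [sn_mul hJ' hJ, sn_mul (mul_ne_zero hJ hk) hr, sn_mul hJ hk, sn_mul hp hr,
    sn_mul (mul_ne_zero hJ' hk) hp, sn_mul hJ' hk]
  unfold sn
  rcases hp.lt_or_gt with hp | hp <;> rcases hr.lt_or_gt with hr | hr <;>
    rcases hJ.lt_or_gt with hJ | hJ <;> rcases hJ'.lt_or_gt with hJ' | hJ' <;>
    rcases hk.lt_or_gt with hk | hk <;>
    simp only [hp, hr, hJ, hJ', hk, hp.not_gt, hr.not_gt, hJ.not_gt, hJ'.not_gt, hk.not_gt,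
      if_true, if_false] <;>
    first | (norm_num; done) | (exfalso; nlinarith)

lemma dd0 (D : RowDREC) : DD 0 = 0 := by
  have := D.odd 0
  rw [neg_zero] at this; linarith

lemma rec' (D : RowDREC) {a b : ℤ} (ha : a ≠ 0) (hb : b ≠ 0) (h : IsCoprime a b) :
    DD (a / b) + DD (b / a) = a / b + b / a + 1 / (a * b) - 3 * sn (a * b) := by
  have ha' : (a : ℚ) ≠ 0 := by exact_mod_cast ha
  have hb' : (b : ℚ) ≠ 0 := by exact_mod_cast hb
  have := D.recip (a / b) (div_ne_zero ha' hb')
  rwa [numden hb h, inv_div, sn_div hb'] at this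

/-- the statement proved by induction -/
def Q (p q r s : ℤ) : Prop :=
  r ≠ 0 → DD (s / r) = DD (p / r) ∧ ∀ h k J J' : ℤ, IsCoprime h k → k ≠ 0 → J = r * h + s * k →
    J' = p * h + q * k → J ≠ 0 →
    DD (J' / J) = DD (h / k) + DD (p / r) - k / (J * r) - J / (k * r) - r / (k * J) +
      3 * sn (J * k * r)

lemma stepT (D : RowDREC) {p q r s : ℤ} (n : ℤ) (H : Q p q r s) :
    Q (p + n * r) (q + n * s) r s := by
  intro hr
  have hr' : (r : ℚ) ≠ 0 := by exact_mod_cast hr
  obtain ⟨H1, H2⟩ := H hr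
  have e : DD (((p + n * r : ℤ) : ℚ) / r) = DD (p / r) := by
    rw [← D.per (p / r) n]; congr 1; push_cast; field_simp
  refine ⟨by rw [e, H1], fun h k J J' hc hk hJ hJ' h0 => ?_⟩
  have h0' : (J : ℚ) ≠ 0 := by exact_mod_cast h0
  rw [e, ← H2 h k J (J' - n * J) hc hk hJ (by rw [hJ, hJ']; ring) h0,
    ← D.per (((J' - n * J : ℤ) : ℚ) / J) n]
  congr 1; push_cast; field_simp; ring

lemma stepS (D : RowDREC) {p q r s : ℤ} (hd : p * s - q * r = 1) (H : Q p q r s) :
    Q (-r) (-s) p q := by
  intro hp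
  have hp' : (p : ℚ) ≠ 0 := by exact_mod_cast hp
  have hpr : IsCoprime p r := ⟨s, -q, by linarith⟩
  have hneg : DD (((-r : ℤ) : ℚ) / p) = -DD (r / p) := by
    rw [← D.odd]; congr 1; push_cast; ring
  constructor
  · by_cases hr : r = 0
    · subst hr
      have hq : (p : ℚ) * s = 1 := by exact_mod_cast (by linarith : p * s = 1)
      have : (q : ℚ) / p = 0 + ((q * s : ℤ) : ℚ) := by
        push_cast; field_simp; linear_combination (-q : ℚ) * hq
      rw [this, D.per]; simp
    · have hr' : (r : ℚ) ≠ 0 := by exact_mod_cast hr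
      have h1 := (H hr).2 (-q) p 1 0 ⟨r, s, by linarith⟩ hp (by linarith) (by ring) one_ne_zero
      have h2 := rec' D hp hr hpr
      have h3 : DD (((-q : ℤ) : ℚ) / p) = -DD (q / p) := by
        rw [← D.odd]; congr 1; push_cast; ring
      rw [h3] at h1
      simp only [Int.cast_zero, zero_div, dd0 D, Int.cast_one, one_mul, mul_one] at h1
      rw [hneg]; linarith
  · intro h k J' J'' hc hk hJ' hJ'' h0
    obtain ⟨J, hJ⟩ : ∃ J, J = r * h + s * k := ⟨_, rfl⟩
    obtain rfl : J'' = -J := by rw [hJ, hJ'']; ring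
    have hk' : (k : ℚ) ≠ 0 := by exact_mod_cast hk
    have h0' : (J' : ℚ) ≠ 0 := by exact_mod_cast h0
    have ek : k = p * J - r * J' := by rw [hJ, hJ']; linear_combination (-k) * hd
    have eh : h = s * J' - q * J := by rw [hJ, hJ']; linear_combination (-h) * hd
    have ekq : (k : ℚ) = p * J - r * J' := by exact_mod_cast ek
    have hJJ : IsCoprime J' J := by
      obtain ⟨u, v, e⟩ := hc
      exact ⟨u * s - v * r, v * p - u * q, by linear_combination e - u * eh - v * ek⟩
    have hnJ : DD (((-J : ℤ) : ℚ) / J') = -DD (J / J') := by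
      rw [← D.odd]; congr 1; push_cast; ring
    rw [hneg, hnJ]
    by_cases hJ0 : J = 0
    · subst hJ0
      have hr : r ≠ 0 := by rintro rfl; simp at ek; exact hk ek
      have hr' : (r : ℚ) ≠ 0 := by exact_mod_cast hr
      have hu : (J' : ℚ) * J' = 1 := by
        rcases Int.isUnit_iff.1 (isCoprime_zero_right.1 hJJ) with e | e <;> simp [e]
      have ehq : (h : ℚ) = s * J' := by rw [eh]; push_cast; ring
      have ekq' : (k : ℚ) = -(r * J') := by rw [ekq]; push_cast; ring
      have e1 : DD ((h : ℚ) / k) = -DD (p / r) := by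
        rw [← (H hr).1, ← D.odd]; congr 1; rw [ehq, ekq']; field_simp
      have e2 : sn ((J' : ℚ) * k * p) = -sn (p * r) := by
        rw [← sn_neg (mul_ne_zero hp' hr')]; congr 1; rw [ekq']
        linear_combination (-(r : ℚ) * p) * hu
      have h2 := rec' D hp hr hpr
      have e3 : (k : ℚ) / (J' * p) = -(r / p) := by rw [ekq']; field_simp
      have e4 : (J' : ℚ) / (k * p) = -(1 / (p * r)) := by rw [ekq']; field_simp
      have e5 : (p : ℚ) / (k * J') = -(p / r) := by
        rw [ekq', show -((r : ℚ) * J') * J' = -r by linear_combination (-(r : ℚ)) * hu, div_neg]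
      rw [e1, e2, e3, e4, e5]
      simp only [Int.cast_zero, zero_div, dd0 D]
      linarith
    · have hJq : (J : ℚ) ≠ 0 := by exact_mod_cast hJ0
      have h1 := rec' D h0 hJ0 hJJ
      have a2 : (k : ℚ) / (J' * p) = J / J' - r / p := by rw [ekq]; field_simp
      have a3 : (p : ℚ) / (k * J') = 1 / (J' * J) + r / (k * J) := by
        field_simp; linear_combination -ekq
      by_cases hr : r = 0
      · subst hr
        have hq : (p : ℚ) * s = 1 := by exact_mod_cast (by linarith : p * s = 1)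
        have hpp : (p : ℚ) * p = 1 := by
          rcases Int.eq_one_or_neg_one_of_mul_eq_one (by linarith : p * s = 1) with e | e <;>
            simp [e]
        have eJ : (J : ℚ) = k * p := by
          rw [ekq]; push_cast; linear_combination (-J : ℚ) * hpp
        have e1 : DD ((J' : ℚ) / J) = DD (h / k) := by
          rw [← D.per (h / k) (q * p)]; congr 1
          rw [eJ, hJ']; push_cast; field_simp
          linear_combination (-(k : ℚ) * q) * hpp
        rw [a2, a3, mul_assoc, ← eJ]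
        simp only [Int.cast_zero, zero_div, dd0 D]
        linarith
      · have hr' : (r : ℚ) ≠ 0 := by exact_mod_cast hr
        have h2 := rec' D hp hr hpr
        have h3 := (H hr).2 h k J J' hc hk hJ hJ' hJ0
        have h4 := sn_id hp' hr' hJq h0' hk' ekq
        have a1 : (k : ℚ) / (J * r) = p / r - J' / J := by rw [ekq]; field_simp
        have a4 : (J' : ℚ) / (k * p) = J / (k * r) - 1 / (p * r) := by
          field_simp; linear_combination ekq
        rw [a2, a3, a4]; rw [a1] at h3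
        linarith

lemma all (G : RowGEN) (D : RowDREC) (g : Mt) (hg : det g = 1) :
    Q g.1 g.2.1 g.2.2.1 g.2.2.2 := by
  refine G.one (fun g => det g = 1 → Q g.1 g.2.1 g.2.2.1 g.2.2.2) ?_ ?_ ?_ ?_ g hg hg
  · intro _ h; exact absurd rfl h
  · rintro ⟨p, q, r, s⟩ H hd
    simp only [det, mul, mS] at H hd ⊢
    have hd' : p * s - q * r = 1 := by linarith
    convert stepS D hd' (H hd') using 1 <;> ring
  · rintro ⟨p, q, r, s⟩ H hd
    simp only [det, mul, mT] at H hd ⊢
    convert stepT D 1 (H (by linarith)) using 1 <;> ring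
  · rintro ⟨p, q, r, s⟩ H hd
    simp only [det, mul, mT, adj] at H hd ⊢
    convert stepT D (-1) (H (by linarith)) using 1 <;> ring

end DTRA

open DTRA in
theorem rowDTR : OfDTR := by
  rintro G D ⟨p, q, r, s⟩ x _ j hg rfl hj hr h0
  simp only at hj hr ⊢
  have hk : (x.den : ℚ) ≠ 0 := by exact_mod_cast x.den_nz
  have hx : (x.num : ℚ) = x * x.den := (Rat.mul_den_eq_num x).symm
  have eJ : ((r * x.num + s * x.den : ℤ) : ℚ) = j * x.den := by
    push_cast; rw [hx, hj]; ring
  have hc : IsCoprime x.num (x.den : ℤ) := Int.isCoprime_iff_gcd_eq_one.2 x.reduced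
  have H := (all G D _ hg (by exact_mod_cast hr)).2 x.num x.den _ _ hc (by exact_mod_cast x.den_nz)
    rfl rfl (by
      have := mul_ne_zero h0 hk
      rw [← eJ] at this; exact_mod_cast this)
  simp only [eJ, Int.cast_natCast, Rat.num_div_den] at H
  have e1 : mu (p, q, r, s) x = ((p * x.num + q * x.den : ℤ) : ℚ) / (j * x.den) := by
    simp only [mu, ← hj]; push_cast; rw [hx]; field_simp
  have e2 : sn (j * x.den * x.den * r) = sn (j * r) := by
    rw [show j * x.den * x.den * r = j * r * (x.den * x.den) by ring,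
      sn_mul (mul_ne_zero h0 hr) (mul_ne_zero hk hk)]
    have : (0 : ℚ) < x.den * x.den := mul_self_pos.2 hk
    simp [sn, this]
  rw [e1, H, e2]
  field_simp

end Pool.Agent.MP_5f72fe_nt.MS
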