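import Pool.Agent.MP_5f72fe_nt.MS.S1

/-! The twisted central value is an eigenvector of the three operators. -/

namespace Pool.Agent.MP_5f72fe_nt.MS

open scoped NumberTheorySymbols

namespace ELLA

variable {A : Type} [AddCommGroup A]

theorem sum_zmod (N : ℕ) [NeZero N] (G : ZMod N → A) :
    ∑ m ∈ Finset.range N, G (m : ZMod N) = ∑ x : ZMod N, G x :=
  Finset.sum_nbij' (fun m => (m : ZMod N)) ZMod.val (fun _ _ => Finset.mem_univ _)
    (fun x _ => Finset.mem_range.2 (ZMod.val_lt x))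
    (fun _ hm => ZMod.val_cast_of_lt (Finset.mem_range.1 hm))
    (fun x _ => ZMod.natCast_zmod_val x) fun _ _ => rfl

/-- A periodic function has the same sum after multiplication by a unit. -/
theorem reindex {N : ℕ} (hN : N ≠ 0) (F : ℤ → A) (hF : ∀ m k : ℤ, F (m + k * N) = F m) (u : ℤ)
    (hu : IsCoprime u N) :
    ∑ m ∈ Finset.range N, F (u * m) = ∑ m ∈ Finset.range N, F m := by
  have : NeZero N := ⟨hN⟩
  have h1 : ∀ a : ℤ, F a = F ((a : ZMod N).val : ℤ) := fun a => by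
    rw [ZMod.val_intCast, ← hF (a % N) (a / N), mul_comm, Int.emod_add_mul_ediv]
  have h2 : IsUnit (u : ZMod N) := by
    obtain ⟨a, b, e⟩ := hu
    have e' := congrArg (Int.cast : ℤ → ZMod N) e
    push_cast at e'
    rw [ZMod.natCast_self, mul_zero, add_zero, mul_comm] at e'
    exact IsUnit.of_mul_eq_one _ e'
  obtain ⟨v, hv⟩ := h2
  calc ∑ m ∈ Finset.range N, F (u * m)
      = ∑ m ∈ Finset.range N, (fun x : ZMod N => F (((v : ZMod N) * x).val : ℤ)) (m : ZMod N) := by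
        refine Finset.sum_congr rfl fun m _ => ?_
        rw [h1, hv]
        push_cast
        rfl
    _ = ∑ x : ZMod N, F (((v : ZMod N) * x).val : ℤ) :=
        sum_zmod N fun x : ZMod N => F (((v : ZMod N) * x).val : ℤ)
    _ = ∑ x : ZMod N, F (x.val : ℤ) :=
        Fintype.sum_equiv v.mulLeft _ _ fun _ => rfl
    _ = ∑ m ∈ Finset.range N, (fun x : ZMod N => F (x.val : ℤ)) (m : ZMod N) :=
        (sum_zmod N fun x : ZMod N => F (x.val : ℤ)).symm
    _ = ∑ m ∈ Finset.range N, F m := by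
        refine Finset.sum_congr rfl fun m hm => ?_
        show F (((m : ZMod N).val : ℕ) : ℤ) = F m
        rw [ZMod.val_cast_of_lt (Finset.mem_range.1 hm)]

/-- The first cusp may be scaled. -/
theorem scale {f : V → V → A} (h : Ad f) {l : ℚ} (hl : l ≠ 0) {c : V} (hc : c ≠ 0) :
    f (l, 0) c = f e1 c := by
  have h1 : ((l, 0) : V) ≠ 0 := fun e => hl (congrArg Prod.fst e)
  have h2 : e1 ≠ 0 := fun e => one_ne_zero (congrArg Prod.fst e)
  have h3 := h.hom (l, 0) l⁻¹ h1 (inv_ne_zero hl)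
  have h4 : l⁻¹ • ((l, 0) : V) = e1 := by simp [e1, hl]
  rw [← h.add (l, 0) e1 c h1 h2 hc, ← h4, h3, zero_add]

/-- The terms of the sum. -/
def lam (φ : Sb A) (N : ℕ) (c : ℚ) (m : ℤ) : A := φ e1 (m, N) (m, N) (c, 0)

theorem lam_per {φ : Sb A} (h : Sy φ) (N : ℕ) (c : ℚ) (m k : ℤ) :
    lam φ N c (m + k * N) = lam φ N c m := by
  have h1 := congrFun (congrFun (congrFun (congrFun
    (h.inv (1, k, 0, 1) 0 (by simp [det])) e1) (m, N)) (m, N)) (c, 0)
  simpa [lam, lf, ap, e1] using h1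

theorem jac_per (N : ℕ) (m k : ℤ) : J(m + k * N | N) = J(m | N) :=
  jacobiSym.mod_left' (Int.add_mul_emod_self_right _ _ _)

theorem pt_ne {N : ℕ} (hN : N ≠ 0) (x : ℚ) : ((x, N) : V) ≠ 0 := fun e =>
  hN (Nat.cast_eq_zero.1 (congrArg Prod.snd e))

theorem lam_three {φ : Sb A} (h : Sy φ) {N : ℕ} (hN : N ≠ 0) (m : ℤ) :
    lam φ N 3 (3 * m) = lam φ N 1 m := by
  have h1 := congrFun (congrFun (congrFun (congrFun
    (h.inv mD 1 (by simp [det, mD])) e1) (m, N)) (m, N)) (1, 0)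
  have h2 := scale (h.ad (3 * m, N) (3, 0)) (l := 3) (by norm_num) (pt_ne hN (3 * m))
  have h3 : lf mD φ e1 (m, N) (m, N) (1, 0) = φ (3, 0) (3 * m, N) (3 * m, N) (3, 0) := by
    simp [lf, ap, e1, mD]
  rw [lam, lam, ← h1, h3]
  push_cast
  exact h2.symm

theorem lam_cj {φ : Sb A} (h : Sy φ) {N : ℕ} (hN : N ≠ 0) (m : ℤ) :
    lam (cj φ) N 1 m = lam φ N 1 (-1 * m) := by
  have h2 := scale (h.ad (-m, N) (-1, 0)) (l := -1) (by norm_num) (pt_ne hN (-m))
  have h3 : lam (cj φ) N 1 m = φ (-1, 0) (-m, N) (-m, N) (-1, 0) := by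
    simp [lam, cj, lf, ap, e1, mN]
  have h4 := h.tor e1 (-m, N) (-m, N) (1, 0) 1 (-1) (by norm_num [Un, In]) (by norm_num [Un, In])
  rw [h3]
  refine h2.trans ?_
  simpa [lam] using h4

theorem ell_eq (φ : Sb A) (N : ℕ) :
    ell N φ = ∑ m ∈ Finset.range N, J(m | N) • lam φ N 1 m := by
  simp [ell, lam, e1]

theorem ell_tt (φ : Sb A) (N : ℕ) :
    ell N (tt φ) = ∑ m ∈ Finset.range N, J(m | N) • lam φ N 3 m := by
  simp [ell, lam, e1, tt]

end ELLA

open ELLA in
theorem rowELL : OfELL := by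
  intro hB hO hI hC A _ φ N h hodd h3
  have hN : N ≠ 0 := fun e => h3 (e ▸ dvd_zero 3)
  refine ⟨?_, ?_, ?_⟩
  · have hu : IsCoprime (3 : ℤ) N := by
      have := (Nat.Prime.coprime_iff_not_dvd Nat.prime_three).2 h3
      exact Nat.isCoprime_iff_coprime.2 this
    rw [ell_tt, ell_eq, ← reindex hN (fun m => J(m | N) • lam φ N 3 m)
      (fun m k => by rw [jac_per, lam_per h]) 3 hu, Finset.smul_sum]
    refine Finset.sum_congr rfl fun m _ => ?_
    rw [lam_three h hN, jacobiSym.mul_left, mul_smul]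
  · rw [ell_eq, ell_eq, Finset.smul_sum, ← reindex hN
      (fun m => J(-1 | N) • J(m | N) • lam φ N 1 m)
      (fun m k => by rw [jac_per, lam_per h]) (-1) isCoprime_one_left.neg_left]
    refine Finset.sum_congr rfl fun m _ => ?_
    rw [lam_cj h hN, ← mul_smul, ← jacobiSym.mul_left, ← mul_assoc, neg_mul_neg, one_mul, one_mul]
  · obtain ⟨h1, h2, h4⟩ := hC.toRes A φ h
    rw [(hC.toRes A (sg φ) (hO.syOp A φ h).2.2.1).2.2 N h3, h4 N h3,
      ← (hI.flip A (res φ) h1).2.2 N hodd h3, ell0, ell0]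
    refine Finset.sum_congr rfl fun m _ => ?_
    have hU : Un (N : ℚ) := by
      refine ⟨by simp [In], ?_⟩
      rw [Rat.num_natCast]
      exact fun e => h3 (Int.natCast_dvd_natCast.1 e)
    rw [h2 e1 (m, N) (m / N) 0 (hB.div _ _ (by simp [In]) hU) (by simp [In])]

end Pool.Agent.MP_5f72fe_nt.MS
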