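import Pool.Agent.MP_5f72fe_nt.MS.S1

/-! The value on the basic path for all bases of the standard lattice. -/

namespace Pool.Agent.MP_5f72fe_nt.MS

namespace EXT1A

noncomputable section

variable {A : Type} [AddCommGroup A]

theorem ap_mul (g h : Mt) (v : V) : ap g (ap h v) = ap (mul g h) v := by
  simp only [ap, mul, Prod.mk.injEq]
  push_cast
  constructor <;> ring

theorem ap_I (v : V) : ap mI v = v := by
  simp [ap, mI]

theorem ap_lin (g : Mt) (v w : V) (x y : ℚ) :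
    ap g (x • v + y • w) = x • ap g v + y • ap g w := by
  simp only [ap, Prod.fst_add, Prod.snd_add, Prod.smul_fst, Prod.smul_snd, smul_eq_mul,
    Prod.smul_mk, Prod.mk_add_mk, Prod.mk.injEq]
  constructor <;> ring

theorem dt_ap (g : Mt) (v w : V) : dt (ap g v) (ap g w) = (det g : ℚ) * dt v w := by
  simp only [ap, dt, det]
  push_cast
  ring

/-- the chart value of a basis -/
def a0 (a : Ch A) (v w : V) : A := a (v.1 / v.2) (w.2 / (3 * w.1))

/-- the chart value of a translate -/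
def A0 (a : Ch A) (g : Mt) (v w : V) : A := a0 a (ap g v) (ap g w)

omit [AddCommGroup A] in
theorem A0_ap (a : Ch A) (g h : Mt) (v w : V) :
    A0 a g (ap h v) (ap h w) = A0 a (mul g h) v w := by
  simp only [A0, ap_mul]

omit [AddCommGroup A] in
theorem A0_eq (a : Ch A) (g h : Mt) (v w : V)
    (e : g = h ∨ g = (-h.1, -h.2.1, -h.2.2.1, -h.2.2.2)) : A0 a g v w = A0 a h v w := by
  rcases e with rfl | rfl
  · rfl
  · have e1 : ∀ v : V, (ap (-h.1, -h.2.1, -h.2.2.1, -h.2.2.2) v).1 = -(ap h v).1 := by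
      intro v
      simp only [ap]
      push_cast
      ring
    have e2 : ∀ v : V, (ap (-h.1, -h.2.1, -h.2.2.1, -h.2.2.2) v).2 = -(ap h v).2 := by
      intro v
      simp only [ap]
      push_cast
      ring
    simp only [A0, a0, e1, e2, mul_neg, neg_div_neg_eq]

omit [AddCommGroup A] in
theorem A0_act (a : Ch A) (g : Mt) (v w : V) (hv : v.2 ≠ 0) (hw : w.1 ≠ 0) :
    A0 a g v w = act g a (v.1 / v.2) (w.2 / (3 * w.1)) := by
  have e1 : (ap g v).1 / (ap g v).2 = mu g (v.1 / v.2) := by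
    simp only [ap, mu]
    rw [← mul_div_mul_right ((g.1 : ℚ) * (v.1 / v.2) + g.2.1) _ hv]
    congr 1 <;> field_simp
  have e2 : (ap g w).2 / (3 * (ap g w).1) = my g (w.2 / (3 * w.1)) := by
    simp only [ap, my]
    have h3 : (3 : ℚ) * w.1 ≠ 0 := mul_ne_zero (by norm_num) hw
    rw [← mul_div_mul_right ((g.2.2.1 : ℚ) / 3 + g.2.2.2 * (w.2 / (3 * w.1))) _ h3]
    congr 1 <;> field_simp
  simp only [A0, a0, act, e1, e2]

/-- the four classes -/
def Fg (a : Ch A) (r s : F3) (g : Mt) (v w : V) : A :=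
  if s = 0 then A0 a (mul mI g) v w
  else if r = 0 then -A0 a (mul mS g) v w
  else if r = s then A0 a (mul (1, 0, -1, 1) g) v w - A0 a (mul (0, -1, 1, -1) g) v w
  else A0 a (mul mU g) v w - A0 a (mul (0, -1, 1, 1) g) v w

open Classical in
/-- the extension -/
def psi (a : Ch A) (v w : V) : A :=
  if X1 v w then Fg a (red 3 w.1) (red 3 w.2) mI v w else 0

theorem mul_I (g : Mt) : mul g mI = g := by
  simp [mul, mI]

theorem Fg_ap (a : Ch A) (r s : F3) (g : Mt) (v w : V) :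
    Fg a r s mI (ap g v) (ap g w) = Fg a r s g v w := by
  simp only [Fg, A0_ap, mul_I]

theorem tri3 : ∀ r : ZMod 3, r = 0 ∨ r = 1 ∨ r = 2 := by decide

theorem Fg_mul (a : Ch A) (r s y : F3) (hy : y ≠ 0) (g : Mt) (v w : V) :
    Fg a (y * r) (y * s) g v w = Fg a r s g v w := by
  have e1 : ∀ y r : ZMod 3, y ≠ 0 → (y * r = 0 ↔ r = 0) := by decide
  have e2 : ∀ y r s : ZMod 3, y ≠ 0 → (y * r = y * s ↔ r = s) := by decide
  simp only [Fg, e1 y _ hy, e2 y _ _ hy]

section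

variable (hB : RowBAS)
include hB

theorem in_add {x y : ℚ} (hx : In x) (hy : In y) : In (x + y) := by
  obtain ⟨O, hO⟩ := hB.ring
  exact (hO _).1 (O.add_mem ((hO _).2 hx) ((hO _).2 hy))

theorem in_mul {x y : ℚ} (hx : In x) (hy : In y) : In (x * y) := by
  obtain ⟨O, hO⟩ := hB.ring
  exact (hO _).1 (O.mul_mem ((hO _).2 hx) ((hO _).2 hy))

theorem in_sub {x y : ℚ} (hx : In x) (hy : In y) : In (x - y) := by
  obtain ⟨O, hO⟩ := hB.ring
  exact (hO _).1 (O.sub_mem ((hO _).2 hx) ((hO _).2 hy))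

theorem in_int (n : ℤ) : In (n : ℚ) := by
  obtain ⟨O, hO⟩ := hB.ring
  exact (hO _).1 (intCast_mem O n)

theorem in_pow (n : ℕ) : In ((3 : ℚ) ^ n) := by
  have h := in_int hB (3 ^ n)
  push_cast at h
  exact h

theorem un_ne {x : ℚ} (hx : Un x) : x ≠ 0 := ((hB.un' x).1 hx).1

theorem X1_ap {g : Mt} (hg : det g = 1) {v w : V} (h : X1 v w) : X1 (ap g v) (ap g w) := by
  obtain ⟨h1, h2, h3, h4, h5⟩ := h
  refine ⟨?_, ?_, ?_, ?_, ?_⟩
  · exact in_add hB (in_mul hB (in_int hB _) h1) (in_mul hB (in_int hB _) h2)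
  · exact in_add hB (in_mul hB (in_int hB _) h1) (in_mul hB (in_int hB _) h2)
  · exact in_add hB (in_mul hB (in_int hB _) h3) (in_mul hB (in_int hB _) h4)
  · exact in_add hB (in_mul hB (in_int hB _) h3) (in_mul hB (in_int hB _) h4)
  · rw [dt_ap, hg]
    simpa using h5

theorem X1_of_ap {g g' : Mt} (hg : det g' = 1) (e : mul g' g = mI) {v w : V}
    (h : X1 (ap g v) (ap g w)) : X1 v w := by
  have h' := X1_ap hB hg h
  rwa [ap_mul, ap_mul, e, ap_I, ap_I] at h'

theorem red_lin (p q : ℤ) {x y : ℚ} (hx : In x) (hy : In y) :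
    red 3 (p * x + q * y) = p * red 3 x + q * red 3 y := by
  obtain ⟨ha, hm, hi, _⟩ := hB.red3
  rw [ha _ _ (in_mul hB (in_int hB _) hx) (in_mul hB (in_int hB _) hy),
    hm _ _ (in_int hB _) hx, hm _ _ (in_int hB _) hy, hi, hi]

theorem psi_ap (a : Ch A) {g : Mt} (hg : det g = 1) {v w : V} (h : X1 v w) :
    psi a (ap g v) (ap g w) = Fg a (g.1 * red 3 w.1 + g.2.1 * red 3 w.2)
      (g.2.2.1 * red 3 w.1 + g.2.2.2 * red 3 w.2) g v w := by
  rw [psi, if_pos (X1_ap hB hg h), Fg_ap, ← red_lin hB _ _ h.2.2.1 h.2.2.2.1,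
    ← red_lin hB _ _ h.2.2.1 h.2.2.2.1]
  rfl

theorem red_un {x : ℚ} (hx : In x) : Un x ↔ red 3 x ≠ 0 := by
  rw [hB.un, Ne, hB.red3.2.2.2 x hx]
  exact ⟨fun h => h.2, fun h => ⟨hx, h⟩⟩

theorem red_dt {v w : V} (h : X1 v w) :
    red 3 v.1 * red 3 w.2 - red 3 v.2 * red 3 w.1 ≠ 0 := by
  obtain ⟨h1, h2, h3, h4, h5⟩ := h
  have h6 := (red_un hB h5.1).1 h5
  have e : dt v w = ((1 : ℤ) : ℚ) * (v.1 * w.2) + ((-1 : ℤ) : ℚ) * (v.2 * w.1) := by
    simp only [dt]
    push_cast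
    ring
  rw [e, red_lin hB _ _ (in_mul hB h1 h4) (in_mul hB h2 h3), hB.red3.2.1 _ _ h1 h4,
    hB.red3.2.1 _ _ h2 h3] at h6
  intro h7
  apply h6
  push_cast
  linear_combination h7

theorem un_of_cls {v w : V} (h : X1 v w) (h0 : red 3 w.2 = 0) : Un v.2 ∧ Un w.1 := by
  have h1 := red_dt hB h
  rw [h0] at h1
  refine ⟨(red_un hB h.2.1).2 fun e => h1 ?_, (red_un hB h.2.2.1).2 fun e => h1 ?_⟩
  · rw [e]; ring
  · rw [e]; ring

theorem in_chart {v w : V} (h : X1 v w) (h0 : red 3 w.2 = 0) :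
    In (v.1 / v.2) ∧ In (w.2 / (3 * w.1)) := by
  obtain ⟨u1, u2⟩ := un_of_cls hB h h0
  refine ⟨hB.div _ _ h.1 u1, ?_⟩
  rw [← div_div]
  exact hB.div _ _ ((hB.red3.2.2.2 _ h.2.2.2.1).1 h0) u2

/-- the six-term relation -/
theorem six (a : Ch A) (hr : EqO (app rho a) 0) {v w : V} (h : X1 v w)
    (h0 : red 3 w.1 + red 3 w.2 = 0) :
    A0 a (mul mI mU) v w - A0 a (mul (1, -1, 0, 1) mU) v w + A0 a (mul (-2, 1, -3, 1) mU) v w -
      A0 a (mul (1, 0, -3, 1) mU) v w + A0 a (mul mR mU) v w -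
      A0 a (mul (-2, 1, 3, -2) mU) v w = 0 := by
  have hX := X1_ap hB (g := mU) (by decide) h
  have h1 : red 3 (ap mU w).2 = 0 := by
    have e := red_lin hB 1 1 h.2.2.1 h.2.2.2.1
    simp only [Int.cast_one, one_mul] at e
    simp only [ap, mU, Int.cast_one, one_mul, e, h0]
  obtain ⟨u1, u2⟩ := un_of_cls hB hX h1
  obtain ⟨i1, i2⟩ := in_chart hB hX h1
  have h2 := hr _ _ i1 i2
  simp only [← A0_ap, A0_act a _ _ _ (un_ne hB u1) (un_ne hB u2)]
  simp only [app, rho, List.map_cons, List.map_nil, List.sum_cons, List.sum_nil, one_smul,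
    neg_smul, Pi.add_apply, Pi.neg_apply, Pi.zero_apply, add_zero] at h2
  rw [← h2]
  abel

theorem relS (a : Ch A) (v w : V) :
    psi a v w + psi a (ap (adj mS) v) (ap (adj mS) w) = 0 := by
  by_cases h : X1 v w
  · rw [psi_ap hB a (by decide) h, psi, if_pos h]
    have h1 := red_dt hB h
    generalize red 3 w.1 = r at h1 ⊢
    generalize red 3 w.2 = s at h1 ⊢
    have e1 := A0_eq a (mul mS (adj mS)) (mul mI mI) v w (by decide)
    have e2 := A0_eq a (mul mI (adj mS)) (mul mS mI) v w (by decide)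
    have e3 := A0_eq a (mul mU (adj mS)) (mul (0, -1, 1, -1) mI) v w (by decide)
    have e4 := A0_eq a (mul (0, -1, 1, 1) (adj mS)) (mul (1, 0, -1, 1) mI) v w (by decide)
    have e5 := A0_eq a (mul (1, 0, -1, 1) (adj mS)) (mul (0, -1, 1, 1) mI) v w (by decide)
    have e6 := A0_eq a (mul (0, -1, 1, -1) (adj mS)) (mul mU mI) v w (by decide)
    rcases tri3 r with rfl | rfl | rfl <;> rcases tri3 s with rfl | rfl | rfl
    · exact absurd (by ring) h1
    all_goals
      simp +decide only [Fg, if_true, if_false, e1, e2, e3, e4, e5, e6]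
      abel
  · have h' : ¬ X1 (ap (adj mS) v) (ap (adj mS) w) := fun h' =>
      h (X1_of_ap hB (g' := mS) (by decide) (by decide) h')
    rw [psi, psi, if_neg h, if_neg h', add_zero]

theorem relT (a : Ch A) (hr : EqO (app rho a) 0) (v w : V) :
    psi a v w = psi a (ap (adj mT) v) (ap (adj mT) w) + psi a (ap (adj mU) v) (ap (adj mU) w) := by
  by_cases h : X1 v w
  · rw [psi_ap hB a (by decide) h, psi_ap hB a (by decide) h, psi, if_pos h]
    have h1 := red_dt hB h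
    have h6 := six hB a hr h
    generalize red 3 w.1 = r at h1 h6 ⊢
    generalize red 3 w.2 = s at h1 h6 ⊢
    have e1 := A0_eq a (mul mU (adj mU)) (mul mI mI) v w (by decide)
    have e2 := A0_eq a (mul (0, -1, 1, 1) (adj mU)) (mul mI (adj mT)) v w (by decide)
    have e3 := A0_eq a (mul (0, -1, 1, 1) (adj mT)) (mul mS mI) v w (by decide)
    have e4 := A0_eq a (mul mU (adj mT)) (mul mS (adj mU)) v w (by decide)
    have e5 := A0_eq a (mul mS (adj mT)) (mul (0, -1, 1, -1) mI) v w (by decide)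
    have e6 := A0_eq a (mul mI (adj mU)) (mul (1, 0, -1, 1) mI) v w (by decide)
    rw [A0_eq a (mul mI mU) (mul mU mI) v w (by decide),
      A0_eq a (mul (1, -1, 0, 1) mU) (mul (0, -1, 1, 1) mI) v w (by decide),
      A0_eq a (mul (-2, 1, -3, 1) mU) (mul (0, -1, 1, -1) (adj mU)) v w (by decide),
      A0_eq a (mul (1, 0, -3, 1) mU) (mul (1, 0, -1, 1) (adj mU)) v w (by decide),
      A0_eq a (mul mR mU) (mul (0, -1, 1, -1) (adj mT)) v w (by decide),
      A0_eq a (mul (-2, 1, 3, -2) mU) (mul (1, 0, -1, 1) (adj mT)) v w (by decide)] at h6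
    rcases tri3 r with rfl | rfl | rfl <;> rcases tri3 s with rfl | rfl | rfl
    · exact absurd (by ring) h1
    all_goals simp +decide only [Fg, if_true, if_false, e1, e2, e3, e4, e5, e6]
    all_goals first
      | (rw [← sub_eq_zero, ← h6 (by decide)]; abel)
      | abel
  · have h1 : ¬ X1 (ap (adj mT) v) (ap (adj mT) w) := fun h' =>
      h (X1_of_ap hB (g' := mT) (by decide) (by decide) h')
    have h2 : ¬ X1 (ap (adj mU) v) (ap (adj mU) w) := fun h' =>
      h (X1_of_ap hB (g' := mU) (by decide) (by decide) h')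
    rw [psi, psi, psi, if_neg h, if_neg h1, if_neg h2, add_zero]

theorem un_add_pow {x z : ℚ} (m : ℕ) (hx : Un x) (hz : In z) : Un (x + 3 ^ (m + 1) * z) := by
  have h := hB.unAdd x (3 ^ m * z) hx (in_mul hB (in_pow hB m) hz)
  rwa [← mul_assoc, ← pow_succ'] at h

theorem un_D {x y b c : ℚ} (m : ℕ) (hx : Un x) (hy : Un y) (hb : In b) (hc : In c) :
    Un (x * y - 3 ^ (m + 1) * b * (3 ^ (m + 1) * c)) := by
  have h := un_add_pow hB m (hB.unMul x y hx hy).1
    (in_mul hB (in_int hB (-1)) (in_mul hB hb (in_mul hB (in_pow hB (m + 1)) hc)))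
  have e : x * y - 3 ^ (m + 1) * b * (3 ^ (m + 1) * c) =
      x * y + 3 ^ (m + 1) * (((-1 : ℤ) : ℚ) * (b * (3 ^ (m + 1) * c))) := by
    push_cast
    ring
  rwa [e]

theorem X1_rk {v w : V} {x y b c : ℚ} (m : ℕ) (hx : Un x) (hy : Un y) (hb : In b) (hc : In c)
    (h : X1 v w) : X1 (x • v + (3 ^ (m + 1) * b) • w) (y • w + (3 ^ (m + 1) * c) • v) := by
  obtain ⟨h1, h2, h3, h4, h5⟩ := h
  have hb' := in_mul hB (in_pow hB (m + 1)) hb
  have hc' := in_mul hB (in_pow hB (m + 1)) hc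
  refine ⟨in_add hB (in_mul hB hx.1 h1) (in_mul hB hb' h3),
    in_add hB (in_mul hB hx.1 h2) (in_mul hB hb' h4),
    in_add hB (in_mul hB hy.1 h3) (in_mul hB hc' h1),
    in_add hB (in_mul hB hy.1 h4) (in_mul hB hc' h2), ?_⟩
  have e : dt (x • v + (3 ^ (m + 1) * b) • w) (y • w + (3 ^ (m + 1) * c) • v) =
      (x * y - 3 ^ (m + 1) * b * (3 ^ (m + 1) * c)) * dt v w := by
    simp only [dt, Prod.fst_add, Prod.snd_add, Prod.smul_fst, Prod.smul_snd, smul_eq_mul]
    ring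
  rw [e]
  exact (hB.unMul _ _ (un_D hB m hx hy hb hc) h5).1

theorem X1_of_rk {v w : V} {x y b c : ℚ} (m : ℕ) (hx : Un x) (hy : Un y) (hb : In b) (hc : In c)
    (h : X1 (x • v + (3 ^ (m + 1) * b) • w) (y • w + (3 ^ (m + 1) * c) • v)) : X1 v w := by
  have hD := un_D hB m hx hy hb hc
  have hD0 := un_ne hB hD
  have h' := X1_rk hB m (hB.unMul _ _ hy hD).2.1 (hB.unMul _ _ hx hD).2.1
    (hB.div _ _ (in_mul hB (in_int hB (-1)) hb) hD) (hB.div _ _ (in_mul hB (in_int hB (-1)) hc) hD) h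
  generalize (3 : ℚ) ^ (m + 1) = t at h' hD0
  have e1 : (y / (x * y - t * b * (t * c))) • (x • v + (t * b) • w) +
      (t * (((-1 : ℤ) : ℚ) * b / (x * y - t * b * (t * c)))) • (y • w + (t * c) • v) = v := by
    ext
    all_goals
      simp only [Prod.fst_add, Prod.snd_add, Prod.smul_fst, Prod.smul_snd, smul_eq_mul]
      generalize hd : x * y - t * b * (t * c) = d at hD0 ⊢
      push_cast
      field_simp
      rw [← hd]
      ring
  have e2 : (x / (x * y - t * b * (t * c))) • (y • w + (t * c) • v) +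
      (t * (((-1 : ℤ) : ℚ) * c / (x * y - t * b * (t * c)))) • (x • v + (t * b) • w) = w := by
    ext
    all_goals
      simp only [Prod.fst_add, Prod.snd_add, Prod.smul_fst, Prod.smul_snd, smul_eq_mul]
      generalize hd : x * y - t * b * (t * c) = d at hD0 ⊢
      push_cast
      field_simp
      rw [← hd]
      ring
  rwa [e1, e2] at h'

theorem red_rk {p q y c : ℚ} (m : ℕ) (hp : In p) (hq : In q) (hy : In y) (hc : In c) :
    red 3 (y * p + 3 ^ (m + 1) * c * q) = red 3 y * red 3 p := by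
  obtain ⟨ha, hm, _, hz⟩ := hB.red3
  have h1 : In (3 ^ (m + 1) * c * q) := in_mul hB (in_mul hB (in_pow hB _) hc) hq
  have h2 : red 3 (3 ^ (m + 1) * c * q) = 0 := by
    rw [hz _ h1]
    have e : (3 : ℚ) ^ (m + 1) * c * q / 3 = 3 ^ m * c * q := by ring
    rw [e]
    exact in_mul hB (in_mul hB (in_pow hB _) hc) hq
  rw [ha _ _ (in_mul hB hy hp) h1, h2, add_zero, hm _ _ hy hp]

omit [AddCommGroup A] in
theorem a0_rk (a : Ch A) (m : ℕ) (hm : ∀ u y b c, In u → In y → In b → In c →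
      a (u + 3 ^ m * b) (y + 3 ^ m * c) = a u y) {v w : V} {x y b c : ℚ} (hx : Un x) (hy : Un y)
    (hb : In b) (hc : In c) (h : X1 v w) (h0 : red 3 w.2 = 0) :
    a0 a (x • v + (3 ^ (m + 1) * b) • w) (y • w + (3 ^ (m + 1) * c) • v) = a0 a v w := by
  obtain ⟨u1, u2⟩ := un_of_cls hB h h0
  obtain ⟨i1, i2⟩ := in_chart hB h h0
  obtain ⟨h1, h2, h3, h4, h5⟩ := h
  have d1 : Un (x * v.2 + 3 ^ (m + 1) * (b * w.2)) :=
    un_add_pow hB m (hB.unMul _ _ hx u1).1 (in_mul hB hb h4)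
  have d2 : Un (y * w.1 + 3 ^ (m + 1) * (c * v.1)) :=
    un_add_pow hB m (hB.unMul _ _ hy u2).1 (in_mul hB hc h1)
  have k1 := hB.div _ _ (in_mul hB (in_int hB (-3)) (in_mul hB hb h5.1)) (hB.unMul _ _ u1 d1).1
  have k2 := hB.div _ _ (in_mul hB (in_int hB (-1)) (in_mul hB hc h5.1)) (hB.unMul _ _ u2 d2).1
  have key := hm _ _ _ _ i1 i2 k1 k2
  have n1 := un_ne hB u1
  have n2 := un_ne hB u2
  have n3 := un_ne hB d1
  have n4 := un_ne hB d2
  have e1 : (x • v + (3 ^ (m + 1) * b) • w).1 / (x • v + (3 ^ (m + 1) * b) • w).2 =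
      v.1 / v.2 + 3 ^ m * (((-3 : ℤ) : ℚ) * (b * dt v w) /
        (v.2 * (x * v.2 + 3 ^ (m + 1) * (b * w.2)))) := by
    simp only [Prod.fst_add, Prod.snd_add, Prod.smul_fst, Prod.smul_snd, smul_eq_mul, mul_assoc]
    generalize hd : x * v.2 + 3 ^ (m + 1) * (b * w.2) = d at n3 ⊢
    push_cast
    field_simp
    rw [← hd, dt]
    ring
  have e2 : (y • w + (3 ^ (m + 1) * c) • v).2 / (3 * (y • w + (3 ^ (m + 1) * c) • v).1) =
      w.2 / (3 * w.1) + 3 ^ m * (((-1 : ℤ) : ℚ) * (c * dt v w) /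
        (w.1 * (y * w.1 + 3 ^ (m + 1) * (c * v.1)))) := by
    simp only [Prod.fst_add, Prod.snd_add, Prod.smul_fst, Prod.smul_snd, smul_eq_mul, mul_assoc]
    generalize hd : y * w.1 + 3 ^ (m + 1) * (c * v.1) = d at n4 ⊢
    push_cast
    field_simp
    rw [← hd, dt]
    ring
  rw [a0, e1, e2, key, a0]

omit [AddCommGroup A] in
theorem A0_rk (a : Ch A) (m : ℕ) (hm : ∀ u y b c, In u → In y → In b → In c →
      a (u + 3 ^ m * b) (y + 3 ^ m * c) = a u y) {v w : V} {x y b c : ℚ} (hx : Un x) (hy : Un y)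
    (hb : In b) (hc : In c) (h : X1 v w) (g : Mt) (hg : det g = 1)
    (h0 : g.2.2.1 * red 3 w.1 + g.2.2.2 * red 3 w.2 = 0) :
    A0 a g (x • v + (3 ^ (m + 1) * b) • w) (y • w + (3 ^ (m + 1) * c) • v) = A0 a g v w := by
  rw [A0, A0, ap_lin, ap_lin]
  refine a0_rk hB a m hm hx hy hb hc (X1_ap hB hg h) ?_
  rw [← red_lin hB _ _ h.2.2.1 h.2.2.2.1] at h0
  exact h0

theorem psi_rk (a : Ch A) (m : ℕ) (hm : ∀ u y b c, In u → In y → In b → In c →
      a (u + 3 ^ m * b) (y + 3 ^ m * c) = a u y) : RK (m + 1) (psi a) := by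
  intro v w x y b c hx hy hb hc
  by_cases h : X1 v w
  · rw [psi, psi, if_pos h, if_pos (X1_rk hB m hx hy hb hc h)]
    have e1 : red 3 (y • w + (3 ^ (m + 1) * c) • v).1 = red 3 y * red 3 w.1 :=
      red_rk hB m h.2.2.1 h.1 hy.1 hc
    have e2 : red 3 (y • w + (3 ^ (m + 1) * c) • v).2 = red 3 y * red 3 w.2 :=
      red_rk hB m h.2.2.2.1 h.2.1 hy.1 hc
    rw [e1, e2, Fg_mul a _ _ _ ((red_un hB hy.1).1 hy)]
    have key := A0_rk hB a m hm hx hy hb hc h
    have h1 := red_dt hB h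
    generalize red 3 w.1 = r at key h1 ⊢
    generalize red 3 w.2 = s at key h1 ⊢
    rcases tri3 r with rfl | rfl | rfl <;> rcases tri3 s with rfl | rfl | rfl
    · exact absurd (by ring) h1
    all_goals simp +decide only [Fg, if_true, if_false]
    all_goals first
      | rw [key _ (by decide) (by decide), key _ (by decide) (by decide)]
      | rw [key _ (by decide) (by decide)]
  · rw [psi, psi, if_neg h, if_neg fun h' => h (X1_of_rk hB m hx hy hb hc h')]

theorem psi_chart (a : Ch A) {u y : ℚ} (hu : In u) (hy : In y) :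
    psi a (u, 1) (1, 3 * y) = a u y := by
  have h1 : In (1 : ℚ) := by simpa using in_int hB 1
  have h3 : In (3 : ℚ) := by simpa using in_int hB 3
  have hm : Un (-1 : ℚ) := by simpa using (hB.int (-1)).2.2 (by decide)
  have hX : X1 (u, 1) (1, 3 * y) := by
    refine ⟨hu, h1, h1, in_mul hB h3 hy, ?_⟩
    have e : dt (u, 1) (1, 3 * y) = -1 + 3 * (u * y) := by
      simp only [dt]
      ring
    rw [e]
    exact hB.unAdd _ _ hm (in_mul hB hu hy)
  have h0 : red 3 (3 * y) = 0 := by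
    rw [hB.red3.2.2.2 _ (in_mul hB h3 hy)]
    simpa using hy
  rw [psi, if_pos hX, Fg, if_pos h0, mul_I, A0, ap_I, ap_I, a0]
  simp

end

end

end EXT1A

theorem rowEXT1 : OfEXT1 := by
  intro hB _ A _ a ha hr
  obtain ⟨m, hm⟩ := ha
  refine ⟨EXT1A.psi a, m + 1, Nat.le_add_left 1 m, EXT1A.psi_rk hB a m hm, ?_,
    fun u y hu hy => EXT1A.psi_chart hB a hu hy, EXT1A.relS hB a, EXT1A.relT hB a hr⟩
  intro v w h
  rw [EXT1A.psi, if_neg h]

end Pool.Agent.MP_5f72fe_nt.MS
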