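import Pool.Agent.MP_5f72fe_nt.MS.S2

/-! Row EXT (second copy): from the chart to symbols. -/

namespace Pool.Agent.MP_5f72fe_nt.MS

namespace EXT2A

theorem ap_mul (g h : Mt) (v : V) : ap (mul g h) v = ap g (ap h v) := by
  simp only [ap, mul]
  push_cast
  refine Prod.ext ?_ ?_ <;> simp only <;> ring

theorem ap_smul (g : Mt) (l : ℚ) (v : V) : ap g (l • v) = l • ap g v := by
  simp only [ap, Prod.smul_mk, Prod.smul_fst, Prod.smul_snd, smul_eq_mul]
  refine Prod.ext ?_ ?_ <;> simp only <;> ring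

theorem ap_add (g : Mt) (v w : V) : ap g (v + w) = ap g v + ap g w := by
  simp only [ap, Prod.mk_add_mk, Prod.fst_add, Prod.snd_add]
  refine Prod.ext ?_ ?_ <;> simp only <;> ring

theorem ap_zero (g : Mt) : ap g 0 = 0 := by
  simp [ap]

theorem ap_one (v : V) : ap mI v = v := by
  simp [ap, mI]

theorem adj_mul (g h : Mt) : adj (mul g h) = mul (adj h) (adj g) := by
  simp only [adj, mul]
  refine Prod.ext ?_ (Prod.ext ?_ (Prod.ext ?_ ?_)) <;> simp only <;> ring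

theorem det_mul (g h : Mt) : det (mul g h) = det g * det h := by
  simp only [det, mul]
  ring

theorem det_adj (g : Mt) : det (adj g) = det g := by
  simp only [det, adj]
  ring

theorem ap_adj (g : Mt) (v : V) : ap (adj g) (ap g v) = (det g : ℚ) • v := by
  simp only [ap, adj, det]
  push_cast
  refine Prod.ext ?_ ?_ <;> simp only [Prod.smul_fst, Prod.smul_snd, smul_eq_mul] <;> ring

theorem dt_ap (g : Mt) (v w : V) : dt (ap g v) (ap g w) = det g * dt v w := by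
  simp only [ap, dt, det]
  push_cast
  ring

theorem dt_smul (s t : ℚ) (v w : V) : dt (s • v) (t • w) = s * t * dt v w := by
  simp only [dt, Prod.smul_fst, Prod.smul_snd, smul_eq_mul]
  ring

theorem ap_ne {g : Mt} (hg : det g ≠ 0) {c : V} (hc : c ≠ 0) : ap g c ≠ 0 := by
  intro h
  have := ap_adj g c
  rw [h, ap_zero] at this
  exact hc ((smul_eq_zero.1 this.symm).resolve_left (by exact_mod_cast hg))

theorem ne3 {g : Mt} {a : ℕ} (hg : det g = 3 ^ a) : det g ≠ 0 := by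
  rw [hg]; positivity

theorem ad_scale {B : Type} [AddCommGroup B] {f : V → V → B} (h : Ad f) {c c' : V} (hc : c ≠ 0)
    (hc' : c' ≠ 0) {l : ℚ} (hl : l ≠ 0) : f (l • c) (l • c') = f c c' := by
  have h1 := h.add c (l • c) (l • c') hc (smul_ne_zero hl hc) (smul_ne_zero hl hc')
  have h2 := h.add c c' (l • c') hc hc' (smul_ne_zero hl hc')
  rw [h.hom c l hc hl, zero_add] at h1
  rw [h.hom c' l hc' hl, add_zero] at h2
  rw [h1, h2]

section bas
variable (h : RowBAS)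
include h

theorem inAdd {x y : ℚ} (hx : In x) (hy : In y) : In (x + y) := by
  obtain ⟨O, hO⟩ := h.ring
  exact (hO _).1 (O.add_mem ((hO _).2 hx) ((hO _).2 hy))

theorem inSub {x y : ℚ} (hx : In x) (hy : In y) : In (x - y) := by
  obtain ⟨O, hO⟩ := h.ring
  exact (hO _).1 (O.sub_mem ((hO _).2 hx) ((hO _).2 hy))

theorem inMul {x y : ℚ} (hx : In x) (hy : In y) : In (x * y) := by
  obtain ⟨O, hO⟩ := h.ring
  exact (hO _).1 (O.mul_mem ((hO _).2 hx) ((hO _).2 hy))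

omit h in
theorem inPow (n : ℕ) : In (3 ^ n) := by
  have : ((3 : ℚ) ^ n) = ((3 ^ n : ℕ) : ℚ) := by push_cast; rfl
  rw [this, In, Rat.den_natCast]
  decide

theorem not_in (s : ℤ) (hs : s < 0) : ¬ In ((3 : ℚ) ^ s) := by
  intro h1
  obtain ⟨k, hk⟩ : ∃ k : ℕ, s = -((k : ℤ) + 1) := ⟨(-s - 1).toNat, by omega⟩
  have h2 := inMul h h1 (inPow k)
  have e : (3 : ℚ) ^ s * 3 ^ k = ((1 : ℤ) : ℚ) / 3 := by
    rw [hk, zpow_neg, zpow_add₀ (by norm_num), zpow_natCast]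
    field_simp
    norm_num
  rw [e] at h2
  have := (h.int 1).1.1 h2
  omega

theorem un_pow (s : ℤ) (hs : Un ((3 : ℚ) ^ s)) : s = 0 := by
  obtain ⟨-, h1, h2⟩ := (h.un' _).1 hs
  rw [← zpow_neg] at h2
  by_contra hne
  rcases lt_or_gt_of_ne hne with h3 | h3
  · exact not_in h s h3 h1
  · exact not_in h (-s) (by omega) h2

theorem int_of (z n : ℤ) (hi : In ((3 : ℚ) ^ z * n)) : ∃ m : ℤ, (3 : ℚ) ^ z * n = m := by
  obtain ⟨k, hk⟩ : ∃ k : ℕ, (z.natAbs : ℤ) + z = k := ⟨((z.natAbs : ℤ) + z).toNat, by omega⟩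
  refine h.zint _ z.natAbs (3 ^ k * n) hi ?_
  rw [← mul_assoc, ← zpow_natCast, ← zpow_add₀ (by norm_num), hk, zpow_natCast]
  push_cast
  rfl

theorem gamma (k : Mt) (b : ℕ) (z : ℤ) (hk : det k = 3 ^ b) {x y : V} (h1 : X1 x y)
    (h2 : X1 ((3 : ℚ) ^ z • ap k x) ((3 : ℚ) ^ z • ap k y)) :
    ∃ γ : Mt, det γ = 1 ∧ ∀ v, ap γ v = (3 : ℚ) ^ z • ap k v := by
  obtain ⟨x1, x2, y1, y2, hu⟩ := h1
  obtain ⟨x1', x2', y1', y2', hu'⟩ := h2
  have hd : dt x y ≠ 0 := ((h.un' _).1 hu).1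
  simp only [ap, Prod.smul_mk, smul_eq_mul] at x1' x2' y1' y2'
  have ent : ∀ (n : ℤ) (p : ℚ), In p → (3 : ℚ) ^ z * n * dt x y = p →
      ∃ m : ℤ, (3 : ℚ) ^ z * n = m := by
    intro n p hp e
    refine int_of h z n ?_
    rw [eq_div_of_mul_eq hd e]
    exact h.div _ _ hp hu
  obtain ⟨m1, e1⟩ := ent k.1 _ (inSub h (inMul h x1' y2) (inMul h y1' x2))
    (by simp only [dt]; ring)
  obtain ⟨m2, e2⟩ := ent k.2.1 _ (inSub h (inMul h y1' x1) (inMul h x1' y1))
    (by simp only [dt]; ring)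
  obtain ⟨m3, e3⟩ := ent k.2.2.1 _ (inSub h (inMul h x2' y2) (inMul h y2' x2))
    (by simp only [dt]; ring)
  obtain ⟨m4, e4⟩ := ent k.2.2.2 _ (inSub h (inMul h y2' x1) (inMul h x2' y1))
    (by simp only [dt]; ring)
  refine ⟨(m1, m2, m3, m4), ?_, fun v => ?_⟩
  · have e : ((det (m1, m2, m3, m4) : ℤ) : ℚ) = (3 : ℚ) ^ (z + z + b) := by
      have hk' : ((det k : ℤ) : ℚ) = 3 ^ b := by rw [hk]; push_cast; rfl
      rw [zpow_add₀ (by norm_num), zpow_add₀ (by norm_num), zpow_natCast, ← hk']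
      simp only [det]
      push_cast
      rw [← e1, ← e2, ← e3, ← e4]
      ring
    have hq := (h.unMul _ _ hu' hu).2.1
    rw [dt_smul, dt_ap, hk, ← mul_assoc, mul_div_cancel_right₀ _ hd] at hq
    have e' : (3 : ℚ) ^ z * 3 ^ z * ((3 ^ b : ℤ) : ℚ) = (3 : ℚ) ^ (z + z + b) := by
      rw [zpow_add₀ (by norm_num), zpow_add₀ (by norm_num), zpow_natCast]
      push_cast
      rfl
    rw [e'] at hq
    rw [un_pow h _ hq, zpow_zero] at e
    exact_mod_cast e
  · simp only [ap, Prod.smul_mk, smul_eq_mul]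
    rw [← e1, ← e2, ← e3, ← e4]
    refine Prod.ext ?_ ?_ <;> simp only <;> ring

theorem x1_rk {v w : V} (hx : X1 v w) {n : ℕ} (hn : 1 ≤ n) {x y b c : ℚ} (ux : Un x) (uy : Un y)
    (ib : In b) (ic : In c) : X1 (x • v + (3 ^ n * b) • w) (y • w + (3 ^ n * c) • v) := by
  obtain ⟨x1, x2, y1, y2, hu⟩ := hx
  have hb := inMul h (inPow n) ib
  have hc := inMul h (inPow n) ic
  refine ⟨inAdd h (inMul h ux.1 x1) (inMul h hb y1), inAdd h (inMul h ux.1 x2) (inMul h hb y2),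
    inAdd h (inMul h uy.1 y1) (inMul h hc x1), inAdd h (inMul h uy.1 y2) (inMul h hc x2), ?_⟩
  obtain ⟨k, rfl⟩ : ∃ k, n = k + 1 := ⟨n - 1, by omega⟩
  have e : dt (x • v + (3 ^ (k + 1) * b) • w) (y • w + (3 ^ (k + 1) * c) • v) =
      (x * y + 3 * (0 - 3 ^ k * b * (3 ^ (k + 1) * c))) * dt v w := by
    simp only [dt, Prod.fst_add, Prod.snd_add, Prod.smul_fst, Prod.smul_snd, smul_eq_mul]
    ring
  rw [e]
  exact (h.unMul _ _ (h.unAdd _ _ (h.unMul _ _ ux uy).1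
    (inSub h (by simp [In]) (inMul h (inMul h (inPow k) ib) hc))) hu).1

theorem dt_rk {v w : V} (hd : dt v w = 0) (x y b c : ℚ) :
    dt (x • v + b • w) (y • w + c • v) = 0 := by
  have e : dt (x • v + b • w) (y • w + c • v) = (x * y - b * c) * dt v w := by
    simp only [dt, Prod.fst_add, Prod.snd_add, Prod.smul_fst, Prod.smul_snd, smul_eq_mul]
    ring
  have _ := h
  rw [e, hd, mul_zero]

end bas

/-- the matrix moves the pair to a basis of the standard lattice -/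
def Gd (p : Mt × ℤ) (v w : V) : Prop :=
  (∃ a : ℕ, det p.1 = 3 ^ a) ∧ X1 ((3 : ℚ) ^ p.2 • ap p.1 v) ((3 : ℚ) ^ p.2 • ap p.1 w)

theorem gd_ex (h : RowBAS) (hs : RowSA) {v w : V} (hd : dt v w ≠ 0) : ∃ p, Gd p v w := by
  obtain ⟨g, a, m, x, y, b, c, hg, ux, uy, ib, ic, ev, ew⟩ := hs 1 v w hd
  have key : ∀ u u' : V, (3 ^ m : ℚ) • u = ap g u' →
      (3 : ℚ) ^ ((m : ℤ) - a) • ap (adj g) u = u' := by
    intro u u' e
    have h1 := ap_adj g u'
    rw [← e, ap_smul, hg] at h1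
    have h2 : (3 : ℚ) ^ ((m : ℤ) - a) = ((3 : ℚ) ^ a)⁻¹ * 3 ^ m := by
      rw [zpow_sub₀ (by norm_num), zpow_natCast, zpow_natCast]
      field_simp
    rw [h2, mul_smul, h1, smul_smul]
    push_cast
    rw [inv_mul_cancel₀ (by positivity), one_smul]
  refine ⟨(adj g, (m : ℤ) - a), ⟨a, by rw [det_adj, hg]⟩, ?_⟩
  simp only
  rw [key _ _ ev, key _ _ ew]
  have hb := inMul h (inPow 1) ib
  have hc := inMul h (inPow 1) ic
  refine ⟨hb, ux.1, uy.1, hc, ?_⟩
  have e : dt (3 ^ 1 * b, x) (y, 3 ^ 1 * c) = -(x * y) + 3 * (b * (3 ^ 1 * c)) := by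
    simp only [dt]
    ring
  rw [e]
  have u := (h.unMul _ _ ux uy).1
  exact h.unAdd _ _ (h.unMul _ _ u u).2.2.2 (inMul h ib hc)

theorem gd_dt (h : RowBAS) {p : Mt × ℤ} {v w : V} (hp : Gd p v w) : dt v w ≠ 0 := by
  intro h0
  have := ((h.un' _).1 hp.2.2.2.2.2).1
  rw [dt_smul, dt_ap, h0] at this
  simp at this

variable {A : Type} [AddCommGroup A]

/-- the value computed with a given matrix -/
def val (f : V → V → V → V → A) (p : Mt × ℤ) (c c' v w : V) : A :=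
  f (ap p.1 c) (ap p.1 c') ((3 : ℚ) ^ p.2 • ap p.1 v) ((3 : ℚ) ^ p.2 • ap p.1 w)

theorem val_eq (h : RowBAS) {f : V → V → V → V → A} (hf : Ad f)
    (hi : ∀ γ : Mt, det γ = 1 → ∀ c c' : V, c ≠ 0 → c' ≠ 0 → ∀ v w,
      f (ap γ c) (ap γ c') (ap γ v) (ap γ w) = f c c' v w)
    {p p' : Mt × ℤ} {c c' v w : V} (hc : c ≠ 0) (hc' : c' ≠ 0) (hp : Gd p v w) (hp' : Gd p' v w) :
    val f p' c c' v w = val f p c c' v w := by
  obtain ⟨⟨a, ha⟩, hx⟩ := hp
  obtain ⟨⟨a', ha'⟩, hx'⟩ := hp'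
  have key : ∀ u : V, (3 : ℚ) ^ (p'.2 - p.2 - a) • ap (mul p'.1 (adj p.1)) (ap p.1 u) =
      (3 : ℚ) ^ (p'.2 - p.2) • ap p'.1 u := by
    intro u
    rw [ap_mul, ap_adj, ap_smul, smul_smul, ha]
    congr 1
    push_cast
    rw [← zpow_natCast, ← zpow_add₀ (by norm_num), sub_add_cancel]
  have key' : ∀ u : V, (3 : ℚ) ^ (p'.2 - p.2 - a) •
      ap (mul p'.1 (adj p.1)) ((3 : ℚ) ^ p.2 • ap p.1 u) = (3 : ℚ) ^ p'.2 • ap p'.1 u := by
    intro u
    rw [ap_smul, smul_comm, key, smul_smul, ← zpow_add₀ (by norm_num), add_sub_cancel]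
  obtain ⟨γ, hγ, eγ⟩ := gamma h (mul p'.1 (adj p.1)) (a' + a) (p'.2 - p.2 - a)
    (by rw [det_mul, det_adj, ha, ha', pow_add]) hx (by rw [key', key']; exact hx')
  unfold val
  rw [← hi γ hγ _ _ (ap_ne (ne3 ha) hc) (ap_ne (ne3 ha) hc'), eγ, eγ, eγ, eγ, key, key, key', key',
    ad_scale hf (ap_ne (ne3 ha') hc) (ap_ne (ne3 ha') hc') (zpow_ne_zero _ (by norm_num))]

open Classical in
/-- the symbol -/
noncomputable def phi (f : V → V → V → V → A) : Sb A := fun c c' v w =>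
  if hh : c ≠ 0 ∧ c' ≠ 0 ∧ ∃ p, Gd p v w then val f hh.2.2.choose c c' v w else 0

end EXT2A

open EXT2A in
theorem rowEXT2 : OfEXT := by
  intro h hs hI hM hE A _ a hlc hr
  obtain ⟨ψ, n, hn, hrk, -, hch, hS, hT⟩ := hE A a hlc hr
  obtain ⟨f, hf, hμ⟩ := hM (V → V → A) (fun g v w => ψ (ap (adj g) v) (ap (adj g) w))
    (fun g _ => by
      funext v w
      simp only [Pi.add_apply, adj_mul, ap_mul, Pi.zero_apply]
      exact hS _ _)
    (fun g _ => by
      funext v w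
      simp only [Pi.add_apply, adj_mul, ap_mul]
      exact hT _ _)
  have hi : ∀ γ : Mt, det γ = 1 → ∀ c c' : V, c ≠ 0 → c' ≠ 0 → ∀ v w,
      f (ap γ c) (ap γ c') (ap γ v) (ap γ w) = f c c' v w := by
    intro γ hγ c c' hc hc' v w
    have hγ0 : det γ ≠ 0 := by rw [hγ]; norm_num
    have := hI A (fun c c' => f (ap γ c) (ap γ c') (ap γ v) (ap γ w) - f c c' v w) ⊥
      ⟨fun c l hc hl => by
        simp only [ap_smul, hf.hom _ l (ap_ne hγ0 hc) hl, hf.hom _ l hc hl, Pi.zero_apply, sub_self],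
      fun c c' c'' hc hc' hc'' => by
        simp only [← hf.add _ _ _ (ap_ne hγ0 hc) (ap_ne hγ0 hc') (ap_ne hγ0 hc''),
          ← hf.add _ _ _ hc hc' hc'', Pi.add_apply]
        abel⟩
      (fun g hg => by
        rw [AddSubgroup.mem_bot, ← ap_mul, ← ap_mul, hμ _ (by rw [det_mul, hγ, hg, mul_one]),
          hμ g hg]
        simp only [adj_mul, ap_mul, ap_adj, hγ, Int.cast_one, one_smul, sub_self]) c c' hc hc'
    exact sub_eq_zero.1 (AddSubgroup.mem_bot.1 this)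
  have hR : ∀ c c' : V, c ≠ 0 → c' ≠ 0 → RK n (f c c') := by
    let P : AddSubgroup (V → V → A) :=
      { carrier := {F | RK n F}
        add_mem' := fun {F G} hF hG v w x y b c ux uy ib ic => by
          simp only [Pi.add_apply, hF v w x y b c ux uy ib ic, hG v w x y b c ux uy ib ic]
        zero_mem' := fun _ _ _ _ _ _ _ _ _ _ => rfl
        neg_mem' := fun {F} hF v w x y b c ux uy ib ic => by
          simp only [Pi.neg_apply, hF v w x y b c ux uy ib ic] }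
    refine hI _ f P hf fun g hg => ?_
    rw [hμ g hg]
    intro v w x y b c ux uy ib ic
    simp only [ap_add, ap_smul]
    exact hrk _ _ x y b c ux uy ib ic
  have hφ : ∀ (p : Mt × ℤ) (c c' v w : V), c ≠ 0 → c' ≠ 0 → Gd p v w →
      phi f c c' v w = val f p c c' v w := by
    intro p c c' v w hc hc' hp
    have hh : c ≠ 0 ∧ c' ≠ 0 ∧ ∃ p, Gd p v w := ⟨hc, hc', p, hp⟩
    unfold phi
    rw [dif_pos hh]
    exact val_eq h hf hi hc hc' hp hh.2.2.choose_spec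
  have hj : ∀ c c' v w : V, c = 0 ∨ c' = 0 ∨ dt v w = 0 → phi f c c' v w = 0 := by
    intro c c' v w h0
    unfold phi
    rw [dif_neg]
    rintro ⟨h1, h2, p, hp⟩
    rcases h0 with h0 | h0 | h0
    · exact h1 h0
    · exact h2 h0
    · exact gd_dt h hp h0
  have hRφ : ∀ c c', RK n (phi f c c') := by
    intro c c' v w x y b d ux uy ib id
    by_cases h0 : c = 0 ∨ c' = 0 ∨ dt v w = 0
    · rw [hj _ _ _ _ h0, hj]
      exact h0.imp_right (Or.imp_right fun h1 => dt_rk h h1 _ _ _ _)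
    · push Not at h0
      obtain ⟨hc, hc', hd⟩ := h0
      obtain ⟨p, hp⟩ := gd_ex h hs hd
      obtain ⟨a', ha'⟩ := hp.1
      have e : ∀ (s t : ℚ) (u u' : V), (3 : ℚ) ^ p.2 • ap p.1 (s • u + t • u') =
          s • ((3 : ℚ) ^ p.2 • ap p.1 u) + t • ((3 : ℚ) ^ p.2 • ap p.1 u') := by
        intro s t u u'
        rw [ap_add, ap_smul, ap_smul, smul_add, smul_comm _ s, smul_comm _ t]
      have hp' : Gd p (x • v + (3 ^ n * b) • w) (y • w + (3 ^ n * d) • v) :=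
        ⟨hp.1, by rw [e, e]; exact x1_rk h hp.2 hn ux uy ib id⟩
      rw [hφ p _ _ _ _ hc hc' hp', hφ p _ _ _ _ hc hc' hp]
      unfold val
      rw [e, e]
      exact hR _ _ (ap_ne (ne3 ha') hc) (ap_ne (ne3 ha') hc') _ _ x y b d ux uy ib id
  refine ⟨phi f, ⟨⟨hj, fun v w => ?_, fun g b hg => ?_, fun c c' v w x y ux uy => ?_⟩, n, hn, hRφ⟩,
    fun u y hu hy => ?_⟩
  · by_cases hd : dt v w = 0
    · exact ⟨fun c l _ _ => hj _ _ _ _ (Or.inr (Or.inr hd)), fun c c' c'' _ _ _ => by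
        simp only [hj _ _ _ _ (Or.inr (Or.inr hd)), add_zero]⟩
    · obtain ⟨p, hp⟩ := gd_ex h hs hd
      obtain ⟨a', ha'⟩ := hp.1
      refine ⟨fun c l hc hl => ?_, fun c c' c'' hc hc' hc'' => ?_⟩
      · rw [hφ p _ _ _ _ hc (smul_ne_zero hl hc) hp]
        unfold val
        rw [ap_smul, hf.hom _ l (ap_ne (ne3 ha') hc) hl]
        rfl
      · rw [hφ p _ _ _ _ hc hc' hp, hφ p _ _ _ _ hc' hc'' hp, hφ p _ _ _ _ hc hc'' hp]
        unfold val
        rw [← hf.add _ _ _ (ap_ne (ne3 ha') hc) (ap_ne (ne3 ha') hc') (ap_ne (ne3 ha') hc'')]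
        rfl
  · funext c c' v w
    show phi f (ap g c) (ap g c') (ap g v) (ap g w) = phi f c c' v w
    by_cases h0 : c = 0 ∨ c' = 0 ∨ dt v w = 0
    · rw [hj _ _ _ _ h0, hj]
      rcases h0 with h0 | h0 | h0
      · exact Or.inl (by rw [h0, ap_zero])
      · exact Or.inr (Or.inl (by rw [h0, ap_zero]))
      · exact Or.inr (Or.inr (by rw [dt_ap, h0, mul_zero]))
    · push Not at h0
      obtain ⟨hc, hc', hd⟩ := h0
      have hd' : dt (ap g v) (ap g w) ≠ 0 := by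
        rw [dt_ap]
        exact mul_ne_zero (by exact_mod_cast ne3 hg) hd
      obtain ⟨p, hp⟩ := gd_ex h hs hd'
      obtain ⟨a', ha'⟩ := hp.1
      have hp' : Gd (mul p.1 g, p.2) v w :=
        ⟨⟨a' + b, by rw [det_mul, ha', hg, pow_add]⟩, by simpa only [ap_mul] using hp.2⟩
      rw [hφ p _ _ _ _ (ap_ne (ne3 hg) hc) (ap_ne (ne3 hg) hc') hp, hφ _ _ _ _ _ hc hc' hp']
      simp only [val, ap_mul]
  · have := hRφ c c' v w x y 0 0 ux uy (by simp [In]) (by simp [In])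
    simpa using this
  · have hp : Gd (mI, 0) (u, 1) (1, 3 * y) := by
      refine ⟨⟨0, by decide⟩, ?_⟩
      simp only [zpow_zero, one_smul, ap_one]
      have h3 : In (3 * y) := by simpa using inMul h (inPow 1) hy
      have u1 : Un (-1) := by simp [Un, In]
      refine ⟨hu, by simp [In], by simp [In], h3, ?_⟩
      have e : dt (u, 1) (1, 3 * y) = -1 + 3 * (u * y) := by
        simp only [dt]
        ring
      rw [e]
      exact h.unAdd _ _ u1 (inMul h hu hy)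
    show phi f e1 e2 (u, 1) (1, 3 * y) = a u y
    rw [hφ _ _ _ _ _ (by simp [e1]) (by simp [e2]) hp]
    unfold val
    rw [hμ mI (by decide)]
    have e : adj mI = mI := by decide
    simp only [zpow_zero, one_smul, e, ap_one]
    exact hch u y hu hy

end Pool.Agent.MP_5f72fe_nt.MS
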