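import Pool.Agent.MP_5f72fe_nt.MS.S3

/-! From classical forms to automorphic forms. -/

namespace Pool.Agent.MP_5f72fe_nt.MS

noncomputable section

namespace FORMA

theorem in_add (B : RowBAS) {x y : ℚ} (hx : In x) (hy : In y) : In (x + y) := by
  obtain ⟨O, hO⟩ := B.ring
  exact (hO _).1 (O.add_mem ((hO _).2 hx) ((hO _).2 hy))

theorem in_sub (B : RowBAS) {x y : ℚ} (hx : In x) (hy : In y) : In (x - y) := by
  obtain ⟨O, hO⟩ := B.ring
  exact (hO _).1 (O.sub_mem ((hO _).2 hx) ((hO _).2 hy))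

theorem in_mul (B : RowBAS) {x y : ℚ} (hx : In x) (hy : In y) : In (x * y) := by
  obtain ⟨O, hO⟩ := B.ring
  exact (hO _).1 (O.mul_mem ((hO _).2 hx) ((hO _).2 hy))

theorem in_neg (B : RowBAS) {x : ℚ} (hx : In x) : In (-x) := by
  obtain ⟨O, hO⟩ := B.ring
  exact (hO _).1 (O.neg_mem ((hO _).2 hx))

theorem in_pow3 (B : RowBAS) (n : ℕ) : In ((3 : ℚ) ^ n) := by
  obtain ⟨O, hO⟩ := B.ring
  have h3 : (3 : ℚ) ∈ O := by exact_mod_cast natCast_mem O 3
  exact (hO _).1 (O.pow_mem h3 n)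

theorem in_zero : In 0 := by simp [In]

theorem un_one : Un 1 := by
  refine ⟨by simp [In], ?_⟩
  simp

theorem un_ne (B : RowBAS) {x : ℚ} (hx : Un x) : x ≠ 0 := ((B.un' x).1 hx).1

theorem un_add (B : RowBAS) {r : ℕ} (hr : 1 ≤ r) {x y : ℚ} (hx : Un x) (hy : In y) :
    Un (x + 3 ^ r * y) := by
  obtain ⟨s, rfl⟩ : ∃ s, r = s + 1 := ⟨r - 1, by omega⟩
  have h := B.unAdd x (3 ^ s * y) hx (in_mul B (in_pow3 B s) hy)
  have e : x + 3 ^ (s + 1) * y = x + 3 * (3 ^ s * y) := by ring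
  rw [e]; exact h

theorem pow_le (B : RowBAS) {i j : ℕ} {x y : ℚ} (hx : Un x) (hy : In y)
    (h : 3 ^ i * x = 3 ^ j * y) : j ≤ i := by
  by_contra hc
  obtain ⟨s, rfl⟩ : ∃ s, j = i + (s + 1) := ⟨j - i - 1, by omega⟩
  have h3 : (3 : ℚ) ^ i ≠ 0 := by positivity
  have e : x / 3 = 3 ^ s * y := by
    have : 3 ^ i * x = 3 ^ i * (3 * (3 ^ s * y)) := by rw [h]; ring
    have h2 := mul_left_cancel₀ h3 this
    rw [h2]; ring
  exact ((B.un x).1 hx).2 (by rw [e]; exact in_mul B (in_pow3 B s) hy)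

/-- the scalar matrix -/
def sc (a : ℤ) : Mt := (a, 0, 0, a)

theorem key (B : RowBAS) {r : ℕ} (hr : 1 ≤ r) (M : Mt) (i j e : ℕ) (hM : det M = 3 ^ e)
    {x y b c x' y' b' c' : ℚ} (hx : Un x) (hy : Un y) (hb : In b) (hc : In c)
    (hx' : Un x') (hy' : Un y') (hb' : In b') (hc' : In c')
    (h1 : (3 ^ i : ℚ) • ap M (b, x) = (3 ^ j : ℚ) • ((b', x') : V))
    (h2 : (3 ^ i : ℚ) • ap M (y, 3 ^ r * c) = (3 ^ j : ℚ) • ((y', 3 ^ r * c') : V)) :
    ∃ (t : ℕ) (γ : Mt), det γ = 1 ∧ 3 ^ r ∣ γ.2.2.1 ∧ M = mul (sc (3 ^ t)) γ := by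
  obtain ⟨p, q, s, u⟩ := M
  simp only [ap, Prod.smul_mk, smul_eq_mul, Prod.mk.injEq] at h1 h2
  obtain ⟨a1, a2⟩ := h1
  obtain ⟨a3, a4⟩ := h2
  simp only [det] at hM
  have hMq : (p : ℚ) * u - q * s = 3 ^ e := by exact_mod_cast hM
  have hd : Un (x * y + 3 ^ r * (-(b * c))) :=
    un_add B hr (B.unMul x y hx hy).1 (in_neg B (in_mul B hb hc))
  have hd' : Un (x' * y' + 3 ^ r * (-(b' * c'))) :=
    un_add B hr (B.unMul x' y' hx' hy').1 (in_neg B (in_mul B hb' hc'))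
  set d := x * y + 3 ^ r * (-(b * c)) with hdd
  set d' := x' * y' + 3 ^ r * (-(b' * c')) with hdd'
  have hdet : (3 : ℚ) ^ (2 * i + e) * d = 3 ^ (2 * j) * d' := by
    have e1 : (3 : ℚ) ^ (2 * i + e) * d =
        (3 ^ i * (p * y + q * (3 ^ r * c))) * (3 ^ i * (s * b + u * x)) -
          (3 ^ i * (p * b + q * x)) * (3 ^ i * (s * y + u * (3 ^ r * c))) := by
      rw [pow_add, ← hMq, hdd]; ring
    rw [e1, a1, a2, a3, a4, hdd']; ring
  have l1 := pow_le B hd hd'.1 hdet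
  have l2 := pow_le B hd' hd.1 hdet.symm
  obtain ⟨t, rfl⟩ : ∃ t, j = i + t := ⟨j - i, by omega⟩
  have het : e = 2 * t := by omega
  have h3 : (3 : ℚ) ^ i ≠ 0 := by positivity
  have b1 : p * b + q * x = 3 ^ t * b' := mul_left_cancel₀ h3 (by rw [a1]; ring)
  have b2 : s * b + u * x = 3 ^ t * x' := mul_left_cancel₀ h3 (by rw [a2]; ring)
  have b3 : p * y + q * (3 ^ r * c) = 3 ^ t * y' := mul_left_cancel₀ h3 (by rw [a3]; ring)
  have b4 : s * y + u * (3 ^ r * c) = 3 ^ t * (3 ^ r * c') :=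
    mul_left_cancel₀ h3 (by rw [a4]; ring)
  have hd0 : d ≠ 0 := un_ne B hd
  have i3 := in_pow3 B r
  obtain ⟨p', hp'⟩ := B.zint ((y' * x - b' * (3 ^ r * c)) / d) t p
    (B.div _ _ (in_sub B (in_mul B hy'.1 hx.1) (in_mul B hb' (in_mul B i3 hc))) hd) (by
      rw [← mul_div_assoc, div_eq_iff hd0, hdd]
      linear_combination (-x) * b3 + (3 ^ r * c) * b1)
  obtain ⟨q', hq'⟩ := B.zint ((b' * y - y' * b) / d) t q
    (B.div _ _ (in_sub B (in_mul B hb' hy.1) (in_mul B hy'.1 hb)) hd) (by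
      rw [← mul_div_assoc, div_eq_iff hd0, hdd]
      linear_combination b * b3 - y * b1)
  obtain ⟨s', hs'⟩ := B.zint ((c' * x - x' * c) / d) (t + r) s
    (B.div _ _ (in_sub B (in_mul B hc' hx.1) (in_mul B hx'.1 hc)) hd) (by
      rw [← mul_div_assoc, div_eq_iff hd0, hdd, pow_add]
      linear_combination (-x) * b4 + (3 ^ r * c) * b2)
  obtain ⟨u', hu'⟩ := B.zint ((x' * y - 3 ^ r * c' * b) / d) t u
    (B.div _ _ (in_sub B (in_mul B hx'.1 hy.1) (in_mul B (in_mul B i3 hc') hb)) hd) (by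
      rw [← mul_div_assoc, div_eq_iff hd0, hdd]
      linear_combination b * b4 - y * b2)
  rw [div_eq_iff hd0] at hp' hq' hs' hu'
  have ep : p = 3 ^ t * p' := by
    have : (p : ℚ) = 3 ^ t * p' := mul_right_cancel₀ hd0 (by
      rw [mul_assoc, ← hp', hdd]
      linear_combination x * b3 - (3 ^ r * c) * b1)
    exact_mod_cast this
  have eq : q = 3 ^ t * q' := by
    have : (q : ℚ) = 3 ^ t * q' := mul_right_cancel₀ hd0 (by
      rw [mul_assoc, ← hq', hdd]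
      linear_combination (-b) * b3 + y * b1)
    exact_mod_cast this
  have es : s = 3 ^ t * (3 ^ r * s') := by
    have : (s : ℚ) = 3 ^ t * (3 ^ r * s') := mul_right_cancel₀ hd0 (by
      rw [mul_assoc, mul_assoc, ← hs', hdd]
      linear_combination x * b4 - (3 ^ r * c) * b2)
    exact_mod_cast this
  have eu : u = 3 ^ t * u' := by
    have : (u : ℚ) = 3 ^ t * u' := mul_right_cancel₀ hd0 (by
      rw [mul_assoc, ← hu', hdd]
      linear_combination (-b) * b4 + y * b2)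
    exact_mod_cast this
  refine ⟨t, (p', q', 3 ^ r * s', u'), ?_, Dvd.intro _ rfl, ?_⟩
  · have h9 : (3 : ℤ) ^ (2 * t) ≠ 0 := by positivity
    apply mul_left_cancel₀ h9
    rw [het, ep, eq, es, eu] at hM
    simp only [det]
    linear_combination hM
  · simp only [mul, sc, Prod.mk.injEq]
    refine ⟨?_, ?_, ?_, ?_⟩
    · rw [ep]; ring
    · rw [eq]; ring
    · rw [es]; ring
    · rw [eu]; ring

/-- admissible data -/
def Da (r : ℕ) (v w : V) (g : Mt) : Prop :=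
  ∃ (a m : ℕ) (x y b c : ℚ), det g = 3 ^ a ∧ Un x ∧ Un y ∧ In b ∧ In c ∧
    (3 ^ m : ℚ) • v = ap g (b, x) ∧ (3 ^ m : ℚ) • w = ap g (y, 3 ^ r * c)

theorem da_ex (B : RowBAS) (S : RowSA) (r : ℕ) (v w : V) (h : dt v w ≠ 0) : ∃ g, Da r v w g := by
  obtain ⟨g, a, m, x, y, b, c, h1, h2, h3, h4, h5, h6, h7⟩ := S r v w h
  exact ⟨g, a, m, x, y, 3 ^ r * b, c, h1, h2, h3, in_mul B (in_pow3 B r) h4, h5, h6, h7⟩

theorem det_mul (g h : Mt) : det (mul g h) = det g * det h := by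
  simp only [det, mul]; ring

theorem det_adj (g : Mt) : det (adj g) = det g := by
  simp only [det, adj]; ring

theorem det_sc (a : ℤ) : det (sc a) = a * a := by
  simp [det, sc]

theorem ap_mul (g h : Mt) (v : V) : ap (mul g h) v = ap g (ap h v) := by
  simp only [ap, mul, Prod.mk.injEq]
  constructor <;> push_cast <;> ring

theorem ap_smul (g : Mt) (l : ℚ) (v : V) : ap g (l • v) = l • ap g v := by
  simp only [ap, Prod.smul_mk, Prod.smul_fst, Prod.smul_snd, smul_eq_mul, Prod.mk.injEq]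
  constructor <;> ring

theorem ap_adj (g : Mt) (v : V) : ap (adj g) (ap g v) = (det g : ℚ) • v := by
  obtain ⟨v1, v2⟩ := v
  simp only [ap, adj, det, Prod.smul_mk, smul_eq_mul, Prod.mk.injEq]
  constructor <;> push_cast <;> ring

theorem dt_ap (g : Mt) (v w : V) : dt (ap g v) (ap g w) = det g * dt v w := by
  simp only [ap, dt, det]
  push_cast; ring

theorem sl_sc (C : RowCU) {k : ℕ} {h : ℂ → ℂ} (hh : Cu k h) (t : ℕ) (g : Mt) (hg : 0 < det g) :
    sl k (mul (sc (3 ^ t)) g) h = sl k g h := by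
  rw [C.comp k _ _ h (by rw [det_sc]; positivity) hg]
  have := C.sc k (3 ^ t) h (by positivity) hh
  rw [sc, this]

theorem uniq (B : RowBAS) (C : RowCU) {k r : ℕ} {h : ℂ → ℂ} (hr : 1 ≤ r) (hh : Cu k h)
    (hi : ∀ g : Mt, det g = 1 → 3 ^ r ∣ g.2.2.1 → sl k g h = h) {v w : V} {g g' : Mt}
    (d : Da r v w g) (d' : Da r v w g') : sl k (adj g) h = sl k (adj g') h := by
  obtain ⟨a, m, x, y, b, c, h1, h2, h3, h4, h5, h6, h7⟩ := d
  obtain ⟨a', m', x', y', b', c', h1', h2', h3', h4', h5', h6', h7'⟩ := d'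
  have hq : ((det g' : ℤ) : ℚ) = 3 ^ a' := by rw [h1']; push_cast; ring
  have aux : ∀ (z : V) (p p' : V), (3 ^ m : ℚ) • z = ap g p → (3 ^ m' : ℚ) • z = ap g' p' →
      (3 ^ m' : ℚ) • ap (mul (adj g') g) p = (3 ^ (m + a') : ℚ) • p' := by
    intro z p p' e e'
    rw [ap_mul, ← e, ← ap_smul, smul_comm, e', ap_smul, ap_adj, hq, smul_smul, pow_add]
  obtain ⟨t, γ, g1, g2, g3⟩ := key B hr (mul (adj g') g) m' (m + a') (a' + a)
    (by rw [det_mul, det_adj, h1, h1', pow_add]) h2 h3 h4 h5 h2' h3' h4' h5'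
    (aux v _ _ h6 h6') (aux w _ _ h7 h7')
  have pg : 0 < det (adj g) := by rw [det_adj, h1]; positivity
  have pg' : 0 < det (adj g') := by rw [det_adj, h1']; positivity
  have e : mul (sc (3 ^ a)) (adj g') = mul (mul (sc (3 ^ t)) γ) (adj g) := by
    rw [← g3, ← h1]
    simp only [mul, sc, adj, det, Prod.mk.injEq]
    refine ⟨?_, ?_, ?_, ?_⟩ <;> ring
  rw [← sl_sc C hh a _ pg', e, C.comp k _ _ h (by rw [det_mul, det_sc, g1]; positivity) pg,
    sl_sc C hh t γ (by rw [g1]; exact one_pos), hi γ g1 g2]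

open Classical in
/-- the automorphic form -/
def FF (k r : ℕ) (h : ℂ → ℂ) : Af := fun v w =>
  if H : dt v w ≠ 0 ∧ ∃ g, Da r v w g then sl k (adj H.2.choose) h else 0

theorem ff_zero (k r : ℕ) (h : ℂ → ℂ) {v w : V} (H : dt v w = 0) : FF k r h v w = 0 := by
  unfold FF
  rw [dif_neg]
  exact fun K => K.1 H

theorem ff_eq (B : RowBAS) (C : RowCU) {k r : ℕ} {h : ℂ → ℂ} (hr : 1 ≤ r) (hh : Cu k h)
    (hi : ∀ g : Mt, det g = 1 → 3 ^ r ∣ g.2.2.1 → sl k g h = h) {v w : V} {g : Mt}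
    (H : dt v w ≠ 0) (d : Da r v w g) : FF k r h v w = sl k (adj g) h := by
  have K : dt v w ≠ 0 ∧ ∃ g, Da r v w g := ⟨H, g, d⟩
  unfold FF
  rw [dif_pos K]
  exact uniq B C hr hh hi K.2.choose_spec d

theorem ff_r0 (B : RowBAS) (S : RowSA) (C : RowCU) {k r : ℕ} {h : ℂ → ℂ} (hr : 1 ≤ r)
    (hh : Cu k h) (hi : ∀ g : Mt, det g = 1 → 3 ^ r ∣ g.2.2.1 → sl k g h = h) :
    R0 r (FF k r h) := by
  intro v w x0 y0 b0 c0 hx hy hb hc
  have e : dt (x0 • v + b0 • w) (y0 • w + (3 ^ r * c0) • v) =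
      (x0 * y0 + 3 ^ r * (-(b0 * c0))) * dt v w := by
    simp only [dt, Prod.fst_add, Prod.snd_add, Prod.smul_fst, Prod.smul_snd, smul_eq_mul]
    ring
  have hu : x0 * y0 + 3 ^ r * (-(b0 * c0)) ≠ 0 :=
    un_ne B (un_add B hr (B.unMul _ _ hx hy).1 (in_neg B (in_mul B hb hc)))
  by_cases H : dt v w = 0
  · rw [ff_zero k r h H, ff_zero k r h (by rw [e, H, mul_zero])]
  · obtain ⟨g, d⟩ := da_ex B S r v w H
    rw [ff_eq B C hr hh hi H d]
    refine ff_eq B C hr hh hi (by rw [e]; exact mul_ne_zero hu H) ?_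
    obtain ⟨a, m, x, y, b, c, h1, h2, h3, h4, h5, h6, h7⟩ := d
    refine ⟨a, m, x0 * x + 3 ^ r * (b0 * c), y0 * y + 3 ^ r * (c0 * b), x0 * b + b0 * y,
      y0 * c + c0 * x, h1, un_add B hr (B.unMul _ _ hx h2).1 (in_mul B hb h5),
      un_add B hr (B.unMul _ _ hy h3).1 (in_mul B hc h4),
      in_add B (in_mul B hx.1 h4) (in_mul B hb h3.1),
      in_add B (in_mul B hy.1 h5) (in_mul B hc h2.1), ?_, ?_⟩
    · rw [smul_add, smul_comm, h6, smul_comm _ b0, h7]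
      simp only [ap, Prod.smul_mk, smul_eq_mul, Prod.mk_add_mk, Prod.mk.injEq]
      constructor <;> ring
    · rw [smul_add, smul_comm, h7, smul_comm _ (3 ^ r * c0), h6]
      simp only [ap, Prod.smul_mk, smul_eq_mul, Prod.mk_add_mk, Prod.mk.injEq]
      constructor <;> ring

end FORMA

open FORMA in
theorem rowFORM : OfFORM := by
  intro B S C k r h hr hh hi
  have R := ff_r0 B S C hr hh hi
  refine ⟨FF k r h, ⟨fun v w H => ff_zero k r h H, ?_, ?_, ?_⟩, R, ?_⟩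
  · intro v w
    by_cases H : dt v w = 0
    · rw [ff_zero k r h H]
      obtain ⟨M, hM⟩ := C.sub k
      exact (hM _).1 M.zero_mem
    · obtain ⟨g, d⟩ := da_ex B S r v w H
      rw [ff_eq B C hr hh hi H d]
      obtain ⟨a, m, x, y, b, c, h1, -⟩ := d
      exact C.cu k _ h (by rw [det_adj, h1]; positivity) hh
  · intro g0 a0 h0 v w
    have hq : ((det g0 : ℤ) : ℚ) ≠ 0 := by rw [h0]; positivity
    by_cases H : dt v w = 0
    · rw [ff_zero k r h H, ff_zero k r h (by rw [dt_ap, H, mul_zero])]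
      obtain ⟨L, hL⟩ := C.lin k g0
      rw [← hL, map_zero]
    · obtain ⟨g, d⟩ := da_ex B S r v w H
      rw [ff_eq B C hr hh hi H d]
      obtain ⟨a, m, x, y, b, c, h1, h2, h3, h4, h5, h6, h7⟩ := d
      have d' : Da r (ap g0 v) (ap g0 w) (mul g0 g) :=
        ⟨a0 + a, m, x, y, b, c, by rw [det_mul, h0, h1, pow_add], h2, h3, h4, h5,
          by rw [ap_mul, ← h6, ap_smul], by rw [ap_mul, ← h7, ap_smul]⟩
      have pg : 0 < det (adj g) := by rw [det_adj, h1]; positivity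
      have e : mul (adj (mul g0 g)) g0 = mul (sc (3 ^ a0)) (adj g) := by
        rw [← h0]
        simp only [mul, sc, adj, det, Prod.mk.injEq]
        refine ⟨?_, ?_, ?_, ?_⟩ <;> ring
      rw [ff_eq B C hr hh hi (by rw [dt_ap]; exact mul_ne_zero hq H) d',
        ← C.comp k _ _ h (by rw [det_adj, det_mul, h0, h1]; positivity) (by rw [h0]; positivity),
        e, sl_sc C hh a0 _ pg]
  · intro v w x y b c hx hy hb hc
    exact R v w x y (3 ^ r * b) c hx hy (in_mul B (in_pow3 B r) hb) hc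
  · have d : Da r e2 e1 (sc 1) := by
      refine ⟨0, 0, 1, 1, 0, 0, by simp [det, sc], un_one, un_one, in_zero, in_zero, ?_, ?_⟩
      · simp [ap, sc, e2]
      · simp [ap, sc, e1]
    rw [ff_eq B C hr hh hi (by simp [dt, e1, e2]) d]
    have := C.sc k 1 h one_ne_zero hh
    simpa [adj, sc] using this

end

end Pool.Agent.MP_5f72fe_nt.MS
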