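import Pool.Agent.MP_5f72fe_nt.MS.S1

/-! Generators of the matrix monoids. -/

namespace Pool.Agent.MP_5f72fe_nt.MS

namespace GENA

variable {P : Mt → Prop}

theorem shift (h1 : ∀ g, P g → P (mul mT g)) (h2 : ∀ g, P g → P (mul (adj mT) g)) (n : ℤ) :
    ∀ p q r s : ℤ, P (p, q, r, s) → P (p + n * r, q + n * s, r, s) := by
  induction n using Int.induction_on with
  | zero => intro p q r s h; simpa using h
  | succ n ih =>
    intro p q r s h
    have := h1 _ (ih p q r s h)
    simp only [mul, mT] at this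
    ring_nf at this ⊢
    exact this
  | pred n ih =>
    intro p q r s h
    have := h2 _ (ih p q r s h)
    simp only [mul, mT, adj] at this
    ring_nf at this ⊢
    exact this

theorem swap (h0 : ∀ g, P g → P (mul mS g)) {p q r s : ℤ} (h : P (p, q, r, s)) :
    P (-r, -s, p, q) := by
  simpa [mul, mS] using h0 _ h

theorem euclid (h0 : ∀ g, P g → P (mul mS g)) (h1 : ∀ g, P g → P (mul mT g))
    (h2 : ∀ g, P g → P (mul (adj mT) g)) (d : ℤ) (hb : ∀ p q s : ℤ, p * s = d → P (p, q, 0, s)) :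
    ∀ (n : ℕ) (p q r s : ℤ), r.natAbs ≤ n → p * s - q * r = d → P (p, q, r, s) := by
  intro n
  induction n with
  | zero =>
    intro p q r s hr h
    obtain rfl : r = 0 := by omega
    exact hb p q s (by simpa using h)
  | succ n ih =>
    intro p q r s hr h
    by_cases h0r : r = 0
    · subst h0r
      exact hb p q s (by simpa using h)
    have a1 := Int.emod_nonneg p h0r
    have a2 := Int.emod_lt_abs p h0r
    have a3 := Int.emod_add_mul_ediv p r
    have a4 : P (r, s, -(p % r), -(q - p / r * s)) := ih _ _ _ _ (by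
      rw [Int.abs_eq_natAbs] at a2
      omega) (by linear_combination h + s * a3)
    have a5 := shift h1 h2 (p / r) _ _ _ _ (swap h0 a4)
    convert a5 using 2
    · linear_combination -a3
    · congr 1
      ring

theorem tri (hI : P mI) (hN : P (-1, 0, 0, -1)) (h1 : ∀ g, P g → P (mul mT g))
    (h2 : ∀ g, P g → P (mul (adj mT) g)) (p q s : ℤ) (h : p * s = 1) : P (p, q, 0, s) := by
  rcases Int.eq_one_or_neg_one_of_mul_eq_one' h with ⟨rfl, rfl⟩ | ⟨rfl, rfl⟩
  · simpa using shift h1 h2 q _ _ _ _ hI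
  · simpa using shift h1 h2 (-q) _ _ _ _ hN

theorem one (hI : P mI) (h0 : ∀ g, P g → P (mul mS g)) (h1 : ∀ g, P g → P (mul mT g))
    (h2 : ∀ g, P g → P (mul (adj mT) g)) (g : Mt) (h : det g = 1) : P g :=
  euclid h0 h1 h2 1 (tri hI (by simpa using swap h0 (swap h0 hI)) h1 h2) _ _ _ _ _ le_rfl h

theorem all (hI : P mI) (h0 : ∀ g, P g → P (mul mS g)) (h1 : ∀ g, P g → P (mul mT g))
    (h2 : ∀ g, P g → P (mul (adj mT) g)) (h3 : ∀ g, P g → P (mul mD g)) (a : ℕ) :
    ∀ g : Mt, det g = 3 ^ a → P g := by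
  have hD : ∀ p q r s : ℤ, P (p, q, r, s) → P (3 * p, 3 * q, r, s) := fun p q r s h => by
    simpa [mul, mD] using h3 _ h
  induction a with
  | zero => exact one hI h0 h1 h2
  | succ a ih =>
    intro g hg
    refine euclid h0 h1 h2 _ (fun p q s h => ?_) _ _ _ _ _ le_rfl hg
    by_cases hs : 3 ∣ s
    · obtain ⟨s, rfl⟩ := hs
      have b1 := ih (p, q, 0, s) (by simp only [det]; rw [pow_succ] at h; linarith)
      simpa using swap h0 (hD _ _ _ _ (swap h0 (swap h0 (swap h0 b1))))
    · have hp : 3 ∣ p :=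
        (Int.prime_three.dvd_or_dvd (h ▸ dvd_pow_self 3 a.succ_ne_zero)).resolve_right hs
      obtain ⟨p, rfl⟩ := hp
      obtain ⟨t, ht⟩ : 3 ∣ q - q * s * s := by
        have : 3 ∣ 1 - s * s := by
          have : s % 3 = 1 ∨ s % 3 = 2 := by omega
          rcases this with h | h <;> simp [Int.dvd_iff_emod_eq_zero, Int.sub_emod, Int.mul_emod, h]
        exact (show q - q * s * s = q * (1 - s * s) by ring) ▸ this.mul_left q
      have b1 := ih (p, t, 0, s) (by simp only [det]; rw [pow_succ] at h; linarith)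
      have b2 := shift h1 h2 (q * s) _ _ _ _ (hD _ _ _ _ b1)
      convert b2 using 3
      · ring
      · linarith

theorem three (hI : P mI) (hN : P (-1, 0, 0, -1)) (h1 : ∀ g, P g → P (mul mT g))
    (h2 : ∀ g, P g → P (mul (adj mT) g)) (h3 : ∀ g, P g → P (mul mL g))
    (h4 : ∀ g, P g → P (mul (adj mL) g)) : ∀ (n : ℕ) (p q r s : ℤ), p.natAbs + r.natAbs ≤ n →
      p * s - q * r = 1 → 3 ∣ r → P (p, q, r, s) := by
  intro n
  induction n with
  | zero =>
    intro p q r s hr h _
    obtain rfl : r = 0 := by omega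
    exact tri hI hN h1 h2 p q s (by simpa using h)
  | succ n ih =>
    intro p q r s hr h hd
    by_cases h0r : r = 0
    · subst h0r
      exact tri hI hN h1 h2 p q s (by simpa using h)
    have h0p : p ≠ 0 := by
      rintro rfl
      have : (3 : ℤ) ∣ 1 := h ▸ (by simpa using hd.mul_left q)
      omega
    by_cases c1 : (p - r).natAbs < p.natAbs
    · simpa using shift h1 h2 1 _ _ _ _ (ih (p - r) (q - s) r s (by omega) (by linarith) hd)
    by_cases c2 : (p + r).natAbs < p.natAbs
    · simpa using shift h1 h2 (-1) _ _ _ _ (ih (p + r) (q + s) r s (by omega) (by linarith) hd)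
    by_cases c3 : (r - 3 * p).natAbs < r.natAbs
    · simpa [mul, mL] using h3 _ (ih p q (r - 3 * p) (s - 3 * q) (by omega) (by linarith)
        (by omega))
    · simpa [mul, mL, adj] using h4 _ (ih p q (r + 3 * p) (s + 3 * q) (by omega) (by linarith)
        (by omega))

end GENA

theorem rowGEN : RowGEN :=
  ⟨fun _ hI h0 h1 h2 h3 g a => GENA.all hI h0 h1 h2 h3 a g,
    fun _ hI h0 h1 h2 => GENA.one hI h0 h1 h2,
    fun _ hI hN h1 h2 h3 h4 _ h hd => GENA.three hI hN h1 h2 h3 h4 _ _ _ _ _ le_rfl h hd⟩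

end Pool.Agent.MP_5f72fe_nt.MS
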