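import Pool.Agent.MP_5f72fe_nt.MS.S2

/-! The generator in the odd case. -/

namespace Pool.Agent.MP_5f72fe_nt.MS

open scoped NumberTheorySymbols

namespace GENMA

/-- the graph of the reduction -/
theorem graph (hB : RowBAS) :
    ∃ P : AddSubgroup (ℚ × F3), ∀ x, x ∈ P ↔ In x.1 ∧ red 3 x.1 = x.2 := by
  obtain ⟨O, hO⟩ := hB.ring
  have h0 : red 3 0 = 0 := by simpa using hB.red3.2.2.1 0
  refine ⟨{ carrier := {x | In x.1 ∧ red 3 x.1 = x.2}, add_mem' := ?_, zero_mem' := ?_,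
            neg_mem' := ?_ }, fun x => Iff.rfl⟩
  · rintro x y ⟨hx, hx'⟩ ⟨hy, hy'⟩
    exact ⟨(hO _).1 (O.add_mem ((hO _).2 hx) ((hO _).2 hy)), by
      rw [Prod.fst_add, Prod.snd_add, hB.red3.1 _ _ hx hy, hx', hy']⟩
  · exact ⟨(hO _).1 O.zero_mem, h0⟩
  · rintro x ⟨hx, hx'⟩
    have hn : In (-x.1) := (hO _).1 (O.neg_mem ((hO _).2 hx))
    refine ⟨hn, ?_⟩
    have := hB.red3.1 _ _ hx hn
    rw [add_neg_cancel, h0, hx'] at this
    exact eq_neg_of_add_eq_zero_right this.symm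

theorem app_mem (hM : RowMOB) {A B : Type} [AddCommGroup A] [AddCommGroup B]
    (P : AddSubgroup (A × B)) (a : Ch A) (b : Ch B)
    (h : ∀ u y, In u → In y → (a u y, b u y) ∈ P) (u y : ℚ) (hu : In u) (hy : In y) :
    ∀ o : Op, (∀ x ∈ o, G0 x.2) → (app o a u y, app o b u y) ∈ P
  | [], _ => P.zero_mem
  | x :: o, ho => by
    have h1 := app_mem hM P a b h u y hu hy o fun z hz => ho z (List.mem_cons_of_mem _ hz)
    have hx := ho x List.mem_cons_self
    exact P.add_mem (P.zsmul_mem (h _ _ (hM.pres _ hx u hu).1 (hM.pres _ hx y hy).2.1) x.1) h1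

theorem rho_G0 : ∀ x ∈ rho, G0 x.2 := by
  simp only [rho, List.forall_mem_cons, G0, mI, mR]
  decide

theorem sy0_pair {A B : Type} [AddCommGroup A] [AddCommGroup B] {Ψ : V → V → Ch A}
    {Φ : V → V → Ch B} (h : Sy0 Ψ) (h' : Sy0 Φ) :
    Sy0 fun c c' u y => (Ψ c c' u y, Φ c c' u y) where
  ad u y hu hy :=
    ⟨fun c l hc hl => Prod.ext ((h.ad u y hu hy).hom c l hc hl) ((h'.ad u y hu hy).hom c l hc hl),
      fun c c' c'' a b d => Prod.ext ((h.ad u y hu hy).add c c' c'' a b d)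
        ((h'.ad u y hu hy).add c c' c'' a b d)⟩
  invT c c' a b u y hu hy := Prod.ext (h.invT c c' a b u y hu hy) (h'.invT c c' a b u y hu hy)
  invL c c' a b u y hu hy := Prod.ext (h.invL c c' a b u y hu hy) (h'.invL c c' a b u y hu hy)

theorem sy0_mul {Ψ : V → V → Ch ℚ} (h : Sy0 Ψ) (t : ℚ) :
    Sy0 fun c c' u y => t * Ψ c c' u y where
  ad u y hu hy :=
    ⟨fun c l hc hl => by rw [(h.ad u y hu hy).hom c l hc hl, mul_zero],
      fun c c' c'' a b d => by rw [← mul_add, (h.ad u y hu hy).add c c' c'' a b d]⟩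
  invT c c' a b u y hu hy := congrArg (t * ·) (h.invT c c' a b u y hu hy)
  invL c c' a b u y hu hy := congrArg (t * ·) (h.invL c c' a b u y hu hy)

/-- transfer from a rational symbol on the chart -/
theorem transfer (hB : RowBAS) (hM : RowMOB) (hI : RowIND0) (hC : RowCH) (hE : RowEXT)
    (Ψ : V → V → Ch ℚ) (hΨ : Sy0 Ψ) (a : Ch F3) (ha : LC2 a)
    (h : ∀ u y, In u → In y → In (Ψ e1 e2 u y) ∧ red 3 (Ψ e1 e2 u y) = a u y) :
    ∃ φ : Sb F3, SL φ ∧ EqO (ch φ) a ∧ ∀ N : ℕ, ¬ 3 ∣ N →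
      In (ell0 N Ψ) ∧ red 3 (ell0 N Ψ) = ell N φ := by
  obtain ⟨P, hP⟩ := graph hB
  obtain ⟨O, hO⟩ := hB.ring
  have h0 : red 3 0 = 0 := by simpa using hB.red3.2.2.1 0
  have hr : EqO (app rho a) 0 := fun u y hu hy => by
    have := (hP _).1 (app_mem hM P (Ψ e1 e2) a (fun u y hu hy => (hP _).2 (h u y hu hy)) u y hu hy
      rho rho_G0)
    rw [hI.rel ℚ Ψ hΨ u y hu hy] at this
    exact this.2.symm.trans h0
  obtain ⟨φ, hφ, he⟩ := hE F3 a ha hr
  obtain ⟨r1, -, r3⟩ := hC.toRes F3 φ hφ.1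
  refine ⟨φ, hφ, he, fun N hN => ?_⟩
  have hN0 : (N : ℚ) ≠ 0 := by
    rintro h
    exact hN (by rw [Nat.cast_eq_zero.1 h]; exact dvd_zero 3)
  have hU : Un (N : ℚ) := by
    have := (hB.int N).2.2 (by exact_mod_cast hN)
    simpa using this
  have hi := hI.ind _ _ P (sy0_pair hΨ r1) fun u y hu hy =>
    (hP _).2 ⟨(h u y hu hy).1, (h u y hu hy).2.trans (he u y hu hy).symm⟩
  have hs : (ell0 N Ψ, ell0 N (res φ)) ∈ P := by
    have : (ell0 N Ψ, ell0 N (res φ)) = ∑ m ∈ Finset.range N,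
        J(m | N) • (Ψ e1 (m, N) (m / N) 0, res φ e1 (m, N) (m / N) 0) := by
      simp only [ell0, Prod.ext_iff, Prod.fst_sum, Prod.snd_sum, Prod.smul_mk, and_self]
    rw [this]
    refine P.sum_mem fun m _ => P.zsmul_mem (hi e1 (m, N) (m / N) 0 ?_ ?_ ?_ ?_) _
    · simp [e1]
    · simp [hN0]
    · exact hB.div _ _ ((hO _).1 (natCast_mem O m)) hU
    · exact (hO _).1 O.zero_mem
  rw [r3 N hN]
  exact (hP _).1 hs

theorem unit_sq (hB : RowBAS) (t B : ℚ) (ht : Un t) (hB' : ¬ (3 : ℤ) ∣ B.num)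
    (h : In (t * B ^ 2)) : red 3 (t * B ^ 2) ≠ 0 := by
  have ht0 : t ≠ 0 := ((hB.un' t).1 ht).1
  have h1 : In (B ^ 2) := by
    have := hB.div _ _ h ht
    rwa [mul_div_cancel_left₀ _ ht0] at this
  have h2 : Un B := ⟨fun hd => h1 (by rw [Rat.den_pow]; exact dvd_pow hd two_ne_zero), hB'⟩
  have h3 : Un (t * B ^ 2) := by
    rw [sq]
    exact (hB.unMul _ _ ht (hB.unMul _ _ h2 h2).1).1
  exact fun h4 => ((hB.un _).1 h3).2 ((hB.red3.2.2.2 _ h).1 h4)

theorem jac3 (N : ℕ) (h : N % 12 = 7) : J(3 | N) = -1 := by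
  have h1 : J((3 : ℕ) | N) = -J(N | 3) :=
    jacobiSym.quadratic_reciprocity_three_mod_four (by norm_num) (by omega)
  have h2 : J(N | 3) = J(1 | 3) := by
    refine jacobiSym.mod_left' ?_
    omega
  rw [jacobiSym.one_left] at h2
  rw [h2] at h1
  exact_mod_cast h1

theorem perm3 (N : ℕ) (hN : ¬ 3 ∣ N) (f : ℕ → ℚ) (hf : ∀ m, f (m % N) = f m) :
    ∑ m ∈ Finset.range N, f (3 * m) = ∑ m ∈ Finset.range N, f m := by
  have hN0 : 0 < N := Nat.pos_of_ne_zero fun h => hN (h ▸ dvd_zero 3)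
  have hc : Nat.Coprime N 3 := ((Nat.Prime.coprime_iff_not_dvd Nat.prime_three).2 hN).symm
  have hinj : Set.InjOn (fun m => 3 * m % N) (Finset.range N) := fun a ha b hb hab => by
    have := Nat.ModEq.cancel_left_of_coprime hc hab
    exact Nat.ModEq.eq_of_lt_of_lt this (Finset.mem_range.1 ha) (Finset.mem_range.1 hb)
  have himg : (Finset.range N).image (fun m => 3 * m % N) = Finset.range N := by
    refine Finset.eq_of_subset_of_card_le (fun x hx => ?_) ?_
    · obtain ⟨m, -, rfl⟩ := Finset.mem_image.1 hx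
      exact Finset.mem_range.2 (Nat.mod_lt _ hN0)
    · rw [Finset.card_image_of_injOn hinj]
  conv_rhs => rw [← himg, Finset.sum_image hinj]
  simp only [hf]

end GENMA

open GENMA in
theorem rowGENM : OfGENM := by
  intro hB hM hI hC hE hD hS hX hA
  obtain ⟨Ψ, hΨ, h1, h2⟩ := hX
  obtain ⟨O, hO⟩ := hB.ring
  have hu1 : Un 1 := by simpa using (hB.int 1).2.2 (by decide)
  have hu4 : Un 4 := by simpa using (hB.int 4).2.2 (by decide)
  obtain ⟨φ, hφ, he, hl⟩ := transfer hB hM hI hC hE _ (sy0_mul hΨ (-(1 / 6))) a0m hA.m.1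
    fun u y hu hy => by
      have hu' := (hO _).2 hu
      have hy' := (hO _).2 hy
      have hp : In (u * y * (u - y)) := (hO _).1 (O.mul_mem (O.mul_mem hu' hy') (O.sub_mem hu' hy'))
      have huy : In (-(u * y)) := (hO _).1 (O.neg_mem (O.mul_mem hu' hy'))
      have hd : Un (1 - 3 * u * y) := by
        have := hB.unAdd 1 _ hu1 huy
        rwa [show 1 + 3 * -(u * y) = 1 - 3 * u * y by ring] at this
      have hd0 : 1 - 3 * u * y ≠ 0 := ((hB.un' _).1 hd).1
      have e : -(1 / 6) * Ψ e1 e2 u y = u * y * (u - y) / (1 - 3 * u * y) := by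
        rw [h1 u y hu hy]
        ring
      have hq := hB.div _ _ hp hd
      have hw : In (u * y * (u * y * (u - y) / (1 - 3 * u * y))) :=
        (hO _).1 (O.mul_mem (O.mul_mem hu' hy') ((hO _).2 hq))
      have hw3 : In (3 * (u * y * (u * y * (u - y) / (1 - 3 * u * y)))) :=
        (hO _).1 (O.mul_mem (by exact_mod_cast natCast_mem O 3) ((hO _).2 hw))
      refine ⟨e ▸ hq, ?_⟩
      have e' : u * y * (u - y) / (1 - 3 * u * y) =
          u * y * (u - y) + 3 * (u * y * (u * y * (u - y) / (1 - 3 * u * y))) := by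
        linear_combination div_mul_cancel₀ (u * y * (u - y)) hd0
      show red 3 (-(1 / 6) * Ψ e1 e2 u y) = red 3 (u * y * (u - y))
      rw [e, e', hB.red3.1 _ _ hp hw3, (hB.red3.2.2.2 _ hw3).2 (by
        rwa [mul_div_cancel_left₀ _ three_ne_zero]), add_zero]
  refine ⟨φ, hφ, he, fun N hN hsq hnum => ?_⟩
  have h3 : ¬ 3 ∣ N := by omega
  have hN0 : (N : ℚ) ≠ 0 := by
    have : N ≠ 0 := by omega
    exact_mod_cast this
  have hsum := hS N (by omega) hsq
  have hperm := perm3 N h3 (fun m => (J(m | N) : ℚ) * DD (m / N)) fun m => by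
    have e : (m : ℚ) / N = ((m % N : ℕ) : ℚ) / N + ((m / N : ℕ) : ℤ) := by
      have : (m : ℚ) = ((m % N : ℕ) : ℚ) + N * ((m / N : ℕ) : ℚ) := by
        exact_mod_cast (Nat.mod_add_div m N).symm
      rw [this, Int.cast_natCast]
      field_simp
    show (J((m % N : ℕ) | N) : ℚ) * _ = _
    rw [e, hD.per, Int.natCast_mod, ← jacobiSym.mod_left]
  have hE0 : ell0 N (fun c c' u y => -(1 / 6) * Ψ c c' u y) = 4 * BB N ^ 2 := by
    have e : ell0 N (fun c c' u y => -(1 / 6) * Ψ c c' u y) =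
        1 / 6 * (∑ m ∈ Finset.range N, (J((3 * m : ℕ) | N) : ℚ) * DD ((3 * m : ℕ) / N) +
          ∑ m ∈ Finset.range N, (J(m | N) : ℚ) * DD (m / N)) := by
      rw [ell0, ← Finset.sum_add_distrib, Finset.mul_sum]
      refine Finset.sum_congr rfl fun m _ => ?_
      rw [Nat.cast_mul, jacobiSym.mul_left, show ((3 : ℕ) : ℤ) = 3 from rfl, jac3 N hN]
      by_cases hc : Nat.Coprime m N
      · rw [h2 m N h3 hc]
        push_cast
        simp only [zsmul_eq_mul]
        ring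
      · have : J(m | N) = 0 := by
          have : NeZero N := ⟨by omega⟩
          exact jacobiSym.eq_zero_iff_not_coprime.2 (by simpa using hc)
        simp [this]
    rw [e, hperm, hsum]
    ring
  obtain ⟨l1, l2⟩ := hl N h3
  rw [hE0] at l1 l2
  rw [← l2]
  exact unit_sq hB 4 _ hu4 hnum l1

end Pool.Agent.MP_5f72fe_nt.MS
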