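import Pool.Agent.MP_5f72fe_nt.MS.S2

/-! The generator of sign `+1` and the value of the functional on it. -/

namespace Pool.Agent.MP_5f72fe_nt.MS

open scoped NumberTheorySymbols

namespace GENPA

/-- the graph of the reduction map -/
lemma graph (hB : RowBAS) :
    ∃ P : AddSubgroup (ℚ × F3), ∀ p, p ∈ P ↔ In p.1 ∧ red 3 p.1 = p.2 := by
  obtain ⟨O, hO⟩ := hB.ring
  obtain ⟨ra, rm, ri, -⟩ := hB.red3
  refine ⟨{ carrier := {p | In p.1 ∧ red 3 p.1 = p.2}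
            add_mem' := ?_, zero_mem' := ?_, neg_mem' := ?_ }, fun p => Iff.rfl⟩
  · rintro ⟨a, b⟩ ⟨c, d⟩ ⟨h1, h2⟩ ⟨h3, h4⟩
    exact ⟨(hO _).1 (O.add_mem ((hO _).2 h1) ((hO _).2 h3)), by
      show red 3 (a + c) = b + d
      rw [ra a c h1 h3]; exact congrArg₂ _ h2 h4⟩
  · exact ⟨(hO _).1 O.zero_mem, by simpa using ri 0⟩
  · rintro ⟨a, b⟩ ⟨h1, h2⟩
    refine ⟨(hO _).1 (O.neg_mem ((hO _).2 h1)), ?_⟩
    show red 3 (-a) = -b
    have := rm ((-1 : ℤ) : ℚ) a ((hO _).1 (intCast_mem O _)) h1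
    rw [ri] at this
    simp only [Int.reduceNeg, Int.cast_neg, Int.cast_one, neg_mul, one_mul] at this
    rw [this]; exact congrArg _ h2

lemma app_mem (hM : RowMOB) (P : AddSubgroup (ℚ × F3)) (a : Ch ℚ) (b : Ch F3)
    (h : ∀ u y, In u → In y → (a u y, b u y) ∈ P) (u y : ℚ) (hu : In u) (hy : In y) :
    ∀ o : Op, (∀ x ∈ o, G0 x.2) → (app o a u y, app o b u y) ∈ P := by
  intro o
  induction o with
  | nil => intro _; exact P.zero_mem
  | cons x o ih =>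
    intro hx
    have g := hx x List.mem_cons_self
    have h1 := P.zsmul_mem (h _ _ (hM.pres _ g u hu).1 (hM.pres _ g y hy).2.1) x.1
    exact P.add_mem h1 (ih fun z hz => hx z (List.mem_cons_of_mem _ hz))

lemma g0rho : ∀ x ∈ rho, G0 x.2 := by
  simp [rho, G0, mI, mR]

lemma jac3 (N : ℕ) (h : N % 12 = 5) : J(3 | N) = -1 := by
  have h1 := jacobiSym.quadratic_reciprocity_one_mod_four' (a := 3) (b := N) (by decide) (by omega)
  have h2 : ((N : ℤ) % ((3 : ℕ) : ℤ)) = 2 := by omega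
  rw [jacobiSym.mod_left N 3, h2] at h1
  exact h1.trans (by norm_num)

lemma jmod (m : ℕ) : J(m | 3) = if m % 3 = 0 then 0 else if m % 3 = 1 then 1 else -1 := by
  rw [jacobiSym.mod_left]
  have h : m % 3 = 0 ∨ m % 3 = 1 ∨ m % 3 = 2 := by omega
  rcases h with h | h | h
  · rw [show ((m : ℤ) % ((3 : ℕ) : ℤ)) = 0 by omega, h]; norm_num
  · rw [show ((m : ℤ) % ((3 : ℕ) : ℤ)) = 1 by omega, h]; norm_num
  · rw [show ((m : ℤ) % ((3 : ℕ) : ℤ)) = 2 by omega, h]; norm_num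

lemma chi_val (hB : RowBAS) (hO : RowOM) (m N : ℕ) (b t : ℤ) (hN : ¬ 3 ∣ N)
    (e : (m : ℤ) = b * N + 3 * t) : chi (m / N) = chi b := by
  obtain ⟨O, hR⟩ := hB.ring
  have hu : Un ((N : ℤ) : ℚ) := (hB.int N).2.2 (by omega)
  have h0 : (N : ℚ) ≠ 0 := by
    rintro h; apply hN; rw [Nat.cast_eq_zero.1 h]; exact dvd_zero 3
  have e' : (m : ℚ) = b * N + 3 * t := by exact_mod_cast e
  rw [← hO.2.2.2.2.1 b ((t : ℚ) / ((N : ℤ) : ℚ)) ((hR _).1 (intCast_mem O b))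
    (hB.div _ _ ((hR _).1 (intCast_mem O t)) hu)]
  congr 1
  push_cast
  field_simp
  linear_combination e'

/-- the three residues over a residue -/
lemma three (hB : RowBAS) (hO : RowOM) (hD : RowDREC) (m N : ℕ) (h : N % 12 = 5) :
    (J(m | 3) : ℚ) * DD ((m : ℚ) / N / 3) + J((N + m : ℕ) | 3) * DD ((m / N + 1) / 3) +
      J((N + N + m : ℕ) | 3) * DD ((m / N + 2) / 3) =
      DD ((m / N - chi (m / N) - 1) / 3) - DD ((m / N - chi (m / N) + 1) / 3) := by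
  have hN : ¬ 3 ∣ N := by omega
  have c0 : chi ((0 : ℤ) : ℚ) = 0 := by simp [chi, In]
  have c1 : chi ((1 : ℤ) : ℚ) = 1 := by norm_num [chi, In]
  have c2 : chi ((-1 : ℤ) : ℚ) = -1 := by norm_num [chi, In]
  rw [jmod, jmod, jmod]
  have hm : m % 3 = 0 ∨ m % 3 = 1 ∨ m % 3 = 2 := by omega
  rcases hm with hm | hm | hm
  · rw [chi_val hB hO m N 0 (m / 3) hN (by omega), c0, hm, show (N + m) % 3 = 2 by omega,
      show (N + N + m) % 3 = 1 by omega, ← hD.per ((m / N - 0 - 1) / 3) 1]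
    generalize (m : ℚ) / N = x
    rw [show (x - 0 - 1) / 3 + ((1 : ℤ) : ℚ) = (x + 2) / 3 by push_cast; ring, sub_zero]
    norm_num; ring
  · rw [chi_val hB hO m N (-1) ((m + N) / 3) hN (by omega), c2, hm, show (N + m) % 3 = 0 by omega,
      show (N + N + m) % 3 = 2 by omega]
    generalize (m : ℚ) / N = x
    rw [show (x - -1 - 1) / 3 = x / 3 by ring, show (x - -1 + 1) / 3 = (x + 2) / 3 by ring]
    norm_num; ring
  · rw [chi_val hB hO m N 1 ((m - N) / 3) hN (by omega), c1, hm, show (N + m) % 3 = 1 by omega,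
      show (N + N + m) % 3 = 0 by omega, ← hD.per ((m / N - 1 - 1) / 3) 1]
    generalize (m : ℚ) / N = x
    rw [show (x - 1 - 1) / 3 + ((1 : ℤ) : ℚ) = (x + 1) / 3 by push_cast; ring,
      show (x - 1 + 1) / 3 = x / 3 by ring]
    norm_num; ring

lemma sum3 (hB : RowBAS) (hO : RowOM) (hD : RowDREC) (hS : RowDSUM) (Ψ : V → V → Ch ℚ) (N : ℕ)
    (h : N % 12 = 5) (hq : Squarefree N)
    (hΨ : ∀ m : ℕ, Nat.Coprime m N → Ψ e1 (m, N) (m / N) 0 =
      DD ((m / N - chi (m / N) - 1) / 3) - DD ((m / N - chi (m / N) + 1) / 3)) :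
    ell0 N Ψ = 12 * BB (3 * N) ^ 2 := by
  have cop : Nat.Coprime 3 N := (Nat.Prime.coprime_iff_not_dvd Nat.prime_three).2 (by omega)
  have n0 : N ≠ 0 := by omega
  have h0 : (N : ℚ) ≠ 0 := Nat.cast_ne_zero.2 n0
  rw [← hS (3 * N) (by omega) ((Nat.squarefree_mul cop).2 ⟨Nat.prime_three.squarefree, hq⟩)]
  have e : Finset.range (3 * N) = Finset.range (N + N + N) := by congr 1; ring
  rw [e, Finset.sum_range_add, Finset.sum_range_add, ← Finset.sum_add_distrib,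
    ← Finset.sum_add_distrib]
  refine Finset.sum_congr rfl fun m _ => ?_
  have j1 : J((N + m : ℕ) | N) = J(m | N) := jacobiSym.mod_left' (by push_cast; simp)
  have j2 : J((N + N + m : ℕ) | N) = J(m | N) :=
    jacobiSym.mod_left' (by push_cast; simp [add_assoc])
  rw [jacobiSym.mul_right' _ (by norm_num) n0, jacobiSym.mul_right' _ (by norm_num) n0,
    jacobiSym.mul_right' _ (by norm_num) n0, j1, j2]
  by_cases hc : Nat.Coprime m N
  · rw [hΨ m hc, ← three hB hO hD m N h,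
      show ((m : ℚ)) / ((3 * N : ℕ) : ℚ) = m / N / 3 by push_cast; field_simp,
      show ((N + m : ℕ) : ℚ) / ((3 * N : ℕ) : ℚ) = (m / N + 1) / 3 by
        push_cast; field_simp; ring,
      show ((N + N + m : ℕ) : ℚ) / ((3 * N : ℕ) : ℚ) = (m / N + 2) / 3 by
        push_cast; field_simp; ring, zsmul_eq_mul, Int.cast_mul, Int.cast_mul, Int.cast_mul]
    ring
  · have : J(m | N) = 0 := jacobiSym.eq_zero_iff.2 ⟨n0, by simpa using hc⟩
    rw [this]; simp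

end GENPA

open GENPA in
theorem rowGENP : OfGENP := by
  intro hB hM hI hC hE hO hD hS hX hA
  obtain ⟨Ψ, sΨ, vΨ, wΨ⟩ := hX
  obtain ⟨P, hP⟩ := graph hB
  obtain ⟨sg1, sg2, sg3⟩ := hI.flip ℚ Ψ sΨ
  obtain ⟨Θ, hΘ⟩ : ∃ Θ : V → V → Ch ℚ,
      ∀ c c' u y, Θ c c' u y = (Ψ c c' u y - sg0 Ψ c c' u y) / (-24) := ⟨_, fun _ _ _ _ => rfl⟩
  have sΘ : Sy0 Θ := by
    refine ⟨fun u y hu hy => ⟨fun c l hc hl => ?_, fun c c' c'' h1 h2 h3 => ?_⟩,
      fun c c' h1 h2 u y hu hy => ?_, fun c c' h1 h2 u y hu hy => ?_⟩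
    · have a := (sΨ.ad u y hu hy).hom c l hc hl
      have b := (sg1.ad u y hu hy).hom c l hc hl
      rw [hΘ, a, b]; simp
    · have a := (sΨ.ad u y hu hy).add c c' c'' h1 h2 h3
      have b := (sg1.ad u y hu hy).add c c' c'' h1 h2 h3
      rw [hΘ, hΘ, hΘ, ← a, ← b]; ring
    · have a := sΨ.invT c c' h1 h2 u y hu hy
      have b := sg1.invT c c' h1 h2 u y hu hy
      simp only [act] at a b ⊢
      rw [hΘ, hΘ, a, b]
    · have a := sΨ.invL c c' h1 h2 u y hu hy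
      have b := sg1.invL c c' h1 h2 u y hu hy
      simp only [act] at a b ⊢
      rw [hΘ, hΘ, a, b]
  have vΘ : ∀ u y, In u → In y → (Θ e1 e2 u y, a0p u y) ∈ P := by
    intro u y hu hy
    have e : Θ e1 e2 u y = (chi u * y - chi y * u) / 3 := by
      rw [hΘ, sg2 u y hu hy, sw, vΨ u y hu hy, vΨ y u hy hu]; ring
    rw [hP, e]
    exact hA.q u y hu hy
  have rel : EqO (app rho a0p) 0 := by
    intro u y hu hy
    have h := (hP _).1 (app_mem hM P _ _ vΘ u y hu hy rho g0rho)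
    rw [hI.rel ℚ Θ sΘ u y hu hy] at h
    refine h.2.symm.trans ?_
    simpa using hB.red3.2.2.1 0
  obtain ⟨φ, hφ, cφ⟩ := hE F3 a0p hA.p.1 rel
  refine ⟨φ, hφ, cφ, fun N hN hq hb => ?_⟩
  obtain ⟨r1, -, r3⟩ := hC.toRes F3 φ hφ.1
  have n3 : ¬ 3 ∣ N := by omega
  have sP : Sy0 fun c c' u y => (Θ c c' u y, res φ c c' u y) :=
    ⟨fun u y hu hy => ⟨fun c l hc hl =>
        Prod.ext ((sΘ.ad u y hu hy).hom c l hc hl) ((r1.ad u y hu hy).hom c l hc hl),
      fun c c' c'' h1 h2 h3 => Prod.ext ((sΘ.ad u y hu hy).add c c' c'' h1 h2 h3)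
        ((r1.ad u y hu hy).add c c' c'' h1 h2 h3)⟩,
      fun c c' h1 h2 u y hu hy =>
        Prod.ext (sΘ.invT c c' h1 h2 u y hu hy) (r1.invT c c' h1 h2 u y hu hy),
      fun c c' h1 h2 u y hu hy =>
        Prod.ext (sΘ.invL c c' h1 h2 u y hu hy) (r1.invL c c' h1 h2 u y hu hy)⟩
  have all := hI.ind _ _ P sP fun u y hu hy => by
    have := vΘ u y hu hy
    rw [← cφ u y hu hy] at this
    exact this
  obtain ⟨O, hR⟩ := hB.ring
  have hu : Un (N : ℚ) := by simpa using (hB.int N).2.2 (by omega)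
  have mem : (ell0 N Θ, ell0 N (res φ)) ∈ P := by
    have e : (ell0 N Θ, ell0 N (res φ)) = ∑ m ∈ Finset.range N,
        J(m | N) • (Θ e1 (m, N) (m / N) 0, res φ e1 (m, N) (m / N) 0) := by
      refine Prod.ext ?_ ?_
      · rw [Prod.fst_sum]; rfl
      · rw [Prod.snd_sum]; rfl
    rw [e]
    refine P.sum_mem fun m _ => P.zsmul_mem (all _ _ _ _ (by simp [e1]) ?_
      (hB.div _ _ ((hR _).1 (natCast_mem O m)) hu) ((hR _).1 O.zero_mem)) _
    intro h
    exact ((hB.un' _).1 hu).1 (congrArg Prod.snd h)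
  have val : ell0 N Θ = -(BB (3 * N) * BB (3 * N)) := by
    have e : ell0 N Θ = (ell0 N Ψ - ell0 N (sg0 Ψ)) / (-24) := by
      simp only [ell0, hΘ]
      rw [← Finset.sum_sub_distrib, Finset.sum_div]
      refine Finset.sum_congr rfl fun m _ => ?_
      simp only [zsmul_eq_mul]; ring
    rw [e, sg3 N (Nat.odd_iff.2 (by omega)) n3, jac3 N hN,
      sum3 hB hO hD hS Ψ N hN hq fun m hm => wΨ m N n3 hm]
    simp only [zsmul_eq_mul]; push_cast; ring
  rw [hP, val] at mem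
  have uB : Un (BB (3 * N)) := by
    refine ⟨fun h => mem.1 ?_, hb⟩
    show 3 ∣ (-(BB (3 * N) * BB (3 * N))).den
    rw [Rat.neg_den, Rat.mul_self_den]
    exact Dvd.dvd.mul_left h _
  have u2 : Un (-(BB (3 * N) * BB (3 * N))) :=
    (hB.unMul _ _ (hB.unMul _ _ uB uB).1 uB).2.2.2
  rw [r3 N n3]
  intro h
  exact ((hB.un _).1 u2).2 ((hB.red3.2.2.2 _ u2.1).1 (mem.2.trans h))

end Pool.Agent.MP_5f72fe_nt.MS
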