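import Pool.Agent.MP_5f72fe_nt.MS.S1

/-! Modular symbols at `3`: the graded kernel, sign `-1`. -/

namespace Pool.Agent.MP_5f72fe_nt.MS

namespace GKA

theorem rgr_eq (c : Ar) (i j : ℕ) : rgr c i j = if i % 3 + j % 3 ≤ 2 then
    (if j % 3 = 0 then c i (j + 3) else 0) + (if j % 3 ≤ 1 then c (i + 1) (j + 2) else 0) +
      (if i % 3 ≤ 1 then c (i + 2) (j + 1) else 0) + (if i % 3 = 0 then c (i + 3) j else 0)
    else 0 := by
  have e1 : j + 3 - 1 = j + 2 := by omega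
  have e2 : j + 3 - 2 = j + 1 := by omega
  have s03 : Finset.Icc 0 3 = ({0, 1, 2, 3} : Finset ℕ) := by decide
  have s02 : Finset.Icc 0 2 = ({0, 1, 2} : Finset ℕ) := by decide
  have s01 : Finset.Icc 0 1 = ({0, 1} : Finset ℕ) := by decide
  have s13 : Finset.Icc 1 3 = ({1, 2, 3} : Finset ℕ) := by decide
  have s12 : Finset.Icc 1 2 = ({1, 2} : Finset ℕ) := by decide
  have s23 : Finset.Icc 2 3 = ({2, 3} : Finset ℕ) := by decide
  unfold rgr
  have hi : i % 3 = 0 ∨ i % 3 = 1 ∨ i % 3 = 2 := by omega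
  have hj : j % 3 = 0 ∨ j % 3 = 1 ∨ j % 3 = 2 := by omega
  rcases hi with hi | hi | hi <;> rcases hj with hj | hj | hj <;> rw [hi, hj] <;>
    simp [s03, s02, s01, s13, s12, s23, e1, e2, add_assoc]

/-- the hypotheses -/
def Hy (d : ℕ) (c : Ar) : Prop :=
  (∀ i j, i + j = d → c i j = -c j i) ∧ (∀ i j, i + j + 3 = d → rgr c i j = 0) ∧ Ref d c ∧
    (∀ e, e + 2 = d → Mid e (xgr c) ∧ Ref e (xgr c)) ∧
    ∀ e, e + 6 = d → Mid e (fun i j => c (i + 3) (j + 3)) ∧ Ref e fun i j => c (i + 3) (j + 3)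

theorem small5 (c : Ar) (h : Hy 5 c) (i j : ℕ) (e : i + j = 5) (h1 : (5 + 1) / 4 < i)
    (h2 : i < j) : c i j = 0 := by
  obtain ⟨ha, hr, hf, hx, hs⟩ := h
  have h3 : (3 : F3) = 0 := rfl
  have a2 : c 2 3 = -c 3 2 :=
    ha 2 3 rfl
  have g3 : (0 + (-1) * c 1 4 + 0) + (c 3 2 + (-1) * c 2 3 + c 1 4) = 0 :=
    (hx 3 rfl).2.1 rfl
  have hc : (i = 2 ∧ j = 3) := by omega
  rcases hc with ⟨rfl, rfl⟩
  · linear_combination (-1) * a2 + (1) * g3 + ((1) * c 2 3) * h3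

theorem small6 (c : Ar) (h : Hy 6 c) (i j : ℕ) (e : i + j = 6) (h1 : (6 + 1) / 4 < i)
    (h2 : i < j) : c i j = 0 := by
  obtain ⟨ha, hr, hf, hx, hs⟩ := h
  have h3 : (3 : F3) = 0 := rfl
  have a3 : c 3 3 = -c 3 3 :=
    ha 3 3 rfl
  have g4 : c 3 3 + (-1) * c 2 4 + 0 = 0 :=
    (hx 4 rfl).2.2 rfl
  have hc : (i = 2 ∧ j = 4) := by omega
  rcases hc with ⟨rfl, rfl⟩
  · linear_combination (-1) * a3 + (-1) * g4 + ((1) * c 3 3) * h3

theorem small7 (c : Ar) (h : Hy 7 c) (i j : ℕ) (e : i + j = 7) (h1 : (7 + 1) / 4 < i)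
    (h2 : i < j) : c i j = 0 := by
  obtain ⟨ha, hr, hf, hx, hs⟩ := h
  have h3 : (3 : F3) = 0 := rfl
  have a3 : c 3 4 = -c 4 3 :=
    ha 3 4 rfl
  have x2 : c 4 3 + (-1) * c 3 4 + 0 = 0 :=
    (hx 5 rfl).1 2 3 rfl (by norm_num) (by norm_num)
  have hc : (i = 3 ∧ j = 4) := by omega
  rcases hc with ⟨rfl, rfl⟩
  · linear_combination (-1) * a3 + (1) * x2 + ((1) * c 3 4) * h3

theorem small8 (c : Ar) (h : Hy 8 c) (i j : ℕ) (e : i + j = 8) (h1 : (8 + 1) / 4 < i)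
    (h2 : i < j) : c i j = 0 := by
  obtain ⟨ha, hr, hf, hx, hs⟩ := h
  have h3 : (3 : F3) = 0 := rfl
  have a4 : c 4 4 = -c 4 4 :=
    ha 4 4 rfl
  have r0 : 0 + 0 + c 2 6 + c 3 5 = 0 :=
    (rgr_eq c 0 5).symm.trans (hr 0 5 rfl)
  have x2 : c 4 4 + (-1) * c 3 5 + c 2 6 = 0 :=
    (hx 6 rfl).1 2 4 rfl (by norm_num) (by norm_num)
  have hc : (i = 3 ∧ j = 5) := by omega
  rcases hc with ⟨rfl, rfl⟩
  · linear_combination (1) * a4 + (-1) * r0 + (1) * x2 + ((1) * c 3 5 + (-1) * c 4 4) * h3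

theorem small9 (c : Ar) (h : Hy 9 c) (i j : ℕ) (e : i + j = 9) (h1 : (9 + 1) / 4 < i)
    (h2 : i < j) : c i j = 0 := by
  obtain ⟨ha, hr, hf, hx, hs⟩ := h
  have h3 : (3 : F3) = 0 := rfl
  have x3 : 0 + (-1) * c 4 5 + c 3 6 = 0 :=
    (hx 7 rfl).1 3 4 rfl (by norm_num) (by norm_num)
  have t3 : c 3 6 + c 4 5 = 0 :=
    (hs 3 rfl).2.1 rfl
  have hc : (i = 3 ∧ j = 6) ∨ (i = 4 ∧ j = 5) := by omega
  rcases hc with ⟨rfl, rfl⟩ | ⟨rfl, rfl⟩
  · linear_combination (-1) * x3 + (-1) * t3 + ((1) * c 3 6) * h3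
  · linear_combination (1) * x3 + (-1) * t3 + ((1) * c 4 5) * h3

theorem small10 (c : Ar) (h : Hy 10 c) (i j : ℕ) (e : i + j = 10) (h1 : (10 + 1) / 4 < i)
    (h2 : i < j) : c i j = 0 := by
  obtain ⟨ha, hr, hf, hx, hs⟩ := h
  have h3 : (3 : F3) = 0 := rfl
  have x3 : 0 + (-1) * c 4 6 + c 3 7 = 0 :=
    (hx 8 rfl).1 3 5 rfl (by norm_num) (by norm_num)
  have t4 : c 4 6 = 0 :=
    (hs 4 rfl).2.2 rfl
  have hc : (i = 3 ∧ j = 7) ∨ (i = 4 ∧ j = 6) := by omega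
  rcases hc with ⟨rfl, rfl⟩ | ⟨rfl, rfl⟩
  · linear_combination (1) * x3 + (1) * t4
  · linear_combination (1) * t4

theorem small11 (c : Ar) (h : Hy 11 c) (i j : ℕ) (e : i + j = 11) (h1 : (11 + 1) / 4 < i)
    (h2 : i < j) : c i j = 0 := by
  obtain ⟨ha, hr, hf, hx, hs⟩ := h
  have h3 : (3 : F3) = 0 := rfl
  have x3 : 0 + (-1) * c 4 7 + 0 = 0 :=
    (hx 9 rfl).1 3 6 rfl (by norm_num) (by norm_num)
  have s2 : c 5 6 = 0 :=
    (hs 5 rfl).1 2 3 rfl (by norm_num) (by norm_num)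
  have hc : (i = 4 ∧ j = 7) ∨ (i = 5 ∧ j = 6) := by omega
  rcases hc with ⟨rfl, rfl⟩ | ⟨rfl, rfl⟩
  · linear_combination (-1) * x3
  · linear_combination (1) * s2

theorem small12 (c : Ar) (h : Hy 12 c) (i j : ℕ) (e : i + j = 12) (h1 : (12 + 1) / 4 < i)
    (h2 : i < j) : c i j = 0 := by
  obtain ⟨ha, hr, hf, hx, hs⟩ := h
  have h3 : (3 : F3) = 0 := rfl
  have a5 : c 5 7 = -c 7 5 :=
    ha 5 7 rfl
  have r3 : c 3 9 + c 4 8 + c 5 7 + c 6 6 = 0 :=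
    (rgr_eq c 3 6).symm.trans (hr 3 6 rfl)
  have x3 : 0 + (-1) * c 4 8 + c 3 9 = 0 :=
    (hx 10 rfl).1 3 7 rfl (by norm_num) (by norm_num)
  have x6 : 0 + (-1) * c 7 5 + c 6 6 = 0 :=
    (hx 10 rfl).1 6 4 rfl (by norm_num) (by norm_num)
  have s2 : c 5 7 = 0 :=
    (hs 6 rfl).1 2 4 rfl (by norm_num) (by norm_num)
  have hc : (i = 4 ∧ j = 8) ∨ (i = 5 ∧ j = 7) := by omega
  rcases hc with ⟨rfl, rfl⟩ | ⟨rfl, rfl⟩
  · linear_combination (1) * a5 + (-1) * r3 + (1) * x3 + (1) * x6 + ((1) * c 4 8) * h3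
  · linear_combination (1) * s2

theorem small13 (c : Ar) (h : Hy 13 c) (i j : ℕ) (e : i + j = 13) (h1 : (13 + 1) / 4 < i)
    (h2 : i < j) : c i j = 0 := by
  obtain ⟨ha, hr, hf, hx, hs⟩ := h
  have h3 : (3 : F3) = 0 := rfl
  have r3 : 0 + c 4 9 + c 5 8 + c 6 7 = 0 :=
    (rgr_eq c 3 7).symm.trans (hr 3 7 rfl)
  have x4 : c 6 7 + (-1) * c 5 8 + c 4 9 = 0 :=
    (hx 11 rfl).1 4 7 rfl (by norm_num) (by norm_num)
  have s3 : c 6 7 = 0 :=
    (hs 7 rfl).1 3 4 rfl (by norm_num) (by norm_num)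
  have hc : (i = 4 ∧ j = 9) ∨ (i = 5 ∧ j = 8) ∨ (i = 6 ∧ j = 7) := by omega
  rcases hc with ⟨rfl, rfl⟩ | ⟨rfl, rfl⟩ | ⟨rfl, rfl⟩
  · linear_combination (-1) * r3 + (-1) * x4 + (-1) * s3 + ((1) * c 4 9 + (1) * c 6 7) * h3
  · linear_combination (-1) * r3 + (1) * x4 + ((1) * c 5 8) * h3
  · linear_combination (1) * s3

theorem small14 (c : Ar) (h : Hy 14 c) (i j : ℕ) (e : i + j = 14) (h1 : (14 + 1) / 4 < i)
    (h2 : i < j) : c i j = 0 := by
  obtain ⟨ha, hr, hf, hx, hs⟩ := h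
  have h3 : (3 : F3) = 0 := rfl
  have a7 : c 7 7 = -c 7 7 :=
    ha 7 7 rfl
  have r3 : 0 + 0 + c 5 9 + c 6 8 = 0 :=
    (rgr_eq c 3 8).symm.trans (hr 3 8 rfl)
  have x4 : c 6 8 + (-1) * c 5 9 + c 4 10 = 0 :=
    (hx 12 rfl).1 4 8 rfl (by norm_num) (by norm_num)
  have x5 : c 7 7 + (-1) * c 6 8 + c 5 9 = 0 :=
    (hx 12 rfl).1 5 7 rfl (by norm_num) (by norm_num)
  have s3 : c 6 8 = 0 :=
    (hs 8 rfl).1 3 5 rfl (by norm_num) (by norm_num)
  have hc : (i = 4 ∧ j = 10) ∨ (i = 5 ∧ j = 9) ∨ (i = 6 ∧ j = 8) := by omega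
  rcases hc with ⟨rfl, rfl⟩ | ⟨rfl, rfl⟩ | ⟨rfl, rfl⟩
  · linear_combination (1) * a7 + (1) * x4 + (1) * x5 + ((-1) * c 7 7) * h3
  · linear_combination (1) * r3 + (-1) * s3
  · linear_combination (1) * s3

theorem small15 (c : Ar) (h : Hy 15 c) (i j : ℕ) (e : i + j = 15) (h1 : (15 + 1) / 4 < i)
    (h2 : i < j) : c i j = 0 := by
  obtain ⟨ha, hr, hf, hx, hs⟩ := h
  have h3 : (3 : F3) = 0 := rfl
  have x4 : c 6 9 + (-1) * c 5 10 + 0 = 0 :=
    (hx 13 rfl).1 4 9 rfl (by norm_num) (by norm_num)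
  have s3 : c 6 9 = 0 :=
    (hs 9 rfl).1 3 6 rfl (by norm_num) (by norm_num)
  have s4 : c 7 8 = 0 :=
    (hs 9 rfl).1 4 5 rfl (by norm_num) (by norm_num)
  have hc : (i = 5 ∧ j = 10) ∨ (i = 6 ∧ j = 9) ∨ (i = 7 ∧ j = 8) := by omega
  rcases hc with ⟨rfl, rfl⟩ | ⟨rfl, rfl⟩ | ⟨rfl, rfl⟩
  · linear_combination (-1) * x4 + (1) * s3
  · linear_combination (1) * s3
  · linear_combination (1) * s4

theorem small16 (c : Ar) (h : Hy 16 c) (i j : ℕ) (e : i + j = 16) (h1 : (16 + 1) / 4 < i)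
    (h2 : i < j) : c i j = 0 := by
  obtain ⟨ha, hr, hf, hx, hs⟩ := h
  have h3 : (3 : F3) = 0 := rfl
  have r3 : 0 + c 4 12 + c 5 11 + c 6 10 = 0 :=
    (rgr_eq c 3 10).symm.trans (hr 3 10 rfl)
  have x4 : c 6 10 + (-1) * c 5 11 + c 4 12 = 0 :=
    (hx 14 rfl).1 4 10 rfl (by norm_num) (by norm_num)
  have s3 : c 6 10 = 0 :=
    (hs 10 rfl).1 3 7 rfl (by norm_num) (by norm_num)
  have s4 : c 7 9 = 0 :=
    (hs 10 rfl).1 4 6 rfl (by norm_num) (by norm_num)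
  have hc : (i = 5 ∧ j = 11) ∨ (i = 6 ∧ j = 10) ∨ (i = 7 ∧ j = 9) := by omega
  rcases hc with ⟨rfl, rfl⟩ | ⟨rfl, rfl⟩ | ⟨rfl, rfl⟩
  · linear_combination (-1) * r3 + (1) * x4 + ((1) * c 5 11) * h3
  · linear_combination (1) * s3
  · linear_combination (1) * s4

/-- one step away from the middle -/
theorem step (c : Ar) (i j : ℕ) (hr : ∀ p q, p + q + 3 = i + j + 4 → rgr c p q = 0)
    (h1 : j % 3 = 1 → xgr c (i + 1) (j + 1) = 0) (h2 : j % 3 = 2 → xgr c i (j + 2) = 0)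
    (z1 : c (i + 2) (j + 2) = 0) (z2 : c (i + 3) (j + 1) = 0) (z3 : c (i + 4) j = 0) :
    c (i + 1) (j + 3) = 0 := by
  have hj : j % 3 = 0 ∨ j % 3 = 1 ∨ j % 3 = 2 := by omega
  rcases hj with hj | hj | hj
  · have r := hr (i + 1) j (by omega)
    rw [rgr_eq, if_pos (by omega), if_pos hj] at r
    simpa [add_assoc, z1, z2, z3] using r
  · have x := h1 hj
    have e : ¬ (j + 1) % 3 = 0 := by omega
    unfold xgr at x
    rw [if_neg e] at x
    simpa [add_assoc, z1, z2, z3] using x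
  · have x := h2 hj
    have r := hr i (j + 1) (by omega)
    have e : ¬ (j + 2) % 3 = 0 := by omega
    have e' : ¬ (i % 3 = 2 ∧ (j + 2) % 3 = 2) := by omega
    unfold xgr at x
    rw [if_neg e, if_neg e', z1, ite_self] at x
    rw [rgr_eq, if_pos (by omega), if_pos (by omega), if_pos (by omega)] at r
    have z1' : c (i + 2) (j + 1 + 1) = 0 := z1
    rw [z1', z2, ite_self, ite_self] at r
    have h3 : (3 : F3) = 0 := rfl
    have x' : 0 + (-1) * c (i + 1) (j + 3) + c i (j + 4) = 0 := x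
    have r' : c i (j + 4) + c (i + 1) (j + 3) + 0 + 0 = 0 := r
    linear_combination x' - r' + c (i + 1) (j + 3) * h3

theorem big (d : ℕ) (c : Ar) (h : Hy d c) (hd : 17 ≤ d) (i j : ℕ) (e : i + j = d)
    (h1 : (d + 1) / 4 < i) (h2 : i < j) : c i j = 0 := by
  obtain ⟨-, hr, -, hx, hs⟩ := h
  obtain ⟨a, ha⟩ : ∃ a, a = (d - 1) / 4 := ⟨_, rfl⟩
  have hX : ∀ p q, p + q + 2 = d → a < p → a < q → xgr c p q = 0 := fun p q e hp hq =>
    (hx (p + q) e).1 p q rfl (by omega) (by omega)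
  have s3 : ∀ p q, p + q = d → a + 3 ≤ p → a + 3 ≤ q → c p q = 0 := by
    intro p q e hp hq
    have := (hs (d - 6) (by omega)).1 (p - 3) (q - 3) (by omega) (by omega) (by omega)
    simpa only [show p - 3 + 3 = p by omega, show q - 3 + 3 = q by omega] using this
  have s2 : ∀ p q, p + q = d → a + 2 ≤ p → a + 3 ≤ q → c p q = 0 := by
    intro p q e hp hq
    rcases Nat.lt_or_ge (a + 2) p with hp' | hp'
    · exact s3 p q e hp' hq
    obtain rfl : p = a + 1 + 1 := by omega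
    obtain ⟨q, rfl⟩ : ∃ q', q = q' + 3 := ⟨q - 3, by omega⟩
    exact step c (a + 1) q (fun p' q' e' => hr p' q' (by omega))
      (fun _ => hX _ _ (by omega) (by omega) (by omega))
      (fun _ => hX _ _ (by omega) (by omega) (by omega))
      (s3 _ _ (by omega) (by omega) (by omega)) (s3 _ _ (by omega) (by omega) (by omega))
      (s3 _ _ (by omega) (by omega) (by omega))
  rcases Nat.lt_or_ge (a + 1) i with hi | hi
  · exact s2 i j e hi (by omega)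
  obtain rfl : i = a + 1 := by omega
  obtain ⟨q, rfl⟩ : ∃ q', j = q' + 3 := ⟨j - 3, by omega⟩
  exact step c a q (fun p' q' e' => hr p' q' (by omega))
    (fun _ => hX _ _ (by omega) (by omega) (by omega)) (fun _ => by omega)
    (s2 _ _ (by omega) (by omega) (by omega)) (s2 _ _ (by omega) (by omega) (by omega))
    (s2 _ _ (by omega) (by omega) (by omega))

theorem half (d : ℕ) (c : Ar) (h : Hy d c) (i j : ℕ) (e : i + j = d)
    (h1 : (d + 1) / 4 < i) (h2 : i < j) : c i j = 0 := by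
  rcases Nat.lt_or_ge d 17 with hd | hd
  · have h5 : 5 ≤ d ∨ d < 5 := by omega
    rcases h5 with h5 | h5
    · interval_cases d
      · exact small5 c h i j e h1 h2
      · exact small6 c h i j e h1 h2
      · exact small7 c h i j e h1 h2
      · exact small8 c h i j e h1 h2
      · exact small9 c h i j e h1 h2
      · exact small10 c h i j e h1 h2
      · exact small11 c h i j e h1 h2
      · exact small12 c h i j e h1 h2
      · exact small13 c h i j e h1 h2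
      · exact small14 c h i j e h1 h2
      · exact small15 c h i j e h1 h2
      · exact small16 c h i j e h1 h2
    · omega
  · exact big d c h hd i j e h1 h2

theorem mid (d : ℕ) (c : Ar) (h : Hy d c) : Mid d c := by
  intro i j e hi hj
  rcases lt_trichotomy i j with l | l | l
  · exact half d c h i j e hi l
  · subst l
    have a := h.1 i i e
    have h3 : (3 : F3) = 0 := rfl
    linear_combination (-1) * a + c i i * h3
  · rw [h.1 i j e, half d c h j i (by omega) hj l, neg_zero]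

theorem rgr_congr (c c' : Ar) (i j : ℕ) (h : ∀ p q, p + q = i + j + 3 → i ≤ p → j ≤ q →
    c p q = c' p q) : rgr c i j = rgr c' i j := by
  rw [rgr_eq, rgr_eq, h i (j + 3) (by omega) (by omega) (by omega),
    h (i + 1) (j + 2) (by omega) (by omega) (by omega),
    h (i + 2) (j + 1) (by omega) (by omega) (by omega),
    h (i + 3) j (by omega) (by omega) (by omega)]

theorem split (d : ℕ) (c : Ar) (h : Hy d c) (i j : ℕ) (e : i + j + 3 = d) :
    rgr (lo ((d + 1) / 4 + 1) c) i j = 0 := by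
  have hm := mid d c h
  by_cases hj : (d + 1) / 4 < j
  · rw [← h.2.1 i j e]
    refine rgr_congr _ _ i j fun p q e' hp hq => ?_
    unfold lo
    split_ifs with hl
    · rfl
    · exact (hm p q (by omega) (by omega) (by omega)).symm
  by_cases hi : (d + 1) / 4 < i
  · have : rgr (fun _ _ => (0 : F3)) i j = 0 := by simp [rgr]
    rw [← this]
    refine rgr_congr _ _ i j fun p q e' hp hq => ?_
    unfold lo
    rw [if_neg (by omega)]
  have hc : (d = 3 ∧ i = 0 ∧ j = 0) ∨ (d = 4 ∧ i = 0 ∧ j = 1) ∨ (d = 4 ∧ i = 1 ∧ j = 0) ∨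
      (d = 5 ∧ i = 1 ∧ j = 1) ∨ (d = 7 ∧ i = 2 ∧ j = 2) := by omega
  rcases hc with ⟨rfl, rfl, rfl⟩ | ⟨rfl, rfl, rfl⟩ | ⟨rfl, rfl, rfl⟩ | ⟨rfl, rfl, rfl⟩ |
    ⟨rfl, rfl, rfl⟩
  · have f := h.2.2.1.1 rfl
    rw [rgr_eq]
    simpa [lo] using f
  · have f := h.2.2.1.2 rfl
    rw [rgr_eq]
    simpa [lo] using f
  · have f := h.2.2.1.2 rfl
    rw [rgr_eq]
    simpa [lo] using f
  · rw [rgr_eq]
    simp [lo]
  · rw [rgr_eq]
    simp

end GKA

theorem rowGK : RowGK := fun d c h1 h2 h3 h4 h5 =>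
  ⟨GKA.mid d c ⟨h1, h2, h3, h4, h5⟩, GKA.split d c ⟨h1, h2, h3, h4, h5⟩⟩

end Pool.Agent.MP_5f72fe_nt.MS
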