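import Pool.Agent.MP_5f72fe_nt.MS.S1

/-! Row HK: the generators permute the cosets of the Hecke operators. -/

namespace Pool.Agent.MP_5f72fe_nt.MS

namespace HKA

theorem mul_assoc' (a b c : Mt) : mul (mul a b) c = mul a (mul b c) := by
  simp only [mul, Prod.mk.injEq]
  refine ⟨?_, ?_, ?_, ?_⟩ <;> ring

theorem mul_one' (a : Mt) : mul a mI = a := by
  simp [mul, mI]

/-- invariance on the left -/
def Iv {B : Type} (Ψ : Mt → B) : Prop := ∀ (g m : Mt) (a : ℕ), det g = 3 ^ a → Ψ (mul g m) = Ψ m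

/-- the sum over the cosets -/
def Hs {B : Type} [AddCommGroup B] (Ψ : Mt → B) (l : ℕ) (g : Mt) : B :=
  Ψ (mul (l, 0, 0, 1) g) + ∑ j ∈ Finset.range l, Ψ (mul (1, j, 0, l) g)

/-- the sum over the cosets at the identity -/
def H0 {B : Type} [AddCommGroup B] (Ψ : Mt → B) (l : ℕ) : B :=
  Ψ (l, 0, 0, 1) + ∑ j ∈ Finset.range l, Ψ (1, j, 0, l)

variable {B : Type} [AddCommGroup B] {Ψ : Mt → B}

omit [AddCommGroup B] in
theorem Iv.key (h : Iv Ψ) {m m' : Mt} (g : Mt) (a : ℕ) (h1 : det g = 3 ^ a) (h2 : m = mul g m') :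
    Ψ m = Ψ m' := by
  rw [h2]; exact h g m' a h1

omit [AddCommGroup B] in
theorem Iv.right (h : Iv Ψ) (k : Mt) : Iv fun m => Ψ (mul m k) := fun g m a h1 => by
  simp only [mul_assoc']
  exact h g _ a h1

theorem gen2S (h : Iv Ψ) : Hs Ψ 2 mS = H0 Ψ 2 := by
  have e0 : Ψ (mul (2, 0, 0, 1) mS) = Ψ (1, 0, 0, 2) :=
    h.key (0, -1, 1, 0) 0 (by decide) (by decide)
  have e1 : Ψ (mul (1, 0, 0, 2) mS) = Ψ (2, 0, 0, 1) :=
    h.key (0, -1, 1, 0) 0 (by decide) (by decide)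
  have e2 : Ψ (mul (1, 1, 0, 2) mS) = Ψ (1, 1, 0, 2) :=
    h.key (1, -1, 2, -1) 0 (by decide) (by decide)
  simp only [Hs, H0, Finset.sum_range_succ, Finset.sum_range_zero, Nat.cast_ofNat,
    Nat.cast_zero, Nat.cast_one, e0, e1, e2]
  try abel

theorem gen2T (h : Iv Ψ) : Hs Ψ 2 mT = H0 Ψ 2 := by
  have e0 : Ψ (mul (2, 0, 0, 1) mT) = Ψ (2, 0, 0, 1) :=
    h.key (1, 2, 0, 1) 0 (by decide) (by decide)
  have e1 : Ψ (mul (1, 0, 0, 2) mT) = Ψ (1, 1, 0, 2) :=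
    h.key (1, 0, 0, 1) 0 (by decide) (by decide)
  have e2 : Ψ (mul (1, 1, 0, 2) mT) = Ψ (1, 0, 0, 2) :=
    h.key (1, 1, 0, 1) 0 (by decide) (by decide)
  simp only [Hs, H0, Finset.sum_range_succ, Finset.sum_range_zero, Nat.cast_ofNat,
    Nat.cast_zero, Nat.cast_one, e0, e1, e2]
  try abel

theorem gen2Ti (h : Iv Ψ) : Hs Ψ 2 (adj mT) = H0 Ψ 2 := by
  have e0 : Ψ (mul (2, 0, 0, 1) (adj mT)) = Ψ (2, 0, 0, 1) :=
    h.key (1, -2, 0, 1) 0 (by decide) (by decide)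
  have e1 : Ψ (mul (1, 0, 0, 2) (adj mT)) = Ψ (1, 1, 0, 2) :=
    h.key (1, -1, 0, 1) 0 (by decide) (by decide)
  have e2 : Ψ (mul (1, 1, 0, 2) (adj mT)) = Ψ (1, 0, 0, 2) :=
    h.key (1, 0, 0, 1) 0 (by decide) (by decide)
  simp only [Hs, H0, Finset.sum_range_succ, Finset.sum_range_zero, Nat.cast_ofNat,
    Nat.cast_zero, Nat.cast_one, e0, e1, e2]
  try abel

theorem gen2D (h : Iv Ψ) : Hs Ψ 2 mD = H0 Ψ 2 := by
  have e0 : Ψ (mul (2, 0, 0, 1) mD) = Ψ (2, 0, 0, 1) :=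
    h.key (3, 0, 0, 1) 1 (by decide) (by decide)
  have e1 : Ψ (mul (1, 0, 0, 2) mD) = Ψ (1, 0, 0, 2) :=
    h.key (3, 0, 0, 1) 1 (by decide) (by decide)
  have e2 : Ψ (mul (1, 1, 0, 2) mD) = Ψ (1, 1, 0, 2) :=
    h.key (3, -1, 0, 1) 1 (by decide) (by decide)
  simp only [Hs, H0, Finset.sum_range_succ, Finset.sum_range_zero, Nat.cast_ofNat,
    Nat.cast_zero, Nat.cast_one, e0, e1, e2]
  try abel

theorem neg2 (h : Iv Ψ) : Hs Ψ 2 mN = H0 (fun m => Ψ (mul mN m)) 2 := by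
  have e0 : Ψ (mul (2, 0, 0, 1) mN) = Ψ (mul mN (2, 0, 0, 1)) :=
    h.key (1, 0, 0, 1) 0 (by decide) (by decide)
  have e1 : Ψ (mul (1, 0, 0, 2) mN) = Ψ (mul mN (1, 0, 0, 2)) :=
    h.key (1, 0, 0, 1) 0 (by decide) (by decide)
  have e2 : Ψ (mul (1, 1, 0, 2) mN) = Ψ (mul mN (1, 1, 0, 2)) :=
    h.key (1, 1, 0, 1) 0 (by decide) (by decide)
  simp only [Hs, H0, Finset.sum_range_succ, Finset.sum_range_zero, Nat.cast_ofNat,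
    Nat.cast_zero, Nat.cast_one, e0, e1, e2]
  try abel

theorem gen7S (h : Iv Ψ) : Hs Ψ 7 mS = H0 Ψ 7 := by
  have e0 : Ψ (mul (7, 0, 0, 1) mS) = Ψ (1, 0, 0, 7) :=
    h.key (0, -1, 1, 0) 0 (by decide) (by decide)
  have e1 : Ψ (mul (1, 0, 0, 7) mS) = Ψ (7, 0, 0, 1) :=
    h.key (0, -1, 1, 0) 0 (by decide) (by decide)
  have e2 : Ψ (mul (1, 1, 0, 7) mS) = Ψ (1, 6, 0, 7) :=
    h.key (1, -1, 7, -6) 0 (by decide) (by decide)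
  have e3 : Ψ (mul (1, 2, 0, 7) mS) = Ψ (1, 3, 0, 7) :=
    h.key (2, -1, 7, -3) 0 (by decide) (by decide)
  have e4 : Ψ (mul (1, 3, 0, 7) mS) = Ψ (1, 2, 0, 7) :=
    h.key (3, -1, 7, -2) 0 (by decide) (by decide)
  have e5 : Ψ (mul (1, 4, 0, 7) mS) = Ψ (1, 5, 0, 7) :=
    h.key (4, -3, 7, -5) 0 (by decide) (by decide)
  have e6 : Ψ (mul (1, 5, 0, 7) mS) = Ψ (1, 4, 0, 7) :=
    h.key (5, -3, 7, -4) 0 (by decide) (by decide)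
  have e7 : Ψ (mul (1, 6, 0, 7) mS) = Ψ (1, 1, 0, 7) :=
    h.key (6, -1, 7, -1) 0 (by decide) (by decide)
  simp only [Hs, H0, Finset.sum_range_succ, Finset.sum_range_zero, Nat.cast_ofNat,
    Nat.cast_zero, Nat.cast_one, e0, e1, e2, e3, e4, e5, e6, e7]
  try abel

theorem gen7T (h : Iv Ψ) : Hs Ψ 7 mT = H0 Ψ 7 := by
  have e0 : Ψ (mul (7, 0, 0, 1) mT) = Ψ (7, 0, 0, 1) :=
    h.key (1, 7, 0, 1) 0 (by decide) (by decide)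
  have e1 : Ψ (mul (1, 0, 0, 7) mT) = Ψ (1, 1, 0, 7) :=
    h.key (1, 0, 0, 1) 0 (by decide) (by decide)
  have e2 : Ψ (mul (1, 1, 0, 7) mT) = Ψ (1, 2, 0, 7) :=
    h.key (1, 0, 0, 1) 0 (by decide) (by decide)
  have e3 : Ψ (mul (1, 2, 0, 7) mT) = Ψ (1, 3, 0, 7) :=
    h.key (1, 0, 0, 1) 0 (by decide) (by decide)
  have e4 : Ψ (mul (1, 3, 0, 7) mT) = Ψ (1, 4, 0, 7) :=
    h.key (1, 0, 0, 1) 0 (by decide) (by decide)
  have e5 : Ψ (mul (1, 4, 0, 7) mT) = Ψ (1, 5, 0, 7) :=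
    h.key (1, 0, 0, 1) 0 (by decide) (by decide)
  have e6 : Ψ (mul (1, 5, 0, 7) mT) = Ψ (1, 6, 0, 7) :=
    h.key (1, 0, 0, 1) 0 (by decide) (by decide)
  have e7 : Ψ (mul (1, 6, 0, 7) mT) = Ψ (1, 0, 0, 7) :=
    h.key (1, 1, 0, 1) 0 (by decide) (by decide)
  simp only [Hs, H0, Finset.sum_range_succ, Finset.sum_range_zero, Nat.cast_ofNat,
    Nat.cast_zero, Nat.cast_one, e0, e1, e2, e3, e4, e5, e6, e7]
  try abel

theorem gen7Ti (h : Iv Ψ) : Hs Ψ 7 (adj mT) = H0 Ψ 7 := by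
  have e0 : Ψ (mul (7, 0, 0, 1) (adj mT)) = Ψ (7, 0, 0, 1) :=
    h.key (1, -7, 0, 1) 0 (by decide) (by decide)
  have e1 : Ψ (mul (1, 0, 0, 7) (adj mT)) = Ψ (1, 6, 0, 7) :=
    h.key (1, -1, 0, 1) 0 (by decide) (by decide)
  have e2 : Ψ (mul (1, 1, 0, 7) (adj mT)) = Ψ (1, 0, 0, 7) :=
    h.key (1, 0, 0, 1) 0 (by decide) (by decide)
  have e3 : Ψ (mul (1, 2, 0, 7) (adj mT)) = Ψ (1, 1, 0, 7) :=
    h.key (1, 0, 0, 1) 0 (by decide) (by decide)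
  have e4 : Ψ (mul (1, 3, 0, 7) (adj mT)) = Ψ (1, 2, 0, 7) :=
    h.key (1, 0, 0, 1) 0 (by decide) (by decide)
  have e5 : Ψ (mul (1, 4, 0, 7) (adj mT)) = Ψ (1, 3, 0, 7) :=
    h.key (1, 0, 0, 1) 0 (by decide) (by decide)
  have e6 : Ψ (mul (1, 5, 0, 7) (adj mT)) = Ψ (1, 4, 0, 7) :=
    h.key (1, 0, 0, 1) 0 (by decide) (by decide)
  have e7 : Ψ (mul (1, 6, 0, 7) (adj mT)) = Ψ (1, 5, 0, 7) :=
    h.key (1, 0, 0, 1) 0 (by decide) (by decide)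
  simp only [Hs, H0, Finset.sum_range_succ, Finset.sum_range_zero, Nat.cast_ofNat,
    Nat.cast_zero, Nat.cast_one, e0, e1, e2, e3, e4, e5, e6, e7]
  try abel

theorem gen7D (h : Iv Ψ) : Hs Ψ 7 mD = H0 Ψ 7 := by
  have e0 : Ψ (mul (7, 0, 0, 1) mD) = Ψ (7, 0, 0, 1) :=
    h.key (3, 0, 0, 1) 1 (by decide) (by decide)
  have e1 : Ψ (mul (1, 0, 0, 7) mD) = Ψ (1, 0, 0, 7) :=
    h.key (3, 0, 0, 1) 1 (by decide) (by decide)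
  have e2 : Ψ (mul (1, 1, 0, 7) mD) = Ψ (1, 5, 0, 7) :=
    h.key (3, -2, 0, 1) 1 (by decide) (by decide)
  have e3 : Ψ (mul (1, 2, 0, 7) mD) = Ψ (1, 3, 0, 7) :=
    h.key (3, -1, 0, 1) 1 (by decide) (by decide)
  have e4 : Ψ (mul (1, 3, 0, 7) mD) = Ψ (1, 1, 0, 7) :=
    h.key (3, 0, 0, 1) 1 (by decide) (by decide)
  have e5 : Ψ (mul (1, 4, 0, 7) mD) = Ψ (1, 6, 0, 7) :=
    h.key (3, -2, 0, 1) 1 (by decide) (by decide)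
  have e6 : Ψ (mul (1, 5, 0, 7) mD) = Ψ (1, 4, 0, 7) :=
    h.key (3, -1, 0, 1) 1 (by decide) (by decide)
  have e7 : Ψ (mul (1, 6, 0, 7) mD) = Ψ (1, 2, 0, 7) :=
    h.key (3, 0, 0, 1) 1 (by decide) (by decide)
  simp only [Hs, H0, Finset.sum_range_succ, Finset.sum_range_zero, Nat.cast_ofNat,
    Nat.cast_zero, Nat.cast_one, e0, e1, e2, e3, e4, e5, e6, e7]
  try abel

theorem neg7 (h : Iv Ψ) : Hs Ψ 7 mN = H0 (fun m => Ψ (mul mN m)) 7 := by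
  have e0 : Ψ (mul (7, 0, 0, 1) mN) = Ψ (mul mN (7, 0, 0, 1)) :=
    h.key (1, 0, 0, 1) 0 (by decide) (by decide)
  have e1 : Ψ (mul (1, 0, 0, 7) mN) = Ψ (mul mN (1, 0, 0, 7)) :=
    h.key (1, 0, 0, 1) 0 (by decide) (by decide)
  have e2 : Ψ (mul (1, 1, 0, 7) mN) = Ψ (mul mN (1, 6, 0, 7)) :=
    h.key (1, 1, 0, 1) 0 (by decide) (by decide)
  have e3 : Ψ (mul (1, 2, 0, 7) mN) = Ψ (mul mN (1, 5, 0, 7)) :=
    h.key (1, 1, 0, 1) 0 (by decide) (by decide)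
  have e4 : Ψ (mul (1, 3, 0, 7) mN) = Ψ (mul mN (1, 4, 0, 7)) :=
    h.key (1, 1, 0, 1) 0 (by decide) (by decide)
  have e5 : Ψ (mul (1, 4, 0, 7) mN) = Ψ (mul mN (1, 3, 0, 7)) :=
    h.key (1, 1, 0, 1) 0 (by decide) (by decide)
  have e6 : Ψ (mul (1, 5, 0, 7) mN) = Ψ (mul mN (1, 2, 0, 7)) :=
    h.key (1, 1, 0, 1) 0 (by decide) (by decide)
  have e7 : Ψ (mul (1, 6, 0, 7) mN) = Ψ (mul mN (1, 1, 0, 7)) :=
    h.key (1, 1, 0, 1) 0 (by decide) (by decide)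
  simp only [Hs, H0, Finset.sum_range_succ, Finset.sum_range_zero, Nat.cast_ofNat,
    Nat.cast_zero, Nat.cast_one, e0, e1, e2, e3, e4, e5, e6, e7]
  try abel

theorem step {l : ℕ} {s : Mt} (hs : ∀ Φ : Mt → B, Iv Φ → Hs Φ l s = H0 Φ l) (h : Iv Ψ) (g : Mt)
    (hg : Hs Ψ l g = H0 Ψ l) : Hs Ψ l (mul s g) = H0 Ψ l := by
  rw [← hg]
  have := hs _ (h.right g)
  simpa only [Hs, H0, mul_assoc'] using this

theorem base (l : ℕ) : Hs Ψ l mI = H0 Ψ l := by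
  simp only [Hs, H0, mul_one']

end HKA

theorem rowHK : OfHK := by
  intro hG B _ Ψ l hl h
  have h' : HKA.Iv Ψ := h
  rcases hl with rfl | rfl
  · exact ⟨hG.all (fun g => HKA.Hs Ψ 2 g = HKA.H0 Ψ 2) (HKA.base 2)
      (HKA.step (fun _ => HKA.gen2S) h') (HKA.step (fun _ => HKA.gen2T) h')
      (HKA.step (fun _ => HKA.gen2Ti) h') (HKA.step (fun _ => HKA.gen2D) h'), HKA.neg2 h'⟩
  · exact ⟨hG.all (fun g => HKA.Hs Ψ 7 g = HKA.H0 Ψ 7) (HKA.base 7)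
      (HKA.step (fun _ => HKA.gen7S) h') (HKA.step (fun _ => HKA.gen7T) h')
      (HKA.step (fun _ => HKA.gen7Ti) h') (HKA.step (fun _ => HKA.gen7D) h'), HKA.neg7 h'⟩

end Pool.Agent.MP_5f72fe_nt.MS
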