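import Pool.Agent.MP_5f72fe_nt.MS.S3

/-! The Hecke eigenvalue equation at the base point gives the equation for the whole form. -/

namespace Pool.Agent.MP_5f72fe_nt.MS

namespace HKFA

lemma ap_mul (g h : Mt) (v : V) : ap (mul g h) v = ap g (ap h v) := by
  simp only [ap, mul]
  refine Prod.ext ?_ ?_ <;> push_cast <;> ring

lemma det_mul (g h : Mt) : det (mul g h) = det g * det h := by
  simp only [det, mul]; ring

lemma ap_smul (g : Mt) (x : ℚ) (v : V) : ap g (x • v) = x • ap g v := by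
  simp only [ap]
  refine Prod.ext ?_ ?_ <;> simp <;> ring

lemma ap_add (g : Mt) (v w : V) : ap g (v + w) = ap g v + ap g w := by
  simp only [ap]
  refine Prod.ext ?_ ?_ <;> simp <;> ring

lemma dt_ap (g : Mt) (v w : V) : dt (ap g v) (ap g w) = det g * dt v w := by
  simp only [ap, dt, det]; push_cast; ring

lemma ap_adj (g : Mt) (v : V) : ap (adj g) (ap g v) = (det g : ℚ) • v := by
  simp only [ap, adj, det]
  refine Prod.ext ?_ ?_ <;> simp <;> ring

lemma det_adj (g : Mt) : det (adj g) = det g := by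
  simp only [det, adj]; ring

lemma lF_lF (hC : RowCU) (k : ℕ) (g d : Mt) (F : Af) (hg : 0 < det g) (hd : 0 < det d) :
    lF k (mul d g) F = lF k g (lF k d F) := by
  funext v w
  simp only [lF]
  rw [hC.comp k d g _ hd hg, ap_mul, ap_mul]

lemma TF_apply (k l : ℕ) (F : Af) (v w : V) : TF k l F v w =
    lF k (l, 0, 0, 1) F v w + ∑ j ∈ Finset.range l, lF k (1, j, 0, l) F v w := by
  simp only [TF, Pi.add_apply, Finset.sum_apply]

/-- the Hecke operator preserves left invariance -/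
lemma inv_TF (hK : RowHK) (hC : RowCU) (k r l : ℕ) (F : Af) (hl : l = 2 ∨ l = 7)
    (hF : Aut k r F) (g : Mt) (a : ℕ) (hg : det g = 3 ^ a) : lF k g (TF k l F) = TF k l F := by
  have l0 : (0 : ℤ) < l := by rcases hl with rfl | rfl <;> norm_num
  have d1 : 0 < det ((l : ℤ), 0, 0, 1) := by simpa [det] using l0
  have d2 : ∀ j : ℕ, 0 < det (1, (j : ℤ), 0, (l : ℤ)) := fun j => by simpa [det] using l0
  have g0 : 0 < det g := by rw [hg]; positivity
  have h := (hK Af (fun m => if 0 < det m then lF k m F else 0) l hl (fun g m a hg => by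
    have g0 : 0 < det g := by rw [hg]; positivity
    by_cases hm : 0 < det m
    · have e : lF k g F = F := by funext v w; exact hF.inv g a hg v w
      rw [if_pos hm, if_pos (by rw [det_mul]; positivity), lF_lF hC k m g F hm g0, e]
    · rw [if_neg hm, if_neg]
      rw [det_mul]
      exact fun h => hm ((mul_pos_iff_of_pos_left g0).1 h))).1 g a hg
  have e1 : 0 < det (mul ((l : ℤ), 0, 0, 1) g) := by rw [det_mul]; positivity
  have e2 : ∀ j : ℕ, 0 < det (mul (1, (j : ℤ), 0, (l : ℤ)) g) := fun j => by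
    rw [det_mul]; exact mul_pos (d2 j) g0
  simp only [if_pos d1, if_pos e1, if_pos (d2 _), if_pos (e2 _), lF_lF hC k g _ F g0 d1,
    lF_lF hC k g _ F g0 (d2 _)] at h
  obtain ⟨L, hL⟩ := hC.lin k g
  refine Eq.trans ?_ h
  funext v w
  simp only [Pi.add_apply, Finset.sum_apply]
  show sl k g (TF k l F (ap g v) (ap g w)) = sl k g (lF k _ F (ap g v) (ap g w)) +
    ∑ j ∈ Finset.range l, sl k g (lF k _ F (ap g v) (ap g w))
  simp only [← hL]
  rw [TF_apply, map_add, map_sum]

end HKFA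

open HKFA in
theorem rowHKF : OfHKF := by
  intro hB hS hK hC k r l F a _ hl hF hR h0
  obtain ⟨O, hO⟩ := hB.ring
  have u1 : Un (1 : ℚ) := by simpa using (hB.int 1).2
  have ul : Un (l : ℚ) := by
    have := (hB.int l).2
    rcases hl with rfl | rfl <;> simpa using this
  have i0 : In 0 := (hO _).1 O.zero_mem
  have z : ∀ g, sl k g 0 = 0 := fun g => by
    obtain ⟨L, hL⟩ := hC.lin k g
    rw [← hL, map_zero]
  have scF : ∀ (m : ℕ) (v w : V), F ((3 ^ m : ℚ) • v) ((3 ^ m : ℚ) • w) = F v w := by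
    intro m v w
    have e : ∀ v : V, ap (3 ^ m, 0, 0, 3 ^ m) v = (3 ^ m : ℚ) • v := fun v => by
      simp only [ap]
      refine Prod.ext ?_ ?_ <;> simp
    have := hF.inv (3 ^ m, 0, 0, 3 ^ m) (m + m) (by simp [det, pow_add]) v w
    rwa [hC.sc k _ _ (by positivity) (hF.cu _ _), e, e] at this
  obtain ⟨G, hG⟩ : ∃ G : Af, ∀ v w, G v w = TF k l F v w - a • F v w := ⟨_, fun _ _ => rfl⟩
  have sc : ∀ (m : ℕ) (v w : V), G ((3 ^ m : ℚ) • v) ((3 ^ m : ℚ) • w) = G v w := by
    intro m v w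
    simp only [hG, TF_apply, lF, ap_smul, scF]
  have inv : ∀ (g : Mt) (n : ℕ), det g = 3 ^ n → ∀ v w, sl k g (G (ap g v) (ap g w)) = G v w := by
    intro g n hg v w
    obtain ⟨L, hL⟩ := hC.lin k g
    have h1 : sl k g (TF k l F (ap g v) (ap g w)) = TF k l F v w :=
      congrFun (congrFun (inv_TF hK hC k r l F hl hF g n hg) v) w
    rw [hG, hG, ← hL, map_sub, map_smul, hL, hL, h1, hF.inv g n hg]
  have r0 : R0 r G := by
    intro v w x y b c hx hy hb hc
    simp only [hG, TF_apply, lF, ap_smul, ap_add, hR _ _ x y b c hx hy hb hc]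
  have base : G e2 e1 = 0 := by
    have a1 : F (ap (l, 0, 0, 1) e2) (ap (l, 0, 0, 1) e1) = F e2 e1 := by
      rw [← hR e2 e1 1 l 0 0 u1 ul i0 i0]
      congr 1 <;> simp [ap, e1, e2]
    have a2 : ∀ j : ℕ, F (ap (1, j, 0, l) e2) (ap (1, j, 0, l) e1) = F e2 e1 := fun j => by
      rw [← hR e2 e1 l 1 j 0 ul u1 ((hO _).1 (natCast_mem O j)) i0]
      congr 1 <;> simp [ap, e1, e2]
    simp only [hG, TF_apply, lF, a1, a2]
    rw [h0, sub_self]
  funext v w
  refine sub_eq_zero.1 ((hG v w).symm.trans ?_)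
  by_cases hd : dt v w = 0
  · have j : ∀ g, F (ap g v) (ap g w) = 0 := fun g => hF.junk _ _ (by rw [dt_ap, hd, mul_zero])
    simp only [hG, TF_apply, lF, j, z, hF.junk v w hd]
    simp
  obtain ⟨g, n, m, x, y, b, c, hg, hx, hy, hb, hc, ev, ew⟩ := hS r v w hd
  have b1 : G (3 ^ r * b, x) (y, 3 ^ r * c) = 0 := by
    rw [← base, ← r0 e2 e1 x y (3 ^ r * b) c hx hy
      ((hO _).1 (O.mul_mem (O.pow_mem (ofNat_mem O 3) r) ((hO _).2 hb))) hc]
    congr 1 <;> simp [e1, e2]
  rw [← sc m, ev, ew, ← inv (adj g) n (by rw [det_adj, hg]), ap_adj, ap_adj, hg]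
  push_cast
  rw [sc, b1, z]

end Pool.Agent.MP_5f72fe_nt.MS
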