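import Pool.Agent.MP_5f72fe_nt.MS.S1

/-! Symbols on the chart: invariance, generation, the relation and the flip. -/

namespace Pool.Agent.MP_5f72fe_nt.MS

open scoped NumberTheorySymbols

namespace IND0A

variable {A : Type} [AddCommGroup A] {f : V → V → A} {Ψ : V → V → Ch A} {c c' : V} {g h : Mt}

lemma ad_self (h : Ad f) (hc : c ≠ 0) : f c c = 0 := by
  simpa using h.hom c 1 hc one_ne_zero

lemma ad_neg (h : Ad f) (hc : c ≠ 0) (hc' : c' ≠ 0) : f c c' = -f c' c :=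
  eq_neg_of_add_eq_zero_left ((h.add c c' c hc hc' hc).trans (ad_self h hc))

lemma ad_smr (h : Ad f) (hc : c ≠ 0) (hc' : c' ≠ 0) {l : ℚ} (hl : l ≠ 0) : f c (l • c') = f c c' := by
  rw [← h.add c c' (l • c') hc hc' (smul_ne_zero hl hc'), h.hom c' l hc' hl, add_zero]

lemma ad_sml (h : Ad f) (hc : c ≠ 0) (hc' : c' ≠ 0) {l : ℚ} (hl : l ≠ 0) : f (l • c) c' = f c c' := by
  rw [ad_neg h (smul_ne_zero hl hc) hc', ad_smr h hc' hc hl, ← ad_neg h hc hc']

lemma e1_ne : e1 ≠ 0 := by simp [e1]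
lemma e2_ne : e2 ≠ 0 := by simp [e2]

lemma ad_sub (h : Ad f) (hc : c ≠ 0) (hc' : c' ≠ 0) : f c c' = f e1 c' - f e1 c :=
  eq_sub_of_add_eq' (h.add e1 c c' e1_ne hc hc')

lemma ap_mul (g h : Mt) (v : V) : ap (mul g h) v = ap g (ap h v) := by
  simp only [ap, mul, Prod.mk.injEq]
  push_cast
  constructor <;> ring

lemma ap_smul (g : Mt) (l : ℚ) (v : V) : ap g (l • v) = l • ap g v := by
  simp only [ap, Prod.smul_mk, Prod.smul_fst, Prod.smul_snd, smul_eq_mul, Prod.mk.injEq]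
  constructor <;> ring

lemma ap_one (v : V) : ap mI v = v := by simp [ap, mI]

lemma det_mul (g h : Mt) : det (mul g h) = det g * det h := by
  simp only [det, mul]
  ring

lemma det_adj (g : Mt) : det (adj g) = det g := by
  simp only [det, adj]
  ring

lemma mul_adj (hg : det g = 1) : mul g (adj g) = mI := by
  simp only [det] at hg
  simp only [mul, adj, mI, Prod.mk.injEq]
  refine ⟨?_, ?_, ?_, ?_⟩ <;> linarith

lemma ap_adj (hg : det g = 1) (v : V) : ap g (ap (adj g) v) = v := by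
  rw [← ap_mul, mul_adj hg, ap_one]

lemma ap_ne (hg : det g ≠ 0) (hc : c ≠ 0) : ap g c ≠ 0 := by
  intro h
  have hd : ((g.1 : ℚ) * g.2.2.2 - g.2.1 * g.2.2.1) ≠ 0 := by exact_mod_cast hg
  simp only [ap, Prod.mk_eq_zero] at h
  refine hc (Prod.ext (mul_left_cancel₀ hd ?_) (mul_left_cancel₀ hd ?_))
  · rw [Prod.fst_zero]
    linear_combination g.2.2.2 * h.1 - g.2.1 * h.2
  · rw [Prod.snd_zero]
    linear_combination g.1 * h.2 - g.2.2.1 * h.1

lemma ap_ne1 (hg : det g = 1) (hc : c ≠ 0) : ap g c ≠ 0 := ap_ne (by rw [hg]; exact one_ne_zero) hc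

lemma g0_of (hg : det g = 1) (h3 : 3 ∣ g.2.2.1) : G0 g := by
  simp only [det] at hg
  refine ⟨h3, fun h => ?_, fun h => ?_⟩
  · have : (3 : ℤ) ∣ 1 := hg ▸ (h.mul_right _).sub (h3.mul_left _)
    omega
  · have : (3 : ℤ) ∣ 1 := hg ▸ (h.mul_left _).sub (h3.mul_left _)
    omega

lemma adj3 (h3 : 3 ∣ g.2.2.1) : 3 ∣ (adj g).2.2.1 := h3.neg_right

lemma mu_one (u : ℚ) : mu mI u = u := by simp [mu, mI]
lemma my_one (u : ℚ) : my mI u = u := by simp [my, mI]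

/-- invariance under one matrix -/
def Inv (Ψ : V → V → Ch A) (g : Mt) : Prop :=
  ∀ c c' : V, c ≠ 0 → c' ≠ 0 → EqO (act g (Ψ (ap g c) (ap g c'))) (Ψ c c')

omit [AddCommGroup A] in
lemma inv_mul (hM : RowMOB) (hg : G0 g) (hh : G0 h) (hd : det h = 1) (h1 : Inv Ψ g) (h2 : Inv Ψ h) :
    Inv Ψ (mul g h) := by
  intro c c' hc hc' u y hu hy
  have a1 := h1 _ _ (ap_ne1 hd hc) (ap_ne1 hd hc') _ _ (hM.pres h hh u hu).1 (hM.pres h hh y hy).2.1
  have a2 := h2 c c' hc hc' u y hu hy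
  simp only [act] at a1 a2 ⊢
  rw [ap_mul, ap_mul, ((hM.comp g h hg hh).2 u hu).1, ((hM.comp g h hg hh).2 y hy).2, a1, a2]

omit [AddCommGroup A] in
lemma inv_adj (hM : RowMOB) (hd : det h = 1) (h3 : 3 ∣ h.2.2.1) (h2 : Inv Ψ h) : Inv Ψ (adj h) := by
  intro c c' hc hc' u y hu hy
  have hd' : det (adj h) = 1 := (det_adj h).trans hd
  have hh := g0_of hd h3
  have hh' := g0_of hd' (adj3 h3)
  have a1 := h2 _ _ (ap_ne1 hd' hc) (ap_ne1 hd' hc') _ _ (hM.pres _ hh' u hu).1 (hM.pres _ hh' y hy).2.1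
  simp only [act] at a1 ⊢
  rw [← a1, ap_adj hd, ap_adj hd, ← ((hM.comp _ _ hh hh').2 u hu).1, ← ((hM.comp _ _ hh hh').2 y hy).2,
    mul_adj hd, mu_one, my_one]

lemma adj_adj (g : Mt) : adj (adj g) = g := by simp [adj]

lemma adj_mul (g h : Mt) : adj (mul g h) = mul (adj h) (adj g) := by
  simp only [adj, mul, Prod.mk.injEq]
  refine ⟨?_, ?_, ?_, ?_⟩ <;> ring

/-- generators, multiplication on the right -/
lemma three_r (hG : RowGEN) (P : Mt → Prop) (h1 : P mI) (h2 : P (-1, 0, 0, -1))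
    (hT : ∀ g, P g → P (mul g mT)) (hT' : ∀ g, P g → P (mul g (adj mT)))
    (hL : ∀ g, P g → P (mul g mL)) (hL' : ∀ g, P g → P (mul g (adj mL)))
    (g : Mt) (hd : det g = 1) (h3 : 3 ∣ g.2.2.1) : P g := by
  have := hG.three (fun g => P (adj g)) h1 h2 (fun g h => by rw [adj_mul]; exact hT' _ h)
    (fun g h => by rw [adj_mul, adj_adj]; exact hT _ h) (fun g h => by rw [adj_mul]; exact hL' _ h)
    (fun g h => by rw [adj_mul, adj_adj]; exact hL _ h) (adj g) ((det_adj g).trans hd) (adj3 h3)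
  rwa [adj_adj] at this

lemma neg_ap (v : V) : ap (-1, 0, 0, -1) v = (-1 : ℚ) • v := by
  simp [ap, Prod.ext_iff]

lemma dT : det mT = 1 := by decide
lemma dL : det mL = 1 := by decide
lemma tT : 3 ∣ mT.2.2.1 := by decide
lemma tL : 3 ∣ mL.2.2.1 := by decide

lemma inv_all (hG : RowGEN) (hM : RowMOB) (hΨ : Sy0 Ψ) (hd : det g = 1) (h3 : 3 ∣ g.2.2.1) : Inv Ψ g := by
  have step : ∀ h : Mt, det h = 1 → 3 ∣ h.2.2.1 → Inv Ψ h → ∀ g, G0 g ∧ Inv Ψ g →
      G0 (mul g h) ∧ Inv Ψ (mul g h) := fun h a b i g p =>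
    ⟨(hM.comp g h p.1 (g0_of a b)).1, inv_mul hM p.1 (g0_of a b) a p.2 i⟩
  refine (three_r hG (fun g => G0 g ∧ Inv Ψ g) ⟨g0_of (by decide) (by decide), ?_⟩
    ⟨g0_of (by decide) (by decide), ?_⟩ (step _ dT tT hΨ.invT)
    (step _ ((det_adj _).trans dT) (adj3 tT) (inv_adj hM dT tT hΨ.invT)) (step _ dL tL hΨ.invL)
    (step _ ((det_adj _).trans dL) (adj3 tL) (inv_adj hM dL tL hΨ.invL)) g hd h3).2
  · intro c c' _ _ u y _ _
    simp only [act, ap_one, mu_one, my_one]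
  · intro c c' hc hc' u y hu hy
    have e1 : mu (-1, 0, 0, -1) u = u := by simp [mu]
    have e2 : my (-1, 0, 0, -1) y = y := by simp [my]
    simp only [act, e1, e2, neg_ap]
    exact (ad_sml (hΨ.ad u y hu hy) hc (smul_ne_zero (by norm_num) hc') (by norm_num)).trans
      (ad_smr (hΨ.ad u y hu hy) hc hc' (by norm_num))

/-- the action on the basic path -/
lemma act_eq (hG : RowGEN) (hM : RowMOB) (hΨ : Sy0 Ψ) (hd : det g = 1) (h3 : 3 ∣ g.2.2.1) :
    EqO (act g (Ψ e1 e2)) (Ψ (ap (adj g) e1) (ap (adj g) e2)) := by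
  have hd' : det (adj g) = 1 := (det_adj g).trans hd
  have := inv_all hG hM hΨ hd h3 _ _ (ap_ne1 hd' e1_ne) (ap_ne1 hd' e2_ne)
  rwa [ap_adj hd, ap_adj hd] at this

lemma prim (hc : c ≠ 0) : ∃ (l : ℚ) (h k : ℤ), l ≠ 0 ∧ IsCoprime h k ∧ c = l • ((h : ℚ), (k : ℚ)) := by
  obtain ⟨a, b⟩ := c
  by_cases hb : b = 0
  · subst hb
    refine ⟨a, 1, 0, fun h => hc (by simp [h]), isCoprime_one_left, by simp⟩
  · have hd : (((a / b).den : ℕ) : ℚ) ≠ 0 := by exact_mod_cast (a / b).den_ne_zero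
    refine ⟨b / (a / b).den, (a / b).num, (a / b).den, div_ne_zero hb hd,
      Int.isCoprime_iff_gcd_eq_one.2 (a / b).reduced, ?_⟩
    have e := Rat.num_div_den (a / b)
    rw [div_eq_div_iff hd hb] at e
    simp only [Prod.smul_mk, smul_eq_mul, Int.cast_natCast, Prod.mk.injEq]
    constructor
    · field_simp
      linarith
    · field_simp

lemma ind_all (hG : RowGEN) (hM : RowMOB) (hΨ : Sy0 Ψ) {P : AddSubgroup A}
    (hP : ∀ u y, In u → In y → Ψ e1 e2 u y ∈ P) (hc : c ≠ 0) {u y : ℚ} (hu : In u) (hy : In y) :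
    Ψ e1 c u y ∈ P := by
  have ad := hΨ.ad u y hu hy
  have hA : ∀ g : Mt, det g = 1 → 3 ∣ g.2.2.1 → Ψ (ap g e1) (ap g e2) u y ∈ P := fun g hd h3 => by
    have hd' : det (adj g) = 1 := (det_adj g).trans hd
    have hh := g0_of hd' (adj3 h3)
    have := act_eq hG hM hΨ hd' (adj3 h3) u y hu hy
    rw [adj_adj] at this
    rw [← this]
    exact hP _ _ (hM.pres _ hh u hu).1 (hM.pres _ hh y hy).2.1
  have hB : ∀ g : Mt, det g = 1 → 3 ∣ g.2.2.1 → Ψ e1 (ap g e1) u y ∈ P → Ψ e1 (ap g e2) u y ∈ P :=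
    fun g hd h3 h => by
      rw [← ad.add e1 _ _ e1_ne (ap_ne1 hd e1_ne) (ap_ne1 hd e2_ne)]
      exact P.add_mem h (hA g hd h3)
  have hS : ∀ g : Mt, det g = 1 → 3 ∣ g.2.2.1 → Ψ e1 (ap g e1) u y ∈ P := by
    have s1 : ∀ h : Mt, det h = 1 → 3 ∣ h.2.2.1 → ap h e1 = e1 → ∀ g : Mt,
        det g = 1 ∧ G0 g ∧ Ψ e1 (ap g e1) u y ∈ P →
        det (mul g h) = 1 ∧ G0 (mul g h) ∧ Ψ e1 (ap (mul g h) e1) u y ∈ P := fun h a b e g p =>
      ⟨by rw [det_mul, a, p.1, mul_one], (hM.comp g h p.2.1 (g0_of a b)).1, by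
        rw [ap_mul, e]; exact p.2.2⟩
    have s2 : ∀ h : Mt, det h = 1 → 3 ∣ h.2.2.1 → ap h e2 = e2 → ∀ g : Mt,
        det g = 1 ∧ G0 g ∧ Ψ e1 (ap g e1) u y ∈ P →
        det (mul g h) = 1 ∧ G0 (mul g h) ∧ Ψ e1 (ap (mul g h) e1) u y ∈ P := fun h a b e g p => by
      have d : det (mul g h) = 1 := by rw [det_mul, a, p.1, mul_one]
      have g0 := (hM.comp g h p.2.1 (g0_of a b)).1
      refine ⟨d, g0, ?_⟩
      have a1 := hB g p.1 p.2.1.1 p.2.2
      have a2 := hA _ d g0.1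
      rw [← e, ← ap_mul] at a1
      have a3 := ad_sub ad (ap_ne1 d e1_ne) (ap_ne1 d e2_ne)
      have a4 := P.sub_mem a1 a2
      rwa [a3, sub_sub_cancel] at a4
    intro g hd h3
    refine (three_r hG (fun g => det g = 1 ∧ G0 g ∧ Ψ e1 (ap g e1) u y ∈ P)
      ⟨by decide, g0_of (by decide) (by decide), ?_⟩ ⟨by decide, g0_of (by decide) (by decide), ?_⟩
      (s1 _ dT tT (by simp [ap, mT, e1])) (s1 _ ((det_adj _).trans dT) (adj3 tT) (by simp [ap, mT, adj, e1]))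
      (s2 _ dL tL (by simp [ap, mL, e2])) (s2 _ ((det_adj _).trans dL) (adj3 tL) (by simp [ap, mL, adj, e2]))
      g hd h3).2.2
    · rw [ap_one, ad_self ad e1_ne]
      exact P.zero_mem
    · rw [neg_ap, ad.hom e1 _ e1_ne (by norm_num)]
      exact P.zero_mem
  obtain ⟨l, h, k, hl, hk, rfl⟩ := prim hc
  have hne : ((h : ℚ), (k : ℚ)) ≠ (0 : V) := right_ne_zero_of_smul hc
  rw [ad_smr ad e1_ne hne hl]
  by_cases h3 : 3 ∣ k
  · obtain ⟨a, b, hab⟩ := hk
    have := hS (h, -b, k, a) (by simp only [det]; linarith) h3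
    simpa [ap, e1] using this
  · have c3 : IsCoprime (3 : ℤ) k := (Int.prime_three.irreducible.coprime_iff_not_dvd).2 h3
    obtain ⟨a, b, hab⟩ := c3.mul_left hk
    have d : det (b, h, -(3 * a), k) = 1 := by simp only [det]; linarith
    have t : (3 : ℤ) ∣ (b, h, -(3 * a), k).2.2.1 := (Dvd.intro a rfl).neg_right
    have := hB _ d t (hS _ d t)
    simpa [ap, e2] using this

lemma rel_all (hG : RowGEN) (hM : RowMOB) (hΨ : Sy0 Ψ) : EqO (app rho (Ψ e1 e2)) 0 := by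
  intro u y hu hy
  have ad := hΨ.ad u y hu hy
  have k : ∀ g : Mt, det g = 1 → 3 ∣ g.2.2.1 → act g (Ψ e1 e2) u y =
      Ψ e1 (ap (adj g) e2) u y - Ψ e1 (ap (adj g) e1) u y := fun g hd h3 =>
    (act_eq hG hM hΨ hd h3 u y hu hy).trans
      (ad_sub ad (ap_ne1 ((det_adj g).trans hd) e1_ne) (ap_ne1 ((det_adj g).trans hd) e2_ne))
  have k1 := k mI (by decide) (by decide)
  have k2 := k (1, -1, 0, 1) (by decide) (by decide)
  have k3 := k (-2, 1, -3, 1) (by decide) (by decide)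
  have k4 := k (1, 0, -3, 1) (by decide) (by decide)
  have k5 := k mR (by decide) (by decide)
  have k6 := k (-2, 1, 3, -2) (by decide) (by decide)
  simp only [app, rho, List.map_cons, List.map_nil, List.sum_cons, List.sum_nil, Pi.add_apply,
    Pi.smul_apply, Pi.zero_apply, k1, k2, k3, k4, k5, k6]
  simp [ap, adj, mI, mR, e1, e2]
  abel

lemma dW : det mW ≠ 0 := by decide

lemma flip_sy (hΨ : Sy0 Ψ) : Sy0 (sg0 Ψ) := by
  refine ⟨fun u y hu hy => ⟨fun c l hc hl => ?_, fun c c' c'' hc hc' hc'' => ?_⟩,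
    fun c c' hc hc' u y hu hy => ?_, fun c c' hc hc' u y hu hy => ?_⟩
  · simp only [sg0, ap_smul]
    rw [(hΨ.ad y u hy hu).hom _ l (ap_ne dW hc) hl, neg_zero]
  · simp only [sg0]
    rw [← neg_add, (hΨ.ad y u hy hu).add _ _ _ (ap_ne dW hc) (ap_ne dW hc') (ap_ne dW hc'')]
  · have a := hΨ.invL _ _ (ap_ne dW hc) (ap_ne dW hc') y u hy hu
    have e1 : my mT y = mu mL y := by simp [my, mu, mT, mL, add_comm]
    have e2 : mu mT u = my mL u := by simp [my, mu, mT, mL, add_comm]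
    have e3 : mul mW mT = mul mL mW := by decide
    simp only [act, sg0] at a ⊢
    rw [← a, e1, e2, ← ap_mul, ← ap_mul, e3, ap_mul, ap_mul]
  · have a := hΨ.invT _ _ (ap_ne dW hc) (ap_ne dW hc') y u hy hu
    have e1 : my mL y = mu mT y := by simp [my, mu, mT, mL, add_comm]
    have e2 : mu mL u = my mT u := by simp [my, mu, mT, mL, add_comm]
    have e3 : mul mW mL = mul mT mW := by decide
    simp only [act, sg0] at a ⊢
    rw [← a, e1, e2, ← ap_mul, ← ap_mul, e3, ap_mul, ap_mul]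

lemma flip_sw (hΨ : Sy0 Ψ) : EqO (sg0 Ψ e1 e2) (sw (Ψ e1 e2)) := by
  intro u y hu hy
  have ad := hΨ.ad y u hy hu
  have a1 : ap mW e1 = (3 : ℚ) • e2 := by simp [ap, mW, e1, e2]
  have a2 : ap mW e2 = e1 := by simp [ap, mW, e1, e2]
  simp only [sg0, sw, a1, a2]
  rw [ad_sml ad e2_ne e1_ne (by norm_num), ← ad_neg ad e1_ne e2_ne]

/-- one term of the twisted sum -/
lemma flip_term (hB : RowBAS) (hG : RowGEN) (hM : RowMOB) (hΨ : Sy0 Ψ) {N m q : ℕ} {p : ℤ} (h3 : ¬ 3 ∣ N)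
    (e : p * N + 3 * q * m = 1) :
    J(m | N) • sg0 Ψ e1 (m, N) (m / N) 0 = J(3 | N) • J(q | N) • Ψ e1 (q, N) (q / N) 0 := by
  obtain ⟨O, hO⟩ := hB.ring
  have n0 : (N : ℚ) ≠ 0 := by
    rintro h
    exact h3 (by rw [Nat.cast_eq_zero.1 h]; exact dvd_zero 3)
  have uN : Un (N : ℚ) := by
    have := (hB.int N).2.2 (by exact_mod_cast h3)
    rwa [Int.cast_natCast] at this
  have i0 : In 0 := (hO 0).1 O.zero_mem
  have im : In ((m : ℚ) / N) := hB.div _ _ ((hO _).1 (natCast_mem O m)) uN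
  have iq : In ((q : ℚ) / N) := hB.div _ _ ((hO _).1 (natCast_mem O q)) uN
  have hm : ((m : ℚ), (N : ℚ)) ≠ (0 : V) := fun h => n0 (congrArg Prod.snd h)
  have hq : ((q : ℚ), (N : ℚ)) ≠ (0 : V) := fun h => n0 (congrArg Prod.snd h)
  have eq : (p : ℚ) * N + 3 * q * m = 1 := by exact_mod_cast e
  have a := inv_all (g := (p, q, -(3 * m), N)) hG hM hΨ (by simp only [det]; linarith)
    (Dvd.intro (m : ℤ) rfl).neg_right _ _ (ap_ne dW e1_ne) (ap_ne dW hm) 0 (m / N) i0 im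
  have a1 : ap (p, q, -(3 * m), N) (ap mW e1) = (3 : ℚ) • ((q : ℚ), (N : ℚ)) := by
    simp [ap, mW, e1, mul_comm]
  have a2 : ap (p, q, -(3 * m), N) (ap mW (m, N)) = e1 := by
    simp only [ap, mW, e1, Prod.mk.injEq]
    push_cast
    constructor
    · linarith
    · ring
  have a3 : mu (p, q, -(3 * m), N) 0 = (q : ℚ) / N := by simp [mu]
  have a4 : my (p, q, -(3 * m), N) ((m : ℚ) / N) = 0 := by
    simp only [my]
    push_cast
    rw [div_eq_zero_iff]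
    left
    field_simp
    ring
  have ad := hΨ.ad _ _ iq i0
  simp only [act, a1, a2, a3, a4] at a
  have j1 : J(3 | N) * J(q | N) * J(m | N) = 1 := by
    rw [← jacobiSym.mul_left, ← jacobiSym.mul_left, ← jacobiSym.one_left N]
    refine jacobiSym.mod_left' ?_
    rw [← e, add_comm, Int.add_mul_emod_self_right]
  have j2 : J(m | N) ^ 2 = 1 :=
    jacobiSym.sq_one (Int.isCoprime_iff_gcd_eq_one.1 ⟨3 * q, p, by linarith⟩)
  have j3 : J(m | N) = J(3 | N) * J(q | N) := by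
    linear_combination (J(3 | N) * J(q | N)) * j2 - J(m | N) * j1
  simp only [sg0]
  rw [← a, ad_sml ad hq e1_ne (by norm_num), ← ad_neg ad e1_ne hq, j3, mul_smul]

lemma flip_ell (hB : RowBAS) (hG : RowGEN) (hM : RowMOB) (hΨ : Sy0 Ψ) {N : ℕ} (h3 : ¬ 3 ∣ N) :
    ell0 N (sg0 Ψ) = J(3 | N) • ell0 N Ψ := by
  have : NeZero N := ⟨fun h => h3 (h ▸ dvd_zero 3)⟩
  have c3 : Nat.Coprime 3 N := (Nat.Prime.coprime_iff_not_dvd Nat.prime_three).2 h3
  have flt : ∀ F : ℕ → A, ∑ m ∈ Finset.range N, J(m | N) • F m =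
      ∑ m ∈ (Finset.range N).filter (fun m => Nat.Coprime m N), J(m | N) • F m := fun F => by
    refine (Finset.sum_filter_of_ne fun m _ h => ?_).symm
    by_contra hc
    exact h (by rw [jacobiSym.eq_zero_iff_not_coprime.2 (by simpa [Int.gcd_natCast_natCast] using hc),
      zero_smul])
  let i : ℕ → ℕ := fun m => (((3 * m : ℕ) : ZMod N)⁻¹).val
  have key : ∀ m, Nat.Coprime m N → ((3 * i m * m : ℕ) : ZMod N) = 1 := fun m hm => by
    have := ZMod.coe_mul_inv_eq_one (3 * m) (Nat.Coprime.mul_left c3 hm)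
    rw [← this]
    simp only [i]
    push_cast
    rw [ZMod.natCast_zmod_val]
    ring
  have bez : ∀ m, Nat.Coprime m N → ∃ p : ℤ, p * N + 3 * i m * m = 1 := fun m hm => by
    have : (((3 * i m * m : ℕ) - 1 : ℤ) : ZMod N) = 0 := by
      rw [Int.cast_sub, Int.cast_natCast, key m hm, Int.cast_one, sub_self]
    obtain ⟨p, hp⟩ := (ZMod.intCast_zmod_eq_zero_iff_dvd _ N).1 this
    exact ⟨-p, by push_cast at hp; linarith⟩
  have mem : ∀ m ∈ (Finset.range N).filter (fun m => Nat.Coprime m N),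
      i m ∈ (Finset.range N).filter (fun m => Nat.Coprime m N) := fun m hm => by
    obtain ⟨p, hp⟩ := bez m (Finset.mem_filter.1 hm).2
    exact Finset.mem_filter.2 ⟨Finset.mem_range.2 (ZMod.val_lt _),
      Nat.isCoprime_iff_coprime.1 ⟨3 * m, p, by linarith⟩⟩
  have inv : ∀ m ∈ (Finset.range N).filter (fun m => Nat.Coprime m N), i (i m) = m := fun m hm => by
    have h1 := key m (Finset.mem_filter.1 hm).2
    rw [Nat.cast_mul] at h1
    change (((3 * i m : ℕ) : ZMod N)⁻¹).val = m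
    rw [ZMod.inv_eq_of_mul_eq_one N _ _ h1, ZMod.val_natCast,
      Nat.mod_eq_of_lt (Finset.mem_range.1 (Finset.mem_filter.1 hm).1)]
  unfold ell0
  rw [flt, flt, Finset.smul_sum]
  refine Finset.sum_nbij' i i mem mem inv inv fun m hm => ?_
  obtain ⟨p, hp⟩ := bez m (Finset.mem_filter.1 hm).2
  exact flip_term hB hG hM hΨ h3 hp

end IND0A

open IND0A in
theorem rowIND0 : OfIND0 := fun hB hG hM =>
  ⟨fun _ _ _ hΨ _ hd h3 => inv_all hG hM hΨ hd h3,
    fun _ _ _ P hΨ hP _ _ u y hc hc' hu hy => by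
      rw [ad_sub (hΨ.ad u y hu hy) hc hc']
      exact P.sub_mem (ind_all hG hM hΨ hP hc' hu hy) (ind_all hG hM hΨ hP hc hu hy),
    fun _ _ _ hΨ => rel_all hG hM hΨ,
    fun _ _ _ hΨ => ⟨flip_sy hΨ, flip_sw hΨ, fun _ _ h3 => flip_ell hB hG hM hΨ h3⟩⟩

end Pool.Agent.MP_5f72fe_nt.MS
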