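import Pool.Agent.MP_5f72fe_nt.MS.S1

/-! Row IND1: unimodular pairs generate. -/

set_option autoImplicit false

namespace Pool.Agent.MP_5f72fe_nt.MS

namespace IND1A

theorem e1_ne : e1 ≠ 0 := by simp [e1]

theorem ne_of_coprime (h k : ℤ) (hc : IsCoprime h k) : (((h : ℚ), (k : ℚ)) : V) ≠ 0 := by
  intro e
  have h1 : h = 0 := by simpa using congrArg Prod.fst e
  have h2 : k = 0 := by simpa using congrArg Prod.snd e
  rw [h1, h2] at hc
  exact not_isCoprime_zero_zero hc

theorem prim {A : Type} [AddCommGroup A] (f : V → V → A) (P : AddSubgroup A) (hf : Ad f)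
    (hP : ∀ g : Mt, det g = 1 → f (ap g e1) (ap g e2) ∈ P) (k : ℕ) :
    ∀ h : ℤ, IsCoprime h (k : ℤ) → f e1 ((h : ℚ), ((k : ℤ) : ℚ)) ∈ P := by
  induction k using Nat.strong_induction_on with
  | _ k ih =>
    intro h hc
    rcases Nat.eq_zero_or_pos k with rfl | hk
    · have h0 : (h : ℚ) ≠ 0 := by
        intro e
        exact ne_of_coprime h _ hc (by simp [e])
      have : (((h : ℚ), (((0 : ℕ) : ℤ) : ℚ)) : V) = (h : ℚ) • e1 := by simp [e1]
      rw [this, hf.hom e1 h e1_ne h0]
      exact P.zero_mem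
    · obtain ⟨a, b, hab⟩ := id hc
      have hk' : (0 : ℤ) < k := by exact_mod_cast hk
      obtain ⟨k', hk1⟩ := Int.eq_ofNat_of_zero_le (Int.emod_nonneg (-a) hk'.ne')
      have hk2 : k' < k := by
        have := Int.emod_lt_of_pos (-a) hk'
        omega
      have hdiv : (k : ℤ) * (-a / k) + k' = -a := by rw [← hk1]; exact Int.mul_ediv_add_emod _ _
      have hdet : (b - (-a / k) * h) * k - h * k' = 1 := by linear_combination hab - h * hdiv
      have hc' : IsCoprime (b - (-a / k) * h) (k' : ℤ) := ⟨k, -h, by linear_combination hdet⟩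
      have h1 := ih k' hk2 _ hc'
      have h2 := hP (b - (-a / k) * h, h, k', k) hdet
      simp only [ap, e1, e2, mul_one, mul_zero, add_zero, zero_add] at h2
      rw [← hf.add e1 _ _ e1_ne (ne_of_coprime _ _ hc') (ne_of_coprime _ _ hc)]
      exact P.add_mem h1 h2

theorem all {A : Type} [AddCommGroup A] (f : V → V → A) (P : AddSubgroup A) (hf : Ad f)
    (hP : ∀ g : Mt, det g = 1 → f (ap g e1) (ap g e2) ∈ P) (c : V) (hc : c ≠ 0) :
    f e1 c ∈ P := by
  obtain ⟨x, y⟩ := c
  by_cases hy : y = 0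
  · have hx : x ≠ 0 := by
      intro e
      exact hc (by simp [e, hy])
    have : ((x, y) : V) = x • e1 := by simp [e1, hy]
    rw [this, hf.hom e1 x e1_ne hx]
    exact P.zero_mem
  · have hco : IsCoprime (x / y).num ((x / y).den : ℤ) := Rat.isCoprime_num_den _
    have h1 := prim f P hf hP (x / y).den (x / y).num hco
    have hd : ((x / y).den : ℚ) ≠ 0 := by exact_mod_cast (x / y).den_nz
    have hn : ((x / y).num : ℚ) = x / y * (x / y).den := (Rat.mul_den_eq_num _).symm
    have hl : y / (x / y).den ≠ 0 := div_ne_zero hy hd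
    have e : ((x, y) : V) =
        (y / (x / y).den) • ((((x / y).num : ℚ), ((((x / y).den : ℕ) : ℤ) : ℚ)) : V) := by
      refine Prod.ext ?_ ?_
      · simp only [Prod.smul_mk, smul_eq_mul]
        rw [hn]; field_simp
      · simp only [Prod.smul_mk, smul_eq_mul, Int.cast_natCast]
        field_simp
    have h0 := ne_of_coprime _ _ hco
    rw [← hf.add e1 _ _ e1_ne h0 hc]
    refine P.add_mem h1 ?_
    rw [e, hf.hom _ _ h0 hl]
    exact P.zero_mem

end IND1A

open IND1A

theorem rowIND1 : RowIND1 := by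
  intro A _ f P hf hP c c' hc hc'
  have h : f c c' = f e1 c' - f e1 c := by rw [← hf.add e1 c c' e1_ne hc hc']; abel
  rw [h]
  exact P.sub_mem (all f P hf hP c' hc') (all f P hf hP c hc)

end Pool.Agent.MP_5f72fe_nt.MS
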