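import Pool.Agent.MP_5f72fe_nt.MS.INJ1a

/-! Injectivity of the period map in weight two. -/

namespace Pool.Agent.MP_5f72fe_nt.MS

open Complex MeasureTheory Set Filter Topology
open scoped ComplexConjugate UpperHalfPlane MatrixGroups

namespace INJ1A

noncomputable section

/-- the action on the upper half plane -/
def mo (g : Mt) (z : ℂ) : ℂ := (g.1 * z + g.2.1) / (g.2.2.1 * z + g.2.2.2)

/-- conjugation by the reflection -/
def rf (g : Mt) : Mt := (g.1, -g.2.1, -g.2.2.1, g.2.2.2)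

theorem det_rf (g : Mt) : det (rf g) = det g := by simp [det, rf]

theorem detC {g : Mt} (hg : det g = 1) :
    (g.1 : ℂ) * g.2.2.2 - (g.2.1 : ℂ) * g.2.2.1 = 1 := by
  have : g.1 * g.2.2.2 - g.2.1 * g.2.2.1 = 1 := hg
  exact_mod_cast this

theorem den_ne {g : Mt} (hg : det g = 1) {z : ℂ} (hz : 0 < z.im) :
    (g.2.2.1 : ℂ) * z + g.2.2.2 ≠ 0 := by
  intro e
  have h1 := congrArg Complex.im e
  simp at h1
  have h2 : g.2.2.1 = 0 := h1.resolve_right hz.ne'
  have h3 := detC hg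
  rw [h2] at e h3
  simp at e
  rw [e] at h3
  simp at h3

theorem im_mo {g : Mt} (hg : det g = 1) {z : ℂ} (hz : 0 < z.im) : 0 < (mo g z).im := by
  have h1 := normSq_pos.mpr (den_ne hg hz)
  have h2 : (g.1 : ℝ) * g.2.2.2 - (g.2.1 : ℝ) * g.2.2.1 = 1 := by
    have : g.1 * g.2.2.2 - g.2.1 * g.2.2.1 = 1 := hg
    exact_mod_cast this
  rw [mo, div_im, ← sub_div]
  apply div_pos _ h1
  simp
  have e : (g.1 : ℝ) * z.im * (g.2.2.1 * z.re + g.2.2.2) -
      (g.1 * z.re + g.2.1) * (g.2.2.1 * z.im) = z.im := by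
    linear_combination z.im * h2
  linarith

theorem der_mo {g : Mt} (hg : det g = 1) {z : ℂ} (hz : 0 < z.im) :
    HasDerivAt (mo g) (1 / ((g.2.2.1 : ℂ) * z + g.2.2.2) ^ 2) z := by
  have h1 := (((hasDerivAt_id z).const_mul (g.1 : ℂ)).add_const (g.2.1 : ℂ)).div
    (((hasDerivAt_id z).const_mul (g.2.2.1 : ℂ)).add_const (g.2.2.2 : ℂ)) (den_ne hg hz)
  have e : ((g.1 : ℂ) * 1 * (g.2.2.1 * id z + g.2.2.2) - (g.1 * id z + g.2.1) * (g.2.2.1 * 1)) =
      1 := by
    simp only [id]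
    linear_combination detC hg
  rw [e] at h1
  exact h1

theorem conj_mo (g : Mt) (z : ℂ) : -conj (mo g z) = mo (rf g) (-conj z) := by
  simp only [mo, rf, map_div₀, map_add, map_mul, map_intCast]
  push_cast
  rw [← neg_div]
  congr 1 <;> ring

/-- the normalised primitive -/
structure Pr (h H : ℂ → ℂ) : Prop where
  der : ∀ z : ℂ, 0 < z.im → HasDerivAt H (h z) z
  bd : ∃ C : ℝ, ∀ z : ℂ, 0 < z.im → ‖H z‖ ≤ C / z.im
  lim : ∀ q : ℚ, Tendsto (fun s : ℝ => H (q + s * I)) (𝓝[>] 0)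
    (𝓝 (-I * ∫ t in Ioi (0 : ℝ), h (q + t * I)))

theorem exists_pr (hc : RowCU) (h : ℂ → ℂ) (hh : Cu 1 h) : ∃ H, Pr h H := by
  obtain ⟨C, hC⟩ := hh.bd e1 (by simp [e1]) 1
  obtain ⟨H, h1, h2, h3⟩ := exists_H h hh.hol C (fun z hz => by
    have := hC z hz
    simp [Lf, e1] at this
    rw [le_div_iff₀ (by positivity)]
    calc ‖h z‖ * z.im ^ 2 = ‖h z‖ * z.im * z.im := by ring
      _ ≤ C * (z.im)⁻¹ * z.im := by gcongr
      _ = C := by field_simp)
  refine ⟨H, h1, ⟨C, h2⟩, fun q => ?_⟩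
  have h4 := hc.int 1 h e1 e1 q q hh rfl
  simp only [xi, Nat.sub_self, pow_zero, mul_one] at h4
  have h5 := (tendsto_Ioi _ h4).const_mul (-I)
  simp only [Complex.ofReal_ratCast] at h5
  refine h5.congr' ?_
  filter_upwards [self_mem_nhdsWithin] with s hs
  have := h3 q s hs
  simp only [Complex.ofReal_ratCast] at this
  exact this.symm

theorem Pr.zero {h H : ℂ → ℂ} (p : Pr h H) {α : Type} {l : Filter α} (z : α → ℂ)
    (hz : Tendsto (fun a => (z a).im) l atTop) : Tendsto (fun a => H (z a)) l (𝓝 0) := by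
  obtain ⟨C, hC⟩ := p.bd
  have h1 : Tendsto (fun a => C / (z a).im) l (𝓝 0) := hz.const_div_atTop C
  refine squeeze_zero_norm' ?_ h1
  filter_upwards [hz.eventually_gt_atTop 0] with a ha
  exact hC _ ha

/-- the transformation law of the primitive -/
theorem trans {h H H' : ℂ → ℂ} {g : Mt} (hg : det g = 1) (p : Pr h H) (p' : Pr (sl 1 g h) H')
    (z : ℂ) (hz : 0 < z.im) : H (mo g z) = H' z + Pc h (ap g e1) := by
  have hd : ∀ w : ℂ, 0 < w.im → HasDerivAt (fun w => H (mo g w) - H' w) 0 w := by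
    intro w hw
    have h1 := ((p.der _ (im_mo hg hw)).comp w (der_mo hg hw)).sub (p'.der w hw)
    have e : h (mo g w) * (1 / ((g.2.2.1 : ℂ) * w + g.2.2.2) ^ 2) - sl 1 g h w = 0 := by
      simp only [sl, if_pos hw, hg, mo]
      push_cast
      ring
    rw [e] at h1
    exact h1
  have hcst : ∀ w : ℂ, 0 < w.im → H (mo g w) - H' w = H (mo g z) - H' z := fun w hw =>
    isOpenH.is_const_of_deriv_eq_zero (convH 0).isPreconnected
      (fun w hw => (hd w hw).differentiableAt.differentiableWithinAt)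
      (fun w hw => (hd w hw).deriv) hw hz
  have hdet := detC hg
  suffices hs : H (mo g z) - H' z = Pc h (ap g e1) by linear_combination hs
  by_cases hr : g.2.2.1 = 0
  · have e0 : Pc h (ap g e1) = 0 := by simp [Pc, ap, e1, hr]
    have hps : g.1 * g.2.2.2 = 1 := by
      have : g.1 * g.2.2.2 - g.2.1 * g.2.2.1 = 1 := hg
      rw [hr] at this
      linarith
    have him : ∀ t : ℝ, (mo g (t * I)).im = t := by
      intro t
      rcases Int.eq_one_or_neg_one_of_mul_eq_one' hps with ⟨a, b⟩ | ⟨a, b⟩ <;>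
        simp [mo, hr, a, b, div_neg]
    have t1 := p.zero (l := atTop) (fun t : ℝ => mo g (t * I)) (by simp only [him]; exact tendsto_id)
    have t2 := p'.zero (l := atTop) (fun t : ℝ => (t : ℂ) * I)
      (by simp only [mul_I_im, ofReal_re]; exact tendsto_id)
    have t3 := t1.sub t2
    rw [sub_zero] at t3
    rw [e0]
    refine tendsto_nhds_unique (tendsto_const_nhds.congr' ?_) t3
    filter_upwards [eventually_gt_atTop (0 : ℝ)] with t ht
    exact (hcst _ (by simpa using ht)).symm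
  · have hrC : (g.2.2.1 : ℂ) ≠ 0 := by exact_mod_cast hr
    have hrR : (g.2.2.1 : ℝ) ≠ 0 := by exact_mod_cast hr
    obtain ⟨w, hw⟩ : ∃ w : ℝ → ℂ, ∀ s, w s = ((-g.2.2.2 / g.2.2.1 : ℝ) : ℂ) +
        (((g.2.2.1 : ℝ) ^ 2)⁻¹ * s⁻¹ : ℝ) * I := ⟨_, fun _ => rfl⟩
    have him : ∀ s, (w s).im = ((g.2.2.1 : ℝ) ^ 2)⁻¹ * s⁻¹ := by
      intro s
      rw [hw, add_im, ofReal_im, mul_I_im, ofReal_re, zero_add]
    have hmo : ∀ s : ℝ, 0 < s → mo g (w s) = (((g.1 : ℚ) / (g.2.2.1 : ℚ) : ℚ) : ℂ) + s * I := by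
      intro s hs
      have hsC : (s : ℂ) ≠ 0 := by exact_mod_cast hs.ne'
      have e1 : (g.2.2.1 : ℂ) * w s + g.2.2.2 = I / (g.2.2.1 * s) := by
        rw [hw]
        push_cast
        field_simp
        ring
      rw [mo, e1, hw]
      push_cast
      field_simp
      linear_combination (-(g.2.2.1 : ℂ) * s) * hdet - (g.2.2.1 : ℂ) * s * I_mul_I
    have t2 := p'.zero (l := 𝓝[>] (0 : ℝ)) w (by
      simp only [him]
      exact tendsto_inv_nhdsGT_zero.const_mul_atTop (by positivity))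
    have t1 := p.lim ((g.1 : ℚ) / (g.2.2.1 : ℚ))
    have t3 := t1.sub t2
    rw [sub_zero] at t3
    have e0 : Pc h (ap g e1) =
        -I * ∫ t in Ioi (0 : ℝ), h ((((g.1 : ℚ) / (g.2.2.1 : ℚ) : ℚ) : ℂ) + t * I) := by
      have : (g.2.2.1 : ℚ) ≠ 0 := by exact_mod_cast hr
      simp only [Pc, ap, e1, mul_one, mul_zero, add_zero, if_neg this]
    rw [e0]
    refine tendsto_nhds_unique (tendsto_const_nhds.congr' ?_) t3
    filter_upwards [self_mem_nhdsWithin] with s hs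
    have hs' : 0 < s := hs
    rw [← hmo s hs']
    exact (hcst _ (by rw [him]; positivity)).symm

/-- congruence of matrices -/
def Cm (M : ℤ) (g g' : Mt) : Prop :=
  M ∣ g.1 - g'.1 ∧ M ∣ g.2.1 - g'.2.1 ∧ M ∣ g.2.2.1 - g'.2.2.1 ∧ M ∣ g.2.2.2 - g'.2.2.2

theorem reps (M : ℕ) (hM : M ≠ 0) : ∃ R : Set Mt, R.Finite ∧ (∀ g ∈ R, det g = 1) ∧
    ∀ g, det g = 1 → ∃ g' ∈ R, Cm M g g' := by
  classical
  have : NeZero M := ⟨hM⟩
  let cl : Mt → ZMod M × ZMod M × ZMod M × ZMod M := fun g => (g.1, g.2.1, g.2.2.1, g.2.2.2)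
  refine ⟨range fun κ => if hκ : ∃ g, det g = 1 ∧ cl g = κ then hκ.choose else mI,
    finite_range _, ?_, ?_⟩
  · rintro _ ⟨κ, rfl⟩
    beta_reduce
    split_ifs with hκ
    · exact hκ.choose_spec.1
    · rfl
  · intro g hg
    have hκ : ∃ g', det g' = 1 ∧ cl g' = cl g := ⟨g, hg, rfl⟩
    refine ⟨hκ.choose, ⟨cl g, dif_pos hκ⟩, ?_⟩
    have h1 := hκ.choose_spec.2
    generalize hκ.choose = g' at h1 ⊢
    simp only [cl, Prod.mk.injEq, ZMod.intCast_eq_intCast_iff_dvd_sub] at h1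
    exact h1

theorem sl_congr (hc : RowCU) {h : ℂ → ℂ} {e : ℕ}
    (he : ∀ g : Mt, det g = 1 → 3 ^ e ∣ g.1 - 1 → 3 ^ e ∣ g.2.1 → 3 ^ e ∣ g.2.2.1 →
      3 ^ e ∣ g.2.2.2 - 1 → sl 1 g h = h) {g g' : Mt} (hg : det g = 1) (hg' : det g' = 1)
    (hm : Cm (3 ^ e) g g') : sl 1 g h = sl 1 g' h := by
  obtain ⟨p, q, r, s⟩ := g
  obtain ⟨p', q', r', s'⟩ := g'
  obtain ⟨⟨a, ha⟩, ⟨b, hb⟩, ⟨c, hc'⟩, ⟨d, hd⟩⟩ := hm
  simp only [det] at hg hg' ha hb hc' hd
  have d1 : det (mul (p, q, r, s) (adj (p', q', r', s'))) = 1 := by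
    simp only [det, mul, adj]
    linear_combination (p' * s' - q' * r') * hg + hg'
  have e1 : mul (mul (p, q, r, s) (adj (p', q', r', s'))) (p', q', r', s') = (p, q, r, s) := by
    simp only [mul, adj, Prod.mk.injEq]
    refine ⟨?_, ?_, ?_, ?_⟩
    · linear_combination p * hg'
    · linear_combination q * hg'
    · linear_combination r * hg'
    · linear_combination s * hg'
  have h1 := he _ d1
    ⟨a * s' - b * r', by simp only [mul, adj]; linear_combination s' * ha - r' * hb + hg'⟩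
    ⟨b * p' - a * q', by simp only [mul, adj]; linear_combination p' * hb - q' * ha⟩
    ⟨c * s' - d * r', by simp only [mul, adj]; linear_combination s' * hc' - r' * hd⟩
    ⟨d * p' - c * q', by simp only [mul, adj]; linear_combination p' * hd - q' * hc' + hg'⟩
  have h2 := hc.comp 1 _ (p', q', r', s') h (by rw [d1]; exact one_pos)
    (by simp only [det]; rw [hg']; exact one_pos)
  rw [e1, h1] at h2
  exact h2

theorem fund (z : ℂ) (hz : 0 < z.im) : ∃ (g : Mt) (w : ℂ), det g = 1 ∧ 1 / 2 ≤ w.im ∧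
    |w.re| ≤ 1 / 2 ∧ mo g w = z := by
  obtain ⟨γ, hγ⟩ := ModularGroup.exists_smul_mem_fd ⟨z, hz⟩
  have h1 := ModularGroup.three_le_four_mul_im_sq_of_mem_fd hγ
  have h2 := (γ • (⟨z, hz⟩ : ℍ)).im_pos
  refine ⟨(γ⁻¹ 0 0, γ⁻¹ 0 1, γ⁻¹ 1 0, γ⁻¹ 1 1), ((γ • (⟨z, hz⟩ : ℍ) : ℍ) : ℂ), ?_, ?_, hγ.2, ?_⟩
  · have := (γ⁻¹).det_coe
    rw [Matrix.det_fin_two] at this
    exact this
  · show 1 / 2 ≤ (γ • (⟨z, hz⟩ : ℍ)).im
    nlinarith
  · have h3 := UpperHalfPlane.coe_specialLinearGroup_apply γ⁻¹ (γ • (⟨z, hz⟩ : ℍ))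
    rw [inv_smul_smul] at h3
    simp only [eq_intCast, Complex.ofReal_intCast] at h3
    exact h3.symm

theorem exists_max (u : ℂ → ℝ) (hu : ContinuousOn u {z : ℂ | 0 < z.im}) (R : Set Mt)
    (hR : R.Finite) (h1 : ∀ g ∈ R, det g = 1)
    (h2 : ∀ g, det g = 1 → ∃ g' ∈ R, ∀ w : ℂ, 0 < w.im → u (mo g w) = u (mo g' w))
    (h3 : ∀ g, det g = 1 → ∃ C : ℝ, ∀ w : ℂ, 0 < w.im → |u (mo g w)| ≤ C / w.im) :
    ∃ z0 : ℂ, 0 < z0.im ∧ ∀ z : ℂ, 0 < z.im → |u z| ≤ |u z0| := by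
  by_cases h0 : ∀ z : ℂ, 0 < z.im → u z = 0
  · exact ⟨I, by simp, fun z hz => by rw [h0 z hz, abs_zero]; exact abs_nonneg _⟩
  push Not at h0
  obtain ⟨z1, hz1, hu1⟩ := h0
  have hδ : 0 < |u z1| := abs_pos.mpr hu1
  choose! Cf hCf using h3
  obtain ⟨C, hC⟩ := (hR.image Cf).bddAbove
  obtain ⟨K, hK⟩ : ∃ K : Set ℂ, K = Icc (-(1 / 2) : ℝ) (1 / 2) ×ℂ Icc (1 / 2) (C / |u z1|) :=
    ⟨_, rfl⟩
  have hKc : IsCompact K := hK ▸ isCompact_Icc.reProdIm isCompact_Icc
  have hKH : ∀ w ∈ K, 0 < w.im := by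
    intro w hw
    rw [hK, mem_reProdIm] at hw
    linarith [hw.2.1]
  have hc : IsCompact (⋃ g ∈ R, mo g '' K) := hR.isCompact_biUnion fun g hg =>
    hKc.image_of_continuousOn fun w hw =>
      (der_mo (h1 g hg) (hKH w hw)).continuousAt.continuousWithinAt
  have hH : (⋃ g ∈ R, mo g '' K) ⊆ {z : ℂ | 0 < z.im} := by
    intro z hz
    simp only [mem_iUnion] at hz
    obtain ⟨g, hg, w, hw, rfl⟩ := hz
    exact im_mo (h1 g hg) (hKH w hw)
  have key : ∀ z : ℂ, 0 < z.im → |u z1| ≤ |u z| → ∃ z' ∈ ⋃ g ∈ R, mo g '' K, u z' = u z := by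
    intro z hz hle
    obtain ⟨g, w, hg, w1, w2, rfl⟩ := fund z hz
    have hw : 0 < w.im := by linarith
    obtain ⟨g', hg', he⟩ := h2 g hg
    refine ⟨mo g' w, ?_, (he w hw).symm⟩
    simp only [mem_iUnion]
    refine ⟨g', hg', w, ?_, rfl⟩
    rw [hK, mem_reProdIm]
    refine ⟨abs_le.mp w2, w1, ?_⟩
    have b1 := hCf g' (h1 g' hg') w hw
    rw [← he w hw, le_div_iff₀ hw] at b1
    have b2 : Cf g' ≤ C := hC (mem_image_of_mem _ hg')
    rw [le_div_iff₀ hδ]
    nlinarith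
  obtain ⟨z2, hz2, e2⟩ := key z1 hz1 le_rfl
  obtain ⟨z0, hz0, hm⟩ := hc.exists_isMaxOn ⟨z2, hz2⟩ (hu.mono hH).abs
  refine ⟨z0, hH hz0, fun z hz => ?_⟩
  rcases le_total |u z1| |u z| with hle | hle
  · obtain ⟨z', hz', e'⟩ := key z hz hle
    rw [← e']
    exact hm hz'
  · refine hle.trans ?_
    rw [← e2]
    exact hm hz2

end

end INJ1A

open INJ1A in
theorem rowINJ1 : OfINJ1 := by
  intro hc _ h h' η c1 c2 ⟨a, ha⟩ ⟨b, hb⟩ hper
  obtain ⟨H, pH⟩ := exists_pr hc h c1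
  obtain ⟨H', pH'⟩ := exists_pr hc h' c2
  have hP : ∀ f, Cu 1 f → ∃ F, Pr f F := exists_pr hc
  choose! P hP using hP
  have hcj : ∀ z : ℂ, 0 < z.im → 0 < (-conj z).im := fun z hz => by simpa using hz
  have hU : ∀ g, det g = 1 → ∀ w : ℂ, 0 < w.im → H (mo g w) + η * H' (-conj (mo g w)) =
      P (sl 1 g h) w + η * P (sl 1 (rf g) h') (-conj w) := by
    intro g hg w hw
    have hg' : det (rf g) = 1 := by rw [det_rf, hg]
    rw [conj_mo, trans hg pH (hP _ (hc.cu 1 g h (by rw [hg]; exact one_pos) c1)) w hw,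
      trans hg' pH' (hP _ (hc.cu 1 _ h' (by rw [hg']; exact one_pos) c2)) _ (hcj w hw)]
    have hne : ap g e1 ≠ 0 := by
      intro e
      have e' : g.1 = 0 ∧ g.2.2.1 = 0 := by simpa [ap, e1, Prod.ext_iff] using e
      simp [det, e'.1, e'.2] at hg
    have h1 := hper e1 e1 e1 (ap g e1) (by simp [e1]) hne
    have z1 : ∀ f, Pc f e1 = 0 := fun f => by simp [Pc, e1]
    have z2 : ∀ f, Pc f (ap mN e1) = 0 := fun f => by simp [Pc, e1, ap, mN]
    have z3 : ∀ f, Pc f (ap mN (ap g e1)) = Pc f (ap (rf g) e1) := fun f => by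
      simp [Pc, e1, ap, mN, rf, neg_div, div_neg]
    simp only [Per, xi, Nat.sub_self, pow_zero, mul_one, z1, z2, z3, sub_zero] at h1
    linear_combination h1
  obtain ⟨R, hR, r1, r2⟩ := reps (3 ^ (a + b)) (by positivity)
  have hK : ∀ z : ℂ, 0 < z.im →
      HasDerivAt (fun z => conj (η * H' (-conj z))) (conj (η * -h' (-conj z))) z := by
    intro z hz
    have h1 : HasDerivAt (fun w : ℂ => η * H' (-w)) (η * -h' (-conj z)) (conj z) := by
      have h2 := ((pH'.der _ (hcj z hz)).comp (conj z) (hasDerivAt_neg (conj z))).const_mul η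
      rw [mul_neg_one] at h2
      exact h2
    have h3 := h1.conj_conj
    rw [conj_conj] at h3
    exact h3
  have main : ∀ c : ℂ, ∀ z : ℂ, 0 < z.im → c * h z + conj c * conj (η * -h' (-conj z)) = 0 := by
    intro c
    have hG : ∀ z : ℂ, 0 < z.im → HasDerivAt (fun z => c * H z + conj c * conj (η * H' (-conj z)))
        (c * h z + conj c * conj (η * -h' (-conj z))) z :=
      fun z hz => ((pH.der z hz).const_mul c).add ((hK z hz).const_mul (conj c))
    have hre : ∀ z : ℂ, (c * H z + conj c * conj (η * H' (-conj z))).re =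
        (c * (H z + η * H' (-conj z))).re := by
      intro z
      rw [← map_mul, mul_add, add_re, add_re, conj_re]
    obtain ⟨z0, h0, hm⟩ := exists_max (fun z => (c * H z + conj c * conj (η * H' (-conj z))).re)
      (fun z hz => (continuous_re.continuousAt.comp (hG z hz).continuousAt).continuousWithinAt)
      R hR r1 (by
        intro g hg
        obtain ⟨g', hg', hm⟩ := r2 g hg
        refine ⟨g', hg', fun w hw => ?_⟩
        have d1 : (3 : ℤ) ^ a ∣ ((3 ^ (a + b) : ℕ) : ℤ) := by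
          push_cast
          exact pow_dvd_pow _ (Nat.le_add_right _ _)
        have d2 : (3 : ℤ) ^ b ∣ ((3 ^ (a + b) : ℕ) : ℤ) := by
          push_cast
          exact pow_dvd_pow _ (Nat.le_add_left _ _)
        have s1 := sl_congr hc ha hg (r1 g' hg')
          ⟨d1.trans hm.1, d1.trans hm.2.1, d1.trans hm.2.2.1, d1.trans hm.2.2.2⟩
        have s2 := sl_congr hc hb (g := rf g) (g' := rf g') (by rw [det_rf, hg])
          (by rw [det_rf, r1 g' hg']) ⟨d2.trans hm.1, by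
            have := (d2.trans hm.2.1).neg_right
            simpa [rf, sub_eq_add_neg, add_comm] using this, by
            have := (d2.trans hm.2.2.1).neg_right
            simpa [rf, sub_eq_add_neg, add_comm] using this, d2.trans hm.2.2.2⟩
        rw [hre, hre, hU g hg w hw, hU g' (r1 g' hg') w hw, s1, s2]) (by
        intro g hg
        have hg' : det (rf g) = 1 := by rw [det_rf, hg]
        obtain ⟨C1, b1⟩ := (hP _ (hc.cu 1 g h (by rw [hg]; exact one_pos) c1)).bd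
        obtain ⟨C2, b2⟩ := (hP _ (hc.cu 1 _ h' (by rw [hg']; exact one_pos) c2)).bd
        refine ⟨‖c‖ * (C1 + ‖η‖ * C2), fun w hw => ?_⟩
        rw [hre, hU g hg w hw]
        have b3 := b1 w hw
        have b4 := b2 _ (hcj w hw)
        have e : (-conj w).im = w.im := by simp
        rw [e] at b4
        calc _ ≤ ‖c * (P (sl 1 g h) w + η * P (sl 1 (rf g) h') (-conj w))‖ := abs_re_le_norm _
          _ ≤ ‖c‖ * (‖P (sl 1 g h) w‖ + ‖η‖ * ‖P (sl 1 (rf g) h') (-conj w)‖) := by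
            rw [norm_mul, ← norm_mul η]
            gcongr
            exact norm_add_le _ _
          _ ≤ ‖c‖ * (C1 / w.im + ‖η‖ * (C2 / w.im)) := by gcongr
          _ = _ := by ring)
    exact max_const _ _ hG z0 h0 hm
  funext z
  by_cases hz : 0 < z.im
  · have m1 := main 1 z hz
    have m2 := main I z hz
    rw [map_one] at m1
    rw [conj_I] at m2
    have : 2 * I * h z = 0 := by linear_combination I * m1 + m2
    simpa using this
  · exact c1.zero z (not_lt.mp hz)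

end Pool.Agent.MP_5f72fe_nt.MS
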