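import Pool.Agent.MP_5f72fe_nt.MS.S3

/-! Injectivity of the period map in weight at least four. -/

namespace Pool.Agent.MP_5f72fe_nt.MS

open Complex MeasureTheory Set Filter Topology
open scoped Real

noncomputable section

namespace INJAA

/-- the exponential of index `-n` and period `W` -/
def ex (W : ℝ) (n : ℤ) (z : ℂ) : ℂ := cexp (-(2 * π * I * n * z / W))

theorem ex_diff (W : ℝ) (n : ℤ) : Differentiable ℂ (ex W n) := by
  unfold ex
  fun_prop

theorem ex_add (W : ℝ) (n : ℤ) (z w : ℂ) : ex W n (z + w) = ex W n z * ex W n w := by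
  rw [ex, ex, ex, ← Complex.exp_add]
  congr 1
  ring

theorem ex_per (W : ℝ) (hW : 0 < W) (n : ℤ) : ex W n W = 1 := by
  have h0 : (W : ℂ) ≠ 0 := ofReal_ne_zero.2 hW.ne'
  have : -(2 * π * I * n * W / W : ℂ) = ((-n : ℤ) : ℂ) * (2 * π * I) := by
    push_cast
    field_simp
  rw [ex, this, Complex.exp_int_mul_two_pi_mul_I]

theorem ex_im (W : ℝ) (n : ℤ) (t : ℝ) :
    ex W n (t * I) = (Real.exp (2 * π * n * t / W) : ℝ) := by
  rw [ex, ofReal_exp]
  congr 1
  push_cast
  linear_combination (-(2 * π * n * t / W) : ℂ) * I_mul_I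

theorem ex_re (W : ℝ) (n : ℤ) (u : ℝ) : ‖ex W n u‖ = 1 := by
  have : -(2 * π * I * n * u / W : ℂ) = ((-(2 * π * n * u / W) : ℝ) : ℂ) * I := by
    push_cast
    ring
  rw [ex, this, Complex.norm_exp_ofReal_mul_I]

theorem ex_neg (W : ℝ) (n : ℤ) (z : ℂ) : ex W n (-z) = ex W (-n) z := by
  rw [ex, ex]
  congr 1
  push_cast
  ring

theorem four_zero (W : ℝ) (hW : 0 < W) (f : ℝ → ℂ) (hf : Continuous f)
    (hp : Function.Periodic f W) (h0 : ∀ n : ℤ, ∫ u in (0 : ℝ)..0 + W, f u * ex W n u = 0)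
    (u : ℝ) : f u = 0 := by
  have : Fact (0 < W) := ⟨hW⟩
  let F : C(AddCircle W, ℂ) :=
    ⟨hp.lift, (QuotientAddGroup.isQuotientMap_mk _).continuous_iff.2 hf⟩
  have hF : fourierCoeff F = 0 := by
    funext n
    rw [fourierCoeff_eq_intervalIntegral _ _ 0]
    have : ∀ x : ℝ, fourier (-n) (x : AddCircle W) • F x = f x * ex W n x := fun x => by
      rw [fourier_coe_apply, smul_eq_mul, mul_comm, ex]
      congr 2
      push_cast
      ring
    simp only [this, h0, smul_zero, Pi.zero_apply]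
  have := has_pointwise_sum_fourier_series_of_summable (f := F) (hF ▸ summable_zero)
    (u : AddCircle W)
  rw [hF] at this
  simp only [Pi.zero_apply, zero_smul] at this
  exact this.unique hasSum_zero

/-- the analytic data -/
structure Gd (p : ℕ) (W C : ℝ) (g : ℂ → ℂ) : Prop where
  hol : DifferentiableOn ℂ g {z | 0 < z.im}
  per : ∀ z : ℂ, 0 < z.im → g (z + W) = g z
  bd : ∀ z : ℂ, 0 < z.im → ‖g z‖ * z.im ^ p * (1 + z.im ^ 2) ≤ C

/-- the coefficient at height `t` -/
def ga (W a : ℝ) (g : ℂ → ℂ) (n : ℤ) (t : ℝ) : ℂ :=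
  ∫ u in a..a + W, g (u + t * I) * ex W n (u + t * I)

/-- the vertical integral -/
def A (p : ℕ) (g : ℂ → ℂ) (u : ℝ) : ℂ := ∫ t in Ioi (0 : ℝ), g (u + t * I) * (t : ℂ) ^ p

theorem im_pt (u t : ℝ) : ((u : ℂ) + t * I).im = t := by simp

variable {p : ℕ} {W C : ℝ} {g : ℂ → ℂ}

theorem ga_const (G : Gd p W C g) (hW : 0 < W) (a : ℝ) (n : ℤ) (s t : ℝ) (hs : 0 < s)
    (ht : 0 < t) : ga W a g n s = ga W a g n t := by
  have H := integral_boundary_rect_eq_zero_of_differentiableOn (fun z => g z * ex W n z)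
    ⟨a, s⟩ ⟨a + W, t⟩ ((G.hol.mul (ex_diff W n).differentiableOn).mono fun z hz =>
      lt_of_lt_of_le (lt_min hs ht) (mem_reProdIm.1 hz).2.1)
  have e : ∫ y : ℝ in s..t, g (((a + W : ℝ) : ℂ) + y * I) * ex W n (((a + W : ℝ) : ℂ) + y * I) =
      ∫ y : ℝ in s..t, g (a + y * I) * ex W n (a + y * I) := by
    refine intervalIntegral.integral_congr fun y hy => ?_
    have hy0 : 0 < y := lt_of_lt_of_le (lt_min hs ht) hy.1
    have e1 : ((a + W : ℝ) : ℂ) + y * I = (a + y * I) + W := by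
      push_cast
      ring
    simp only [e1]
    rw [G.per _ (by rwa [im_pt]), ex_add W n _ W, ex_per W hW, mul_one]
  simp only [] at H
  rw [e, add_sub_cancel_right, sub_eq_zero] at H
  exact H

theorem ga_neg (G : Gd p W C g) (hW : 0 < W) (a : ℝ) (n : ℤ) (hn : n ≤ 0) (s : ℝ) (hs : 0 < s) :
    ga W a g n s = 0 := by
  have hb : ∀ᶠ t : ℝ in atTop, ‖ga W a g n s‖ ≤ C / t * |a + W - a| := by
    filter_upwards [eventually_ge_atTop 1] with t ht
    have ht0 : 0 < t := by linarith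
    rw [ga_const G hW a n s t hs ht0]
    refine intervalIntegral.norm_integral_le_of_norm_le_const fun u _ => ?_
    have b := G.bd (u + t * I) (by rwa [im_pt])
    rw [im_pt] at b
    have e1 : ‖ex W n (u + t * I)‖ ≤ 1 := by
      rw [ex_add, norm_mul, ex_re, one_mul, ex_im, Complex.norm_real, Real.norm_eq_abs,
        abs_of_pos (Real.exp_pos _), Real.exp_le_one_iff]
      have : (n : ℝ) ≤ 0 := by exact_mod_cast hn
      have h2 : 0 ≤ 2 * π * t := by positivity
      exact div_nonpos_of_nonpos_of_nonneg (by nlinarith) hW.le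
    have e2 : ‖g (u + t * I)‖ ≤ C / t := by
      rw [le_div_iff₀ ht0]
      refine le_trans ?_ b
      rw [mul_assoc]
      refine mul_le_mul_of_nonneg_left ?_ (norm_nonneg _)
      have := one_le_pow₀ (n := p) ht
      nlinarith
    rw [norm_mul]
    exact (mul_le_of_le_one_right (norm_nonneg _) e1).trans e2
  have t0 : Tendsto (fun t : ℝ => C / t * |a + W - a|) atTop (𝓝 0) := by
    have := (tendsto_id.const_div_atTop C).mul_const |a + W - a|
    rwa [zero_mul] at this
  exact norm_le_zero_iff.1 (ge_of_tendsto t0 hb)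

theorem cont2 (G : Gd p W C g) :
    ContinuousOn (fun x : ℝ × ℝ => g (x.1 + x.2 * I) * (x.2 : ℂ) ^ p) (univ ×ˢ Ioi 0) := by
  refine ContinuousOn.mul (G.hol.continuousOn.comp (by fun_prop) fun x hx => ?_) (by fun_prop)
  show 0 < ((x.1 : ℂ) + x.2 * I).im
  rw [im_pt]
  exact hx.2

theorem dom (G : Gd p W C g) (u t : ℝ) (ht : 0 < t) :
    ‖g (u + t * I) * (t : ℂ) ^ p‖ ≤ C * (1 + t ^ 2)⁻¹ := by
  have b := G.bd (u + t * I) (by rwa [im_pt])
  rw [im_pt] at b
  rw [norm_mul, norm_pow, Complex.norm_real, Real.norm_eq_abs, abs_of_pos ht, ← div_eq_mul_inv,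
    le_div_iff₀ (by positivity)]
  exact b

theorem A_cont (G : Gd p W C g) : Continuous (A p g) := by
  refine continuous_of_dominated (bound := fun t => C * (1 + t ^ 2)⁻¹) (fun u => ?_)
    (fun u => ?_) (integrable_inv_one_add_sq.const_mul C).integrableOn ?_
  · refine ContinuousOn.aestronglyMeasurable ?_ measurableSet_Ioi
    exact (cont2 G).comp (f := fun t : ℝ => (u, t)) (by fun_prop) fun t ht => ⟨mem_univ _, ht⟩
  · exact (ae_restrict_iff' measurableSet_Ioi).2 (Eventually.of_forall fun t ht => dom G u t ht)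
  · refine (ae_restrict_iff' measurableSet_Ioi).2 (Eventually.of_forall fun t ht => ?_)
    exact (cont2 G).comp_continuous (f := fun u : ℝ => (u, t)) (by fun_prop)
      fun u => ⟨mem_univ _, ht⟩

theorem fub (G : Gd p W C g) (hW : 0 < W) (a : ℝ) (n : ℤ) :
    ∫ u in a..a + W, A p g u * ex W n u =
      ga W a g n 1 * ∫ t in Ioi (0 : ℝ), ((t ^ p * Real.exp (-(2 * π * n / W * t)) : ℝ) : ℂ) := by
  have hi : Integrable (Function.uncurry fun u t : ℝ => g (u + t * I) * (t : ℂ) ^ p * ex W n u)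
      ((volume.restrict (uIoc a (a + W))).prod (volume.restrict (Ioi 0))) := by
    have hb : Integrable (fun x : ℝ × ℝ => (1 : ℝ) * (C * (1 + x.2 ^ 2)⁻¹))
        ((volume.restrict (uIoc a (a + W))).prod (volume.restrict (Ioi 0))) :=
      Integrable.mul_prod (f := fun _ : ℝ => (1 : ℝ)) (g := fun t : ℝ => C * (1 + t ^ 2)⁻¹)
        (integrableOn_const (by rw [Real.volume_uIoc]; exact ENNReal.ofReal_ne_top))
        (integrable_inv_one_add_sq.const_mul C).integrableOn
    rw [Measure.prod_restrict] at hb ⊢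
    have hm : MeasurableSet (uIoc a (a + W) ×ˢ Ioi (0 : ℝ)) :=
      measurableSet_uIoc.prod measurableSet_Ioi
    refine hb.mono' (ContinuousOn.aestronglyMeasurable ?_ hm) ?_
    · exact ((cont2 G).mono (prod_mono_left (subset_univ _))).mul
        (((ex_diff W n).continuous.comp (continuous_ofReal.comp continuous_fst)).continuousOn)
    · refine (ae_restrict_iff' hm).2 (Eventually.of_forall fun x hx => ?_)
      show ‖g (x.1 + x.2 * I) * (x.2 : ℂ) ^ p * ex W n x.1‖ ≤ _
      rw [norm_mul, ex_re, mul_one, one_mul]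
      exact dom G _ _ hx.2
  have e1 : ∀ u : ℝ, A p g u * ex W n u =
      ∫ t in Ioi (0 : ℝ), g (u + t * I) * (t : ℂ) ^ p * ex W n u := fun u => by
    rw [A, integral_mul_const]
  simp only [e1]
  rw [intervalIntegral_integral_swap hi, ← integral_const_mul]
  refine setIntegral_congr_fun measurableSet_Ioi fun t ht => ?_
  rw [ga_const G hW a n 1 t one_pos ht, ga, ← intervalIntegral.integral_mul_const]
  refine intervalIntegral.integral_congr fun u _ => ?_
  have e2 : ((Real.exp (2 * π * n * t / W) : ℝ) : ℂ) * (Real.exp (-(2 * π * n / W * t)) : ℝ) = 1 := by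
    rw [← ofReal_mul, ← Real.exp_add, ← ofReal_one, ← Real.exp_zero]
    congr 2
    ring
  rw [ex_add, ex_im, ofReal_mul, ofReal_pow]
  linear_combination (-(g (u + t * I) * (t : ℂ) ^ p * ex W n u)) * e2

theorem gam (p : ℕ) (r : ℝ) (hr : 0 < r) :
    ∫ t in Ioi (0 : ℝ), ((t ^ p * Real.exp (-(r * t)) : ℝ) : ℂ) ≠ 0 := by
  rw [integral_complex_ofReal]
  have h := Real.integral_rpow_mul_exp_neg_mul_Ioi (a := (p : ℝ) + 1) (by positivity) hr
  simp only [add_sub_cancel_right, Real.rpow_natCast] at h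
  rw [h]
  have : 0 < (1 / r) ^ ((p : ℝ) + 1) * Real.Gamma ((p : ℝ) + 1) :=
    mul_pos (by positivity) (Real.Gamma_pos_of_pos (by positivity))
  exact ofReal_ne_zero.2 this.ne'

theorem main {C' : ℝ} {g' : ℂ → ℂ} (G : Gd p W C g) (G' : Gd p W C' g') (hW : 0 < W) (η : ℂ)
    (hq : ∀ q : ℚ, A p g q + η * A p g' (-q) = 0) (z : ℂ) (hz : 0 < z.im) : g z = 0 := by
  have hu : ∀ u : ℝ, A p g u + η * A p g' (-u) = 0 := fun u =>
    Rat.denseRange_cast.induction_on u (isClosed_eq ((A_cont G).add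
      (continuous_const.mul ((A_cont G').comp continuous_neg))) continuous_const) hq
  have h1 : ∀ n : ℤ, ga W 0 g n 1 = 0 := fun n => by
    rcases le_or_gt n 0 with hn | hn
    · exact ga_neg G hW 0 n hn 1 one_pos
    have f1 := fub G hW 0 n
    have f2 := fub G' hW (-W) (-n)
    rw [ga_neg G' hW (-W) (-n) (by omega) 1 one_pos, zero_mul, neg_add_cancel] at f2
    have f3 := intervalIntegral.integral_comp_neg (a := 0) (b := W)
      (fun u : ℝ => A p g' u * ex W (-n) u)
    rw [neg_zero, f2] at f3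
    have f4 : ∫ u in (0 : ℝ)..0 + W, A p g u * ex W n u = 0 := by
      rw [zero_add, ← mul_zero (-η), ← f3, ← intervalIntegral.integral_const_mul]
      refine intervalIntegral.integral_congr fun u _ => ?_
      rw [ofReal_neg, ex_neg, neg_neg]
      linear_combination ex W n u * hu u
    rw [f4] at f1
    have hr : 0 < 2 * π * (n : ℝ) / W := by
      have : (0 : ℝ) < n := by exact_mod_cast hn
      positivity
    exact (mul_eq_zero.1 f1.symm).resolve_right (gam p _ hr)
  have hc : Continuous fun u : ℝ => g (u + z.im * I) :=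
    G.hol.continuousOn.comp_continuous (by fun_prop) fun u => by
      show 0 < ((u : ℂ) + z.im * I).im
      rwa [im_pt]
  have := four_zero W hW (fun u : ℝ => g (u + z.im * I)) hc (fun u => by
    have := G.per (u + z.im * I) (by rwa [im_pt])
    simp only [ofReal_add]
    rwa [add_right_comm]) (fun n => by
      have h2 := (ga_const G hW 0 n z.im 1 hz one_pos).trans (h1 n)
      simp only [ga, ex_add, ← mul_assoc] at h2
      rw [intervalIntegral.integral_mul_const] at h2
      exact (mul_eq_zero.1 h2).resolve_right (Complex.exp_ne_zero _)) z.re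
  rwa [re_add_im] at this

theorem gd (m e : ℕ) (h : ℂ → ℂ) (H : Cu (m + 2) h)
    (hp : sl (m + 2) (1, 3 ^ e, 0, 1) h = h) : ∃ C, Gd (2 * (m + 1)) (3 ^ e) C h := by
  have n1 : (e1 : V) ≠ 0 := fun h => one_ne_zero (congrArg Prod.fst h)
  obtain ⟨C0, h0⟩ := H.bd e1 n1 0
  obtain ⟨C1, h1⟩ := H.bd e1 n1 (m + 2)
  refine ⟨2 * max C0 C1, H.hol, fun z hz => ?_, fun z hz => ?_⟩
  · have := congrFun hp z
    simp only [sl, if_pos hz, det] at this
    simpa using this
  · have a0 := h0 z hz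
    have a1 := h1 z hz
    have l1 : Lf e1 z = 1 := by simp [Lf, e1]
    rw [pow_zero, mul_one] at a0
    rw [l1, norm_one, one_pow, one_div, inv_pow, ← div_eq_mul_inv, le_div_iff₀ (by positivity)]
      at a1
    set t := z.im
    have hn := norm_nonneg (h z)
    have hP : 0 ≤ ‖h z‖ * t ^ (2 * (m + 1)) := by positivity
    rcases le_total t 1 with ht | ht
    · have e : ‖h z‖ * t ^ (2 * (m + 1)) = ‖h z‖ * t ^ (m + 2) * t ^ m := by ring
      have b1 : ‖h z‖ * t ^ (2 * (m + 1)) ≤ C0 := by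
        rw [e]
        exact (mul_le_of_le_one_right (by positivity) (pow_le_one₀ hz.le ht)).trans a0
      have b2 : t ^ 2 ≤ 1 := pow_le_one₀ hz.le ht
      have := le_max_left C0 C1
      nlinarith
    · have e : ‖h z‖ * t ^ (2 * (m + 1)) * t ^ 2 = ‖h z‖ * t ^ (m + 2) * t ^ (m + 2) := by ring
      have b2 : 1 ≤ t ^ 2 := one_le_pow₀ ht
      have := le_max_right C0 C1
      nlinarith

theorem per_eq (m : ℕ) (h : ℂ → ℂ) (q s : ℚ) :
    Per (m + 2) h (q, 1) (q, 1) (s, 0) (q, 1) = -I * (-1) ^ (m + 1) * A (2 * (m + 1)) h q := by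
  rw [Per, Pc, Pc, if_neg one_ne_zero, if_pos rfl, sub_zero, A, mul_assoc,
    ← integral_const_mul ((-1 : ℂ) ^ (m + 1))]
  refine congrArg (fun x => -I * x) ?_
  refine setIntegral_congr_fun measurableSet_Ioi fun (t : ℝ) _ => ?_
  simp only [xi, Lf, div_one, Rat.cast_one, one_mul, ofReal_ratCast, Nat.add_one_sub_one]
  have : ((q : ℂ) - (q + t * I)) * (q - (q + t * I)) = -1 * (t : ℂ) ^ 2 := by
    linear_combination (t : ℂ) ^ 2 * I_mul_I
  rw [this, mul_pow, ← pow_mul]
  ring

end INJAA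

open INJAA in
theorem rowINJA : OfINJA := by
  intro _ k hk h h' η H H' ⟨e, he⟩ ⟨e', he'⟩ hP
  obtain ⟨m, rfl⟩ : ∃ m, k = m + 2 := ⟨k - 2, by omega⟩
  obtain ⟨C, G⟩ := gd m (e + e') h H (he _ (by simp [det]) (by simp)
    (pow_dvd_pow _ (Nat.le_add_right _ _)) (by simp) (by simp))
  obtain ⟨C', G'⟩ := gd m (e + e') h' H' (he' _ (by simp [det]) (by simp)
    (pow_dvd_pow _ (Nat.le_add_left _ _)) (by simp) (by simp))
  funext z
  rcases le_or_gt z.im 0 with hz | hz
  · exact H.zero z hz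
  refine main G G' (by positivity) η (fun q => ?_) z hz
  have := hP (q, 1) (q, 1) (1, 0) (q, 1) (fun h => one_ne_zero (congrArg Prod.fst h))
    (fun h => one_ne_zero (congrArg Prod.snd h))
  have a1 : ap mN (q, 1) = (-q, 1) := by simp [ap, mN]
  have a2 : ap mN (1, 0) = (-1, 0) := by simp [ap, mN]
  rw [a1, a2, per_eq, per_eq, Rat.cast_neg] at this
  have n0 : -I * (-1 : ℂ) ^ (m + 1) ≠ 0 :=
    mul_ne_zero (neg_ne_zero.2 I_ne_zero) (pow_ne_zero _ (neg_ne_zero.2 one_ne_zero))
  refine mul_left_cancel₀ n0 ?_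
  linear_combination this

end

end Pool.Agent.MP_5f72fe_nt.MS
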