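import Pool.Agent.MP_5f72fe_nt.MS.S2

/-! Homogeneous polynomials in two variables: interpolation and integrality. -/

namespace Pool.Agent.MP_5f72fe_nt.MS

namespace INTA

variable {K : Type} [AddCommGroup K] [Module ℚ K]

/-- the homogeneous polynomials -/
def HM (K : Type) [AddCommGroup K] [Module ℚ K] (m : ℕ) : Submodule ℚ (V → K) where
  carrier := {P | Hp m P}
  add_mem' := by
    rintro P Q ⟨β, h⟩ ⟨γ, h'⟩
    exact ⟨β + γ, fun x => by
      simp only [Pi.add_apply, h, h', smul_add, Finset.sum_add_distrib]⟩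
  zero_mem' := ⟨0, fun x => by simp⟩
  smul_mem' := by
    rintro c P ⟨β, h⟩
    refine ⟨c • β, fun x => ?_⟩
    simp only [Pi.smul_apply, h, Finset.smul_sum]
    exact Finset.sum_congr rfl fun i _ => smul_comm _ _ _

theorem hsum {ι : Type} {m : ℕ} (s : Finset ι) (F : ι → V → K) (h : ∀ i ∈ s, Hp m (F i)) :
    Hp m fun x => ∑ i ∈ s, F i x := by
  have := (HM K m).sum_mem h
  rwa [show ∑ i ∈ s, F i = fun x => ∑ i ∈ s, F i x from funext fun x => Finset.sum_apply x s F]
    at this

theorem mono {m i : ℕ} (hi : i ≤ m) (κ : K) : Hp m fun x => (x.1 ^ i * x.2 ^ (m - i)) • κ := by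
  refine ⟨Pi.single i κ, fun x => ?_⟩
  rw [Finset.sum_eq_single i]
  · rw [Pi.single_eq_same]
  · intro j _ hj
    rw [Pi.single_eq_of_ne hj, smul_zero]
  · intro h
    exact absurd (Finset.mem_range.2 (by omega)) h

theorem mulLin {m : ℕ} {P : V → K} (h : Hp m P) (a b : ℚ) :
    Hp (m + 1) fun x => (a * x.1 + b * x.2) • P x := by
  obtain ⟨β, h⟩ := h
  have e : (fun x : V => (a * x.1 + b * x.2) • P x) = fun x => ∑ i ∈ Finset.range (m + 1),
      ((x.1 ^ (i + 1) * x.2 ^ (m + 1 - (i + 1))) • (a • β i) +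
        (x.1 ^ i * x.2 ^ (m + 1 - i)) • (b • β i)) := by
    funext x
    rw [h, Finset.smul_sum]
    refine Finset.sum_congr rfl fun i hi => ?_
    have hi' := Finset.mem_range.1 hi
    rw [show m + 1 - (i + 1) = m - i by omega, show m + 1 - i = m - i + 1 by omega, smul_smul,
      smul_smul, smul_smul, ← add_smul]
    congr 1
    ring
  rw [e]
  refine hsum _ _ fun i hi => ?_
  have hi' := Finset.mem_range.1 hi
  exact (HM K (m + 1)).add_mem (mono (by omega) _) (mono (by omega) _)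

theorem const (κ : K) : Hp 0 fun _ => κ := ⟨fun _ => κ, fun x => by simp⟩

theorem powLin {m : ℕ} {P : V → K} (h : Hp m P) (a b : ℚ) (n : ℕ) :
    Hp (m + n) fun x => (a * x.1 + b * x.2) ^ n • P x := by
  induction n with
  | zero => simpa using h
  | succ n ih =>
    have := mulLin ih a b
    simp only [smul_smul, ← pow_succ'] at this
    exact this

theorem prodLin {ι : Type} (s : Finset ι) (a b : ι → ℚ) (κ : K) :
    Hp s.card fun x => (∏ i ∈ s, (a i * x.1 + b i * x.2)) • κ := by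
  classical
  induction s using Finset.induction_on with
  | empty => simpa using const κ
  | insert i s hi ih =>
    have := mulLin ih (a i) (b i)
    simp only [smul_smul] at this
    simp only [Finset.card_insert_of_notMem hi, Finset.prod_insert hi]
    exact this

theorem homog {m : ℕ} {P : V → K} (h : Hp m P) (l : ℚ) (x : V) : P (l • x) = l ^ m • P x := by
  obtain ⟨β, h⟩ := h
  rw [h, h, Finset.smul_sum]
  refine Finset.sum_congr rfl fun i hi => ?_
  have hi' := Finset.mem_range.1 hi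
  rw [smul_smul]
  congr 1
  obtain ⟨j, rfl⟩ : ∃ j, m = i + j := ⟨m - i, by omega⟩
  simp only [Prod.smul_fst, Prod.smul_snd, smul_eq_mul, Nat.add_sub_cancel_left]
  ring

theorem subst {m : ℕ} {P : V → K} (h : Hp m P) (v w : V) :
    Hp m fun x => P (x.1 • v + x.2 • w) := by
  obtain ⟨β, h⟩ := h
  simp only [h]
  refine hsum _ _ fun i hi => ?_
  have hi' := Finset.mem_range.1 hi
  have := powLin (powLin (const (β i)) v.2 w.2 (m - i)) v.1 w.1 i
  rw [show 0 + (m - i) + i = m by omega] at this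
  simp only [smul_smul] at this
  simp only [Prod.fst_add, Prod.snd_add, Prod.smul_fst, Prod.smul_snd, smul_eq_mul,
    mul_comm _ v.1, mul_comm _ v.2, mul_comm _ w.1, mul_comm _ w.2]
  exact this

theorem par {u x : V} (hx : x ≠ 0) (h : dt u x = 0) : ∃ c : ℚ, u = c • x := by
  unfold dt at h
  by_cases h1 : x.1 = 0
  · have h2 : x.2 ≠ 0 := fun h2 => hx (Prod.ext h1 h2)
    refine ⟨u.2 / x.2, Prod.ext ?_ ?_⟩
    · simp only [Prod.smul_fst, smul_eq_mul, h1, mul_zero]
      rw [h1, mul_zero, sub_zero] at h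
      exact (mul_eq_zero.1 h).resolve_right h2
    · simp only [Prod.smul_snd, smul_eq_mul]
      field_simp
  · refine ⟨u.1 / x.1, Prod.ext ?_ ?_⟩
    · simp only [Prod.smul_fst, smul_eq_mul]
      field_simp
    · simp only [Prod.smul_snd, smul_eq_mul]
      field_simp
      linear_combination -h

theorem vanish {m : ℕ} {F : V → ℚ} (hF : Hp m F) (x : Fin (m + 1) → V)
    (hx : ∀ a b, a ≠ b → dt (x a) (x b) ≠ 0) (h0 : ∀ a, F (x a) = 0) (w : V) : F w = 0 := by
  classical
  rcases Nat.eq_zero_or_pos m with rfl | hm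
  · obtain ⟨β, h⟩ := hF
    rw [← h0 0, h, h]
    simp
  by_cases hw : w = 0
  · rw [hw, ← zero_smul ℚ (x 0), homog hF, h0, smul_zero]
  have nz : ∀ a, x a ≠ 0 := fun a ha => by
    have : Nontrivial (Fin (m + 1)) := Fin.nontrivial_iff_two_le.2 (by omega)
    obtain ⟨b, hb⟩ := exists_ne a
    exact hx b a hb (by simp [dt, ha])
  obtain ⟨t, ht⟩ := Infinite.exists_notMem_finset
    (insert (w.2 / w.1) (Finset.univ.image fun a => (x a).2 / (x a).1))
  have key : ∀ y : V, y ≠ 0 → t ≠ y.2 / y.1 → dt (1, t) y ≠ 0 := fun y hy h1 h2 => by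
    simp only [dt, one_mul] at h2
    by_cases h3 : y.1 = 0
    · exact hy (Prod.ext h3 (by rw [h3, mul_zero, sub_zero] at h2; exact h2))
    · exact h1 (by field_simp; linear_combination -h2)
  have e1 : dt (1, t) w ≠ 0 := key w hw fun h => ht (by simp [h])
  have e2 : ∀ a, dt (1, t) (x a) ≠ 0 := fun a => key _ (nz a) fun h =>
    ht (Finset.mem_insert_of_mem (Finset.mem_image.2 ⟨a, Finset.mem_univ _, h.symm⟩))
  obtain ⟨γ, hγ⟩ := subst hF (1, t) w
  set p : Polynomial ℚ := ∑ i ∈ Finset.range (m + 1), Polynomial.monomial i (γ i) with hp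
  have ev : ∀ s : ℚ, p.eval s = F (s • ((1, t) : V) + w) := fun s => by
    have := hγ (s, 1)
    simp only [one_smul, one_pow, mul_one, smul_eq_mul] at this
    rw [this, hp, Polynomial.eval_finsetSum]
    exact Finset.sum_congr rfl fun i _ => by rw [Polynomial.eval_monomial, mul_comm]
  have dg : p.natDegree ≤ m := Polynomial.natDegree_sum_le_of_forall_le _ _ fun i hi =>
    (Polynomial.natDegree_monomial_le _).trans (Nat.lt_succ_iff.1 (Finset.mem_range.1 hi))
  have pa : ∀ a, ∃ c : ℚ, (-dt w (x a) / dt (1, t) (x a)) • ((1, t) : V) + w = c • x a :=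
    fun a => par (nz a) (by
      have := e2 a
      have e : ∀ s : ℚ, dt (s • ((1, t) : V) + w) (x a) = s * dt (1, t) (x a) + dt w (x a) :=
        fun s => by simp only [dt, Prod.fst_add, Prod.snd_add, Prod.smul_fst, Prod.smul_snd,
          smul_eq_mul]; ring
      rw [e]
      field_simp
      ring)
  have p0 : p = 0 := by
    refine Polynomial.eq_zero_of_natDegree_lt_card_of_eval_eq_zero p
      (f := fun a => -dt w (x a) / dt (1, t) (x a)) (fun a b hab => ?_) (fun a => ?_)
      (by rw [Fintype.card_fin]; omega)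
    · by_contra hne
      obtain ⟨c, hc⟩ := pa a
      obtain ⟨d, hd⟩ := pa b
      have hab' : -dt w (x a) / dt (1, t) (x a) = -dt w (x b) / dt (1, t) (x b) := hab
      rw [← hab', hc] at hd
      have h1 : c * dt (x a) (x b) = 0 := by
        have : dt (c • x a) (x b) = 0 := by
          rw [hd]
          simp only [dt, Prod.smul_fst, Prod.smul_snd, smul_eq_mul]
          ring
        rw [← this]
        simp only [dt, Prod.smul_fst, Prod.smul_snd, smul_eq_mul]
        ring
      rw [(mul_eq_zero.1 h1).resolve_right (hx a b hne), zero_smul] at hc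
      apply e1
      rw [eq_neg_of_add_eq_zero_right hc]
      simp only [dt, Prod.fst_neg, Prod.snd_neg, Prod.smul_fst, Prod.smul_snd, smul_eq_mul]
      ring
    · obtain ⟨c, hc⟩ := pa a
      rw [ev, hc, homog hF, h0, smul_zero]
  have := ev 0
  rw [p0, Polynomial.eval_zero, zero_smul, zero_add] at this
  exact this.symm

theorem interp {m : ℕ} (x : Fin (m + 1) → V) (hx : ∀ a b, a ≠ b → dt (x a) (x b) ≠ 0)
    {P : V → K} (hP : Hp m P) (w : V) :
    P w = ∑ a, ((∏ b ∈ Finset.univ.erase a, dt w (x b)) *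
      (∏ b ∈ Finset.univ.erase a, dt (x a) (x b))⁻¹) • P (x a) := by
  have sc : ∀ F : V → ℚ, Hp m F → F w = ∑ a, ((∏ b ∈ Finset.univ.erase a, dt w (x b)) *
      (∏ b ∈ Finset.univ.erase a, dt (x a) (x b))⁻¹) * F (x a) := fun F hF => by
    have h1 : Hp m fun w => ∑ a, ((∏ b ∈ Finset.univ.erase a, dt w (x b)) *
        (∏ b ∈ Finset.univ.erase a, dt (x a) (x b))⁻¹) * F (x a) := by
      refine hsum _ _ fun a _ => ?_
      have := prodLin (Finset.univ.erase a) (fun b => (x b).2) (fun b => -(x b).1)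
        ((∏ b ∈ Finset.univ.erase a, dt (x a) (x b))⁻¹ * F (x a))
      rw [Finset.card_erase_of_mem (Finset.mem_univ a), Finset.card_univ, Fintype.card_fin,
        Nat.add_sub_cancel] at this
      have e : ∀ (w : V) b, dt w (x b) = (x b).2 * w.1 + -(x b).1 * w.2 := fun w b => by
        unfold dt
        ring
      simp only [smul_eq_mul, ← e, ← mul_assoc] at this
      exact this
    refine sub_eq_zero.1 (vanish ((HM ℚ m).sub_mem hF h1) x hx (fun c => ?_) w)
    rw [Pi.sub_apply, Finset.sum_eq_single c, mul_inv_cancel₀, one_mul, sub_self]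
    · exact Finset.prod_ne_zero_iff.2 fun b hb => hx c b (Finset.ne_of_mem_erase hb).symm
    · intro a _ ha
      rw [Finset.prod_eq_zero (Finset.mem_erase.2 ⟨ha.symm, Finset.mem_univ c⟩), zero_mul,
        zero_mul]
      unfold dt
      ring
    · intro h
      exact absurd (Finset.mem_univ c) h
  obtain ⟨β, h⟩ := hP
  simp only [h, Finset.smul_sum, smul_smul]
  rw [Finset.sum_comm]
  refine Finset.sum_congr rfl fun i hi => ?_
  rw [← Finset.sum_smul]
  congr 1
  have := sc _ (mono (Nat.lt_succ_iff.1 (Finset.mem_range.1 hi)) (1 : ℚ))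
  simpa only [smul_eq_mul, mul_one] using this

theorem prodAdd {ι : Type} (O : Subring ℚ) (s : Finset ι) (f g : ι → ℚ) (q : ℚ) (hq : q ∈ O)
    (hf : ∀ i, f i ∈ O) (hg : ∀ i, g i ∈ O) :
    ∃ r ∈ O, ∏ i ∈ s, (f i + q * g i) = ∏ i ∈ s, f i + q * r := by
  classical
  induction s using Finset.induction_on with
  | empty => exact ⟨0, O.zero_mem, by simp⟩
  | insert i s hi ih =>
    obtain ⟨r, hr, e⟩ := ih
    refine ⟨f i * r + g i * ∏ j ∈ s, f j + q * (g i * r), ?_, ?_⟩
    · exact O.add_mem (O.add_mem (O.mul_mem (hf i) hr)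
        (O.mul_mem (hg i) (O.prod_mem fun j _ => hf j))) (O.mul_mem hq (O.mul_mem (hg i) hr))
    · rw [Finset.prod_insert hi, Finset.prod_insert hi, e]
      ring

theorem bound (hB : RowBAS) (m : ℕ) : ∃ e : ℕ, ∀ P : V → ℚ, Hp m P →
    (∀ a : ℕ, a ≤ m → In (P (1, a))) → ∀ (x y : V) (n : ℕ), In x.1 → In x.2 → In y.1 → In y.2 →
      In (3 ^ e * P x) ∧ In (3 ^ e * (P (x + (3 ^ n : ℚ) • y) - P x) / 3 ^ n) := by
  obtain ⟨O, hO⟩ := hB.ring
  set z : Fin (m + 1) → V := fun a => (1, ((a : ℕ) : ℚ)) with hz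
  have hx : ∀ a b, a ≠ b → dt (z a) (z b) ≠ 0 := fun a b hab h => by
    simp only [hz, dt, one_mul, mul_one, sub_eq_zero, Nat.cast_inj] at h
    exact hab (Fin.ext h.symm)
  choose e he using fun a => hB.big (∏ b ∈ Finset.univ.erase a, dt (z a) (z b))⁻¹
  have h3 : ∀ k : ℕ, (3 : ℚ) ^ k ∈ O := fun k => O.pow_mem (by exact_mod_cast natCast_mem O 3) k
  have hc : ∀ a, 3 ^ (∑ a, e a) * (∏ b ∈ Finset.univ.erase a, dt (z a) (z b))⁻¹ ∈ O := fun a => by
    rw [← Finset.add_sum_erase _ _ (Finset.mem_univ a), pow_add, mul_comm (3 ^ e a), mul_assoc]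
    exact O.mul_mem (h3 _) ((hO _).2 (he a))
  have hd : ∀ x : V, In x.1 → In x.2 → ∀ b, dt x (z b) ∈ O := fun x h1 h2 b =>
    O.sub_mem (O.mul_mem ((hO _).2 h1) (natCast_mem O _)) (O.mul_mem ((hO _).2 h2) O.one_mem)
  refine ⟨∑ a, e a, fun P hP h x y n x1 x2 y1 y2 => ?_⟩
  have hv : ∀ a, P (z a) ∈ O := fun a => (hO _).2 (h a (Nat.lt_succ_iff.1 a.2))
  constructor
  · rw [← hO, interp z hx hP x, Finset.mul_sum]
    refine O.sum_mem fun a _ => ?_
    rw [smul_eq_mul, ← mul_assoc, mul_left_comm]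
    exact O.mul_mem (O.mul_mem (O.prod_mem fun b _ => hd x x1 x2 b) (hc a)) (hv a)
  · rw [← hO, interp z hx hP x, interp z hx hP (x + _), ← Finset.sum_sub_distrib, Finset.mul_sum,
      Finset.sum_div]
    refine O.sum_mem fun a _ => ?_
    obtain ⟨r, hr, e1⟩ := prodAdd O (Finset.univ.erase a) (fun b => dt x (z b))
      (fun b => dt y (z b)) (3 ^ n) (h3 n) (hd x x1 x2) (hd y y1 y2)
    have e2 : ∀ b, dt (x + (3 ^ n : ℚ) • y) (z b) = dt x (z b) + 3 ^ n * dt y (z b) := fun b => by
      simp only [dt, Prod.fst_add, Prod.snd_add, Prod.smul_fst, Prod.smul_snd, smul_eq_mul]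
      ring
    simp only [e2, e1, smul_eq_mul]
    have e3 : ∀ A c v E : ℚ, E * ((A + 3 ^ n * r) * c * v - A * c * v) / 3 ^ n =
        r * (E * c) * v := fun A c v E => by
      field_simp
      ring
    rw [e3]
    exact O.mul_mem (O.mul_mem hr (hc a)) (hv a)

end INTA

open INTA in
theorem rowINT : OfINT := by
  intro hB
  refine ⟨fun K _ _ m => ⟨HM K m, fun _ => Iff.rfl⟩,
    fun K _ _ m P hP => ⟨homog hP, subst hP, fun g => ?_⟩, fun m v => ?_,
    fun m x w hx => ⟨_, fun K _ _ P hP => interp x hx hP w⟩, bound hB⟩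
  · have := subst hP (g.1, g.2.2.1) (g.2.1, g.2.2.2)
    have e : ∀ x : V, x.1 • (((g.1 : ℚ), (g.2.2.1 : ℚ)) : V) +
        x.2 • (((g.2.1 : ℚ), (g.2.2.2 : ℚ)) : V) = ap g x := fun x => by
      simp only [ap, Prod.smul_mk, Prod.mk_add_mk, smul_eq_mul, mul_comm]
    simp only [e] at this
    exact this
  · have h1 := powLin (const (1 : ℚ)) (-v.2) v.1 m
    have h2 := powLin (const (1 : ℚ)) v.2 (-v.1) m
    have e1 : ∀ x : V, -v.2 * x.1 + v.1 * x.2 = dt v x := fun x => by
      unfold dt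
      ring
    have e2 : ∀ x : V, v.2 * x.1 + -v.1 * x.2 = dt x v := fun x => by
      unfold dt
      ring
    simp only [zero_add, smul_eq_mul, mul_one, e1, e2] at h1 h2
    exact ⟨h1, h2⟩

end Pool.Agent.MP_5f72fe_nt.MS
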