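import Pool.Agent.MP_5f72fe_nt.MS.S1

/-! Rows LIFT and PAR. -/

namespace Pool.Agent.MP_5f72fe_nt.MS

namespace LIFTA

theorem co_zsmul (hN : RowN2) (k : ℤ) (a : Ch F3) : co (k • a) = k • co a := by
  obtain ⟨C, hC⟩ := hN.lin
  rw [← hC, ← hC, map_zsmul]

theorem co_add (hN : RowN2) (a b : Ch F3) : co (a + b) = co a + co b := by
  obtain ⟨C, hC⟩ := hN.lin
  rw [← hC, ← hC, ← hC, map_add]

theorem co_sub (hN : RowN2) (a b : Ch F3) : co (a - b) = co a - co b := by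
  obtain ⟨C, hC⟩ := hN.lin
  rw [← hC, ← hC, ← hC, map_sub]

theorem co_neg (hN : RowN2) (a : Ch F3) : co (-a) = -co a := by
  obtain ⟨C, hC⟩ := hN.lin
  rw [← hC, ← hC, map_neg]

theorem g0N : G0 mN := by
  simp [G0, mN]

theorem g0rho : ∀ x ∈ rho, G0 x.2 := by
  intro x hx
  simp only [rho, List.mem_cons, List.not_mem_nil, or_false] at hx
  rcases hx with rfl | rfl | rfl | rfl | rfl | rfl <;> simp [G0, mI, mR]

theorem app_sub (o : Op) (a b : Ch F3) : app o (a - b) = app o a - app o b := by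
  induction o with
  | nil => simp [app]
  | cons x o ih =>
    have h : act x.2 (a - b) = act x.2 a - act x.2 b := rfl
    simp only [app, List.map_cons, List.sum_cons] at ih ⊢
    rw [ih, h, smul_sub]
    abel

theorem cf_cj (hC : RowCH) (hN : RowN2) (φ : Sb F3) (h : SL φ) :
    cf (cj φ) = co (act mN (ch φ)) :=
  hN.congr _ _ (hC.ops F3 φ h.1).2.2.1

theorem cf_cj_top (hC : RowCH) (hN : RowN2) (hA : RowACT) (φ : Sb F3) (h : SL φ) (d : ℕ)
    (hu : Up 0 0 (d + 1) (cf φ)) (i j : ℕ) (hij : i + j = d) :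
    cf (cj φ) i j = (-1) ^ d * cf φ i j := by
  rw [cf_cj hC hN φ h, ← hij]
  refine hA.neg _ i j (hC.lc F3 φ h) fun i' j' _ _ hn => hu i' j' (Nat.zero_le _) (Nat.zero_le _) ?_
  omega

theorem sgn_sq (d : ℕ) : ((-1 : F3)) ^ d * (-1) ^ d = 1 := by
  rw [← mul_pow]; simp

theorem three (x : F3) : -(x + x) = x := by
  revert x; decide

/-- the chart level statement -/
theorem chart (hM : RowMOB) (hN : RowN2) (hR : RowRT) (hS : RowSOLVE) (d B : ℕ) (c : Ar)
    (hB : Up B 0 0 c) (hr : ∀ i j, i + j + 3 = d → rgr c i j = 0) :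
    ∃ a : Ch F3, LC2 a ∧ EqO (app rho a) 0 ∧ Up 0 0 (d + 1) (co a) ∧ Up B 0 0 (co a) ∧
      ∀ i j, i + j = d → co a i j = c i j := by
  obtain ⟨a0, hl0, hc0⟩ := hN.ex (fun i j => if i + j = d then c i j else 0) (d + 1)
    (fun i j hi _ _ => if_neg (by omega)) (fun i j _ hj _ => if_neg (by omega))
  have htop : ∀ i j, d + 1 ≤ i + j → co a0 i j = 0 := by
    intro i j h
    rw [hc0]
    exact if_neg (by omega)
  have hB0 : Up B 0 0 (co a0) := by
    intro i j hi hj hn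
    rw [hc0]
    show (if i + j = d then c i j else 0) = 0
    rw [hB i j hi hj hn, ite_self]
  have hlw : LC2 (app rho a0) := (hM.lc F3 a0 hl0).2.1 rho g0rho
  have hw : ∀ i j, d ≤ i + j + 3 → co (app rho a0) i j = 0 := by
    intro i j h
    rcases h.eq_or_lt with h | h
    · rw [(hR a0 i j hl0).2 fun i' j' _ _ hn => htop i' j' (by omega), ← hr i j h.symm, hc0]
      unfold rgr
      split_ifs with h3
      · refine Finset.sum_congr rfl fun m hm => if_pos ?_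
        have := (Finset.mem_Icc.1 hm).2
        omega
      · rfl
    · exact (hR a0 0 0 hl0).1 (i + j) (fun i' j' _ _ hn => htop i' j' (by omega)) i j
        (Nat.zero_le _) (Nat.zero_le _) le_rfl
  have hwB : Up B 0 0 (co (app rho a0)) :=
    (hR a0 B 0 hl0).1 0 fun i' j' hi hj _ => hB0 i' j' hi hj (Nat.zero_le _)
  obtain ⟨z, hlz, hez, hz1, hz2⟩ : ∃ z : Ch F3, LC2 z ∧ EqO (app rho z) (app rho a0) ∧
      Up 0 0 d (co z) ∧ Up B 0 0 (co z) := by
    by_cases hd : 3 ≤ d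
    · obtain ⟨z, h1, h2, h3, h4⟩ := hS (app rho a0) (d - 3) B hlw (hM.rhoR F3 a0)
        (fun i j _ _ hn => hw i j (by omega)) hwB
      exact ⟨z, h1, h2, fun i j hi hj hn => h3 i j hi hj (by omega), h4⟩
    · obtain ⟨z, h1, h2, _, h4⟩ := hS (app rho a0) 0 0 hlw (hM.rhoR F3 a0)
        (fun i j _ _ _ => hw i j (by omega)) (fun i j _ _ _ => hw i j (by omega))
      exact ⟨z, h1, h2, fun i j hi hj _ => h4 i j hi hj (Nat.zero_le _),
        fun i j _ hj hn => h4 i j (Nat.zero_le _) hj hn⟩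
  obtain ⟨M, hM'⟩ := hM.grp F3
  refine ⟨a0 - z, (hM' _).1 (M.sub_mem ((hM' _).2 hl0) ((hM' _).2 hlz)), ?_, ?_, ?_, ?_⟩
  · intro u y hu hy
    rw [app_sub]
    have := hez u y hu hy
    simp only [Pi.sub_apply, Pi.zero_apply, this, sub_self]
  · intro i j hi hj hn
    rw [co_sub hN]
    simp only [Pi.sub_apply, htop i j hn, hz1 i j hi hj (by omega), sub_self]
  · intro i j hi hj hn
    rw [co_sub hN]
    simp only [Pi.sub_apply, hB0 i j hi hj hn, hz2 i j hi hj hn, sub_self]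
  · intro i j hij
    rw [co_sub hN]
    simp only [Pi.sub_apply, hz1 i j (Nat.zero_le _) (Nat.zero_le _) hij.ge, sub_zero, hc0]
    exact if_pos hij

end LIFTA

open LIFTA

theorem rowPAR : OfPAR := by
  intro _ hC hN hA φ d h hp hu i j hi hj hn
  rcases hn.eq_or_lt with hn | hn
  · have h1 := cf_cj_top hC hN hA φ h d hu i j hn.symm
    have h2 : cf (cj φ) = ((-1 : ℤ) ^ (d + 1)) • cf φ := by
      rw [hp]
      exact co_zsmul hN _ (ch φ)
    rw [h2, Pi.smul_apply, Pi.smul_apply, zsmul_eq_mul] at h1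
    simp only [Int.cast_pow, Int.cast_neg, Int.cast_one] at h1
    have h3 := three (cf φ i j)
    have h4 := sgn_sq d
    rw [← h3]
    linear_combination ((-1 : F3) ^ d) * h1 + (2 * cf φ i j) * h4
  · exact hu i j hi hj hn

theorem rowLIFT : OfLIFT := by
  intro hM hO hC hE hN hA hR hS d B c hB hr
  obtain ⟨a, hla, hea, h1, h2, h3⟩ := chart hM hN hR hS d B c hB hr
  obtain ⟨φ, hφ, hch⟩ := hE F3 a hla hea
  have hcf : cf φ = co a := hN.congr _ _ hch
  rw [← hcf] at h1 h2 h3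
  have hl := hC.lc F3 φ hφ
  obtain ⟨M, hM'⟩ := hO.sl F3
  have hz : cf (-(φ + (-1 : ℤ) ^ d • cj φ)) = -(cf φ + (-1 : ℤ) ^ d • cf (cj φ)) := by
    have : ch (-(φ + (-1 : ℤ) ^ d • cj φ)) = -(ch φ + (-1 : ℤ) ^ d • ch (cj φ)) := rfl
    unfold cf
    rw [this, co_neg hN, co_add hN, co_zsmul hN]
  have hup : ∀ i j n, Up i j n (cf φ) → Up i j n (cf (-(φ + (-1 : ℤ) ^ d • cj φ))) := by
    intro i j n hu i' j' hi hj hn
    have := hA.tri mN g0N (ch φ) i j n hl hu i' j' hi hj hn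
    rw [← cf_cj hC hN φ hφ] at this
    rw [hz]
    simp only [Pi.neg_apply, Pi.add_apply, Pi.smul_apply, this, hu i' j' hi hj hn, smul_zero,
      add_zero, neg_zero]
  refine ⟨-(φ + (-1 : ℤ) ^ d • cj φ), (hM' _).1 (M.neg_mem (M.add_mem ((hM' _).2 hφ)
    (M.zsmul_mem ((hM' _).2 (hO.slOp F3 φ hφ).2.1) _))), ?_, hup _ _ _ h1, hup _ _ _ h2, ?_⟩
  · have h4 : cj (-(φ + (-1 : ℤ) ^ d • cj φ)) = -(cj φ + (-1 : ℤ) ^ d • cj (cj φ)) := rfl
    have h5 : ((-1 : ℤ) ^ d) * (-1) ^ d = 1 := by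
      rw [← mul_pow]; simp
    rw [h4, (hO.alg F3 φ hφ.1).1, smul_neg, smul_add, smul_smul, h5, one_smul, add_comm]
  · intro i j hij
    rw [hz, ← h3 i j hij]
    simp only [Pi.neg_apply, Pi.add_apply, Pi.smul_apply, cf_cj_top hC hN hA φ hφ d h1 i j hij]
    simp only [zsmul_eq_mul, Int.cast_pow, Int.cast_neg, Int.cast_one]
    rw [← mul_assoc, sgn_sq d, one_mul, three]

end Pool.Agent.MP_5f72fe_nt.MS
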