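import Pool.Agent.MP_5f72fe_nt.MS.S2

/-! Modular symbols at `3`: the local operators and the lowering of the level. -/

namespace Pool.Agent.MP_5f72fe_nt.MS

namespace LOCA

theorem un1 (h : RowBAS) : Un 1 := by
  have := (h.int 1).2.2 (by norm_num)
  simpa using this

theorem in0 (h : RowBAS) : In 0 := by
  obtain ⟨O, hO⟩ := h.ring
  exact (hO _).1 O.zero_mem

theorem in3 (O : Subring ℚ) (n : ℕ) : (3 : ℚ) ^ n ∈ O :=
  O.pow_mem (by exact_mod_cast natCast_mem O 3) n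

theorem shl (h : RowBAS) {B : Type} {F : V → V → B} {r : ℕ} (h0 : R0 r F) (v w p : V) (x b : ℚ)
    (hx : Un x) (hb : In b) (e : p = x • v + b • w) : F p w = F v w := by
  have := h0 v w x 1 b 0 hx (un1 h) hb (in0 h)
  rw [mul_zero, zero_smul, add_zero, one_smul] at this
  rw [e, this]

theorem shr (h : RowBAS) {B : Type} {F : V → V → B} {r : ℕ} (h0 : R0 r F) (v w q : V) (y c : ℚ)
    (hy : Un y) (hc : In c) (e : q = y • w + (3 ^ r * c) • v) : F v q = F v w := by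
  have := h0 v w 1 y 0 c (un1 h) hy (in0 h) hc
  rw [zero_smul, add_zero, one_smul] at this
  rw [e, this]

theorem rk (h : RowBAS) (B : Type) (F : V → V → B) (r : ℕ) (h0 : R0 r F) :
    RK r F ∧ R0 (r + 1) F := by
  obtain ⟨O, hO⟩ := h.ring
  refine ⟨fun v w x y b c hx hy hb hc => ?_, fun v w x y b c hx hy hb hc => ?_⟩
  · exact h0 v w x y _ c hx hy ((hO _).1 (O.mul_mem (in3 O r) ((hO _).2 hb))) hc
  · have := h0 v w x y b (3 ^ 1 * c) hx hy hb ((hO _).1 (O.mul_mem (in3 O 1) ((hO _).2 hc)))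
    rw [← mul_assoc, ← pow_add] at this
    exact this

theorem sgn (ho : RowOM) (x : ℚ) (h : RowBAS) (hx : Un x) : chi x = 1 ∨ chi x = -1 := by
  rw [← ho.2.2.1 x hx]
  exact ho.2.2.2.2.2.2 x ((h.un' x).1 hx).1

theorem move (h : RowBAS) (ho : RowOM) {B : Type} {F : V → V → B} {r : ℕ} (h0 : R0 (r + 2) F)
    (v w : V) (x y b c : ℚ) (hx : Un x) (hy : Un y) (hb : In b) (hc : In c) (t : ℚ)
    (ht : t = 1 ∨ t = -1) :
    F (x • v + b • w + (t / 3) • (y • w + (3 ^ (r + 2) * c) • v)) (y • w + (3 ^ (r + 2) * c) • v) =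
      F (v + (t * (chi x * chi y) / 3) • w) w := by
  obtain ⟨O, hO⟩ := h.ring
  have pm : ∀ a : ℚ, a = 1 ∨ a = -1 → a ∈ O := by
    rintro a (rfl | rfl)
    · exact O.one_mem
    · exact O.neg_mem O.one_mem
  have hcx := sgn ho x h hx
  have hcy := sgn ho y h hy
  have tO := pm t ht
  have xO := pm _ hcx
  have yO := pm _ hcy
  have cO := (hO _).2 hc
  have nx := (hO _).2 (ho.2.2.2.2.2.1 x hx.1)
  have ny := (hO _).2 (ho.2.2.2.2.2.1 y hy.1)
  have sq : chi x * chi x = 1 := by rcases hcx with e | e <;> rw [e] <;> norm_num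
  have key := h0 (v + (t * (chi x * chi y) / 3) • w) w (x + 3 * (t * 3 ^ r * c))
    (y + 3 * (-(t * (chi x * chi y)) * 3 ^ r * c))
    (b + t * ((y - chi y) / 3 - chi x * chi y * ((x - chi x) / 3) -
      chi x * chi y * (t * 3 ^ r * c))) c
    (h.unAdd _ _ hx ((hO _).1 (O.mul_mem (O.mul_mem tO (in3 O r)) cO)))
    (h.unAdd _ _ hy ((hO _).1 (O.mul_mem (O.mul_mem (O.neg_mem (O.mul_mem tO (O.mul_mem xO yO)))
      (in3 O r)) cO)))
    ((hO _).1 (O.add_mem ((hO _).2 hb) (O.mul_mem tO (O.sub_mem (O.sub_mem ny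
      (O.mul_mem (O.mul_mem xO yO) nx)) (O.mul_mem (O.mul_mem xO yO)
        (O.mul_mem (O.mul_mem tO (in3 O r)) cO)))))) hc
  have e1 : x • v + b • w + (t / 3) • (y • w + (3 ^ (r + 2) * c) • v) =
      (x + 3 * (t * 3 ^ r * c)) • (v + (t * (chi x * chi y) / 3) • w) +
      (b + t * ((y - chi y) / 3 - chi x * chi y * ((x - chi x) / 3) -
        chi x * chi y * (t * 3 ^ r * c))) • w := by
    match_scalars
    · ring
    · linear_combination (-(t * chi y / 3)) * sq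
  have e2 : y • w + (3 ^ (r + 2) * c) • v =
      (y + 3 * (-(t * (chi x * chi y)) * 3 ^ r * c)) • w +
        (3 ^ (r + 2) * c) • (v + (t * (chi x * chi y) / 3) • w) := by
    match_scalars <;> ring
  rw [e1, ← key, ← e2]

theorem move' (h : RowBAS) (ho : RowOM) {B : Type} {F : V → V → B} {r : ℕ} (h0 : R0 (r + 2) F)
    (v w : V) (x y b c : ℚ) (hx : Un x) (hy : Un y) (hb : In b) (hc : In c) :
    ∃ s : ℚ, s = chi x * chi y ∧ (s = 1 ∨ s = -1) ∧
    F (x • v + b • w + (1 / 3 : ℚ) • (y • w + (3 ^ (r + 2) * c) • v))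
      (y • w + (3 ^ (r + 2) * c) • v) = F (v + (s / 3) • w) w ∧
    F (x • v + b • w - (1 / 3 : ℚ) • (y • w + (3 ^ (r + 2) * c) • v))
      (y • w + (3 ^ (r + 2) * c) • v) = F (v - (s / 3) • w) w := by
  refine ⟨_, rfl, ?_, ?_, ?_⟩
  · rcases sgn ho x h hx with e | e <;> rcases sgn ho y h hy with e' | e' <;> rw [e, e'] <;>
      norm_num
  · have := move h ho h0 v w x y b c hx hy hb hc 1 (Or.inl rfl)
    rwa [one_mul] at this
  · have := move h ho h0 v w x y b c hx hy hb hc (-1) (Or.inr rfl)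
    rwa [neg_one_mul, neg_div, neg_div, neg_smul, neg_smul, ← sub_eq_add_neg,
      ← sub_eq_add_neg] at this

theorem ops (h : RowBAS) (ho : RowOM) (B : Type) [AddCommGroup B] [Module ℚ B] (F : V → V → B)
    (r : ℕ) (h0 : R0 (r + 2) F) : R0 (r + 2) (dep F) ∧ R0 (r + 2) (tw F) ∧ Dp (dep F) := by
  obtain ⟨O, hO⟩ := h.ring
  refine ⟨fun v w x y b c hx hy hb hc => ?_, fun v w x y b c hx hy hb hc => ?_, fun v w => ?_⟩
  · obtain ⟨s, -, hs, e1, e2⟩ := move' h ho h0 v w x y b c hx hy hb hc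
    unfold dep
    rw [e1, e2, h0 v w x y b c hx hy hb hc]
    rcases hs with rfl | rfl
    · rfl
    · rw [neg_div, neg_smul, sub_neg_eq_add, ← sub_eq_add_neg, add_right_comm]
  · obtain ⟨s, es, hs, e1, e2⟩ := move' h ho h0 v w x y b c hx hy hb hc
    have hi : In (-(3 ^ (r + 1) * b * c)) :=
      (hO _).1 (O.neg_mem (O.mul_mem (O.mul_mem (in3 O _) ((hO _).2 hb)) ((hO _).2 hc)))
    have hu := (h.unMul x y hx hy).1
    have ed : dt (x • v + b • w) (y • w + (3 ^ (r + 2) * c) • v) =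
        (x * y + 3 * -(3 ^ (r + 1) * b * c)) * dt v w := by
      simp only [dt, Prod.fst_add, Prod.snd_add, Prod.smul_fst, Prod.smul_snd, smul_eq_mul]
      ring
    unfold tw
    rw [e1, e2, ed, ho.1, ho.2.2.1 _ (h.unAdd _ _ hu hi), ho.2.2.2.2.1 _ _ hu.1 hi,
      ho.2.2.2.1 _ _ hx.1 hy.1, ← es]
    rcases hs with rfl | rfl
    · rw [one_mul]
    · rw [neg_div, neg_smul, sub_neg_eq_add, ← sub_eq_add_neg, neg_one_mul, neg_smul, ← smul_neg,
        neg_sub]
  · have a1 : F (v + (1 / 3 : ℚ) • w + (1 / 3 : ℚ) • w) w = F (v - (1 / 3 : ℚ) • w) w :=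
      shl h h0 _ w _ 1 1 (un1 h) (un1 h).1 (by module)
    have a2 : F (v - (1 / 3 : ℚ) • w - (1 / 3 : ℚ) • w) w = F (v + (1 / 3 : ℚ) • w) w :=
      shl h h0 _ w _ 1 (-1) (un1 h) ((hO _).1 (O.neg_mem O.one_mem)) (by module)
    unfold dep
    rw [a1, a2, add_sub_cancel_right, sub_add_cancel]
    module

theorem one (h : RowBAS) (B : Type) [AddCommGroup B] (F : V → V → B) (τ : ℤ) (r M : ℕ)
    (hτ : τ = 1 ∨ τ = -1) (hM : 1 ≤ M) (h0 : R0 (r + 2) F) (hR : Rect τ M F) (v w : V) (α β : ℚ)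
    (hd : dt v w ≠ 0) (hα : In α) (hβ : In β) (hu : Un (1 - α * (3 ^ r * β))) :
    Rc F 3 v w α (3 ^ r * β) = 0 := by
  obtain ⟨O, hO⟩ := h.ring
  have αO := (hO _).2 hα
  have βO := (hO _).2 hβ
  have key := hR v w α (3 ^ r * β) hd hα ((hO _).1 (O.mul_mem (in3 O r) βO)) hu
  rw [Finset.sum_eq_single (M + 1)] at key
  · have e : (3 : ℚ) ^ (M + 1) / 3 ^ M = 3 := by
      rw [pow_succ]
      field_simp
    rw [e] at key
    rcases hτ with rfl | rfl
    · rwa [one_pow, one_smul] at key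
    · rcases neg_one_pow_eq_or ℤ (M + 1) with e' | e'
      · rwa [e', one_smul] at key
      · rwa [e', neg_smul, one_smul, neg_eq_zero] at key
  · intro i _ hi
    have z : Rc F (3 ^ i / 3 ^ M) v w α (3 ^ r * β) = 0 := by
      unfold Rc
      rcases Nat.lt_or_gt_of_ne hi with hlt | hgt
      · obtain ⟨k, rfl⟩ : ∃ k, M = i + k := ⟨M - i, by omega⟩
        have e : (3 : ℚ) ^ i / 3 ^ (i + k) = 1 / 3 ^ k := by
          rw [pow_add]
          field_simp
        have hb : In (α * 3 ^ k) := (hO _).1 (O.mul_mem αO (in3 O k))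
        rw [e, shl h h0 v _ (v + α • w) 1 _ (un1 h) hb (by match_scalars <;> field_simp),
          shl h h0 v _ (v + α • w) _ _ hu hb (by match_scalars <;> field_simp; ring)]
        abel
      · obtain ⟨k, rfl⟩ : ∃ k, i = M + 2 + k := ⟨i - (M + 2), by omega⟩
        have e : (3 : ℚ) ^ (M + 2 + k) / 3 ^ M = 3 ^ (2 + k) := by
          rw [add_assoc, pow_add]
          field_simp
        have hc : In (3 ^ k * β) := (hO _).1 (O.mul_mem (in3 O k) βO)
        rw [e, shr h h0 v (((3 : ℚ) ^ (2 + k)) • w) (((3 : ℚ) ^ (2 + k)) • (w + (3 ^ r * β) • v))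
            1 _ (un1 h) hc (by match_scalars <;> ring),
          shr h h0 (v + α • w) (((3 : ℚ) ^ (2 + k)) • w)
            (((3 : ℚ) ^ (2 + k)) • (w + (3 ^ r * β) • v)) _ _ hu hc (by match_scalars <;> ring)]
        abel
    rw [z, smul_zero]
  · intro hn
    exact absurd (Finset.mem_range.2 (by omega)) hn

theorem step (h : RowBAS) (B : Type) [AddCommGroup B] [Module ℚ B] (F : V → V → B) (τ : ℤ)
    (r M : ℕ) (hτ : τ = 1 ∨ τ = -1) (hM : 1 ≤ M) (h0 : R0 (r + 1 + 2) F) (hD : Dp F)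
    (hz : ∀ v w, dt v w = 0 → F v w = 0) (hR : Rect τ M F) : R0 (r + 2) F := by
  obtain ⟨O, hO⟩ := h.ring
  have key : ∀ (v w : V) (c : ℚ), In c →
      F v ((3 : ℚ) • (w + (3 ^ (r + 1) * c) • v)) = F v ((3 : ℚ) • w) := by
    intro v w c hc
    have cO := (hO _).2 hc
    by_cases hd : dt v w = 0
    · rw [hz, hz]
      · rw [← mul_zero 3, ← hd]
        simp only [dt, Prod.smul_fst, Prod.smul_snd, smul_eq_mul]
        ring
      · rw [← mul_zero 3, ← hd]
        simp only [dt, Prod.fst_add, Prod.snd_add, Prod.smul_fst, Prod.smul_snd, smul_eq_mul]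
        ring
    have main : ∀ α : ℚ, α ∈ O →
        F v ((3 : ℚ) • w) - F (v + (α / 3) • (3 : ℚ) • w) ((3 : ℚ) • w) -
          F v ((3 : ℚ) • (w + (3 ^ (r + 1) * c) • v)) +
          F (v + (α / 3) • (3 : ℚ) • (w + (3 ^ (r + 1) * c) • v))
            ((3 : ℚ) • (w + (3 ^ (r + 1) * c) • v)) = 0 := by
      intro α αO
      have hu : Un (1 - α * (3 ^ (r + 1) * c)) := by
        have := h.unAdd 1 (-(α * (3 ^ r * c))) (un1 h)
          ((hO _).1 (O.neg_mem (O.mul_mem αO (O.mul_mem (in3 O r) cO))))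
        have e : 1 - α * (3 ^ (r + 1) * c) = 1 + 3 * -(α * (3 ^ r * c)) := by ring
        rwa [e]
      have k1 := one h B F τ (r + 1) M hτ hM h0 hR v w α c hd ((hO _).1 αO) hc hu
      unfold Rc at k1
      have k2 := shl h h0 (v + (α / 3) • (3 : ℚ) • (w + (3 ^ (r + 1) * c) • v))
        ((3 : ℚ) • (w + (3 ^ (r + 1) * c) • v)) (v + α • w) _ (α * α * (3 ^ r * c)) hu
        ((hO _).1 (O.mul_mem (O.mul_mem αO αO) (O.mul_mem (in3 O r) cO)))
        (by match_scalars <;> ring)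
      have e : v + (α / 3) • (3 : ℚ) • w = v + α • w := by module
      rw [e, ← k2]
      exact k1
    have m1 := main 1 O.one_mem
    have m2 := main (-1) (O.neg_mem O.one_mem)
    rw [neg_div, neg_smul, neg_smul, ← sub_eq_add_neg, ← sub_eq_add_neg] at m2
    have d1 := hD v ((3 : ℚ) • w)
    have d2 := hD v ((3 : ℚ) • (w + (3 ^ (r + 1) * c) • v))
    linear_combination (norm := module) (-1 / 3 : ℚ) • m1 + (-1 / 3 : ℚ) • m2 +
      (-1 / 3 : ℚ) • d1 + (1 / 3 : ℚ) • d2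
  intro v w x y b c hx hy hb hc
  have hy0 : y ≠ 0 := ((h.un' y).1 hy).1
  have hby : b / y ∈ O := (hO _).2 (h.div b y hb hy)
  rw [shl h h0 v _ _ (x + 3 * -(3 ^ (r + 1) * c * (b / y))) (b / y)
    (h.unAdd _ _ hx ((hO _).1 (O.neg_mem (O.mul_mem (O.mul_mem (in3 O _) ((hO _).2 hc)) hby))))
    ((hO _).1 hby) (by match_scalars <;> field_simp <;> ring)]
  have e : y • w + (3 ^ (r + 2) * c) • v = (3 : ℚ) • ((y / 3) • w + (3 ^ (r + 1) * c) • v) := by
    match_scalars <;> ring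
  rw [e, key v _ c hc]
  exact shr h h0 v w _ y 0 hy (in0 h) (by module)

end LOCA

theorem rowLOC : OfLOC := by
  intro h ho
  refine ⟨fun B F r _ h0 => LOCA.rk h B F r h0, fun B _ _ F r hr h0 => ?_,
    fun B _ F τ r M hτ hM h0 hR => LOCA.one h B F τ r M hτ hM h0 hR,
    fun B _ _ F τ r M hτ hM h0 hD hz hR => ?_⟩
  · obtain ⟨k, rfl⟩ : ∃ k, r = k + 2 := ⟨r - 2, by omega⟩
    exact LOCA.ops h ho B F k h0
  · induction r with
    | zero => exact h0
    | succ r ih => exact ih (LOCA.step h B F τ r M hτ hM h0 hD hz hR)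

end Pool.Agent.MP_5f72fe_nt.MS
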