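import Pool.Agent.MP_5f72fe_nt.MS.S1

/-! The relations of Manin are complete. -/

namespace Pool.Agent.MP_5f72fe_nt.MS

noncomputable section

namespace MANINA

open Classical in
/-- the potential on primitive vectors `(h, k)` with `k ≥ 0` -/
def Q {A : Type} [AddCommGroup A] (μ : Mt → A) (k : ℕ) (h : ℤ) : A :=
  if hex : ∃ p : ℕ × ℤ, p.1 < k ∧ p.2 * k - p.1 * h = 1 then
    Q μ (choose hex).1 (choose hex).2 + μ ((choose hex).2, h, (choose hex).1, k)
  else 0
termination_by k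
decreasing_by exact (choose_spec hex).1

variable {A : Type} [AddCommGroup A] (μ : Mt → A)

theorem Q_zero (h : ℤ) : Q μ 0 h = 0 := by
  rw [Q, dif_neg]
  rintro ⟨p, hp, -⟩
  omega

theorem uniq {k k1 k2 : ℕ} {h h1 h2 : ℤ} (l1 : k1 < k) (l2 : k2 < k)
    (e1 : h1 * k - k1 * h = 1) (e2 : h2 * k - k2 * h = 1) : k1 = k2 ∧ h1 = h2 := by
  have hd : (k1 : ℤ) - k2 = k * (h2 * k1 - h1 * k2) := by
    linear_combination (-(k1 : ℤ)) * e2 + (k2 : ℤ) * e1
  have hk : (k1 : ℤ) - k2 = 0 := by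
    refine Int.eq_zero_of_dvd_of_natAbs_lt_natAbs (d := (k : ℤ)) ⟨_, hd⟩ ?_
    omega
  have hk' : k1 = k2 := by omega
  refine ⟨hk', ?_⟩
  subst hk'
  have h0 : (k : ℤ) ≠ 0 := by omega
  have : h1 * k = h2 * k := by linarith
  exact mul_right_cancel₀ h0 this

theorem Q_step {k k' : ℕ} {h h' : ℤ} (l : k' < k) (e : h' * k - k' * h = 1) :
    Q μ k h = Q μ k' h' + μ (h', h, k', k) := by
  have hex : ∃ p : ℕ × ℤ, p.1 < k ∧ p.2 * k - p.1 * h = 1 := ⟨(k', h'), l, e⟩
  rw [Q, dif_pos hex]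
  obtain ⟨a, b⟩ := uniq (Classical.choose_spec hex).1 l (Classical.choose_spec hex).2 e
  rw [a, b]

/-- the potential on rational vectors -/
def R (c : V) : A := if c.2 = 0 then 0 else Q μ (c.1 / c.2).den (c.1 / c.2).num

theorem R_smul (c : V) {l : ℚ} (hl : l ≠ 0) : R μ (l • c) = R μ c := by
  unfold R
  by_cases h : c.2 = 0
  · simp [h]
  · have h2 : (l • c).2 ≠ 0 := by simpa using ⟨hl, h⟩
    have h3 : (l • c).1 / (l • c).2 = c.1 / c.2 := by
      simp only [Prod.smul_fst, Prod.smul_snd, smul_eq_mul]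
      exact mul_div_mul_left _ _ hl
    rw [if_neg h2, if_neg h, h3]

theorem R_neg (a b : ℤ) : R μ (((-a : ℤ) : ℚ), ((-b : ℤ) : ℚ)) = R μ ((a : ℚ), (b : ℚ)) := by
  rw [← R_smul μ ((a : ℚ), (b : ℚ)) (l := -1) (by norm_num)]
  congr 1
  ext <;> simp

theorem R_int {a : ℤ} {b : ℕ} (h : IsCoprime a (b : ℤ)) :
    R μ ((a : ℚ), (((b : ℤ)) : ℚ)) = Q μ b a := by
  unfold R
  rcases Nat.eq_zero_or_pos b with rfl | hb
  · simp [Q_zero]
  · have hb' : (0 : ℤ) < b := by exact_mod_cast hb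
    have hc : Nat.Coprime a.natAbs (b : ℤ).natAbs := Int.isCoprime_iff_gcd_eq_one.1 h
    have h1 := Rat.num_div_eq_of_coprime hb' hc
    have h2 := Rat.den_div_eq_of_coprime hb' hc
    have h3 : (((b : ℤ) : ℚ)) ≠ 0 := by exact_mod_cast hb.ne'
    rw [if_neg h3]
    have h4 : ((a : ℚ) / ((b : ℤ) : ℚ)).den = b := by exact_mod_cast h2
    simp only [h1, h4]

/-- the claim for the matrix with columns `(a, b)` and `(c, d)` -/
def G (a b c d : ℤ) : Prop := μ (a, c, b, d) = R μ ((c : ℚ), (d : ℚ)) - R μ ((a : ℚ), (b : ℚ))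

theorem G_def {a c : ℤ} {b d : ℕ} (l : b < d) (e : a * d - c * b = 1) : G μ a b c d := by
  unfold G
  have c1 : IsCoprime a (b : ℤ) := ⟨d, -c, by linarith⟩
  have c2 : IsCoprime c (d : ℤ) := ⟨-b, a, by linarith⟩
  rw [R_int μ c1, R_int μ c2, Q_step μ l (h' := a) (by linarith)]
  abel

theorem G_quad (hT : ∀ g, det g = 1 → μ g = μ (mul g mT) + μ (mul g mU)) (c : ℤ) (d : ℕ)
    (hd : 0 < d) (b : ℕ) : ∀ a : ℤ, a * d - c * b = 1 → G μ a b c d := by
  induction b using Nat.strong_induction_on with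
  | _ b ih =>
    intro a e
    by_cases l : b < d
    · exact G_def μ l e
    · obtain ⟨t, rfl⟩ : ∃ t, b = t + d := ⟨b - d, by omega⟩
      push_cast at e
      have i1 := ih t (by omega) (a - c) (by linarith)
      have i2 := G_def μ (a := a - c) (c := a) (b := t) (d := t + d) (by omega)
        (by push_cast; linarith)
      have i3 := hT (a - c, c, t, d) (by simp only [det]; linarith)
      have m1 : mul (a - c, c, (t : ℤ), (d : ℤ)) mT = (a - c, a, (t : ℤ), ((t + d : ℕ) : ℤ)) := by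
        simp only [mul, mT]; push_cast; ext <;> simp
      have m2 : mul (a - c, c, (t : ℤ), (d : ℤ)) mU = (a, c, ((t + d : ℕ) : ℤ), (d : ℤ)) := by
        simp only [mul, mU]; push_cast; ext <;> simp
      rw [m1, m2] at i3
      unfold G at i1 i2 ⊢
      rw [i1, i2] at i3
      rw [eq_sub_of_add_eq' i3.symm]
      abel

theorem G_rot (hS : ∀ g, det g = 1 → μ g + μ (mul g mS) = 0) {a b c d : ℤ}
    (e : a * d - c * b = 1) (h : G μ c d (-a) (-b)) : G μ a b c d := by
  have i := hS (a, c, b, d) (by simp only [det]; linarith)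
  have m : mul (a, c, b, d) mS = (c, -a, d, -b) := by
    simp only [mul, mS]; ext <;> simp
  rw [m] at i
  unfold G at h ⊢
  rw [h, R_neg] at i
  rw [eq_neg_of_add_eq_zero_left i]
  abel

theorem G_all (hS : ∀ g, det g = 1 → μ g + μ (mul g mS) = 0)
    (hT : ∀ g, det g = 1 → μ g = μ (mul g mT) + μ (mul g mU)) {a b c d : ℤ}
    (e : a * d - c * b = 1) : G μ a b c d := by
  have q : ∀ a b c d : ℤ, a * d - c * b = 1 → 0 ≤ b → 0 < d → G μ a b c d := by
    intro a b c d e hb hd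
    lift b to ℕ using hb
    lift d to ℕ using hd.le
    exact G_quad μ hT c d (by exact_mod_cast hd) b a e
  have q1 : ∀ a b c d : ℤ, a * d - c * b = 1 → b < 0 → 0 ≤ d → G μ a b c d := fun a b c d e hb hd =>
    G_rot μ hS e (q _ _ _ _ (by linarith) hd (by linarith))
  have q2 : ∀ a b c d : ℤ, a * d - c * b = 1 → b ≤ 0 → d < 0 → G μ a b c d := fun a b c d e hb hd =>
    G_rot μ hS e (q1 _ _ _ _ (by linarith) hd (by linarith))
  have q3 : ∀ a b c d : ℤ, a * d - c * b = 1 → 0 < b → d ≤ 0 → G μ a b c d := fun a b c d e hb hd =>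
    G_rot μ hS e (q2 _ _ _ _ (by linarith) hd (by linarith))
  rcases lt_trichotomy b 0 with hb | hb | hb
  · rcases le_or_gt 0 d with hd | hd
    · exact q1 _ _ _ _ e hb hd
    · exact q2 _ _ _ _ e hb.le hd
  · rcases lt_trichotomy d 0 with hd | hd | hd
    · exact q2 _ _ _ _ e hb.le hd
    · subst hb hd; simp at e
    · exact q _ _ _ _ e hb.ge hd
  · rcases le_or_gt d 0 with hd | hd
    · exact q3 _ _ _ _ e hb hd
    · exact q _ _ _ _ e hb.le hd

end MANINA

theorem rowMANIN : RowMANIN := by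
  intro A _ μ hS hT
  refine ⟨fun c c' => MANINA.R μ c' - MANINA.R μ c, ⟨fun c l _ hl => ?_, fun c c' c'' _ _ _ => ?_⟩, ?_⟩
  · rw [MANINA.R_smul μ c hl, sub_self]
  · abel
  · rintro ⟨p, q, r, s⟩ hg
    have h := MANINA.G_all μ hS hT (a := p) (b := r) (c := q) (d := s) (by simpa [det] using hg)
    have a1 : ap (p, q, r, s) e1 = ((p : ℚ), (r : ℚ)) := by simp [ap, e1]
    have a2 : ap (p, q, r, s) e2 = ((q : ℚ), (s : ℚ)) := by simp [ap, e2]
    rw [a1, a2]
    exact h.symm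

end

end Pool.Agent.MP_5f72fe_nt.MS
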