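import Pool.Agent.MP_5f72fe_nt.MS.S3

/-! Periods and twisted central values. -/

namespace Pool.Agent.MP_5f72fe_nt.MS

open Complex Filter Topology MeasureTheory Set Asymptotics
open scoped Real NumberTheorySymbols

noncomputable section

namespace MELCA

/-- the twisted function on the imaginary axis -/
def gE (N : ℕ) (h : ℂ → ℂ) (y : ℝ) : ℂ :=
  (H3.GS N)⁻¹ * ∑ c ∈ Finset.range N, (J(c | N) : ℂ) * h (c / N + y * I)

theorem GS_ne (N : ℕ) (h : 0 < N) : H3.GS N ≠ 0 := by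
  unfold H3.GS
  have h1 : ((√(N : ℝ) : ℝ) : ℂ) ≠ 0 := by
    have : (0 : ℝ) < √(N : ℝ) := Real.sqrt_pos.mpr (by exact_mod_cast h)
    exact_mod_cast this.ne'
  refine mul_ne_zero h1 ?_
  split_ifs
  · exact one_ne_zero
  · exact I_ne_zero

theorem im_pt (N c : ℕ) (y : ℝ) : ((c : ℂ) / N + y * I).im = y := by
  have : ((c : ℂ) / N) = ((c / N : ℝ) : ℂ) := by push_cast; rfl
  rw [this]
  simp

theorem gE_hasSum (hG : H3.RowGAUSS) (N : ℕ) (h : ℂ → ℂ) (b : ℕ → ℂ) (hq : QE h b)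
    (hodd : Odd N) (hsf : Squarefree N) (y : ℝ) (hy : 0 < y) :
    HasSum (fun n : ℕ => (b n * J(n | N)) * (Real.exp (-(2 * π * n) * y) : ℝ)) (gE N h y) := by
  have hN : 0 < N := hodd.pos
  have h1 : ∀ c ∈ Finset.range N, HasSum
      (fun n : ℕ => (J(c | N) : ℂ) * (b n * cexp (2 * π * I * n * ((c : ℂ) / N + y * I))))
      ((J(c | N) : ℂ) * h (c / N + y * I)) := by
    intro c _
    exact HasSum.mul_left _ (hq.2 _ (by rw [im_pt]; exact hy))
  have h2 := (hasSum_sum h1).mul_left (H3.GS N)⁻¹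
  refine HasSum.congr_fun h2 fun n => ?_
  have h3 := hG N hodd hsf (n : ℤ)
  have h4 : ∀ c ∈ Finset.range N,
      (J(c | N) : ℂ) * (b n * cexp (2 * π * I * n * ((c : ℂ) / N + y * I))) =
      (b n * (Real.exp (-(2 * π * n) * y) : ℝ)) *
        ((J(c | N) : ℂ) * H3.E (c * ((n : ℤ) : ℂ) / N)) := by
    intro c _
    have e : 2 * π * I * n * ((c : ℂ) / N + y * I) =
        ((-(2 * π * n) * y : ℝ) : ℂ) + 2 * π * I * (c * ((n : ℤ) : ℂ) / N) := by
      push_cast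
      linear_combination (2 * π * n * y) * I_mul_I
    rw [e, Complex.exp_add, ← Complex.ofReal_exp]
    unfold H3.E
    ring
  rw [Finset.sum_congr rfl h4, ← Finset.mul_sum, h3]
  have := GS_ne N hN
  field_simp

theorem gE_cont (N k : ℕ) (h : ℂ → ℂ) (hc : Cu k h) : ContinuousOn (gE N h) (Ioi 0) := by
  have hd := hc.hol.continuousOn
  unfold gE
  refine continuousOn_const.mul (continuousOn_finsetSum _ fun c _ => continuousOn_const.mul ?_)
  refine hd.comp (f := fun y : ℝ => (c : ℂ) / N + y * I) (by fun_prop) ?_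
  intro y hy
  show 0 < ((c : ℂ) / N + y * I).im
  rw [im_pt]
  exact hy

theorem norm_J (a : ℤ) (N : ℕ) : ‖(J(a | N) : ℂ)‖ ≤ 1 := by
  rcases jacobiSym.trichotomy a N with h | h | h <;> simp [h]

theorem gE_bigO (N : ℕ) (h : ℂ → ℂ) (l : Filter ℝ) (F : ℝ → ℝ)
    (H : ∀ c : ℕ, (fun y : ℝ => h (c / N + y * I)) =O[l] F) : gE N h =O[l] F := by
  unfold gE
  refine IsBigO.const_mul_left ?_ _
  refine (IsBigO.sum (s := Finset.range N)
    fun c _ => (H c).const_mul_left (J(c | N) : ℂ)).congr_left fun y => ?_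
  rw [Finset.sum_apply]

theorem top (N k : ℕ) (h : ℂ → ℂ) (hc : Cu k h) (s c : ℕ) :
    (fun y : ℝ => h (c / N + y * I)) =O[atTop] fun y : ℝ => y ^ (-(s : ℝ)) := by
  obtain ⟨C, hC⟩ := hc.bd e1 (by simp [e1]) s
  refine IsBigO.of_bound C ?_
  filter_upwards [eventually_ge_atTop (1 : ℝ)] with y hy
  have hy0 : 0 < y := by linarith
  have h1 := hC (c / N + y * I) (by rw [im_pt]; exact hy0)
  rw [im_pt] at h1
  have h2 : (‖Lf e1 ((c : ℂ) / N + y * I)‖ ^ 2 / y) ^ s = y ^ (-(s : ℝ)) := by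
    rw [Real.rpow_neg hy0.le, Real.rpow_natCast]
    simp [Lf, e1]
  rw [h2] at h1
  rw [Real.norm_of_nonneg (Real.rpow_nonneg hy0.le _)]
  refine le_trans ?_ h1
  exact le_mul_of_one_le_right (norm_nonneg _) (one_le_pow₀ hy)

theorem Lf_pt (N c : ℕ) (hN : 0 < N) (y : ℝ) :
    Lf ((c : ℚ), (N : ℚ)) ((c : ℂ) / N + y * I) = -(N * (y * I)) := by
  have hN0 : (N : ℂ) ≠ 0 := by exact_mod_cast hN.ne'
  simp only [Lf]
  push_cast
  field_simp
  ring

theorem bot (N k : ℕ) (hN : 0 < N) (h : ℂ → ℂ) (hc : Cu k h) (s c : ℕ) :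
    (fun y : ℝ => h (c / N + y * I)) =O[𝓝[>] 0] fun y : ℝ => y ^ (-(-(s : ℝ))) := by
  obtain ⟨C, hC⟩ := hc.bd ((c : ℚ), (N : ℚ)) (by simp [hN.ne']) (s + k)
  refine IsBigO.of_bound (C * ((N : ℝ) ^ 2) ^ (s + k)) ?_
  filter_upwards [self_mem_nhdsWithin] with y hy
  have hy0 : 0 < y := hy
  have h1 := hC (c / N + y * I) (by rw [im_pt]; exact hy0)
  rw [im_pt, Lf_pt N c hN] at h1
  have h3 : ‖-((N : ℂ) * (y * I))‖ ^ 2 / y = (N : ℝ) ^ 2 * y := by
    rw [norm_neg, norm_mul, norm_mul, norm_I, Complex.norm_real, Real.norm_of_nonneg hy0.le,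
      Complex.norm_natCast]
    field_simp
  rw [h3, mul_pow] at h1
  rw [neg_neg, Real.norm_of_nonneg (Real.rpow_nonneg hy0.le _), Real.rpow_natCast]
  have hk : 0 < y ^ k := pow_pos hy0 k
  refine le_of_mul_le_mul_right (h1.trans (le_of_eq ?_)) hk
  ring

theorem mellin_diff (N k : ℕ) (hN : 0 < N) (h : ℂ → ℂ) (hc : Cu k h) :
    Differentiable ℂ (mellin (gE N h)) := by
  intro s
  obtain ⟨n, hn⟩ := exists_nat_gt |s.re|
  refine mellin_differentiableAt_of_isBigO_rpow (a := (n : ℝ)) (b := -(n : ℝ))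
    ((gE_cont N k h hc).locallyIntegrableOn measurableSet_Ioi)
    (gE_bigO N h _ _ (top N k h hc n)) ?_ (gE_bigO N h _ _ (bot N k hN h hc n)) ?_
  · linarith [le_abs_self s.re]
  · linarith [neg_abs_le s.re]

theorem coeff_summable (N k : ℕ) (b : ℕ → ℂ) (h1 : b =O[atTop] fun n : ℕ => (n : ℝ) ^ (k : ℝ))
    (σ : ℝ) (hσ : k + 1 < σ) :
    Summable fun n : ℕ => ‖b n * J(n | N)‖ / (2 * π * n) ^ σ := by
  have h2 : Summable fun n : ℕ => (n : ℝ) ^ ((k : ℝ) - σ) :=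
    Real.summable_nat_rpow.mpr (by linarith)
  refine summable_of_isBigO_nat h2 ?_
  obtain ⟨C, hC⟩ := h1.bound
  refine IsBigO.of_bound (C / (2 * π) ^ σ) ?_
  filter_upwards [hC, eventually_gt_atTop 0] with n hn hn0
  have hn1 : (0 : ℝ) < n := by exact_mod_cast hn0
  have hp : (0 : ℝ) < (2 * π) ^ σ := by positivity
  have hq : (0 : ℝ) < (n : ℝ) ^ σ := by positivity
  rw [Real.norm_of_nonneg (by positivity)] at hn
  rw [Real.norm_of_nonneg (by positivity), Real.norm_of_nonneg (by positivity),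
    Real.mul_rpow (by positivity) hn1.le, Real.rpow_sub hn1, div_mul_div_comm]
  refine div_le_div_of_nonneg_right ?_ (by positivity)
  rw [norm_mul]
  calc _ ≤ ‖b n‖ * 1 := mul_le_mul_of_nonneg_left (norm_J _ _) (norm_nonneg _)
    _ ≤ _ := by rw [mul_one]; exact hn

theorem xi_pt (N k c : ℕ) (hN : 0 < N) (y : ℝ) :
    xi k ((c : ℚ), (N : ℚ)) e1 ((c : ℂ) / N + y * I) = (-(N * I)) ^ (k - 1) * (y : ℂ) ^ (k - 1) := by
  rw [xi, Lf_pt N c hN, ← mul_pow]
  congr 1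
  simp only [Lf, e1]
  push_cast
  ring

theorem per_sum (hU : RowCU) (N k : ℕ) (hk : 1 ≤ k) (hN : 0 < N) (h : ℂ → ℂ) (hc : Cu k h) :
    ∑ m ∈ Finset.range N, (J(m | N) : ℂ) * Per k h (m, N) e1 e1 (m, N) =
      (-I * (-(N * I)) ^ (k - 1) * H3.GS N) * mellin (gE N h) k := by
  have hN1 : (N : ℚ) ≠ 0 := by exact_mod_cast hN.ne'
  have hG := GS_ne N hN
  have h1 : ∀ m : ℕ, Per k h (m, N) e1 e1 (m, N) = -I * ∫ t in Ioi (0 : ℝ),
      h (m / N + t * I) * xi k ((m : ℚ), (N : ℚ)) e1 ((m : ℂ) / N + t * I) := by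
    intro m
    have e : (((m : ℚ) / (N : ℚ) : ℚ) : ℂ) = (m : ℂ) / N := by push_cast; rfl
    simp only [Per, Pc]
    rw [if_neg hN1, if_pos (show e1.2 = 0 from rfl), sub_zero, e]
  have h2 : ∀ m : ℕ, IntegrableOn (fun t : ℝ =>
      h (m / N + t * I) * xi k ((m : ℚ), (N : ℚ)) e1 ((m : ℂ) / N + t * I)) (Ioi 0) := by
    intro m
    have := hU.int k h ((m : ℚ), (N : ℚ)) e1 (((m : ℚ) / (N : ℚ) : ℚ) : ℝ) _ hc rfl
    have e : (((((m : ℚ) / (N : ℚ) : ℚ) : ℝ)) : ℂ) = (m : ℂ) / N := by push_cast; rfl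
    rwa [e] at this
  have h3 : ∑ m ∈ Finset.range N, (J(m | N) : ℂ) * Per k h (m, N) e1 e1 (m, N) =
      ∫ t in Ioi (0 : ℝ), ∑ m ∈ Finset.range N, (-I * (J(m | N) : ℂ)) *
        (h (m / N + t * I) * xi k ((m : ℚ), (N : ℚ)) e1 ((m : ℂ) / N + t * I)) := by
    rw [integral_finsetSum _ fun m _ => (h2 m).const_mul _]
    refine Finset.sum_congr rfl fun m _ => ?_
    rw [h1, integral_const_mul]
    ring
  rw [h3, mellin, ← integral_const_mul]
  refine setIntegral_congr_fun measurableSet_Ioi fun t _ => ?_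
  have e : (t : ℂ) ^ ((k : ℂ) - 1) = (t : ℂ) ^ (k - 1) := by
    rw [← cpow_natCast]
    congr 1
    push_cast [Nat.cast_sub hk]
    ring
  simp only [smul_eq_mul, e, gE]
  rw [Finset.mul_sum, Finset.mul_sum, Finset.mul_sum]
  refine Finset.sum_congr rfl fun m _ => ?_
  rw [xi_pt N k m hN]
  field_simp

end MELCA

open MELCA in
theorem rowMELC : OfMELC := by
  intro hG hU k N h b hk hodd hsf hc hq hb
  have hN : 0 < N := hodd.pos
  have hp : ((2 * π : ℝ) : ℂ) ≠ 0 := by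
    have : (0 : ℝ) < 2 * π := by positivity
    exact_mod_cast this.ne'
  have h4 : ∀ s : ℂ, ((2 * π : ℝ) : ℂ) ^ s ≠ 0 := by
    intro s
    rw [Ne, cpow_eq_zero_iff]
    exact fun h => hp h.1
  refine ⟨fun s => ((2 * π : ℝ) : ℂ) ^ s * (Gamma s)⁻¹ * mellin (gE N h) s, ?_, ?_, ?_⟩
  · refine Differentiable.mul (Differentiable.mul ?_ differentiable_one_div_Gamma)
      (mellin_diff N k hN h hc)
    exact differentiable_id.const_cpow (Or.inl hp)
  · intro s hs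
    have hs0 : 0 < s.re := by
      have : (0 : ℝ) ≤ k := Nat.cast_nonneg k
      linarith
    have ha0 : b 0 = 0 := hq.1
    have h1 := hasSum_mellin (a := fun n : ℕ => b n * J(n | N)) (p := fun n : ℕ => 2 * π * n)
      (F := gE N h) (s := s) (fun n => by
        rcases Nat.eq_zero_or_pos n with rfl | h
        · left; simp [ha0]
        · right; have : (0 : ℝ) < n := by exact_mod_cast h
          positivity) hs0
      (fun t ht => gE_hasSum hG N h b hq hodd hsf t ht) (coeff_summable N k b hb _ hs)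
    have h2 := h1.mul_left (((2 * π : ℝ) : ℂ) ^ s * (Gamma s)⁻¹)
    unfold LSeriesHasSum
    refine HasSum.congr_fun h2 fun n => ?_
    rcases Nat.eq_zero_or_pos n with rfl | h
    · simp [ha0]
    · rw [LSeries.term_of_ne_zero h.ne']
      have hG0 : Gamma s ≠ 0 := Gamma_ne_zero_of_re_pos hs0
      have h3 : ((2 * π * n : ℝ) : ℂ) ^ s = ((2 * π : ℝ) : ℂ) ^ s * (n : ℂ) ^ s := by
        rw [ofReal_mul (2 * π), mul_cpow_ofReal_nonneg (by positivity) (Nat.cast_nonneg n)]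
        simp
      have h5 : (n : ℂ) ^ s ≠ 0 := by
        rw [Ne, cpow_eq_zero_iff]
        exact fun h' => h.ne' (by exact_mod_cast h'.1)
      have h6 := h4 s
      rw [h3]
      field_simp
  · have hG0 : Gamma (k : ℂ) ≠ 0 := Gamma_ne_zero_of_re_pos (by
      have : (0 : ℝ) < k := by exact_mod_cast hk
      simpa using this)
    have hN0 : (N : ℂ) ≠ 0 := by exact_mod_cast hN.ne'
    have c1 : ((2 * π : ℝ) : ℂ) ^ (k : ℂ) * (Gamma (k : ℂ))⁻¹ ≠ 0 :=
      mul_ne_zero (h4 _) (inv_ne_zero hG0)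
    have c2 : -I * (-(N * I)) ^ (k - 1) * H3.GS N ≠ 0 :=
      mul_ne_zero (mul_ne_zero (neg_ne_zero.2 I_ne_zero)
        (pow_ne_zero _ (neg_ne_zero.2 (mul_ne_zero hN0 I_ne_zero)))) (GS_ne N hN)
    rw [per_sum hU N k hk hN h hc]
    exact (mul_eq_zero_iff_left c1).trans (mul_eq_zero_iff_left c2).symm

end

end Pool.Agent.MP_5f72fe_nt.MS
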