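import Pool.Agent.MP_5f72fe_nt.MS.S1

/-! The action on the chart. -/

namespace Pool.Agent.MP_5f72fe_nt.MS

namespace MOBA

variable (H : RowBAS)
include H

theorem iadd {x y : ℚ} (hx : In x) (hy : In y) : In (x + y) := by
  obtain ⟨O, hO⟩ := H.ring
  exact (hO _).1 (O.add_mem ((hO _).2 hx) ((hO _).2 hy))

theorem imul {x y : ℚ} (hx : In x) (hy : In y) : In (x * y) := by
  obtain ⟨O, hO⟩ := H.ring
  exact (hO _).1 (O.mul_mem ((hO _).2 hx) ((hO _).2 hy))

theorem ineg {x : ℚ} (hx : In x) : In (-x) := by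
  obtain ⟨O, hO⟩ := H.ring
  exact (hO _).1 (O.neg_mem ((hO _).2 hx))

theorem iint (n : ℤ) : In n := by
  obtain ⟨O, hO⟩ := H.ring
  exact (hO _).1 (intCast_mem O n)

theorem i3 : In 3 := by simpa using iint H 3

theorem ipow (n : ℕ) : In (3 ^ n) := by simpa using iint H (3 ^ n)

theorem ishift {x b : ℚ} (n : ℕ) (hx : In x) (hb : In b) : In (x + 3 ^ n * b) :=
  iadd H hx (imul H (ipow H n) hb)

theorem ishift_iff {x b : ℚ} (n : ℕ) (hb : In b) : In (x + 3 ^ n * b) ↔ In x :=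
  ⟨fun h => by simpa using ishift H n h (ineg H hb), fun h => ishift H n h hb⟩

theorem une {x : ℚ} (hx : Un x) : x ≠ 0 := ((H.un' x).1 hx).1

theorem pres (g : Mt) (hg : G0 g) (u : ℚ) (hu : In u) : In (mu g u) ∧ In (my g u) ∧
    Un (g.2.2.1 * u + g.2.2.2) ∧ Un (g.1 + 3 * g.2.1 * u) := by
  obtain ⟨p, q, r, s⟩ := g
  obtain ⟨h1, h2, h3⟩ := hg
  have h0 : In ((r : ℚ) / 3) := (H.int r).1.2 h1
  have a1 : Un ((r : ℚ) * u + s) := by
    have := H.unAdd s (r / 3 * u) ((H.int s).2.2 h3) (imul H h0 hu)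
    rwa [show (s : ℚ) + 3 * (r / 3 * u) = r * u + s by ring] at this
  have a2 : Un ((p : ℚ) + 3 * q * u) := by
    rw [mul_assoc]
    exact H.unAdd _ _ ((H.int p).2.2 h2) (imul H (iint H q) hu)
  exact ⟨H.div _ _ (iadd H (imul H (iint H p) hu) (iint H q)) a1,
    H.div _ _ (iadd H h0 (imul H (iint H s) hu)) a2, a1, a2⟩

omit H in
theorem g0mul (g h : Mt) (hg : G0 g) (hh : G0 h) : G0 (mul g h) := by
  obtain ⟨a1, a2, a3⟩ := hg
  obtain ⟨b1, b2, b3⟩ := hh
  refine ⟨dvd_add (a1.mul_right _) (b1.mul_left _), fun e => ?_, fun e => ?_⟩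
  · exact (Int.prime_three.dvd_or_dvd ((dvd_add_left (b1.mul_left _)).1 e)).elim a2 b2
  · exact (Int.prime_three.dvd_or_dvd ((dvd_add_right (a1.mul_right _)).1 e)).elim a3 b3

theorem comp (g h : Mt) (hg : G0 g) (hh : G0 h) (u : ℚ) (hu : In u) :
    mu (mul g h) u = mu g (mu h u) ∧ my (mul g h) u = my g (my h u) := by
  obtain ⟨a1, a2, a3, a4⟩ := pres H h hh u hu
  have b1 := une H (pres H g hg _ a1).2.2.1
  have b2 := une H (pres H g hg _ a2).2.2.2
  have c1 := une H (pres H _ (g0mul g h hg hh) u hu).2.2.1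
  have c2 := une H (pres H _ (g0mul g h hg hh) u hu).2.2.2
  have d1 : mu h u * (h.2.2.1 * u + h.2.2.2) = h.1 * u + h.2.1 := div_mul_cancel₀ _ (une H a3)
  have d2 : my h u * (h.1 + 3 * h.2.1 * u) = h.2.2.1 / 3 + h.2.2.2 * u :=
    div_mul_cancel₀ _ (une H a4)
  constructor
  · rw [mu, mu.eq_1 g, div_eq_div_iff c1 b1]
    simp only [mul]
    push_cast
    linear_combination (-((g.1 : ℚ) * g.2.2.2 - g.2.1 * g.2.2.1)) * d1
  · rw [my, my.eq_1 g, div_eq_div_iff c2 b2]
    simp only [mul]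
    push_cast
    linear_combination (-((g.1 : ℚ) * g.2.2.2 - g.2.1 * g.2.2.1)) * d2

theorem vec (g : Mt) (hg : G0 g) (u : ℚ) (hu : In u) :
    ap g (u, 1) = (g.2.2.1 * u + g.2.2.2) • (mu g u, 1) ∧
      ap g (1, 3 * u) = (g.1 + 3 * g.2.1 * u) • (1, 3 * my g u) := by
  obtain ⟨-, -, a3, a4⟩ := pres H g hg u hu
  have d1 : mu g u * (g.2.2.1 * u + g.2.2.2) = g.1 * u + g.2.1 := div_mul_cancel₀ _ (une H a3)
  have d2 : my g u * (g.1 + 3 * g.2.1 * u) = g.2.2.1 / 3 + g.2.2.2 * u :=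
    div_mul_cancel₀ _ (une H a4)
  refine ⟨Prod.ext ?_ ?_, Prod.ext ?_ ?_⟩ <;> simp only [ap, Prod.smul_mk, smul_eq_mul]
  · linear_combination -d1
  · ring
  · ring
  · linear_combination -3 * d2

theorem lip (g : Mt) (hg : G0 g) (u b : ℚ) (n : ℕ) (hu : In u) (hb : In b) : (∃ b', In b' ∧
    mu g (u + 3 ^ n * b) = mu g u + 3 ^ n * b') ∧ ∃ b', In b' ∧
    my g (u + 3 ^ n * b) = my g u + 3 ^ n * b' := by
  obtain ⟨-, -, a3, a4⟩ := pres H g hg u hu
  obtain ⟨-, -, b3, b4⟩ := pres H g hg _ (ishift H n hu hb)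
  have hd : In ((det g : ℤ) * b) := imul H (iint H _) hb
  refine ⟨⟨_, H.div _ _ hd (H.unMul _ _ a3 b3).1, ?_⟩, _, H.div _ _ hd (H.unMul _ _ a4 b4).1, ?_⟩
  · have c1 := une H a3
    have c2 := une H b3
    simp only [mu, det]
    push_cast
    generalize (3 : ℚ) ^ n = t at *
    rw [← mul_div_assoc, div_add_div _ _ c1 (mul_ne_zero c1 c2),
      div_eq_div_iff c2 (mul_ne_zero c1 (mul_ne_zero c1 c2))]
    ring
  · have c1 := une H a4
    have c2 := une H b4
    simp only [my, det]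
    push_cast
    generalize (3 : ℚ) ^ n = t at *
    rw [← mul_div_assoc, div_add_div _ _ c1 (mul_ne_zero c1 c2),
      div_eq_div_iff c2 (mul_ne_zero c1 (mul_ne_zero c1 c2))]
    ring

/-- locally constant with a given modulus -/
def LM {A : Type} (n : ℕ) (a : Ch A) : Prop :=
  ∀ u y b c, In u → In y → In b → In c → a (u + 3 ^ n * b) (y + 3 ^ n * c) = a u y

theorem lm_mono {A : Type} {a : Ch A} {n m : ℕ} (h : LM n a) (hm : n ≤ m) : LM m a := by
  obtain ⟨k, rfl⟩ := Nat.exists_eq_add_of_le hm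
  intro u y b c hu hy hb hc
  rw [pow_add, mul_assoc, mul_assoc]
  exact h u y _ _ hu hy (imul H (ipow H k) hb) (imul H (ipow H k) hc)

theorem grp (A : Type) [AddCommGroup A] : ∃ M : AddSubgroup (Ch A), ∀ a, a ∈ M ↔ LC2 a := by
  refine ⟨{ carrier := {a | LC2 a}, add_mem' := ?_, zero_mem' := ⟨0, fun _ _ _ _ _ _ _ _ => rfl⟩
            neg_mem' := ?_ }, fun _ => Iff.rfl⟩
  · rintro a b ⟨n, hn⟩ ⟨m, hm⟩
    refine ⟨n + m, fun u y c d hu hy hc hd => ?_⟩
    simp only [Pi.add_apply]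
    rw [lm_mono H hn (Nat.le_add_right n m) u y c d hu hy hc hd,
      lm_mono H hm (Nat.le_add_left m n) u y c d hu hy hc hd]
  · rintro a ⟨n, hn⟩
    refine ⟨n, fun u y c d hu hy hc hd => ?_⟩
    simp only [Pi.neg_apply]
    rw [hn u y c d hu hy hc hd]

theorem lc_act {A : Type} {a : Ch A} (ha : LC2 a) (g : Mt) (hg : G0 g) : LC2 (act g a) := by
  obtain ⟨n, hn⟩ := ha
  refine ⟨n, fun u y b c hu hy hb hc => ?_⟩
  obtain ⟨b', h1, e1⟩ := (lip H g hg u b n hu hb).1
  obtain ⟨c', h2, e2⟩ := (lip H g hg y c n hy hc).2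
  simp only [act]
  rw [e1, e2]
  exact hn _ _ _ _ (pres H g hg u hu).1 (pres H g hg y hy).2.1 h1 h2

omit H in
theorem gL : G0 mL := by unfold G0; decide

omit H in
theorem gL' : G0 (adj mL) := by unfold G0; decide

omit H in
theorem eL (y : ℚ) : 3 * y / (1 + 3 * y) = 3 * mu mL y := by
  simp only [mu, mL]
  push_cast
  rw [one_mul, add_zero, add_comm, mul_div_assoc]

omit H in
theorem eL' (y : ℚ) : 3 * y / (1 - 3 * y) = 3 * mu (adj mL) y := by
  simp only [mu, mL, adj]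
  push_cast
  rw [one_mul, neg_zero, add_zero, mul_div_assoc, show -3 * y + 1 = 1 - 3 * y by ring]

theorem third {u : ℚ} (hu : In u) (h1 : ¬ In (u / 3)) (h2 : ¬ In ((u - 1) / 3)) :
    In ((u + 1) / 3) := ((H.tri u hu).resolve_left h1).resolve_left h2

theorem lc_tch {A : Type} [AddCommGroup A] {a : Ch A} (ha : LC2 a) : LC2 (tch a) := by
  obtain ⟨M, hM⟩ := grp H A
  obtain ⟨n2, h2⟩ := (hM _).1 (M.sub_mem ((hM _).2 ha) ((hM _).2 (lc_act H ha _ gL)))
  obtain ⟨n3, h3⟩ := (hM _).1 (M.sub_mem ((hM _).2 ha) ((hM _).2 (lc_act H ha _ gL')))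
  obtain ⟨n1, h1⟩ := ha
  have k1 := lm_mono H h1 (show n1 ≤ n1 + n2 + n3 by omega)
  have k2 := lm_mono H h2 (show n2 ≤ n1 + n2 + n3 by omega)
  have k3 := lm_mono H h3 (show n3 ≤ n1 + n2 + n3 by omega)
  generalize n1 + n2 + n3 = n at k1 k2 k3
  refine ⟨n + 1, fun u y b c hu hy hb hc => ?_⟩
  have e1 : (u + 3 ^ (n + 1) * b) / 3 = u / 3 + 3 ^ n * b := by ring
  have e2 : (u + 3 ^ (n + 1) * b - 1) / 3 = (u - 1) / 3 + 3 ^ n * b := by ring
  have e3 : (u + 3 ^ (n + 1) * b + 1) / 3 = (u + 1) / 3 + 3 ^ n * b := by ring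
  have e4 : ∀ x d : ℚ, 3 * (x + 3 ^ (n + 1) * d) = 3 * x + 3 ^ n * (3 * (3 * d)) := fun x d => by
    ring
  have i9 : ∀ d, In d → In (3 * (3 * d)) := fun d hd => imul H (i3 H) (imul H (i3 H) hd)
  obtain ⟨c1, j1, f1⟩ := (lip H _ gL y c (n + 1) hy hc).1
  obtain ⟨c2, j2, f2⟩ := (lip H _ gL' y c (n + 1) hy hc).1
  simp only [tch, eL, eL', e1, e2, e3, f1, f2, ishift_iff H n hb]
  simp only [e4]
  split_ifs with t1 t2
  · exact k1 _ _ _ _ t1 (imul H (i3 H) hy) hb (i9 _ hc)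
  · exact k2 _ _ _ _ t2 (imul H (i3 H) (pres H _ gL' y hy).1) hb (i9 _ j2)
  · exact k3 _ _ _ _ (third H hu t1 t2) (imul H (i3 H) (pres H _ gL y hy).1) hb (i9 _ j1)

theorem congr_act {A : Type} {a b : Ch A} (h : EqO a b) (g : Mt) (hg : G0 g) :
    EqO (act g a) (act g b) := fun u y hu hy =>
  h _ _ (pres H g hg u hu).1 (pres H g hg y hy).2.1

omit H in
theorem app_cons {A : Type} [AddCommGroup A] (x : ℤ × Mt) (o : Op) (a : Ch A) :
    app (x :: o) a = x.1 • act x.2 a + app o a := by simp [app]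

theorem act_mul {A : Type} (a : Ch A) (g h : Mt) (hg : G0 g) (hh : G0 h) {u y : ℚ} (hu : In u)
    (hy : In y) : act g a (mu h u) (my h y) = act (mul g h) a u y := by
  simp only [act]
  rw [(comp H g h hg hh u hu).1, (comp H g h hg hh y hy).2]

end MOBA

open MOBA in
theorem rowMOB : OfMOB := fun H =>
  { pres := pres H
    comp := fun g h hg hh => ⟨g0mul g h hg hh, comp H g h hg hh⟩
    vec := vec H
    lip := lip H
    lc := fun A _ a ha => by
      refine ⟨lc_act H ha, fun o ho => ?_, ?_, lc_tch H ha⟩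
      · obtain ⟨M, hM⟩ := grp H A
        refine (hM _).1 (M.list_sum_mem fun z hz => ?_)
        obtain ⟨x, hx, rfl⟩ := List.mem_map.1 hz
        exact M.zsmul_mem ((hM _).2 (lc_act H ha _ (ho x hx))) _
      · obtain ⟨n, hn⟩ := ha
        exact ⟨n, fun u y b c hu hy hb hc => hn y u c b hy hu hc hb⟩
    grp := grp H
    congr := fun A _ a b h => by
      refine ⟨congr_act H h, fun o => ?_, fun u y hu hy => ?_⟩
      · induction o with
        | nil => exact fun _ _ _ _ _ => rfl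
        | cons x o ih =>
          intro ho u y hu hy
          simp only [app_cons, Pi.add_apply, Pi.smul_apply]
          rw [congr_act H h _ (ho x List.mem_cons_self) u y hu hy,
            ih (fun z hz => ho z (List.mem_cons_of_mem _ hz)) u y hu hy]
      · have j1 := imul H (i3 H) (pres H _ gL y hy).1
        have j2 := imul H (i3 H) (pres H _ gL' y hy).1
        simp only [tch, eL, eL', Pi.sub_apply]
        split_ifs with t1 t2
        · exact h _ _ t1 (imul H (i3 H) hy)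
        · rw [h _ _ t2 j2, congr_act H h _ gL _ _ t2 j2]
        · rw [h _ _ (third H hu t1 t2) j1, congr_act H h _ gL' _ _ (third H hu t1 t2) j1]
    rhoR := fun A _ a u y hu hy => by
      have gR : G0 mR := by unfold G0; decide
      have k : ∀ g g' : Mt, G0 g → mul g mR = g' → act g a (mu mR u) (my mR y) = act g' a u y :=
        fun g g' hg e => e ▸ act_mul H a g mR hg gR hu hy
      change app rho a (mu mR u) (my mR y) = _
      simp only [rho, app_cons, Pi.add_apply, Pi.smul_apply]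
      rw [k mI mR (by unfold G0; decide) (by decide),
        k (1, -1, 0, 1) (-2, 1, 3, -2) (by unfold G0; decide) (by decide),
        k (-2, 1, -3, 1) mI (by unfold G0; decide) (by decide),
        k (1, 0, -3, 1) (1, -1, 0, 1) (by unfold G0; decide) (by decide),
        k mR (-2, 1, -3, 1) gR (by decide),
        k (-2, 1, 3, -2) (1, 0, -3, 1) (by unfold G0; decide) (by decide)]
      simp only [app, List.map_nil, List.sum_nil, Pi.zero_apply]
      abel }

end Pool.Agent.MP_5f72fe_nt.MS
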