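import Pool.Agent.MP_5f72fe_nt.MS.S1

/-! Newton coefficients in two variables. -/

namespace Pool.Agent.MP_5f72fe_nt.MS

open Finset

namespace N2A

/-- the weights of the iterated differences -/
def w (i k : ℕ) : F3 := (((-1) ^ (i - k) * i.choose k : ℤ) : F3)

theorem co1_eq (b : ℚ → F3) (i : ℕ) : co1 b i = ∑ k ∈ range (i + 1), w i k * b k := by
  rw [co1, fwdDiff_iter_eq_sum_shift]
  refine sum_congr rfl fun k _ => ?_
  rw [zsmul_eq_mul, zero_add, nsmul_one, w]

theorem co_eq (a : Ch F3) (i j : ℕ) :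
    co a i j = ∑ k ∈ range (i + 1), ∑ l ∈ range (j + 1), w i k * w j l * a k l := by
  simp only [co, co1_eq, mul_sum, mul_assoc]

theorem co1_sum {ι : Type} (s : Finset ι) (f : ι → F3) (g : ι → ℚ → F3) (j : ℕ) :
    co1 (fun y => ∑ k ∈ s, f k * g k y) j = ∑ k ∈ s, f k * co1 (g k) j := by
  simp only [co1_eq, mul_sum]
  rw [sum_comm]
  exact sum_congr rfl fun k _ => sum_congr rfl fun l _ => by ring

theorem in_nat (k : ℕ) : In (k : ℚ) := by simp [In]

theorem in_zero : In 0 := by simp [In]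

theorem col_per {a : Ch F3} {n : ℕ}
    (h : ∀ u y b c, In u → In y → In b → In c → a (u + 3 ^ n * b) (y + 3 ^ n * c) = a u y)
    (j : ℕ) (u x : ℚ) (hu : In u) (hx : In x) : co1 (a (u + 3 ^ n * x)) j = co1 (a u) j := by
  simp only [co1_eq]
  refine sum_congr rfl fun k _ => ?_
  have := h u k x 0 hu (in_nat k) hx in_zero
  rw [mul_zero, add_zero] at this
  rw [this]

theorem row_per {a : Ch F3} {n : ℕ}
    (h : ∀ u y b c, In u → In y → In b → In c → a (u + 3 ^ n * b) (y + 3 ^ n * c) = a u y)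
    (u : ℚ) (hu : In u) (y x : ℚ) (hy : In y) (hx : In x) : a u (y + 3 ^ n * x) = a u y := by
  have := h u y 0 x hu hy in_zero hx
  rwa [mul_zero, add_zero] at this

end N2A

open N2A in
theorem rowN2 : OfN2 := by
  intro _ hB
  refine ⟨⟨⟨⟨co, fun a b => ?_⟩, fun c a => ?_⟩, fun _ => rfl⟩, fun a b h => ?_, fun a i j => ?_,
    fun a ⟨n, h⟩ j => ⟨⟨n, col_per h j⟩, fun u hu => ⟨n, row_per h u hu⟩⟩,
    fun a ⟨n, h⟩ => ⟨3 ^ n, fun i j hi _ _ => hB.fin _ n (col_per h j) i hi, fun i j _ hj _ => ?_⟩,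
    fun a ⟨n, h⟩ h0 u y hu hy => ?_, fun c n h1 h2 => ?_⟩
  · funext i j
    simp only [co_eq, Pi.add_apply, mul_add, sum_add_distrib]
  · funext i j
    simp only [co_eq, Pi.smul_apply, smul_eq_mul, RingHom.id_apply, mul_sum]
    exact sum_congr rfl fun k _ => sum_congr rfl fun l _ => by ring
  · funext i j
    simp only [co_eq]
    exact sum_congr rfl fun k _ => sum_congr rfl fun l _ => by rw [h _ _ (in_nat k) (in_nat l)]
  · simp only [co_eq, sw]
    rw [sum_comm]
    exact sum_congr rfl fun k _ => sum_congr rfl fun l _ => by ring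
  · rw [co, co1_eq]
    refine sum_eq_zero fun k _ => ?_
    rw [hB.fin _ n (row_per h k (in_nat k)) j hj, mul_zero]
  · have h1 : ∀ j, co1 (a u) j = 0 := fun j =>
      (hB.iff (fun u => co1 (a u) j) 0 ⟨n, col_per h j⟩).1
        (fun i _ => congrFun (congrFun h0 i) j) u hu
    exact (hB.iff (a u) 0 ⟨n, row_per h u hu⟩).1 (fun j _ => h1 j) y hy
  · refine ⟨fun u y => ∑ j ∈ range n, (∑ i ∈ range n, c i j * bn i u) * bn j y,
      ⟨n, fun u y b b' hu hy hb hb' => ?_⟩, ?_⟩
    · have hn : ∀ k ∈ range n, k < 3 ^ n := fun k hk =>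
        (mem_range.1 hk).trans (Nat.lt_pow_self (by norm_num))
      refine sum_congr rfl fun j hj => ?_
      rw [hB.per j n y b' (hn j hj) hy hb']
      congr 1
      exact sum_congr rfl fun i hi => by rw [hB.per i n u b (hn i hi) hu hb]
    · funext i j
      simp only [co, co1_sum, hB.basis, mul_ite, mul_one, mul_zero, sum_ite_eq, mem_range]
      by_cases hj : j < n
      · simp only [hj, if_true, co1_sum, hB.basis, mul_ite, mul_one, mul_zero, sum_ite_eq, mem_range]
        split_ifs with hi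
        · rfl
        · exact (h1 i j (not_lt.1 hi) (Nat.zero_le _) (Nat.zero_le _)).symm
      · simp only [hj, if_false, co1_eq, mul_zero, sum_const_zero]
        exact (h2 i j (Nat.zero_le _) (not_lt.1 hj) (Nat.zero_le _)).symm

end Pool.Agent.MP_5f72fe_nt.MS
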