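import Pool.Agent.MP_5f72fe_nt.MS.S1

/-! The middle coefficients of `z - τ • tt z` vanish in the top degree. -/

namespace Pool.Agent.MP_5f72fe_nt.MS

namespace NECA

theorem cf_sub (hN : RowN2) (φ ψ : Sb F3) (τ : ℤ) (i j : ℕ) :
    cf (φ - τ • ψ) i j = cf φ i j - τ • cf ψ i j := by
  obtain ⟨C, hC⟩ := hN.lin
  have h : ch (φ - τ • ψ) = ch φ - τ • ch ψ := rfl
  unfold cf
  rw [h, ← hC, ← hC, ← hC, map_sub, map_zsmul]
  rfl

theorem cf_sg (hC : RowCH) (hN : RowN2) (φ : Sb F3) (h : SL φ) (i j : ℕ) :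
    cf (sg φ) i j = cf φ j i := by
  unfold cf
  rw [hN.congr _ _ (hC.ops F3 φ h.1).2.2.2, hN.swap]

theorem sl_iter (hO : RowOPS) (φ : Sb F3) (h : SL φ) (m : ℕ) : SL (tt^[m] φ) := by
  induction m with
  | zero => exact h
  | succ m ih =>
    rw [Function.iterate_succ_apply']
    exact (hO.slOp F3 _ ih).1

theorem iter_sub (φ ψ : Sb F3) (τ : ℤ) (m : ℕ) :
    tt^[m] (φ - τ • ψ) = tt^[m] φ - τ • tt^[m] ψ := by
  induction m with
  | zero => rfl
  | succ m ih =>
    rw [Function.iterate_succ_apply', Function.iterate_succ_apply', Function.iterate_succ_apply',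
      ih]
    rfl

theorem up_iter (hO : RowOPS) (hC : RowCH) (hN : RowN2) (hT : RowTS) (φ : Sb F3) (h : SL φ)
    (m i b : ℕ) (hu : Up i (3 ^ m * b) 0 (cf φ)) : Up (3 ^ m * i) b 0 (cf (tt^[m] φ)) := by
  induction m generalizing b with
  | zero => simpa using hu
  | succ m ih =>
    have hs := sl_iter hO φ h m
    have h1 : Up (3 ^ m * i) (3 * b) 0 (cf (tt^[m] φ)) := by
      apply ih
      have e : 3 ^ m * (3 * b) = 3 ^ (m + 1) * b := by ring
      rw [e]
      exact hu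
    have h2 := hT.van _ _ _ (hC.lc F3 _ hs) h1
    have e : 3 ^ (m + 1) * i = 3 * (3 ^ m * i) := by ring
    rw [Function.iterate_succ_apply', e]
    unfold cf
    rw [hN.congr _ _ (hC.ops F3 _ hs.1).2.1]
    exact h2

theorem sl_sub (hO : RowOPS) (φ ψ : Sb F3) (τ : ℤ) (h : SL φ) (h' : SL ψ) : SL (φ - τ • ψ) := by
  obtain ⟨M, hM⟩ := hO.sl F3
  exact (hM _).1 (M.sub_mem ((hM _).2 h) (M.zsmul_mem ((hM _).2 h') τ))

theorem first (hO : RowOPS) (hC : RowCH) (hN : RowN2) (hT : RowTS) (τ : ℤ) (z : Sb F3) (d : ℕ)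
    (hz : SL z) (hu : Up 0 0 (d + 1) (cf (z - τ • tt z))) (i j : ℕ) (hij : i + j = d)
    (hj : (d + 1) / 4 < j) : cf (tt z) i j = 0 := by
  have hφ : SL (z - τ • tt z) := sl_sub hO _ _ τ hz (hO.slOp F3 _ hz).1
  have h0 : ∀ m, cf (tt^[m + 1] (z - τ • tt z)) i j = 0 := by
    intro m
    have hle : d + 1 ≤ i / 3 ^ (m + 1) + 3 ^ (m + 1) * j := by
      rcases Nat.eq_zero_or_pos m with rfl | hm
      · simp only [zero_add, pow_one]
        omega
      · have h9 : 3 ^ 2 ≤ 3 ^ (m + 1) := Nat.pow_le_pow_right (by norm_num) (by omega)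
        have h10 : 3 ^ 2 * j ≤ 3 ^ (m + 1) * j := Nat.mul_le_mul_right j h9
        have h11 : d + 1 ≤ 3 ^ (m + 1) * j := by omega
        exact h11.trans (Nat.le_add_left _ _)
    have h1 : Up (i / 3 ^ (m + 1)) (3 ^ (m + 1) * j) 0 (cf (z - τ • tt z)) := by
      intro i' j' hi' hj' _
      exact hu i' j' (Nat.zero_le _) (Nat.zero_le _) (hle.trans (Nat.add_le_add hi' hj'))
    exact up_iter hO hC hN hT _ hφ (m + 1) _ _ h1 i j (Nat.mul_div_le _ _) le_rfl (Nat.zero_le _)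
  have hstep : ∀ m, cf (tt^[m + 1] z) i j = τ • cf (tt^[m + 1 + 1] z) i j := by
    intro m
    have h1 := h0 m
    rw [iter_sub, cf_sub hN, ← Function.iterate_succ_apply tt (m + 1) z] at h1
    exact sub_eq_zero.1 h1
  have hind : ∀ m, cf (tt^[m + 1] z) i j = 0 → cf (tt z) i j = 0 := by
    intro m
    induction m with
    | zero => exact fun h => h
    | succ m ih =>
      intro h
      apply ih
      rw [hstep m, h, smul_zero]
  obtain ⟨n, -, hn⟩ := hN.fin _ (hC.lc F3 z hz)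
  apply hind n
  have h1 : Up 0 (3 ^ (n + 1) * 1) 0 (cf z) := by
    intro i' j' hi' hj' hh
    refine hn i' j' hi' (le_trans ?_ hj') hh
    have : n + 1 < 3 ^ (n + 1) := Nat.lt_pow_self (by norm_num)
    omega
  exact up_iter hO hC hN hT z hz (n + 1) 0 1 h1 i j (by simp) (by omega) (Nat.zero_le _)

end NECA

open NECA in
theorem rowNEC : OfNEC := by
  intro hO hC hN hT τ z d hτ hz hu i j hij hi hj
  have htz : SL (tt z) := (hO.slOp F3 _ hz).1
  have hz1 : SL (sg (tt z)) := (hO.slOp F3 _ htz).2.2.1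
  have hsz : SL (sg z) := (hO.slOp F3 _ hz).2.2.1
  have he : tt (sg (tt z)) = sg z := (hO.alg F3 z hz.1).2.2.1
  have hu1 : Up 0 0 (d + 1) (cf (sg (tt z) - τ • tt (sg (tt z)))) := by
    intro i' j' _ _ hh
    have h1 := hu j' i' (Nat.zero_le _) (Nat.zero_le _) (by omega)
    rw [cf_sub hN] at h1
    rw [he, cf_sub hN, cf_sg hC hN _ htz, cf_sg hC hN _ hz, sub_eq_zero.1 h1, smul_smul]
    rcases hτ with rfl | rfl <;> simp
  have h1 := first hO hC hN hT τ z d hz hu i j hij hj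
  have h2 := first hO hC hN hT τ _ d hz1 hu1 j i (by omega) hi
  rw [he, cf_sg hC hN _ hz] at h2
  rw [cf_sub hN, h1, h2, smul_zero, sub_zero]

end Pool.Agent.MP_5f72fe_nt.MS
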