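import Pool.Agent.MP_5f72fe_nt.MS.S1

/-! Modular symbols at `3`: certificates for lowering the degree. -/

namespace Pool.Agent.MP_5f72fe_nt.MS

namespace NFA

open Finset

/-- the action as a linear map -/
def A (g : Mt) : Module.End F3 (Ch F3) where
  toFun := act g
  map_add' _ _ := rfl
  map_smul' _ _ := rfl

theorem drop_pow {V : Type} [AddCommGroup V] [Module F3 V] (F : ℕ → Submodule F3 V)
    (X : Module.End F3 V) (e : ℕ) (h : ∀ n a, a ∈ F (n + e) → X a ∈ F n) (k : ℕ) :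
    ∀ n a, a ∈ F (n + e * k) → (X ^ k) a ∈ F n := by
  induction k with
  | zero => intro n a ha; simpa using ha
  | succ k ih =>
    intro n a ha
    rw [pow_succ, Module.End.mul_apply]
    exact ih n _ (h _ a (by rwa [mul_add, mul_one, ← add_assoc] at ha))

theorem binom {V : Type} [AddCommGroup V] [Module F3 V] (X : Module.End F3 V) {m M : ℕ}
    (h : m < M) (a : V) :
    (X ^ m) a = ∑ i ∈ range M, (m.choose i : F3) • ((X - 1) ^ i) a := by
  have e : X ^ m = ∑ i ∈ range M, (m.choose i : F3) • (X - 1) ^ i := by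
    conv_lhs => rw [← sub_add_cancel X 1, (Commute.one_right (X - 1)).add_pow]
    rw [← sum_subset (range_subset_range.2 (Nat.succ_le_of_lt h)) fun i _ hi => by
      rw [Nat.choose_eq_zero_of_lt (by simpa using hi), Nat.cast_zero, zero_smul]]
    refine sum_congr rfl fun i _ => ?_
    rw [one_pow, mul_one, Nat.cast_smul_eq_nsmul, nsmul_eq_mul, Nat.cast_comm]
  rw [e, LinearMap.sum_apply]
  rfl

theorem list_swap {V ι κ : Type} [AddCommGroup V] [Module F3 V] (s : Finset κ) (v : κ → V)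
    (c : ι → κ → F3) (o : List ι) :
    (o.map fun x => ∑ t ∈ s, c x t • v t).sum = ∑ t ∈ s, (o.map fun x => c x t).sum • v t := by
  induction o with
  | nil => simp
  | cons x o ih => simp only [List.map_cons, List.sum_cons, ih, add_smul, sum_add_distrib]

theorem g0_pw (hM : RowMOB) {g : Mt} (hg : G0 g) (n : ℕ) : G0 (pw g n) := by
  induction n with
  | zero => simp [pw, G0, mI]
  | succ n ih => exact (hM.comp _ _ ih hg).1

theorem act_mul (hM : RowMOB) {g h : Mt} (hg : G0 g) (hh : G0 h) (a : Ch F3) :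
    EqO (act (mul g h) a) (act h (act g a)) := fun u y hu hy => by
  simp only [act, ((hM.comp g h hg hh).2 u hu).1, ((hM.comp g h hg hh).2 y hy).2]

theorem eqo_trans {a b c : Ch F3} (h : EqO a b) (h' : EqO b c) : EqO a c :=
  fun u y hu hy => (h u y hu hy).trans (h' u y hu hy)

theorem act_pw (hM : RowMOB) {g : Mt} (hg : G0 g) (n : ℕ) {a b : Ch F3} (h : EqO a b) :
    EqO (act (pw g n) a) ((A g ^ n) b) := by
  induction n with
  | zero => intro u y hu hy; simpa [pw, act, mI, mu, my] using h u y hu hy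
  | succ n ih =>
    rw [pow_succ', Module.End.mul_apply]
    exact eqo_trans (act_mul hM (g0_pw hM hg n) hg a) ((hM.congr F3 _ _ ih).1 g hg)

theorem det_mul (g h : Mt) : det (mul g h) = det g * det h := by
  simp only [det, mul]; ring

theorem det_pw {g : Mt} (hg : det g = 1) (n : ℕ) : det (pw g n) = 1 := by
  induction n with
  | zero => rfl
  | succ n ih => rw [pw, det_mul, ih, hg, one_mul]

theorem mul_adj (g : Mt) {W : Mt} (h : det W = 1) : mul (mul g (adj W)) W = g := by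
  obtain ⟨p, q, r, s⟩ := g
  simp only [det] at h
  simp only [mul, adj, Prod.mk.injEq]
  exact ⟨by linear_combination p * h, by linear_combination q * h, by linear_combination r * h,
    by linear_combination s * h⟩

theorem gT : G0 mT := by simp [G0, mT]
theorem gL : G0 mL := by simp [G0, mL]
theorem gH : G0 mH := by simp [G0, mH]

theorem act_eq (hM : RowMOB) (g : Mt) (d : ℕ × ℕ × ℕ) (h : Deep (mul g (adj (Wd d))))
    (a : Ch F3) : EqO (act g a)
      ((A mH ^ d.2.2) ((A mL ^ d.2.1) ((A mT ^ d.1) (act (mul g (adj (Wd d))) a)))) := by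
  have hd : det (Wd d) = 1 := by
    rw [Wd, det_mul, det_mul, det_pw rfl, det_pw rfl, det_pw rfl]; rfl
  have h0 : G0 (mul g (adj (Wd d))) := by
    obtain ⟨-, h2, h3, h4⟩ := h
    exact ⟨by omega, h4, by omega⟩
  have h1 := g0_pw hM gT d.1
  have h2 := g0_pw hM gL d.2.1
  have h3 := g0_pw hM gH d.2.2
  have h12 := (hM.comp _ _ h1 h2).1
  conv_lhs => rw [← mul_adj g hd]
  refine eqo_trans (act_mul hM h0 (hM.comp _ _ h12 h3).1 a) ?_
  refine eqo_trans (act_mul hM h12 h3 _) (act_pw hM gH _ ?_)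
  exact eqo_trans (act_mul hM h1 h2 _) (act_pw hM gL _ (act_pw hM gT _ fun _ _ _ _ => rfl))

theorem filt (hM : RowMOB) (hN : RowN2) (i j : ℕ) : ∃ F : ℕ → Submodule F3 (Ch F3),
    ∀ n a, a ∈ F n ↔ LC2 a ∧ Up i j n (co a) := by
  obtain ⟨M, hm⟩ := hM.grp F3
  obtain ⟨C, hC⟩ := hN.lin
  refine ⟨fun n => ⟨⟨⟨{a | LC2 a ∧ Up i j n (co a)}, ?_⟩, ?_⟩, ?_⟩, fun _ _ => Iff.rfl⟩
  · rintro a b ⟨h1, h2⟩ ⟨h3, h4⟩
    refine ⟨(hm _).1 (M.add_mem ((hm _).2 h1) ((hm _).2 h3)), fun i' j' e1 e2 e3 => ?_⟩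
    rw [← hC, map_add, hC, hC, Pi.add_apply, Pi.add_apply, h2 i' j' e1 e2 e3, h4 i' j' e1 e2 e3,
      add_zero]
  · refine ⟨(hm _).1 M.zero_mem, fun i' j' _ _ _ => ?_⟩
    rw [← hC, map_zero]
    rfl
  · rintro c a ⟨⟨m, h1⟩, h2⟩
    refine ⟨⟨m, fun u y b e hu hy hb he => ?_⟩, fun i' j' e1 e2 e3 => ?_⟩
    · simp only [Pi.smul_apply, h1 u y b e hu hy hb he]
    · rw [← hC, map_smul, hC, Pi.smul_apply, Pi.smul_apply, h2 i' j' e1 e2 e3, smul_zero]

theorem list_eqo {ι : Type} (o : List ι) (f g : ι → Ch F3) (h : ∀ x ∈ o, EqO (f x) (g x)) :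
    EqO (o.map f).sum (o.map g).sum := by
  induction o with
  | nil => exact fun _ _ _ _ => rfl
  | cons x o ih =>
    intro u y hu hy
    simp only [List.map_cons, List.sum_cons, Pi.add_apply]
    rw [h x List.mem_cons_self u y hu hy, ih (fun z hz => h z (List.mem_cons_of_mem _ hz)) u y hu hy]

end NFA

open _root_.Pool.Agent.MP_5f72fe_nt.MS.NFA Finset in
theorem rowNF : OfNF := by
  rintro hM hN hA w o hw ⟨d, hd, hc⟩ a i j n la ua
  obtain ⟨F, hF⟩ := filt hM hN i j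
  obtain ⟨G, hG⟩ := hM.grp F3
  have mono : ∀ {m m' : ℕ} {b : Ch F3}, m ≤ m' → b ∈ F m → b ∈ F m' := fun h hb =>
    (hF _ _).2 ⟨((hF _ _).1 hb).1, fun i' j' e1 e2 e3 => ((hF _ _).1 hb).2 i' j' e1 e2 (h.trans e3)⟩
  have lc : ∀ {g : Mt} {b : Ch F3}, G0 g → LC2 b → LC2 (act g b - b) := fun hg hb =>
    (hG _).1 (G.sub_mem ((hG _).2 ((hM.lc F3 _ hb).1 _ hg)) ((hG _).2 hb))
  have tri : ∀ {g : Mt}, G0 g → ∀ k b, b ∈ F n → (A g ^ k) b ∈ F n := fun hg k b hb =>
    drop_pow F _ 0 (fun m b hb => (hF _ _).2 ⟨(hM.lc F3 _ ((hF _ _).1 hb).1).1 _ hg,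
      hA.tri _ hg b i j m ((hF _ _).1 hb).1 ((hF _ _).1 hb).2⟩) k n b (by simpa using hb)
  have d1 : ∀ {g : Mt}, G0 g → 3 ∣ g.1 - g.2.2.2 → ∀ k m b, b ∈ F (m + 1 * k) →
      ((A g - 1) ^ k) b ∈ F m := fun hg h3 k =>
    drop_pow F _ 1 (fun m b hb => (hF _ _).2 ⟨lc hg ((hF _ _).1 hb).1,
      hA.dr1 _ hg h3 b i j m ((hF _ _).1 hb).1 ((hF _ _).1 hb).2⟩) k
  have d2 : ∀ k m b, b ∈ F (m + 2 * k) → ((A mH - 1) ^ k) b ∈ F m := fun k =>
    drop_pow F _ 2 (fun m b hb => (hF _ _).2 ⟨lc gH ((hF _ _).1 hb).1,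
      hA.drH b i j m ((hF _ _).1 hb).1 ((hF _ _).1 hb).2⟩) k
  have ha : a ∈ F (n + w) := (hF _ _).2 ⟨la, ua⟩
  obtain ⟨M, hM'⟩ : ∃ M : ℕ, ∀ x ∈ o, (d x.2).1 + (d x.2).2.1 + (d x.2).2.2 < M :=
    ⟨(o.map fun x => (d x.2).1 + (d x.2).2.1 + (d x.2).2.2).sum + 1, fun x hx =>
      Nat.lt_succ_of_le (List.single_le_sum (fun _ _ => Nat.zero_le _) _ (List.mem_map_of_mem hx))⟩
  set S := range M ×ˢ range M ×ˢ range M with hS
  set v : ℕ × ℕ × ℕ → Ch F3 := fun t =>
    ((A mH - 1) ^ t.1) (((A mL - 1) ^ t.2.1) (((A mT - 1) ^ t.2.2) a)) with hv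
  set c : ℤ × Mt → ℕ × ℕ × ℕ → F3 := fun x t => (x.1 : F3) *
    (((d x.2).1.choose t.2.2 * (d x.2).2.1.choose t.2.1 * (d x.2).2.2.choose t.1 : ℕ) : F3) with hcc
  set r : ℤ × Mt → Ch F3 := fun x => (x.1 : F3) • (A mH ^ (d x.2).2.2) ((A mL ^ (d x.2).2.1)
    ((A mT ^ (d x.2).1) (act (mul x.2 (adj (Wd (d x.2)))) a - a))) with hr
  have e : EqO (app o a) (o.map fun x => r x + ∑ t ∈ S, c x t • v t).sum := by
    refine list_eqo o _ _ fun x hx => ?_
    have hx' := hM' x hx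
    have e1 : r x + ∑ t ∈ S, c x t • v t = (x.1 : F3) • (A mH ^ (d x.2).2.2) ((A mL ^ (d x.2).2.1)
        ((A mT ^ (d x.2).1) (act (mul x.2 (adj (Wd (d x.2)))) a))) := by
      have e2 : ∑ t ∈ S, c x t • v t = (x.1 : F3) • (A mH ^ (d x.2).2.2) ((A mL ^ (d x.2).2.1)
          ((A mT ^ (d x.2).1) a)) := by
        rw [binom (M := M) (A mH) (by omega), binom (M := M) (A mL) (by omega),
          binom (M := M) (A mT) (by omega)]
        simp only [hS, sum_product, map_sum, map_smul, smul_sum, smul_smul, hcc, hv]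
        refine sum_congr rfl fun k _ => sum_congr rfl fun k' _ => sum_congr rfl fun k'' _ => ?_
        congr 1
        push_cast
        ring
      rw [e2, hr]
      simp only [map_sub, smul_sub, sub_add_cancel]
    intro u y hu hy
    rw [e1, ← Int.cast_smul_eq_zsmul F3]
    simp only [Pi.smul_apply, act_eq hM x.2 (d x.2) (hd x hx) a u y hu hy]
  rw [hN.congr _ _ e]
  refine ((hF n _).1 ?_).2
  rw [List.sum_map_add, list_swap]
  refine add_mem (list_sum_mem fun z hz => ?_) (sum_mem fun t _ => ?_)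
  · obtain ⟨x, hx, rfl⟩ := List.mem_map.1 hz
    have hg : G0 (mul x.2 (adj (Wd (d x.2)))) := by
      obtain ⟨-, h2, h3, h4⟩ := hd x hx
      exact ⟨by omega, h4, by omega⟩
    exact Submodule.smul_mem _ _ (tri gH _ _ (tri gL _ _ (tri gT _ _ ((hF _ _).2 ⟨lc hg la,
      hA.dr7 _ (hd x hx) a i j n la ((hF _ _).1 (mono (by omega) ha)).2⟩))))
  · by_cases h : t.2.2 + t.2.1 + 2 * t.1 < w
    · rw [hc _ _ _ h, zero_smul]
      exact zero_mem _
    · exact Submodule.smul_mem _ _ (d2 _ _ _ (d1 gL (by decide) _ _ _ (d1 gT (by decide) _ _ _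
        (mono (by omega) ha))))

end Pool.Agent.MP_5f72fe_nt.MS
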