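import Pool.Agent.MP_5f72fe_nt.MS.S2

/-! Modular symbols at `3`: the quadratic character of conductor `3`. -/

namespace Pool.Agent.MP_5f72fe_nt.MS

namespace OMA

theorem vals (x : ℚ) : chi x = 0 ∨ chi x = 1 ∨ chi x = -1 := by
  unfold chi
  split_ifs <;> simp

theorem near (h : RowBAS) (x : ℚ) (hx : In x) : In ((x - chi x) / 3) := by
  unfold chi
  split_ifs with h0 h1
  · simpa using h0
  · exact h1
  · rcases h.tri x hx with a | a | a
    · exact absurd a h0
    · exact absurd a h1
    · simpa using a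

theorem uniq (h : RowBAS) (x c : ℚ) (hc : c = 0 ∨ c = 1 ∨ c = -1) (hx : In ((x - c) / 3)) :
    chi x = c := by
  obtain ⟨O, hO⟩ := h.ring
  have key : ∀ (n : ℤ) (a : ℚ), ¬ 3 ∣ n → a - c = n → ¬ In ((x - a) / 3) := by
    intro n a hn e ha
    have := O.sub_mem ((hO _).2 hx) ((hO _).2 ha)
    have e' : (x - c) / 3 - (x - a) / 3 = (n : ℚ) / 3 := by rw [← e]; ring
    rw [e', hO] at this
    exact hn ((h.int n).1.1 this)
  unfold chi
  rcases hc with rfl | rfl | rfl
  · rw [if_pos (by simpa using hx)]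
  · rw [if_neg (by simpa using key (-1) 0 (by norm_num) (by norm_num)), if_pos hx]
  · rw [if_neg (by simpa using key 1 0 (by norm_num) (by norm_num)),
      if_neg (key 2 1 (by norm_num) (by norm_num))]

theorem cmul (h : RowBAS) (x y : ℚ) (hx : In x) (hy : In y) : chi (x * y) = chi x * chi y := by
  obtain ⟨O, hO⟩ := h.ring
  refine uniq h _ _ ?_ ?_
  · rcases vals x with a | a | a <;> rcases vals y with b | b | b <;> simp [a, b]
  · have c : chi x ∈ O := by
      rcases vals x with a | a | a <;> rw [a]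
      · exact O.zero_mem
      · exact O.one_mem
      · exact O.neg_mem O.one_mem
    have := O.add_mem (O.mul_mem ((hO _).2 (near h x hx)) ((hO _).2 hy))
      (O.mul_mem c ((hO _).2 (near h y hy)))
    have e : (x * y - chi x * chi y) / 3 = (x - chi x) / 3 * y + chi x * ((y - chi y) / 3) := by
      ring
    rw [e, ← hO]
    exact this

theorem val0 (x : ℚ) (hx : Un x) : padicValRat 3 x = 0 := by
  unfold padicValRat
  rw [padicValInt.eq_zero_of_not_dvd hx.2, padicValNat.eq_zero_of_not_dvd hx.1]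
  simp

theorem val3 : padicValRat 3 3 = 1 := padicValRat.self (p := 3) (by norm_num)

theorem unit (h : RowBAS) (x : ℚ) (hx : x ≠ 0) : Un (x / 3 ^ padicValRat 3 x) := by
  have : Fact (Nat.Prime 3) := ⟨Nat.prime_three⟩
  obtain ⟨e, he⟩ := h.val x hx
  have a := val0 _ he
  rw [padicValRat.mul hx (zpow_ne_zero _ (by norm_num)), padicValRat.zpow, val3] at a
  have b : e = -padicValRat 3 x := by omega
  rwa [b, zpow_neg, ← div_eq_mul_inv] at he

theorem chi0 (h : RowBAS) : chi 0 = 0 := by
  refine uniq h _ _ (Or.inl rfl) ?_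
  simp [In]

end OMA

open OMA in
theorem rowOM : OfOM := by
  intro h
  have : Fact (Nat.Prime 3) := ⟨Nat.prime_three⟩
  obtain ⟨O, hO⟩ := h.ring
  refine ⟨fun x y => ?_, ?_, fun x hx => ?_, cmul h, fun x y hx hy => ?_, near h, fun x hx => ?_⟩
  · rcases eq_or_ne x 0 with rfl | hx
    · simp [om, chi0 h]
    rcases eq_or_ne y 0 with rfl | hy
    · simp [om, chi0 h]
    unfold om
    rw [← cmul h _ _ (unit h x hx).1 (unit h y hy).1, padicValRat.mul hx hy,
      zpow_add₀ (by norm_num), mul_div_mul_comm]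
  · unfold om
    rw [val3]
    refine uniq h _ _ (Or.inr (Or.inl rfl)) ?_
    simp [In]
  · unfold om
    rw [val0 x hx, zpow_zero, div_one]
  · refine uniq h _ _ (vals x) ?_
    have e : (x + 3 * y - chi x) / 3 = (x - chi x) / 3 + y := by ring
    rw [e, ← hO]
    exact O.add_mem ((hO _).2 (near h x hx)) ((hO _).2 hy)
  · have u := ((h.un _).1 (unit h x hx)).2
    unfold om chi
    rw [if_neg u]
    split_ifs <;> simp

end Pool.Agent.MP_5f72fe_nt.MS
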