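import Pool.Agent.MP_5f72fe_nt.MS.S1

/-! Modular symbols at `3`: the operators. -/

namespace Pool.Agent.MP_5f72fe_nt.MS

open scoped NumberTheorySymbols

noncomputable section

namespace OPSA

theorem ap_mul (g h : Mt) (v : V) : ap (mul g h) v = ap g (ap h v) := by
  simp only [ap, mul]
  ext <;> push_cast <;> ring

theorem ap_smul (g : Mt) (l : ℚ) (v : V) : ap g (l • v) = l • ap g v := by
  simp only [ap]
  ext <;> simp <;> ring

theorem ap_add (g : Mt) (v w : V) : ap g (v + w) = ap g v + ap g w := by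
  simp only [ap]
  ext <;> simp <;> ring

theorem ap_zero (g : Mt) : ap g 0 = 0 := by
  simp only [ap]
  ext <;> simp

theorem dt_ap (g : Mt) (v w : V) : dt (ap g v) (ap g w) = det g * dt v w := by
  simp only [ap, dt, det]
  push_cast
  ring

theorem ap_adj (g : Mt) (v : V) : ap (adj g) (ap g v) = (det g : ℚ) • v := by
  simp only [ap, adj, det]
  ext <;> simp <;> ring

theorem ap_ne (g : Mt) (hg : det g ≠ 0) (v : V) (hv : v ≠ 0) : ap g v ≠ 0 := by
  intro h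
  have h1 := ap_adj g v
  rw [h, ap_zero] at h1
  have h2 : (det g : ℚ) ≠ 0 := by exact_mod_cast hg
  exact hv ((smul_eq_zero.1 h1.symm).resolve_left h2)

theorem ap_NN (v : V) : ap mN (ap mN v) = v := by
  simp only [ap, mN]
  ext <;> simp

theorem lf_lf {A : Type} (g m : Mt) (φ : Sb A) : lf g (lf m φ) = lf (mul m g) φ := by
  funext c c' v w
  simp only [lf, ap_mul]

theorem dt_smul_right (l : ℚ) (v w : V) : dt v (l • w) = l * dt v w := by
  simp only [dt, Prod.smul_fst, Prod.smul_snd, smul_eq_mul]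
  ring

theorem dt_swap (v w : V) : dt w v = -dt v w := by
  simp only [dt]
  ring

section

variable {A : Type} [AddCommGroup A]

theorem ad_smul {f : V → V → A} (h : Ad f) (c c' : V) (l l' : ℚ) (hc : c ≠ 0) (hc' : c' ≠ 0)
    (hl : l ≠ 0) (hl' : l' ≠ 0) : f (l • c) (l' • c') = f c c' := by
  have h1 := h.add c (l • c) (l' • c') hc (smul_ne_zero hl hc) (smul_ne_zero hl' hc')
  have h2 := h.add c c' (l' • c') hc hc' (smul_ne_zero hl' hc')
  rw [h.hom c l hc hl, zero_add] at h1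
  rw [h.hom c' l' hc' hl', add_zero] at h2
  rw [h1, h2]

theorem cen {φ : Sb A} (h : Sy φ) (c c' v w : V) :
    φ c c' ((3 : ℚ) • v) ((3 : ℚ) • w) = φ c c' v w := by
  by_cases hc : c = 0
  · rw [h.junk _ _ _ _ (Or.inl hc), h.junk _ _ _ _ (Or.inl hc)]
  by_cases hc' : c' = 0
  · rw [h.junk _ _ _ _ (Or.inr (Or.inl hc')), h.junk _ _ _ _ (Or.inr (Or.inl hc'))]
  have h1 := h.inv (3, 0, 0, 3) 2 (by simp [det])
  have h2 := congrFun (congrFun (congrFun (congrFun h1 c) c') v) w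
  have h3 : ∀ x : V, ap (3, 0, 0, 3) x = (3 : ℚ) • x := by
    intro x
    simp only [ap]
    ext <;> simp
  simp only [lf, h3] at h2
  rw [← h2]
  exact (ad_smul (h.ad _ _) c c' 3 3 hc hc' (by norm_num) (by norm_num)).symm

/-- the conditions that every left translation preserves -/
structure Pre (φ : Sb A) : Prop where
  junk : ∀ c c' v w : V, c = 0 ∨ c' = 0 ∨ dt v w = 0 → φ c c' v w = 0
  ad : ∀ v w : V, Ad fun c c' => φ c c' v w
  tor : ∀ (c c' v w : V) (x y : ℚ), Un x → Un y → φ c c' (x • v) (y • w) = φ c c' v w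

theorem pre_of {φ : Sb A} (h : Sy φ) : Pre φ := ⟨h.junk, h.ad, h.tor⟩

theorem sy_of {φ : Sb A} (h : Pre φ) (hi : ∀ (g : Mt) (a : ℕ), det g = 3 ^ a → lf g φ = φ) :
    Sy φ := ⟨h.junk, h.ad, hi, h.tor⟩

theorem pre_zero : Pre (0 : Sb A) :=
  ⟨fun _ _ _ _ _ => rfl, fun _ _ => ⟨fun _ _ _ _ => rfl, fun _ _ _ _ _ _ => add_zero _⟩,
    fun _ _ _ _ _ _ _ _ => rfl⟩

theorem pre_add {φ ψ : Sb A} (h : Pre φ) (k : Pre ψ) : Pre (φ + ψ) := by
  refine ⟨fun c c' v w hj => ?_, fun v w => ⟨fun c l hc hl => ?_, fun c c' c'' hc hc' hc'' => ?_⟩,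
    fun c c' v w x y hx hy => ?_⟩
  · simp only [Pi.add_apply, h.junk c c' v w hj, k.junk c c' v w hj, add_zero]
  · have h1 := (h.ad v w).hom c l hc hl
    have h2 := (k.ad v w).hom c l hc hl
    simp only [Pi.add_apply] at h1 h2 ⊢
    rw [h1, h2, add_zero]
  · have h1 := (h.ad v w).add c c' c'' hc hc' hc''
    have h2 := (k.ad v w).add c c' c'' hc hc' hc''
    simp only [Pi.add_apply] at h1 h2 ⊢
    rw [← h1, ← h2]
    abel
  · simp only [Pi.add_apply, h.tor c c' v w x y hx hy, k.tor c c' v w x y hx hy]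

theorem pre_neg {φ : Sb A} (h : Pre φ) : Pre (-φ) := by
  refine ⟨fun c c' v w hj => ?_, fun v w => ⟨fun c l hc hl => ?_, fun c c' c'' hc hc' hc'' => ?_⟩,
    fun c c' v w x y hx hy => ?_⟩
  · simp only [Pi.neg_apply, h.junk c c' v w hj, neg_zero]
  · have h1 := (h.ad v w).hom c l hc hl
    simp only [Pi.neg_apply] at h1 ⊢
    rw [h1, neg_zero]
  · have h1 := (h.ad v w).add c c' c'' hc hc' hc''
    simp only [Pi.neg_apply] at h1 ⊢
    rw [← h1]
    abel
  · simp only [Pi.neg_apply, h.tor c c' v w x y hx hy]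

theorem pre_sum {ι : Type} (s : Finset ι) (F : ι → Sb A) (h : ∀ j ∈ s, Pre (F j)) :
    Pre (∑ j ∈ s, F j) :=
  Finset.sum_induction F Pre (fun _ _ => pre_add) pre_zero h

theorem pre_lf {φ : Sb A} (h : Pre φ) (g : Mt) (hg : det g ≠ 0) : Pre (lf g φ) := by
  refine ⟨fun c c' v w hj => ?_, fun v w => ⟨fun c l hc hl => ?_, fun c c' c'' hc hc' hc'' => ?_⟩,
    fun c c' v w x y hx hy => ?_⟩
  · refine h.junk _ _ _ _ ?_
    rcases hj with hj | hj | hj
    · exact Or.inl (by rw [hj, ap_zero])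
    · exact Or.inr (Or.inl (by rw [hj, ap_zero]))
    · exact Or.inr (Or.inr (by rw [dt_ap, hj, mul_zero]))
  · have h1 := (h.ad (ap g v) (ap g w)).hom (ap g c) l (ap_ne g hg c hc) hl
    simp only [lf, ap_smul]
    exact h1
  · exact (h.ad (ap g v) (ap g w)).add _ _ _ (ap_ne g hg c hc) (ap_ne g hg c' hc')
      (ap_ne g hg c'' hc'')
  · simp only [lf, ap_smul]
    exact h.tor _ _ _ _ x y hx hy

theorem lf_add (g : Mt) (φ ψ : Sb A) : lf g (φ + ψ) = lf g φ + lf g ψ := rfl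

theorem lf_neg (g : Mt) (φ : Sb A) : lf g (-φ) = -lf g φ := rfl

theorem lf_sum {ι : Type} (g : Mt) (s : Finset ι) (F : ι → Sb A) :
    lf g (∑ j ∈ s, F j) = ∑ j ∈ s, lf g (F j) := by
  funext c c' v w
  simp only [lf, Finset.sum_apply]

theorem sy_zero : Sy (0 : Sb A) := sy_of pre_zero fun _ _ _ => rfl

theorem sy_add {φ ψ : Sb A} (h : Sy φ) (k : Sy ψ) : Sy (φ + ψ) :=
  sy_of (pre_add (pre_of h) (pre_of k)) fun g a hg => by
    rw [lf_add, h.inv g a hg, k.inv g a hg]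

theorem sy_neg {φ : Sb A} (h : Sy φ) : Sy (-φ) :=
  sy_of (pre_neg (pre_of h)) fun g a hg => by rw [lf_neg, h.inv g a hg]

/-- the flip without the sign -/
def om (φ : Sb A) : Sb A := fun c c' v w => φ c c' w ((3 : ℚ) • v)

theorem sg_eq (φ : Sb A) : sg φ = -om (cj φ) := by
  funext c c' v w
  simp only [sg, om, cj, lf, ap_smul, Pi.neg_apply]

omit [AddCommGroup A] in
theorem lf_tt (g : Mt) (φ : Sb A) : lf g (tt φ) = tt (lf g φ) := by
  funext c c' v w
  simp only [lf, tt, ap_smul]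

omit [AddCommGroup A] in
theorem lf_om (g : Mt) (φ : Sb A) : lf g (om φ) = om (lf g φ) := by
  funext c c' v w
  simp only [lf, om, ap_smul]

theorem sy_tt {φ : Sb A} (h : Sy φ) : Sy (tt φ) := by
  refine ⟨fun c c' v w hj => ?_, fun v w => h.ad _ _, fun g a hg => ?_,
    fun c c' v w x y hx hy => ?_⟩
  · refine h.junk _ _ _ _ ?_
    rcases hj with hj | hj | hj
    · exact Or.inl hj
    · exact Or.inr (Or.inl hj)
    · exact Or.inr (Or.inr (by rw [dt_smul_right, hj, mul_zero]))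
  · rw [lf_tt, h.inv g a hg]
  · simp only [tt]
    rw [smul_comm (3 : ℚ) y w]
    exact h.tor _ _ _ _ x y hx hy

theorem sy_om {φ : Sb A} (h : Sy φ) : Sy (om φ) := by
  refine ⟨fun c c' v w hj => ?_, fun v w => h.ad _ _, fun g a hg => ?_,
    fun c c' v w x y hx hy => ?_⟩
  · refine h.junk _ _ _ _ ?_
    rcases hj with hj | hj | hj
    · exact Or.inl hj
    · exact Or.inr (Or.inl hj)
    · exact Or.inr (Or.inr (by rw [dt_smul_right, dt_swap, hj, neg_zero, mul_zero]))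
  · rw [lf_om, h.inv g a hg]
  · simp only [om]
    rw [smul_comm (3 : ℚ) x v]
    exact h.tor _ _ _ _ y x hy hx

theorem sy_cj {φ : Sb A} (h : Sy φ) : Sy (cj φ) := by
  refine sy_of (pre_lf (pre_of h) mN (by simp [det, mN])) fun g a hg => ?_
  have h1 : mul mN g = mul (mul (mul mN g) mN) mN := by
    simp only [mul, mN]
    ext <;> simp
  have h2 : det (mul (mul mN g) mN) = 3 ^ a := by
    rw [← hg]
    simp only [mul, mN, det]
    ring
  rw [cj, lf_lf, h1, ← lf_lf, h.inv _ a h2]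

theorem sy_sg {φ : Sb A} (h : Sy φ) : Sy (sg φ) := by
  rw [sg_eq]
  exact sy_neg (sy_om (sy_cj h))

theorem lf_Tl (g : Mt) (l : ℕ) (φ : Sb A) : lf g (Tl l φ) =
    lf (mul (l, 0, 0, 1) g) φ + ∑ j ∈ Finset.range l, lf (mul (1, j, 0, l) g) φ := by
  rw [Tl, lf_add, lf_sum]
  simp only [lf_lf]

theorem psi_inv {φ : Sb A} (h : Sy φ) (g m : Mt) (a : ℕ) (hg : det g = 3 ^ a) :
    lf (mul g m) φ = lf m φ := by
  rw [← lf_lf, h.inv g a hg]

theorem sy_Tl (hK : RowHK) {φ : Sb A} (h : Sy φ) (l : ℕ) (hl : l = 2 ∨ l = 7) : Sy (Tl l φ) := by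
  have hl0 : (l : ℤ) ≠ 0 := by rcases hl with rfl | rfl <;> norm_num
  refine sy_of (pre_add (pre_lf (pre_of h) _ (by simpa [det] using hl0))
    (pre_sum _ _ fun j _ => pre_lf (pre_of h) _ (by simpa [det] using hl0))) fun g a hg => ?_
  rw [lf_Tl]
  exact (hK (Sb A) (fun m => lf m φ) l hl (psi_inv h)).1 g a hg

theorem cj_Tl (hK : RowHK) {φ : Sb A} (h : Sy φ) (l : ℕ) (hl : l = 2 ∨ l = 7) :
    Tl l (cj φ) = cj (Tl l φ) := by
  rw [cj, cj, lf_Tl, (hK (Sb A) (fun m => lf m φ) l hl (psi_inv h)).2, Tl]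
  simp only [lf_lf]

theorem ite27 (b : Bool) : (if b then 2 else 7 : ℕ) = 2 ∨ (if b then 2 else 7 : ℕ) = 7 := by
  cases b <;> simp

theorem sy_wd (hK : RowHK) (l : List Bool) : ∀ {φ : Sb A}, Sy φ → Sy (wd l φ) := by
  induction l with
  | nil => exact fun h => h
  | cons b l ih => exact fun h => ih (sy_Tl hK h _ (ite27 b))

theorem Tl_add (l : ℕ) (φ ψ : Sb A) : Tl l (φ + ψ) = Tl l φ + Tl l ψ := by
  simp only [Tl, lf_add, Finset.sum_add_distrib]
  abel

theorem Tl_neg (l : ℕ) (φ : Sb A) : Tl l (-φ) = -Tl l φ := by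
  simp only [Tl, lf_neg, Finset.sum_neg_distrib]
  abel

theorem Tl_tt (l : ℕ) (φ : Sb A) : Tl l (tt φ) = tt (Tl l φ) := by
  funext c c' v w
  simp only [Tl, tt, lf, ap_smul, Pi.add_apply, Finset.sum_apply]

theorem Tl_om (l : ℕ) (φ : Sb A) : Tl l (om φ) = om (Tl l φ) := by
  funext c c' v w
  simp only [Tl, om, lf, ap_smul, Pi.add_apply, Finset.sum_apply]

theorem sg_Tl (hK : RowHK) {φ : Sb A} (h : Sy φ) (l : ℕ) (hl : l = 2 ∨ l = 7) :
    Tl l (sg φ) = sg (Tl l φ) := by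
  rw [sg_eq, sg_eq, Tl_neg, Tl_om, cj_Tl hK h l hl]

theorem wd_add (l : List Bool) : ∀ φ ψ : Sb A, wd l (φ + ψ) = wd l φ + wd l ψ := by
  induction l with
  | nil => exact fun _ _ => rfl
  | cons b l ih => intro φ ψ; simp only [wd, Tl_add, ih]

theorem wd_tt (l : List Bool) : ∀ φ : Sb A, wd l (tt φ) = tt (wd l φ) := by
  induction l with
  | nil => exact fun _ => rfl
  | cons b l ih => intro φ; simp only [wd, Tl_tt, ih]

theorem wd_cj (hK : RowHK) (l : List Bool) :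
    ∀ {φ : Sb A}, Sy φ → wd l (cj φ) = cj (wd l φ) := by
  induction l with
  | nil => exact fun _ => rfl
  | cons b l ih =>
    intro φ h
    simp only [wd]
    rw [cj_Tl hK h _ (ite27 b), ih (sy_Tl hK h _ (ite27 b))]

theorem wd_sg (hK : RowHK) (l : List Bool) :
    ∀ {φ : Sb A}, Sy φ → wd l (sg φ) = sg (wd l φ) := by
  induction l with
  | nil => exact fun _ => rfl
  | cons b l ih =>
    intro φ h
    simp only [wd]
    rw [sg_Tl hK h _ (ite27 b), ih (sy_Tl hK h _ (ite27 b))]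

theorem in_mul (hB : RowBAS) (k : ℤ) {b : ℚ} (hb : In b) : In (k * b) := by
  obtain ⟨O, hO⟩ := hB.ring
  exact (hO _).1 (O.mul_mem (intCast_mem O k) ((hO _).2 hb))

omit [AddCommGroup A] in
theorem rk_mono (hB : RowBAS) {F : V → V → A} {n m : ℕ} (h : RK n F) (hnm : n ≤ m) : RK m F := by
  intro v w x y b c hx hy hb hc
  obtain ⟨k, rfl⟩ := Nat.exists_eq_add_of_le hnm
  have h1 := h v w x y _ _ hx hy (in_mul hB (3 ^ k) hb) (in_mul hB (3 ^ k) hc)
  rw [← h1]
  congr 3 <;> push_cast <;> ring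

/-- invariance on the right at some level -/
def Lv (φ : Sb A) : Prop := ∃ n : ℕ, 1 ≤ n ∧ ∀ c c', RK n (φ c c')

theorem lv_zero : Lv (0 : Sb A) := ⟨1, le_rfl, fun _ _ _ _ _ _ _ _ _ _ _ _ => rfl⟩

theorem lv_add (hB : RowBAS) {φ ψ : Sb A} (h : Lv φ) (k : Lv ψ) : Lv (φ + ψ) := by
  obtain ⟨n, hn, h⟩ := h
  obtain ⟨m, -, k⟩ := k
  refine ⟨max n m, le_max_of_le_left hn, fun c c' v w x y b d hx hy hb hd => ?_⟩
  simp only [Pi.add_apply]
  rw [rk_mono hB (h c c') (le_max_left n m) v w x y b d hx hy hb hd,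
    rk_mono hB (k c c') (le_max_right n m) v w x y b d hx hy hb hd]

theorem lv_neg {φ : Sb A} (h : Lv φ) : Lv (-φ) := by
  obtain ⟨n, hn, h⟩ := h
  refine ⟨n, hn, fun c c' v w x y b d hx hy hb hd => ?_⟩
  simp only [Pi.neg_apply]
  rw [h c c' v w x y b d hx hy hb hd]

theorem lv_sum (hB : RowBAS) {ι : Type} (s : Finset ι) (F : ι → Sb A) (h : ∀ j ∈ s, Lv (F j)) :
    Lv (∑ j ∈ s, F j) :=
  Finset.sum_induction F Lv (fun _ _ => lv_add hB) lv_zero h

omit [AddCommGroup A] in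
theorem lv_lf {φ : Sb A} (h : Lv φ) (g : Mt) : Lv (lf g φ) := by
  obtain ⟨n, hn, h⟩ := h
  refine ⟨n, hn, fun c c' v w x y b d hx hy hb hd => ?_⟩
  simp only [lf, ap_add, ap_smul]
  exact h _ _ _ _ x y b d hx hy hb hd

omit [AddCommGroup A] in
theorem lv_tt (hB : RowBAS) {φ : Sb A} (h : Lv φ) : Lv (tt φ) := by
  obtain ⟨n, hn, h⟩ := h
  refine ⟨n + 1, by omega, fun c c' v w x y b d hx hy hb hd => ?_⟩
  have h1 := h c c' v ((3 : ℚ) • w) x y b _ hx hy hb (in_mul hB 9 hd)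
  simp only [tt]
  rw [← h1]
  congr 1
  · ext <;> simp <;> ring
  · ext <;> simp <;> ring

omit [AddCommGroup A] in
theorem lv_om (hB : RowBAS) {φ : Sb A} (h : Lv φ) : Lv (om φ) := by
  obtain ⟨n, hn, h⟩ := h
  refine ⟨n + 1, by omega, fun c c' v w x y b d hx hy hb hd => ?_⟩
  have h1 := h c c' w ((3 : ℚ) • v) y x d _ hy hx hd (in_mul hB 9 hb)
  simp only [om]
  rw [← h1]
  congr 1
  · ext <;> simp <;> ring
  · ext <;> simp <;> ring

theorem lv_sg (hB : RowBAS) {φ : Sb A} (h : Lv φ) : Lv (sg φ) := by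
  rw [sg_eq]
  exact lv_neg (lv_om hB (lv_lf h mN))

theorem lv_Tl (hB : RowBAS) {φ : Sb A} (h : Lv φ) (l : ℕ) : Lv (Tl l φ) :=
  lv_add hB (lv_lf h _) (lv_sum hB _ _ fun _ _ => lv_lf h _)

theorem lv_wd (hB : RowBAS) (l : List Bool) : ∀ {φ : Sb A}, Lv φ → Lv (wd l φ) := by
  induction l with
  | nil => exact fun h => h
  | cons b l ih => exact fun h => ih (lv_Tl hB h _)

theorem ell_add (N : ℕ) (φ ψ : Sb A) : ell N (φ + ψ) = ell N φ + ell N ψ := by
  simp only [ell, Pi.add_apply, smul_add, Finset.sum_add_distrib]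

theorem sg_add (φ ψ : Sb A) : sg (φ + ψ) = sg φ + sg ψ := by
  funext c c' v w
  simp only [sg, Pi.add_apply]
  abel

variable {B : Type} [AddCommGroup B]

/-- change of coefficients -/
def mp (i : A →+ B) (φ : Sb A) : Sb B := fun c c' v w => i (φ c c' v w)

theorem sy_mp (i : A →+ B) {φ : Sb A} (h : Sy φ) : Sy (mp i φ) := by
  refine ⟨fun c c' v w hj => ?_, fun v w => ⟨fun c l hc hl => ?_, fun c c' c'' hc hc' hc'' => ?_⟩,
    fun g a hg => ?_, fun c c' v w x y hx hy => ?_⟩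
  · simp only [mp, h.junk c c' v w hj, map_zero]
  · have h1 := (h.ad v w).hom c l hc hl
    simp only [mp] at h1 ⊢
    rw [h1, map_zero]
  · have h1 := (h.ad v w).add c c' c'' hc hc' hc''
    simp only [mp] at h1 ⊢
    rw [← h1, map_add]
  · have h1 : lf g (mp i φ) = mp i (lf g φ) := rfl
    rw [h1, h.inv g a hg]
  · simp only [mp, h.tor c c' v w x y hx hy]

theorem lv_mp (i : A →+ B) {φ : Sb A} (h : Lv φ) : Lv (mp i φ) := by
  obtain ⟨n, hn, h⟩ := h
  refine ⟨n, hn, fun c c' v w x y b d hx hy hb hd => ?_⟩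
  simp only [mp]
  rw [h c c' v w x y b d hx hy hb hd]

theorem Tl_mp (i : A →+ B) (l : ℕ) (φ : Sb A) : Tl l (mp i φ) = mp i (Tl l φ) := by
  funext c c' v w
  simp only [Tl, mp, lf, Pi.add_apply, Finset.sum_apply, map_add, map_sum]

theorem wd_mp (i : A →+ B) (l : List Bool) : ∀ φ : Sb A, wd l (mp i φ) = mp i (wd l φ) := by
  induction l with
  | nil => exact fun _ => rfl
  | cons b l ih => intro φ; simp only [wd, Tl_mp, ih]

theorem ell_mp (i : A →+ B) (N : ℕ) (φ : Sb A) : ell N (mp i φ) = i (ell N φ) := by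
  simp only [ell, mp, map_sum, map_zsmul]

theorem sl_comap (i : A →+ B) (hi : Function.Injective i) {φ : Sb A} (h : SL (mp i φ)) : SL φ := by
  obtain ⟨h, n, hn, k⟩ := h
  refine ⟨⟨fun c c' v w hj => hi ?_,
    fun v w => ⟨fun c l hc hl => hi ?_, fun c c' c'' hc hc' hc'' => hi ?_⟩,
    fun g a hg => ?_, fun c c' v w x y hx hy => hi ?_⟩, n, hn,
    fun c c' v w x y b d hx hy hb hd => hi ?_⟩
  · rw [map_zero]
    exact h.junk c c' v w hj
  · rw [map_zero]
    exact (h.ad v w).hom c l hc hl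
  · rw [map_add]
    exact (h.ad v w).add c c' c'' hc hc' hc''
  · funext c c' v w
    exact hi (congrFun (congrFun (congrFun (congrFun (h.inv g a hg) c) c') v) w)
  · exact h.tor c c' v w x y hx hy
  · exact k c c' v w x y b d hx hy hb hd

end

end OPSA

open OPSA in
theorem rowOPS : OfOPS := by
  intro hB hK
  refine ⟨fun A _ => ?_, fun A _ => ?_, fun A _ φ h => ?_, fun A _ φ h => ?_,
    fun A B _ _ i φ => ?_, fun A B _ _ i φ hi h => sl_comap i hi h, fun A _ => ?_,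
    fun A _ φ h => ?_⟩
  · exact ⟨{ carrier := {φ | Sy φ}
             add_mem' := fun h k => sy_add h k
             zero_mem' := sy_zero
             neg_mem' := fun h => sy_neg h }, fun _ => Iff.rfl⟩
  · exact ⟨{ carrier := {φ | SL φ}
             add_mem' := fun h k => ⟨sy_add h.1 k.1, lv_add hB h.2 k.2⟩
             zero_mem' := ⟨sy_zero, lv_zero⟩
             neg_mem' := fun h => ⟨sy_neg h.1, lv_neg h.2⟩ }, fun _ => Iff.rfl⟩
  · exact ⟨sy_tt h, sy_cj h, sy_sg h, sy_Tl hK h 2 (Or.inl rfl), sy_Tl hK h 7 (Or.inr rfl),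
      fun l => sy_wd hK l h⟩
  · exact ⟨⟨sy_tt h.1, lv_tt hB h.2⟩, ⟨sy_cj h.1, lv_lf h.2 mN⟩, ⟨sy_sg h.1, lv_sg hB h.2⟩,
      ⟨sy_Tl hK h.1 2 (Or.inl rfl), lv_Tl hB h.2 2⟩, ⟨sy_Tl hK h.1 7 (Or.inr rfl), lv_Tl hB h.2 7⟩,
      fun l => ⟨sy_wd hK l h.1, lv_wd hB l h.2⟩⟩
  · refine ⟨fun h => sy_mp i h, fun h => ⟨sy_mp i h.1, lv_mp i h.2⟩, fun l N => ?_⟩
    exact (congrArg (ell N) (wd_mp i l φ)).trans (ell_mp i N _)
  · exact ⟨AddMonoidHom.mk' tt fun _ _ => rfl, AddMonoidHom.mk' cj fun _ _ => rfl,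
      AddMonoidHom.mk' sg sg_add, fun l => AddMonoidHom.mk' (Tl l) (Tl_add l),
      fun l => AddMonoidHom.mk' (wd l) (wd_add l), fun N => AddMonoidHom.mk' (ell N) (ell_add N),
      fun φ => ⟨rfl, rfl, rfl, fun _ => rfl, fun _ => rfl, fun _ => rfl⟩⟩
  · refine ⟨?_, ?_, ?_, lf_tt mN φ, ?_, fun l => ⟨wd_tt l φ, wd_cj hK l h, wd_sg hK l h⟩⟩
    · funext c c' v w
      simp only [cj, lf, ap_NN]
    · funext c c' v w
      simp only [sg, ap_smul, ap_NN, neg_neg]
      exact cen h c c' v w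
    · funext c c' v w
      simp only [sg, tt, ap_smul]
      rw [cen h]
    · funext c c' v w
      simp only [sg, cj, lf, ap_smul]

end

end Pool.Agent.MP_5f72fe_nt.MS
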