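import Pool.Agent.MP_5f72fe_nt.MS.PERa

/-! The transformation law of periods. -/

namespace Pool.Agent.MP_5f72fe_nt.MS

open Complex MeasureTheory Set Filter
open scoped Real Topology

noncomputable section

namespace PERA

theorem Lf_le (x : V) (z : ℂ) {R T : ℝ} (hT : 1 ≤ T) (hR : |z.re| ≤ R) (hz : |z.im| ≤ T) :
    ‖Lf x z‖ ≤ (|(x.1 : ℝ)| + |(x.2 : ℝ)| * (R + 1)) * T := by
  have h0 : 0 ≤ R := (abs_nonneg _).trans hR
  have h1 : ‖z‖ ≤ R + T := (Complex.norm_le_abs_re_add_abs_im z).trans (add_le_add hR hz)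
  have h2 : ‖Lf x z‖ ≤ |(x.1 : ℝ)| + |(x.2 : ℝ)| * ‖z‖ := by
    unfold Lf
    refine (norm_sub_le _ _).trans ?_
    rw [norm_mul, Complex.norm_ratCast, Complex.norm_ratCast]
  have h3 : |(x.2 : ℝ)| * ‖z‖ ≤ |(x.2 : ℝ)| * ((R + 1) * T) :=
    mul_le_mul_of_nonneg_left (h1.trans (by nlinarith)) (abs_nonneg _)
  nlinarith [abs_nonneg (x.1 : ℝ)]

theorem xi_le (k : ℕ) (x y : V) (R : ℝ) : ∃ B : ℝ, 0 ≤ B ∧ ∀ (z : ℂ) (T : ℝ), 1 ≤ T →
    |z.re| ≤ R → |z.im| ≤ T → ‖xi k x y z‖ ≤ B * (T ^ 2) ^ (k - 1) := by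
  refine ⟨|(|(x.1 : ℝ)| + |(x.2 : ℝ)| * (R + 1)) * (|(y.1 : ℝ)| + |(y.2 : ℝ)| * (R + 1))| ^ (k - 1),
    by positivity, fun z T hT hR hz => ?_⟩
  unfold xi
  rw [norm_pow, ← mul_pow, norm_mul]
  refine pow_le_pow_left₀ (by positivity) ?_ _
  have h1 := Lf_le x z hT hR hz
  have h2 := Lf_le y z hT hR hz
  refine (mul_le_mul h1 h2 (norm_nonneg _) ((norm_nonneg _).trans h1)).trans ?_
  have := le_abs_self
    ((|(x.1 : ℝ)| + |(x.2 : ℝ)| * (R + 1)) * (|(y.1 : ℝ)| + |(y.2 : ℝ)| * (R + 1)))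
  nlinarith [sq_nonneg T]

theorem good (hCU : RowCU) {k : ℕ} (hk : 1 ≤ k) {h : ℂ → ℂ} (hh : Cu k h) (x y : V) :
    Good fun z => h z * xi k x y z := by
  refine ⟨fun q => hCU.int k h x y q q hh rfl, fun q => ?_, fun R => ?_⟩
  · obtain ⟨C, hC⟩ := hh.bd (q, 1) (by simp) k
    obtain ⟨B, hB, hx⟩ := xi_le k x y (|(q : ℝ)| + 1)
    refine ⟨|C| * 2 ^ k * B, fun z h0 h1 h2 => ?_⟩
    have h3 : ‖xi k x y z‖ ≤ B := by
      have := hx z 1 le_rfl (by
        rw [abs_le] at h2 ⊢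
        constructor <;> linarith [le_abs_self (q : ℝ), neg_abs_le (q : ℝ), h2.1, h2.2])
        (by rw [abs_of_pos h0]; exact h1)
      simpa using this
    have h4 : ‖Lf (q, 1) z‖ ^ 2 / z.im ≤ 2 * z.im := by
      rw [div_le_iff₀ h0, Complex.sq_norm, Complex.normSq_apply]
      have : (z.re - q) ^ 2 ≤ z.im ^ 2 := by
        rw [← sq_abs]; exact pow_le_pow_left₀ (abs_nonneg _) h2 2
      simp [Lf]
      nlinarith
    have h5 : ‖h z‖ * z.im ^ k ≤ |C| * 2 ^ k * z.im ^ k := by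
      refine (hC z h0).trans ?_
      rw [mul_assoc, ← mul_pow]
      exact mul_le_mul (le_abs_self C) (pow_le_pow_left₀ (by positivity) h4 k) (by positivity)
        (abs_nonneg C)
    have h6 : ‖h z‖ ≤ |C| * 2 ^ k := le_of_mul_le_mul_right h5 (by positivity)
    rw [norm_mul]
    exact mul_le_mul h6 h3 (norm_nonneg _) (by positivity)
  · obtain ⟨C, hC⟩ := hh.bd e1 (by simp [e1]) k
    obtain ⟨B, hB, hx⟩ := xi_le k x y R
    refine ⟨|C| * B, fun z h1 h2 => ?_⟩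
    have h0 : 0 < z.im := by linarith
    have h3 := hx z z.im h1 h2 (by rw [abs_of_pos h0])
    have h4 : ‖h z‖ * z.im ^ k ≤ |C| * (1 / z.im) ^ k := by
      have := hC z h0
      simp only [Lf, e1] at this
      norm_num at this ⊢
      exact this.trans (mul_le_mul_of_nonneg_right (le_abs_self C) (by positivity))
    obtain ⟨j, rfl⟩ : ∃ j, k = j + 1 := ⟨k - 1, by omega⟩
    simp only [Nat.add_sub_cancel] at h3
    have h5 : ‖h z‖ ≤ |C| / ((z.im ^ 2) ^ j * z.im ^ 2) := by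
      rw [le_div_iff₀ (by positivity)]
      have h6 := mul_le_mul_of_nonneg_right h4 (show 0 ≤ z.im ^ (j + 1) by positivity)
      have e1 : |C| * (1 / z.im) ^ (j + 1) * z.im ^ (j + 1) = |C| := by
        rw [mul_assoc, ← mul_pow, one_div_mul_cancel h0.ne', one_pow, mul_one]
      have e2 : ‖h z‖ * z.im ^ (j + 1) * z.im ^ (j + 1) = ‖h z‖ * ((z.im ^ 2) ^ j * z.im ^ 2) := by
        ring
      rwa [e1, e2] at h6
    rw [norm_mul]
    refine (mul_le_mul h5 h3 (norm_nonneg _) (by positivity)).trans ?_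
    have e3 : |C| / ((z.im ^ 2) ^ j * z.im ^ 2) * (B * (z.im ^ 2) ^ j) = |C| * B / z.im / z.im := by
      field_simp
    rw [e3]
    exact div_le_self (by positivity) h1

theorem hol {k : ℕ} {h : ℂ → ℂ} (hh : Cu k h) (x y : V) :
    DifferentiableOn ℂ (fun z => h z * xi k x y z) {z | 0 < z.im} := by
  refine hh.hol.mul (Differentiable.differentiableOn ?_)
  unfold xi Lf
  fun_prop

theorem j_ne {g : Mt} (hg : 0 < det g) {z : ℂ} (hz : 0 < z.im) :
    (g.2.2.1 : ℂ) * z + g.2.2.2 ≠ 0 := by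
  intro h0
  have h1 := congrArg Complex.re h0
  have h2 := congrArg Complex.im h0
  simp at h1 h2
  rcases h2 with h2 | h2
  · simp [h2] at h1
    simp [det, h1, h2] at hg
  · exact hz.ne' h2

theorem mob_im {g : Mt} (hg : 0 < det g) {z : ℂ} (hz : 0 < z.im) :
    0 < (((g.1 : ℂ) * z + g.2.1) / (g.2.2.1 * z + g.2.2.2)).im := by
  have hp := Complex.normSq_pos.2 (j_ne hg hz)
  rw [Complex.div_im, ← sub_div]
  apply div_pos _ hp
  have h1 : (0 : ℝ) < (g.1 : ℝ) * g.2.2.2 - g.2.1 * g.2.2.1 := by exact_mod_cast hg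
  simp
  nlinarith [mul_pos h1 hz]

theorem mob_der {g : Mt} (hg : 0 < det g) {z : ℂ} (hz : 0 < z.im) :
    HasDerivAt (fun z : ℂ => ((g.1 : ℂ) * z + g.2.1) / (g.2.2.1 * z + g.2.2.2))
      ((det g : ℂ) / (g.2.2.1 * z + g.2.2.2) ^ 2) z := by
  have h1 : HasDerivAt (fun z : ℂ => (g.1 : ℂ) * z + g.2.1) g.1 z := by
    simpa using ((hasDerivAt_id z).const_mul (g.1 : ℂ)).add_const (g.2.1 : ℂ)
  have h2 : HasDerivAt (fun z : ℂ => (g.2.2.1 : ℂ) * z + g.2.2.2) g.2.2.1 z := by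
    simpa using ((hasDerivAt_id z).const_mul (g.2.2.1 : ℂ)).add_const (g.2.2.2 : ℂ)
  refine (h1.div h2 (j_ne hg hz)).congr_deriv ?_
  congr 1
  simp only [det]
  push_cast
  ring

theorem Lf_mob {g : Mt} (hg : 0 < det g) {z : ℂ} (hz : 0 < z.im) (x : V) :
    Lf (ap g x) (((g.1 : ℂ) * z + g.2.1) / (g.2.2.1 * z + g.2.2.2)) =
      (det g : ℂ) * Lf x z / (g.2.2.1 * z + g.2.2.2) := by
  have h0 := j_ne hg hz
  simp only [Lf, ap, det]
  push_cast
  field_simp
  ring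

theorem dt_ap (g : Mt) (v w : V) : dt (ap g v) (ap g w) = det g * dt v w := by
  simp only [dt, ap, det]
  push_cast
  ring

theorem path_mob (g : Mt) {c c' : V} (h : 0 < dt c' c) {t : ℝ} (ht : 0 < t) :
    ((g.1 : ℂ) * path c c' t + g.2.1) / (g.2.2.1 * path c c' t + g.2.2.2) =
      path (ap g c) (ap g c') t := by
  have h0 := den_ne h ht
  have e : ∀ p q A B : ℂ, B ≠ 0 → p * (A / B) + q = (p * A + q * B) / B := by
    intro p q A B hB
    field_simp
  unfold path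
  rw [e _ _ _ _ h0, e _ _ _ _ h0, div_div_div_cancel_right₀ h0]
  simp only [ap]
  push_cast
  congr 1 <;> ring

end PERA

open PERA

theorem rowPER : OfPER := by
  intro hCU k g h x y c c' hk hg hh hc hc'
  obtain ⟨F, hF⟩ := exists_prim (hol hh (ap g x) (ap g y))
  have hD : (det g : ℂ) ≠ 0 := by exact_mod_cast hg.ne'
  have hG : ∀ z : ℂ, 0 < z.im → HasDerivAt
      (fun z : ℂ => F (((g.1 : ℂ) * z + g.2.1) / (g.2.2.1 * z + g.2.2.2)) / (det g : ℂ) ^ (k - 1))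
      (sl k g h z * xi k x y z) z := by
    intro z hz
    refine (((hF _ (mob_im hg hz)).comp z (mob_der hg hz)).div_const _).congr_deriv ?_
    have h0 := j_ne hg hz
    obtain ⟨j, rfl⟩ : ∃ j, k = j + 1 := ⟨k - 1, by omega⟩
    simp only [sl, hz, if_true, xi, Lf_mob hg hz, Nat.add_sub_cancel]
    rw [div_mul_div_comm, div_pow, mul_pow, mul_pow, mul_pow, mul_pow]
    field_simp
    ring
  obtain ⟨L, hL⟩ := lim hF (good hCU hk hh (ap g x) (ap g y))
  obtain ⟨L', hL'⟩ := lim hG (good hCU hk (hCU.cu k g h hg hh) x y)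
  have key : ∀ c : V, c ≠ 0 → (L + Pc (fun z => h z * xi k (ap g x) (ap g y) z) (ap g c)) /
      (det g : ℂ) ^ (k - 1) = L' + Pc (fun z => sl k g h z * xi k x y z) c := by
    intro c hc
    have h1 : 0 < dt (c.2, -c.1) c := by
      have : c.1 ≠ 0 ∨ c.2 ≠ 0 := by
        by_contra h2
        push Not at h2
        exact hc (Prod.ext h2.1 h2.2)
      simp only [dt]
      rcases this with h2 | h2 <;> nlinarith [mul_self_pos.2 h2, mul_self_nonneg c.1,
        mul_self_nonneg c.2]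
    have h2 : 0 < dt (ap g (c.2, -c.1)) (ap g c) := by
      rw [dt_ap]; exact mul_pos (by exact_mod_cast hg) h1
    refine tendsto_nhds_unique ((hL _ _ h2).div_const _) ((hL' _ _ h1).congr' ?_)
    filter_upwards [self_mem_nhdsWithin] with t ht
    rw [path_mob g h1 ht]
  have h1 := key c hc
  have h2 := key c' hc'
  rw [div_eq_iff (pow_ne_zero _ hD)] at h1 h2
  unfold Per
  linear_combination h2 - h1

end

end Pool.Agent.MP_5f72fe_nt.MS
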