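import Pool.Agent.MP_5f72fe_nt.MS.S3

/-! Fourier expansions: uniqueness, Hecke operators, depletion and twist at `3`. -/

namespace Pool.Agent.MP_5f72fe_nt.MS

open Complex
open scoped Real NumberTheorySymbols Topology

namespace QEA

theorem cg {f g : ℕ → ℂ} {s : ℂ} (h : HasSum f s) (e : ∀ n, g n = f n) : HasSum g s := by
  rwa [funext e]

theorem uniq (h : ℂ → ℂ) (a : ℕ → ℂ) (H : QE h a) (h0 : h = 0) : a = 0 := by
  obtain ⟨ha, H⟩ := H
  have key : HasFPowerSeriesAt (0 : ℂ → ℂ) (FormalMultilinearSeries.ofScalars ℂ a) 0 := by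
    rw [hasFPowerSeriesAt_iff]
    have hb : Metric.ball (0 : ℂ) 1 ∈ 𝓝 (0 : ℂ) := Metric.ball_mem_nhds _ one_pos
    filter_upwards [hb] with q hq
    simp only [FormalMultilinearSeries.coeff_ofScalars, smul_eq_mul, Pi.zero_apply]
    by_cases hq0 : q = 0
    · subst hq0
      have : (fun n : ℕ => (0 : ℂ) ^ n * a n) = fun _ => 0 := by
        funext n
        rcases n with _ | n
        · simp [ha]
        · simp
      rw [this]
      exact hasSum_zero
    · have hq1 : ‖q‖ < 1 := by simpa using hq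
      have hqp : 0 < ‖q‖ := norm_pos_iff.mpr hq0
      have hpi : (2 * (π : ℂ) * I) ≠ 0 := by
        simp [Real.pi_ne_zero, I_ne_zero]
      set z : ℂ := Complex.log q / (2 * π * I) with hz
      have him : 0 < z.im := by
        have hl : Real.log ‖q‖ < 0 := Real.log_neg hqp hq1
        have e : z = -(Complex.log q * I) / ((2 * π : ℝ) : ℂ) := by
          rw [hz]
          have : (π : ℂ) ≠ 0 := by exact_mod_cast Real.pi_ne_zero
          push_cast
          field_simp
          rw [I_sq]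
          ring
        rw [e, Complex.div_ofReal_im]
        have : (-(Complex.log q * I)).im = -Real.log ‖q‖ := by
          simp [Complex.log_re]
        rw [this]
        have := Real.pi_pos
        apply div_pos <;> linarith
      have H1 := H z him
      rw [h0] at H1
      simp only [Pi.zero_apply] at H1
      refine cg (H1) fun n => ?_
      have : 2 * (π : ℂ) * I * n * z = n * Complex.log q := by
        rw [hz]
        field_simp
      rw [this, Complex.exp_nat_mul, Complex.exp_log hq0, mul_comm]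
  have h2 := key.eq_zero
  funext n
  have h3 : (FormalMultilinearSeries.ofScalars ℂ a).coeff n = a n := by
    simp
  rw [← h3, h2]
  simp [FormalMultilinearSeries.coeff]

theorem rootSum (l n : ℕ) (hl : 0 < l) :
    ∑ j ∈ Finset.range l, cexp (2 * π * I * n * (j / l)) = if l ∣ n then (l : ℂ) else 0 := by
  have hζ := Complex.isPrimitiveRoot_exp l hl.ne'
  have hl' : (l : ℂ) ≠ 0 := by exact_mod_cast hl.ne'
  have e : ∀ j : ℕ, cexp (2 * π * I * n * (j / l)) = (cexp (2 * π * I / l) ^ n) ^ j := by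
    intro j
    rw [← pow_mul, ← Complex.exp_nat_mul]
    congr 1
    push_cast
    field_simp
  simp only [e]
  split_ifs with hd
  · rw [(hζ.pow_eq_one_iff_dvd n).mpr hd]
    simp
  · have h1 : cexp (2 * π * I / l) ^ n ≠ 1 := fun h => hd ((hζ.pow_eq_one_iff_dvd n).mp h)
    rw [geom_sum_eq h1, ← pow_mul, mul_comm n l, pow_mul, hζ.pow_eq_one]
    simp

theorem up (l : ℕ) (hl : 0 < l) (h : ℂ → ℂ) (a : ℕ → ℂ) (H : QE h a) (z : ℂ) (hz : 0 < z.im) :
    HasSum (fun n : ℕ => (if l ∣ n then a (n / l) else 0) * cexp (2 * π * I * n * z))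
      (h (l * z)) := by
  have him : 0 < ((l : ℂ) * z).im := by
    have : (0 : ℝ) < l := by exact_mod_cast hl
    simpa using mul_pos this hz
  have H1 := H.2 _ him
  have hi : Function.Injective fun n : ℕ => l * n := fun x y hxy =>
    Nat.eq_of_mul_eq_mul_left hl hxy
  rw [← hi.hasSum_iff]
  · refine cg (H1) fun n => ?_
    simp only [Function.comp, Nat.dvd_mul_right, if_true, Nat.mul_div_cancel_left n hl]
    congr 2
    push_cast
    ring
  · intro x hx
    rw [if_neg, zero_mul]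
    rintro ⟨y, rfl⟩
    exact hx ⟨y, rfl⟩

theorem down (l : ℕ) (hl : 0 < l) (h : ℂ → ℂ) (a : ℕ → ℂ) (H : QE h a) (z : ℂ) (hz : 0 < z.im) :
    HasSum (fun n : ℕ => (l : ℂ) * a (l * n) * cexp (2 * π * I * n * z))
      (∑ j ∈ Finset.range l, h ((z + j) / l)) := by
  have hl' : (l : ℂ) ≠ 0 := by exact_mod_cast hl.ne'
  have him : ∀ j : ℕ, 0 < ((z + j) / (l : ℂ)).im := by
    intro j
    have : (0 : ℝ) < l := by exact_mod_cast hl
    rw [Complex.div_natCast_im]
    simpa using div_pos hz this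
  have H1 := hasSum_sum (s := Finset.range l) fun j _ => H.2 _ (him j)
  have e : ∀ n : ℕ, ∑ j ∈ Finset.range l, a n * cexp (2 * π * I * n * ((z + j) / l)) =
      a n * cexp (2 * π * I * n * (z / l)) * if l ∣ n then (l : ℂ) else 0 := by
    intro n
    rw [← rootSum l n hl, Finset.mul_sum]
    refine Finset.sum_congr rfl fun j _ => ?_
    rw [mul_assoc (a n), ← Complex.exp_add]
    congr 2
    ring
  simp only [e] at H1
  have hi : Function.Injective fun n : ℕ => l * n := fun x y hxy =>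
    Nat.eq_of_mul_eq_mul_left hl hxy
  rw [← hi.hasSum_iff] at H1
  · refine cg (H1) fun n => ?_
    simp only [Function.comp, Nat.dvd_mul_right, if_true]
    have : 2 * (π : ℂ) * I * (l * n : ℕ) * (z / l) = 2 * π * I * n * z := by
      push_cast
      field_simp
    rw [this]
    ring
  · intro x hx
    rw [if_neg, mul_zero]
    rintro ⟨y, rfl⟩
    exact hx ⟨y, rfl⟩

theorem hecke (k l : ℕ) (h : ℂ → ℂ) (a : ℕ → ℂ) (c : ℂ) (hk : 1 ≤ k) (hp : l.Prime) (hc : Cu k h)
    (H : QE h a) (hr : ∀ n : ℕ, 1 ≤ n →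
      a (l * n) + (l : ℂ) ^ (2 * k - 1) * (if l ∣ n then a (n / l) else 0) = c * a n) :
    sl k (l, 0, 0, 1) h + ∑ j ∈ Finset.range l, sl k (1, j, 0, l) h =
      (c / (l : ℂ) ^ (k - 1)) • h := by
  have hl : 0 < l := hp.pos
  have hl' : (l : ℂ) ≠ 0 := by exact_mod_cast hl.ne'
  obtain ⟨m, rfl⟩ : ∃ m, k = m + 1 := ⟨k - 1, by omega⟩
  funext z
  simp only [Pi.add_apply, Finset.sum_apply, Pi.smul_apply, smul_eq_mul]
  by_cases hz : 0 < z.im
  · have e1 : sl (m + 1) (l, 0, 0, 1) h z = (l : ℂ) ^ (m + 1) * h (l * z) := by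
      simp [sl, hz, det]
    have e2 : ∀ j : ℕ, sl (m + 1) (1, j, 0, l) h z =
        ((l : ℂ) ^ (m + 1))⁻¹ * h ((z + j) / l) := by
      intro j
      simp only [sl, hz, det, if_true]
      push_cast
      simp only [one_mul, mul_zero, sub_zero, zero_mul, zero_add]
      congr 1
      field_simp
      ring
    rw [e1]
    simp only [e2]
    rw [← Finset.mul_sum]
    have A := ((up l hl h a H z hz).mul_left ((l : ℂ) ^ (m + 1))).add
      ((down l hl h a H z hz).mul_left ((l : ℂ) ^ (m + 1))⁻¹)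
    have B := (H.2 z hz).mul_left (c / (l : ℂ) ^ (m + 1 - 1))
    refine A.unique ?_
    refine cg (B) fun n => ?_
    have hn : a (l * n) + (l : ℂ) ^ (2 * m + 1) * (if l ∣ n then a (n / l) else 0) = c * a n := by
      rcases Nat.eq_zero_or_pos n with rfl | hn
      · simp [H.1]
      · have := hr n hn
        rwa [show 2 * (m + 1) - 1 = 2 * m + 1 by omega] at this
    rw [Nat.add_sub_cancel]
    generalize (if l ∣ n then a (n / l) else 0) = t at hn ⊢
    generalize cexp (2 * π * I * n * z) = E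
    have : c / (l : ℂ) ^ m * (a n * E) = c * a n * E / (l : ℂ) ^ m := by ring
    rw [this, ← hn]
    field_simp
    ring
  · simp [sl, hz, hc.zero z (not_lt.mp hz)]

theorem shift (CU : RowCU) (k r : ℕ) (F : Af) (hF : Aut k r F) (j : ℤ) (z : ℂ) (hz : 0 < z.im) :
    F (e2 + ((j : ℚ) / 3) • e1) e1 z = F e2 e1 (z - j / 3) := by
  have A := hF.inv (3, -j, 0, 3) 2 (by simp [det]) (e2 + ((j : ℚ) / 3) • e1) e1
  have B := hF.inv (3, 0, 0, 3) 2 (by simp [det]) e2 e1
  rw [CU.sc k 3 _ (by norm_num) (hF.cu _ _)] at B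
  have a1 : ap (3, -j, 0, 3) (e2 + ((j : ℚ) / 3) • e1) = ap (3, 0, 0, 3) e2 := by
    simp only [ap, e1, e2]
    ext
    · simp
      ring
    · simp
  have a2 : ap (3, -j, 0, 3) e1 = ap (3, 0, 0, 3) e1 := by
    simp [ap, e1]
  rw [← A, a1, a2, B]
  simp only [sl, hz, det, if_true]
  push_cast
  have : (9 - -(j : ℂ) * 0) ^ k / (0 * z + 3) ^ (2 * k) = 1 := by
    rw [pow_mul]
    norm_num
  rw [this, one_mul]
  congr 1
  ring

theorem om1 : cexp (2 * π * I / 3) = -1 / 2 + (√3 : ℝ) / 2 * I := by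
  have e : 2 * (π : ℂ) * I / 3 = ((π - π / 3 : ℝ) : ℂ) * I := by
    push_cast
    ring
  rw [e, Complex.exp_mul_I, ← Complex.ofReal_cos, ← Complex.ofReal_sin, Real.cos_pi_sub,
    Real.sin_pi_sub, Real.cos_pi_div_three, Real.sin_pi_div_three]
  push_cast
  ring

theorem om2 : cexp (-(2 * π * I / 3)) = -1 / 2 - (√3 : ℝ) / 2 * I := by
  have e : -(2 * (π : ℂ) * I / 3) = ((-(π - π / 3) : ℝ) : ℂ) * I := by
    push_cast
    ring
  rw [e, Complex.exp_mul_I, ← Complex.ofReal_cos, ← Complex.ofReal_sin, Real.cos_neg, Real.sin_neg,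
    Real.cos_pi_sub, Real.sin_pi_sub, Real.cos_pi_div_three, Real.sin_pi_div_three]
  push_cast
  ring

theorem cube (n : ℕ) :
    1 + cexp (-(2 * π * I / 3)) ^ n + cexp (2 * π * I / 3) ^ n = (if 3 ∣ n then 3 else 0) ∧
    cexp (2 * π * I / 3) ^ n - cexp (-(2 * π * I / 3)) ^ n = I * (√3 : ℝ) * J(n | 3) := by
  have c1 : cexp (2 * π * I / 3) ^ 3 = 1 := by
    have := (Complex.isPrimitiveRoot_exp 3 (by norm_num)).pow_eq_one
    simpa using this
  have c2 : cexp (-(2 * π * I / 3)) ^ 3 = 1 := by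
    rw [Complex.exp_neg, inv_pow, c1, inv_one]
  have s3 : ((√3 : ℝ) : ℂ) ^ 2 = 3 := by
    rw [← Complex.ofReal_pow, Real.sq_sqrt (by norm_num)]
    norm_num
  have hJ : J((n : ℤ) | 3) = J(((n % 3 : ℕ) : ℤ) | 3) := by
    rw [jacobiSym.mod_left]
    push_cast
    rfl
  rw [hJ, pow_eq_pow_mod n c1, pow_eq_pow_mod n c2, om1, om2]
  have hm : n % 3 = 0 ∨ n % 3 = 1 ∨ n % 3 = 2 := by omega
  rcases hm with hm | hm | hm
  · rw [hm, if_pos (Nat.dvd_of_mod_eq_zero hm)]
    norm_num
  · rw [hm, if_neg (by omega)]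
    constructor
    · ring
    · norm_num
      ring
  · rw [hm, if_neg (by omega)]
    have j2 : J(((2 : ℕ) : ℤ) | 3) = -1 := by norm_num
    rw [j2]
    constructor
    · linear_combination (1 / 2 * I ^ 2) * s3 + (3 / 2) * I_sq
    · push_cast
      ring

theorem omN (OM : RowOM) : om (dt e2 e1) = -1 := by
  have e : dt e2 e1 = -1 := by simp [dt, e1, e2]
  have hu : Un (-1) := by
    refine ⟨?_, ?_⟩
    · simp [In]
    · simp
  rw [e, OM.2.2.1 _ hu, chi, if_neg, if_neg]
  · simp only [In]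
    norm_num
  · simp only [In]
    norm_num

theorem loc (OM : RowOM) (CU : RowCU) (k r : ℕ) (F : Af) (a : ℕ → ℂ) (hF : Aut k r F)
    (H : QE (F e2 e1) a) :
    QE (dep F e2 e1) (a3 a) ∧ QE (tw F e2 e1) fun n => I * (√3 : ℝ) * (a n * J(n | 3)) := by
  have P : ∀ z : ℂ, 0 < z.im → HasSum
      (fun n : ℕ => a n * cexp (2 * π * I * n * z) * cexp (-(2 * π * I / 3)) ^ n)
      (F (e2 + (1 / 3 : ℚ) • e1) e1 z) := by
    intro z hz
    have s := shift CU k r F hF 1 z hz
    push_cast at s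
    rw [s]
    have him : 0 < (z - 1 / 3).im := by simpa using hz
    refine cg (H.2 _ him) fun n => ?_
    rw [mul_assoc (a n), ← Complex.exp_nat_mul, ← Complex.exp_add]
    congr 2
    ring
  have M : ∀ z : ℂ, 0 < z.im → HasSum
      (fun n : ℕ => a n * cexp (2 * π * I * n * z) * cexp (2 * π * I / 3) ^ n)
      (F (e2 - (1 / 3 : ℚ) • e1) e1 z) := by
    intro z hz
    have s := shift CU k r F hF (-1) z hz
    have e : e2 - (1 / 3 : ℚ) • e1 = e2 + (((-1 : ℤ) : ℚ) / 3) • e1 := by
      push_cast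
      rw [sub_eq_add_neg, ← neg_smul]
      norm_num
    rw [e, s]
    have him : 0 < (z - ((-1 : ℤ) : ℂ) / 3).im := by simpa using hz
    refine cg (H.2 _ him) fun n => ?_
    rw [mul_assoc (a n), ← Complex.exp_nat_mul, ← Complex.exp_add]
    congr 2
    push_cast
    ring
  refine ⟨⟨by simp [a3], fun z hz => ?_⟩, ⟨by simp [H.1], fun z hz => ?_⟩⟩
  · have A := (H.2 z hz).sub ((((H.2 z hz).add (P z hz)).add (M z hz)).mul_left (1 / 3))
    have e : dep F e2 e1 z = F e2 e1 z - 1 / 3 * (F e2 e1 z + F (e2 + (1 / 3 : ℚ) • e1) e1 z +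
        F (e2 - (1 / 3 : ℚ) • e1) e1 z) := by
      simp only [dep, Pi.sub_apply, Pi.smul_apply, Pi.add_apply, Rat.smul_def]
      push_cast
      ring
    rw [e]
    refine cg (A) fun n => ?_
    have c := (cube n).1
    simp only [a3]
    split_ifs at c ⊢
    · linear_combination (1 / 3 * a n * cexp (2 * π * I * n * z)) * c
    · linear_combination (1 / 3 * a n * cexp (2 * π * I * n * z)) * c
  · have A := (M z hz).sub (P z hz)
    have e : tw F e2 e1 z =
        F (e2 - (1 / 3 : ℚ) • e1) e1 z - F (e2 + (1 / 3 : ℚ) • e1) e1 z := by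
      simp only [tw, omN OM, Pi.sub_apply, Pi.smul_apply, Rat.smul_def]
      push_cast
      ring
    rw [e]
    refine cg (A) fun n => ?_
    linear_combination (-(a n * cexp (2 * π * I * n * z))) * (cube n).2

end QEA

theorem rowQE : OfQE := fun _ OM CU =>
  { uniq := QEA.uniq
    hecke := QEA.hecke
    loc := QEA.loc OM CU }

end Pool.Agent.MP_5f72fe_nt.MS
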