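import Pool.Agent.MP_5f72fe_nt.MS.S2
import Pool.Agent.MP_5f72fe_nt.MS.DGM

/-! A coboundary modulo every power of `3` kills all rectangles. -/

namespace Pool.Agent.MP_5f72fe_nt.MS

namespace RECTA

open DGMA

section
variable (hB : RowBAS)
include hB

theorem un_one : Un 1 := by
  have := (hB.int 1).2.2 (by norm_num)
  exact_mod_cast this

theorem in_zero : In 0 := by exact_mod_cast in_nat hB 0

theorem in_p3 (k : ℕ) : In (3 ^ k) := in_pow hB (in_three hB) k

theorem in_int (n : ℤ) : In n := by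
  obtain ⟨O, hO⟩ := hB.ring
  exact (hO _).1 (intCast_mem O n)

theorem in_fsum {ι : Type} [Fintype ι] {f : ι → ℚ} (h : ∀ i, In (f i)) : In (∑ i, f i) := by
  obtain ⟨O, hO⟩ := hB.ring
  exact (hO _).1 (O.sum_mem fun i _ => (hO _).2 (h i))

theorem common {ι : Type} [Fintype ι] (c : ι → ℚ) : ∃ E : ℕ, ∀ i, In (3 ^ E * c i) := by
  choose e he using fun i => hB.big (c i)
  refine ⟨∑ i, e i, fun i => ?_⟩
  obtain ⟨k, hk⟩ := Nat.exists_eq_add_of_le
    (Finset.single_le_sum (f := e) (fun j _ => Nat.zero_le _) (Finset.mem_univ i))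
  rw [hk, pow_add, mul_comm (3 ^ e i), mul_assoc]
  exact in_mul hB (in_p3 hB k) (he i)

/-- large scales -/
theorem big {n : ℕ} {Z : V → V → ℚ} (hZ : RK n Z) (v w : V) {a b s c : ℚ} (hb : In b)
    (hu : Un (1 - a * b)) (hc : In c) (hs : s = 3 ^ n * c) :
    Z (v + a • w) (s • (w + b • v)) = Z (v + a • w) (s • w) := by
  rw [← hZ (v + a • w) (s • w) 1 (1 - a * b) 0 (c * b) (un_one hB) hu (in_zero hB)
    (in_mul hB hc hb)]
  congr 1
  · module
  · rw [← mul_assoc, ← hs]
    module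

/-- small scales -/
theorem small {n : ℕ} {Z : V → V → ℚ} (hZ : RK n Z) (v w : V) {a b s c : ℚ} (ha : In a)
    (hu : Un (1 - a * b)) (hc : In c) (hs : 3 ^ n * c * s = 1) :
    Z (v + a • w) (s • (w + b • v)) = Z v (s • (w + b • v)) := by
  rw [← hZ v (s • (w + b • v)) (1 - a * b) 1 (c * a) 0 hu (un_one hB) (in_mul hB hc ha)
    (in_zero hB)]
  congr 1
  · rw [smul_smul, show 3 ^ n * (c * a) * s = 3 ^ n * c * s * a by ring, hs]
    module
  · module

/-- moving the corners a little -/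
theorem mid {n : ℕ} {Z : V → V → ℚ} (hZ : RK n Z) (v w : V) {a b s c c' δ δ' : ℚ} (ha : In a)
    (hb : In b) (hu : Un (1 - a * b)) (hc : In c) (hc' : In c') (hδ : In (δ / 3))
    (hδ' : In (δ' / 3)) (h1 : δ = 3 ^ n * c * s) (h2 : s * δ' = 3 ^ n * c') :
    Z (v + (a + δ) • w) (s • (w + (b + δ') • v)) = Z (v + a • w) (s • (w + b • v)) := by
  have hD := un_ne hB hu
  have u1 := hB.unAdd 1 _ (un_one hB) (hB.div _ _ (in_neg hB (in_mul hB hδ hb)) hu)
  have u2 := hB.unAdd 1 _ (un_one hB) (hB.div _ _ (in_neg hB (in_mul hB hδ' ha)) hu)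
  rw [← hZ (v + a • w) (s • (w + b • v)) _ _ _ _ u1 u2 (hB.div _ _ hc hu) (hB.div _ _ hc' hu)]
  have e1 : 3 ^ n * (c / (1 - a * b)) * s = δ / (1 - a * b) := by rw [h1]; ring
  have e2 : 3 ^ n * (c' / (1 - a * b)) = s * δ' / (1 - a * b) := by rw [h2]; ring
  congr 1
  · rw [smul_smul, e1]
    match_scalars <;> field_simp <;> ring
  · rw [e2]
    have hD' : 1 - b * a ≠ 0 := by rwa [mul_comm]
    match_scalars <;> field_simp <;> ring

end

/-- the sign of a corner -/
def sg2 (s : Bool) : ℚ := if s then -1 else 1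

/-- the parameter of a node -/
def par (α : ℚ) (E : ℕ) {m : ℕ} (i : Bool × Fin (m + 1)) : ℚ :=
  (if i.1 then α else 0) + 3 ^ E * (i.2 : ℕ)

theorem dt_node (v w : V) (a b : ℚ) : dt (v + a • w) (v + b • w) = (b - a) * dt v w := by
  simp only [dt, Prod.fst_add, Prod.snd_add, Prod.smul_fst, Prod.smul_snd, smul_eq_mul]
  ring

theorem dt_pair (v w : V) (a b : ℚ) : dt (v + a • w) (w + b • v) = (1 - a * b) * dt v w := by
  simp only [dt, Prod.fst_add, Prod.snd_add, Prod.smul_fst, Prod.smul_snd, smul_eq_mul]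
  ring

theorem dt_smul (v w : V) (s : ℚ) : dt v (s • w) = s * dt v w := by
  simp only [dt, Prod.smul_fst, Prod.smul_snd, smul_eq_mul]
  ring

theorem dt_swap (v w : V) : dt w v = -dt v w := by
  simp only [dt]
  ring

/-- weights of the nodes -/
theorem weights (hI : RowINT) (m E : ℕ) (α : ℚ) (v w x : V) (h : dt v w ≠ 0) :
    ∃ l : Bool × Fin (m + 1) → ℚ, ∀ (P : V → ℚ), Hp m P → ∀ s : Bool,
      ∑ a, l (s, a) * P (v + par α E (s, a) • w) = sg2 s * P x := by
  have h1 : ∀ s : Bool, ∃ l : Fin (m + 1) → ℚ, ∀ (P : V → ℚ), Hp m P →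
      P x = ∑ a, l a • P (v + par α E (s, a) • w) := by
    intro s
    obtain ⟨l, hl⟩ := hI.int m (fun a => v + par α E (s, a) • w) x (fun a b hab => by
      rw [dt_node]
      refine mul_ne_zero (fun h0 => hab ?_) h
      simp only [par, add_sub_add_left_eq_sub, ← mul_sub, mul_eq_zero, pow_eq_zero_iff',
        OfNat.ofNat_ne_zero, false_and, false_or, sub_eq_zero, Nat.cast_inj] at h0
      exact (Fin.ext h0).symm)
    exact ⟨l, hl ℚ⟩
  choose l hl using h1
  refine ⟨fun i => sg2 i.1 * l i.1 i.2, fun P hP s => ?_⟩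
  rw [hl s P hP, Finset.mul_sum]
  exact Finset.sum_congr rfl fun a _ => by rw [smul_eq_mul, mul_assoc]

theorem kill {m : ℕ} {l : Bool × Fin (m + 1) → ℚ} {X : Bool × Fin (m + 1) → V} {x : V}
    (hl : ∀ (P : V → ℚ), Hp m P → ∀ s : Bool, ∑ a, l (s, a) * P (X (s, a)) = sg2 s * P x)
    {P : V → ℚ} (hP : Hp m P) : ∑ i, l i * P (X i) = 0 := by
  rw [Fintype.sum_prod_type, Fintype.sum_bool, hl P hP, hl P hP]
  simp [sg2]

theorem tel (τ : ℚ) (z : ℕ → ℚ) (K : ℕ) :
    ∑ i ∈ Finset.range K, τ ^ i * (z i - τ * z (i + 1)) = z 0 - τ ^ K * z K := by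
  induction K with
  | zero => simp
  | succ K ih => rw [Finset.sum_range_succ, ih]; ring

end RECTA

open RECTA DGMA

theorem rowRECT : OfRECT := by
  intro hB hI τ m n e B hτ _ hRK hP1 hP2 hC M x y hM v w α β hvw hα hβ hu
  have hwv : dt w v ≠ 0 := by rw [dt_swap]; exact neg_ne_zero.2 hvw
  obtain ⟨l, hl⟩ := weights hI m (n + M + 1) α v w x hvw
  obtain ⟨k, hk⟩ := weights hI m (n + M + 1) β w v y hwv
  have hc0 : ∀ (γ : ℚ), In γ → ∀ s : Bool, In (if s then γ else 0) := fun γ hγ s => by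
    split_ifs
    · exact hγ
    · exact in_zero hB
  have hδ : ∀ a : ℕ, In (3 ^ (n + M + 1) * (a : ℚ) / 3) := fun a => by
    rw [show 3 ^ (n + M + 1) * (a : ℚ) / 3 = 3 ^ (n + M) * a by ring]
    exact in_mul hB (in_p3 hB _) (in_nat hB a)
  have hpar : ∀ (γ : ℚ), In γ → ∀ i : Bool × Fin (m + 1), In (par γ (n + M + 1) i) :=
    fun γ hγ i => in_add hB (hc0 γ hγ _) (in_mul hB (in_p3 hB _) (in_nat hB _))
  have hu0 : ∀ s t : Bool, Un (1 - (if s then α else 0) * if t then β else 0) := by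
    intro s t
    cases s <;> cases t <;> simp [hu, un_one hB]
  have hu1 : ∀ i j : Bool × Fin (m + 1),
      Un (1 - par α (n + M + 1) i * par β (n + M + 1) j) := by
    intro i j
    have := hB.unAdd _ _ (hu0 i.1 j.1) (in_neg hB (in_add hB
      (in_mul hB (hδ i.2) (hpar β hβ j)) (in_mul hB (hc0 α hα i.1) (hδ j.2))))
    rwa [show (1 - (if i.1 then α else 0) * if j.1 then β else 0) + 3 *
      -(3 ^ (n + M + 1) * ((i.2 : ℕ) : ℚ) / 3 * par β (n + M + 1) j +
        (if i.1 then α else 0) * (3 ^ (n + M + 1) * ((j.2 : ℕ) : ℚ) / 3)) =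
      1 - par α (n + M + 1) i * par β (n + M + 1) j by simp only [par]; ring] at this
  set X : Bool × Fin (m + 1) → V := fun i => v + par α (n + M + 1) i • w with hX
  set Y : Bool × Fin (m + 1) → V := fun j => w + par β (n + M + 1) j • v with hY
  have hdt : ∀ i j, dt (X i) (Y j) ≠ 0 := fun i j => by
    simp only [hX, hY, dt_pair]
    exact mul_ne_zero (un_ne hB (hu1 i j)) hvw
  -- the functional kills large and small scales
  have killY : ∀ (G : V → V → ℚ) (P : Bool × Fin (m + 1) → V → ℚ), (∀ i, Hp m (P i)) →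
      (∀ i j, G (X i) (Y j) = P i (Y j)) → ∑ i, ∑ j, l i * k j * G (X i) (Y j) = 0 := by
    intro G P hP h
    refine Finset.sum_eq_zero fun i _ => ?_
    simp only [h, mul_assoc, ← Finset.mul_sum]
    rw [kill (X := Y) hk (hP i), mul_zero]
  have killX : ∀ (G : V → V → ℚ) (P : Bool × Fin (m + 1) → V → ℚ), (∀ j, Hp m (P j)) →
      (∀ i j, G (X i) (Y j) = P j (X i)) → ∑ i, ∑ j, l i * k j * G (X i) (Y j) = 0 := by
    intro G P hP h
    rw [Finset.sum_comm]
    refine Finset.sum_eq_zero fun j _ => ?_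
    simp only [h, mul_comm (l _) (k j), mul_assoc, ← Finset.mul_sum]
    rw [kill (X := X) hl (hP j), mul_zero]
  have hmid : ∀ i, i < 2 * M + 1 →
      ∑ a, ∑ b, l a * k b * B (X a) (((3 : ℚ) ^ i / 3 ^ M) • Y b) (X a) (Y b) =
        Rc (fun v w => B v w x y) (3 ^ i / 3 ^ M) v w α β := by
    intro i hi
    have h1 : ∀ a b, B (X a) (((3 : ℚ) ^ i / 3 ^ M) • Y b) (X a) (Y b) =
        B (v + (if a.1 then α else 0) • w)
          (((3 : ℚ) ^ i / 3 ^ M) • (w + (if b.1 then β else 0) • v)) (X a) (Y b) := by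
      intro a b
      obtain ⟨r, hr⟩ := Nat.exists_eq_add_of_le hi.le
      refine mid hB (hRK (X a) (Y b)) v w (c := 3 ^ r * (a.2 : ℕ))
        (c' := 3 ^ (i + 1) * (b.2 : ℕ)) (hc0 α hα _) (hc0 β hβ _) (hu0 _ _)
        (in_mul hB (in_p3 hB _) (in_nat hB _)) (in_mul hB (in_p3 hB _) (in_nat hB _))
        (hδ _) (hδ _) ?_ ?_
      · have : (3 : ℚ) ^ i * 3 ^ r = 3 ^ M * 3 ^ M * 3 := by
          rw [← pow_add, ← hr]
          ring
        field_simp
        linear_combination (-(3 ^ n * ((a.2 : ℕ) : ℚ))) * this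
      · field_simp
        ring
    have h2 : ∀ (s t : Bool) (c c' : V), ∑ a, ∑ b, l (s, a) * k (t, b) *
        B c c' (X (s, a)) (Y (t, b)) = sg2 s * (sg2 t * B c c' x y) := by
      intro s t c c'
      simp only [mul_assoc, ← Finset.mul_sum]
      simp only [hY, hk _ (hP2 c c' _) t, mul_left_comm (l _) (sg2 t), ← Finset.mul_sum]
      rw [hl _ (hP1 c c' y) s]
      ring
    simp only [h1]
    simp only [Fintype.sum_prod_type, Fintype.sum_bool, Finset.sum_add_distrib,
      Bool.false_eq_true, ↓reduceIte, zero_smul, add_zero]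
    rw [h2, h2, h2, h2]
    simp only [sg2, Rc, Bool.false_eq_true, ↓reduceIte]
    ring
  have hlin : ∀ (r : ℚ) (P : V → ℚ), Hp m P → Hp m fun z => P z * r := by
    intro r P hP
    obtain ⟨S, hS⟩ := hI.sub ℚ m
    have := (hS _).1 (S.smul_mem r ((hS _).2 hP))
    have e : (fun z => P z * r) = r • P := by
      funext z
      rw [Pi.smul_apply, smul_eq_mul, mul_comm]
    rw [e]
    exact this
  obtain ⟨E, hE⟩ := common hB fun p : (Bool × Fin (m + 1)) × (Bool × Fin (m + 1)) =>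
    l p.1 * k p.2 * dt (X p.1) (Y p.2) ^ m
  have key : ∀ j : ℕ, In (3 ^ E * 3 ^ e * (∑ i ∈ Finset.range (2 * M + 1),
      (τ : ℚ) ^ i * Rc (fun v w => B v w x y) (3 ^ i / 3 ^ M) v w α β) / 3 ^ j) := by
    intro j
    obtain ⟨d, Z, -, hZ, hf⟩ := hC j
    set sc : ℕ → ℚ := fun i => 3 ^ i / 3 ^ (M + d) with hsc
    set R : V → V → ℚ := fun v w =>
      (3 ^ e * ((dt v w)⁻¹ ^ m * B v w v w) - (Z v w - τ * Z v ((3 : ℚ) • w))) / 3 ^ j with hR
    have h1 : ∀ a b i, 3 ^ e * B (X a) (sc i • Y b) (X a) (Y b) = dt (X a) (Y b) ^ m *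
        (Z (X a) (sc i • Y b) - τ * Z (X a) (sc (i + 1) • Y b) + 3 ^ j * R (X a) (sc i • Y b)) := by
      intro a b i
      have e1 := (hI.hom ℚ m _ (hP2 (X a) (sc i • Y b) (X a))).1 (sc i) (Y b)
      have e2 : (3 : ℚ) • sc i • Y b = sc (i + 1) • Y b := by
        rw [smul_smul]
        congr 1
        simp only [hsc]
        ring
      have e3 : sc i ≠ 0 := by simp only [hsc]; positivity
      have e4 := hdt a b
      simp only [hR, e1, e2, dt_smul, smul_eq_mul, mul_inv, mul_pow, inv_pow]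
      field_simp
      ring
    have h2 : ∑ i ∈ Finset.range (d + (2 * M + 1) + d), (τ : ℚ) ^ i *
        ∑ a, ∑ b, l a * k b * B (X a) (sc i • Y b) (X a) (Y b) =
        (τ : ℚ) ^ d * ∑ i ∈ Finset.range (2 * M + 1),
          (τ : ℚ) ^ i * Rc (fun v w => B v w x y) (3 ^ i / 3 ^ M) v w α β := by
      rw [Finset.sum_range_add, Finset.sum_range_add, Finset.sum_eq_zero,
        Finset.sum_eq_zero (s := Finset.range d), zero_add, add_zero, Finset.mul_sum]
      · refine Finset.sum_congr rfl fun i hi => ?_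
        have e1 : sc (d + i) = 3 ^ i / 3 ^ M := by
          simp only [hsc]
          field_simp
          ring
        rw [e1, hmid i (Finset.mem_range.1 hi)]
        ring
      · intro i _
        obtain ⟨r, hr⟩ := Nat.exists_eq_add_of_le hM
        rw [killY (fun X Y => B X (sc (d + (2 * M + 1) + i) • Y) X Y)
          (fun a z => B (X a) (sc (d + (2 * M + 1) + i) • w) (X a) z) (fun a => hP2 _ _ _)
          (fun a b => big hB (hRK _ _) v w (c := 3 ^ (r + 1 + i)) (hpar β hβ b) (hu1 a b)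
            (in_p3 hB _) ?_), mul_zero]
        simp only [hsc, hr]
        field_simp
        ring
      · intro i hi
        obtain ⟨r, hr⟩ := Nat.exists_eq_add_of_le hM
        obtain ⟨r', hr'⟩ := Nat.exists_eq_add_of_le (Finset.mem_range.1 hi).le
        rw [killX (fun X Y => B X (sc i • Y) X Y)
          (fun b z => B v (sc i • Y b) z (Y b)) (fun b => hP1 _ _ _)
          (fun a b => small hB (hRK _ _) v w (c := 3 ^ (r + r')) (hpar α hα a) (hu1 a b)
            (in_p3 hB _) ?_), mul_zero]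
        simp only [hsc, hr, hr']
        field_simp
        ring
    have h3 : ∑ a, ∑ b, l a * k b * (dt (X a) (Y b) ^ m * Z (X a) (sc 0 • Y b)) = 0 := by
      refine killX (fun X Y => dt X Y ^ m * Z X (sc 0 • Y))
        (fun b z => dt z (Y b) ^ m * Z v (sc 0 • Y b)) (fun b => hlin _ _ (hI.lin m _).2)
        fun a b => congrArg _ (small hB hZ v w (c := 3 ^ M) (hpar α hα a) (hu1 a b) (in_p3 hB _) ?_)
      simp only [hsc]
      field_simp
      ring
    have h4 : ∑ a, ∑ b, l a * k b *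
        (dt (X a) (Y b) ^ m * Z (X a) (sc (d + (2 * M + 1) + d) • Y b)) = 0 := by
      refine killY (fun X Y => dt X Y ^ m * Z X (sc (d + (2 * M + 1) + d) • Y))
        (fun a z => dt (X a) z ^ m * Z (X a) (sc (d + (2 * M + 1) + d) • w))
        (fun a => hlin _ _ (hI.lin m _).1)
        fun a b => congrArg _ (big hB hZ v w (c := 3 ^ (M + 1)) (hpar β hβ b) (hu1 a b)
          (in_p3 hB _) ?_)
      simp only [hsc]
      field_simp
      ring
    have h5 : ∀ a b, ∑ i ∈ Finset.range (d + (2 * M + 1) + d), (τ : ℚ) ^ i *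
        (3 ^ e * B (X a) (sc i • Y b) (X a) (Y b)) = dt (X a) (Y b) ^ m * Z (X a) (sc 0 • Y b) -
          (τ : ℚ) ^ (d + (2 * M + 1) + d) *
            (dt (X a) (Y b) ^ m * Z (X a) (sc (d + (2 * M + 1) + d) • Y b)) +
          3 ^ j * (dt (X a) (Y b) ^ m * ∑ i ∈ Finset.range (d + (2 * M + 1) + d),
            (τ : ℚ) ^ i * R (X a) (sc i • Y b)) := by
      intro a b
      rw [mul_left_comm ((τ : ℚ) ^ _), ← mul_sub, ← tel τ (fun i => Z (X a) (sc i • Y b)),
        mul_left_comm, ← mul_add, Finset.mul_sum, ← Finset.sum_add_distrib, Finset.mul_sum]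
      refine Finset.sum_congr rfl fun i _ => ?_
      rw [h1]
      ring
    have h6 : 3 ^ e * ((τ : ℚ) ^ d * ∑ i ∈ Finset.range (2 * M + 1),
        (τ : ℚ) ^ i * Rc (fun v w => B v w x y) (3 ^ i / 3 ^ M) v w α β) =
        3 ^ j * ∑ a, ∑ b, l a * k b * dt (X a) (Y b) ^ m *
          ∑ i ∈ Finset.range (d + (2 * M + 1) + d), (τ : ℚ) ^ i * R (X a) (sc i • Y b) := by
      have e1 : 3 ^ e * ∑ i ∈ Finset.range (d + (2 * M + 1) + d), (τ : ℚ) ^ i *
          ∑ a, ∑ b, l a * k b * B (X a) (sc i • Y b) (X a) (Y b) =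
          ∑ a, ∑ b, l a * k b * ∑ i ∈ Finset.range (d + (2 * M + 1) + d), (τ : ℚ) ^ i *
            (3 ^ e * B (X a) (sc i • Y b) (X a) (Y b)) := by
        simp only [Finset.mul_sum]
        rw [Finset.sum_comm]
        refine Finset.sum_congr rfl fun a _ => ?_
        rw [Finset.sum_comm]
        exact Finset.sum_congr rfl fun b _ => Finset.sum_congr rfl fun i _ => by ring
      rw [← h2, e1]
      have e2 : ∀ c A t C D S : ℚ, c * (A - t * C + 3 ^ j * (D * S)) =
          c * A - t * (c * C) + 3 ^ j * (c * D * S) := fun _ _ _ _ _ _ => by ring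
      simp only [h5]
      simp only [e2]
      simp only [Finset.sum_add_distrib, Finset.sum_sub_distrib]
      rw [h3]
      simp only [← Finset.mul_sum (a := (τ : ℚ) ^ (d + (2 * M + 1) + d)),
        ← Finset.mul_sum (a := (3 : ℚ) ^ j)]
      rw [h4]
      ring
    have h7 : ((τ : ℚ) ^ d) * (τ : ℚ) ^ d = 1 := by
      rw [← mul_pow]
      rcases hτ with rfl | rfl <;> simp
    have h8 : In ((τ : ℚ) ^ d * ∑ a, ∑ b, 3 ^ E * (l a * k b * dt (X a) (Y b) ^ m) *
        ∑ i ∈ Finset.range (d + (2 * M + 1) + d), (τ : ℚ) ^ i * R (X a) (sc i • Y b)) :=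
      in_mul hB (in_pow hB (in_int hB τ) d) (in_fsum hB fun a => in_fsum hB fun b =>
        in_mul hB (hE (a, b)) (in_sum hB fun i _ =>
          in_mul hB (in_pow hB (in_int hB τ) i) (hf _ _).2))
    simp only [mul_assoc ((3 : ℚ) ^ E), ← Finset.mul_sum] at h8
    generalize (∑ a, ∑ b, l a * k b * dt (X a) (Y b) ^ m *
      ∑ i ∈ Finset.range (d + (2 * M + 1) + d), (τ : ℚ) ^ i * R (X a) (sc i • Y b)) = T at h6 h8
    generalize (∑ i ∈ Finset.range (2 * M + 1),
      (τ : ℚ) ^ i * Rc (fun v w => B v w x y) (3 ^ i / 3 ^ M) v w α β) = S at h6 ⊢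
    rwa [show 3 ^ E * 3 ^ e * S / 3 ^ j = (τ : ℚ) ^ d * (3 ^ E * T) by
      rw [div_eq_iff (by positivity)]
      linear_combination (3 ^ E * (τ : ℚ) ^ d) * h6 - (3 ^ E * 3 ^ e * S) * h7]
  have h9 := hB.sep _ key
  simp only [zsmul_eq_mul, Int.cast_pow]
  exact (mul_eq_zero.1 h9).resolve_left (by positivity)

end Pool.Agent.MP_5f72fe_nt.MS
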