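import Pool.Agent.MP_5f72fe_nt.MS.S1

/-! The relation operator lowers the degree by three; its top is `rgr`. -/

namespace Pool.Agent.MP_5f72fe_nt.MS

namespace RTA

def dd (g : Mt) : ℕ × ℕ × ℕ :=
  if g = (1, -1, 0, 1) then (8, 0, 0) else if g = (-2, 1, -3, 1) then (1, 8, 0)
  else if g = (1, 0, -3, 1) then (0, 8, 0) else if g = (1, -1, 3, -2) then (8, 4, 1)
  else if g = (-2, 1, 3, -2) then (7, 4, 1) else if g = (7, 1, 6, 1) then (1, 2, 0)
  else if g = (4, 5, 3, 4) then (5, 7, 2) else if g = (7, 2, 3, 1) then (2, 1, 0)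
  else if g = (1, 3, 0, 1) then (3, 0, 0) else if g = (1, 0, 6, 1) then (0, 2, 0)
  else if g = (1, 1, 3, 4) then (4, 7, 2) else if g = (4, 1, 3, 1) then (1, 1, 0)
  else if g = (1, 2, 0, 1) then (2, 0, 0) else (0, 0, 0)

def o3 : Op := [(-1, (7, 1, 6, 1)), (1, (4, 5, 3, 4)), (1, (7, 2, 3, 1)), (-1, (1, 3, 0, 1)),
  (1, (1, 0, 6, 1)), (-1, (1, 1, 3, 4)), (-1, (4, 1, 3, 1)), (1, (1, 2, 0, 1))]

instance (g : Mt) : Decidable (Deep g) := by unfold Deep; infer_instance

instance (g : Mt) : Decidable (G0 g) := by unfold G0; infer_instance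

theorem cert3 : Cert 3 rho := by
  refine ⟨dd, by decide, fun i j k h => ?_⟩
  have H : ∀ i < 3, ∀ j < 3, ∀ k < 2, i + j + 2 * k < 3 → (rho.map fun x => (x.1 : F3) *
      (((dd x.2).1.choose i * (dd x.2).2.1.choose j * (dd x.2).2.2.choose k : ℕ) : F3)).sum
        = 0 := by decide
  exact H i (by omega) j (by omega) k (by omega) h

theorem cert4 : Cert 4 (rho ++ o3) := by
  refine ⟨dd, by decide, fun i j k h => ?_⟩
  have H : ∀ i < 4, ∀ j < 4, ∀ k < 2, i + j + 2 * k < 4 → ((rho ++ o3).map fun x => (x.1 : F3) *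
      (((dd x.2).1.choose i * (dd x.2).2.1.choose j * (dd x.2).2.2.choose k : ℕ) : F3)).sum
        = 0 := by decide
  exact H i (by omega) j (by omega) k (by omega) h

theorem two (hM : RowMOB) (a : Ch F3) (g h : Mt) (hg : G0 g) (hh : G0 h) :
    EqO (act h (act g a)) (act (mul g h) a) := by
  intro u y hu hy
  simp only [act]
  rw [((hM.comp g h hg hh).2 u hu).1, ((hM.comp g h hg hh).2 y hy).2]

theorem three (hM : RowMOB) (a : Ch F3) (g h k : Mt) (hg : G0 g) (hh : G0 h) (hk : G0 k) :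
    EqO (act k (act h (act g a))) (act (mul (mul g h) k) a) := by
  intro u y hu hy
  rw [← two hM a (mul g h) k (hM.comp g h hg hh).1 hk u y hu hy]
  exact two hM a g h hg hh _ _ (hM.pres k hk u hu).1 (hM.pres k hk y hy).2.1

/-- the operator `E` -/
noncomputable def opE (a : Ch F3) : Ch F3 := act mT a - a

/-- the operator `F - E` -/
noncomputable def opG (a : Ch F3) : Ch F3 := act mL a - act mT a

theorem eqo (hM : RowMOB) (a : Ch F3) :
    EqO (app (rho ++ o3) a) (app rho a - opG (opG (opE a))) := by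
  intro u y hu hy
  have gT : G0 mT := by decide
  have gL : G0 mL := by decide
  have t1 := three hM a mT mL mL gT gL gL u y hu hy
  have t2 := three hM a mT mL mT gT gL gT u y hu hy
  have t3 := three hM a mT mT mL gT gT gL u y hu hy
  have t4 := three hM a mT mT mT gT gT gT u y hu hy
  have t5 := two hM a mL mL gL gL u y hu hy
  have t6 := two hM a mL mT gL gT u y hu hy
  have t7 := two hM a mT mL gT gL u y hu hy
  have t8 := two hM a mT mT gT gT u y hu hy
  rw [show mul (mul mT mL) mL = (7, 1, 6, 1) by decide] at t1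
  rw [show mul (mul mT mL) mT = (4, 5, 3, 4) by decide] at t2
  rw [show mul (mul mT mT) mL = (7, 2, 3, 1) by decide] at t3
  rw [show mul (mul mT mT) mT = (1, 3, 0, 1) by decide] at t4
  rw [show mul mL mL = (1, 0, 6, 1) by decide] at t5
  rw [show mul mL mT = (1, 1, 3, 4) by decide] at t6
  rw [show mul mT mL = (4, 1, 3, 1) by decide] at t7
  rw [show mul mT mT = (1, 2, 0, 1) by decide] at t8
  have e1 : app (rho ++ o3) a = app rho a + app o3 a := by
    simp only [app, List.map_append, List.sum_append]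
  have e2 : app o3 a u y = -act (7, 1, 6, 1) a u y + act (4, 5, 3, 4) a u y +
      act (7, 2, 3, 1) a u y - act (1, 3, 0, 1) a u y + act (1, 0, 6, 1) a u y -
      act (1, 1, 3, 4) a u y - act (4, 1, 3, 1) a u y + act (1, 2, 0, 1) a u y := by
    simp only [app, o3, List.map_cons, List.map_nil, List.sum_cons, List.sum_nil, Pi.add_apply,
      neg_smul, one_smul, Pi.neg_apply, add_zero]
    ring
  have e3 : opG (opG (opE a)) u y = act mL (act mL (act mT a)) u y - act mL (act mL a) u y -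
      (act mL (act mT (act mT a)) u y - act mL (act mT a) u y) -
      (act mT (act mL (act mT a)) u y - act mT (act mL a) u y -
      (act mT (act mT (act mT a)) u y - act mT (act mT a) u y)) := rfl
  rw [e1, Pi.add_apply, Pi.add_apply, Pi.sub_apply, Pi.sub_apply, e2, e3, t1, t2, t3, t4, t5, t6,
    t7, t8]
  ring

theorem upMono {i j n i' j' n' : ℕ} {c : Ar} (h : Up i j n c) (hi : i ≤ i') (hj : j ≤ j')
    (hn : n ≤ n') : Up i' j' n' c :=
  fun p q hp hq hpq => h p q (hi.trans hp) (hj.trans hq) (hn.trans hpq)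

theorem coSub (hN : RowN2) (a b : Ch F3) : co (a - b) = co a - co b := by
  obtain ⟨C, hC⟩ := hN.lin
  rw [← hC, ← hC, ← hC, map_sub]

theorem lcSub (hM : RowMOB) (a b : Ch F3) (ha : LC2 a) (hb : LC2 b) : LC2 (a - b) := by
  obtain ⟨M, h⟩ := hM.grp F3
  exact (h _).1 (M.sub_mem ((h _).2 ha) ((h _).2 hb))

theorem lcE (hM : RowMOB) (a : Ch F3) (ha : LC2 a) : LC2 (opE a) :=
  lcSub hM _ _ ((hM.lc F3 a ha).1 mT (by decide)) ha

theorem lcG (hM : RowMOB) (a : Ch F3) (ha : LC2 a) : LC2 (opG a) :=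
  lcSub hM _ _ ((hM.lc F3 a ha).1 mL (by decide)) ((hM.lc F3 a ha).1 mT (by decide))

theorem coG (hN : RowN2) (a : Ch F3) :
    co (opG a) = co (act mL a - a) - co (act mT a - a) := by
  rw [← coSub hN]
  congr 1
  unfold opG
  abel

theorem upG (hN : RowN2) (hA : RowACT) (a : Ch F3) (ha : LC2 a) (i j n : ℕ)
    (h : Up i j (n + 1) (co a)) : Up i j n (co (opG a)) := by
  intro p q hp hq hn
  rw [coG hN, Pi.sub_apply, Pi.sub_apply,
    hA.dr1 mL (by decide) (by decide) a i j n ha h p q hp hq hn,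
    hA.dr1 mT (by decide) (by decide) a i j n ha h p q hp hq hn, sub_zero]

/-- the top of `F - E` -/
def ggr (c : Ar) : Ar := fun i j =>
  (if j % 3 = 2 then 0 else c i (j + 1)) - if i % 3 = 2 then 0 else c (i + 1) j

theorem topG (hN : RowN2) (hA : RowACT) (a : Ch F3) (ha : LC2 a) (i j : ℕ)
    (h : Up i j (i + j + 2) (co a)) : co (opG a) i j = ggr (co a) i j := by
  rw [coG hN, Pi.sub_apply, Pi.sub_apply, hA.topL a i j ha h, hA.topT a i j ha h]
  unfold fgr egr ggr
  split_ifs <;> ring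

theorem ggrCongr (c c' : Ar) (i j : ℕ) (h1 : c i (j + 1) = c' i (j + 1))
    (h2 : c (i + 1) j = c' (i + 1) j) : ggr c i j = ggr c' i j := by
  unfold ggr
  rw [h1, h2]

theorem comb (c : Ar) (i j : ℕ) : ggr (ggr (egr c)) i j = rgr c i j := by
  have h3 : (3 : F3) = 0 := by decide
  have hi : i % 3 = 0 ∧ (i + 1) % 3 = 1 ∨ i % 3 = 1 ∧ (i + 1) % 3 = 2 ∨
    i % 3 = 2 ∧ (i + 1) % 3 = 0 := by omega
  have hj : j % 3 = 0 ∧ (j + 1) % 3 = 1 ∧ (j + 1 + 1) % 3 = 2 ∨
    j % 3 = 1 ∧ (j + 1) % 3 = 2 ∧ (j + 1 + 1) % 3 = 0 ∨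
    j % 3 = 2 ∧ (j + 1) % 3 = 0 ∧ (j + 1 + 1) % 3 = 1 := by omega
  have s0 : ∀ f : ℕ → F3, ∑ m ∈ Finset.Icc 0 3, f m = f 0 + f 1 + f 2 + f 3 := fun f => by
    rw [show Finset.Icc 0 3 = {0, 1, 2, 3} by decide]; simp [add_assoc]
  have s1 : ∀ f : ℕ → F3, ∑ m ∈ Finset.Icc 1 3, f m = f 1 + f 2 + f 3 := fun f => by
    rw [show Finset.Icc 1 3 = {1, 2, 3} by decide]; simp [add_assoc]
  have s2 : ∀ f : ℕ → F3, ∑ m ∈ Finset.Icc 2 3, f m = f 2 + f 3 := fun f => by
    rw [show Finset.Icc 2 3 = {2, 3} by decide]; simp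
  have s3 : ∀ f : ℕ → F3, ∑ m ∈ Finset.Icc 0 2, f m = f 0 + f 1 + f 2 := fun f => by
    rw [show Finset.Icc 0 2 = {0, 1, 2} by decide]; simp [add_assoc]
  have s4 : ∀ f : ℕ → F3, ∑ m ∈ Finset.Icc 1 2, f m = f 1 + f 2 := fun f => by
    rw [show Finset.Icc 1 2 = {1, 2} by decide]; simp
  have s5 : ∀ f : ℕ → F3, ∑ m ∈ Finset.Icc 0 1, f m = f 0 + f 1 := fun f => by
    rw [show Finset.Icc 0 1 = {0, 1} by decide]; simp
  have a0 : j + 3 - 0 = j + 1 + 1 + 1 := by omega
  have a1 : j + 3 - 1 = j + 1 + 1 := by omega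
  have a2 : j + 3 - 2 = j + 1 := by omega
  have a3 : j + 3 - 3 = j := by omega
  have b2 : i + 2 = i + 1 + 1 := by omega
  have b3 : i + 3 = i + 1 + 1 + 1 := by omega
  rcases hi with ⟨p0, p1⟩ | ⟨p0, p1⟩ | ⟨p0, p1⟩ <;>
    rcases hj with ⟨q0, q1, q2⟩ | ⟨q0, q1, q2⟩ | ⟨q0, q1, q2⟩ <;>
    simp only [ggr, egr, rgr, p0, p1, q0, q1, q2] <;>
    norm_num only [s0, s1, s2, s3, s4, s5, a0, a1, a2, a3, b2, b3, if_true, if_false, add_zero] <;>
    first
      | done
      | (generalize c i (j + 1 + 1 + 1) = x0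
         generalize c (i + 1) (j + 1 + 1) = x1
         generalize c (i + 1 + 1) (j + 1) = x2
         generalize c (i + 1 + 1 + 1) j = x3
         revert x0 x1 x2 x3
         decide)

end RTA

open RTA in
theorem rowRT : OfRT := by
  intro hM hN hA hF a i j ha
  refine ⟨fun n h => hF 3 rho (by norm_num) cert3 a i j n ha h, fun h => ?_⟩
  have h0 : co (app (rho ++ o3) a) i j = 0 :=
    hF 4 _ (by norm_num) cert4 a i j (i + j) ha h i j le_rfl le_rfl le_rfl
  rw [hN.congr _ _ (eqo hM a), coSub hN, Pi.sub_apply, Pi.sub_apply, sub_eq_zero] at h0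
  have l1 := lcE hM a ha
  have l2 := lcG hM _ l1
  have u1 : Up i j (i + j + 3) (co (opE a)) :=
    hA.dr1 mT (by decide) (by decide) a i j _ ha h
  have u2 : Up i j (i + j + 2) (co (opG (opE a))) := upG hN hA _ l1 i j _ u1
  have tE : ∀ p q, i ≤ p → j ≤ q → p + q = i + j + 2 → co (opE a) p q = egr (co a) p q :=
    fun p q hp hq hpq => hA.topT a p q ha (upMono h hp hq (by omega))
  have tG : ∀ p q, i ≤ p → j ≤ q → p + q = i + j + 1 →
      co (opG (opE a)) p q = ggr (egr (co a)) p q := fun p q hp hq hpq => by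
    rw [topG hN hA _ l1 p q (upMono u1 hp hq (by omega))]
    exact ggrCongr _ _ p q (tE _ _ hp (by omega) (by omega)) (tE _ _ (by omega) hq (by omega))
  rw [h0, topG hN hA _ l2 i j u2, ← comb]
  exact ggrCongr _ _ i j (tG _ _ le_rfl (by omega) (by omega)) (tG _ _ (by omega) le_rfl (by omega))

end Pool.Agent.MP_5f72fe_nt.MS
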