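import Pool.Agent.MP_5f72fe_nt.MS.S2
import Pool.Agent.MP_5f72fe_nt.H3.SpecB

/-! Modular symbols at `3`, statements, part 3: periods of cusp forms. -/

namespace Pool.Agent.MP_5f72fe_nt.MS

open Complex MeasureTheory Set Filter
open scoped Real NumberTheorySymbols UpperHalfPlane MatrixGroups

noncomputable section

/-- the linear form vanishing at the cusp `c` -/
def Lf (c : V) (z : ℂ) : ℂ := (c.1 : ℂ) - (c.2 : ℂ) * z

def xi (k : ℕ) (x y : V) (z : ℂ) : ℂ := (Lf x z * Lf y z) ^ (k - 1)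

/-- holomorphic of weight `2 k` with rapid decay at every cusp -/
structure Cu (k : ℕ) (h : ℂ → ℂ) : Prop where
  zero : ∀ z : ℂ, z.im ≤ 0 → h z = 0
  hol : DifferentiableOn ℂ h {z | 0 < z.im}
  bd : ∀ c : V, c ≠ 0 → ∀ s : ℕ, ∃ C : ℝ, ∀ z : ℂ, 0 < z.im →
    ‖h z‖ * z.im ^ k ≤ C * (‖Lf c z‖ ^ 2 / z.im) ^ s

/-- the slash operator -/
def sl (k : ℕ) (g : Mt) (h : ℂ → ℂ) : ℂ → ℂ := fun z =>
  if 0 < z.im then (det g : ℂ) ^ k / (g.2.2.1 * z + g.2.2.2) ^ (2 * k) *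
    h ((g.1 * z + g.2.1) / (g.2.2.1 * z + g.2.2.2)) else 0

/-- the integral from `i∞` to the cusp `c` -/
def Pc (f : ℂ → ℂ) (c : V) : ℂ :=
  if c.2 = 0 then 0 else -I * ∫ t in Ioi (0 : ℝ), f ((c.1 / c.2 : ℚ) + t * I)

/-- the period -/
def Per (k : ℕ) (h : ℂ → ℂ) (x y c c' : V) : ℂ :=
  Pc (fun z => h z * xi k x y z) c' - Pc (fun z => h z * xi k x y z) c

/-- invariant under a principal congruence subgroup of level a power of `3` -/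
def Cg (k : ℕ) (h : ℂ → ℂ) : Prop :=
  ∃ e : ℕ, ∀ g : Mt, det g = 1 → 3 ^ e ∣ g.1 - 1 → 3 ^ e ∣ g.2.1 → 3 ^ e ∣ g.2.2.1 →
    3 ^ e ∣ g.2.2.2 - 1 → sl k g h = h

structure RowCU : Prop where
  sub : ∀ k, ∃ M : Submodule ℂ (ℂ → ℂ), ∀ h, h ∈ M ↔ Cu k h
  subg : ∀ k, ∃ M : Submodule ℂ (ℂ → ℂ), ∀ h, h ∈ M ↔ Cg k h
  lin : ∀ k g, ∃ L : (ℂ → ℂ) →ₗ[ℂ] (ℂ → ℂ), ∀ h, L h = sl k g h
  cu : ∀ k g h, 0 < det g → Cu k h → Cu k (sl k g h)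
  comp : ∀ k g g' h, 0 < det g → 0 < det g' → sl k (mul g g') h = sl k g' (sl k g h)
  sc : ∀ k (a : ℤ) h, a ≠ 0 → Cu k h → sl k (a, 0, 0, a) h = h
  int : ∀ k h (x y : V) (u : ℝ) (q : ℚ), Cu k h → u = q →
    IntegrableOn (fun t : ℝ => h (u + t * I) * xi k x y (u + t * I)) (Ioi 0)
  perLin : ∀ k (x y c c' : V) (h h' : ℂ → ℂ) (a : ℂ), Cu k h → Cu k h' →
    Per k (h + h') x y c c' = Per k h x y c c' + Per k h' x y c c' ∧
    Per k (a • h) x y c c' = a * Per k h x y c c'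
  perPol : ∀ k h (c c' y : V), Cu k h → Hp (k - 1) (fun x => Per k h x y c c') ∧
    ∀ x, Per k h x y c c' = Per k h y x c c'
  perAd : ∀ k h (x y : V), Ad (Per k h x y)

/-- the transformation law of periods -/
def RowPER : Prop :=
  ∀ (k : ℕ) (g : Mt) (h : ℂ → ℂ) (x y c c' : V), 1 ≤ k → 0 < det g → Cu k h → c ≠ 0 → c' ≠ 0 →
    Per k h (ap g x) (ap g y) (ap g c) (ap g c') =
      (det g : ℂ) ^ (k - 1) * Per k (sl k g h) x y c c'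

/-- injectivity of the period map -/
def Inj (k : ℕ) : Prop :=
  ∀ (h h' : ℂ → ℂ) (η : ℂ), Cu k h → Cu k h' → Cg k h → Cg k h' →
    (∀ x y c c' : V, c ≠ 0 → c' ≠ 0 →
      Per k h x y c c' + η * Per k h' (ap mN x) (ap mN y) (ap mN c) (ap mN c') = 0) → h = 0

def RowINJA : Prop := ∀ k, 2 ≤ k → Inj k

def RowINJ1 : Prop := Inj 1

abbrev Af := V → V → ℂ → ℂ

/-- an automorphic form -/
structure Aut (k n : ℕ) (F : Af) : Prop where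
  junk : ∀ v w, dt v w = 0 → F v w = 0
  cu : ∀ v w, Cu k (F v w)
  inv : ∀ (g : Mt) (a : ℕ), det g = 3 ^ a → ∀ v w, sl k g (F (ap g v) (ap g w)) = F v w
  rk : RK n F

def lF (k : ℕ) (g : Mt) (F : Af) : Af := fun v w => sl k g (F (ap g v) (ap g w))

def TF (k l : ℕ) (F : Af) : Af :=
  lF k (l, 0, 0, 1) F + ∑ j ∈ Finset.range l, lF k (1, j, 0, l) F

/-- an eigenvector of the Hecke operator -/
def Hk (k l : ℕ) (F : Af) : Prop := ∃ a : ℂ, TF k l F = a • F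

def Fw (k : ℕ) (F : Af) : Af := fun v w => (-1 : ℂ) ^ (k - 1) • F w ((3 : ℚ) • v)

open Classical in
def sB (k : ℕ) (F : Af) : Bf ℂ := fun c c' v w x y =>
  if c = 0 ∨ c' = 0 then 0 else Per k (F v w) x y c c'

/-- the symbol of a form -/
def sy (k : ℕ) (F : Af) : Sb ℂ := ph k (sB k F)

structure RowSYM : Prop where
  bd : ∀ k n F, 1 ≤ k → Aut k n F → BD k n (sB k F)
  lin : ∀ k n n' F G (a : ℂ), Aut k n F → Aut k n' G → sy k (F + a • G) = sy k F + a • sy k G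
  hk : ∀ k n l F, 1 ≤ k → l = 2 ∨ l = 7 → Aut k n F → Hk k l F → ∃ a : ℂ, Tl l (sy k F) = a • sy k F
  fw : ∀ k n F, 1 ≤ k → Aut k n F → sy k (Fw k F) = -cj (sg (sy k F))

structure RowAUT : Prop where
  mono : ∀ k n F, Aut k n F → Aut k (n + 1) F
  lin : ∀ k n F G (a : ℂ), Aut k n F → Aut k n G → Aut k n (F + a • G)
  fw : ∀ k n F, 1 ≤ n → Aut k n F → Aut k (n + 1) (Fw k F)
  cg : ∀ k n F, 1 ≤ n → Aut k n F → ∀ v w, Cg k (F v w)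
  loc : ∀ k r F, 2 ≤ r → Aut k r F → R0 r F → Aut k r (dep F) ∧ Aut k r (tw F) ∧
    ∀ l, l = 2 ∨ l = 7 → Hk k l F → Hk k l (dep F) ∧ Hk k l (tw F)

/-- from classical forms to automorphic forms -/
def RowFORM : Prop :=
  ∀ (k r : ℕ) (h : ℂ → ℂ), 1 ≤ r → Cu k h →
    (∀ g : Mt, det g = 1 → 3 ^ r ∣ g.2.2.1 → sl k g h = h) →
    ∃ F : Af, Aut k r F ∧ R0 r F ∧ F e2 e1 = h

def RowHKF : Prop :=
  ∀ (k r l : ℕ) (F : Af) (a : ℂ), 1 ≤ r → l = 2 ∨ l = 7 → Aut k r F → R0 r F →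
    sl k (l, 0, 0, 1) (F e2 e1) + ∑ j ∈ Finset.range l, sl k (1, j, 0, l) (F e2 e1) = a • F e2 e1 →
    TF k l F = a • F

/-- the Fourier expansion -/
def QE (h : ℂ → ℂ) (a : ℕ → ℂ) : Prop :=
  a 0 = 0 ∧ ∀ z : ℂ, 0 < z.im → HasSum (fun n : ℕ => a n * cexp (2 * π * I * n * z)) (h z)

/-- the coefficients of index prime to `3` -/
def a3 (a : ℕ → ℂ) : ℕ → ℂ := fun n => if 3 ∣ n then 0 else a n

structure RowQE : Prop where
  uniq : ∀ h a, QE h a → h = 0 → a = 0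
  hecke : ∀ (k l : ℕ) (h : ℂ → ℂ) (a : ℕ → ℂ) (c : ℂ), 1 ≤ k → l.Prime → Cu k h → QE h a →
    (∀ n : ℕ, 1 ≤ n →
      a (l * n) + (l : ℂ) ^ (2 * k - 1) * (if l ∣ n then a (n / l) else 0) = c * a n) →
    sl k (l, 0, 0, 1) h + ∑ j ∈ Finset.range l, sl k (1, j, 0, l) h = (c / (l : ℂ) ^ (k - 1)) • h
  loc : ∀ (k r : ℕ) (F : Af) (a : ℕ → ℂ), Aut k r F → QE (F e2 e1) a →
    QE (dep F e2 e1) (a3 a) ∧ QE (tw F e2 e1) fun n => I * (√3 : ℝ) * (a n * J(n | 3))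

/-- the function on `ℂ` of a function on the upper half plane -/
def fc (f : ℍ → ℂ) : ℂ → ℂ := fun z => if h : 0 < z.im then f ⟨z, h⟩ else 0

def RowCUF : Prop :=
  ∀ (r k : ℕ) (f : CuspForm (CongruenceSubgroup.Gamma0 (3 ^ r)) (2 * k : ℕ)), 1 ≤ k → Cu k (fc f) ∧
    (∀ g : Mt, det g = 1 → 3 ^ r ∣ g.2.2.1 → sl k g (fc f) = fc f) ∧ QE (fc f) (H3.aF f) ∧
    (H3.aF f) =O[atTop] fun n : ℕ => (n : ℝ) ^ (k : ℝ)

/-- periods and twisted `L`-values -/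
def RowMELC : Prop :=
  ∀ (k N : ℕ) (h : ℂ → ℂ) (b : ℕ → ℂ), 1 ≤ k → Odd N → Squarefree N → Cu k h → QE h b →
    (b =O[atTop] fun n : ℕ => (n : ℝ) ^ (k : ℝ)) →
    ∃ L : ℂ → ℂ, Differentiable ℂ L ∧
      (∀ s : ℂ, k + 1 < s.re → LSeriesHasSum (fun n => b n * J(n | N)) s (L s)) ∧
      (L k = 0 ↔ ∑ m ∈ Finset.range N, (J(m | N) : ℂ) * Per k h (m, N) e1 e1 (m, N) = 0)

def RowTHMA : Prop :=
  ∀ (τ ε : ℤ) (N k n M : ℕ) (F : Af), τ = 1 ∨ τ = -1 → ε = 1 ∨ ε = -1 → Soc τ ε N → Odd N →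
    ¬ 3 ∣ N → J(3 | N) = τ → 1 ≤ k → 1 ≤ n → n + 1 ≤ M → Aut k n F → Hk k 2 F → Hk k 7 F →
    ell N (sy k F) = 0 → Rect τ M (F + (-(τ * ε : ℤ) : ℂ) • Fw k F)

/-- the central value of the twist of the series with coefficients `b` does not vanish -/
def CNe (k N : ℕ) (b : ℕ → ℂ) : Prop :=
  ∃ L : ℂ → ℂ, Differentiable ℂ L ∧
    (∀ s : ℂ, k + 1 < s.re → LSeriesHasSum (fun n => b n * J(n | N)) s (L s)) ∧ L k ≠ 0

def G7 (N : ℕ) : Prop := N % 12 = 7 ∧ Squarefree N ∧ ¬ (3 : ℤ) ∣ (BB N).num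

def G5 (N : ℕ) : Prop := N % 12 = 5 ∧ Squarefree N ∧ ¬ (3 : ℤ) ∣ (BB (3 * N)).num

/-- the four classes -/
def RowFOUR : Prop :=
  ∀ (r k : ℕ) (f : CuspForm (CongruenceSubgroup.Gamma0 (3 ^ r)) (2 * k : ℕ)), 1 ≤ k →
    a3 (H3.aF f) ≠ 0 → (∀ l : ℕ, l = 2 ∨ l = 7 → ∃ c : ℂ, ∀ n : ℕ, 1 ≤ n → H3.aF f (l * n) +
      (l : ℂ) ^ (2 * k - 1) * (if l ∣ n then H3.aF f (n / l) else 0) = c * H3.aF f n) →
    (∀ N, G7 N → CNe k N (a3 (H3.aF f))) ∨ (∀ N, G5 N → CNe k N (a3 (H3.aF f))) ∨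
      (∀ N, G7 N → CNe k (3 * N) (a3 (H3.aF f))) ∨ ∀ N, G5 N → CNe k (3 * N) (a3 (H3.aF f))

/-! ### The shape of the rows -/

def OfCU : Prop := RowINT → RowCU
def OfPER : Prop := RowCU → RowPER
def OfINJA : Prop := RowCU → RowINJA
def OfINJ1 : Prop := RowCU → RowPER → RowINJ1
def OfSYM : Prop := RowINT → RowBD → RowOPS → RowCU → RowPER → RowSYM
def OfAUT : Prop := RowBAS → RowOM → RowLOC → RowCU → RowAUT
def OfFORM : Prop := RowBAS → RowSA → RowCU → RowFORM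
def OfHKF : Prop := RowBAS → RowSA → RowHK → RowCU → RowHKF
def OfQE : Prop := RowBAS → RowOM → RowCU → RowQE
def OfCUF : Prop := RowCU → RowCUF
def OfMELC : Prop := H3.RowGAUSS → RowCU → RowMELC
def OfTHMA : Prop := RowOPS → RowELL → RowBD → RowTHMB → RowCU → RowINJA → RowINJ1 → RowSYM →
  RowAUT → RowTHMA
def OfFOUR : Prop := RowBAS → RowLOC → RowTREE → RowSOC → RowCU → RowAUT → RowFORM → RowHKF →
  RowQE → RowCUF → RowMELC → RowTHMA → RowFOUR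

end

end Pool.Agent.MP_5f72fe_nt.MS
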