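import Pool.Agent.MP_5f72fe_nt.MS.S1

/-! Modular symbols at `3`: strong approximation. -/

namespace Pool.Agent.MP_5f72fe_nt.MS

namespace SAA

/-- the pair is a translate of a standard pair of level `n` -/
def G (n : ℕ) (v w : V) : Prop :=
  ∃ (g : Mt) (a : ℕ) (x y b c : ℚ), det g = 3 ^ a ∧ Un x ∧ Un y ∧ In b ∧ In c ∧
    v = ap g (3 ^ n * b, x) ∧ w = ap g (y, 3 ^ n * c)

theorem ap_mul (g h : Mt) (v : V) : ap (mul g h) v = ap g (ap h v) := by
  simp only [ap, mul]
  ext <;> push_cast <;> ring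

theorem det_mul (g h : Mt) : det (mul g h) = det g * det h := by
  simp only [det, mul]
  ring

theorem G.tr {n : ℕ} {v w : V} (hG : G n v w) (h : Mt) (e : ℕ) (hh : det h = 3 ^ e) :
    G n (ap h v) (ap h w) := by
  obtain ⟨g, a, x, y, b, c, hg, hx, hy, hb, hc, hv, hw⟩ := hG
  refine ⟨mul h g, e + a, x, y, b, c, ?_, hx, hy, hb, hc, ?_, ?_⟩
  · rw [det_mul, hh, hg, pow_add]
  · rw [ap_mul, ← hv]
  · rw [ap_mul, ← hw]

section

variable (B : RowBAS)
include B

theorem iadd {x y : ℚ} (hx : In x) (hy : In y) : In (x + y) := by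
  obtain ⟨O, hO⟩ := B.ring
  exact (hO _).1 (O.add_mem ((hO _).2 hx) ((hO _).2 hy))

theorem imul {x y : ℚ} (hx : In x) (hy : In y) : In (x * y) := by
  obtain ⟨O, hO⟩ := B.ring
  exact (hO _).1 (O.mul_mem ((hO _).2 hx) ((hO _).2 hy))

theorem ineg {x : ℚ} (hx : In x) : In (-x) := by
  obtain ⟨O, hO⟩ := B.ring
  exact (hO _).1 (O.neg_mem ((hO _).2 hx))

theorem isub {x y : ℚ} (hx : In x) (hy : In y) : In (x - y) := by
  rw [sub_eq_add_neg]
  exact iadd B hx (ineg B hy)

theorem inat (m : ℕ) : In (m : ℚ) := by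
  obtain ⟨O, hO⟩ := B.ring
  exact (hO _).1 (natCast_mem O m)

theorem ipow (m : ℕ) : In ((3 : ℚ) ^ m) := by
  have := inat B (3 ^ m)
  push_cast at this
  exact this

theorem une {x : ℚ} (hx : Un x) : x ≠ 0 := ((B.un' x).1 hx).1

theorem down {n : ℕ} {v w : V} (hG : G (n + 1) v w) : G n v w := by
  obtain ⟨g, a, x, y, b, c, hg, hx, hy, hb, hc, hv, hw⟩ := hG
  have h3 : In (3 : ℚ) := by simpa using inat B 3
  refine ⟨g, a, x, y, 3 * b, 3 * c, hg, hx, hy, imul B h3 hb, imul B h3 hc, ?_, ?_⟩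
  · rw [hv]
    congr 2
    ring
  · rw [hw]
    congr 2
    ring

/-- the determinant and the second coordinate of the first vector are units -/
theorem unit1 (n : ℕ) (v w : V) (h1 : In v.1) (h2 : Un v.2) (h4 : In w.2)
    (hd : Un (dt v w)) : G (n + 1) v w := by
  have hv2 := une B h2
  have h3n : (3 : ℚ) ^ (n + 1) ≠ 0 := by positivity
  obtain ⟨j, -, hj⟩ := B.nat (v.1 / v.2) (n + 1) (B.div _ _ h1 h2)
  set b : ℚ := (v.1 / v.2 - j) / 3 ^ (n + 1) * v.2 with hb
  have hbI : In b := imul B hj h2.1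
  have hbe : v.1 - j * v.2 = 3 ^ (n + 1) * b := by
    rw [hb]
    field_simp
  have hy : Un (w.1 - j * w.2) := by
    have e : w.1 - j * w.2 = (-(dt v w) + 3 * (3 ^ n * b * w.2)) / v.2 := by
      have : 3 * (3 ^ n * b * w.2) = (v.1 - j * v.2) * w.2 := by
        rw [hbe]
        ring
      rw [this, dt]
      field_simp
      ring
    rw [e]
    exact (B.unMul _ _ (B.unAdd _ _ (B.unMul _ _ hd hd).2.2.2
      (imul B (imul B (ipow B n) hbI) h4)) h2).2.1
  set y : ℚ := w.1 - j * w.2 with hyd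
  have hy0 := une B hy
  obtain ⟨k, -, hk⟩ := B.nat (w.2 / y) (n + 1) (B.div _ _ h4 hy)
  set c : ℚ := (w.2 / y - k) / 3 ^ (n + 1) * y with hc
  have hcI : In c := imul B hk hy.1
  have hce : w.2 - k * y = 3 ^ (n + 1) * c := by
    rw [hc]
    field_simp
  refine ⟨(1 + j * k, j, k, 1), 0, v.2 + 3 * (-(k * (3 ^ n * b))), y, b, c, ?_, ?_, hy, hbI, hcI,
    ?_, ?_⟩
  · simp only [det]
    ring
  · exact B.unAdd _ _ h2 (ineg B (imul B (inat B k) (imul B (ipow B n) hbI)))
  · simp only [ap]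
    ext
    · push_cast
      have : v.1 = 3 ^ (n + 1) * b + j * v.2 := by rw [← hbe]; ring
      rw [this]
      ring
    · push_cast
      ring
  · simp only [ap]
    rw [← hce]
    ext
    · push_cast
      rw [hyd]
      ring
    · push_cast
      ring

/-- the determinant is a unit -/
theorem unit (n : ℕ) (v w : V) (h1 : In v.1) (h2 : In v.2) (h3 : In w.1) (h4 : In w.2)
    (hd : Un (dt v w)) : G n v w := by
  apply down B
  by_cases hu : In (v.2 / 3)
  · have hu1 : Un v.1 := by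
      rw [B.un]
      refine ⟨h1, fun h => ((B.un _).1 hd).2 ?_⟩
      have e : dt v w / 3 = v.1 / 3 * w.2 - v.2 / 3 * w.1 := by
        rw [dt]
        ring
      rw [e]
      exact isub B (imul B h h4) (imul B hu h3)
    have hG := unit1 B n (v.2, -v.1) (w.2, -w.1) h2 (B.unMul _ _ hu1 hu1).2.2.2 (ineg B h3) (by
      have e : dt (v.2, -v.1) (w.2, -w.1) = dt v w := by
        simp only [dt]
        ring
      rw [e]
      exact hd)
    have := hG.tr mS 0 (by decide)
    simpa [ap, mS] using this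
  · exact unit1 B n v w h1 ((B.un _).2 ⟨h2, hu⟩) h4 hd

/-- a common kernel modulo `3` -/
theorem ker (v w : V) (h1 : In v.1) (h2 : Un v.2) (h4 : In w.2) (hd : In (dt v w / 3)) :
    ∃ j : ℕ, In ((v.1 - j * v.2) / 3) ∧ In ((w.1 - j * w.2) / 3) := by
  have hv2 := une B h2
  obtain ⟨j, -, hj⟩ := B.nat (v.1 / v.2) 1 (B.div _ _ h1 h2)
  have hb : In ((v.1 - j * v.2) / 3) := by
    have e : (v.1 - j * v.2) / 3 = (v.1 / v.2 - j) / 3 ^ 1 * v.2 := by
      field_simp
    rw [e]
    exact imul B hj h2.1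
  refine ⟨j, hb, ?_⟩
  have e : (w.1 - j * w.2) / 3 = ((v.1 - j * v.2) / 3 * w.2 - dt v w / 3) / v.2 := by
    rw [dt]
    field_simp
    ring
  rw [e]
  exact B.div _ _ (isub B (imul B hb h4) hd) h2

theorem ind (n a : ℕ) : ∀ v w : V, In v.1 → In v.2 → In w.1 → In w.2 →
    Un (dt v w / 3 ^ a) → G n v w := by
  induction a with
  | zero =>
    intro v w h1 h2 h3 h4 hd
    exact unit B n v w h1 h2 h3 h4 (by simpa using hd)
  | succ a ih =>
    intro v w h1 h2 h3 h4 hd
    have hd3 : In (dt v w / 3) := by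
      have e : dt v w / 3 = dt v w / 3 ^ (a + 1) * 3 ^ a := by
        field_simp
        ring
      rw [e]
      exact imul B hd.1 (ipow B a)
    by_cases hb : In (v.2 / 3) ∧ In (w.2 / 3)
    · have hG := ih (v.1, v.2 / 3) (w.1, w.2 / 3) h1 hb.1 h3 hb.2 (by
        have e : dt (v.1, v.2 / 3) (w.1, w.2 / 3) / 3 ^ a = dt v w / 3 ^ (a + 1) := by
          simp only [dt]
          field_simp
          ring
        rw [e]
        exact hd)
      have := hG.tr (1, 0, 0, 3) 1 (by decide)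
      have e : ∀ z : V, ap (1, 0, 0, 3) (z.1, z.2 / 3) = z := by
        intro z
        simp only [ap]
        ext
        · push_cast
          ring
        · push_cast
          ring
      rwa [e, e] at this
    · have hj : ∃ j : ℕ, In ((v.1 - j * v.2) / 3) ∧ In ((w.1 - j * w.2) / 3) := by
        by_cases hv : In (v.2 / 3)
        · have hw : Un w.2 := (B.un _).2 ⟨h4, fun h => hb ⟨hv, h⟩⟩
          obtain ⟨j, hj1, hj2⟩ := ker B w v h3 hw h2 (by
            have e : dt w v / 3 = -(dt v w / 3) := by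
              simp only [dt]
              ring
            rw [e]
            exact ineg B hd3)
          exact ⟨j, hj2, hj1⟩
        · exact ker B v w h1 ((B.un _).2 ⟨h2, hv⟩) h4 hd3
      obtain ⟨j, hj1, hj2⟩ := hj
      have hG := ih ((v.1 - j * v.2) / 3, v.2) ((w.1 - j * w.2) / 3, w.2) hj1 h2 hj2 h4 (by
        have e : dt ((v.1 - j * v.2) / 3, v.2) ((w.1 - j * w.2) / 3, w.2) / 3 ^ a
            = dt v w / 3 ^ (a + 1) := by
          simp only [dt]
          field_simp
          ring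
        rw [e]
        exact hd)
      have := hG.tr (3, j, 0, 1) 1 (by simp [det])
      have e : ∀ z : V, ap (3, j, 0, 1) ((z.1 - j * z.2) / 3, z.2) = z := by
        intro z
        simp only [ap]
        ext
        · push_cast
          ring
        · push_cast
          ring
      rwa [e, e] at this

end

end SAA

open SAA in
theorem rowSA : OfSA := by
  intro B n v w hd
  obtain ⟨e1, h1⟩ := B.big v.1
  obtain ⟨e2, h2⟩ := B.big v.2
  obtain ⟨e3, h3⟩ := B.big w.1
  obtain ⟨e4, h4⟩ := B.big w.2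
  have key : ∀ (x : ℚ) (e f m : ℕ), In (3 ^ e * x) → m = f + e → In (3 ^ m * x) := by
    intro x e f m hx hm
    rw [hm, pow_add, mul_assoc]
    exact imul B (ipow B f) hx
  set m := e1 + e2 + e3 + e4 with hm
  have k1 : In (((3 : ℚ) ^ m • v).1) := key v.1 e1 (e2 + e3 + e4) m h1 (by omega)
  have k2 : In (((3 : ℚ) ^ m • v).2) := key v.2 e2 (e1 + e3 + e4) m h2 (by omega)
  have k3 : In (((3 : ℚ) ^ m • w).1) := key w.1 e3 (e1 + e2 + e4) m h3 (by omega)
  have k4 : In (((3 : ℚ) ^ m • w).2) := key w.2 e4 (e1 + e2 + e3) m h4 (by omega)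
  set v' : V := (3 : ℚ) ^ m • v with hv'
  set w' : V := (3 : ℚ) ^ m • w with hw'
  have hD : dt v' w' ≠ 0 := by
    have e : dt v' w' = 3 ^ m * 3 ^ m * dt v w := by
      simp only [hv', hw', dt, Prod.smul_fst, Prod.smul_snd, smul_eq_mul]
      ring
    rw [e]
    exact mul_ne_zero (by positivity) hd
  have hDI : In (dt v' w') := isub B (imul B k1 k4) (imul B k2 k3)
  obtain ⟨e, he⟩ := B.val _ hD
  have ha : ∃ a : ℕ, Un (dt v' w' / 3 ^ a) := by
    rcases le_or_gt e 0 with h | h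
    · obtain ⟨a, rfl⟩ : ∃ a : ℕ, e = -(a : ℤ) := ⟨(-e).toNat, by omega⟩
      refine ⟨a, ?_⟩
      rw [zpow_neg, zpow_natCast] at he
      rwa [div_eq_mul_inv]
    · exfalso
      obtain ⟨a, rfl⟩ : ∃ a : ℕ, e = ((a + 1 : ℕ) : ℤ) := ⟨(e - 1).toNat, by omega⟩
      rw [zpow_natCast] at he
      apply ((B.un _).1 he).2
      have e : dt v' w' * 3 ^ (a + 1) / 3 = dt v' w' * 3 ^ a := by
        rw [pow_succ]
        ring
      rw [e]
      exact imul B hDI (ipow B a)
  obtain ⟨a, ha⟩ := ha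
  obtain ⟨g, a', x, y, b, c, hg, hx, hy, hb, hc, hv, hw⟩ := ind B n a v' w' k1 k2 k3 k4 ha
  exact ⟨g, a', m, x, y, b, c, hg, hx, hy, hb, hc, hv, hw⟩

end Pool.Agent.MP_5f72fe_nt.MS
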