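import Pool.Agent.MP_5f72fe_nt.MS.S2

/-! The socle statement for the sign `-1`. -/

namespace Pool.Agent.MP_5f72fe_nt.MS

open scoped NumberTheorySymbols

namespace SOCA

def lam (d : ℕ) (c : Ar) : F3 := if d = 3 then c 0 3 + c 1 2 else c 1 3

theorem two {x : F3} (h : x = -x) : x = 0 := by
  revert x
  decide

theorem soc (hO : RowOPS) (hE : RowELL) (hM : RowMOB) (hC : RowCH) (hT : RowCHT) (hN : RowN2)
    (hR : RowRT) (hX : RowXT) (hY : RowYT) (hP : RowPAR) (hK : RowNEC) (hD : RowRED) (hG : RowGK)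
    (N d0 : ℕ) (hd0 : d0 = 3 ∨ d0 = 4) (hN1 : Odd N) (hN2 : ¬ 3 ∣ N) (hN3 : J(3 | N) = -1)
    (φ0 : Sb F3) (p1 : SL φ0) (p2 : cj φ0 = (-1 : ℤ) ^ d0 • φ0) (p3 : sg φ0 = (-1 : ℤ) • φ0)
    (p4 : Up 0 0 (d0 + 1) (cf φ0)) (p5 : lam d0 (cf φ0) = 1) (p6 : ell N φ0 ≠ 0) :
    Soc (-1) ((-1) ^ d0) N := by
  obtain ⟨M, hM'⟩ := hO.sl F3
  obtain ⟨t, cc, s, T, W, L, hl⟩ := hO.lin F3
  obtain ⟨C, hCo⟩ := hN.lin
  have ht : ∀ φ, tt φ = t φ := fun φ => (hl φ).1.symm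
  have hc : ∀ φ, cj φ = cc φ := fun φ => (hl φ).2.1.symm
  have hs : ∀ φ, sg φ = s φ := fun φ => (hl φ).2.2.1.symm
  have hW : ∀ l φ, wd l φ = W l φ := fun l φ => ((hl φ).2.2.2.2.1 l).symm
  have hL : ∀ φ, ell N φ = L N φ := fun φ => ((hl φ).2.2.2.2.2 N).symm
  have g2 : ∀ x ∈ T2p, G0 x.2 := by unfold G0; decide
  let G : AddSubgroup (Sb F3) := M ⊓ (cc - (-1 : ℤ) ^ d0 • AddMonoidHom.id _).ker ⊓
    (s - (-1 : ℤ) • AddMonoidHom.id _).ker
  have hG' : ∀ φ, φ ∈ G ↔ SL φ ∧ cj φ = (-1 : ℤ) ^ d0 • φ ∧ sg φ = (-1 : ℤ) • φ := fun φ => by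
    simp only [G, AddSubgroup.mem_inf, hM', AddMonoidHom.mem_ker, AddMonoidHom.sub_apply,
      AddMonoidHom.smul_apply, AddMonoidHom.id_apply, sub_eq_zero, hc, hs, and_assoc]
  let Z : AddSubgroup (Sb F3) := ⨅ l, ((L N).comp (W l)).ker
  have hZ : ∀ φ, φ ∈ Z ↔ ∀ l, ell N (wd l φ) = 0 := fun φ => by
    simp only [Z, AddSubgroup.mem_iInf, AddMonoidHom.mem_ker, AddMonoidHom.comp_apply, hL, hW]
  let B : AddSubgroup (Sb F3) := M.map (AddMonoidHom.id _ - (-1 : ℤ) • t)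
  have hB : ∀ φ, φ ∈ B ↔ ∃ z, SL z ∧ φ = z - (-1 : ℤ) • tt z := fun φ => by
    simp only [B, AddSubgroup.mem_map, hM', AddMonoidHom.sub_apply, AddMonoidHom.smul_apply,
      AddMonoidHom.id_apply, ht, eq_comm]
  have BZ : B ≤ Z := fun φ h => by
    obtain ⟨z, z1, rfl⟩ := (hB φ).1 h
    refine (hZ _).2 fun l => ?_
    have u := (hE _ (wd l z) N ((hO.syOp _ z z1.1).2.2.2.2.2 l) hN1 hN2).1
    rw [← ((hO.alg _ z z1.1).2.2.2.2.2 l).1, hN3] at u
    rw [hW, map_sub, map_zsmul, hL, map_sub, map_zsmul, ← hL, ← hL, ← hW, ← hW, u]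
    simp
  have cfs : ∀ (φ ψ : Sb F3) (n : ℕ), cf (φ - n • ψ) = cf φ - (n : F3) • cf ψ := fun φ ψ n => by
    rw [cf, cf, cf, ← hCo, ← hCo, ← hCo, ← map_smul, ← map_sub, Nat.cast_smul_eq_nsmul]
    rfl
  have anti : ∀ φ ∈ G, ∀ i j, cf φ i j = -cf φ j i := fun φ h i j => by
    obtain ⟨h1, -, h3⟩ := (hG' φ).1 h
    rw [cf, ← hN.swap, ← hN.congr _ _ (hC.ops _ φ h1.1).2.2.2, h3, ← hCo, ← hCo]
    have : ch ((-1 : ℤ) • φ) = -ch φ := by
      rw [neg_one_smul]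
      rfl
    rw [this, map_neg]
    rfl
  have mono : ∀ (c : Ar) (d i j n : ℕ), Up 0 0 d c → d ≤ n → Up i j n c :=
    fun c d i j n h5 h i' j' _ _ h' => h5 i' j' i'.zero_le j'.zero_le (by omega)
  have hr : ∀ φ ∈ G, ∀ d, Up 0 0 (d + 1) (cf φ) → ∀ i j, i + j + 3 = d → rgr (cf φ) i j = 0 :=
    fun φ h d h5 i j e => by
      obtain ⟨h1, -⟩ := (hG' φ).1 h
      rw [cf, ← (hR _ i j (hC.lc _ φ h1)).2 (mono _ _ _ _ _ h5 (by omega)),
        hN.congr _ _ (hC.ops _ φ h1.1).1, ← hCo, map_zero]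
      rfl
  have par : ∀ d, (d + d0) % 2 = 0 → (-1 : ℤ) ^ d0 = (-1) ^ d := fun d h => by
    rcases Nat.even_or_odd d with e | e
    · rw [e.neg_one_pow, Even.neg_one_pow]
      rw [Nat.even_iff] at e ⊢
      omega
    · rw [e.neg_one_pow, Odd.neg_one_pow]
      rw [Nat.odd_iff] at e ⊢
      omega
  have zero : ∀ φ ∈ G, Up 0 0 0 (cf φ) → φ ∈ B := fun φ h h5 => by
    obtain ⟨h1, -⟩ := (hG' φ).1 h
    have h6 := hN.ext _ (hC.lc _ φ h1)
      (funext fun i => funext fun j => h5 i j i.zero_le j.zero_le (by omega))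
    have : φ = 0 := by
      funext c c' v w
      exact AddSubgroup.mem_bot.1 (hC.uni _ φ ⊥ h1.1 (fun u y hu hy => h6 u y hu hy) c c' v w)
    exact this ▸ B.zero_mem
  have step : ∀ φ ∈ G, ∀ d, Up 0 0 (d + 1) (cf φ) → ((d + d0) % 2 = 0 → Good d (cf φ)) →
      ∃ n ∈ B, n ∈ G ∧ Up 0 0 d (cf (φ - n)) := fun φ h d h5 h6 => by
    obtain ⟨h1, h2, h3⟩ := (hG' φ).1 h
    by_cases e : (d + d0) % 2 = 0
    swap
    · refine ⟨0, B.zero_mem, G.zero_mem, ?_⟩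
      rw [sub_zero]
      exact hP φ d h1 (by rw [h2, par (d + 1) (by omega)]) h5
    rcases Nat.eq_zero_or_pos d with rfl | hp
    · refine ⟨0, B.zero_mem, G.zero_mem, fun i j _ _ _ => ?_⟩
      rw [sub_zero]
      rcases (by omega : (i = 0 ∧ j = 0) ∨ 1 ≤ i + j) with ⟨rfl, rfl⟩ | h'
      · exact two (anti φ h 0 0)
      · exact h5 i j i.zero_le j.zero_le h'
    obtain ⟨z, z1, z2, z3, z4⟩ := hD (-1) φ d (Or.inr rfl) hp h1 (by rw [h2, par d e]) h3 h5 (h6 e)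
    refine ⟨_, (hB _).2 ⟨z, z1, rfl⟩, (hG' _).2 ⟨(hM' _).1 (M.sub_mem ((hM' _).2 z1)
      (M.zsmul_mem ((hM' _).2 (hO.slOp _ z z1).1) _)), ?_, z3⟩, z4⟩
    rw [hc, map_sub, map_zsmul, ← hc, ← hc, (hO.alg _ z z1.1).2.2.2.1, z2, par d e, ht, ht,
      map_zsmul, smul_sub, smul_comm]
  have low : ∀ d, d ≤ d0 + 1 → ∀ φ ∈ G, Up 0 0 d (cf φ) → (d = d0 + 1 → lam d0 (cf φ) = 0) →
      φ ∈ B := by
    intro d
    induction d with
    | zero => exact fun _ φ h h5 _ => zero φ h h5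
    | succ d ih =>
      intro hd φ h h5 h6
      obtain ⟨n, n1, n2, n3⟩ := step φ h d h5 fun e => hG d _ (fun i j _ => anti φ h i j)
        (hr φ h d h5)
        ⟨fun e3 => by
          have := h6 (by omega)
          rwa [lam, if_pos (by omega)] at this, fun e4 => by
          have := h6 (by omega)
          rwa [lam, if_neg (by omega)] at this⟩
        (fun e' he => ⟨fun i j a b c => by
          obtain ⟨rfl, rfl⟩ : i = 1 ∧ j = 1 := by omega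
          have u1 := anti φ h 3 1
          have u2 := two (anti φ h 2 2)
          simp [xgr, u1, u2], by omega, by omega⟩)
        fun e' he => by omega
      have := ih (by omega) _ (G.sub_mem h n2) n3 (by omega)
      simpa using B.add_mem this n1
  have ref : ∀ φ ∈ G, φ ∈ Z → ∀ d, (d + d0) % 2 = 0 → Up 0 0 (d + 1) (cf φ) → Ref d (cf φ) := by
    intro φ h h4 d e h5
    by_cases e0 : d = d0
    swap
    · exact ⟨by omega, by omega⟩
    subst e0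
    have q := cfs φ φ0 (lam d (cf φ)).val
    rw [ZMod.natCast_zmod_val] at q
    have u := (hZ _).1 (BZ (low (d + 1) le_rfl (φ - (lam d (cf φ)).val • φ0)
      (G.sub_mem h (G.nsmul_mem ((hG' _).2 ⟨p1, p2, p3⟩) _))
      (fun i j a b c => by
        rw [q]
        simp [h5 i j a b c, p4 i j a b c])
      (fun _ => by
        rw [q]
        unfold lam at p5 ⊢
        split_ifs at p5 ⊢ <;> simp only [Pi.sub_apply, Pi.smul_apply, smul_eq_mul]
        · linear_combination (-(cf φ 0 3 + cf φ 1 2)) * p5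
        · linear_combination (-(cf φ 1 3)) * p5))) []
    have u' : ell N φ = 0 := (hZ _).1 h4 []
    change ell N (φ - _) = 0 at u
    rw [hL, map_sub, map_nsmul, ← hL, ← hL, u', zero_sub, neg_eq_zero, nsmul_eq_mul,
      ZMod.natCast_zmod_val, mul_eq_zero] at u
    have v := u.resolve_right p6
    exact ⟨fun e3 => by rwa [lam, if_pos e3] at v, fun e4 => by rwa [lam, if_neg (by omega)] at v⟩
  have wG : ∀ φ ∈ G, ∀ l, wd l φ ∈ G := fun φ h l => by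
    obtain ⟨h1, h2, h3⟩ := (hG' φ).1 h
    refine (hG' _).2 ⟨(hO.slOp _ φ h1).2.2.2.2.2 l, ?_, ?_⟩
    · rw [← ((hO.alg _ φ h1.1).2.2.2.2.2 l).2.1, h2, hW, hW, map_zsmul]
    · rw [← ((hO.alg _ φ h1.1).2.2.2.2.2 l).2.2, h3, hW, hW, map_zsmul]
  have xG : ∀ φ ∈ G, φ ∈ Z → cj (Tl 2 φ) ∈ G ∧ cj (Tl 2 φ) ∈ Z := fun φ h h4 => by
    have a := wG φ h [true]
    have b : cj (Tl 2 φ) = (-1 : ℤ) ^ d0 • wd [true] φ := ((hG' _).1 a).2.1
    rw [b]
    exact ⟨G.zsmul_mem a _, Z.zsmul_mem ((hZ _).2 fun l => (hZ _).1 h4 (true :: l)) _⟩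
  have key : ∀ d, ∀ φ ∈ G, φ ∈ Z → Up 0 0 d (cf φ) → φ ∈ B := by
    intro d
    induction d using Nat.strong_induction_on with
    | _ d ih =>
    intro φ h h4 h5
    rcases d with _ | d
    · exact zero φ h h5
    obtain ⟨h1, h2, h3⟩ := (hG' φ).1 h
    have lc := hC.lc _ φ h1
    obtain ⟨o1, -⟩ := hC.ops _ φ h1.1
    have fin : ∀ e, e < d → (e + d0) % 2 = 0 → ∀ ψ ∈ G, ψ ∈ Z → Up 0 0 (e + 1) (cf ψ) →
        Mid e (cf ψ) ∧ Ref e (cf ψ) := by
      intro e he e' ψ q1 q2 q3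
      obtain ⟨z, z1, z2⟩ := (hB _).1 (ih (e + 1) (by omega) ψ q1 q2 q3)
      exact ⟨z2 ▸ hK (-1) z e (Or.inr rfl) z1 (z2 ▸ q3), ref ψ q1 q2 e e' q3⟩
    obtain ⟨a1, a2⟩ := xG φ h h4
    obtain ⟨b1, b2⟩ := xG _ a1 a2
    have a3 := (hT _ φ h1.1).1
    have b3 := (hT _ _ ((hG' _).1 a1).1.1).1
    obtain ⟨n, n1, n2, n3⟩ := step φ h d h5 fun e => hG d _ (fun i j _ => anti φ h i j)
      (hr φ h d h5) (ref φ h h4 d e h5)
      (fun e' he => by
        have q : cf (cj (Tl 2 φ)) = co (app T2p (ch φ)) := hN.congr _ _ a3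
        obtain ⟨f1, f2⟩ := fin e' (by omega) (by omega) _ a1 a2
          (q ▸ (hX _ 0 0 lc).1 _ (mono _ _ _ _ _ h5 (by omega)))
        have top : ∀ i j, i + j = e' → xgr (cf φ) i j = cf (cj (Tl 2 φ)) i j := fun i j h => by
          rw [q, (hX _ i j lc).2 (mono _ _ _ _ _ h5 (by omega))]
          rfl
        exact ⟨fun i j h hi hj => (top i j h).trans (f1 i j h hi hj),
          fun h => by rw [top 0 3 h.symm, top 1 2 h.symm, f2.1 h],
          fun h => (top 1 3 h.symm).trans (f2.2 h)⟩)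
      (fun e' he => by
        have q : cf (wd [false] φ - (2 : ℤ) • φ - cj (Tl 2 (cj (Tl 2 φ)))) =
            co (app T7c (ch φ) - (2 : ℤ) • ch φ - app T2p (app T2p (ch φ))) :=
          hN.congr _ _ fun u y hu hy => by
            have u1 := (hT _ φ h1.1).2 u y hu hy
            have u2 := (b3 u y hu hy).trans (((hM.congr _ _ _ a3).2.1 T2p g2) u y hu hy)
            simp only [Pi.sub_apply, Pi.smul_apply, ← u1, ← u2]
            rfl
        obtain ⟨f1, f2⟩ := fin e' (by omega) (by omega)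
          (wd [false] φ - (2 : ℤ) • φ - cj (Tl 2 (cj (Tl 2 φ))))
          (G.sub_mem (G.sub_mem (wG φ h _) (G.zsmul_mem h _)) b1)
          (Z.sub_mem (Z.sub_mem ((hZ _).2 fun l => (hZ _).1 h4 (false :: l)) (Z.zsmul_mem h4 _)) b2)
          (q ▸ (hY _ 0 0 lc o1).1 _ (mono _ _ _ _ _ h5 (by omega)))
        have top : ∀ i j, i + j = e' → cf φ (i + 3) (j + 3) =
            -cf (wd [false] φ - (2 : ℤ) • φ - cj (Tl 2 (cj (Tl 2 φ)))) i j := fun i j h => by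
          rw [q, (hY _ i j lc o1).2 (mono _ _ _ _ _ h5 (by omega)), neg_neg]
          rfl
        exact ⟨fun i j h hi hj => (top i j h).trans (by rw [f1 i j h hi hj, neg_zero]),
          fun h => by
            change cf φ (0 + 3) (3 + 3) + cf φ (1 + 3) (2 + 3) = 0
            rw [top 0 3 h.symm, top 1 2 h.symm, ← neg_add, f2.1 h, neg_zero],
          fun h => (top 1 3 h.symm).trans (by rw [f2.2 h, neg_zero])⟩)
    have := ih d d.lt_succ_self _ (G.sub_mem h n2) (Z.sub_mem h4 (BZ n1)) n3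
    simpa using B.add_mem this n1
  intro φ h1 h2 h3 h4
  obtain ⟨n, n1, n2⟩ := hN.fin _ (hC.lc _ φ h1)
  refine (hB _).1 (key (2 * n) φ ((hG' _).2 ⟨h1, h2, h3⟩) ((hZ _).2 h4) fun i j _ _ h => ?_)
  rcases (by omega : n ≤ i ∨ n ≤ j) with h | h
  · exact n1 i j h j.zero_le (by omega)
  · exact n2 i j i.zero_le h (by omega)

theorem jac (N : ℕ) (h : N % 12 = 7 ∨ N % 12 = 5) : J(3 | N) = -1 := by
  have ho : Odd N := Nat.odd_iff.2 (by omega)
  have h3 : J(N | 3) = J((N % 3 : ℕ) | 3) := by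
    rw [jacobiSym.mod_left]
    rfl
  rcases h with h | h
  · have := jacobiSym.quadratic_reciprocity_three_mod_four (a := 3) (b := N) rfl (by omega)
    rw [h3, show N % 3 = 1 by omega] at this
    simpa using this
  · have := jacobiSym.quadratic_reciprocity_one_mod_four' (a := 3) (b := N) (by decide) (by omega)
    rw [h3, show N % 3 = 2 by omega] at this
    refine Eq.trans this ?_
    norm_num

theorem eqs (hO : RowOPS) (hC : RowCH) (φ ψ : Sb F3) (h1 : Sy φ) (h2 : Sy ψ)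
    (h : EqO (ch φ) (ch ψ)) : φ = ψ := by
  obtain ⟨M, hM⟩ := hO.sy F3
  rw [← sub_eq_zero]
  funext c c' v w
  exact AddSubgroup.mem_bot.1 (hC.uni _ (φ - ψ) ⊥ ((hM _).1 (M.sub_mem ((hM _).2 h1) ((hM _).2 h2)))
    (fun u y hu hy => sub_eq_zero.2 (h u y hu hy)) c c' v w)

end SOCA

open SOCA in
theorem rowSOC : OfSOC := by
  intro hO hE hM hC hT hN hR hX hY hP hK hD hG hA ⟨φ, m1, m2, m3⟩ ⟨ψ, p1, p2, p3⟩
  obtain ⟨M, hM'⟩ := hO.sy F3
  have gN : G0 mN := by unfold G0; decide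
  have sm : ∀ (χ : Sb F3) (n : ℤ), Sy χ → Sy (n • χ) := fun χ n h =>
    (hM' _).1 (M.zsmul_mem ((hM' _).2 h) n)
  constructor
  · intro N h1 h2 h3
    obtain ⟨a1, a2, a3, a4, a5⟩ := hA.m
    have q : cf φ = co a0m := hN.congr _ _ m2
    refine soc hO hE hM hC hT hN hR hX hY hP hK hD hG N 3 (Or.inl rfl) (Nat.odd_iff.2 (by omega))
      (by omega) (jac N (Or.inl h1)) φ m1 ?_ ?_ (q ▸ a4) (q ▸ a5) (m3 N h1 h2 h3)
    · refine eqs hO hC _ _ (hO.syOp _ φ m1.1).2.1 (sm _ _ m1.1) fun u y hu hy => ?_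
      rw [(hC.ops _ φ m1.1).2.2.1 u y hu hy, (hM.congr _ _ _ m2).1 mN gN u y hu hy, a2 u y hu hy]
      change -a0m u y = (-1 : ℤ) ^ 3 • ch φ u y
      rw [m2 u y hu hy]
      norm_num
    · refine eqs hO hC _ _ (hO.syOp _ φ m1.1).2.2.1 (sm _ _ m1.1) fun u y hu hy => ?_
      rw [(hC.ops _ φ m1.1).2.2.2 u y hu hy]
      change ch φ y u = (-1 : ℤ) • ch φ u y
      rw [m2 u y hu hy, m2 y u hy hu, neg_one_smul]
      exact a3 u y hu hy
  · intro N h1 h2 h3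
    obtain ⟨a1, a2, a3, a4, a5⟩ := hA.p
    have q : cf ψ = co a0p := hN.congr _ _ p2
    refine soc hO hE hM hC hT hN hR hX hY hP hK hD hG N 4 (Or.inr rfl) (Nat.odd_iff.2 (by omega))
      (by omega) (jac N (Or.inr h1)) ψ p1 ?_ ?_ (q ▸ a4) (q ▸ a5) (p3 N h1 h2 h3)
    · refine eqs hO hC _ _ (hO.syOp _ ψ p1.1).2.1 (sm _ _ p1.1) fun u y hu hy => ?_
      rw [(hC.ops _ ψ p1.1).2.2.1 u y hu hy, (hM.congr _ _ _ p2).1 mN gN u y hu hy, a2 u y hu hy]
      change a0p u y = (-1 : ℤ) ^ 4 • ch ψ u y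
      rw [p2 u y hu hy]
      norm_num
    · refine eqs hO hC _ _ (hO.syOp _ ψ p1.1).2.2.1 (sm _ _ p1.1) fun u y hu hy => ?_
      rw [(hC.ops _ ψ p1.1).2.2.2 u y hu hy]
      change ch ψ y u = (-1 : ℤ) • ch ψ u y
      rw [p2 u y hu hy, p2 y u hy hu, neg_one_smul]
      exact a3 u y hu hy

end Pool.Agent.MP_5f72fe_nt.MS
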