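import Pool.Agent.MP_5f72fe_nt.MS.S1

/-! Solving the three-term relation with control of the degrees. -/

namespace Pool.Agent.MP_5f72fe_nt.MS

namespace SOLVEA

lemma co1_add (b b' : ℚ → F3) (i : ℕ) : co1 (fun u => b u + b' u) i = co1 b i + co1 b' i := by
  exact congrFun (fwdDiff_iter_add (1 : ℚ) b b' i) 0

lemma co1_smul (k : F3) (b : ℚ → F3) (i : ℕ) : co1 (fun u => k * b u) i = k * co1 b i := by
  exact congrFun (fwdDiff_iter_const_smul (1 : ℚ) k b i) 0

lemma co1_sub (b b' : ℚ → F3) (i : ℕ) : co1 (fun u => b u - b' u) i = co1 b i - co1 b' i := by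
  have h := co1_add (fun u => b u - b' u) b' i
  simp only [sub_add_cancel] at h
  rw [h]; ring

lemma g0L : G0 mL := by simp [G0, mL]

lemma g0R : G0 mR := by simp [G0, mR]

lemma g0Li : G0 (1, 0, -3, 1) := by simp [G0]

/-- the top row of `act mL a` -/
lemma rowL (hB : RowBAS) (hD : RowD1) (hX : RowX3) (hN : RowN2) (a : Ch F3) (B j : ℕ)
    (ha : LC2 a) (hu : Up (B + 1) 0 0 (co a)) :
    co (act mL a) B j = co a B j + co a B (j + 1) := by
  have hMb : Mb 1 0 3 1 := by
    have h1 := (hB.int 1).2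
    have h3 := (hB.int 3).1
    refine ⟨by simpa using h1, by simp [In], by simpa using h3, by simpa using h1⟩
  have hr : red 3 ((1 : ℚ) / 1) = 1 := by simp [red]
  have key : ∀ k, co1 (fun u => co1 (a (mob 1 0 3 1 u)) k) B = co a B k := by
    intro k
    have hz : Z1 (B + 1) (fun u => co1 (a u) k) := fun i hi =>
      hu i k hi (Nat.zero_le _) (Nat.zero_le _)
    have := (hD.tri 1 0 3 1 hMb (fun u => co1 (a u) k) B (hN.col a ha k).1).2.2 hz
    rw [this, hr]; simp [co]
  have e : (fun u => co1 (act mL a u) j) =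
      fun u => co1 (a (mob 1 0 3 1 u)) j + co1 (a (mob 1 0 3 1 u)) (j + 1) := by
    funext u
    have h1 : act mL a u = fun y => a (mob 1 0 3 1 u) (y + 1) := by
      funext y
      simp only [act, mu, my, mL, mob]
      congr 1
      push_cast; ring
    have h2 := hX.shift (a (mob 1 0 3 1 u)) j
    rw [co1_sub (fun y => a (mob 1 0 3 1 u) (y + 1)) (a (mob 1 0 3 1 u))] at h2
    rw [h1, ← h2]; ring
  show co1 (fun u => co1 (act mL a u) j) B = _
  rw [e, co1_add, key, key]

/-- inverting `act mL - 1` -/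
lemma solveL (hB : RowBAS) (hM : RowMOB) (hD : RowD1) (hX : RowX3) (hN : RowN2) (hA : RowACT)
    (m : ℕ) : ∀ (B : ℕ) (w : Ch F3), LC2 w → Up 0 0 m (co w) → Up B 0 0 (co w) →
      ∃ z : Ch F3, LC2 z ∧ EqO (act mL z - z) w ∧ Up 0 0 (m + 1) (co z) ∧ Up B 0 0 (co z) := by
  obtain ⟨C, hC⟩ := hN.lin
  obtain ⟨M, hMm⟩ := hM.grp F3
  have hsub : ∀ a b : Ch F3, co (a - b) = co a - co b := fun a b => by
    rw [← hC, ← hC, ← hC, map_sub]
  have hadd : ∀ a b : Ch F3, co (a + b) = co a + co b := fun a b => by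
    rw [← hC, ← hC, ← hC, map_add]
  have hzero : co 0 = 0 := by rw [← hC, map_zero]
  intro B
  induction B with
  | zero =>
    intro w hw _ h0
    have hw0 : co w = 0 := by
      funext i j; exact h0 i j (Nat.zero_le _) (Nat.zero_le _) (Nat.zero_le _)
    refine ⟨0, (hMm _).1 M.zero_mem, ?_, ?_, ?_⟩
    · intro u y hu hy
      rw [hN.ext w hw hw0 u y hu hy]; simp [act]
    · intro i j _ _ _; rw [hzero]; rfl
    · intro i j _ _ _; rw [hzero]; rfl
  | succ B ih =>
    intro w hw hm hB1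
    let c : Ar := fun i j => if i = B ∧ 1 ≤ j then co w B (j - 1) else 0
    have c1 : Up (B + 1) 0 0 c := by
      intro i j hi _ _
      simp only [c]; rw [if_neg]; omega
    have c2 : Up 0 0 (m + 1) c := by
      intro i j _ _ hij
      simp only [c]; split_ifs with h
      · exact hm _ _ (Nat.zero_le _) (Nat.zero_le _) (by omega)
      · rfl
    obtain ⟨z0, hz0, hc⟩ := hN.ex c (B + m + 1)
      (fun i j hi _ _ => c1 i j (by omega) (Nat.zero_le _) (Nat.zero_le _))
      (fun i j _ hj _ => c2 i j (Nat.zero_le _) (Nat.zero_le _) (by omega))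
    have hLz : LC2 (act mL z0) := (hM.lc F3 z0 hz0).1 mL g0L
    have he : LC2 (act mL z0 - z0) :=
      (hMm _).1 (M.sub_mem ((hMm _).2 hLz) ((hMm _).2 hz0))
    have hr : LC2 (w - (act mL z0 - z0)) := (hMm _).1 (M.sub_mem ((hMm _).2 hw) ((hMm _).2 he))
    have d1 : Up 0 0 m (co (act mL z0 - z0)) :=
      hA.dr1 mL g0L (by simp [mL]) z0 0 0 m hz0 (hc ▸ c2)
    have d2 : Up (B + 1) 0 0 (co (act mL z0)) := hA.tri mL g0L z0 _ _ _ hz0 (hc ▸ c1)
    obtain ⟨z1, hz1, hE, u1, u2⟩ := ih (w - (act mL z0 - z0)) hr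
      (by
        intro i j hi hj hij
        rw [hsub, Pi.sub_apply, Pi.sub_apply, hm i j hi hj hij, d1 i j hi hj hij, sub_zero])
      (by
        intro i j hi hj hij
        rw [hsub, hsub]
        simp only [Pi.sub_apply]
        rcases Nat.eq_or_lt_of_le hi with h | h
        · subst h
          rw [rowL hB hD hX hN z0 B j hz0 (hc ▸ c1), hc]
          simp [c]
        · rw [hB1 i j h hj hij, d2 i j h hj hij, hc, c1 i j h hj hij]; simp)
    refine ⟨z0 + z1, (hMm _).1 (M.add_mem ((hMm _).2 hz0) ((hMm _).2 hz1)), ?_, ?_, ?_⟩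
    · intro u y hu hy
      have := hE u y hu hy
      simp only [act, Pi.sub_apply, Pi.add_apply] at this ⊢
      linear_combination this
    · intro i j hi hj hij
      rw [hadd, Pi.add_apply, Pi.add_apply, hc, c2 i j hi hj hij, u1 i j hi hj hij, add_zero]
    · intro i j hi hj hij
      rw [hadd, Pi.add_apply, Pi.add_apply, hc, c1 i j hi hj hij, u2 i j (by omega) hj hij,
        add_zero]

/-- the indicator of the multiples of `3` -/
noncomputable def chi (y : ℚ) : F3 := 1 - bn 1 y * bn 1 y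

lemma chi_Z1 (hN : RowBN) : Z1 (2 + 1) chi := by
  have h1 : Z1 (1 + 1) (bn 1) := fun i hi => by rw [hN.basis, if_neg (by omega)]
  have h2 := (hN.mul (bn 1) (bn 1) 1 1 h1 h1).1
  intro i hi
  have h0 : co1 (fun _ => (1 : F3)) i = 0 := by
    rw [hN.congr (fun _ => (1 : F3)) (bn 0) (fun m => by rw [hN.nat]; simp), hN.basis,
      if_neg (by omega)]
  have := co1_sub (fun _ => (1 : F3)) (bn 1 * bn 1) i
  rw [h0, h2 i (by omega), sub_zero] at this
  exact this

lemma chi_sum (hB : RowBAS) (hM : RowMOB) (hN : RowBN) (y : ℚ) (hy : In y) :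
    chi y + chi (my mR y) + chi (my mR (my mR y)) = 1 := by
  obtain ⟨O, hO⟩ := hB.ring
  obtain ⟨ra, rm, ri, -⟩ := hB.red3
  have step : ∀ x, In x → red 3 (my mR x) = red 3 x + 1 := by
    intro x hx
    have h1 : Un (1 : ℚ) := by simpa using (hB.int 1).2
    have hnx : In (-x) := (hO _).1 (O.neg_mem ((hO _).2 hx))
    have hu : Un (1 + 3 * -x) := hB.unAdd 1 (-x) h1 hnx
    have hne : (1 + 3 * -x) ≠ 0 := ((hB.un' _).1 hu).1
    have ht : In (x * x / (1 + 3 * -x)) :=
      hB.div _ _ ((hO _).1 (O.mul_mem ((hO _).2 hx) ((hO _).2 hx))) hu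
    have e : my mR x = x + ((1 : ℤ) : ℚ) + ((3 : ℤ) : ℚ) * (x * x / (1 + 3 * -x)) := by
      have hne' : (1 + 3 * -1 * x) ≠ 0 := by
        intro h; apply hne; linear_combination h
      simp only [my, mR]
      push_cast
      rw [div_eq_iff hne']
      have := div_mul_cancel₀ (x * x) hne
      linear_combination (-3) * this
    have i1 : In ((1 : ℤ) : ℚ) := (hO _).1 (intCast_mem O 1)
    have i3 : In ((3 : ℤ) : ℚ) := (hO _).1 (intCast_mem O 3)
    rw [e, ra _ _ ((hO _).1 (O.add_mem ((hO _).2 hx) ((hO _).2 i1)))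
      ((hO _).1 (O.mul_mem ((hO _).2 i3) ((hO _).2 ht))), ra _ _ hx i1, rm _ _ i3 ht, ri, ri]
    have : ((3 : ℤ) : ZMod 3) = 0 := by decide
    rw [this]; simp
  have h1 : In (my mR y) := (hM.pres mR g0R y hy).2.1
  have h2 : In (my mR (my mR y)) := (hM.pres mR g0R _ h1).2.1
  simp only [chi]
  rw [(hN.low _ hy).2, (hN.low _ h1).2, (hN.low _ h2).2, step _ h1, step _ hy]
  generalize red 3 y = r
  revert r
  decide

lemma co_chi (hN : RowN2) (w : Ch F3) (i j : ℕ) :
    co (fun u y => chi y * w u y) i j = co1 (chi * fun y => co1 (fun u => w u y) i) j := by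
  rw [← hN.swap]
  show co1 (fun y => co1 (fun u => chi y * w u y) i) j = _
  congr 1
  funext y
  rw [co1_smul]; rfl

end SOLVEA

open SOLVEA in
theorem rowSOLVE : OfSOLVE := by
  intro hB hM hN hD hX h2 hA w n B hw hR hn hBB
  obtain ⟨O, hO⟩ := hB.ring
  have hW : ∀ i j, co1 (fun y => co1 (fun u => w u y) i) j = co w i j := fun i j =>
    h2.swap w j i
  have lc : LC2 (fun u y => chi y * w u y) := by
    obtain ⟨k, hk⟩ := hw
    refine ⟨k + 1, fun u y b c hu hy hb hc => ?_⟩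
    have i3 : In ((3 : ℤ) : ℚ) := (hO _).1 (intCast_mem O 3)
    have h1 := hk u y (((3 : ℤ) : ℚ) * b) (((3 : ℤ) : ℚ) * c) hu hy
      ((hO _).1 (O.mul_mem ((hO _).2 i3) ((hO _).2 hb)))
      ((hO _).1 (O.mul_mem ((hO _).2 i3) ((hO _).2 hc)))
    have e : ∀ x : ℚ, (3 : ℚ) ^ (k + 1) * x = 3 ^ k * (((3 : ℤ) : ℚ) * x) := fun x => by
      push_cast; ring
    have h3 := hN.per 1 (k + 1) y c (Nat.one_lt_pow (by omega) (by omega)) hy hc
    show chi _ * w _ _ = chi y * w u y
    simp only [chi]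
    rw [h3, e b, e c, h1]
  have z0 : ∀ i, (∀ j, co w i j = 0) → ∀ j, co (fun u y => chi y * w u y) i j = 0 := by
    intro i hi j
    rw [co_chi h2]
    exact hN.mul0 chi _ (fun j _ => by rw [hW, hi]) j (Nat.zero_le _)
  have u1 : Up 0 0 (n + 2) (co fun u y => chi y * w u y) := by
    intro i j _ _ hij
    by_cases h : n ≤ i
    · exact z0 i (fun j => hn i j (Nat.zero_le _) (Nat.zero_le _) (by omega)) j
    · rw [co_chi h2]
      refine (hN.mul chi _ 2 (n - i - 1) (chi_Z1 hN) (fun j hj => ?_)).1 j (by omega)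
      rw [hW]
      exact hn i j (Nat.zero_le _) (Nat.zero_le _) (by omega)
  have u2 : Up B 0 0 (co fun u y => chi y * w u y) := fun i j hi _ _ =>
    z0 i (fun j => hBB i j hi (Nat.zero_le _) (Nat.zero_le _)) j
  obtain ⟨z, hz, hE, v1, v2⟩ := solveL hB hM hD hX h2 hA (n + 2) B _ lc u1 u2
  refine ⟨act mL z, (hM.lc F3 z hz).1 mL g0L, ?_, hA.tri mL g0L z _ _ _ hz v1,
    hA.tri mL g0L z _ _ _ hz v2⟩
  have base : ∀ u y, In u → In y →
      act mL z u y - act mL z (mu (1, 0, -3, 1) u) (my (1, 0, -3, 1) y) = chi y * w u y := by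
    intro u y hu hy
    have h1 := hE u y hu hy
    have hc := (hM.comp mL (1, 0, -3, 1) g0L g0Li).2
    have hI : mul mL (1, 0, -3, 1) = mI := by decide
    have e1 : mu mL (mu (1, 0, -3, 1) u) = u := by
      rw [← (hc u hu).1, hI]; simp [mu, mI]
    have e2 : my mL (my (1, 0, -3, 1) y) = y := by
      rw [← (hc y hy).2, hI]; simp [my, mI]
    simp only [act, Pi.sub_apply] at h1 ⊢
    rw [e1, e2, h1]
  intro u y hu hy
  have hu1 : In (mu mR u) := (hM.pres mR g0R u hu).1
  have hy1 : In (my mR y) := (hM.pres mR g0R y hy).2.1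
  have hu2 : In (mu mR (mu mR u)) := (hM.pres mR g0R _ hu1).1
  have hy2 : In (my mR (my mR y)) := (hM.pres mR g0R _ hy1).2.1
  have b0 := base u y hu hy
  have b1 := base _ _ hu1 hy1
  have b2 := base _ _ hu2 hy2
  have w1 : w (mu mR u) (my mR y) = w u y := hR u y hu hy
  have w2 : w (mu mR (mu mR u)) (my mR (my mR y)) = w u y := (hR _ _ hu1 hy1).trans w1
  have cs := chi_sum hB hM hN y hy
  have cRR := hM.comp mR mR g0R g0R
  have cLR := hM.comp (1, 0, -3, 1) mR g0Li g0R
  have cLRR := hM.comp (1, 0, -3, 1) (mul mR mR) g0Li cRR.1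
  have m1 : mul mR mR = (-2, 1, -3, 1) := by decide
  have m2 : mul (1, 0, -3, 1) mR = (1, -1, 0, 1) := by decide
  have m3 : mul (1, 0, -3, 1) (mul mR mR) = (-2, 1, 3, -2) := by decide
  rw [← (cLR.2 u hu).1, ← (cLR.2 y hy).2, m2, w1] at b1
  rw [w2, ← (cRR.2 u hu).1, ← (cRR.2 y hy).2, ← (cLRR.2 u hu).1, ← (cLRR.2 y hy).2, m3, m1] at b2
  rw [← (cRR.2 y hy).2, m1] at cs
  have i1 : mu mI u = u := by simp [mu, mI]
  have i2 : my mI y = y := by simp [my, mI]
  generalize act mL z = Z at b0 b1 b2 ⊢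
  simp only [app, rho, List.map_cons, List.map_nil, List.sum_cons, List.sum_nil, Pi.add_apply,
    act, Pi.zero_apply, one_smul, neg_smul, Pi.neg_apply, i1, i2]
  linear_combination b0 + b1 + b2 + w u y * cs

end Pool.Agent.MP_5f72fe_nt.MS
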