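import Pool.Agent.MP_5f72fe_nt.MS.S3

/-! Row SYM: the symbol of an automorphic form. -/

set_option autoImplicit false

namespace Pool.Agent.MP_5f72fe_nt.MS

namespace SYMA

theorem ap_zero (g : Mt) : ap g 0 = 0 := by simp [ap]

theorem dt_ap (g : Mt) (v w : V) : dt (ap g v) (ap g w) = det g * dt v w := by
  simp only [dt, ap, det]
  push_cast
  ring

theorem ap_ne (g : Mt) (hg : det g ≠ 0) (c : V) (hc : c ≠ 0) : ap g c ≠ 0 := by
  intro e
  have hg' : (det g : ℚ) ≠ 0 := by exact_mod_cast hg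
  have h1 := dt_ap g c e1
  have h2 := dt_ap g c e2
  rw [e] at h1 h2
  have h3 : dt c e1 = 0 := (mul_eq_zero.1 (h1.symm.trans (by simp [dt]))).resolve_left hg'
  have h4 : dt c e2 = 0 := (mul_eq_zero.1 (h2.symm.trans (by simp [dt]))).resolve_left hg'
  exact hc (Prod.ext (by simpa [dt, e2] using h4) (by simpa [dt, e1] using h3))

theorem apN (v : V) : ap mN (ap mN v) = v := by simp [ap, mN]

theorem sB_pos (k : ℕ) (F : Af) {c c' : V} (h : c = 0 ∨ c' = 0) (v w x y : V) :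
    sB k F c c' v w x y = 0 := if_pos h

theorem sB_neg (k : ℕ) (F : Af) {c c' : V} (h : c ≠ 0) (h' : c' ≠ 0) (v w x y : V) :
    sB k F c c' v w x y = Per k (F v w) x y c c' := if_neg (not_or.2 ⟨h, h'⟩)

theorem sB_ap (hP : RowPER) (k : ℕ) (hk : 1 ≤ k) (F : Af) (hF : ∀ v w, Cu k (F v w)) (g : Mt)
    (hg : 0 < det g) (c c' v w x y : V) :
    sB k F (ap g c) (ap g c') (ap g v) (ap g w) (ap g x) (ap g y) =
      ((det g : ℚ) ^ (k - 1)) • sB k (lF k g F) c c' v w x y := by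
  by_cases h : c = 0 ∨ c' = 0
  · rw [sB_pos k _ h, sB_pos, smul_zero]
    rcases h with rfl | rfl
    · exact Or.inl (ap_zero g)
    · exact Or.inr (ap_zero g)
  · obtain ⟨h1, h2⟩ := not_or.1 h
    rw [sB_neg k _ h1 h2, sB_neg k _ (ap_ne g hg.ne' c h1) (ap_ne g hg.ne' c' h2),
      hP k g _ x y c c' hk hg (hF _ _) h1 h2, Rat.smul_def]
    push_cast
    rfl

theorem lf_sy (hP : RowPER) (k : ℕ) (hk : 1 ≤ k) (F : Af) (hF : ∀ v w, Cu k (F v w)) (g : Mt)
    (hg : 0 < det g) : lf g (sy k F) = sy k (lF k g F) := by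
  funext c c' v w
  have hg' : (det g : ℚ) ≠ 0 := by exact_mod_cast hg.ne'
  simp only [lf, sy, ph]
  rw [sB_ap hP k hk F hF g hg, dt_ap, smul_smul, ← mul_pow, mul_inv, mul_comm (det g : ℚ)⁻¹,
    mul_assoc, inv_mul_cancel₀ hg', mul_one]

theorem sy_add (hC : RowCU) (k : ℕ) (F G : Af) (hF : ∀ v w, Cu k (F v w))
    (hG : ∀ v w, Cu k (G v w)) : sy k (F + G) = sy k F + sy k G := by
  funext c c' v w
  simp only [sy, ph, Pi.add_apply]
  rw [← smul_add]
  congr 1
  by_cases h : c = 0 ∨ c' = 0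
  · simp only [sB_pos k _ h, add_zero]
  · obtain ⟨h1, h2⟩ := not_or.1 h
    simp only [sB_neg k _ h1 h2, Pi.add_apply]
    exact (hC.perLin k v w c c' _ _ 0 (hF v w) (hG v w)).1

theorem sy_smul (hC : RowCU) (k : ℕ) (F : Af) (a : ℂ) (hF : ∀ v w, Cu k (F v w)) :
    sy k (a • F) = a • sy k F := by
  funext c c' v w
  simp only [sy, ph, Pi.smul_apply]
  rw [smul_comm a]
  congr 1
  by_cases h : c = 0 ∨ c' = 0
  · simp only [sB_pos k _ h, smul_zero]
  · obtain ⟨h1, h2⟩ := not_or.1 h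
    simp only [sB_neg k _ h1 h2, Pi.smul_apply]
    exact (hC.perLin k v w c c' _ _ a (hF v w) (hF v w)).2

theorem per_zero (k : ℕ) (x y c c' : V) : Per k 0 x y c c' = 0 := by simp [Per, Pc]

theorem sy_sum (hC : RowCU) (k : ℕ) (s : Finset ℕ) (G : ℕ → Af)
    (hG : ∀ j v w, Cu k (G j v w)) :
    (∀ v w, Cu k ((∑ j ∈ s, G j) v w)) ∧ sy k (∑ j ∈ s, G j) = ∑ j ∈ s, sy k (G j) := by
  obtain ⟨M, hM⟩ := hC.sub k
  induction s using Finset.induction_on with
  | empty =>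
    refine ⟨fun v w => (hM _).1 M.zero_mem, ?_⟩
    funext c c' v w
    simp [sy, ph, sB, per_zero]
  | insert j s hj ih =>
    rw [Finset.sum_insert hj, Finset.sum_insert hj, sy_add hC k _ _ (hG j) ih.1, ih.2]
    exact ⟨fun v w => (hM _).1 (M.add_mem ((hM _).2 (hG j v w)) ((hM _).2 (ih.1 v w))), rfl⟩

end SYMA

open SYMA

theorem rowSYM : OfSYM := by
  intro hI _ _ hC hP
  refine ⟨fun k n F hk hF => ⟨?_, ?_, ?_, ?_, ?_, ?_⟩, fun k n n' F G a hF hG => ?_,
    fun k n l F hk hl hF hH => ?_, fun k n F hk hF => ?_⟩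
  · intro c c' v w x y h
    rcases h with h | h | h
    · exact sB_pos k F (Or.inl h) v w x y
    · exact sB_pos k F (Or.inr h) v w x y
    · simp [sB, hF.junk v w h, per_zero]
  · intro v w x y
    refine ⟨fun c l hc hl => ?_, fun c c' c'' h h' h'' => ?_⟩
    · rw [sB_neg k F hc (smul_ne_zero hl hc)]
      exact (hC.perAd k _ x y).hom c l hc hl
    · rw [sB_neg k F h h', sB_neg k F h' h'', sB_neg k F h h'']
      exact (hC.perAd k _ x y).add c c' c'' h h' h''
  · intro g a hg c c' v w x y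
    have e : lF k g F = F := by
      funext v w
      exact hF.inv g a hg v w
    rw [sB_ap hP k hk F hF.cu g (by rw [hg]; positivity), e]
  · intro c c' x y v w a b d e ha hb hd he
    simp only [sB]
    rw [hF.rk v w a b d e ha hb hd he]
  · intro c c' v w y
    by_cases h : c = 0 ∨ c' = 0
    · exact ⟨0, fun x => by simp [sB_pos k F h]⟩
    · obtain ⟨h1, h2⟩ := not_or.1 h
      simp only [sB_neg k F h1 h2]
      exact (hC.perPol k _ c c' y (hF.cu v w)).1
  · intro c c' v w x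
    by_cases h : c = 0 ∨ c' = 0
    · exact ⟨0, fun x => by simp [sB_pos k F h]⟩
    · obtain ⟨h1, h2⟩ := not_or.1 h
      simp only [sB_neg k F h1 h2, ← (hC.perPol k _ c c' x (hF.cu v w)).2]
      exact (hC.perPol k _ c c' x (hF.cu v w)).1
  · obtain ⟨M, hM⟩ := hC.sub k
    rw [sy_add hC k F (a • G) hF.cu fun v w => (hM _).1 (M.smul_mem a ((hM _).2 (hG.cu v w))),
      sy_smul hC k G a hG.cu]
  · obtain ⟨a, ha⟩ := hH
    have hl0 : (0 : ℤ) < l := by rcases hl with rfl | rfl <;> norm_num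
    have d1 : 0 < det ((l : ℤ), 0, 0, 1) := by simpa [det] using hl0
    have d2 : ∀ j : ℕ, 0 < det (1, (j : ℤ), 0, (l : ℤ)) := fun j => by simpa [det] using hl0
    have S := sy_sum hC k (Finset.range l) (fun j => lF k (1, j, 0, l) F)
      fun j v w => hC.cu k _ _ (d2 j) (hF.cu _ _)
    refine ⟨a, ?_⟩
    rw [← sy_smul hC k F a hF.cu, ← ha, TF,
      sy_add hC k (lF k (l, 0, 0, 1) F) _ (fun v w => hC.cu k _ _ d1 (hF.cu _ _)) S.1, S.2, Tl,
      lf_sy hP k hk F hF.cu _ d1]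
    congr 1
    exact Finset.sum_congr rfl fun j _ => lf_sy hP k hk F hF.cu _ (d2 j)
  · funext c c' v w
    simp only [cj, lf, sg, Pi.neg_apply, apN, neg_neg, sy, ph]
    by_cases h : c = 0 ∨ c' = 0
    · simp only [sB_pos k _ h, smul_zero]
    · obtain ⟨h1, h2⟩ := not_or.1 h
      have hc := hF.cu w ((3 : ℚ) • v)
      have e1 := (hI.hom ℂ (k - 1) _ (hC.perPol k _ c c' w hc).1).1 3 v
      have e2 : dt w ((3 : ℚ) • v) = -3 * dt v w := by
        simp only [dt, Prod.smul_fst, Prod.smul_snd, smul_eq_mul]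
        ring
      have e3 : (-3 * dt v w)⁻¹ * 3 = (dt v w)⁻¹ * -1 := by
        rw [mul_inv]
        ring
      rw [sB_neg k _ h1 h2, sB_neg k _ h1 h2, ← (hC.perPol k _ c c' w hc).2, e1, smul_smul,
        ← mul_pow, e2, e3, mul_pow, ← smul_smul, Fw,
        (hC.perLin k v w c c' _ _ ((-1) ^ (k - 1)) hc hc).2, Rat.smul_def ((-1) ^ (k - 1))]
      push_cast
      rfl

end Pool.Agent.MP_5f72fe_nt.MS
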