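import Pool.Agent.MP_5f72fe_nt.MS.S3

/-! Row THMA: the rectangle relation for automorphic forms. -/

namespace Pool.Agent.MP_5f72fe_nt.MS

open scoped NumberTheorySymbols

namespace THMAA

theorem Tl_smul (l : ℕ) (a : ℂ) (φ : Sb ℂ) : Tl l (a • φ) = a • Tl l φ := by
  unfold Tl
  rw [smul_add, Finset.smul_sum]
  rfl

theorem wd_smul (l : List Bool) : ∀ (a : ℂ) (φ : Sb ℂ), wd l (a • φ) = a • wd l φ := by
  induction l with
  | nil => intro a φ; rfl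
  | cons b l ih =>
    intro a φ
    show wd l (Tl (if b then 2 else 7) (a • φ)) = a • wd l (Tl (if b then 2 else 7) φ)
    rw [Tl_smul, ih]

theorem ell_smul (N : ℕ) (a : ℂ) (φ : Sb ℂ) : ell N (a • φ) = a • ell N φ := by
  unfold ell
  rw [Finset.smul_sum]
  refine Finset.sum_congr rfl fun m _ => ?_
  simp only [Pi.smul_apply]
  rw [smul_comm]

theorem wd_eigen (φ : Sb ℂ) (h2 : ∃ a : ℂ, Tl 2 φ = a • φ) (h7 : ∃ a : ℂ, Tl 7 φ = a • φ)
    (l : List Bool) : ∃ μ : ℂ, wd l φ = μ • φ := by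
  obtain ⟨a, ha⟩ := h2
  obtain ⟨b, hb⟩ := h7
  induction l with
  | nil => exact ⟨1, (one_smul _ _).symm⟩
  | cons c l ih =>
    obtain ⟨μ, hμ⟩ := ih
    cases c with
    | true =>
      refine ⟨a * μ, ?_⟩
      show wd l (Tl 2 φ) = _
      rw [ha, wd_smul, hμ, mul_smul]
    | false =>
      refine ⟨b * μ, ?_⟩
      show wd l (Tl 7 φ) = _
      rw [hb, wd_smul, hμ, mul_smul]

theorem map_rect {A B : Type} [AddCommGroup A] [AddCommGroup B] (ψ : A →+ B) (F : V → V → A)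
    (τ : ℤ) (M : ℕ) (v w : V) (α β : ℚ) :
    ψ (∑ i ∈ Finset.range (2 * M + 1), τ ^ i • Rc F (3 ^ i / 3 ^ M) v w α β) =
      ∑ i ∈ Finset.range (2 * M + 1),
        τ ^ i • Rc (fun v w => ψ (F v w)) (3 ^ i / 3 ^ M) v w α β := by
  rw [map_sum]
  refine Finset.sum_congr rfl fun i _ => ?_
  rw [map_zsmul]
  simp only [Rc, map_add, map_sub]

theorem apN_add (v w : V) : ap mN (v + w) = ap mN v + ap mN w := by
  simp only [ap, mN, Prod.fst_add, Prod.snd_add, Prod.mk_add_mk]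
  refine Prod.ext ?_ ?_
  · simp only; ring
  · simp only; ring

theorem apN_smul (s : ℚ) (v : V) : ap mN (s • v) = s • ap mN v := by
  simp only [ap, mN, Prod.smul_fst, Prod.smul_snd, Prod.smul_mk, smul_eq_mul]
  refine Prod.ext ?_ ?_ <;> simp

theorem apN_ne (c : V) (hc : c ≠ 0) : ap mN c ≠ 0 := by
  intro h
  apply hc
  have h1 := congrArg Prod.fst h
  have h2 := congrArg Prod.snd h
  simp [ap, mN] at h1 h2
  exact Prod.ext h1 h2

/-- the symmetrised symbol -/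
theorem sym (hO : RowOPS) (hE : RowELL) (τ ε : ℤ) (N : ℕ) (s : Sb ℂ) (hτ : τ = 1 ∨ τ = -1)
    (hε : ε = 1 ∨ ε = -1) (hN : Odd N) (h3 : ¬ 3 ∣ N) (hs : Sy s)
    (hw : ∀ l, ell N (wd l s) = 0) (Φ : Sb ℂ)
    (hΦ : Φ = s + ε • cj s + τ • sg s + (τ * ε) • cj (sg s)) :
    cj Φ = ε • Φ ∧ sg Φ = τ • Φ ∧ ∀ l, ell N (wd l Φ) = 0 := by
  obtain ⟨t, c, g, T, W, L, hl⟩ := hO.lin ℂ
  have hc : ∀ φ, cj φ = c φ := fun φ => (hl φ).2.1.symm
  have hg : ∀ φ, sg φ = g φ := fun φ => (hl φ).2.2.1.symm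
  have hW : ∀ l φ, wd l φ = W l φ := fun l φ => ((hl φ).2.2.2.2.1 l).symm
  have hL : ∀ φ, ell N φ = L N φ := fun φ => ((hl φ).2.2.2.2.2 N).symm
  have hsg : Sy (sg s) := (hO.syOp ℂ s hs).2.2.1
  have a1 := hO.alg ℂ s hs
  have a2 := hO.alg ℂ (sg s) hsg
  have e1 : c (c s) = s := by rw [← hc, ← hc]; exact a1.1
  have e2 : c (c (g s)) = g s := by rw [← hc, ← hc, ← hg]; exact a2.1
  have e3 : g (g s) = s := by rw [← hg, ← hg]; exact a1.2.1
  have e4 : g (c s) = c (g s) := by rw [← hg, ← hc, ← hc, ← hg]; exact a1.2.2.2.2.1.symm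
  have e5 : g (c (g s)) = c s := by
    rw [← hg, ← hc, ← hg, ← hc, ← a2.2.2.2.2.1, a1.2.1]
  refine ⟨?_, ?_, fun l => ?_⟩
  · rw [hΦ]
    simp only [hc, hg, map_add, map_zsmul, e1, e2]
    rcases hτ with rfl | rfl <;> rcases hε with rfl | rfl <;> simp <;> abel
  · rw [hΦ]
    simp only [hc, hg, map_add, map_zsmul, e3, e4, e5]
    rcases hτ with rfl | rfl <;> rcases hε with rfl | rfl <;> simp <;> abel
  · have hws : Sy (wd l s) := (hO.syOp ℂ s hs).2.2.2.2.2 l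
    have hws' : Sy (sg (wd l s)) := (hO.syOp ℂ _ hws).2.2.1
    have b1 := hE ℂ (wd l s) N hws hN h3
    have b2 := hE ℂ (sg (wd l s)) N hws' hN h3
    have f1 : ell N (wd l (cj s)) = 0 := by rw [(a1.2.2.2.2.2 l).2.1, b1.2.1, hw, smul_zero]
    have f2' : ell N (sg (wd l s)) = 0 := by rw [b1.2.2, hw, smul_zero]
    have f2 : ell N (wd l (sg s)) = 0 := by rw [(a1.2.2.2.2.2 l).2.2, f2']
    have f3 : ell N (wd l (cj (sg s))) = 0 := by
      rw [(a2.2.2.2.2.2 l).2.1, (a1.2.2.2.2.2 l).2.2, b2.2.1, f2', smul_zero]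
    have f0 := hw l
    rw [hW, hL] at f0 f1 f2 f3
    rw [hΦ, hW, hL]
    simp only [map_add, map_zsmul, f0, f1, f2, f3, smul_zero, add_zero]

end THMAA

open THMAA in
theorem rowTHMA : OfTHMA := by
  intro hO hE hBD hB hCU hIA hI1 hSY hAU τ ε N k n M F hτ hε hSoc hN h3 hJ hk hn hM hF h2 h7 hell
  have hInj : Inj k := by
    rcases Nat.lt_or_ge k 2 with h | h
    · have : k = 1 := by omega
      subst this
      exact hI1
    · exact hIA k h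
  set G : Af := F + (-(τ * ε : ℤ) : ℂ) • Fw k F with hG
  have hFw : Aut k (n + 1) (Fw k F) := hAU.fw k n F hn hF
  have hGa : Aut k (n + 1) G := hAU.lin k (n + 1) F (Fw k F) _ (hAU.mono k n F hF) hFw
  have hs : Sy (sy k F) := (hBD ℂ k n (sB k F) (hSY.bd k n F hk hF)).1
  have hsyG : sy k G = sy k F + (τ * ε) • cj (sg (sy k F)) := by
    rw [hG, hSY.lin k n (n + 1) F (Fw k F) _ hF hFw, hSY.fw k n F hk hF, smul_neg, neg_smul,
      neg_neg, Int.cast_smul_eq_zsmul]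
  have hbd := hBD ℂ k (n + 1) (sB k G) (hSY.bd k (n + 1) G hk hGa)
  have hbd1 := hbd.2.2.1 ((ε : ℚ) * (-1) ^ (k - 1))
  have hph := hbd.2.2.2 ε
  have hw : ∀ l, ell N (wd l (sy k F)) = 0 := by
    intro l
    obtain ⟨μ, hμ⟩ := wd_eigen (sy k F) (hSY.hk k n 2 F hk (Or.inl rfl) hF h2)
      (hSY.hk k n 7 F hk (Or.inr rfl) hF h7) l
    rw [hμ, ell_smul, hell, smul_zero]
  have hΦ : ph k (sB k G) + ε • cj (ph k (sB k G)) =
      sy k F + ε • cj (sy k F) + τ • sg (sy k F) + (τ * ε) • cj (sg (sy k F)) := by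
    obtain ⟨t, c, g, T, W, L, hl⟩ := hO.lin ℂ
    have hc : ∀ φ, cj φ = c φ := fun φ => (hl φ).2.1.symm
    have e2 : c (c (sg (sy k F))) = sg (sy k F) := by
      rw [← hc, ← hc]; exact (hO.alg ℂ _ (hO.syOp ℂ _ hs).2.2.1).1
    show sy k G + ε • cj (sy k G) = _
    rw [hsyG]
    simp only [hc, map_add, map_zsmul, e2]
    rcases hτ with rfl | rfl <;> rcases hε with rfl | rfl <;> simp <;> abel
  obtain ⟨c1, c2, c3⟩ := sym hO hE τ ε N (sy k F) hτ hε hN h3 hs hw _ (hph.trans hΦ)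
  have hR := hB τ ε N k (n + 1) ℂ _ hτ hε hSoc hN h3 hJ (by omega) hbd1 c1 c2 c3 M
  intro v w α β hvw hα hβ hu
  obtain ⟨M1, hM1⟩ := hCU.sub k
  obtain ⟨M2, hM2⟩ := hCU.subg k
  have hmem : ∀ v w, G v w ∈ M1 ⊓ M2 := fun v w =>
    ⟨(hM1 _).2 (hGa.cu v w), (hM2 _).2 (hAU.cg k (n + 1) G (by omega) hGa v w)⟩
  let G' : V → V → (M1 ⊓ M2 : Submodule ℂ (ℂ → ℂ)) := fun v w => ⟨G v w, hmem v w⟩
  let P : V → V → V → V → ((M1 ⊓ M2 : Submodule ℂ (ℂ → ℂ)) →+ ℂ) := fun x y c c' =>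
    AddMonoidHom.mk' (fun h => Per k h.1 x y c c') fun a b =>
      (hCU.perLin k x y c c' a.1 b.1 0 ((hM1 _).1 a.2.1) ((hM1 _).1 b.2.1)).1
  let H : V → V → (M1 ⊓ M2 : Submodule ℂ (ℂ → ℂ)) := fun v w =>
    ∑ i ∈ Finset.range (2 * M + 1), τ ^ i • Rc G' (3 ^ i / 3 ^ M) v w α β
  have hH : (H v w).1 = ∑ i ∈ Finset.range (2 * M + 1), τ ^ i • Rc G (3 ^ i / 3 ^ M) v w α β :=
    map_rect (M1 ⊓ M2).subtype.toAddMonoidHom G' τ M v w α β
  rw [← hH]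
  refine hInj (H v w).1 (H (ap mN v) (ap mN w)).1 (((ε : ℚ) * (-1) ^ (k - 1) : ℚ) : ℂ)
    ((hM1 _).1 (H v w).2.1) ((hM1 _).1 (H _ _).2.1) ((hM2 _).1 (H v w).2.2)
    ((hM2 _).1 (H _ _).2.2) fun x y c c' hc hc' => ?_
  have p1 : Per k (H v w).1 x y c c' = _ := map_rect (P x y c c') G' τ M v w α β
  have p2 : Per k (H (ap mN v) (ap mN w)).1 (ap mN x) (ap mN y) (ap mN c) (ap mN c') = _ :=
    map_rect (P (ap mN x) (ap mN y) (ap mN c) (ap mN c')) G' τ M (ap mN v) (ap mN w) α β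
  rw [p1, p2, Finset.mul_sum, ← Finset.sum_add_distrib, ← hR c c' x y hM v w α β hvw hα hβ hu]
  refine Finset.sum_congr rfl fun i _ => ?_
  have n1 : ¬ (c = 0 ∨ c' = 0) := by tauto
  have n2 : ¬ (ap mN c = 0 ∨ ap mN c' = 0) := by
    have := apN_ne c hc
    have := apN_ne c' hc'
    tauto
  simp only [Rc, sB, if_neg n1, if_neg n2, apN_add, apN_smul, Rat.smul_def, zsmul_eq_mul, P, G',
    AddMonoidHom.mk'_apply]
  ring

end Pool.Agent.MP_5f72fe_nt.MS
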