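import Pool.Agent.MP_5f72fe_nt.MS.S2

/-! From the socle statement to all powers of `3`. -/

namespace Pool.Agent.MP_5f72fe_nt.MS

open scoped NumberTheorySymbols

namespace THMPA

theorem step (hO : RowOPS) (hE : RowELL) (hL : RowLIFTJ) {τ ε : ℤ} {N : ℕ} (hτ : τ = 1 ∨ τ = -1)
    (hε : ε = 1 ∨ ε = -1) (hS : Soc τ ε N) (ho : Odd N) (h3 : ¬ 3 ∣ N) (hJ : J(3 | N) = τ)
    {A A' : Type} [AddCommGroup A] [AddCommGroup A'] (i : F3 →+ A) (π : A →+ A')
    (hi : Function.Injective i) (hπ : Function.Surjective π) (hk : ∀ x, π x = 0 ↔ ∃ y, i y = x)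
    (m : ℤ) (hm : ∀ x : A, (m * 4) • x = x) (ψ : Sb A) (h1 : SL ψ) (h2 : cj ψ = ε • ψ)
    (h4 : sg ψ = τ • ψ) (h5 : ∀ l, ell N (wd l ψ) = 0) (z' : Sb A') (z1 : SL z')
    (z2 : (fun c c' v w => π (ψ c c' v w)) = z' - τ • tt z') :
    ∃ z : Sb A, SL z ∧ ψ = z - τ • tt z := by
  obtain ⟨M, hM⟩ := hO.sl A
  obtain ⟨t, c, s, T, W, L, hl⟩ := hO.lin A
  have ht : ∀ φ, tt φ = t φ := fun φ => (hl φ).1.symm
  have hc : ∀ φ, cj φ = c φ := fun φ => (hl φ).2.1.symm
  have hs : ∀ φ, sg φ = s φ := fun φ => (hl φ).2.2.1.symm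
  have hW : ∀ l φ, wd l φ = W l φ := fun l φ => ((hl φ).2.2.2.2.1 l).symm
  have hL' : ∀ φ, ell N φ = L N φ := fun φ => ((hl φ).2.2.2.2.2 N).symm
  have mt : ∀ x ∈ M, t x ∈ M := fun x h => (hM _).2 (ht x ▸ (hO.slOp _ x ((hM _).1 h)).1)
  have mc : ∀ x ∈ M, c x ∈ M := fun x h => (hM _).2 (hc x ▸ (hO.slOp _ x ((hM _).1 h)).2.1)
  have ms : ∀ x ∈ M, s x ∈ M := fun x h => (hM _).2 (hs x ▸ (hO.slOp _ x ((hM _).1 h)).2.2.1)
  have al : ∀ x ∈ M, c (c x) = x ∧ s (s x) = x ∧ t (s (t x)) = s x ∧ c (t x) = t (c x) ∧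
      c (s x) = s (c x) := fun x h => by
    obtain ⟨a, b, d, e, f, -⟩ := hO.alg _ x ((hM _).1 h).1
    simp only [ht, hc, hs] at a b d e f
    exact ⟨a, b, d, e, f⟩
  have τ2 : τ * τ = 1 := by rcases hτ with rfl | rfl <;> rfl
  have ε2 : ε * ε = 1 := by rcases hε with rfl | rfl <;> rfl
  obtain ⟨y, y1, y2⟩ := hL A A' i π z' hi hπ hk z1
  have y3 := (hM _).2 y1
  have p3 := (hM _).2 h1
  rw [hc] at h2
  rw [hs] at h4
  obtain ⟨u, hu⟩ : ∃ u, u = y - s (t y) := ⟨_, rfl⟩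
  have u3 : u ∈ M := hu ▸ M.sub_mem y3 (ms _ (mt _ y3))
  obtain ⟨z, hz⟩ : ∃ z, z = m • (u + ε • c u) := ⟨_, rfl⟩
  have z3 : z ∈ M := hz ▸ M.zsmul_mem (M.add_mem u3 (M.zsmul_mem (mc _ u3) _)) _
  obtain ⟨x, hx⟩ : ∃ x, x = ψ - (y - τ • t y) := ⟨_, rfl⟩
  have x3 : x ∈ M := hx ▸ M.sub_mem p3 (M.sub_mem y3 (M.zsmul_mem (mt _ y3) _))
  obtain ⟨a1, a2, -, -, a5⟩ := al x x3
  obtain ⟨D, hD⟩ : ∃ D, D = m • (x + τ • s x + ε • c (x + τ • s x)) := ⟨_, rfl⟩
  have e1 : x + τ • s x = (2 : ℤ) • ψ - (u - τ • t u) := by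
    simp only [hx, hu, map_sub, map_zsmul, h4, (al y y3).2.2.1, smul_sub, smul_smul, τ2, one_smul]
    module
  have e2 : D = ψ - (z - τ • t z) := by
    have : (m * 4) • ψ = ψ := by
      funext a b v w
      exact hm _
    rw [hD, e1, hz]
    simp only [map_sub, map_add, map_zsmul, h2, (al u u3).2.2.2.1, smul_sub, smul_add, smul_smul,
      mul_left_comm ε, ε2]
    linear_combination (norm := module) this
  have D3 : D ∈ M := e2 ▸ M.sub_mem p3 (M.sub_mem z3 (M.zsmul_mem (mt _ z3) _))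
  have x0 : ∀ a b v w, π (x a b v w) = 0 := fun a b v w => by
    have := congrFun (congrFun (congrFun (congrFun z2 a) b) v) w
    rw [hx, ← ht]
    simp only [Pi.sub_apply, Pi.smul_apply, map_sub, map_zsmul, tt, y2] at this ⊢
    rw [this, sub_self]
  have D0 : ∀ a b v w, ∃ q, i q = D a b v w := fun a b v w => (hk _).1 (by
    rw [hD, map_add, map_zsmul, ← hc, ← hc, ← hs]
    simp [cj, lf, sg, x0])
  choose ξ hξ using D0
  have eD : (fun a b v w => i (ξ a b v w)) = D := by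
    funext a b v w
    exact hξ a b v w
  have cD : cj D = ε • D := by
    rw [hc, hD]
    simp only [map_add, map_zsmul, a1, (al _ (ms x x3)).1, smul_add, smul_smul, mul_left_comm ε,
      ← mul_assoc ε ε, ε2]
    module
  have sD : sg D = τ • D := by
    rw [hs, hD]
    simp only [map_add, map_zsmul, a2, a5, (al _ (mc x x3)).2.1, smul_add, smul_smul,
      mul_left_comm τ, τ2]
    module
  obtain ⟨z0, w1, w2⟩ := hS ξ (hO.comap _ _ i ξ hi (eD ▸ (hM _).1 D3))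
    (by
      funext a b v w
      apply hi
      have := congrFun (congrFun (congrFun (congrFun cD a) b) v) w
      simpa only [cj, lf, hξ, Pi.smul_apply, map_zsmul] using this)
    (by
      funext a b v w
      apply hi
      have := congrFun (congrFun (congrFun (congrFun sD a) b) v) w
      simpa only [sg, hξ, Pi.smul_apply, map_zsmul, map_neg] using this)
    fun l => hi (by
      have zz := ((hM _).1 z3).1
      have := (hE _ (wd l z) N ((hO.syOp _ z zz).2.2.2.2.2 l) ho h3).1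
      rw [← ((hO.alg _ z zz).2.2.2.2.2 l).1, hJ, ht] at this
      rw [← (hO.map _ _ i ξ).2.2, eD, e2, map_zero, hW, map_sub, map_sub, map_zsmul, hL', map_sub,
        map_sub, map_zsmul, ← hL', ← hL', ← hL', ← hW, ← hW, ← hW, h5, this, smul_smul, τ2,
        one_smul, sub_self, sub_zero])
  refine ⟨z + fun a b v w => i (z0 a b v w),
    (hM _).1 (M.add_mem z3 ((hM _).2 ((hO.map _ _ i z0).2.1 w1))), ?_⟩
  funext a b v w
  have h6 := hξ a b v w
  rw [w2, e2, ← ht] at h6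
  simp only [Pi.sub_apply, Pi.add_apply, Pi.smul_apply, map_sub, map_zsmul, tt, smul_add] at h6 ⊢
  linear_combination (norm := module) -h6

theorem all (hB : RowBAS) (hO : RowOPS) (hE : RowELL) (hL : RowLIFTJ) {τ ε : ℤ} {N : ℕ}
    {φ : Sb ℚ} (hτ : τ = 1 ∨ τ = -1) (hε : ε = 1 ∨ ε = -1) (hS : Soc τ ε N) (ho : Odd N)
    (h3 : ¬ 3 ∣ N) (hJ : J(3 | N) = τ) (h1 : Sy φ) (hI : ∀ c c' v w, In (φ c c' v w)) (hK : CK φ)
    (h2 : cj φ = ε • φ) (h4 : sg φ = τ • φ) (h5 : ∀ l, ell N (wd l φ) = 0) (j : ℕ) :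
    ∃ z : Sb (ZMod (3 ^ j)), SL z ∧
      (fun c c' v w => red (3 ^ j) (φ c c' v w)) = z - τ • tt z := by
  obtain ⟨O, hO'⟩ := hB.ring
  let φ' : Sb O := fun c c' v w => ⟨φ c c' v w, (hO' _).2 (hI c c' v w)⟩
  have s1 : Sy φ' := ⟨fun c c' v w h => Subtype.ext (h1.junk c c' v w h),
    fun v w => ⟨fun c l a b => Subtype.ext ((h1.ad v w).hom c l a b),
      fun c c' c'' a b d => Subtype.ext ((h1.ad v w).add c c' c'' a b d)⟩,
    fun g a h => by
      funext c c' v w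
      exact Subtype.ext (congrFun (congrFun (congrFun (congrFun (h1.inv g a h) c) c') v) w),
    fun c c' v w x y a b => Subtype.ext (h1.tor c c' v w x y a b)⟩
  let ρ : ∀ j, O →+ ZMod (3 ^ j) := fun j => AddMonoidHom.mk' (fun x => red (3 ^ j) x)
    fun x y => hB.redAdd j _ _ ((hO' _).1 x.2) ((hO' _).1 y.2)
  have k1 : ∀ j, SL fun c c' v w => ρ j (φ' c c' v w) := fun j => by
    obtain ⟨n, n1, n2⟩ := hK j
    refine ⟨(hO.map _ _ (ρ j) φ').1 s1, n, n1, fun c c' v w x y b d a1 a2 a3 a4 => ?_⟩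
    rw [← sub_eq_zero, ← map_sub]
    exact (hB.redZero j _ ((hO' _).1 (Subtype.prop _))).2 (n2 c c' v w x y b d a1 a2 a3 a4)
  have k2 : ∀ j, cj (fun c c' v w => ρ j (φ' c c' v w)) =
      ε • fun c c' v w => ρ j (φ' c c' v w) := fun j => by
    funext c c' v w
    simp only [Pi.smul_apply, ← map_zsmul]
    exact congrArg (ρ j) (Subtype.ext (congrFun (congrFun (congrFun (congrFun h2 c) c') v) w))
  have k4 : ∀ j, sg (fun c c' v w => ρ j (φ' c c' v w)) =
      τ • fun c c' v w => ρ j (φ' c c' v w) := fun j => by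
    funext c c' v w
    simp only [Pi.smul_apply, ← map_zsmul, sg, ← map_neg]
    exact congrArg (ρ j) (Subtype.ext (congrFun (congrFun (congrFun (congrFun h4 c) c') v) w))
  have k5 : ∀ j l, ell N (wd l fun c c' v w => ρ j (φ' c c' v w)) = 0 := fun j l => by
    have := (hO.map _ _ O.subtype.toAddMonoidHom φ').2.2 l N
    rw [(hO.map _ _ (ρ j) φ').2.2, show ell N (wd l φ') = 0 from
      Subtype.ext (this.symm.trans (h5 l)), map_zero]
  change ∃ z : Sb (ZMod (3 ^ j)), SL z ∧ (fun c c' v w => ρ j (φ' c c' v w)) = z - τ • tt z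
  induction j with
  | zero =>
    have : Subsingleton (ZMod (3 ^ 0)) := inferInstanceAs (Subsingleton (ZMod 1))
    exact ⟨_, k1 0, Subsingleton.elim _ _⟩
  | succ j ih =>
    obtain ⟨z, z1, z2⟩ := ih
    have hd : 3 ^ j ∣ 3 ^ (j + 1) := pow_dvd_pow 3 j.le_succ
    let i : F3 →+ ZMod (3 ^ (j + 1)) := ZMod.lift 3 ⟨(AddMonoidHom.mulLeft (3 ^ j)).comp
      (Int.castAddHom _), by
        have := ZMod.natCast_self (3 ^ (j + 1))
        rw [Nat.cast_pow, pow_succ (_ : ZMod _), Nat.cast_ofNat] at this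
        simpa only [AddMonoidHom.comp_apply, Int.coe_castAddHom, AddMonoidHom.coe_mulLeft,
          Int.cast_natCast, Nat.cast_ofNat, Int.cast_ofNat] using this⟩
    have hi : ∀ n : ℤ, i n = (3 ^ j * n : ℤ) := fun n => by simp [i]
    have hu : IsUnit (4 : ZMod (3 ^ (j + 1))) := by
      exact_mod_cast (ZMod.isUnit_iff_coprime 4 _).2 (Nat.Coprime.pow_right _ (by norm_num))
    obtain ⟨m, hm⟩ := hu.exists_left_inv
    obtain ⟨m, rfl⟩ := ZMod.intCast_surjective m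
    refine step hO hE hL hτ hε hS ho h3 hJ i (ZMod.castHom hd (ZMod (3 ^ j))).toAddMonoidHom
      ((injective_iff_map_eq_zero i).2 fun x hx => ?_) (ZMod.castHom_surjective hd) (fun x => ?_) m
      (fun x => by rw [zsmul_eq_mul]; push_cast; rw [hm, one_mul]) _ (k1 _) (k2 _) (k4 _) (k5 _) z z1
      (Eq.trans ?_ z2)
    · obtain ⟨n, rfl⟩ := ZMod.intCast_surjective x
      rw [hi, ZMod.intCast_zmod_eq_zero_iff_dvd, Nat.cast_pow, pow_succ] at hx
      exact (ZMod.intCast_zmod_eq_zero_iff_dvd n 3).2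
        (Int.dvd_of_mul_dvd_mul_left (by positivity) hx)
    · obtain ⟨n, rfl⟩ := ZMod.intCast_surjective x
      simp only [RingHom.toAddMonoidHom_eq_coe, AddMonoidHom.coe_coe, map_intCast]
      rw [ZMod.intCast_zmod_eq_zero_iff_dvd]
      constructor
      · rintro ⟨q, rfl⟩
        exact ⟨q, by rw [hi]; simp⟩
      · rintro ⟨q, hq⟩
        obtain ⟨q, rfl⟩ := ZMod.intCast_surjective q
        rw [hi, ZMod.intCast_eq_intCast_iff_dvd_sub] at hq
        have := (Int.natCast_dvd_natCast.2 hd).trans hq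
        exact (dvd_sub_left (by simp)).1 this
    · funext c c' v w
      obtain ⟨n, -, hn⟩ := hB.nat _ (j + 1) (hI c c' v w)
      have e : ∀ r, In ((φ c c' v w - n) / 3 ^ r) → ρ r (φ' c c' v w) = n := fun r h => by
        rw [← sub_eq_zero, show (n : ZMod (3 ^ r)) = ρ r n from by
          simpa [ρ] using (hB.redInt r n).symm, ← map_sub]
        exact (hB.redZero r _ ((hO' _).1 (Subtype.prop _))).2 (by simpa using h)
      rw [e _ hn, e j (by
        have := (hO' _).1 (O.mul_mem ((hO' _).2 hn) (natCast_mem O 3))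
        rwa [pow_succ, Nat.cast_ofNat, ← div_div, div_mul_cancel₀ _ three_ne_zero] at this)]
      simp

end THMPA

theorem rowTHMP : OfTHMP := by
  intro hB hO hE hL τ ε N φ hτ hε hS ho h3 hJ h1 hI hK h2 h4 h5 c c' j
  obtain ⟨z, ⟨-, n, n1, n2⟩, z2⟩ := THMPA.all hB hO hE hL hτ hε hS ho h3 hJ h1 hI hK h2 h4 h5 j
  obtain ⟨O, hO'⟩ := hB.ring
  refine ⟨n, fun v w => (z c c' v w).val, n1, fun v w x y b d a1 a2 a3 a4 => by
    simp only [n2 c c' v w x y b d a1 a2 a3 a4], fun v w => ⟨(hO' _).1 (natCast_mem O _), ?_⟩⟩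
  have := congrFun (congrFun (congrFun (congrFun z2 c) c') v) w
  simp only [Pi.sub_apply, Pi.smul_apply, tt] at this
  obtain ⟨q, hq⟩ : ∃ q : ℤ, q = (z c c' v w).val - τ * (z c c' v ((3 : ℚ) • w)).val := ⟨_, rfl⟩
  have e : φ c c' v w - ((z c c' v w).val - τ * (z c c' v ((3 : ℚ) • w)).val) =
      φ c c' v w + (-q : ℤ) := by
    rw [hq]
    push_cast
    ring
  have iq : In ((-q : ℤ) : ℚ) := (hO' _).1 (intCast_mem O _)
  rw [e, ← hB.redZero j _ ((hO' _).1 (O.add_mem ((hO' _).2 (hI c c' v w)) ((hO' _).2 iq))),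
    hB.redAdd j _ _ (hI c c' v w) iq, hB.redInt, this, hq]
  simp

end Pool.Agent.MP_5f72fe_nt.MS
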