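import Pool.Agent.MP_5f72fe_nt.MS.S2

/-! The tree argument. -/

namespace Pool.Agent.MP_5f72fe_nt.MS

namespace TREEA

theorem core {B : Type} [AddCommGroup B] [Module ℚ B] (G : ℤ → ℤ → ℤ → ℤ → B)
    (mv : ∀ i j k l i' j' k' l' x y s t d : ℤ, (¬ 3 ∣ x ∧ ¬ 3 ∣ y ∧ ¬ 3 ∣ d ∧
      d * i' = x * i + 3 * s * k ∧ d * j' = x * j + 3 * s * l ∧ d * k' = y * k + 3 * t * i ∧
      d * l' = y * l + 3 * t * j) → G i' j' k' l' = G i j k l)
    (dp : ∀ i j k l : ℤ, G i j k l + G (i + k) (j + l) k l + G (i - k) (j - l) k l = 0)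
    (one : ∀ i j k l e : ℤ, i * l - j * k ≠ 0 → e = 1 ∨ e = -1 →
      G i j k l - G (i + e * k) (j + e * l) k l - G i j (k - e * i) (l - e * j) +
        G (i + e * k) (j + e * l) (k - e * i) (l - e * j) = 0)
    (two : ∀ i j k l e : ℤ, i * l - j * k ≠ 0 → e = 1 ∨ e = -1 →
      (G (i + k) (j + l) k l - G (i - k) (j - l) k l) -
      (G (i + e * k + k) (j + e * l + l) k l - G (i + e * k - k) (j + e * l - l) k l) -
      (G (i + (k - e * i)) (j + (l - e * j)) (k - e * i) (l - e * j) -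
        G (i - (k - e * i)) (j - (l - e * j)) (k - e * i) (l - e * j)) -
      (G (i + e * k + (k - e * i)) (j + e * l + (l - e * j)) (k - e * i) (l - e * j) -
        G (i + e * k - (k - e * i)) (j + e * l - (l - e * j)) (k - e * i) (l - e * j)) = 0) :
    G 1 0 0 1 = 0 := by
  have h1 : G 1 0 0 1 + G 1 1 0 1 + G 1 (-1) 0 1 = 0 := by
    simpa only [Int.reduceNeg, Int.reduceMul, Int.reduceAdd, Int.reduceSub] using
      dp 1 0 0 1
  have h2 : G 1 0 0 1 - G 1 1 0 1 - G 1 0 (-1) 1 + G 1 1 (-1) 1 = 0 := by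
    simpa only [Int.reduceNeg, Int.reduceMul, Int.reduceAdd, Int.reduceSub] using
      one 1 0 0 1 1 (by decide) (by decide)
  have h3 : (G 1 1 0 1 - G 1 (-1) 0 1) - (G 1 2 0 1 - G 1 0 0 1) -
      (G 0 1 (-1) 1 - G 2 (-1) (-1) 1) - (G 0 2 (-1) 1 - G 2 0 (-1) 1) = 0 := by
    simpa only [Int.reduceNeg, Int.reduceMul, Int.reduceAdd, Int.reduceSub] using
      two 1 0 0 1 1 (by decide) (by decide)
  have h4 : G 1 0 0 1 - G 1 (-1) 0 1 - G 1 0 1 1 + G 1 (-1) 1 1 = 0 := by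
    simpa only [Int.reduceNeg, Int.reduceMul, Int.reduceAdd, Int.reduceSub] using
      one 1 0 0 1 (-1) (by decide) (by decide)
  have h5 : (G 1 1 0 1 - G 1 (-1) 0 1) - (G 1 0 0 1 - G 1 (-2) 0 1) -
      (G 2 1 1 1 - G 0 (-1) 1 1) - (G 2 0 1 1 - G 0 (-2) 1 1) = 0 := by
    simpa only [Int.reduceNeg, Int.reduceMul, Int.reduceAdd, Int.reduceSub] using
      two 1 0 0 1 (-1) (by decide) (by decide)
  have h6 : (G 2 1 1 1 - G 0 (-1) 1 1) - (G 1 0 1 1 - G (-1) (-2) 1 1) -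
      (G 3 1 2 1 - G (-1) (-1) 2 1) - (G 2 0 2 1 - G (-2) (-2) 2 1) = 0 := by
    simpa only [Int.reduceNeg, Int.reduceMul, Int.reduceAdd, Int.reduceSub] using
      two 1 0 1 1 (-1) (by decide) (by decide)
  have e0 : G 1 0 (-1) 1 = G 1 0 1 (-1) :=
    mv _ _ _ _ _ _ _ _ 1 (-1) 0 0 1 (by decide)
  have e1 : G 1 1 (-1) 1 = G 1 1 1 (-1) :=
    mv _ _ _ _ _ _ _ _ 2 (-2) 0 0 2 (by decide)
  have e2 : G 1 2 0 1 = G 1 (-1) 0 1 :=
    mv _ _ _ _ _ _ _ _ 1 1 1 0 1 (by decide)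
  have e3 : G 0 1 (-1) 1 = G 0 1 1 (-1) :=
    mv _ _ _ _ _ _ _ _ 1 (-1) 0 0 1 (by decide)
  have e4 : G 2 (-1) (-1) 1 = G 1 1 1 (-1) :=
    mv _ _ _ _ _ _ _ _ 1 (-2) 1 0 2 (by decide)
  have e5 : G 0 2 (-1) 1 = G 0 1 1 (-1) :=
    mv _ _ _ _ _ _ _ _ 2 (-1) 0 0 1 (by decide)
  have e6 : G 2 0 (-1) 1 = G 1 0 1 (-1) :=
    mv _ _ _ _ _ _ _ _ 2 (-1) 0 0 1 (by decide)
  have e7 : G 1 (-2) 0 1 = G 1 1 0 1 :=
    mv _ _ _ _ _ _ _ _ 1 1 (-1) 0 1 (by decide)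
  have e8 : G 2 1 1 1 = G 1 (-1) 1 1 :=
    mv _ _ _ _ _ _ _ _ 1 2 1 0 2 (by decide)
  have e9 : G 0 (-1) 1 1 = G 0 1 1 1 :=
    mv _ _ _ _ _ _ _ _ (-1) 1 0 0 1 (by decide)
  have e10 : G 2 0 1 1 = G 1 0 1 1 :=
    mv _ _ _ _ _ _ _ _ 2 1 0 0 1 (by decide)
  have e11 : G 0 (-2) 1 1 = G 0 1 1 1 :=
    mv _ _ _ _ _ _ _ _ (-2) 1 0 0 1 (by decide)
  have e12 : G (-1) (-2) 1 1 = G 1 (-1) 1 1 :=
    mv _ _ _ _ _ _ _ _ 1 2 (-1) 0 2 (by decide)
  have e13 : G 3 1 2 1 = G 0 1 1 (-1) :=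
    mv _ _ _ _ _ _ _ _ 4 2 1 1 1 (by decide)
  have e14 : G (-1) (-1) 2 1 = G 1 1 1 (-1) :=
    mv _ _ _ _ _ _ _ _ (-2) 1 0 1 2 (by decide)
  have e15 : G 2 0 2 1 = G 1 0 1 (-1) :=
    mv _ _ _ _ _ _ _ _ 2 (-1) 0 1 1 (by decide)
  have e16 : G (-2) (-2) 2 1 = G 1 1 1 (-1) :=
    mv _ _ _ _ _ _ _ _ (-4) 1 0 1 2 (by decide)
  simp only [e0, e1, e2, e3, e4, e5, e6, e7, e8, e9, e10, e11, e12, e13, e14, e15, e16] at h1 h2 h3 h4 h5 h6
  linear_combination (norm := module) (1 / 3 : ℚ) • h1 + (1 / 4 : ℚ) • h2 + (1 / 12 : ℚ) • h3 +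
    (1 / 4 : ℚ) • h4 - (1 / 12 : ℚ) • h5 - (1 / 6 : ℚ) • h6

/-- the vector with given coordinates -/
def vc (p q : V) (i j : ℤ) : V := (i : ℚ) • p + (j : ℚ) • q

theorem vc_add (p q : V) (i j k l : ℤ) : vc p q (i + k) (j + l) = vc p q i j + vc p q k l := by
  unfold vc; push_cast; module

theorem vc_sub (p q : V) (i j k l : ℤ) : vc p q (i - k) (j - l) = vc p q i j - vc p q k l := by
  unfold vc; push_cast; module

theorem vc_mul (p q : V) (e k l : ℤ) : vc p q (e * k) (e * l) = (e : ℚ) • vc p q k l := by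
  unfold vc; push_cast; module

theorem dt_vc (p q : V) (i j k l : ℤ) :
    dt (vc p q i j) (vc p q k l) = ((i * l - j * k : ℤ) : ℚ) * dt p q := by
  simp only [dt, vc, Prod.fst_add, Prod.snd_add, Prod.smul_fst, Prod.smul_snd, smul_eq_mul]
  push_cast; ring

theorem vec {B : Type} [AddCommGroup B] [Module ℚ B] (hB : RowBAS) (Γ : V → V → B)
    (mv : ∀ (v w : V) (x y b c : ℚ), Un x → Un y → In b → In c →
      Γ (x • v + (3 * b) • w) (y • w + (3 * c) • v) = Γ v w)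
    (dp : ∀ v w, Γ v w + Γ (v + w) w + Γ (v - w) w = 0)
    (one : ∀ (v w : V) (e : ℤ), dt v w ≠ 0 → e = 1 ∨ e = -1 →
      Γ v w - Γ (v + (e : ℚ) • w) w - Γ v (w - (e : ℚ) • v) +
        Γ (v + (e : ℚ) • w) (w - (e : ℚ) • v) = 0)
    (two : ∀ (v w : V) (e : ℤ), dt v w ≠ 0 → e = 1 ∨ e = -1 →
      (Γ (v + w) w - Γ (v - w) w) - (Γ (v + (e : ℚ) • w + w) w - Γ (v + (e : ℚ) • w - w) w) -
      (Γ (v + (w - (e : ℚ) • v)) (w - (e : ℚ) • v) - Γ (v - (w - (e : ℚ) • v)) (w - (e : ℚ) • v)) -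
      (Γ (v + (e : ℚ) • w + (w - (e : ℚ) • v)) (w - (e : ℚ) • v) -
        Γ (v + (e : ℚ) • w - (w - (e : ℚ) • v)) (w - (e : ℚ) • v)) = 0)
    (p q : V) (h : dt p q ≠ 0) : Γ p q = 0 := by
  have hdt : ∀ i j k l : ℤ, i * l - j * k ≠ 0 → dt (vc p q i j) (vc p q k l) ≠ 0 := by
    intro i j k l hh
    rw [dt_vc]
    exact mul_ne_zero (Int.cast_ne_zero.2 hh) h
  obtain ⟨O, hO⟩ := hB.ring
  have := core (fun i j k l => Γ (vc p q i j) (vc p q k l)) ?_ ?_ ?_ ?_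
  · simpa [vc] using this
  · rintro i j k l i' j' k' l' x y s t d ⟨hx, hy, hd, a1, a2, a3, a4⟩
    have ux := (hB.int x).2.2 hx
    have uy := (hB.int y).2.2 hy
    have ud := (hB.int d).2.2 hd
    have d0 : (d : ℚ) ≠ 0 := ((hB.un' _).1 ud).1
    have is : In (s : ℚ) := (hO _).1 (intCast_mem O s)
    have it : In (t : ℚ) := (hO _).1 (intCast_mem O t)
    have b1 : (i' : ℚ) = (x * i + 3 * s * k) / d := by
      rw [eq_div_iff d0]; exact_mod_cast (mul_comm _ _).trans a1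
    have b2 : (j' : ℚ) = (x * j + 3 * s * l) / d := by
      rw [eq_div_iff d0]; exact_mod_cast (mul_comm _ _).trans a2
    have b3 : (k' : ℚ) = (y * k + 3 * t * i) / d := by
      rw [eq_div_iff d0]; exact_mod_cast (mul_comm _ _).trans a3
    have b4 : (l' : ℚ) = (y * l + 3 * t * j) / d := by
      rw [eq_div_iff d0]; exact_mod_cast (mul_comm _ _).trans a4
    have := mv (vc p q i j) (vc p q k l) (x / d) (y / d) (s / d) (t / d)
      (hB.unMul _ _ ux ud).2.1 (hB.unMul _ _ uy ud).2.1 (hB.div _ _ is ud) (hB.div _ _ it ud)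
    have c1 : vc p q i' j' = ((x : ℚ) / d) • vc p q i j + (3 * ((s : ℚ) / d)) • vc p q k l := by
      unfold vc; rw [b1, b2]; module
    have c2 : vc p q k' l' = ((y : ℚ) / d) • vc p q k l + (3 * ((t : ℚ) / d)) • vc p q i j := by
      unfold vc; rw [b3, b4]; module
    show Γ (vc p q i' j') (vc p q k' l') = _
    rw [c1, c2]; exact this
  · intro i j k l
    simp only [vc_add, vc_sub]
    exact dp _ _
  · intro i j k l e hh he
    simp only [vc_add, vc_sub, vc_mul]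
    exact one _ _ e (hdt _ _ _ _ hh) he
  · intro i j k l e hh he
    simp only [vc_add, vc_sub, vc_mul]
    exact two _ _ e (hdt _ _ _ _ hh) he

end TREEA

open TREEA in
theorem rowTREE : OfTREE := by
  intro hB hO hL B _ _ F τ τ' r M M' hτ hτ' hM hM' hR hD hJ hF hT
  have R2 : R0 2 F := hL.low B F τ r M hτ hM hR hD hJ hF
  have R2' : R0 2 (tw F) := (hL.ops B F 2 le_rfl R2).2.1
  obtain ⟨O, hR⟩ := hB.ring
  have inZ : ∀ n : ℤ, In (n : ℚ) := fun n => (hR _).1 (intCast_mem O n)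
  have un2 : Un (2 : ℚ) := by
    have := (hB.int 2).2.2 (by decide)
    simpa using this
  have om2 : om 2 = -1 := by
    rw [hO.2.2.1 _ un2]
    have h1 : ¬ In ((2 : ℚ) / 3) := by
      have := (hB.int 2).1
      simp only [Int.cast_ofNat] at this
      rw [this]; decide
    have h2 : ¬ In (((2 : ℚ) - 1) / 3) := by
      have := (hB.int 1).1
      rw [show ((2 : ℚ) - 1) = ((1 : ℤ) : ℚ) by norm_num, this]; decide
    simp [chi, h1, h2]
  have key : ∀ (K : V → V → B) (σ : ℤ) (N : ℕ), σ = 1 ∨ σ = -1 → 1 ≤ N → R0 2 K → Rect σ N K →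
      ∀ (v w : V) (e : ℤ), dt v w ≠ 0 → e = 1 ∨ e = -1 →
        K v ((3 : ℚ) • w) - K (v + (e : ℚ) • w) ((3 : ℚ) • w) - K v ((3 : ℚ) • (w - (e : ℚ) • v)) +
          K (v + (e : ℚ) • w) ((3 : ℚ) • (w - (e : ℚ) • v)) = 0 := by
    intro K σ N hσ hN hK hK' v w e hv he
    have hu : Un (1 - (e : ℚ) * (3 ^ 0 * ((-e : ℤ) : ℚ))) := by
      have : (1 - (e : ℚ) * (3 ^ 0 * ((-e : ℤ) : ℚ))) = 2 := by
        rcases he with rfl | rfl <;> norm_num
      rw [this]; exact un2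
    have := hL.one B K σ 0 N hσ hN hK hK' v w e ((-e : ℤ) : ℚ) hv (inZ _) (inZ _) hu
    have h3 : w + ((3 : ℚ) ^ 0 * ((-e : ℤ) : ℚ)) • v = w - (e : ℚ) • v := by
      push_cast; module
    unfold Rc at this
    rw [h3] at this
    exact this
  have third : ∀ w : V, (1 / 3 : ℚ) • ((3 : ℚ) • w) = w := by
    intro w; module
  have main := vec hB (fun v w => F v ((3 : ℚ) • w)) ?_ ?_ ?_ ?_
  · funext v w
    by_cases h : dt v w = 0
    · exact hJ v w h
    · have hw : (3 : ℚ) • ((1 / 3 : ℚ) • w) = w := by module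
      have := main v ((1 / 3 : ℚ) • w) (by
        intro h0
        apply h
        simp only [dt, Prod.smul_fst, Prod.smul_snd, smul_eq_mul] at h0 ⊢
        linear_combination 3 * h0)
      simp only [hw] at this
      exact this
  · intro v w x y b c hx hy hb hc
    have := R2 v ((3 : ℚ) • w) x y b c hx hy hb hc
    have c1 : x • v + (3 * b) • w = x • v + b • ((3 : ℚ) • w) := by module
    have c2 : (3 : ℚ) • (y • w + (3 * c) • v) = y • ((3 : ℚ) • w) + ((3 : ℚ) ^ 2 * c) • v := by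
      module
    show F _ _ = _
    rw [c1, c2]; exact this
  · intro v w
    have := hD v ((3 : ℚ) • w)
    rw [third] at this
    exact this
  · intro v w e hv he
    exact key F τ M hτ hM R2 hF v w e hv he
  · intro v w e hv he
    have := key (tw F) τ' M' hτ' hM' R2' hT v w e hv he
    unfold tw at this
    simp only [third] at this
    have e2 : (e : ℚ) ^ 2 = 1 := by rcases he with rfl | rfl <;> norm_num
    have d1 : dt (v + (e : ℚ) • w) ((3 : ℚ) • w) = dt v ((3 : ℚ) • w) := by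
      simp only [dt, Prod.fst_add, Prod.snd_add, Prod.smul_fst, Prod.smul_snd, smul_eq_mul]
      ring
    have d2 : dt v ((3 : ℚ) • (w - (e : ℚ) • v)) = dt v ((3 : ℚ) • w) := by
      simp only [dt, Prod.fst_sub, Prod.snd_sub, Prod.smul_fst, Prod.smul_snd, smul_eq_mul]
      ring
    have d3 : dt (v + (e : ℚ) • w) ((3 : ℚ) • (w - (e : ℚ) • v)) = 2 * dt v ((3 : ℚ) • w) := by
      simp only [dt, Prod.fst_add, Prod.snd_add, Prod.fst_sub, Prod.snd_sub, Prod.smul_fst,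
        Prod.smul_snd, smul_eq_mul]
      linear_combination (3 * (v.1 * w.2 - v.2 * w.1)) * e2
    have d0 : dt v ((3 : ℚ) • w) ≠ 0 := by
      intro h0
      apply hv
      simp only [dt, Prod.smul_fst, Prod.smul_snd, smul_eq_mul] at h0 ⊢
      linear_combination (1 / 3) * h0
    rw [d1, d2, d3, hO.1, om2] at this
    rcases hO.2.2.2.2.2.2 _ d0 with h | h
    · rw [h] at this
      linear_combination (norm := module) this
    · rw [h] at this
      linear_combination (norm := module) (-1 : ℚ) • this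

end Pool.Agent.MP_5f72fe_nt.MS
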