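import Pool.Agent.MP_5f72fe_nt.MS.ACT

/-! Row TS: the operator `tch` and the coefficients. -/

namespace Pool.Agent.MP_5f72fe_nt.MS

namespace TSA

open ACTA

/-- multiplication by `3` in the second variable -/
def vv (a : Ch F3) : Ch F3 := sY (fun y => 3 * y) a

theorem co1_add (b b' : ℚ → F3) (i : ℕ) :
    co1 (fun u => b u + b' u) i = co1 b i + co1 b' i :=
  congrFun (fwdDiff_iter_add (1 : ℚ) b b' i) 0

theorem co_vv (hX : RowX3) (a : Ch F3) (i j : ℕ) : co (vv a) i j = co a i (3 * j) := by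
  simp only [co]
  congr 1
  funext u
  exact hX.mul (a u) j

theorem lc_vv (hB : RowBAS) {a : Ch F3} (ha : LC2 a) : LC2 (vv a) := by
  obtain ⟨O, hO⟩ := hB.ring
  have h3 : ∀ x, In x → In (3 * x) := fun x hx =>
    (hO _).1 (O.mul_mem ((hO _).2 (in_of 3 (by norm_num))) ((hO _).2 hx))
  exact lcY ⟨h3, fun u b n _ hb => ⟨3 * b, h3 b hb, by ring⟩⟩ ha

theorem up_vv (hX : RowX3) {a : Ch F3} {i b : ℕ} (h : Up i (3 * b) 0 (co a)) :
    Up i b 0 (co (vv a)) := fun i' j' h1 h2 _ => by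
  rw [co_vv hX]; exact h _ _ h1 (by omega) (Nat.zero_le _)

theorem mb (hB : RowBAS) (q r : ℤ) : Mb 1 q (3 * r) 1 := by
  have h1 : Un 1 := by simpa using (hB.int 1).2
  refine ⟨h1, in_int q, ?_, h1⟩
  rw [mul_div_cancel_left₀ _ three_ne_zero]; exact in_int r

theorem topU (hD : RowD1) (hN : RowN2) {q r : ℚ} (hb : Mb 1 q r 1) {a : Ch F3} (ha : LC2 a)
    {i j : ℕ} (h : Up (i + 1) j 0 (co a)) : co (sU (mob 1 q r 1) a) i j = co a i j := by
  have := (hD.tri _ _ _ _ hb (fun u => co1 (a u) j) i (hN.col a ha j).1).2.2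
    fun k hk => h k j hk le_rfl (Nat.zero_le _)
  have hr : red 3 ((1 : ℚ) / 1) = 1 := by simp [red]
  rw [hr, one_pow, one_mul] at this
  exact this

theorem topY (hD : RowD1) (hN : RowN2) {q r : ℚ} (hb : Mb 1 q r 1) {a : Ch F3} (ha : LC2 a)
    {i j : ℕ} (h : Up i (j + 1) 0 (co a)) : co (sY (mob 1 q r 1) a) i j = co a i j := by
  rw [show sY (mob 1 q r 1) a = sw (sU (mob 1 q r 1) (sw a)) from rfl, hN.swap,
    topU hD hN hb (lc_sw ha) (up_sw hN h), hN.swap]

theorem shY (hX : RowX3) (a : Ch F3) (i j : ℕ) :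
    co (sY (fun y => y + 1) a) i j = co a i j + co a i (j + 1) := by
  simp only [co]
  rw [← co1_add]
  congr 1
  funext u
  have h := hX.shift (a u) j
  have h2 := co1_add (fun y => a u (y + 1) - a u y) (a u) j
  simp only [sub_add_cancel] at h2
  rw [← h, add_comm]
  exact h2

theorem gL : G0 mL := by simp [G0, mL]

theorem gL' : G0 (adj mL) := by simp [G0, mL, adj]

theorem tr (hD : RowD1) {q r : ℚ} (hb : Mb 1 q r 1) : Tr (mob 1 q r 1) :=
  fun b n h => (hD.tri _ _ _ _ hb b n h).2.1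

theorem rowL (hB : RowBAS) (hM : RowMOB) (hD : RowD1) (hX : RowX3) (hN : RowN2) {a : Ch F3}
    (ha : LC2 a) {i j : ℕ} (h : Up (i + 1) j 0 (co a)) :
    co (act mL a) i j = co a i j + co a i (j + 1) := by
  have e1 : mu mL = mob 1 0 3 1 := by funext u; simp [mu, mL, mob]
  have e2 : my mL = fun u => u + 1 := by funext u; simp [my, mL, add_comm]
  have e3 : mob 1 1 0 1 = fun u => u + 1 := by funext u; simp [mob]
  have b1 : Mb 1 0 3 1 := by simpa using mb hB 0 1
  have b2 : Mb 1 1 0 1 := by simpa using mb hB 1 0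
  have lp : Lp (my mL) :=
    ⟨fun u hu => (hM.pres _ gL u hu).2.1, fun u b n hu hb => (hM.lip _ gL u b n hu hb).2⟩
  have t : Tr (my mL) := by rw [e2, ← e3]; exact tr hD b2
  rw [show act mL a = sU (mu mL) (sY (my mL) a) from rfl, e1,
    topU hD hN b1 (lcY lp ha) (triY hN t ha h), e2, shY hX]

/-- the three pieces -/
def p1 (a : Ch F3) : Ch F3 := sY (mob 1 0 (-3) 1) (vv (a - act mL a))

def p2 (a : Ch F3) : Ch F3 := sU (mob 1 1 0 1) (sY (mob 1 0 3 1) (vv (a - act (adj mL) a)))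

theorem dec (hB : RowBAS) (hb : RowBN) (hX : RowX3) (a : Ch F3) (i m q : ℕ) (hm : m < 3) :
    co (tch a) (3 * i + m) q =
      kap 0 m * co (vv a) i q + kap 1 m * co (p1 a) i q + kap 2 m * co (p2 a) i q := by
  have h0 := hX.div (fun u => co1 (vv a u) q) 0 i m (by norm_num) hm
  have h1 := hX.div (fun u => co1 (p1 a u) q) 1 i m (by norm_num) hm
  have h2 := hX.div (fun u => co1 (p2 a u) q) 2 i m (by norm_num) hm
  simp only [co]
  rw [← h0, ← h1, ← h2, ← co1_add, ← co1_add]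
  refine congrFun (hb.congr _ _ fun n => ?_) _
  have i0 : In ((n : ℚ) / 3) ↔ (3 : ℤ) ∣ n := by simpa using (hB.int n).1
  have i1 : In (((n : ℚ) - 1) / 3) ↔ (3 : ℤ) ∣ n - 1 := by simpa using (hB.int (n - 1)).1
  have i2 : In (((n : ℚ) - 2) / 3) ↔ (3 : ℤ) ∣ n - 2 := by simpa using (hB.int (n - 2)).1
  simp only [Nat.cast_zero, sub_zero, Nat.cast_one, Nat.cast_ofNat]
  by_cases c0 : In ((n : ℚ) / 3)
  · have c1 : ¬ In (((n : ℚ) - 1) / 3) := by rw [i1]; rw [i0] at c0; omega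
    have c2 : ¬ In (((n : ℚ) - 2) / 3) := by rw [i2]; rw [i0] at c0; omega
    rw [if_pos c0, if_neg c1, if_neg c2, add_zero, add_zero]
    congr 1
    funext y
    simp only [tch, if_pos c0, vv, sY]
  · by_cases c1 : In (((n : ℚ) - 1) / 3)
    · have c2 : ¬ In (((n : ℚ) - 2) / 3) := by rw [i2]; rw [i1] at c1; omega
      rw [if_neg c0, if_pos c1, if_neg c2, add_zero, zero_add]
      congr 1
      funext y
      have e : 3 * y / (1 - 3 * y) = 3 * ((1 * y + 0) / (-3 * y + 1)) := by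
        rw [one_mul, add_zero, mul_div_assoc, show -3 * y + 1 = 1 - 3 * y by ring]
      simp only [tch, if_neg c0, if_pos c1, p1, vv, sY, mob, e]
    · have c2 : In (((n : ℚ) - 2) / 3) := by rw [i2]; rw [i1] at c1; rw [i0] at c0; omega
      rw [if_neg c0, if_neg c1, if_pos c2, zero_add, zero_add]
      congr 1
      funext y
      have e : 3 * y / (1 + 3 * y) = 3 * ((1 * y + 0) / (3 * y + 1)) := by
        rw [one_mul, add_zero, mul_div_assoc, add_comm]
      have e' : ((n : ℚ) + 1) / 3 = (1 * (((n : ℚ) - 2) / 3) + 1) / (0 * (((n : ℚ) - 2) / 3) + 1) := by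
        rw [zero_mul, zero_add, div_one]; ring
      simp only [tch, if_neg c0, if_neg c1, p2, vv, sY, sU, mob]
      rw [← e, ← e']

end TSA

open ACTA TSA in
theorem rowTS : OfTS := by
  intro hB hM hb hD hX hN hA
  have b1 : Mb 1 0 3 1 := by simpa using mb hB 0 1
  have b2 : Mb 1 1 0 1 := by simpa using mb hB 1 0
  have b3 : Mb 1 0 (-3) 1 := by simpa using mb hB 0 (-1)
  have gT : G0 mT := by simp [G0, mT]
  have e2 : my mT = mob 1 0 3 1 := by rw [my_eq]; simp [mT]
  have lp : Lp (mob 1 0 3 1) := e2 ▸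
    ⟨fun u hu => (hM.pres _ gT u hu).2.1, fun u b n hu hb => (hM.lip _ gT u b n hu hb).2⟩
  have lcA : ∀ g, G0 g → ∀ a : Ch F3, LC2 a → LC2 (act g a) := fun g hg a ha =>
    (hM.lc F3 a ha).1 g hg
  have lcS : ∀ g, G0 g → ∀ a : Ch F3, LC2 a → LC2 (vv (a - act g a)) := fun g hg a ha =>
    lc_vv hB (lc_sub hM ha (lcA g hg a ha))
  have upS : ∀ g, G0 g → ∀ (a : Ch F3) (i b : ℕ), LC2 a → Up i (3 * b) 0 (co a) →
      Up i b 0 (co (vv (a - act g a))) := fun g hg a i b ha h =>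
    up_vv hX (up_sub hN h (hA.tri g hg a _ _ _ ha h))
  refine ⟨fun a i b ha h p q hp hq _ => ?_, fun a i b ha h h' => ?_⟩
  · have u0 := up_vv hX h
    have u1 : Up i b 0 (co (p1 a)) := triY hN (tr hD b3) (lcS _ gL a ha) (upS _ gL a i b ha h)
    have u2 : Up i b 0 (co (p2 a)) := triU hN (tr hD b2) (lcY lp (lcS _ gL' a ha))
      (triY hN (tr hD b1) (lcS _ gL' a ha) (upS _ gL' a i b ha h))
    have hi : i ≤ p / 3 := by omega
    rw [← Nat.div_add_mod p 3, dec hB hb hX a _ _ q (Nat.mod_lt _ (by norm_num)),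
      u0 _ _ hi hq (Nat.zero_le _), u1 _ _ hi hq (Nat.zero_le _), u2 _ _ hi hq (Nat.zero_le _)]
    simp
  · have h'' : Up i (3 * (b + 1)) 0 (co a) := h'
    have mono : ∀ {w : Ch F3} (k : ℕ), Up (i + 1) (3 * b) 0 (co w) →
        Up (i + 1) (3 * b + k) 0 (co w) := fun k hw i' j' h1 h2 h3 => hw i' j' h1 (by omega) h3
    have q1 : co (p1 a) i b = -co a i (3 * b + 1) := by
      rw [p1, topY hD hN b3 (lcS _ gL a ha) (upS _ gL a i _ ha h''), co_vv hX, co_sub hN,
        Pi.sub_apply, Pi.sub_apply, rowL hB hM hD hX hN ha h]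
      ring
    have q2 : co (p2 a) i b = co a i (3 * b + 1) - co a i (3 * b + 2) := by
      have lw := lcA _ gL' a ha
      have uw := hA.tri _ gL' a _ _ _ ha h
      have uw' := hA.tri _ gL' a _ _ _ ha h' i (3 * b + 3) le_rfl le_rfl (Nat.zero_le _)
      have ee : co (act mL (act (adj mL) a)) = co a := by
        refine hN.congr _ _ fun u y hu hy => ?_
        obtain ⟨-, c⟩ := hM.comp _ _ gL' gL
        have eI : mul (adj mL) mL = mI := by decide
        have iU : mu mI u = u := by simp [mu, mI]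
        have iY : my mI y = y := by simp [my, mI]
        rw [eI] at c
        simp only [act]
        rw [← (c u hu).1, ← (c y hy).2, iU, iY]
      have r0 := rowL hB hM hD hX hN lw uw
      have r1 := rowL hB hM hD hX hN lw (mono 1 uw)
      have r2 := rowL hB hM hD hX hN lw (mono 2 uw)
      rw [ee] at r0 r1 r2
      rw [p2, topU hD hN b2 (lcY lp (lcS _ gL' a ha))
        (triY hN (tr hD b1) (lcS _ gL' a ha) (upS _ gL' a _ b ha h)),
        topY hD hN b1 (lcS _ gL' a ha) (upS _ gL' a i _ ha h''), co_vv hX, co_sub hN,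
        Pi.sub_apply, Pi.sub_apply]
      linear_combination r0 - r1 + r2 + uw'
    have d0 := dec hB hb hX a i 0 b (by norm_num)
    have d1 := dec hB hb hX a i 1 b (by norm_num)
    have d2 := dec hB hb hX a i 2 b (by norm_num)
    rw [q1, q2, co_vv hX] at d0 d1 d2
    simp only [kap] at d0 d1 d2
    norm_num at d0 d1 d2
    refine ⟨d0, ?_, ?_⟩
    · rw [d1]; ring
    · rw [d2]; ring

end Pool.Agent.MP_5f72fe_nt.MS
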