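import Pool.Agent.MP_5f72fe_nt.MS.S1

/-! Row TZ: the top of `tt z`. -/

set_option autoImplicit false

namespace Pool.Agent.MP_5f72fe_nt.MS

namespace TZA

theorem rgr_zero (hC : RowCH) (hN : RowN2) (hR : RowRT) (z : Sb F3) (hz : SL z) (i j : ℕ)
    (h : Up i j (i + j + 4) (cf z)) : rgr (cf z) i j = 0 := by
  have h1 := (hR (ch z) i j (hC.lc F3 z hz)).2 h
  have h2 := hN.congr _ _ (hC.ops F3 z hz.1).1
  obtain ⟨C, hCo⟩ := hN.lin
  have h3 : co (0 : Ch F3) = 0 := by rw [← hCo]; exact map_zero C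
  rw [h2, h3] at h1
  exact h1.symm

theorem cf_tt (hC : RowCH) (hN : RowN2) (z : Sb F3) (hz : SL z) :
    cf (tt z) = co (tch (ch z)) := hN.congr _ _ (hC.ops F3 z hz.1).2.1

theorem van (hC : RowCH) (hN : RowN2) (hT : RowTS) (z : Sb F3) (hz : SL z) (n B : ℕ)
    (h1 : Up 0 0 n (cf z)) (h2 : Up B 0 0 (cf z)) (p q : ℕ) (h : B ≤ p / 3 ∨ n ≤ p / 3 + 3 * q) :
    cf (tt z) p q = 0 := by
  rw [cf_tt hC hN z hz]
  refine hT.van (ch z) (p / 3) q (hC.lc F3 z hz) ?_ p q (by omega) le_rfl (Nat.zero_le _)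
  intro i' j' hi hj _
  rcases h with h | h
  · exact h2 i' j' (by omega) (Nat.zero_le _) (Nat.zero_le _)
  · exact h1 i' j' (Nat.zero_le _) (Nat.zero_le _) (by omega)

theorem key (hC : RowCH) (hN : RowN2) (hT : RowTS) (z : Sb F3) (hz : SL z) (n B : ℕ)
    (h1 : Up 0 0 n (cf z)) (h2 : Up B 0 0 (cf z)) (i b : ℕ) (h : B ≤ i + 1 ∨ n ≤ i + 1 + 3 * b)
    (h' : n ≤ i + 3 * b + 3) :
    cf (tt z) (3 * i + 1) b = -cf z i (3 * b) - cf z i (3 * b + 1) ∧
    cf (tt z) (3 * i + 2) b = cf z i (3 * b) - cf z i (3 * b + 2) := by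
  rw [cf_tt hC hN z hz]
  refine (hT.key (ch z) i b (hC.lc F3 z hz) ?_ ?_).2
  · intro i' j' hi hj _
    rcases h with h | h
    · exact h2 i' j' (by omega) (Nat.zero_le _) (Nat.zero_le _)
    · exact h1 i' j' (Nat.zero_le _) (Nat.zero_le _) (by omega)
  · intro i' j' hi hj _
    exact h1 i' j' (Nat.zero_le _) (Nat.zero_le _) (by omega)

theorem one (w : Ar) (A k : ℕ) (h : rgr w (3 * A) k = 0) (h0 : w (3 * A) (k + 3) = 0)
    (h1 : w (3 * A + 1) (k + 2) = 0) (h3 : w (3 * A + 3) k = 0) : w (3 * A + 2) (k + 1) = 0 := by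
  have e : 3 * A % 3 = 0 := by omega
  have hk : k % 3 ≤ 2 := by omega
  unfold rgr at h
  rw [e, if_pos (by omega), Finset.sum_eq_single 2] at h
  · exact h
  · intro m hm hm2
    have hm' : m ≤ 3 := by simpa using (Finset.mem_Icc.1 hm).2
    have : m = 0 ∨ m = 1 ∨ m = 3 := by omega
    rcases this with rfl | rfl | rfl
    · exact h0
    · exact h1
    · exact h3
  · intro hm
    exact absurd (Finset.mem_Icc.2 ⟨hk, by omega⟩) hm

theorem two (c : Ar) (j : ℕ) (h : rgr c j (3 * j) = 0) (h2 : Up (j + 2) 0 0 c) :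
    c j (3 * j + 3) = -c (j + 1) (3 * j + 2) := by
  have e : 3 * j % 3 = 0 := by omega
  unfold rgr at h
  rw [e, if_pos (by omega), Finset.sum_eq_add_of_mem 0 1 (Finset.mem_Icc.2 ⟨le_rfl, by omega⟩)
    (Finset.mem_Icc.2 ⟨by omega, by omega⟩) (by omega)] at h
  · exact eq_neg_of_add_eq_zero_left h
  · intro m _ hm
    exact h2 _ _ (by omega) (Nat.zero_le _) (Nat.zero_le _)

theorem par (hO : RowOPS) (hP : RowPAR) (z : Sb F3) (hz : SL z) (d : ℕ)
    (hc : cj z = (-1 : ℤ) ^ d • z) (h : Up 0 0 (d + 2) (cf (tt z))) :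
    Up 0 0 (d + 1) (cf (tt z)) := by
  refine hP (tt z) (d + 1) (hO.slOp F3 z hz).1 ?_ h
  rw [(hO.alg F3 z hz.1).2.2.2.1, hc, show d + 1 + 1 = d + 2 from rfl, pow_add]
  norm_num
  rfl

end TZA

open TZA

theorem rowTZ : OfTZ := by
  intro hO hC hN hR hT hP
  refine ⟨fun z d hz h1 h2 => ?_, fun z d hz hd hc h1 h2 hd2 hd3 => ?_⟩
  · intro p q _ _ hpq
    exact van hC hN hT z hz _ _ h1 h2 p q (by omega)
  have hz' : SL (tt z) := (hO.slOp F3 z hz).1
  have V := van hC hN hT z hz _ _ h1 h2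
  have K := key hC hN hT z hz _ _ h1 h2
  have hcase : (∃ j, d = 4 * j + 1) ∨ (∃ j, d = 4 * j + 2) ∨ ∃ j, d = 4 * j + 3 := by
    have : d % 4 = 1 ∨ d % 4 = 2 ∨ d % 4 = 3 := by omega
    rcases this with h | h | h
    · exact Or.inl ⟨d / 4, by omega⟩
    · exact Or.inr (Or.inl ⟨d / 4, by omega⟩)
    · exact Or.inr (Or.inr ⟨d / 4, by omega⟩)
  rcases hcase with ⟨j, rfl⟩ | ⟨j, rfl⟩ | ⟨j, rfl⟩
  · have U : Up 0 0 (4 * j + 1 + 1) (cf (tt z)) :=
      par hO hP z hz _ hc fun p q _ _ hpq => V p q (by omega)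
    refine ⟨U, fun p q hpq hq => V p q (by omega), ?_⟩
    have eA : (4 * j + 1 + 1) / 4 = j := by omega
    have eB : 4 * j + 1 - j = 3 * j + 1 := by omega
    rw [eA, eB, if_neg (by omega)]
    obtain ⟨k1, k2⟩ := K j j (by omega) (by omega)
    rw [U _ _ (Nat.zero_le _) (Nat.zero_le _) (by omega),
      h1 j (3 * j + 2) (Nat.zero_le _) (Nat.zero_le _) (by omega), sub_zero] at k2
    rw [k1, ← k2, neg_zero, zero_sub]
  · have U : Up 0 0 (4 * j + 2 + 1) (cf (tt z)) := fun p q _ _ hpq => V p q (by omega)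
    refine ⟨U, fun p q hpq hq => V p q (by omega), ?_⟩
    have eA : (4 * j + 2 + 1) / 4 = j := by omega
    have eB : 4 * j + 2 - j = 3 * j + 2 := by omega
    rw [eA, eB, if_pos (by omega)]
    rcases j with _ | k
    · rw [(K 0 0 (by omega) (by omega)).2]
      exact sub_eq_zero.2 (hd2 rfl)
    · refine one _ (k + 1) k (rgr_zero hC hN hR _ hz' _ _ ?_) (V _ _ (by omega)) (V _ _ (by omega))
        (V _ _ (by omega))
      exact fun p q _ _ hpq => V p q (by omega)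
  · have W : cf (tt z) (3 * (j + 1) + 2) j = 0 := by
      rcases j with _ | k
      · rw [(K 1 0 (by omega) (by omega)).2]
        exact sub_eq_zero.2 (hd3 rfl)
      · refine one _ (k + 1 + 1) k (rgr_zero hC hN hR _ hz' _ _ ?_) (V _ _ (by omega))
          (V _ _ (by omega)) (V _ _ (by omega))
        exact fun p q _ _ hpq => V p q (by omega)
    have U : Up 0 0 (4 * j + 3 + 1) (cf (tt z)) := by
      refine par hO hP z hz _ hc fun p q _ _ hpq => ?_
      by_cases hp : p = 3 * (j + 1) + 2 ∧ q = j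
      · rw [hp.1, hp.2]; exact W
      · exact V p q (by omega)
    refine ⟨U, fun p q hpq hq => V p q (by omega), ?_⟩
    have eA : (4 * j + 3 + 1) / 4 = j + 1 := by omega
    have eB : 4 * j + 3 - (j + 1) = 3 * j + 2 := by omega
    rw [eA] at h2
    rw [eA, eB, if_neg (by omega), (K j (j + 1) (by omega) (by omega)).2,
      h1 j (3 * (j + 1) + 2) (Nat.zero_le _) (Nat.zero_le _) (by omega), sub_zero]
    exact two _ j (rgr_zero hC hN hR z hz _ _
      fun p q _ _ hpq => h1 p q (Nat.zero_le _) (Nat.zero_le _) (by omega)) h2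

end Pool.Agent.MP_5f72fe_nt.MS
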