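import Pool.Agent.MP_5f72fe_nt.MS.S1

/-! Multiplication and division by `3` on Newton coefficients. -/

namespace Pool.Agent.MP_5f72fe_nt.MS

namespace X3A

theorem three_zero : (3 : F3) = 0 := rfl

/-- the third difference is the difference with step three -/
theorem d3 (b : ℚ → F3) (u : ℚ) : (fwdDiff (1 : ℚ))^[3] b u = b (u + 3) - b u := by
  have e1 : u + 1 + 1 + 1 = u + 3 := by ring
  simp only [Function.iterate_succ, Function.iterate_zero, Function.comp, id, fwdDiff, e1]
  linear_combination (b (u + 1) - b (u + 1 + 1)) * three_zero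

/-- the substitution `u ↦ 3 u` -/
def vv (b : ℚ → F3) : ℚ → F3 := fun u => b (3 * u)

theorem d_vv (b : ℚ → F3) : fwdDiff (1 : ℚ) (vv b) = vv ((fwdDiff (1 : ℚ))^[3] b) := by
  funext u
  have e1 : 3 * (u + 1) = 3 * u + 3 := by ring
  simp only [vv, d3]
  simp only [fwdDiff, vv, e1]

theorem it_vv (n : ℕ) (b : ℚ → F3) :
    (fwdDiff (1 : ℚ))^[n] (vv b) = vv ((fwdDiff (1 : ℚ))^[3 * n] b) := by
  induction n generalizing b with
  | zero => rfl
  | succ n ih =>
    rw [Function.iterate_succ_apply, d_vv, ih, ← Function.iterate_add_apply]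
    rfl

/-- division by three on the class of `j` -/
noncomputable def uu (j : ℕ) (b : ℚ → F3) : ℚ → F3 :=
  fun u => if In ((u - j) / 3) then b ((u - j) / 3) else 0

theorem d_uu (hB : RowBAS) (j : ℕ) (b : ℚ → F3) :
    (fwdDiff (1 : ℚ))^[3] (uu j b) = uu j (fwdDiff (1 : ℚ) b) := by
  funext u
  obtain ⟨O, hO⟩ := hB.ring
  have e1 : (u + 3 - j) / 3 = (u - j) / 3 + 1 := by ring
  have hi : In ((u - j) / 3 + 1) ↔ In ((u - j) / 3) := by
    rw [← hO, ← hO]
    constructor
    · intro h
      simpa using O.sub_mem h O.one_mem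
    · intro h
      exact O.add_mem h O.one_mem
  rw [d3]
  simp only [uu, e1, hi, fwdDiff]
  split_ifs <;> simp

theorem it_uu (hB : RowBAS) (j i : ℕ) (b : ℚ → F3) :
    (fwdDiff (1 : ℚ))^[3 * i] (uu j b) = uu j ((fwdDiff (1 : ℚ))^[i] b) := by
  induction i generalizing b with
  | zero => rfl
  | succ i ih =>
    rw [show 3 * (i + 1) = 3 * i + 3 by ring, Function.iterate_add_apply, d_uu hB, ih,
      Function.iterate_succ_apply]

theorem uu_nat (hB : RowBAS) (j : ℕ) (hj : j < 3) (b : ℚ → F3) (k : ℕ) (hk : k < 3) :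
    uu j b k = if k = j then b 0 else 0 := by
  have h := (hB.int ((k : ℤ) - j)).1
  push_cast at h
  simp only [uu, h]
  by_cases e : k = j
  · subst e
    simp
  · rw [if_neg e, if_neg]
    omega

theorem base (hB : RowBAS) (j m : ℕ) (hj : j < 3) (hm : m < 3) (b : ℚ → F3) :
    (fwdDiff (1 : ℚ))^[m] (uu j b) 0 = kap j m * b 0 := by
  have h0 := uu_nat hB j hj b 0 (by norm_num)
  have h1 := uu_nat hB j hj b 1 (by norm_num)
  have h2 := uu_nat hB j hj b 2 (by norm_num)
  have e2 : (1 : ℚ) + 1 = 2 := by norm_num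
  push_cast at h0 h1 h2
  interval_cases m
  · simp only [Function.iterate_zero, id, h0]
    interval_cases j <;> simp [kap]
  · simp only [Function.iterate_succ, Function.iterate_zero, Function.comp, id, fwdDiff, zero_add,
      h0, h1]
    interval_cases j <;> simp [kap]
  · simp only [Function.iterate_succ, Function.iterate_zero, Function.comp, id, fwdDiff, e2,
      zero_add, h0, h1, h2]
    interval_cases j
    · simp [kap]
    · simp only [kap]
      norm_num
      linear_combination (-b 0) * three_zero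
    · simp [kap]

end X3A

theorem rowX3 : OfX3 := by
  intro hB _
  refine ⟨fun b n => ?_, fun b j i m hj hm => ?_, fun b n => ?_⟩
  · change (fwdDiff (1 : ℚ))^[n] (X3A.vv b) 0 = _
    rw [X3A.it_vv]
    simp [X3A.vv, co1]
  · change (fwdDiff (1 : ℚ))^[3 * i + m] (X3A.uu j b) 0 = _
    rw [add_comm, Function.iterate_add_apply, X3A.it_uu hB, X3A.base hB j m hj hm]
    rfl
  · change (fwdDiff (1 : ℚ))^[n] (fwdDiff (1 : ℚ) b) 0 = _
    rw [← Function.iterate_succ_apply]
    rfl

end Pool.Agent.MP_5f72fe_nt.MS
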