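import Pool.Agent.MP_5f72fe_nt.MS.S2

/-! The even Eisenstein symbol on the chart. -/

namespace Pool.Agent.MP_5f72fe_nt.MS

noncomputable section

namespace XIPA

/-- the indicator of `x = n` modulo `3` -/
def ind (x n : ℚ) : ℚ := if In ((x - n) / 3) then 1 else 0

def Q (x b y : ℚ) : ℚ :=
  DD ((x - (b + 1)) / 3) - DD ((x - (b - 1)) / 3) -
    8 * ((ind x (b + 1) - ind x (b - 1)) * (y / (x.den ^ 2 * (3 * x * y - 1)))) -
    2 * (ind x (b + 1) + ind x (b - 1))

def P (c : V) (u y : ℚ) : ℚ := if c.2 = 0 then 0 else Q (c.1 / c.2) (chi u) y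

theorem den_sq (a b : ℤ) (hb : b ≠ 0) (h : IsCoprime a b) :
    ((((a : ℚ) / b).den : ℚ)) ^ 2 = (b : ℚ) ^ 2 := by
  have hc : Nat.Coprime a.natAbs b.natAbs := Int.isCoprime_iff_nat_coprime.1 h
  rcases lt_or_gt_of_ne hb with hb | hb
  · have h1 := Rat.den_div_eq_of_coprime (a := -a) (b := -b) (by omega) (by simpa using hc)
    have e : ((-a : ℤ) : ℚ) / ((-b : ℤ) : ℚ) = (a : ℚ) / b := by
      push_cast
      rw [neg_div_neg_eq]
    rw [e] at h1
    have h2 : ((((a : ℚ) / b).den : ℤ) : ℚ) = ((-b : ℤ) : ℚ) := by rw [h1]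
    push_cast at h2
    rw [h2]
    ring
  · have h1 := Rat.den_div_eq_of_coprime hb hc
    have h2 : ((((a : ℚ) / b).den : ℤ) : ℚ) = (b : ℚ) := by rw [h1]
    push_cast at h2
    rw [h2]

theorem cop (x : ℚ) : IsCoprime x.num (x.den : ℤ) :=
  Int.isCoprime_iff_nat_coprime.2 (by simpa using x.reduced)

theorem den_third (w : ℚ) :
    (((w / 3).den : ℚ) ^ 2)⁻¹ = (1 + 8 * if In (w / 3) then 1 else 0) / (9 * (w.den : ℚ) ^ 2) := by
  have hk : (w.den : ℚ) ≠ 0 := by exact_mod_cast w.den_nz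
  have hk' : (0 : ℤ) < w.den := by exact_mod_cast w.den_pos
  have hc := cop w
  by_cases h : (3 : ℤ) ∣ w.num
  · obtain ⟨a, ha⟩ := h
    have e : w / 3 = (a : ℚ) / ((w.den : ℤ) : ℚ) := by
      have h1 : w = ((3 * a : ℤ) : ℚ) / w.den := by rw [← ha, Rat.num_div_den]
      conv_lhs => rw [h1]
      push_cast
      field_simp
    rw [ha] at hc
    have h2 := Rat.den_div_eq_of_coprime hk' (Int.isCoprime_iff_nat_coprime.1 hc.of_mul_left_right)
    rw [← e] at h2
    have h3 : (w / 3).den = w.den := by exact_mod_cast h2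
    have h4 : In (w / 3) := by
      unfold In
      rw [h3]
      intro h5
      have h6 : (3 : ℤ) ∣ w.den := by exact_mod_cast h5
      have := Int.isUnit_iff.1 (hc.of_mul_left_left.isUnit_of_dvd' (dvd_refl 3) h6)
      omega
    rw [if_pos h4, h3]
    field_simp
    norm_num
  · have e : w / 3 = (w.num : ℚ) / ((3 * w.den : ℤ) : ℚ) := by
      conv_lhs => rw [← Rat.num_div_den w]
      push_cast
      field_simp
    have h3 : IsCoprime w.num 3 :=
      ((Int.prime_three.irreducible.coprime_iff_not_dvd).2 h).symm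
    have h2 := Rat.den_div_eq_of_coprime (a := w.num) (b := 3 * w.den) (by omega)
      (Int.isCoprime_iff_nat_coprime.1 (h3.mul_right hc))
    rw [← e] at h2
    have h5 : (w / 3).den = 3 * w.den := by exact_mod_cast h2
    have h4 : ¬ In (w / 3) := by
      unfold In
      rw [h5]
      exact fun h6 => h6 (dvd_mul_right _ _)
    rw [if_neg h4, h5]
    push_cast
    field_simp
    norm_num

theorem den_n (x : ℚ) (n : ℤ) :
    ((((x - n) / 3).den : ℚ) ^ 2)⁻¹ = (1 + 8 * ind x n) / (9 * (x.den : ℚ) ^ 2) := by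
  rw [den_third, Rat.sub_intCast_den]
  rfl

theorem den_L (x : ℚ) (hj : 3 * x + 1 ≠ 0) :
    ((x / (3 * x + 1)).den : ℚ) ^ 2 = (3 * x + 1) ^ 2 * (x.den : ℚ) ^ 2 := by
  have hk : (x.den : ℚ) ≠ 0 := by exact_mod_cast x.den_nz
  have h1 : (x.num : ℚ) = x * x.den := (Rat.mul_den_eq_num x).symm
  have h2 : ((3 * x.num + x.den : ℤ) : ℚ) = (3 * x + 1) * x.den := by
    push_cast
    rw [h1]
    ring
  have h3 : (3 * x.num + x.den : ℤ) ≠ 0 := by
    intro h
    rw [h] at h2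
    exact mul_ne_zero hj hk (by exact_mod_cast h2.symm)
  have h4 : IsCoprime x.num (3 * x.num + x.den) := by
    have := (cop x).add_mul_right_right 3
    rwa [add_comm] at this
  have h5 := den_sq _ _ h3 h4
  have e : (x.num : ℚ) / ((3 * x.num + x.den : ℤ) : ℚ) = x / (3 * x + 1) := by
    rw [h2, h1]
    field_simp
  rw [e, h2] at h5
  rw [h5]
  ring

theorem chi_int (u : ℚ) : ∃ b : ℤ, chi u = b ∧ (b = 0 ∨ b = 1 ∨ b = -1) := by
  unfold chi
  split_ifs
  · exact ⟨0, by simp, by simp⟩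
  · exact ⟨1, by simp, by simp⟩
  · exact ⟨-1, by simp, by simp⟩

theorem unit_ne (h : RowBAS) {x : ℚ} (hx : In x) : 3 * x + 1 ≠ 0 ∧ 3 * x - 1 ≠ 0 ∧
    Un (3 * x + 1) ∧ Un (3 * x - 1) := by
  have h1 : Un 1 := by simpa using (h.int 1).2
  have h2 := h.unAdd _ x h1 hx
  have h3 := h.unAdd _ x (h.unMul _ _ h1 h1).2.2.2 hx
  rw [add_comm] at h2 h3
  rw [← sub_eq_add_neg] at h3
  exact ⟨((h.un' _).1 h2).1, ((h.un' _).1 h3).1, h2, h3⟩

theorem in_of (h : RowBAS) {x : ℚ} {n : ℤ} (hx : In ((x - n) / 3)) : In x := by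
  obtain ⟨O, hO⟩ := h.ring
  have e : x = 3 * ((x - n) / 3) + n := by ring
  rw [e, ← hO]
  exact O.add_mem (O.mul_mem (by exact_mod_cast intCast_mem O 3) ((hO _).2 hx)) (intCast_mem O n)

theorem ind_shift (h : RowBAS) (x x' n n' : ℚ) (m : ℚ) (hm : In m)
    (e : (x' - n') / 3 = (x - n) / 3 + m) : ind x' n' = ind x n := by
  obtain ⟨O, hO⟩ := h.ring
  unfold ind
  refine if_congr ?_ rfl rfl
  rw [e, ← hO, ← hO]
  exact ⟨fun h1 => by simpa using O.sub_mem h1 ((hO _).2 hm), fun h1 => O.add_mem h1 ((hO _).2 hm)⟩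

theorem ind_L (h : RowBAS) (x : ℚ) (n : ℤ) (hj : 3 * x + 1 ≠ 0) :
    ind (x / (3 * x + 1)) n = ind x n := by
  obtain ⟨O, hO⟩ := h.ring
  have hj' : x * 3 + 1 ≠ 0 := by rwa [mul_comm]
  by_cases hx : In x
  · refine ind_shift h _ _ _ _ (-(x * x) / (3 * x + 1)) ?_ ?_
    · exact h.div _ _ ((hO _).1 (O.neg_mem (O.mul_mem ((hO _).2 hx) ((hO _).2 hx))))
        (unit_ne h hx).2.2.1
    · field_simp
      ring
  · unfold ind
    rw [if_neg fun h1 => hx (in_of h h1), if_neg]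
    intro h1
    have h2 := in_of h h1
    have h3 := h.div _ _ ((hO _).1 (O.neg_mem ((hO _).2 h2))) (unit_ne h h2).2.2.2
    have e : -(x / (3 * x + 1)) / (3 * (x / (3 * x + 1)) - 1) = x := by
      have : 3 * (x / (3 * x + 1)) - 1 = -(1 / (3 * x + 1)) := by
        field_simp
        ring
      rw [this]
      field_simp
    rw [e] at h3
    exact hx h3

theorem ind_zero (h : RowBAS) (x : ℚ) (n : ℤ) (hx : ¬ In x) : ind x n = 0 :=
  if_neg fun h1 => hx (in_of h h1)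

theorem Q_T (h : RowBAS) (hD : RowDREC) (x b b' y : ℚ) (m : ℤ) (hb : b + 1 = b' + 3 * m)
    (hy : 3 * y + 1 ≠ 0) : Q (x + 1) b' (y / (3 * y + 1)) = Q x b y := by
  obtain ⟨O, hO⟩ := h.ring
  have hm : In (m : ℚ) := (hO _).1 (intCast_mem O m)
  have e1 : (x + 1 - (b' + 1)) / 3 = (x - (b + 1)) / 3 + m := by linarith
  have e2 : (x + 1 - (b' - 1)) / 3 = (x - (b - 1)) / 3 + m := by linarith
  have e3 : (x + 1).den = x.den := by simp
  have e4 : 3 * (x + 1) * (y / (3 * y + 1)) - 1 = (3 * x * y - 1) / (3 * y + 1) := by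
    field_simp
    ring
  have e5 : y / (3 * y + 1) / ((x.den : ℚ) ^ 2 * ((3 * x * y - 1) / (3 * y + 1))) =
      y / (x.den ^ 2 * (3 * x * y - 1)) := by
    rw [← mul_div_assoc, div_div_div_cancel_right₀ hy]
  unfold Q
  rw [ind_shift h _ _ _ _ m hm e1, ind_shift h _ _ _ _ m hm e2, e1, e2, hD.per, hD.per, e3, e4, e5]

theorem dd_L (hT : RowDTR) (x : ℚ) (n : ℤ) (hj : 3 * x + 1 ≠ 0) :
    DD ((x / (3 * x + 1) - n) / 3) = DD ((x - n) / 3) + DD ((1 / 3 - n) / 3) -
      1 / ((3 * x + 1) * 9) - (3 * x + 1) / 9 -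
      (1 + 8 * ind x n) / ((x.den : ℚ) ^ 2 * (3 * x + 1)) + 3 * sn ((3 * x + 1) * 9) := by
  have hk : (x.den : ℚ) ≠ 0 := by exact_mod_cast x.den_nz
  have ej : (9 : ℚ) * ((x - n) / 3) + (1 + 3 * n) = 3 * x + 1 := by ring
  have h1 := hT (1 - 3 * n, -n ^ 2, 9, 1 + 3 * n) ((x - n) / 3) 9 (3 * x + 1)
    (by simp only [det]; ring) (by norm_num) (by push_cast; ring) (by norm_num) hj
  have e1 : mu (1 - 3 * n, -n ^ 2, 9, 1 + 3 * n) ((x - n) / 3) = (x / (3 * x + 1) - n) / 3 := by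
    simp only [mu]
    push_cast
    rw [ej]
    field_simp
    ring
  have e2 : (((1 - 3 * n : ℤ) : ℚ)) / 9 = (1 / 3 - n) / 3 := by
    push_cast
    ring
  have e3 : 9 / ((((x - n) / 3).den : ℚ) ^ 2 * (3 * x + 1)) =
      (1 + 8 * ind x n) / ((x.den : ℚ) ^ 2 * (3 * x + 1)) := by
    rw [← div_div, div_eq_mul_inv 9, den_n]
    field_simp
  rw [e1, e2, e3] at h1
  exact h1

theorem not_third : ¬ In (1 / 3) ∧ ¬ In (-1 / 3) := by
  constructor <;> decide +kernel

theorem Q_L (h : RowBAS) (hT : RowDTR) (x y : ℚ) (b : ℤ) (hy : In y) (hj : 3 * x + 1 ≠ 0) :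
    Q (x / (3 * x + 1)) b (y + 1) - Q (1 / 3) b (y + 1) = Q x b y := by
  obtain ⟨O, hO⟩ := h.ring
  have hk : (x.den : ℚ) ≠ 0 := by exact_mod_cast x.den_nz
  have a1 := dd_L hT x (b + 1) hj
  have a2 := dd_L hT x (b - 1) hj
  have b1 := ind_L h x (b + 1) hj
  have b2 := ind_L h x (b - 1) hj
  have c1 := ind_zero h _ (b + 1) not_third.1
  have c2 := ind_zero h _ (b - 1) not_third.1
  push_cast at a1 a2 b1 b2 c1 c2
  have e4 : 3 * (x / (3 * x + 1)) * (y + 1) - 1 = (3 * x * y - 1) / (3 * x + 1) := by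
    field_simp
    ring
  unfold Q
  rw [a1, a2, b1, b2, c1, c2, den_L x hj, e4]
  by_cases hx : In x
  · have h1 : 3 * x * y - 1 ≠ 0 := by
      rw [mul_assoc]
      exact (unit_ne h ((hO _).1 (O.mul_mem ((hO _).2 hx) ((hO _).2 hy)))).2.1
    have key : (y + 1) / ((3 * x + 1) ^ 2 * (x.den : ℚ) ^ 2 * ((3 * x * y - 1) / (3 * x + 1))) =
        y / ((x.den : ℚ) ^ 2 * (3 * x * y - 1)) - 1 / ((x.den : ℚ) ^ 2 * (3 * x + 1)) := by
      have e : y + 1 = y * (3 * x + 1) - (3 * x * y - 1) := by ring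
      rw [e]
      generalize 3 * x * y - 1 = p at h1 ⊢
      generalize 3 * x + 1 = j at hj ⊢
      field_simp
    rw [key]
    ring
  · have d1 := ind_zero h _ (b + 1) hx
    have d2 := ind_zero h _ (b - 1) hx
    push_cast at d1 d2
    rw [d1, d2]
    ring

theorem Q_inf (h : RowBAS) (y y' : ℚ) (b : ℤ) (hb : b = 0 ∨ b = 1 ∨ b = -1) :
    -Q (1 / 3) b y' = Q (-1 / 3) b y := by
  have c1 := ind_zero h _ (b + 1) not_third.1
  have c2 := ind_zero h _ (b - 1) not_third.1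
  have d1 := ind_zero h _ (b + 1) not_third.2
  have d2 := ind_zero h _ (b - 1) not_third.2
  push_cast at c1 c2 d1 d2
  unfold Q
  rw [c1, c2, d1, d2]
  simp only [sub_self, zero_mul, mul_zero, add_zero, sub_zero]
  rcases hb with rfl | rfl | rfl <;> decide +kernel

theorem Q_zero (y : ℚ) (b : ℤ) (hb : b = 0 ∨ b = 1 ∨ b = -1) :
    Q 0 b y = -(4 / 3) - 8 * b * y := by
  have a : ∀ b : ℤ, b = 0 ∨ b = 1 ∨ b = -1 →
      ind 0 ((b : ℚ) + 1) - ind 0 ((b : ℚ) - 1) = -b ∧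
      DD ((0 - ((b : ℚ) + 1)) / 3) - DD ((0 - ((b : ℚ) - 1)) / 3) =
        2 * (ind 0 ((b : ℚ) + 1) + ind 0 ((b : ℚ) - 1)) - 4 / 3 := by
    intro b hb
    rcases hb with rfl | rfl | rfl <;> decide +kernel
  unfold Q
  rw [(a b hb).1, (a b hb).2]
  simp only [Rat.den_zero, Nat.cast_one]
  ring

theorem P_T (h : RowBAS) (hO : RowOM) (hD : RowDREC) (c : V) (u y : ℚ) (hu : In u) (hy : In y) :
    P (ap mT c) (mu mT u) (my mT y) = P c u y := by
  obtain ⟨O, hR⟩ := h.ring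
  have e1 : ap mT c = (c.1 + c.2, c.2) := by simp [ap, mT]
  have e2 : mu mT u = u + 1 := by simp [mu, mT]
  have e3 : my mT y = y / (3 * y + 1) := by simp [my, mT, add_comm]
  rw [e1, e2, e3]
  unfold P
  by_cases hc : c.2 = 0
  · rw [if_pos hc, if_pos hc]
  · rw [if_neg hc, if_neg hc]
    have e4 : (c.1 + c.2) / c.2 = c.1 / c.2 + 1 := by field_simp
    obtain ⟨b, hb, -⟩ := chi_int u
    obtain ⟨b', hb', -⟩ := chi_int (u + 1)
    have h1 := hO.2.2.2.2.2.1 u hu
    have h2 := hO.2.2.2.2.2.1 (u + 1) ((hR _).1 (O.add_mem ((hR _).2 hu) O.one_mem))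
    rw [hb] at h1
    rw [hb'] at h2
    have h3 : In (((b + 1 - b' : ℤ) : ℚ) / 3) := by
      have e : ((b + 1 - b' : ℤ) : ℚ) / 3 = (u + 1 - b') / 3 - (u - b) / 3 := by
        push_cast
        ring
      rw [e, ← hR]
      exact O.sub_mem ((hR _).2 h2) ((hR _).2 h1)
    obtain ⟨m, hm⟩ := (h.int _).1.1 h3
    have hm' : (b : ℚ) + 1 = b' + 3 * m := by
      have : b + 1 = b' + 3 * m := by omega
      exact_mod_cast this
    simp only [e4, hb, hb']
    exact Q_T h hD _ _ _ _ m hm' (unit_ne h hy).1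

theorem P_L (h : RowBAS) (hO : RowOM) (hT : RowDTR) (c : V) (u y : ℚ) (hc : c ≠ 0) (hu : In u)
    (hy : In y) : P (ap mL c) (mu mL u) (my mL y) - Q (1 / 3) (chi u) (y + 1) = P c u y := by
  obtain ⟨O, hR⟩ := h.ring
  have e1 : ap mL c = (c.1, 3 * c.1 + c.2) := by simp [ap, mL]
  have e2 : mu mL u = u + 3 * (-(u * u) / (3 * u + 1)) := by
    have h0 := (unit_ne h hu).1
    have h1 : u * 3 + 1 ≠ 0 := by rwa [mul_comm]
    simp only [mu, mL]
    push_cast
    field_simp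
    ring
  have e3 : my mL y = y + 1 := by simp [my, mL, add_comm]
  have e5 : chi (mu mL u) = chi u := by
    rw [e2]
    exact hO.2.2.2.2.1 _ _ hu (h.div _ _
      ((hR _).1 (O.neg_mem (O.mul_mem ((hR _).2 hu) ((hR _).2 hu)))) (unit_ne h hu).2.2.1)
  obtain ⟨b, hb, hb3⟩ := chi_int u
  unfold P
  rw [e1, e3, e5, hb]
  by_cases h2 : c.2 = 0
  · have h1 : c.1 ≠ 0 := fun h1 => hc (Prod.ext h1 h2)
    have h3 : ¬ 3 * c.1 + c.2 = 0 := by
      rw [h2, add_zero]
      exact mul_ne_zero three_ne_zero h1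
    have e : c.1 / (3 * c.1 + c.2) = 1 / 3 := by
      rw [h2, add_zero]
      field_simp
    rw [if_neg h3, if_pos h2]
    simp only [e, sub_self]
  · rw [if_neg h2]
    by_cases h3 : 3 * c.1 + c.2 = 0
    · have e : c.1 / c.2 = -1 / 3 := by
        field_simp
        linarith
      rw [if_pos h3, e, zero_sub]
      exact Q_inf h _ _ b hb3
    · have hj : 3 * (c.1 / c.2) + 1 ≠ 0 := by
        have : 3 * (c.1 / c.2) + 1 = (3 * c.1 + c.2) / c.2 := by field_simp
        rw [this]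
        exact div_ne_zero h3 h2
      have e : c.1 / (3 * c.1 + c.2) = c.1 / c.2 / (3 * (c.1 / c.2) + 1) := by field_simp
      rw [if_neg h3]
      simp only [e]
      exact Q_L h hT _ _ b hy hj

end XIPA

open XIPA in
theorem rowXIP : OfXIP := by
  intro h _ hO hD hT
  refine ⟨fun c c' u y => P c' u y - P c u y, ⟨fun u y _ _ => ⟨?_, ?_⟩, ?_, ?_⟩, ?_, ?_⟩
  · intro c l _ hl
    unfold P
    simp only [Prod.smul_snd, Prod.smul_fst, smul_eq_mul, mul_eq_zero, hl, false_or,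
      mul_div_mul_left _ _ hl, sub_self]
  · intro c c' c'' _ _ _
    ring
  · intro c c' _ _ u y hu hy
    simp only [act]
    rw [P_T h hO hD c u y hu hy, P_T h hO hD c' u y hu hy]
  · intro c c' hc hc' u y hu hy
    simp only [act]
    rw [← P_L h hO hT c u y hc hu hy, ← P_L h hO hT c' u y hc' hu hy]
    ring
  · intro u y _ _
    obtain ⟨b, hb, hb3⟩ := chi_int u
    have e : P e2 u y - P e1 u y = Q 0 (chi u) y := by simp [P, e1, e2]
    simp only [e]
    rw [hb]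
    exact Q_zero y b hb3
  · intro m N hN _
    obtain ⟨O, hR⟩ := h.ring
    have hN0 : (N : ℚ) ≠ 0 := by
      intro h0
      have : N = 0 := by exact_mod_cast h0
      exact hN (this ▸ dvd_zero 3)
    have hNu : Un (N : ℚ) := by
      have := (h.int N).2.2 (by exact_mod_cast hN)
      exact_mod_cast this
    have hx : In ((m : ℚ) / N) := h.div _ _ ((hR _).1 (natCast_mem O m)) hNu
    have h1 := hO.2.2.2.2.2.1 _ hx
    have e : P (m, N) (m / N) 0 - P e1 (m / N) 0 = Q (m / N) (chi (m / N)) 0 := by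
      simp [P, e1, hN0]
    simp only [e]
    generalize chi ((m : ℚ) / N) = b at h1 ⊢
    generalize (m : ℚ) / N = x at h1 ⊢
    have i1 : ind x (b + 1) = 0 := by
      refine if_neg fun h2 => not_third.1 ?_
      have e : (1 / 3 : ℚ) = (x - b) / 3 - (x - (b + 1)) / 3 := by ring
      rw [e, ← hR]
      exact O.sub_mem ((hR _).2 h1) ((hR _).2 h2)
    have i2 : ind x (b - 1) = 0 := by
      refine if_neg fun h2 => not_third.1 ?_
      have e : (1 / 3 : ℚ) = (x - (b - 1)) / 3 - (x - b) / 3 := by ring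
      rw [e, ← hR]
      exact O.sub_mem ((hR _).2 h2) ((hR _).2 h1)
    have e1 : x - (b + 1) = x - b - 1 := by ring
    have e2 : x - (b - 1) = x - b + 1 := by ring
    unfold Q
    rw [i1, i2, e1, e2]
    ring

end

end Pool.Agent.MP_5f72fe_nt.MS
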