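import Pool.Agent.MP_5f72fe_nt.MS.S1

/-! Row `XT`: the operator `T2p` and the degree filtration. -/

namespace Pool.Agent.MP_5f72fe_nt.MS

namespace XTA

def dd (g : Mt) : ℕ × ℕ × ℕ :=
  if g = (-2, 0, 0, 1) then (3, 6, 1) else if g = (-1, 0, 0, 2) then (6, 3, 2)
  else if g = (-1, 1, 0, 2) then (2, 3, 2) else if g = (2, 0, 3, -1) then (3, 2, 1)
  else if g = (-1, 1, 3, -1) then (2, 2, 1) else if g = (1, 1, 3, 4) then (4, 7, 2)
  else if g = (4, 1, 3, 1) then (1, 1, 0) else if g = (1, 1, 0, 1) then (1, 0, 0)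
  else if g = (1, 0, 3, 1) then (0, 1, 0) else (0, 0, 0)

def ex : Op := [(-1, (1, 1, 3, 4)), (-1, (4, 1, 3, 1)), (2, mT), (2, mL), (-2, mI)]

instance (g : Mt) : Decidable (Deep g) := by unfold Deep; infer_instance

theorem cert_of (w : ℕ) (o : Op) (h1 : ∀ x ∈ o, Deep (mul x.2 (adj (Wd (dd x.2)))))
    (h2 : ∀ i < w, ∀ j < w, ∀ k < w, i + j + 2 * k < w → (o.map fun x => (x.1 : F3) *
      (((dd x.2).1.choose i * (dd x.2).2.1.choose j * (dd x.2).2.2.choose k : ℕ) : F3)).sum = 0) :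
    Cert w o :=
  ⟨dd, h1, fun i j k h => h2 i (by omega) j (by omega) k (by omega) h⟩

theorem cert2 : Cert 2 T2p := cert_of 2 T2p (by decide +kernel) (by decide +kernel)

theorem cert3 : Cert 3 (T2p ++ ex) := cert_of 3 (T2p ++ ex) (by decide +kernel) (by decide +kernel)

theorem up_mono {i j n i' j' n' : ℕ} {c : Ar} (h : Up i j n c) (hi : i ≤ i') (hj : j ≤ j')
    (hn : n ≤ n') : Up i' j' n' c :=
  fun a b ha hb hab => h a b (hi.trans ha) (hj.trans hb) (hn.trans hab)

theorem gT : G0 mT := by unfold G0 mT; decide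
theorem gL : G0 mL := by unfold G0 mL; decide

theorem alg (c : Ar) (i j : ℕ) : egr (fgr c) i j + fgr (egr c) i j = xgr c i j := by
  have h3 : (3 : F3) = 0 := rfl
  have e1 : j + 1 + 1 = j + 2 := rfl
  have e2 : i + 1 + 1 = i + 2 := rfl
  have hi : i % 3 = 0 ∨ i % 3 = 1 ∨ i % 3 = 2 := by omega
  have hj : j % 3 = 0 ∨ j % 3 = 1 ∨ j % 3 = 2 := by omega
  have hi' : (i + 1) % 3 = (i % 3 + 1) % 3 := by omega
  have hj' : (j + 1) % 3 = (j % 3 + 1) % 3 := by omega
  simp only [egr, fgr, xgr, e1, e2, hi', hj']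
  rcases hi with hi | hi | hi <;> rcases hj with hj | hj | hj <;> simp only [hi, hj] <;>
    norm_num <;> linear_combination (c (i + 1) (j + 1)) * h3

end XTA

open XTA in
theorem rowXT : OfXT := by
  intro hM hN hA hF a i j ha
  refine ⟨fun n hn => hF 2 T2p (by norm_num) cert2 a i j n ha hn, fun h => ?_⟩
  obtain ⟨C, hC⟩ := hN.lin
  obtain ⟨M, hMm⟩ := hM.grp F3
  have lcE : ∀ (g : Mt), G0 g → ∀ b : Ch F3, LC2 b → LC2 (act g b - b) := fun g hg b hb =>
    (hMm _).1 (M.sub_mem ((hMm _).2 ((hM.lc F3 b hb).1 g hg)) ((hMm _).2 hb))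
  have h0 : co (app (T2p ++ ex) a) i j = 0 :=
    hF 3 _ (by norm_num) cert3 a i j (i + j) ha h i j le_rfl le_rfl le_rfl
  have hE := lcE mT gT a ha
  have hL := lcE mL gL a ha
  have uE : Up i j (i + j + 2) (co (act mT a - a)) :=
    hA.dr1 mT gT (by decide) a i j (i + j + 2) ha h
  have uL : Up i j (i + j + 2) (co (act mL a - a)) :=
    hA.dr1 mL gL (by decide) a i j (i + j + 2) ha h
  have a1 : Up (i + 1) j (i + 1 + j + 2) (co a) := up_mono h (by omega) le_rfl (by omega)
  have a2 : Up i (j + 1) (i + (j + 1) + 2) (co a) := up_mono h le_rfl (by omega) (by omega)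
  have t1 : co (act mT (act mL a - a) - (act mL a - a)) i j = egr (fgr (co a)) i j := by
    rw [hA.topT _ i j hL uL]
    show co (act mL a - a) (i + 1) j + (if j % 3 = 2 then co (act mL a - a) i (j + 1) else 0) = _
    rw [hA.topL a _ _ ha a1, hA.topL a _ _ ha a2]
    rfl
  have t2 : co (act mL (act mT a - a) - (act mT a - a)) i j = fgr (egr (co a)) i j := by
    rw [hA.topL _ i j hE uE]
    show co (act mT a - a) i (j + 1) + (if i % 3 = 2 then co (act mT a - a) (i + 1) j else 0) = _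
    rw [hA.topT a _ _ ha a1, hA.topT a _ _ ha a2]
    rfl
  have key : EqO (app T2p a) (app (T2p ++ ex) a + ((act mT (act mL a - a) - (act mL a - a)) +
      (act mL (act mT a - a) - (act mT a - a)))) := by
    intro u y hu hy
    have c1 := (hM.comp mL mT gL gT).2 u hu
    have c2 := (hM.comp mL mT gL gT).2 y hy
    have c3 := (hM.comp mT mL gT gL).2 u hu
    have c4 := (hM.comp mT mL gT gL).2 y hy
    have m1 : mul mL mT = (1, 1, 3, 4) := by decide
    have m2 : mul mT mL = (4, 1, 3, 1) := by decide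
    rw [m1] at c1 c2
    rw [m2] at c3 c4
    have i1 : mu mI u = u := by simp [mu, mI]
    have i2 : my mI y = y := by simp [my, mI]
    simp only [app, List.map_append, List.sum_append, ex, List.map_cons, List.map_nil,
      List.sum_cons, List.sum_nil, Pi.add_apply, Pi.sub_apply, Pi.smul_apply, act, c1.1, c2.2,
      c3.1, c4.2, i1, i2, Pi.zero_apply]
    abel
  rw [hN.congr _ _ key, ← hC, map_add, map_add, hC, hC, hC]
  simp only [Pi.add_apply]
  rw [h0, t1, t2, zero_add, alg]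

end Pool.Agent.MP_5f72fe_nt.MS
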