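import Pool.Agent.MP_5f72fe_nt.MS.S1

/-! Row YT: the top of the operator `T7c - 2 - T2p T2p` on the kernel of `rho`. -/

namespace Pool.Agent.MP_5f72fe_nt.MS

namespace YTA

def prod (o o' : Op) : Op := o.flatMap fun x => o'.map fun x' => (x.1 * x'.1, mul x.2 x'.2)

def ng (o : Op) : Op := o.map fun x => (-x.1, x.2)

def oE : Op := [(1, mT), (-1, mI)]

def oF : Op := [(1, mL), (-1, mI)]

def oW : Op := [(2, mI), (2, mL), (1, mul mL mL), (1, mul mT mT)]

def oFE : Op := prod (prod (prod (prod (prod oE oE) oE) oF) oF) oF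

def oY : Op := T7c ++ [(-2, mI)] ++ ng (prod T2p T2p) ++ oFE ++ ng (prod rho oW)

def tab : List (Mt × ℕ × ℕ × ℕ) :=
  [((7, 0, 0, 1), 3, 6, 1), ((1, -3, 0, 7), 3, 3, 2), ((1, -3, 3, -2), 3, 4, 2),
  ((2, 1, -3, 2), 2, 4, 2), ((7, 0, 9, 1), 3, 0, 1), ((2, 1, -9, -1), 2, 0, 1),
  ((1, -2, 0, 7), 7, 3, 2), ((1, -2, 3, 1), 1, 1, 1), ((7, 0, 3, 1), 3, 1, 1),
  ((1, -1, 0, 7), 2, 3, 2), ((7, 0, 6, 1), 3, 5, 1), ((1, -1, 6, 1), 2, 5, 1),
  ((1, 0, 0, 7), 6, 3, 2), ((1, 1, 0, 7), 1, 3, 2), ((1, 1, -6, 1), 4, 7, 1),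
  ((7, 0, -6, 1), 3, 7, 1), ((1, 2, 0, 7), 5, 3, 2), ((1, 2, -3, 1), 5, 2, 1),
  ((7, 0, -3, 1), 3, 2, 1), ((1, 3, 0, 7), 0, 3, 2), ((2, -1, 3, 2), 1, 2, 2),
  ((1, 3, -3, -2), 0, 2, 2), ((2, -1, 9, -1), 4, 3, 1), ((7, 0, -9, 1), 3, 3, 1),
  ((1, 0, 0, 1), 0, 0, 0), ((4, 0, 0, 1), 6, 3, 2), ((2, 0, 0, 2), 0, 0, 0),
  ((2, -2, 0, 2), 8, 0, 0), ((-4, 0, 3, -1), 6, 5, 2), ((2, -2, 3, -1), 8, 5, 2),
  ((1, 0, 0, 4), 3, 6, 1), ((1, -1, 0, 4), 5, 6, 1), ((-2, 0, 6, -2), 0, 8, 0),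
  ((1, -1, 6, -2), 5, 8, 0), ((2, 1, 0, 2), 5, 0, 0), ((1, 2, 0, 4), 8, 6, 1),
  ((1, 1, 0, 4), 1, 6, 1), ((4, -2, 6, -2), 1, 8, 0), ((-4, 0, -6, -1), 6, 8, 2),
  ((-2, 0, -3, -2), 0, 5, 0), ((-2, 2, -3, 1), 8, 5, 2), ((4, 0, 3, 1), 6, 1, 2),
  ((-2, 2, -6, 4), 8, 4, 1), ((2, 1, -6, -1), 5, 8, 2), ((1, 2, -3, -2), 8, 5, 0),
  ((1, 1, -3, 1), 7, 5, 2), ((1, -1, 3, 1), 5, 1, 2), ((4, -2, -6, 4), 7, 4, 1),
  ((28, 3, 9, 1), 3, 3, 0), ((19, 3, 6, 1), 3, 2, 0), ((10, 3, 3, 1), 3, 1, 0),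
  ((1, 3, 0, 1), 3, 0, 0), ((19, 2, 9, 1), 2, 3, 0), ((13, 2, 6, 1), 2, 2, 0),
  ((7, 2, 3, 1), 2, 1, 0), ((1, 2, 0, 1), 2, 0, 0), ((10, 1, 9, 1), 1, 3, 0),
  ((7, 1, 6, 1), 1, 2, 0), ((4, 1, 3, 1), 1, 1, 0), ((1, 1, 0, 1), 1, 0, 0),
  ((1, 0, 9, 1), 0, 3, 0), ((1, 0, 6, 1), 0, 2, 0), ((1, 0, 3, 1), 0, 1, 0),
  ((1, -1, 0, 1), 8, 0, 0), ((-2, -1, 3, 1), 8, 1, 0), ((-5, -1, 6, 1), 8, 2, 0),
  ((-2, 1, -3, 1), 1, 8, 0), ((-2, -3, -3, -5), 3, 8, 2), ((1, 0, -3, 1), 0, 8, 0),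
  ((1, 2, -3, -5), 2, 8, 2), ((1, -1, 3, -2), 8, 4, 1), ((-2, -1, -3, -2), 8, 8, 1),
  ((-5, -1, -9, -2), 8, 3, 1), ((1, 1, 3, 4), 4, 7, 2), ((-2, 1, 3, -2), 7, 4, 1),
  ((1, 1, -3, -2), 7, 8, 1), ((4, 1, -9, -2), 7, 3, 1), ((-2, -3, 3, 4), 3, 7, 2)]

def dd (g : Mt) : ℕ × ℕ × ℕ := (tab.lookup g).getD (0, 0, 0)

instance (g : Mt) : Decidable (Deep g) := by unfold Deep; infer_instance

instance (g : Mt) : Decidable (G0 g) := by unfold G0; infer_instance

theorem deepY : ∀ x ∈ oY, Deep (mul x.2 (adj (Wd (dd x.2)))) := by decide +kernel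

theorem sumY : ∀ i < 7, ∀ j < 7, ∀ k < 4, i + j + 2 * k < 7 → (oY.map fun x => (x.1 : F3) *
    (((dd x.2).1.choose i * (dd x.2).2.1.choose j * (dd x.2).2.2.choose k : ℕ) : F3)).sum = 0 := by
  decide +kernel

theorem certY : Cert 7 oY :=
  ⟨dd, deepY, fun i j k h => sumY i (by omega) j (by omega) k (by omega) h⟩

theorem act_I (a : Ch F3) : act mI a = a := by
  funext u y
  simp [act, mu, my, mI]

theorem app_nil (a : Ch F3) : app [] a = 0 := rfl

theorem app_cons (x : ℤ × Mt) (o : Op) (a : Ch F3) :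
    app (x :: o) a = x.1 • act x.2 a + app o a := by
  simp [app]

theorem app_append (o o' : Op) (a : Ch F3) : app (o ++ o') a = app o a + app o' a := by
  simp [app]

theorem app_ng (o : Op) (a : Ch F3) : app (ng o) a = -app o a := by
  induction o with
  | nil => simp [ng, app]
  | cons x o ih =>
    have : ng (x :: o) = (-x.1, x.2) :: ng o := rfl
    rw [this, app_cons, app_cons, ih]
    simp only [neg_smul]
    abel

theorem app_lin (o : Op) (c : ℤ) (a b : Ch F3) : app o (c • a + b) = c • app o a + app o b := by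
  induction o with
  | nil => simp [app]
  | cons x o ih =>
    rw [app_cons, app_cons, app_cons, ih]
    have : act x.2 (c • a + b) = c • act x.2 a + act x.2 b := rfl
    rw [this, smul_add, smul_add, smul_comm x.1 c]
    abel

theorem app_zero (o : Op) : app o (0 : Ch F3) = 0 := by
  induction o with
  | nil => rfl
  | cons x o ih =>
    rw [app_cons, ih]
    have : act x.2 (0 : Ch F3) = 0 := rfl
    rw [this]
    simp

theorem app_map (hM : RowMOB) (c : ℤ) (g : Mt) (hg : G0 g) (o : Op) (ho : ∀ x ∈ o, G0 x.2)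
    (a : Ch F3) :
    EqO (app (o.map fun x' => (c * x'.1, mul g x'.2)) a) (c • app o (act g a)) := by
  induction o with
  | nil => intro u y _ _; simp [app]
  | cons x o ih =>
    intro u y hu hy
    have h1 := ih (fun z hz => ho z (List.mem_cons_of_mem _ hz)) u y hu hy
    have h2 := hM.comp g x.2 hg (ho x List.mem_cons_self)
    rw [List.map_cons, app_cons, app_cons, smul_add]
    simp only [Pi.add_apply]
    rw [h1]
    congr 1
    simp only [Pi.smul_apply, act, (h2.2 u hu).1, (h2.2 y hy).2, mul_smul]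

theorem app_prod (hM : RowMOB) (o o' : Op) (ho : ∀ x ∈ o, G0 x.2) (ho' : ∀ x ∈ o', G0 x.2)
    (a : Ch F3) : EqO (app (prod o o') a) (app o' (app o a)) := by
  induction o with
  | nil => intro u y _ _; rw [app_nil, app_zero]; rfl
  | cons x o ih =>
    intro u y hu hy
    have h1 := ih (fun z hz => ho z (List.mem_cons_of_mem _ hz)) u y hu hy
    have h2 := app_map hM x.1 x.2 (ho x List.mem_cons_self) o' ho' a u y hu hy
    have h3 : prod (x :: o) o' = (o'.map fun x' => (x.1 * x'.1, mul x.2 x'.2)) ++ prod o o' := by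
      simp [prod]
    rw [h3, app_append, app_cons, app_lin]
    simp only [Pi.add_apply]
    rw [h1, h2]

theorem eqO_trans {a b c : Ch F3} (h : EqO a b) (h' : EqO b c) : EqO a c :=
  fun u y hu hy => (h u y hu hy).trans (h' u y hu hy)

def sE (a : Ch F3) : Ch F3 := act mT a - a

def sF (a : Ch F3) : Ch F3 := act mL a - a

theorem app_E (a : Ch F3) : app oE a = sE a := by
  simp [oE, app_cons, app_nil, act_I, sE, sub_eq_add_neg]

theorem app_F (a : Ch F3) : app oF a = sF a := by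
  simp [oF, app_cons, app_nil, act_I, sF, sub_eq_add_neg]

theorem step (hM : RowMOB) (o o' : Op) (ho : ∀ x ∈ o, G0 x.2) (ho' : ∀ x ∈ o', G0 x.2)
    (a b : Ch F3) (h : EqO (app o a) b) : EqO (app (prod o o') a) (app o' b) :=
  eqO_trans (app_prod hM o o' ho ho' a) ((hM.congr F3 _ _ h).2.1 o' ho')

theorem app_FE (hM : RowMOB) (a : Ch F3) :
    EqO (app oFE a) (sF (sF (sF (sE (sE (sE a)))))) := by
  have h1 : EqO (app oE a) (sE a) := by rw [app_E]; intro u y _ _; rfl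
  have h2 := step hM oE oE (by decide) (by decide) a _ h1
  rw [app_E (sE a)] at h2
  have h3 := step hM _ oE (by decide +kernel) (by decide) a _ h2
  rw [app_E] at h3
  have h4 := step hM _ oF (by decide +kernel) (by decide) a _ h3
  rw [app_F] at h4
  have h5 := step hM _ oF (by decide +kernel) (by decide) a _ h4
  rw [app_F] at h5
  have h6 := step hM _ oF (by decide +kernel) (by decide) a _ h5
  rw [app_F] at h6
  exact h6

theorem main (hM : RowMOB) (a : Ch F3) (h : EqO (app rho a) 0) :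
    EqO (app T7c a - (2 : ℤ) • a - app T2p (app T2p a))
      (app oY a - sF (sF (sF (sE (sE (sE a)))))) := by
  intro u y hu hy
  have h1 := app_FE hM a u y hu hy
  have h2 := app_prod hM T2p T2p (by decide) (by decide) a u y hu hy
  have h3 := step hM rho oW (by decide) (by decide) a 0 h u y hu hy
  rw [app_zero] at h3
  rw [oY, app_append, app_append, app_append, app_append, app_ng, app_ng, app_cons, app_nil, act_I]
  simp only [Pi.add_apply, Pi.sub_apply, Pi.neg_apply, Pi.smul_apply, Pi.zero_apply] at h3 ⊢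
  rw [h1, h2, h3]
  simp only [neg_smul]
  abel

def Tp (i j d : ℕ) (c c' : Ar) : Prop :=
  ∀ i' j', i ≤ i' → j ≤ j' → i' + j' = d → c i' j' = c' i' j'

theorem lcE (hM : RowMOB) {b : Ch F3} (hb : LC2 b) : LC2 (sE b) := by
  rw [← app_E]; exact (hM.lc F3 b hb).2.1 oE (by decide)

theorem lcF (hM : RowMOB) {b : Ch F3} (hb : LC2 b) : LC2 (sF b) := by
  rw [← app_F]; exact (hM.lc F3 b hb).2.1 oF (by decide)

theorem upE (hA : RowACT) {b : Ch F3} (hb : LC2 b) {i j n : ℕ} (h : Up i j (n + 1) (co b)) :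
    Up i j n (co (sE b)) := hA.dr1 mT (by decide) (by decide) b i j n hb h

theorem upF (hA : RowACT) {b : Ch F3} (hb : LC2 b) {i j n : ℕ} (h : Up i j (n + 1) (co b)) :
    Up i j n (co (sF b)) := hA.dr1 mL (by decide) (by decide) b i j n hb h

theorem tpE (hA : RowACT) {b : Ch F3} (hb : LC2 b) {i j d : ℕ} {c : Ar}
    (h : Up i j (d + 2) (co b)) (ht : Tp i j (d + 1) (co b) c) : Tp i j d (co (sE b)) (egr c) := by
  intro i' j' hi hj hd
  have h1 : co (sE b) i' j' = egr (co b) i' j' :=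
    hA.topT b i' j' hb fun p q hp hq hn => h p q (by omega) (by omega) (by omega)
  rw [h1]
  unfold egr
  rw [ht (i' + 1) j' (by omega) hj (by omega), ht i' (j' + 1) hi (by omega) (by omega)]

theorem tpF (hA : RowACT) {b : Ch F3} (hb : LC2 b) {i j d : ℕ} {c : Ar}
    (h : Up i j (d + 2) (co b)) (ht : Tp i j (d + 1) (co b) c) : Tp i j d (co (sF b)) (fgr c) := by
  intro i' j' hi hj hd
  have h1 : co (sF b) i' j' = fgr (co b) i' j' :=
    hA.topL b i' j' hb fun p q hp hq hn => h p q (by omega) (by omega) (by omega)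
  rw [h1]
  unfold fgr
  rw [ht (i' + 1) j' (by omega) hj (by omega), ht i' (j' + 1) hi (by omega) (by omega)]

theorem three : (3 : F3) = 0 := by decide

theorem egr3 (c : Ar) (i j : ℕ) : egr (egr (egr c)) i j = c (i + 3) j := by
  by_cases h : j % 3 = 2
  · have h' : ¬ (j + 1) % 3 = 2 := by omega
    simp only [egr, if_pos h, if_neg h', add_assoc]
    norm_num
    linear_combination c (i + 2) (j + 1) * three
  · simp only [egr, if_neg h, add_zero]

theorem fgr3 (c : Ar) (i j : ℕ) : fgr (fgr (fgr c)) i j = c i (j + 3) := by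
  by_cases h : i % 3 = 2
  · have h' : ¬ (i + 1) % 3 = 2 := by omega
    simp only [fgr, if_pos h, if_neg h', add_assoc]
    norm_num
    linear_combination c (i + 1) (j + 2) * three
  · simp only [fgr, if_neg h, add_zero]

end YTA

open YTA in
theorem rowYT : OfYT := by
  intro hM hN hA hF a i j ha hr
  obtain ⟨C, hC⟩ := hN.lin
  have key : co (app T7c a - (2 : ℤ) • a - app T2p (app T2p a)) =
      co (app oY a) - co (sF (sF (sF (sE (sE (sE a)))))) := by
    rw [hN.congr _ _ (main hM a hr), ← hC, ← hC, ← hC, map_sub]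
  have l1 := lcE hM ha
  have l2 := lcE hM l1
  have l3 := lcE hM l2
  have l4 := lcF hM l3
  have l5 := lcF hM l4
  refine ⟨fun n h => ?_, fun h => ?_⟩
  · have h1 : Up i j n (co (app oY a)) :=
      hF 7 oY le_rfl certY a i j n ha fun p q hp hq hn => h p q hp hq (by omega)
    have h2 := upF hA l5 (upF hA l4 (upF hA l3 (upE hA l2 (upE hA l1 (upE hA ha h)))))
    intro p q hp hq hn
    rw [key, Pi.sub_apply, Pi.sub_apply, h1 p q hp hq hn, h2 p q hp hq hn, sub_zero]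
  · have h1 : Up i j (i + j) (co (app oY a)) := hF 7 oY le_rfl certY a i j (i + j) ha h
    have u1 := upE hA ha h
    have u2 := upE hA l1 u1
    have u3 := upE hA l2 u2
    have u4 := upF hA l3 u3
    have u5 := upF hA l4 u4
    have t0 : Tp i j (i + j + 6) (co a) (co a) := fun _ _ _ _ _ => rfl
    have t6 := tpF hA l5 u5 (tpF hA l4 u4 (tpF hA l3 u3 (tpE hA l2 u2 (tpE hA l1 u1
      (tpE hA ha h t0)))))
    rw [key, Pi.sub_apply, Pi.sub_apply, h1 i j le_rfl le_rfl le_rfl, t6 i j le_rfl le_rfl rfl,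
      fgr3, egr3, zero_sub]

end Pool.Agent.MP_5f72fe_nt.MS
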