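import Pool.Agent.MP_5f72fe_nt.H20.SER2
import Pool.Agent.MP_5f72fe_nt.H28.JH
import Pool.Agent.MP_5f72fe_nt.H60.TH
import Pool.Agent.MP_5f72fe_nt.H96.SER1
import Pool.Agent.MP_5f72fe_nt.H98.GAUSS
import Pool.Agent.MP_5f72fe_nt.MS.A0
import Pool.Agent.MP_5f72fe_nt.MS.ACT
import Pool.Agent.MP_5f72fe_nt.MS.AUT
import Pool.Agent.MP_5f72fe_nt.MS.BAS
import Pool.Agent.MP_5f72fe_nt.MS.BD
import Pool.Agent.MP_5f72fe_nt.MS.BN
import Pool.Agent.MP_5f72fe_nt.MS.BND
import Pool.Agent.MP_5f72fe_nt.MS.CH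
import Pool.Agent.MP_5f72fe_nt.MS.CHT
import Pool.Agent.MP_5f72fe_nt.MS.CU
import Pool.Agent.MP_5f72fe_nt.MS.CUF
import Pool.Agent.MP_5f72fe_nt.MS.D1b
import Pool.Agent.MP_5f72fe_nt.MS.DGM
import Pool.Agent.MP_5f72fe_nt.MS.DREC2
import Pool.Agent.MP_5f72fe_nt.MS.DSUM
import Pool.Agent.MP_5f72fe_nt.MS.DTR
import Pool.Agent.MP_5f72fe_nt.MS.ELL
import Pool.Agent.MP_5f72fe_nt.MS.EXT1
import Pool.Agent.MP_5f72fe_nt.MS.EXT2
import Pool.Agent.MP_5f72fe_nt.MS.FORM
import Pool.Agent.MP_5f72fe_nt.MS.FOUR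
import Pool.Agent.MP_5f72fe_nt.MS.GEN
import Pool.Agent.MP_5f72fe_nt.MS.GENM
import Pool.Agent.MP_5f72fe_nt.MS.GENP
import Pool.Agent.MP_5f72fe_nt.MS.GK
import Pool.Agent.MP_5f72fe_nt.MS.HK
import Pool.Agent.MP_5f72fe_nt.MS.HKF
import Pool.Agent.MP_5f72fe_nt.MS.IND0
import Pool.Agent.MP_5f72fe_nt.MS.IND1
import Pool.Agent.MP_5f72fe_nt.MS.INJ1
import Pool.Agent.MP_5f72fe_nt.MS.INJA
import Pool.Agent.MP_5f72fe_nt.MS.INT
import Pool.Agent.MP_5f72fe_nt.MS.LIFT
import Pool.Agent.MP_5f72fe_nt.MS.LIFTJ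
import Pool.Agent.MP_5f72fe_nt.MS.LOC
import Pool.Agent.MP_5f72fe_nt.MS.MANIN
import Pool.Agent.MP_5f72fe_nt.MS.MELC
import Pool.Agent.MP_5f72fe_nt.MS.MOB
import Pool.Agent.MP_5f72fe_nt.MS.N2
import Pool.Agent.MP_5f72fe_nt.MS.NEC
import Pool.Agent.MP_5f72fe_nt.MS.NF
import Pool.Agent.MP_5f72fe_nt.MS.OM
import Pool.Agent.MP_5f72fe_nt.MS.OPS
import Pool.Agent.MP_5f72fe_nt.MS.PER
import Pool.Agent.MP_5f72fe_nt.MS.QE
import Pool.Agent.MP_5f72fe_nt.MS.RECT
import Pool.Agent.MP_5f72fe_nt.MS.RED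
import Pool.Agent.MP_5f72fe_nt.MS.RT
import Pool.Agent.MP_5f72fe_nt.MS.S3
import Pool.Agent.MP_5f72fe_nt.MS.SA
import Pool.Agent.MP_5f72fe_nt.MS.SOC
import Pool.Agent.MP_5f72fe_nt.MS.SOLVE
import Pool.Agent.MP_5f72fe_nt.MS.SYM
import Pool.Agent.MP_5f72fe_nt.MS.THMA
import Pool.Agent.MP_5f72fe_nt.MS.THMP
import Pool.Agent.MP_5f72fe_nt.MS.TREE
import Pool.Agent.MP_5f72fe_nt.MS.TS
import Pool.Agent.MP_5f72fe_nt.MS.TZ
import Pool.Agent.MP_5f72fe_nt.MS.X3
import Pool.Agent.MP_5f72fe_nt.MS.XIM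
import Pool.Agent.MP_5f72fe_nt.MS.XIP
import Pool.Agent.MP_5f72fe_nt.MS.XT
import Pool.Agent.MP_5f72fe_nt.MS.YT

/-! All rows together. -/

namespace Pool.Agent.MP_5f72fe_nt.MS

theorem allGAUSS : H3.RowGAUSS :=
  H98.rowGAUSS ⟨H96.rowSER1 H28.rowJH, H20.rowSER2 H28.rowJH (H96.rowSER1 H28.rowJH)⟩ H28.rowJH
    (H60.rowTH H28.rowJH)

theorem allBAS : RowBAS := rowBAS

theorem allSA : RowSA := rowSA allBAS

theorem allGEN : RowGEN := rowGEN

theorem allIND1 : RowIND1 := rowIND1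

theorem allMANIN : RowMANIN := rowMANIN

theorem allHK : RowHK := rowHK allGEN

theorem allOPS : RowOPS := rowOPS allBAS allHK

theorem allMOB : RowMOB := rowMOB allBAS

theorem allIND0 : RowIND0 := rowIND0 allBAS allGEN allMOB

theorem allCH : RowCH := rowCH allBAS allSA allMOB allIND0

theorem allCHT : RowCHT := rowCHT allBAS allMOB

theorem allEXT1 : RowEXT1 := rowEXT1 allBAS allMOB

theorem allEXT : RowEXT := rowEXT2 allBAS allSA allIND1 allMANIN allEXT1

theorem allBN : RowBN := rowBN allBAS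

theorem allDGM : RowDGM := rowDGM allBAS allBN

theorem allD1 : RowD1 := rowD1x allBAS allBN allDGM

theorem allX3 : RowX3 := rowX3 allBAS allBN

theorem allN2 : RowN2 := rowN2 allBAS allBN

theorem allACT : RowACT := rowACT allBAS allMOB allBN allD1 allX3 allN2

theorem allNF : RowNF := rowNF allMOB allN2 allACT

theorem allRT : RowRT := rowRT allMOB allN2 allACT allNF

theorem allXT : RowXT := rowXT allMOB allN2 allACT allNF

theorem allYT : RowYT := rowYT allMOB allN2 allACT allNF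

theorem allTS : RowTS := rowTS allBAS allMOB allBN allD1 allX3 allN2 allACT

theorem allSOLVE : RowSOLVE := rowSOLVE allBAS allMOB allBN allD1 allX3 allN2 allACT

theorem allLIFT : RowLIFT := rowLIFT allMOB allOPS allCH allEXT allN2 allACT allRT allSOLVE

theorem allPAR : RowPAR := rowPAR allMOB allCH allN2 allACT

theorem allNEC : RowNEC := rowNEC allOPS allCH allN2 allTS

theorem allTZ : RowTZ := rowTZ allOPS allCH allN2 allRT allTS allPAR

theorem allRED : RowRED := rowRED allOPS allCH allN2 allRT allLIFT allTZ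

theorem allGK : RowGK := rowGK

theorem allDREC : RowDREC := rowDREC2

theorem allDTR : RowDTR := rowDTR allGEN allDREC

theorem allDSUM : RowDSUM := rowDSUM allDREC

theorem allXIM : RowXIM := rowXIM allBAS allMOB allDREC allDTR

theorem allLIFTJ : RowLIFTJ := rowLIFTJ allMOB allOPS allCH allEXT allN2 allSOLVE

theorem allINT : RowINT := rowINT allBAS

theorem allBD : RowBD := rowBD allBAS allINT

theorem allBND : RowBND := rowBND allBAS allSA allIND1 allINT

theorem allRECT : RowRECT := rowRECT allBAS allINT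

theorem allOM : RowOM := rowOM allBAS

theorem allLOC : RowLOC := rowLOC allBAS allOM

theorem allTREE : RowTREE := rowTREE allBAS allOM allLOC

theorem allCU : RowCU := rowCU allINT

theorem allPER : RowPER := rowPER allCU

theorem allINJA : RowINJA := rowINJA allCU

theorem allINJ1 : RowINJ1 := rowINJ1 allCU allPER

theorem allSYM : RowSYM := rowSYM allINT allBD allOPS allCU allPER

theorem allAUT : RowAUT := rowAUT allBAS allOM allLOC allCU

theorem allFORM : RowFORM := rowFORM allBAS allSA allCU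

theorem allHKF : RowHKF := rowHKF allBAS allSA allHK allCU

theorem allQE : RowQE := rowQE allBAS allOM allCU

theorem allCUF : RowCUF := rowCUF allCU

theorem allMELC : RowMELC := rowMELC allGAUSS allCU

theorem allELL : RowELL := rowELL allBAS allOPS allIND0 allCH

theorem allXIP : RowXIP := rowXIP allBAS allMOB allOM allDREC allDTR

theorem allA0 : RowA0 := rowA0 allBAS allBN allN2 allOM

theorem allGENM : RowGENM := rowGENM allBAS allMOB allIND0 allCH allEXT allDREC allDSUM allXIM allA0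

theorem allGENP : RowGENP :=
  rowGENP allBAS allMOB allIND0 allCH allEXT allOM allDREC allDSUM allXIP
    allA0

theorem allSOC : RowSOC :=
  rowSOC allOPS allELL allMOB allCH allCHT allN2 allRT allXT allYT
    allPAR allNEC allRED allGK allA0 allGENM allGENP

theorem allTHMP : RowTHMP := rowTHMP allBAS allOPS allELL allLIFTJ

theorem allTHMB : RowTHMB := rowTHMB allOPS allBD allBND allTHMP allRECT

theorem allTHMA : RowTHMA := rowTHMA allOPS allELL allBD allTHMB allCU allINJA allINJ1 allSYM allAUT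

theorem allFOUR : RowFOUR :=
  rowFOUR allBAS allLOC allTREE allSOC allCU allAUT allFORM allHKF allQE
    allCUF allMELC allTHMA

end Pool.Agent.MP_5f72fe_nt.MS
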