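import Pool.Agent.MP_5f72fe_nt.H25.SpecP

/-! The dimension of the space of period polynomials of level one. -/

namespace Pool.Agent.MP_5f72fe_nt.MS

open Complex Module
open scoped MatrixGroups

noncomputable section

namespace ESDA

abbrev F := V → ℂ

def X : F := fun x => (x.1 : ℂ)

def Y : F := fun x => (x.2 : ℂ)

def mono (k i : ℕ) : F := X ^ i * Y ^ (k - i)

def M (k : ℕ) : Submodule ℂ F := Submodule.span ℂ (Set.range fun i : Fin (k + 1) => mono k i)

lemma mono_mem {k i : ℕ} (h : i ≤ k) : mono k i ∈ M k :=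
  Submodule.subset_span ⟨⟨i, Nat.lt_succ_of_le h⟩, rfl⟩

lemma M_mul {k l : ℕ} {P Q : F} (hP : P ∈ M k) (hQ : Q ∈ M l) : P * Q ∈ M (k + l) := by
  have h : M k * M l ≤ M (k + l) := by
    unfold M
    rw [Submodule.span_mul_span, Submodule.span_le]
    rintro _ ⟨_, ⟨i, rfl⟩, _, ⟨j, rfl⟩, rfl⟩
    have hi := Nat.le_of_lt_succ i.2
    have hj := Nat.le_of_lt_succ j.2
    have e : mono k i * mono l j = mono (k + l) (i + j) := by
      unfold mono
      rw [show k + l - (i + j) = (k - i) + (l - j) by omega]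
      ring
    show mono k i * mono l j ∈ M (k + l)
    rw [e]
    exact mono_mem (by omega)
  exact h (Submodule.mul_mem_mul hP hQ)

lemma M_pow {P : F} (hP : P ∈ M 1) (k : ℕ) : P ^ k ∈ M k := by
  induction k with
  | zero =>
    have : mono 0 0 ∈ M 0 := mono_mem le_rfl
    simpa [mono] using this
  | succ k ih => rw [pow_succ]; exact M_mul ih hP

lemma lin_mem (a b : ℂ) : a • X + b • Y ∈ M 1 := by
  have h1 : mono 1 1 ∈ M 1 := mono_mem le_rfl
  have h0 : mono 1 0 ∈ M 1 := mono_mem zero_le_one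
  simp only [mono, pow_one, Nat.sub_self, pow_zero, mul_one, Nat.sub_zero, one_mul] at h1 h0
  exact add_mem (Submodule.smul_mem _ _ h1) (Submodule.smul_mem _ _ h0)

lemma prod_mem {P Q : F} (hP : P ∈ M 1) (hQ : Q ∈ M 1) {k i : ℕ} (h : i ≤ k) :
    P ^ i * Q ^ (k - i) ∈ M k := by
  have := M_mul (M_pow hP i) (M_pow hQ (k - i))
  rwa [show i + (k - i) = k by omega] at this

instance (k : ℕ) : FiniteDimensional ℂ (M k) :=
  FiniteDimensional.span_of_finite ℂ (Set.finite_range _)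

lemma M_rank (k : ℕ) : finrank ℂ (M k) ≤ k + 1 := by
  have h := finrank_range_le_card (R := ℂ) (fun i : Fin (k + 1) => mono k i)
  rw [Fintype.card_fin] at h
  exact h

/-- substitution -/
def pl (g : Mt) : F →ₐ[ℂ] F where
  toFun P := fun x => P (ap g x)
  map_one' := rfl
  map_mul' _ _ := rfl
  map_zero' := rfl
  map_add' _ _ := rfl
  commutes' _ := rfl

lemma pl_apply (g : Mt) (P : F) (x : V) : pl g P x = P (ap g x) := rfl

lemma pl_X (g : Mt) : pl g X = (g.1 : ℂ) • X + (g.2.1 : ℂ) • Y := by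
  funext x
  simp [pl_apply, X, Y, ap]

lemma pl_Y (g : Mt) : pl g Y = (g.2.2.1 : ℂ) • X + (g.2.2.2 : ℂ) • Y := by
  funext x
  simp [pl_apply, X, Y, ap]

lemma pl_mem (g : Mt) {k : ℕ} {P : F} (hP : P ∈ M k) : pl g P ∈ M k := by
  have h : M k ≤ (M k).comap (pl g).toLinearMap := by
    apply Submodule.span_le.2
    rintro _ ⟨i, rfl⟩
    show pl g (mono k i) ∈ M k
    rw [mono, map_mul, map_pow, map_pow, pl_X, pl_Y]
    exact prod_mem (lin_mem _ _) (lin_mem _ _) (Nat.le_of_lt_succ i.2)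
  exact h hP

def mZ : Mt := (0, -1, 1, -1)

lemma ss {m : ℕ} {P : F} (hP : P ∈ M (2 * m)) : pl mS (pl mS P) = P := by
  have h : M (2 * m) ≤ LinearMap.eqLocus ((pl mS).toLinearMap ∘ₗ (pl mS).toLinearMap) LinearMap.id := by
    apply Submodule.span_le.2
    rintro _ ⟨i, rfl⟩
    show pl mS (pl mS (mono (2 * m) i)) = mono (2 * m) i
    have hi := Nat.le_of_lt_succ i.2
    have hX : pl mS (pl mS X) = -X := by
      funext x
      simp [pl_apply, X, ap, mS]
    have hY : pl mS (pl mS Y) = -Y := by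
      funext x
      simp [pl_apply, Y, ap, mS]
    rw [mono, map_mul, map_pow, map_pow, map_mul, map_pow, map_pow, hX, hY, neg_pow X, neg_pow Y]
    have e : ((-1 : F) ^ (i : ℕ)) * (-1) ^ (2 * m - i) = 1 := by
      rw [← pow_add, show (i : ℕ) + (2 * m - i) = 2 * m by omega, pow_mul]
      simp
    linear_combination (X ^ (i : ℕ) * Y ^ (2 * m - i)) * e
  exact h hP

lemma zzz (P : F) : pl mZ (pl mZ (pl mZ P)) = P := by
  funext x
  simp only [pl_apply]
  congr 1
  apply Prod.ext <;> simp [ap, mZ]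

lemma ts (P : F) : pl (adj mT) (pl mS P) = pl mZ P := by
  funext x
  simp only [pl_apply]
  congr 1
  apply Prod.ext <;> simp [ap, mZ, mS, mT, adj]

def A (m : ℕ) : Submodule ℂ F := M (2 * m) ⊓ LinearMap.ker (LinearMap.id + (pl mS).toLinearMap)

def B (m : ℕ) : Submodule ℂ F := M (2 * m) ⊓
  LinearMap.ker (LinearMap.id + (pl mZ).toLinearMap + (pl mZ).toLinearMap ∘ₗ (pl mZ).toLinearMap)

lemma mem_A {m : ℕ} {P : F} : P ∈ A m ↔ P ∈ M (2 * m) ∧ P + pl mS P = 0 := Iff.rfl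

lemma mem_B {m : ℕ} {P : F} :
    P ∈ B m ↔ P ∈ M (2 * m) ∧ P + pl mZ P + pl mZ (pl mZ P) = 0 := Iff.rfl

lemma subS {m : ℕ} {P : F} (hP : P ∈ M (2 * m)) : P - pl mS P ∈ A m := by
  refine mem_A.2 ⟨sub_mem hP (pl_mem _ hP), ?_⟩
  rw [map_sub, ss hP]
  ring

lemma subZ {m : ℕ} {P : F} (hP : P ∈ M (2 * m)) : P - pl mZ P ∈ B m := by
  refine mem_B.2 ⟨sub_mem hP (pl_mem _ hP), ?_⟩
  rw [map_sub, map_sub, zzz]
  ring

lemma subT {m : ℕ} {P : F} (hP : P ∈ M (2 * m)) : P - pl (adj mT) P ∈ A m ⊔ B m := by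
  have hQ := pl_mem mS hP
  have e : P - pl (adj mT) P = (pl mS P - pl mZ (pl mS P)) - (pl mS P - pl mS (pl mS P)) := by
    rw [← ts (pl mS P), ss hP]
    ring
  rw [e]
  exact sub_mem (Submodule.mem_sup_right (subZ hQ)) (Submodule.mem_sup_left (subS hQ))

lemma low {m : ℕ} (i : ℕ) (hi : i < 2 * m) : mono (2 * m) i ∈ A m ⊔ B m := by
  induction i using Nat.strong_induction_on with
  | _ i ih =>
    have h := subT (m := m) (mono_mem (k := 2 * m) (i := i + 1) hi)
    have hX : pl (adj mT) X = X + -Y := by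
      funext x
      simp [pl_apply, X, Y, ap, mT, adj]
    have hY : pl (adj mT) Y = Y := by
      funext x
      simp [pl_apply, Y, ap, mT, adj]
    have hj : ∀ j, j ≤ i + 1 → X ^ j * (-Y) ^ (i + 1 - j) * ((i + 1).choose j : F) * Y ^ (2 * m - (i + 1)) =
        (((-1) ^ (i + 1 - j) * (i + 1).choose j : ℂ)) • mono (2 * m) j := by
      intro j hj
      funext x
      simp only [mono, Pi.mul_apply, Pi.pow_apply, Pi.neg_apply, Pi.smul_apply, smul_eq_mul,
        Pi.natCast_apply]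
      rw [show 2 * m - j = (i + 1 - j) + (2 * m - (i + 1)) by omega, neg_pow (Y x)]
      ring
    have e : pl (adj mT) (mono (2 * m) (i + 1)) = ∑ j ∈ Finset.range (i + 1 + 1),
        (((-1) ^ (i + 1 - j) * (i + 1).choose j : ℂ)) • mono (2 * m) j := by
      rw [mono, map_mul, map_pow, map_pow, hX, hY, add_pow, Finset.sum_mul]
      exact Finset.sum_congr rfl fun j hj' => hj j (Nat.le_of_lt_succ (Finset.mem_range.1 hj'))
    rw [e, Finset.sum_range_succ, Finset.sum_range_succ] at h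
    have hs : ∑ j ∈ Finset.range i, (((-1) ^ (i + 1 - j) * (i + 1).choose j : ℂ)) • mono (2 * m) j ∈
        A m ⊔ B m :=
      Submodule.sum_mem _ fun j hj' => Submodule.smul_mem _ _
        (ih j (Finset.mem_range.1 hj') (lt_trans (Finset.mem_range.1 hj') hi))
    have h2 := add_mem h hs
    have hne : ((i : ℂ) + 1) ≠ 0 := by exact_mod_cast Nat.succ_ne_zero i
    have h3 : ((i : ℂ) + 1) • mono (2 * m) i ∈ A m ⊔ B m := by
      convert h2 using 1
      simp only [Nat.add_sub_cancel_left, Nat.sub_self, Nat.choose_self, Nat.choose_succ_self_right]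
      push_cast
      module
    exact (Submodule.smul_mem_iff _ hne).1 h3

lemma sup_eq {m : ℕ} (hm : 1 ≤ m) : A m ⊔ B m = M (2 * m) := by
  apply le_antisymm (sup_le inf_le_left inf_le_left)
  apply Submodule.span_le.2
  rintro _ ⟨i, rfl⟩
  show mono (2 * m) i ∈ A m ⊔ B m
  rcases (Nat.le_of_lt_succ i.2).lt_or_eq with h | h
  · exact low i h
  · rw [h]
    have h1 := subS (m := m) (mono_mem (k := 2 * m) (i := 2 * m) le_rfl)
    have h0 := low (m := m) 0 (by omega)
    have hX : pl mS X = -Y := by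
      funext x
      simp [pl_apply, X, Y, ap, mS]
    have e : pl mS (mono (2 * m) (2 * m)) = mono (2 * m) 0 := by
      simp [mono, hX]
    rw [e] at h1
    simpa using add_mem (Submodule.mem_sup_left h1) h0

/-- the products of two linear forms -/
def pq (α β : ℂ) (k j : ℕ) : F := (X - α • Y) ^ j * (X - β • Y) ^ (k - j)

lemma pq_mem (α β : ℂ) {k j : ℕ} (h : j ≤ k) : pq α β k j ∈ M k := by
  have h1 : ∀ a : ℂ, X - a • Y ∈ M 1 := fun a => by
    simpa [sub_eq_add_neg] using lin_mem 1 (-a)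
  exact prod_mem (h1 α) (h1 β) h

lemma pq_ind {α β : ℂ} (hne : α ≠ β) (hβ : ∀ t : ℕ, (t : ℂ) ≠ β) (k : ℕ) :
    LinearIndependent ℂ fun j : Fin (k + 1) => pq α β k j := by
  rw [Fintype.linearIndependent_iff]
  intro c hc
  have hq : ∀ t : ℕ, (t : ℂ) - β ≠ 0 := fun t => sub_ne_zero.2 (hβ t)
  have hinj : Function.Injective fun t : Fin (k + 1) => (((t : ℕ) : ℂ) - α) / (((t : ℕ) : ℂ) - β) := by
    intro s t hst
    simp only at hst
    rw [div_eq_div_iff (hq s) (hq t)] at hst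
    have : (((s : ℕ) : ℂ) - ((t : ℕ) : ℂ)) * (α - β) = 0 := by linear_combination hst
    rcases mul_eq_zero.1 this with h | h
    · exact Fin.ext (by exact_mod_cast sub_eq_zero.1 h)
    · exact absurd (sub_eq_zero.1 h) hne
  have hz := Matrix.eq_zero_of_forall_index_sum_mul_pow_eq_zero (v := c) hinj (fun t => by
    have h := congrFun hc (((t : ℕ) : ℚ), 1)
    simp only [Finset.sum_apply, Pi.smul_apply, smul_eq_mul, Pi.zero_apply, pq, Pi.mul_apply,
      Pi.pow_apply, Pi.sub_apply, X, Y, Rat.cast_natCast, Rat.cast_one, mul_one] at h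
    apply mul_right_cancel₀ (pow_ne_zero k (hq t))
    rw [zero_mul, Finset.sum_mul, ← h]
    refine Finset.sum_congr rfl fun j _ => ?_
    have hj := Nat.le_of_lt_succ j.2
    have e : (((t : ℕ) : ℂ) - β) ^ k = (((t : ℕ) : ℂ) - β) ^ (j : ℕ) * (((t : ℕ) : ℂ) - β) ^ (k - j) := by
      rw [← pow_add, show (j : ℕ) + (k - j) = k by omega]
    have := hq t
    rw [e, div_pow]
    field_simp)
  exact fun j => congrFun hz j

lemma pq_eig (g : Mt) {α β l l' : ℂ} (h1 : pl g (X - α • Y) = l • (X - α • Y))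
    (h2 : pl g (X - β • Y) = l' • (X - β • Y)) (k j : ℕ) :
    pl g (pq α β k j) = (l ^ j * l' ^ (k - j)) • pq α β k j := by
  rw [pq, map_mul, map_pow, map_pow, h1, h2, smul_pow, smul_pow, smul_mul_smul_comm]

lemma bound {k c : ℕ} (g : Mt) (C : Submodule ℂ F) (hC : C ≤ M k) (v : Fin c → F)
    (hv : LinearIndependent ℂ v) (hm : ∀ j, v j ∈ M k) (hf : ∀ j, pl g (v j) = v j)
    (h0 : ∀ P ∈ C, pl g P = P → P = 0) : finrank ℂ C + c ≤ finrank ℂ (M k) := by
  set D := Submodule.span ℂ (Set.range v) with hD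
  have hDM : D ≤ M k := Submodule.span_le.2 (by rintro _ ⟨j, rfl⟩; exact hm j)
  have hDf : D ≤ LinearMap.eqLocus (pl g).toLinearMap LinearMap.id :=
    Submodule.span_le.2 (by rintro _ ⟨j, rfl⟩; exact hf j)
  have : FiniteDimensional ℂ C := Submodule.finiteDimensional_of_le hC
  have : FiniteDimensional ℂ D := Submodule.finiteDimensional_of_le hDM
  have hb : C ⊓ D = ⊥ := by
    rw [eq_bot_iff]
    intro P hP
    exact h0 P hP.1 (hDf hP.2)
  have h1 := Submodule.finrank_sup_add_finrank_inf_eq C D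
  have h2 : finrank ℂ D = c := by simpa using finrank_span_eq_card hv
  have h3 : finrank ℂ (C ⊔ D : Submodule ℂ F) ≤ finrank ℂ (M k) :=
    Submodule.finrank_mono (sup_le hC hDM)
  rw [hb, finrank_bot] at h1
  omega

lemma sub_ind {α β : ℂ} (hne : α ≠ β) (hβ : ∀ t : ℕ, (t : ℂ) ≠ β) {k c a N : ℕ} (hN : 0 < N)
    (h : ∀ j : Fin c, a + N * j ≤ k) :
    LinearIndependent ℂ fun j : Fin c => pq α β k (a + N * j) := by
  refine (pq_ind hne hβ k).comp (fun j : Fin c => ⟨a + N * j, Nat.lt_succ_of_le (h j)⟩) ?_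
  intro s t hst
  have := congrArg Fin.val hst
  simp only at this
  exact Fin.ext (Nat.eq_of_mul_eq_mul_left hN (by omega))

lemma boundA (m : ℕ) : finrank ℂ (A m) + (m + 1 - m % 2) ≤ finrank ℂ (M (2 * m)) := by
  have hle : ∀ j : Fin (m + 1 - m % 2), m % 2 + 2 * j ≤ 2 * m := fun j => by
    have := j.2
    omega
  have hne : (-I : ℂ) ≠ I := by
    intro h
    have := congrArg Complex.im h
    norm_num at this
  have hβ : ∀ t : ℕ, (t : ℂ) ≠ I := by
    intro t h
    have := congrArg Complex.im h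
    simp at this
  refine bound mS (A m) inf_le_left _ (sub_ind hne hβ (by norm_num) hle)
    (fun j => pq_mem _ _ (hle j)) (fun j => ?_) (fun P hP h => ?_)
  · have h1 : pl mS (X - (-I) • Y) = I • (X - (-I) • Y) := by
      funext x
      simp [pl_apply, X, Y, ap, mS]
      linear_combination (-(x.2 : ℂ)) * I_mul_I
    have h2 : pl mS (X - I • Y) = (I ^ 3) • (X - I • Y) := by
      funext x
      simp [pl_apply, X, Y, ap, mS]
      linear_combination (-(x.2 : ℂ)) * I_mul_I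
    rw [pq_eig mS h1 h2, ← pow_mul, ← pow_add]
    have := hle j
    obtain ⟨e, he⟩ : ∃ e, m % 2 + 2 * j + 3 * (2 * m - (m % 2 + 2 * j)) = 4 * e :=
      ⟨(m % 2 + 2 * j + 3 * (2 * m - (m % 2 + 2 * j))) / 4, by omega⟩
    rw [he, pow_mul, I_pow_four, one_pow, one_smul]
  · have := (mem_A.1 hP).2
    rw [h, ← two_smul ℂ] at this
    exact (smul_eq_zero.1 this).resolve_left two_ne_zero

lemma boundB (m : ℕ) : finrank ℂ (B m) + (1 + 2 * (m / 3)) ≤ finrank ℂ (M (2 * m)) := by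
  have hle : ∀ j : Fin (1 + 2 * (m / 3)), m % 3 + 3 * j ≤ 2 * m := fun j => by
    have := j.2
    omega
  obtain ⟨r, hr⟩ := IsAlgClosed.exists_pow_nat_eq (-3 : ℂ) (n := 2) (by norm_num)
  obtain ⟨α, hα⟩ : ∃ α : ℂ, α ^ 2 - α + 1 = 0 := ⟨(1 + r) / 2, by linear_combination hr / 4⟩
  have hne : α ≠ 1 - α := by
    intro h
    have : (3 : ℂ) = 0 := by linear_combination 4 * hα - (2 * α - 1) * h
    norm_num at this
  have hβ : ∀ t : ℕ, (t : ℂ) ≠ 1 - α := by
    intro t h
    have h1 : (t : ℂ) ^ 2 - t + 1 = 0 := by rw [h]; linear_combination hα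
    have h2 : (t : ℝ) ^ 2 - t + 1 = 0 := by exact_mod_cast h1
    nlinarith [sq_nonneg ((t : ℝ) - 1 / 2)]
  refine bound mZ (B m) inf_le_left _ (sub_ind hne hβ (by norm_num) hle)
    (fun j => pq_mem _ _ (hle j)) (fun j => ?_) (fun P hP h => ?_)
  · have h1 : pl mZ (X - α • Y) = (-α) • (X - α • Y) := by
      funext x
      simp [pl_apply, X, Y, ap, mZ]
      linear_combination (-(x.2 : ℂ)) * hα
    have h2 : pl mZ (X - (1 - α) • Y) = ((-α) ^ 2) • (X - (1 - α) • Y) := by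
      funext x
      simp [pl_apply, X, Y, ap, mZ]
      linear_combination (-(x.1 : ℂ) - α * (x.2 : ℂ)) * hα
    have h3 : (-α) ^ 3 = 1 := by linear_combination (-(α + 1)) * hα
    rw [pq_eig mZ h1 h2, ← pow_mul, ← pow_add]
    have := hle j
    obtain ⟨e, he⟩ : ∃ e, m % 3 + 3 * j + 2 * (2 * m - (m % 3 + 3 * j)) = 3 * e :=
      ⟨(m % 3 + 3 * j + 2 * (2 * m - (m % 3 + 3 * j))) / 3, by omega⟩
    rw [he, pow_mul, h3, one_pow, one_smul]
  · have := (mem_B.1 hP).2
    rw [h, h] at this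
    have h3 : (3 : ℂ) • P = 0 := by rw [← this]; module
    exact (smul_eq_zero.1 h3).resolve_left three_ne_zero

lemma mem_AB {m : ℕ} {P : F} (h1 : Hp (2 * m) P) (h2 : WR P) : P ∈ A m ⊓ B m := by
  have hM : P ∈ M (2 * m) := by
    obtain ⟨β, hβ⟩ := h1
    have e : P = ∑ i ∈ Finset.range (2 * m + 1), β i • mono (2 * m) i := by
      funext x
      rw [hβ x, Finset.sum_apply]
      refine Finset.sum_congr rfl fun i _ => ?_
      simp [mono, X, Y, Rat.smul_def, mul_comm]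
    rw [e]
    exact Submodule.sum_mem _ fun i hi =>
      Submodule.smul_mem _ _ (mono_mem (Nat.le_of_lt_succ (Finset.mem_range.1 hi)))
  refine ⟨mem_A.2 ⟨hM, funext h2.1⟩, mem_B.2 ⟨hM, funext fun x => ?_⟩⟩
  have a1 := h2.1 (ap (adj mT) x)
  have a2 := h2.1 (ap mZ (ap mZ x))
  have a3 := h2.2 x
  have b1 : ap mS (ap (adj mT) x) = ap mZ x := by
    apply Prod.ext <;> simp [ap, mZ, mS, mT, adj]
  have b2 : ap mS (ap mZ (ap mZ x)) = ap (adj mU) x := by
    apply Prod.ext <;> simp [ap, mZ, mS, mU, adj, add_comm]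
  rw [b1] at a1
  rw [b2] at a2
  show P x + P (ap mZ x) + P (ap mZ (ap mZ x)) = 0
  linear_combination a1 + a2 + a3

lemma rank_tr (k : ℤ) (Γ : Subgroup (GL (Fin 2) ℝ)) [Γ.HasDetOne] (h : Γ = 𝒮ℒ) :
    Module.rank ℂ (CuspForm Γ k) = Module.rank ℂ (CuspForm 𝒮ℒ k) := by
  subst h
  rfl

lemma dimC (m : ℕ) (hm : 1 ≤ m) : ∃ d : ℕ, Module.rank ℂ (C1 (m + 1)) = d ∧
    1 + d = if (2 * (m + 1)) % 12 = 2 then 2 * (m + 1) / 12 else 2 * (m + 1) / 12 + 1 := by
  have ht : CongruenceSubgroup.Gamma0 (3 ^ 0) = ⊤ := by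
    ext g
    simp only [CongruenceSubgroup.Gamma0_mem, Subgroup.mem_top, iff_true]
    exact Subsingleton.elim (α := ZMod 1) _ _
  have h : (↑(CongruenceSubgroup.Gamma0 (3 ^ 0)) : Subgroup (GL (Fin 2) ℝ)) = 𝒮ℒ := by
    rw [ht, MonoidHom.range_eq_map]
  have h1 := rank_tr ((2 * (m + 1) : ℕ) : ℤ) _ h
  have he : Even (2 * (m + 1)) := even_two_mul _
  have h2 := ModularForm.rank_eq_one_add_rank_cuspForm (k := 2 * (m + 1)) (by omega) he
  have h3 := ModularForm.dimension_level_one (2 * (m + 1)) he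
  have h4 : 1 + Module.rank ℂ (C1 (m + 1)) = ((if (2 * (m + 1)) % 12 = 2 then 2 * (m + 1) / 12
      else 2 * (m + 1) / 12 + 1 : ℕ) : Cardinal) := by
    rw [h1, ← h2, h3]
    rfl
  have h5 : Module.rank ℂ (C1 (m + 1)) < Cardinal.aleph0 :=
    lt_of_le_of_lt (le_add_self.trans h4.le) (Cardinal.natCast_lt_aleph0)
  obtain ⟨d, hd⟩ := Cardinal.lt_aleph0.1 h5
  refine ⟨d, hd, ?_⟩
  rw [hd] at h4
  exact_mod_cast h4

end ESDA

open ESDA in
theorem rowESD : RowESD := by
  intro m hm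
  obtain ⟨d, hd, hd'⟩ := dimC m hm
  refine ⟨Module.finite_of_rank_eq_nat hd, fun n P hP hW => ?_⟩
  have hf : finrank ℂ (C1 (m + 1)) = d := finrank_eq_of_rank_eq hd
  have : FiniteDimensional ℂ (A m) := Submodule.finiteDimensional_of_le (inf_le_left : A m ≤ _)
  have : FiniteDimensional ℂ (B m) := Submodule.finiteDimensional_of_le (inf_le_left : B m ≤ _)
  have h1 := Submodule.finrank_sup_add_finrank_inf_eq (A m) (B m)
  rw [sup_eq hm] at h1
  have h2 : finrank ℂ (Submodule.span ℂ (Set.range P)) = n := by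
    simpa using finrank_span_eq_card hP
  have h3 : finrank ℂ (Submodule.span ℂ (Set.range P)) ≤ finrank ℂ (A m ⊓ B m : Submodule ℂ F) :=
    Submodule.finrank_mono (Submodule.span_le.2 (by
      rintro _ ⟨i, rfl⟩
      exact mem_AB (hW i).1 (hW i).2))
  have h4 := boundA m
  have h5 := boundB m
  have h6 := M_rank (2 * m)
  rw [hf]
  split_ifs at hd' <;> omega

end

end Pool.Agent.MP_5f72fe_nt.MS
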