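import Pool.Agent.MP_5f72fe_nt.H25.SpecP

/-! One path generates for the group of level three. -/

namespace Pool.Agent.MP_5f72fe_nt.MS

namespace IND3A

variable {A : Type} [AddCommGroup A] {f : V → V → A}

theorem ne1 {p q r s : ℤ} (h : p * s - q * r = 1) : (((p : ℚ), (r : ℚ)) : V) ≠ 0 := by
  intro h0
  have h1 : p = 0 := by simpa using congrArg Prod.fst h0
  have h2 : r = 0 := by simpa using congrArg Prod.snd h0
  subst h1 h2
  simp at h

theorem ne2 {p q r s : ℤ} (h : p * s - q * r = 1) : (((q : ℚ), (s : ℚ)) : V) ≠ 0 := by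
  intro h0
  have h1 : q = 0 := by simpa using congrArg Prod.fst h0
  have h2 : s = 0 := by simpa using congrArg Prod.snd h0
  subst h1 h2
  simp at h

theorem anti (hf : Ad f) {c c' : V} (h : c ≠ 0) (h' : c' ≠ 0) : f c c' = -f c' c := by
  have h1 := hf.add c c' c h h' h
  have h2 := hf.hom c 1 h one_ne_zero
  rw [one_smul] at h2
  rw [h2] at h1
  exact eq_neg_of_add_eq_zero_left h1

theorem sgn (hf : Ad f) {c c' : V} (h : c ≠ 0) (h' : c' ≠ 0) : f c (-c') = f c c' := by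
  have h1 := hf.add c c' (-c') h h' (neg_ne_zero.2 h')
  have h2 := hf.hom c' (-1) h' (by norm_num)
  rw [neg_one_smul] at h2
  rw [h2, add_zero] at h1
  exact h1.symm

theorem col (p q r s : ℤ) :
    ap (p, q, r, s) e1 = ((p : ℚ), (r : ℚ)) ∧ ap (p, q, r, s) e2 = ((q : ℚ), (s : ℚ)) := by
  constructor <;> simp [ap, e1, e2]

end IND3A

open IND3A in
theorem rowIND3 : OfIND3 := by
  intro hI A _ f P hf H
  have H1 : ∀ p q r s : ℤ, p * s - q * r = 1 → 3 ∣ r →
      f ((p : ℚ), (r : ℚ)) ((q : ℚ), (s : ℚ)) ∈ P := by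
    intro p q r s h h3
    have := H (p, q, r, s) h h3
    rwa [(col p q r s).1, (col p q r s).2] at this
  have H2 : ∀ p q r s : ℤ, p * s - q * r = -1 → 3 ∣ r →
      f ((p : ℚ), (r : ℚ)) ((q : ℚ), (s : ℚ)) ∈ P := by
    intro p q r s h h3
    have h' : p * (-s) - (-q) * r = 1 := by linarith
    have h1 := H1 p (-q) r (-s) h' h3
    have h2 := sgn hf (ne1 h') (ne2 h')
    have e : -((((-q : ℤ) : ℚ), ((-s : ℤ) : ℚ)) : V) = ((q : ℚ), (s : ℚ)) := by
      simp
    rw [e] at h2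
    rw [h2]
    exact h1
  refine hI A f P hf ?_
  rintro ⟨p, q, r, s⟩ h
  have h : p * s - q * r = 1 := h
  rw [(col p q r s).1, (col p q r s).2]
  have hv := ne1 h
  have hw := ne2 h
  have hc : 3 ∣ r ∨ 3 ∣ s ∨ 3 ∣ r - s ∨ 3 ∣ r + s := by
    have h1 : r % 3 = 0 ∨ r % 3 = 1 ∨ r % 3 = 2 := by omega
    have h2 : s % 3 = 0 ∨ s % 3 = 1 ∨ s % 3 = 2 := by omega
    rcases h1 with h1 | h1 | h1 <;> rcases h2 with h2 | h2 | h2 <;> omega
  rcases hc with h3 | h3 | h3 | h3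
  · exact H1 p q r s h h3
  · rw [anti hf hv hw]
    exact P.neg_mem (H2 q p s r (by linarith) h3)
  · have a1 : (p - q) * s - q * (r - s) = 1 := by linarith
    have a2 : (p - q) * r - p * (r - s) = 1 := by linarith
    have hu := ne1 a1
    rw [← hf.add _ _ _ hv hu hw, anti hf hv hu]
    exact P.add_mem (P.neg_mem (H1 _ _ _ _ a2 h3)) (H1 _ _ _ _ a1 h3)
  · have a1 : (p + q) * s - q * (r + s) = 1 := by linarith
    have a2 : (p + q) * r - p * (r + s) = -1 := by linarith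
    have hu := ne1 a1
    rw [← hf.add _ _ _ hv hu hw, anti hf hv hu]
    exact P.add_mem (P.neg_mem (H2 _ _ _ _ a2 h3)) (H1 _ _ _ _ a1 h3)

end Pool.Agent.MP_5f72fe_nt.MS
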