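import Pool.Agent.MP_5f72fe_nt.H25.SpecP
import Pool.Agent.MP_5f72fe_nt.MS.INJA

/-! Injectivity of the period map modulo the boundary. -/

namespace Pool.Agent.MP_5f72fe_nt.MS

open Complex MeasureTheory Set Filter Topology
open scoped Real

noncomputable section

namespace INJCA

open INJAA

theorem ex_zero (W : ℝ) (z : ℂ) : ex W 0 z = 1 := by simp [ex]

theorem const_zero {p : ℕ} {W C C' : ℝ} {g g' : ℂ → ℂ} (G : Gd p W C g) (G' : Gd p W C' g')
    (hW : 0 < W) (η κ : ℂ) (hq : ∀ q : ℚ, A p g q + η * A p g' (-q) = κ) : κ = 0 := by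
  have hu : ∀ u : ℝ, A p g u + η * A p g' (-u) = κ := fun u =>
    Rat.denseRange_cast.induction_on u (isClosed_eq ((A_cont G).add
      (continuous_const.mul ((A_cont G').comp continuous_neg))) continuous_const) hq
  have f1 := fub G hW 0 0
  have f2 := fub G' hW (-W) 0
  rw [ga_neg G hW 0 0 le_rfl 1 one_pos, zero_mul, zero_add] at f1
  rw [ga_neg G' hW (-W) 0 le_rfl 1 one_pos, zero_mul, neg_add_cancel] at f2
  simp only [ex_zero, mul_one] at f1 f2
  have f3 := intervalIntegral.integral_comp_neg (a := 0) (b := W) (fun u : ℝ => A p g' u)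
  rw [neg_zero, f2] at f3
  have f4 : ∫ u in (0 : ℝ)..W, (A p g u + η * A p g' (-u)) = 0 := by
    have c2 : Continuous fun u : ℝ => η * A p g' (-u) :=
      continuous_const.mul ((A_cont G').comp continuous_neg)
    rw [intervalIntegral.integral_add ((A_cont G).intervalIntegrable _ _)
      (c2.intervalIntegrable _ _),
      intervalIntegral.integral_const_mul, f1, f3, mul_zero, add_zero]
  simp only [hu, intervalIntegral.integral_const, sub_zero, smul_eq_zero] at f4
  exact f4.resolve_left hW.ne'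

end INJCA

open INJAA INJCA in
theorem rowINJC : OfINJC := by
  intro _ k h h' η κ hk H H' ⟨e, he⟩ ⟨e', he'⟩ hP
  obtain ⟨m, rfl⟩ : ∃ m, k = m + 2 := ⟨k - 2, by omega⟩
  obtain ⟨C, G⟩ := gd m (e + e') h H (he _ (by simp [det]) (by simp)
    (pow_dvd_pow _ (Nat.le_add_right _ _)) (by simp) (by simp))
  obtain ⟨C', G'⟩ := gd m (e + e') h' H' (he' _ (by simp [det]) (by simp)
    (pow_dvd_pow _ (Nat.le_add_left _ _)) (by simp) (by simp))
  have n0 : -I * (-1 : ℂ) ^ (m + 1) ≠ 0 :=
    mul_ne_zero (neg_ne_zero.2 I_ne_zero) (pow_ne_zero _ (neg_ne_zero.2 one_ne_zero))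
  have hq : ∀ q : ℚ, A (2 * (m + 1)) h q + η * A (2 * (m + 1)) h' (-q) =
      κ / (-I * (-1 : ℂ) ^ (m + 1)) := fun q => by
    have := hP q
    rw [e1, per_eq, per_eq, Rat.cast_neg] at this
    rw [eq_div_iff n0]
    linear_combination this
  have h0 := const_zero G G' (by positivity) η _ hq
  refine ⟨?_, (div_eq_zero_iff.1 h0).resolve_right n0⟩
  funext z
  rcases le_or_gt z.im 0 with hz | hz
  · exact H.zero z hz
  exact main G G' (by positivity) η (fun q => (hq q).trans h0) z hz

end

end Pool.Agent.MP_5f72fe_nt.MS
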