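import Pool.Agent.MP_5f72fe_nt.H25.SpecP

/-! Level three, odd `k`. -/

namespace Pool.Agent.MP_5f72fe_nt.MS

open Complex
open scoped Real UpperHalfPlane MatrixGroups

noncomputable section

namespace LEV3A

theorem coef (n : ℕ) (c : ℕ → ℂ)
    (H : ∀ q : ℚ, ∑ i ∈ Finset.range n, (q : ℂ) ^ i * c i = 0) : ∀ i, i < n → c i = 0 := by
  intro i hi
  set p : Polynomial ℂ := ∑ j ∈ Finset.range n, Polynomial.monomial j (c j) with hp
  have h0 : p = 0 := by
    apply Polynomial.eq_zero_of_infinite_isRoot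
    refine Set.Infinite.mono ?_ (Set.infinite_range_of_injective (f := fun q : ℚ => (q : ℂ))
      Rat.cast_injective)
    rintro _ ⟨q, rfl⟩
    simp only [Set.mem_ofPred_eq, Polynomial.IsRoot, hp, Polynomial.eval_finsetSum,
      Polynomial.eval_monomial]
    rw [← H q]
    exact Finset.sum_congr rfl fun j _ => mul_comm _ _
  have h1 : p.coeff i = c i := by
    simp only [hp, Polynomial.finsetSum_coeff, Polynomial.coeff_monomial]
    rw [Finset.sum_eq_single i]
    · simp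
    · intro j _ hj
      simp [hj]
    · intro hj
      exact absurd (Finset.mem_range.2 hi) hj
  rw [← h1, h0, Polynomial.coeff_zero]

theorem apN (x : V) : ap mN x = (-x.1, x.2) := by
  simp [ap, mN]

theorem apD (x : V) : ap mD x = (3 * x.1, x.2) := by
  simp [ap, mD]

theorem rpN (k : ℕ) (h : ℂ → ℂ) (x : V) : rp k h 1 (ap mN x) = rp k h 1 x := by
  simp only [rp, apN, neg_neg, one_mul]
  exact add_comm _ _

theorem odd0 (m : ℕ) (β : ℕ → ℂ) (H : ∀ x, Pb m β (ap mN x) = Pb m β x) :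
    ∀ i, i < 2 * m + 1 → Odd i → β i = 0 := by
  have := coef (2 * m + 1) (fun i => (1 - (-1) ^ i) * β i) (by
    intro q
    have h := H (q, 1)
    simp only [Pb, apN, one_pow, mul_one, Rat.smul_def] at h
    rw [← sub_eq_zero.2 h.symm, ← Finset.sum_sub_distrib]
    refine Finset.sum_congr rfl fun i _ => ?_
    push_cast
    rw [neg_pow (q : ℂ)]
    ring)
  intro i hi ho
  have h2 := this i hi
  simp only [ho.neg_one_pow] at h2
  have h3 : (2 : ℂ) * β i = 0 := by linear_combination h2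
  simpa using h3

theorem pdN (m : ℕ) (β : ℕ → ℂ) (H : ∀ i, i < 2 * m + 1 → Odd i → β i = 0) (x : V) :
    Pd m β (ap mN x) = Pd m β x := by
  simp only [Pd, Pb, apN]
  refine Finset.sum_congr rfl fun i hi => ?_
  rcases Nat.even_or_odd i with he | ho
  · rw [he.neg_pow]
  · rw [H i (Finset.mem_range.1 hi) ho]
    simp

theorem pdD (m : ℕ) (β : ℕ → ℂ) (H : β m = 0) (x : V) :
    Pd m β (ap mD x) = 3 ^ m * (Pb m β x + Pd m β x) := by
  simp only [Pd, Pb, apD, ← Finset.sum_add_distrib, Finset.mul_sum, Rat.smul_def]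
  refine Finset.sum_congr rfl fun i _ => ?_
  by_cases hi : i = m
  · rw [hi, H]
    simp
  · have h3 : (3 : ℂ) ^ m ≠ 0 := pow_ne_zero _ (by norm_num)
    have h4 : (3 : ℂ) ^ i / 3 ^ m - 1 ≠ 0 := by
      intro h
      have h5 : (3 : ℂ) ^ i = 3 ^ m := by
        rw [sub_eq_zero, div_eq_one_iff_eq h3] at h
        exact h
      have h6 : (3 : ℕ) ^ i = 3 ^ m := by exact_mod_cast h5
      exact hi (Nat.pow_right_injective (by norm_num) h6)
    push_cast
    have h7 : (3 : ℂ) ^ i = 3 ^ m * (((3 : ℂ) ^ i / 3 ^ m - 1) + 1) := by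
      field_simp
      ring
    generalize (3 : ℂ) ^ i / 3 ^ m - 1 = t at h4 h7
    rw [mul_pow, h7]
    field_simp

theorem rpD (PER : RowPER) (m : ℕ) (G : ℂ → ℂ) (hG : Cu (m + 1) G) (x : V) :
    rp (m + 1) G 1 (ap mD x) = 3 ^ m * rp (m + 1) (sl (m + 1) mD G) 1 x := by
  have key : ∀ y : V, Per (m + 1) G (ap mD y) (ap mD y) e1 e2 =
      3 ^ m * Per (m + 1) (sl (m + 1) mD G) y y e1 e2 := by
    intro y
    have h := PER (m + 1) mD G y y e1 e2 (by omega) (by decide) hG (by simp [e1]) (by simp [e2])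
    have h1 : ap mD e2 = e2 := by simp [apD, e2]
    have h2 : ∀ f : ℂ → ℂ, Pc f (ap mD e1) = Pc f e1 := by
      intro f
      simp [Pc, apD, e1]
    have h3 : ((det mD : ℤ) : ℂ) = 3 := by simp [det, mD]
    rw [h3, Nat.add_sub_cancel] at h
    rw [← h, h1]
    simp only [Per, h2]
  have hc : ap mN (ap mD x) = ap mD (ap mN x) := by simp [apN, apD]
  simp only [rp, one_mul, hc, key]
  ring

theorem rpLin (CU : RowCU) (k : ℕ) (h h' h'' : ℂ → ℂ) (H : Cu k h) (H' : Cu k h')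
    (H'' : Cu k h'') (x : V) :
    rp k (h - h' + h'') 1 x = rp k h 1 x - rp k h' 1 x + rp k h'' 1 x := by
  obtain ⟨M, hM⟩ := CU.sub k
  have h1 : Cu k ((-1 : ℂ) • h') := (hM _).1 (M.smul_mem _ ((hM _).2 H'))
  have h2 : Cu k (h + (-1 : ℂ) • h') := (hM _).1 (M.add_mem ((hM _).2 H) ((hM _).2 h1))
  have key : ∀ y : V, Per k (h - h' + h'') y y e1 e2 =
      Per k h y y e1 e2 - Per k h' y y e1 e2 + Per k h'' y y e1 e2 := by
    intro y
    have e : h - h' + h'' = h + (-1 : ℂ) • h' + h'' := by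
      rw [neg_one_smul, sub_eq_add_neg]
    rw [e, (CU.perLin k y y e1 e2 _ _ 0 h2 H'').1, (CU.perLin k y y e1 e2 _ _ 0 H h1).1,
      (CU.perLin k y y e1 e2 h' h' (-1) H' H').2]
    ring
  simp only [rp, key]
  ring

theorem invD (CU : RowCU) (k : ℕ) (G : ℂ → ℂ) (hG : ∀ g : Mt, det g = 1 → sl k g G = G)
    (g : Mt) (hg : det g = 1) (h3 : 3 ∣ g.2.2.1) : sl k g (sl k mD G) = sl k mD G := by
  obtain ⟨p, q, r, s⟩ := g
  obtain ⟨t, ht⟩ := h3
  simp only at ht
  subst ht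
  have hd : det (p, 3 * q, t, s) = 1 := by
    simp only [det] at hg ⊢
    linear_combination hg
  have e : mul mD (p, q, 3 * t, s) = mul (p, 3 * q, t, s) mD := by
    simp only [mul, mD, Prod.mk.injEq]
    refine ⟨by ring, by ring, by ring, by ring⟩
  rw [← CU.comp k mD _ G (by decide) (by rw [hg]; norm_num), e,
    CU.comp k _ mD G (by rw [hd]; norm_num) (by decide), hG _ hd]

theorem qeD (k : ℕ) (G : ℂ → ℂ) (b : ℕ → ℂ) (H : QE G b) :
    QE (sl k mD G) fun n => 3 ^ k * if 3 ∣ n then b (n / 3) else 0 := by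
  refine ⟨by simp [H.1], fun z hz => ?_⟩
  have h3 : 0 < (3 * z).im := by simpa using hz
  have h1 : sl k mD G z = 3 ^ k * G (3 * z) := by
    simp [sl, hz, mD, det]
  have h2 := (H.2 (3 * z) h3).mul_left ((3 : ℂ) ^ k)
  rw [h1]
  have inj : Function.Injective fun n : ℕ => 3 * n := fun a b h => by simpa using h
  rw [← inj.hasSum_iff]
  · refine (congrArg (fun f => HasSum f _) (funext fun n => ?_)).mp h2
    symm
    simp only [Function.comp, dvd_mul_right, if_true]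
    rw [Nat.mul_div_cancel_left _ (by norm_num : 0 < 3)]
    push_cast
    rw [mul_assoc]
    congr 3
    ring
  · intro n hn
    have : ¬ 3 ∣ n := by
      rintro ⟨t, rfl⟩
      exact hn ⟨t, rfl⟩
    simp [this]

theorem qeLin (h h' h'' : ℂ → ℂ) (a a' a'' : ℕ → ℂ) (H : QE h a) (H' : QE h' a')
    (H'' : QE h'' a'') : QE (h - h' + h'') (a - a' + a'') := by
  refine ⟨by simp [H.1, H'.1, H''.1], fun z hz => ?_⟩
  have := ((H.2 z hz).sub (H'.2 z hz)).add (H''.2 z hz)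
  refine (congrArg (fun f => HasSum f _) (funext fun n => ?_)).mp this
  simp only [Pi.add_apply, Pi.sub_apply]
  ring

end LEV3A

open LEV3A in
theorem rowLEV3 : OfLEV3 := by
  intro _ CU PER CUF Q BDY ES SUP m h a β hm hh hinv hq ha hrp hβ hW
  have hN : ∀ x, Pb m β (ap mN x) = Pb m β x := fun x => by rw [← hrp, ← hrp, rpN]
  obtain ⟨g, c, hg⟩ := ES m (Pd m β) hm ⟨_, fun _ => rfl⟩ hW (pdN m β (odd0 m β hN))
  obtain ⟨gc, gi, gq, -⟩ := CUF 0 (m + 1) g (by omega)
  have gi' : ∀ γ : Mt, det γ = 1 → sl (m + 1) γ (fc g) = fc g := fun γ hγ =>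
    gi γ hγ (by simp)
  set G := fc g with hG
  set b := H3.aF g with hb
  have dc : Cu (m + 1) (sl (m + 1) mD G) := CU.cu _ _ _ (by decide) gc
  obtain ⟨M, hM⟩ := CU.sub (m + 1)
  have Hc : Cu (m + 1) (h - sl (m + 1) mD G + G) :=
    (hM _).1 (M.add_mem (M.sub_mem ((hM _).2 hh) ((hM _).2 dc)) ((hM _).2 gc))
  have Hi : ∀ γ : Mt, det γ = 1 → 3 ∣ γ.2.2.1 →
      sl (m + 1) γ (h - sl (m + 1) mD G + G) = h - sl (m + 1) mD G + G := by
    intro γ h1 h3
    obtain ⟨L, hL⟩ := CU.lin (m + 1) γ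
    rw [← hL, map_add, map_sub, hL, hL, hL, hinv γ h1 h3, invD CU _ G gi' γ h1 h3, gi' γ h1]
  have h3 : (3 : ℂ) ^ m ≠ 0 := pow_ne_zero _ (by norm_num)
  have Hr : ∀ x : V, rp (m + 1) (h - sl (m + 1) mD G + G) 1 x =
      c * (3 ^ m - 1) * (x.1 : ℂ) ^ (2 * m) + c * (1 - (3 ^ m)⁻¹) * (x.2 : ℂ) ^ (2 * m) := by
    intro x
    have e1 := pdD m β hβ x
    rw [hg, hg, rpD PER m G gc, ← hrp, apD] at e1
    rw [rpLin CU _ _ _ _ hh dc gc]
    apply mul_left_cancel₀ h3
    have e2 : (3 : ℂ) ^ m * (3 ^ m)⁻¹ = 1 := mul_inv_cancel₀ h3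
    push_cast at e1
    have e3 : (3 * (x.1 : ℂ)) ^ (2 * m) = 3 ^ m * 3 ^ m * (x.1 : ℂ) ^ (2 * m) := by
      rw [mul_pow, two_mul m, pow_add 3]
    rw [e3] at e1
    linear_combination (-1 : ℂ) * e1 + c * (x.2 : ℂ) ^ (2 * m) * e2
  have H0 := (BDY m _ 1 _ _ hm Hc Hi Hr).1
  have hco := Q.uniq _ _ (qeLin _ _ _ _ _ _ hq (qeD (m + 1) G b gq) gq) H0
  have hco' : ∀ n, a n = 3 ^ (m + 1) * (if 3 ∣ n then b (n / 3) else 0) - b n := by
    intro n
    have := congrFun hco n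
    simp only [Pi.add_apply, Pi.sub_apply, Pi.zero_apply] at this
    linear_combination this
  have hk := Q.hecke (m + 1) 3 G b (4 * 3 ^ m) (by omega) (by norm_num) gc gq (by
    intro n _
    have e := ha n
    rw [hco', hco', if_pos (dvd_mul_right 3 n),
      Nat.mul_div_cancel_left _ (by norm_num : 0 < 3)] at e
    have e' : 2 * (m + 1) - 1 = m + (m + 1) := by omega
    rw [e']
    push_cast
    rw [pow_add, pow_succ] at *
    linear_combination (-1 : ℂ) * e)
  have G0 : G = 0 := by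
    apply SUP (m + 1) G gc gi'
    have e : (4 * 3 ^ m : ℂ) / ((3 : ℕ) : ℂ) ^ (m + 1 - 1) = 4 := by
      rw [Nat.add_sub_cancel]
      push_cast
      field_simp
    rw [e] at hk
    simpa using hk
  obtain ⟨L, hL⟩ := CU.lin (m + 1) mD
  rw [G0, ← hL, map_zero] at H0
  simpa using H0

end

end Pool.Agent.MP_5f72fe_nt.MS
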