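import Pool.Agent.MP_5f72fe_nt.H25.SpecP

/-! The trivial bound for the Hecke eigenvalue at `3` is not attained. -/

namespace Pool.Agent.MP_5f72fe_nt.MS

open Complex
open scoped UpperHalfPlane MatrixGroups

namespace SUPA

/-- the fractional linear action -/
noncomputable def mz (g : Mt) (z : ℂ) : ℂ := (g.1 * z + g.2.1) / (g.2.2.1 * z + g.2.2.2)

/-- the invariant size -/
noncomputable def HH (k : ℕ) (h : ℂ → ℂ) (z : ℂ) : ℝ := ‖h z‖ * z.im ^ k

theorem den_ne {g : Mt} (hg : 0 < det g) {z : ℂ} (hz : 0 < z.im) :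
    (g.2.2.1 * z + g.2.2.2 : ℂ) ≠ 0 := by
  intro h0
  have h1 := congrArg Complex.im h0
  simp only [add_im, mul_im, intCast_re, intCast_im, zero_mul, add_zero, zero_im, mul_eq_zero,
    Int.cast_eq_zero, hz.ne', or_false] at h1
  rw [h1] at h0
  simp only [Int.cast_zero, zero_mul, zero_add, Int.cast_eq_zero] at h0
  simp only [det, h1, h0, mul_zero, sub_zero, lt_self_iff_false] at hg

theorem im_mz {g : Mt} (hg : 0 < det g) {z : ℂ} (hz : 0 < z.im) :
    (mz g z).im = det g * z.im / ‖(g.2.2.1 * z + g.2.2.2 : ℂ)‖ ^ 2 := by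
  have h0 : normSq (g.2.2.1 * z + g.2.2.2 : ℂ) ≠ 0 := (normSq_pos.2 (den_ne hg hz)).ne'
  rw [mz, div_im, ← normSq_eq_norm_sq]
  field_simp
  simp only [add_im, mul_im, intCast_re, intCast_im, zero_mul, add_zero, add_re, mul_re, sub_zero,
    det]
  push_cast
  ring

theorem im_pos {g : Mt} (hg : 0 < det g) {z : ℂ} (hz : 0 < z.im) : 0 < (mz g z).im := by
  rw [im_mz hg hz]
  have h1 : (0 : ℝ) < det g := by exact_mod_cast hg
  have h2 := norm_pos_iff.2 (den_ne hg hz)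
  positivity

theorem HH_sl (k : ℕ) (h : ℂ → ℂ) {g : Mt} (hg : 0 < det g) {z : ℂ} (hz : 0 < z.im) :
    HH k (sl k g h) z = HH k h (mz g z) := by
  have h1 : (0 : ℝ) < det g := by exact_mod_cast hg
  have h2 := norm_pos_iff.2 (den_ne hg hz)
  simp only [HH, sl, if_pos hz]
  rw [im_mz hg hz, norm_mul, norm_div, norm_pow, norm_pow, Complex.norm_intCast, abs_of_pos h1,
    div_pow, mul_pow, ← pow_mul]
  simp only [mz]
  ring

theorem exists_half {z : ℂ} (hz : 0 < z.im) : ∃ g : Mt, det g = 1 ∧ 1 / 2 ≤ (mz g z).im := by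
  obtain ⟨γ, hγ⟩ := ModularGroup.exists_one_half_le_im_smul ⟨z, hz⟩
  refine ⟨(γ 0 0, γ 0 1, γ 1 0, γ 1 1), ?_, ?_⟩
  · have := γ.det_coe
    rw [Matrix.det_fin_two] at this
    exact this
  · have := UpperHalfPlane.coe_specialLinearGroup_apply γ ⟨z, hz⟩
    rw [← UpperHalfPlane.coe_im, this] at hγ
    simpa [mz] using hγ

theorem step {k : ℕ} {h : ℂ → ℂ} {M : ℝ} (hM : ∀ z : ℂ, 0 < z.im → HH k h z ≤ M)
    (hT : sl k (3, 0, 0, 1) h + ∑ j ∈ Finset.range 3, sl k (1, j, 0, 3) h = (4 : ℂ) • h)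
    {z : ℂ} (hz : 0 < z.im) : 4 * HH k h z ≤ HH k h (3 * z) + 3 * M := by
  have h1 := congrFun hT z
  simp only [Finset.sum_range_succ, Finset.range_zero, Finset.sum_empty, zero_add, Pi.add_apply,
    Pi.smul_apply, smul_eq_mul] at h1
  have h2 : ∀ j : ℕ, HH k (sl k (1, j, 0, 3) h) z ≤ M := fun j => by
    have hg : 0 < det ((1, j, 0, 3) : Mt) := by simp [det]
    rw [HH_sl k h hg hz]
    exact hM _ (im_pos hg hz)
  have h3 : HH k (sl k (3, 0, 0, 1) h) z = HH k h (3 * z) := by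
    rw [HH_sl k h (by simp [det]) hz]
    simp [mz]
  have h4 : 4 * ‖h z‖ ≤ ‖sl k (3, 0, 0, 1) h z‖ + (‖sl k (1, (0 : ℕ), 0, 3) h z‖ +
      ‖sl k (1, (1 : ℕ), 0, 3) h z‖ + ‖sl k (1, (2 : ℕ), 0, 3) h z‖) := by
    have : 4 * ‖h z‖ = ‖4 * h z‖ := by simp
    rw [this, ← h1]
    exact (norm_add_le _ _).trans (add_le_add le_rfl (norm_add₃_le))
  have h5 := mul_le_mul_of_nonneg_right h4 (pow_pos hz k).le
  have a0 := h2 0
  have a1 := h2 1
  have a2 := h2 2
  rw [← h3]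
  simp only [HH] at a0 a1 a2 ⊢
  linarith

theorem iter {k : ℕ} {h : ℂ → ℂ} {M : ℝ} (hM : ∀ z : ℂ, 0 < z.im → HH k h z ≤ M)
    (hT : sl k (3, 0, 0, 1) h + ∑ j ∈ Finset.range 3, sl k (1, j, 0, 3) h = (4 : ℂ) • h)
    {z : ℂ} (hz : 0 < z.im) (n : ℕ) :
    (3 ^ n * z).im = 3 ^ n * z.im ∧ M - HH k h (3 ^ n * z) ≤ 4 ^ n * (M - HH k h z) := by
  induction n with
  | zero => simp
  | succ n ih =>
    have h0 : 0 < (3 ^ n * z).im := by rw [ih.1]; positivity
    have h1 := step hM hT h0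
    rw [pow_succ' (3 : ℂ), mul_assoc]
    constructor
    · rw [pow_succ', mul_assoc, ← ih.1]
      simp
    · rw [pow_succ', mul_assoc]
      linarith [ih.2]

end SUPA

open SUPA in
theorem rowSUP : OfSUP := by
  intro _ k h hC hI hT
  have he : (e1 : V) ≠ 0 := by simp [e1]
  obtain ⟨C0, hC0⟩ := hC.bd e1 he 0
  obtain ⟨C1, hC1⟩ := hC.bd e1 he 1
  have hb : BddAbove (HH k h '' {z | 0 < z.im}) := by
    refine ⟨C0, ?_⟩
    rintro _ ⟨z, hz, rfl⟩
    simpa [HH] using hC0 z hz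
  have hne : (HH k h '' {z | 0 < z.im}).Nonempty := ⟨_, I, by simp, rfl⟩
  set M := sSup (HH k h '' {z | 0 < z.im}) with hM'
  have hM : ∀ z : ℂ, 0 < z.im → HH k h z ≤ M := fun z hz => le_csSup hb ⟨z, hz, rfl⟩
  have hM0 : M ≤ 0 := by
    by_contra hc
    have hp : 0 < M := not_le.1 hc
    obtain ⟨n, hn⟩ := pow_unbounded_of_one_lt (4 * C1 / M) (by norm_num : (1 : ℝ) < 3)
    have h4 : (0 : ℝ) < 4 ^ n := by positivity
    have h3 : (0 : ℝ) < 3 ^ n := by positivity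
    have hε : 0 < M / 2 / 4 ^ n := by positivity
    obtain ⟨_, ⟨z, hz, rfl⟩, hz'⟩ := exists_lt_of_lt_csSup hne (sub_lt_self M hε)
    obtain ⟨g, hg, hg'⟩ := exists_half hz
    have hg0 : 0 < det g := by rw [hg]; exact one_pos
    have h5 : HH k h (mz g z) = HH k h z := by rw [← HH_sl k h hg0 hz, hI g hg]
    obtain ⟨h6, h7⟩ := iter hM hT (im_pos hg0 hz) n
    have h8 : 0 < (3 ^ n * mz g z).im := by rw [h6]; exact mul_pos h3 (im_pos hg0 hz)
    have h9 := hC1 _ h8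
    have h10 : Lf e1 (3 ^ n * mz g z) = 1 := by simp [Lf, e1]
    rw [h10, norm_one, one_pow, pow_one, mul_one_div, le_div_iff₀ h8] at h9
    have h11 : 4 ^ n * (M - HH k h z) < M / 2 := by
      have : M - HH k h z < M / 2 / 4 ^ n := by linarith
      rwa [lt_div_iff₀' h4] at this
    rw [h5] at h7
    have h12 : M / 2 < HH k h (3 ^ n * mz g z) := by linarith
    have h13 : 3 ^ n * (1 / 2) ≤ (3 ^ n * mz g z).im := by
      rw [h6]; exact mul_le_mul_of_nonneg_left hg' h3.le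
    have h14 : M / 2 * (3 ^ n * (1 / 2)) ≤ HH k h (3 ^ n * mz g z) * (3 ^ n * mz g z).im :=
      mul_le_mul h12.le h13 (by positivity) (by linarith)
    rw [div_lt_iff₀ hp] at hn
    simp only [HH] at h14
    linarith
  funext z
  rcases le_or_gt z.im 0 with hz | hz
  · exact hC.zero z hz
  · have h1 := (hM z hz).trans hM0
    have h2 := pow_pos hz k
    simp only [HH] at h1
    have h3 : ‖h z‖ ≤ 0 := by
      by_contra hc
      have := mul_pos (not_le.1 hc) h2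
      linarith
    exact norm_le_zero_iff.1 h3

end Pool.Agent.MP_5f72fe_nt.MS
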