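import Pool.Agent.MP_5f72fe_nt.H25.SpecP

/-! The tree argument with a sign. -/

namespace Pool.Agent.MP_5f72fe_nt.MS

namespace TREEPA

variable {B : Type} [AddCommGroup B]

theorem in_int (n : ℤ) : In n := by simp [In]

theorem in_of {x : ℚ} (n : ℤ) (h : x = n) : In x := h ▸ in_int n

theorem un_one : Un 1 := by simp [Un, In]

theorem rc_hi (hB : RowBAS) {F : V → V → B} {R : ℕ} (hR : R0 R F) {s c : ℚ} (hc : In c)
    (hs : s = 3 ^ R * c) (v w : V) {α β : ℚ} (hβ : In β) (hu : Un (1 - α * β)) :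
    Rc F s v w α β = 0 := by
  obtain ⟨O, hO⟩ := hB.ring
  have h0 : In (c * β) := (hO _).1 (O.mul_mem ((hO _).2 hc) ((hO _).2 hβ))
  have h1 := hR v (s • w) 1 1 0 (c * β) un_one un_one (in_of 0 (by simp)) h0
  have h2 := hR (v + α • w) (s • w) 1 (1 - α * β) 0 (c * β) un_one hu (in_of 0 (by simp)) h0
  rw [one_smul, zero_smul, add_zero] at h1 h2
  have e1 : s • (w + β • v) = (1 : ℚ) • s • w + (3 ^ R * (c * β)) • v := by rw [hs]; module
  have e2 : s • (w + β • v) = (1 - α * β) • s • w + (3 ^ R * (c * β)) • (v + α • w) := by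
    rw [hs]; module
  rw [← e1] at h1
  rw [← e2] at h2
  rw [Rc, h1, h2]
  abel

theorem rc_lo (hB : RowBAS) {F : V → V → B} {R : ℕ} (hR : R0 R F) {s c : ℚ} (hc : In c)
    (hs : c * s = 1) (v w : V) {α β : ℚ} (hα : In α) (hu : Un (1 - α * β)) :
    Rc F s v w α β = 0 := by
  obtain ⟨O, hO⟩ := hB.ring
  have h0 : In (α * c) := (hO _).1 (O.mul_mem ((hO _).2 hα) ((hO _).2 hc))
  have h1 := hR v (s • w) 1 1 (α * c) 0 un_one un_one h0 (in_of 0 (by simp))
  have h2 := hR v (s • (w + β • v)) (1 - α * β) 1 (α * c) 0 hu un_one h0 (in_of 0 (by simp))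
  rw [mul_zero, zero_smul, add_zero, one_smul ℚ (s • _), smul_smul, mul_assoc, hs, mul_one] at h1 h2
  have e2 : v + α • w = (1 - α * β) • v + α • (w + β • v) := by module
  rw [one_smul] at h1
  rw [← e2] at h2
  rw [Rc, h1, h2]
  abel

theorem vec [Module ℚ B] (hB : RowBAS) (Γ : V → V → B) (σ : ℚ) (hσ : σ = 1 ∨ σ = -1)
    (mv : ∀ (v w : V) (x y b c : ℚ), Un x → Un y → In b → In c →
      Γ (x • v + (3 * b) • w) (y • w + (3 * c) • v) = Γ v w)
    (dp : ∀ v w, Γ v w + Γ (v + w) w + Γ (v - w) w = 0)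
    (sym : ∀ v w, Γ w v = σ • Γ v w) (p q : V)
    (o1 : Γ p q - Γ (p + q) q - Γ p (q - p) + Γ (p + q) (q - p) = 0)
    (o2 : Γ p q - Γ (p - q) q - Γ p (p + q) + Γ (p - q) (p + q) = 0) : Γ p q = 0 := by
  have z : In 0 := in_of 0 (by simp)
  have um : Un (-1) := (hB.unMul _ _ un_one un_one).2.2.2
  have u2 : Un (2 : ℚ)⁻¹ := (hB.unMul 2 1 (by simpa using (hB.int 2).2.2 (by decide)) un_one).2.2.1
  have n1 : ∀ v w, Γ (-v) w = Γ v w := fun v w => by
    simpa using mv v w (-1) 1 0 0 um un_one z z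
  have n2 : ∀ v w, Γ v (-w) = Γ v w := fun v w => by
    simpa using mv v w 1 (-1) 0 0 un_one um z z
  have n3 : ∀ v w, Γ ((2 : ℚ)⁻¹ • v + (3 * 2⁻¹ : ℚ) • w) w = Γ v w := fun v w => by
    have := mv v w 2⁻¹ 1 2⁻¹ 0 u2 un_one u2.1 z
    rwa [mul_zero, zero_smul, add_zero, one_smul] at this
  have d1 := dp p q
  have d2 := dp q p
  have d3 := dp p (p + q)
  have d4 := dp p (p - q)
  rw [add_comm q p, ← neg_sub p q, n1] at d2
  rw [show p + (p + q) = (2 : ℚ)⁻¹ • (p - q) + (3 * 2⁻¹ : ℚ) • (p + q) by module, n3,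
    show p - (p + q) = -q by abel, n1] at d3
  rw [show p + (p - q) = (2 : ℚ)⁻¹ • (p + q) + (3 * 2⁻¹ : ℚ) • (p - q) by module, n3,
    show p - (p - q) = q by abel] at d4
  rw [← neg_sub p q, n2, n2] at o1
  have s1 := sym q (p - q)
  have s2 := sym q (p + q)
  have s3 := sym p (p - q)
  have s4 := sym p (p + q)
  have s5 := sym p q
  have s6 := sym (p + q) (p - q)
  rcases hσ with rfl | rfl
  · linear_combination (norm := module) (1 / 3 : ℚ) • d1 - (1 / 6 : ℚ) • d3 - (1 / 6 : ℚ) • d4 +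
      (1 / 3 : ℚ) • d2 + (1 / 6 : ℚ) • o1 + (1 / 6 : ℚ) • o2 - (1 / 6 : ℚ) • s1 -
      (1 / 6 : ℚ) • s2 - (1 / 3 : ℚ) • s3 - (1 / 3 : ℚ) • s4 - (1 / 3 : ℚ) • s5
  · linear_combination (norm := module) (1 / 2 : ℚ) • d1 + (1 / 4 : ℚ) • d3 + (1 / 4 : ℚ) • d4 +
      (1 / 4 : ℚ) • o1 + (1 / 4 : ℚ) • o2 - (1 / 4 : ℚ) • s1 - (1 / 4 : ℚ) • s2 - (1 / 2 : ℚ) • s6

end TREEPA

open TREEPA in
theorem rowTREEP : OfTREEP := by
  intro hB hL B _ _ F σ r M hσ hM hR hD hJ hC hW hF
  have half : ∀ S : B, S + S = 0 → S = 0 := fun S h => by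
    linear_combination (norm := module) (1 / 2 : ℚ) • h
  have rect : Rect 1 M F := by
    intro v w α β hv hα hβ hu
    have h := hF v w α β hv hα hβ hu
    let a : ℕ → B := fun i => Rc F (3 ^ i / 3 ^ M) v w α β
    have lo : ∀ i, i ≤ M → a i = 0 := fun i hi => by
      obtain ⟨j, rfl⟩ := Nat.exists_eq_add_of_le hi
      refine rc_lo hB hR (in_of (3 ^ j) (by simp) : In (3 ^ j)) ?_ v w hα hu
      rw [pow_add]; field_simp
    have hi : ∀ i, M + (r + 2) ≤ i → a i = 0 := fun i hi => by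
      obtain ⟨j, rfl⟩ := Nat.exists_eq_add_of_le hi
      refine rc_hi hB hR (in_of (3 ^ j) (by simp) : In (3 ^ j)) ?_ v w hβ hu
      rw [pow_add, pow_add]; field_simp
    have e : ∀ i, Rc (fun v w => F v w + F v ((3 ^ (r + 1) : ℚ) • w)) (3 ^ i / 3 ^ M) v w α β =
        a i + a (r + 1 + i) := fun i => by
      have : (3 : ℚ) ^ (r + 1 + i) / 3 ^ M = 3 ^ (r + 1) * (3 ^ i / 3 ^ M) := by
        rw [pow_add, mul_div_assoc]
      simp only [a, Rc, this, mul_smul]
      abel
    have s1 := Finset.sum_range_add a (r + 1) (2 * M + 1)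
    have s2 := Finset.sum_range_add a (2 * M + 1) (r + 1)
    rw [Finset.sum_eq_zero (s := Finset.range (r + 1)) fun i h =>
      lo i (by have := Finset.mem_range.1 h; omega), zero_add] at s1
    rw [Finset.sum_eq_zero (s := Finset.range (r + 1)) fun i _ => hi _ (by omega), add_zero,
      add_comm (2 * M + 1), s1] at s2
    simp only [one_pow, one_smul, e, Finset.sum_add_distrib] at h ⊢
    rw [s2] at h
    exact half _ h
  have R2 : R0 2 F := hL.low B F 1 r M (Or.inl rfl) (by omega) hR hD hJ rect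
  have z : In 0 := in_of 0 (by simp)
  rcases r with _ | r
  · have un2 : Un (2 : ℚ) := by simpa using (hB.int 2).2.2 (by decide)
    have third : ∀ w : V, (1 / 3 : ℚ) • ((3 : ℚ) • w) = w := fun w => by module
    have main : ∀ p q : V, dt p q ≠ 0 → F p ((3 : ℚ) • q) = 0 := by
      intro p q h
      refine vec hB (fun v w => F v ((3 : ℚ) • w)) σ hσ ?_ ?_ ?_ p q ?_ ?_
      · intro v w x y b c hx hy hb hc
        have := R2 v ((3 : ℚ) • w) x y b c hx hy hb hc
        have c1 : x • v + (3 * b) • w = x • v + b • ((3 : ℚ) • w) := by module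
        have c2 : (3 : ℚ) • (y • w + (3 * c) • v) = y • ((3 : ℚ) • w) + ((3 : ℚ) ^ 2 * c) • v := by
          module
        show F _ _ = _
        rw [c1, c2]; exact this
      · intro v w
        have := hD v ((3 : ℚ) • w)
        rwa [third] at this
      · intro v w
        have := hW v ((3 : ℚ) • w)
        rwa [show ((3 : ℚ) ^ (0 + 2)) • v = (3 : ℚ) • (3 : ℚ) • v by module, hC] at this
      · have := hL.one B F 1 0 M (Or.inl rfl) (by omega) R2 rect p q 1 (-1) h un_one.1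
          (in_of (-1) (by simp)) (by norm_num; exact un2)
        rwa [Rc, one_smul, show q + ((3 : ℚ) ^ 0 * -1) • p = q - p by module] at this
      · have := hL.one B F 1 0 M (Or.inl rfl) (by omega) R2 rect p q (-1) 1 h
          (in_of (-1) (by simp)) un_one.1 (by norm_num; exact un2)
        rwa [Rc, show p + (-1 : ℚ) • q = p - q by module,
          show q + ((3 : ℚ) ^ 0 * 1) • p = p + q by module] at this
    funext v w
    by_cases h : dt v w = 0
    · exact hJ v w h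
    · have hw : (3 : ℚ) • ((1 / 3 : ℚ) • w) = w := by module
      have := main v ((1 / 3 : ℚ) • w) (by
        intro h0
        apply h
        simp only [dt, Prod.smul_fst, Prod.smul_snd, smul_eq_mul] at h0 ⊢
        linear_combination 3 * h0)
      rwa [hw] at this
  · have key : ∀ (v w : V) (e : ℤ), σ • F (v + ((e : ℚ) / 3) • w) w = σ • F v w := by
      intro v w e
      have := R2 w ((3 ^ (r + 1 + 2) : ℚ) • v) 1 1 0 (3 ^ r * e) un_one un_one z
        (in_of (3 ^ r * e) (by simp))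
      rw [one_smul, zero_smul, add_zero] at this
      rw [← hW, ← hW, ← this]
      congr 1
      module
    funext v w
    have h1 := key v w 1
    have h2 := key v w (-1)
    have h3 := hD v w
    rw [show v + (((-1 : ℤ) : ℚ) / 3) • w = v - (1 / 3 : ℚ) • w by push_cast; module] at h2
    rw [Int.cast_one] at h1
    show F v w = 0
    rcases hσ with rfl | rfl
    · linear_combination (norm := module) (1 / 3 : ℚ) • h3 - (1 / 3 : ℚ) • h1 - (1 / 3 : ℚ) • h2
    · linear_combination (norm := module) (1 / 3 : ℚ) • h3 + (1 / 3 : ℚ) • h1 + (1 / 3 : ℚ) • h2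

end Pool.Agent.MP_5f72fe_nt.MS
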