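import Pool.Agent.MP_5f72fe_nt.H25.SpecP

/-! Modular symbols at `3`: consequences of approximate symbols attached to lattices. -/

namespace Pool.Agent.MP_5f72fe_nt.MS

open Finset

namespace VERTA

theorem nul (hB : RowBAS) : ∃ N : Submodule ℚ (ℕ → ℚ), ∀ s, s ∈ N ↔ Nul s := by
  obtain ⟨O, hO⟩ := hB.ring
  have h3 : ∀ n : ℕ, (3 : ℚ) ^ n ∈ O := fun n => O.pow_mem (by exact_mod_cast natCast_mem O 3) n
  refine ⟨⟨⟨⟨{s | Nul s}, ?_⟩, ⟨0, fun j => (hO _).1 (by simp)⟩⟩, ?_⟩,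
    fun _ => Iff.rfl⟩
  · rintro s t ⟨E, hE⟩ ⟨F, hF⟩
    refine ⟨E + F, fun j => (hO _).1 ?_⟩
    have e : 3 ^ (E + F) * (s + t) j / 3 ^ j =
        3 ^ F * (3 ^ E * s j / 3 ^ j) + 3 ^ E * (3 ^ F * t j / 3 ^ j) := by
      rw [Pi.add_apply]; ring
    rw [e]
    exact O.add_mem (O.mul_mem (h3 _) ((hO _).2 (hE j))) (O.mul_mem (h3 _) ((hO _).2 (hF j)))
  · rintro c s ⟨E, hE⟩
    obtain ⟨F, hF⟩ := hB.big c
    refine ⟨E + F, fun j => (hO _).1 ?_⟩
    have e : 3 ^ (E + F) * (c • s) j / 3 ^ j = 3 ^ F * c * (3 ^ E * s j / 3 ^ j) := by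
      rw [Pi.smul_apply, smul_eq_mul]; ring
    rw [e]
    exact O.mul_mem ((hO _).2 hF) ((hO _).2 (hE j))

variable {K : Type} [AddCommGroup K] [Module ℚ K]

theorem coef (n : ℕ) : ∃ M : Fin (n + 1) → Fin (n + 1) → ℚ, ∀ (β : ℕ → K) (i : Fin (n + 1)),
    β i = ∑ a, M i a • ∑ k ∈ range (n + 1), (((a : ℕ) : ℚ) ^ k * 1 ^ (n - k)) • β k := by
  let A := Matrix.vandermonde fun a : Fin (n + 1) => ((a : ℕ) : ℚ)
  have hA : IsUnit A.det := (Matrix.det_vandermonde_ne_zero_iff.2 fun a b h =>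
    Fin.ext (by exact_mod_cast h)).isUnit
  refine ⟨fun i a => A⁻¹ i a, fun β i => ?_⟩
  simp only [sum_range, smul_sum, smul_smul, one_pow, mul_one]
  rw [sum_comm]
  have e : ∀ k : Fin (n + 1), ∑ a : Fin (n + 1), (A⁻¹ i a * ((a : ℕ) : ℚ) ^ (k : ℕ)) • β k =
      (1 : Matrix _ _ ℚ) i k • β k := fun k => by
    rw [← sum_smul, ← A.nonsing_inv_mul hA]
    rfl
  simp [e, Matrix.one_apply]

theorem uniq {n : ℕ} {β γ : ℕ → K}
    (h : ∀ x : V, ∑ k ∈ range (n + 1), (x.1 ^ k * x.2 ^ (n - k)) • β k =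
      ∑ k ∈ range (n + 1), (x.1 ^ k * x.2 ^ (n - k)) • γ k) {i : ℕ} (hi : i ≤ n) : β i = γ i := by
  obtain ⟨M, hM⟩ := coef (K := K) n
  refine (hM β ⟨i, by omega⟩).trans ((sum_congr rfl fun a _ => ?_).trans (hM γ ⟨i, by omega⟩).symm)
  rw [h ((a : ℕ), 1)]

theorem mono {n i : ℕ} (hi : i ≤ n) (c : K) : Hp n fun x : V => (x.1 ^ i * x.2 ^ (n - i)) • c :=
  ⟨fun k => if k = i then c else 0, fun x => by
    rw [sum_eq_single_of_mem i (mem_range.2 (by omega)) fun k _ hk => by simp [hk]]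
    simp⟩

theorem diag (hI : RowINT) {m : ℕ} {Q : V → V → K} (h1 : ∀ y, Hp m fun x => Q x y)
    (h2 : ∀ x, Hp m (Q x)) : Hp (2 * m) fun x => Q x x := by
  obtain ⟨M, hM⟩ := coef (K := K) m
  obtain ⟨H, hH⟩ := hI.sub K (2 * m)
  choose β hβ using h1
  choose γ hγ using h2
  beta_reduce at hβ
  have e : (fun x => Q x x) = ∑ i : Fin (m + 1), ∑ a : Fin (m + 1), ∑ k ∈ range (m + 1),
      fun x : V => (x.1 ^ (i + k) * x.2 ^ (2 * m - (i + k))) • M i a • γ ((a : ℕ), 1) k := by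
    funext x
    simp only [Finset.sum_apply]
    rw [hβ x x, sum_range]
    refine sum_congr rfl fun i _ => ?_
    rw [hM (β x) i, smul_sum]
    refine sum_congr rfl fun a _ => ?_
    rw [← hβ x ((a : ℕ), 1), hγ, smul_sum, smul_sum]
    refine sum_congr rfl fun k hk => ?_
    have e' : 2 * m - (i + k) = (m - i) + (m - k) := by
      have := mem_range.1 hk
      omega
    simp only [smul_smul, e', pow_add]
    congr 1
    ring
  rw [e]
  refine (hH _).1 (sum_mem fun i _ => sum_mem fun a _ => sum_mem fun k hk => (hH _).2 (mono ?_ _))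
  have := mem_range.1 hk
  omega

omit [Module ℚ K] in
theorem ad_neg {f : V → V → K} (h : Ad f) {c c' : V} (hc : c ≠ 0) (hc' : c' ≠ 0) :
    f c' c = -f c c' := by
  have h1 := h.hom c 1 hc one_ne_zero
  rw [one_smul] at h1
  exact eq_neg_of_add_eq_zero_right ((h.add c c' c hc hc' hc).trans h1)

omit [Module ℚ K] in
theorem ad_smul {f : V → V → K} (h : Ad f) {c c' : V} (hc : c ≠ 0) (hc' : c' ≠ 0) {l l' : ℚ}
    (hl : l ≠ 0) (hl' : l' ≠ 0) : f (l • c) (l' • c') = f c c' := by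
  have a := smul_ne_zero hl hc
  have a' := smul_ne_zero hl' hc'
  rw [← h.add _ c _ a hc a', ← h.add c c' _ hc hc' a', ad_neg h hc a, h.hom c l hc hl,
    h.hom c' l' hc' hl', neg_zero, zero_add, add_zero]

/-- the exact form of the relations -/
structure EX (m : ℕ) (B : Bf ℚ) (ι : ℚ →ₗ[ℚ] K) (J : Bf K) : Prop where
  inj : ∀ q, ι q = 0 → q = 0
  p1 : ∀ c c' v w y, Hp m fun x => J c c' v w x y
  p2 : ∀ c c' v w x, Hp m fun y => J c c' v w x y
  ad : ∀ v w x y, Ad fun c c' => J c c' v w x y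
  inv : ∀ (g : Mt) (a : ℕ), det g = 3 ^ a → ∀ c c' v w x y : V,
    J (ap g c) (ap g c') (ap g v) (ap g w) (ap g x) (ap g y) = (det g : ℚ) ^ m • J c c' v w x y
  lat : ∀ (c c' v w x y : V) (p q r s : ℤ), p * s - q * r = 1 ∨ p * s - q * r = -1 →
    J c c' ((p : ℚ) • v + (q : ℚ) • w) ((r : ℚ) • v + (s : ℚ) • w) x y = J c c' v w x y
  cob : ∀ c c' v w x y : V,
    ι (B c c' v w x y) = J c c' v ((1 / 3 : ℚ) • w) x y - J c c' v w x y

theorem hp_mk (N : Submodule ℚ (ℕ → ℚ)) {m : ℕ} {P : ℕ → V → ℚ} (h : ∀ j, Hp m (P j)) :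
    Hp m fun x => N.mkQ fun j => P j x := by
  choose β hβ using h
  refine ⟨fun i => N.mkQ fun j => β j i, fun x => ?_⟩
  simp only [← map_smul, ← map_sum]
  refine congrArg _ (funext fun j => ?_)
  rw [hβ, Finset.sum_apply]
  rfl

theorem ex (hB : RowBAS) {m e : ℕ} {B : Bf ℚ} {I : ℕ → Bf ℚ} (h : VI m e B I) :
    ∃ (K : Type) (_ : AddCommGroup K) (_ : Module ℚ K) (ι : ℚ →ₗ[ℚ] K) (J : Bf K), EX m B ι J := by
  obtain ⟨N, hN⟩ := nul hB
  obtain ⟨O, hO⟩ := hB.ring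
  have z : ∀ s, Nul s → N.mkQ s = 0 := fun s hs => (Submodule.Quotient.mk_eq_zero N).2 ((hN s).2 hs)
  refine ⟨(ℕ → ℚ) ⧸ N, inferInstance, inferInstance,
    LinearMap.toSpanSingleton ℚ _ (N.mkQ fun _ => 3 ^ e),
    fun c c' v w x y => N.mkQ fun j => I j c c' v w x y, fun q hq => ?_,
    fun c c' v w y => hp_mk N fun j => h.p1 j c c' v w y,
    fun c c' v w x => hp_mk N fun j => h.p2 j c c' v w x,
    fun v w x y => ⟨fun c l hc hl => z _ (h.hom c l v w x y hc hl), fun c c' c'' a a' a'' => ?_⟩,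
    fun g a hg c c' v w x y => ?_, fun c c' v w x y p q r s hd => ?_, fun c c' v w x y => ?_⟩
  · rw [LinearMap.toSpanSingleton_apply, ← map_smul] at hq
    obtain ⟨E, hE⟩ := (hN _).1 ((Submodule.Quotient.mk_eq_zero N).1 hq)
    simpa using hB.sep (3 ^ E * (q * 3 ^ e)) hE
  · rw [← sub_eq_zero, ← map_add, ← map_sub]
    exact z _ (h.add c c' c'' v w x y a a' a'')
  · rw [← sub_eq_zero, ← map_smul, ← map_sub]
    exact z _ (h.inv g a hg c c' v w x y)
  · rw [← sub_eq_zero, ← map_sub]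
    have i : ∀ n : ℤ, In n := fun n => (hO _).1 (intCast_mem O n)
    refine z _ (h.lat c c' v w x y p q r s (i p) (i q) (i r) (i s) ?_)
    have := (hB.int (p * s - q * r)).2.2 (by omega)
    push_cast at this
    exact this
  · rw [← sub_eq_zero, LinearMap.toSpanSingleton_apply, ← map_smul, ← map_sub, ← map_sub]
    refine z _ ?_
    have e : (B c c' v w x y • (fun _ => 3 ^ e : ℕ → ℚ) -
        ((fun j => I j c c' v ((1 / 3 : ℚ) • w) x y) - fun j => I j c c' v w x y)) = fun j =>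
        3 ^ e * B c c' v w x y - (I j c c' v ((1 / 3 : ℚ) • w) x y - I j c c' v w x y) := by
      funext j
      simp only [Pi.sub_apply, Pi.smul_apply, smul_eq_mul, mul_comm]
    exact e ▸ h.cob c c' v w x y

variable {m : ℕ} {B : Bf ℚ} {ι : ℚ →ₗ[ℚ] K} {J : Bf K}

theorem EX.swap (h : EX m B ι J) (c c' v w x y : V) : J c c' w v x y = J c c' v w x y := by
  simpa using h.lat c c' v w x y 0 1 1 0 (Or.inr rfl)

theorem EX.centre (hI : RowINT) (h : EX m B ι J) {c c' : V} (hc : c ≠ 0) (hc' : c' ≠ 0)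
    (v w x y : V) : J c c' ((3 : ℚ) • v) ((3 : ℚ) • w) x y = J c c' v w x y := by
  have e : ∀ u : V, ap (3, 0, 0, 3) u = (3 : ℚ) • u := fun u => by
    simp [ap, Prod.ext_iff]
  have h1 := h.inv (3, 0, 0, 3) 2 rfl c c' v w x y
  have h3 : (3 : ℚ) ≠ 0 := by norm_num
  have e' : ((det (3, 0, 0, 3) : ℤ) : ℚ) = 3 * 3 := by norm_num [det]
  simp only [e] at h1
  rw [ad_smul (h.ad _ _ _ _) hc hc' h3 h3, (hI.hom K m _ (h.p1 c c' _ _ _)).1,
    (hI.hom K m _ (h.p2 c c' _ _ _)).1, smul_smul, ← mul_pow, e'] at h1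
  exact smul_right_injective K (pow_ne_zero _ (mul_ne_zero h3 h3)) h1

theorem EX.one (hI : RowINT) (h : EX m B ι J) (c c' v w x y : V) (hc : c ≠ 0) (hc' : c' ≠ 0) :
    B c c' v w x y + B c c' w ((3 : ℚ) • v) x y = 0 := by
  refine h.inj _ ?_
  have e := h.centre hI hc hc' v ((1 / 3 : ℚ) • w) x y
  rw [smul_smul, mul_one_div_cancel three_ne_zero, one_smul] at e
  rw [map_add, h.cob, h.cob, smul_smul, one_div_mul_cancel three_ne_zero, one_smul,
    h.swap c c' v w, h.swap c c' _ w, e]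
  abel

theorem EX.sl2 (h : EX m B ι J) (g : Mt) (hg : det g = 1) (x : V) :
    J (ap g e1) (ap g e2) e2 e1 (ap g x) (ap g x) = J e1 e2 e2 e1 x x := by
  have h1 := h.inv g 0 hg e1 e2 e2 e1 x x
  have a : ap g e2 = (g.2.2.2 : ℚ) • e2 + (g.2.1 : ℚ) • e1 := by simp [ap, e1, e2]
  have b : ap g e1 = (g.2.2.1 : ℚ) • e2 + (g.1 : ℚ) • e1 := by simp [ap, e1, e2]
  have h2 := h.lat (ap g e1) (ap g e2) e2 e1 (ap g x) (ap g x) g.2.2.2 g.2.1 g.2.2.1 g.1
    (Or.inl (by rw [← hg, det]; ring))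
  rw [← a, ← b] at h2
  rw [← h2, h1, hg, Int.cast_one, one_pow, one_smul]

theorem n1 : e1 ≠ 0 := by simp [e1]

theorem n2 : e2 ≠ 0 := by simp [e2]

theorem EX.wr (h : EX m B ι J) : WR fun x => J e1 e2 e2 e1 x x := by
  refine ⟨fun x => ?_, fun x => ?_⟩
  · have a : ap mS e1 = (1 : ℚ) • e2 := by simp [ap, mS, e1, e2]
    have b : ap mS e2 = (-1 : ℚ) • e1 := by simp [ap, mS, e1, e2]
    have h1 := h.sl2 mS rfl x
    rw [a, b, ad_smul (h.ad _ _ _ _) n2 n1 one_ne_zero (by norm_num),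
      ad_neg (h.ad _ _ _ _) n1 n2] at h1
    simp only [← h1, neg_add_cancel]
  · have h1 := h.sl2 mT rfl (ap (adj mT) x)
    have h2 := h.sl2 mU rfl (ap (adj mU) x)
    have a1 : ap mT (ap (adj mT) x) = x := by simp [ap, adj, mT]
    have a2 : ap mU (ap (adj mU) x) = x := by simp [ap, adj, mU]
    have b1 : ap mT e1 = e1 := by simp [ap, mT, e1]
    have b2 : ap mT e2 = (1, 1) := by simp [ap, mT, e2]
    have b3 : ap mU e1 = (1, 1) := by simp [ap, mU, e1]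
    have b4 : ap mU e2 = e2 := by simp [ap, mU, e2]
    rw [a1, b1, b2] at h1
    rw [a2, b3, b4] at h2
    simp only [← h1, ← h2]
    exact ((h.ad e2 e1 x x).add e1 (1, 1) e2 n1 (by simp) n2).symm

theorem EX.two (hI : RowINT) (h : EX m B ι J) (hm : Even m) (β : ℕ → ℚ)
    (hβ : ∀ x, B e1 e2 e2 e1 x x = Pb m β x) : β m = 0 ∧ WR (Pd m β) := by
  obtain ⟨p, hp⟩ := diag hI (Q := J e1 e2 e2 e1) (h.p1 _ _ _ _) (h.p2 _ _ _ _)
  beta_reduce at hp
  have h3 : (3 : ℚ) ^ m ≠ 0 := by positivity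
  have k1 : ∀ i ≤ 2 * m, ι (β i) = ((3 : ℚ) ^ i / 3 ^ m - 1) • p i := fun i hi => by
    refine uniq (β := fun i => ι (β i)) (γ := fun i => ((3 : ℚ) ^ i / 3 ^ m - 1) • p i)
      (fun x => ?_) hi
    have h1 := h.inv mD 1 rfl e1 e2 e2 ((1 / 3 : ℚ) • e1) x x
    have a1 : ap mD e1 = (3 : ℚ) • e1 := by simp [ap, mD, e1]
    have a2 : ap mD e2 = e2 := by simp [ap, mD, e2]
    have a3 : ap mD ((1 / 3 : ℚ) • e1) = e1 := by simp [ap, mD, e1]
    have a4 : ((det mD : ℤ) : ℚ) = 3 := by norm_num [det, mD]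
    have a5 := ad_smul (h.ad e2 e1 (ap mD x) (ap mD x)) n1 n2 three_ne_zero one_ne_zero
    rw [one_smul] at a5
    rw [a1, a2, a3, a4, a5, hp] at h1
    have h2 := h.cob e1 e2 e2 e1 x x
    rw [hβ, Pb, map_sum, hp, (eq_inv_smul_iff₀ h3).2 h1.symm, smul_sum, ← sum_sub_distrib] at h2
    simp only [map_smul] at h2
    refine h2.trans (sum_congr rfl fun k _ => ?_)
    simp only [smul_smul, ← sub_smul, ap, mD]
    congr 1
    push_cast
    simp only [zero_mul, add_zero, zero_add, one_mul, mul_pow]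
    ring
  have k2 : p m = 0 := by
    have e := uniq (n := 2 * m) (β := p) (γ := fun i => (-(-1 : ℚ) ^ (2 * m - i)) • p (2 * m - i))
      (fun x => ?_) (i := m) (by omega)
    · rw [show 2 * m - m = m by omega, hm.neg_one_pow, neg_smul, one_smul] at e
      have e' : (2 : ℚ) • p m = 0 := by rw [two_smul]; exact add_eq_zero_iff_eq_neg.2 e
      exact (smul_eq_zero.1 e').resolve_left two_ne_zero
    · have h1 := h.wr.1 x
      simp only [hp] at h1
      rw [add_eq_zero_iff_eq_neg.1 h1, ← sum_range_reflect, ← sum_neg_distrib]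
      refine sum_congr rfl fun k hk => ?_
      have e1' : 2 * m + 1 - 1 - k = 2 * m - k := rfl
      have e2' : 2 * m - (2 * m - k) = k := by
        have := mem_range.1 hk
        omega
      simp only [e1', e2', smul_smul, ← neg_smul, ap, mS]
      congr 1
      push_cast
      simp only [zero_mul, add_zero, zero_add, one_mul, mul_pow]
      ring
  have k3 : ∀ x, ι (Pd m β x) = J e1 e2 e2 e1 x x := fun x => by
    rw [hp, Pd, Pb, map_sum]
    refine sum_congr rfl fun i hi => ?_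
    rw [map_smul, map_smul, k1 i (by have := mem_range.1 hi; omega)]
    by_cases e : i = m
    · rw [e, k2, smul_zero, smul_zero]
    · rw [inv_smul_smul₀ fun h0 => e (pow_right_injective₀ (a := (3 : ℚ)) (by norm_num)
        (by norm_num) ((div_eq_one_iff_eq h3).1 (sub_eq_zero.1 h0)))]
  refine ⟨h.inj _ (by rw [k1 m (by omega), k2, smul_zero]), fun x => h.inj _ ?_,
    fun x => sub_eq_zero.1 (h.inj _ ?_)⟩
  · rw [map_add, k3, k3]
    exact h.wr.1 x
  · rw [map_sub, map_add, k3, k3, k3]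
    exact sub_eq_zero.2 (h.wr.2 x)

end VERTA

theorem rowVERT : OfVERT := by
  intro hB hI m e B I h
  obtain ⟨K, _, _, ι, J, hJ⟩ := VERTA.ex hB h
  exact ⟨hJ.one hI, hJ.two hI⟩

end Pool.Agent.MP_5f72fe_nt.MS
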