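import Pool.Agent.MP_5f72fe_nt.H25.SpecP
import Pool.Agent.MP_5f72fe_nt.MS.INT
import Pool.Agent.MP_5f72fe_nt.MS.FORM

/-! Approximate symbols attached to lattices. -/

namespace Pool.Agent.MP_5f72fe_nt.MS

noncomputable section

namespace VIA

open FORMA

theorem in_nat (hB : RowBAS) (n : ℕ) : In (n : ℚ) := by
  obtain ⟨O, hO⟩ := hB.ring
  exact (hO _).1 (natCast_mem O n)

theorem in_one : In 1 := un_one.1

theorem in_fsum (hB : RowBAS) {ι : Type} (s : Finset ι) {f : ι → ℚ} (h : ∀ i ∈ s, In (f i)) :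
    In (∑ i ∈ s, f i) := by
  obtain ⟨O, hO⟩ := hB.ring
  exact (hO _).1 (O.sum_mem fun i hi => (hO _).2 (h i hi))

theorem in_of (x : ℚ) {y : ℚ} (h : In x) (e : y = x) : In y := e ▸ h

/-! ### Null sequences -/

theorem nul_of {s t : ℕ → ℚ} (h : Nul s) (e : ∀ j, t j = s j) : Nul t := by
  rw [show t = s from funext e]; exact h

theorem nul_base {s : ℕ → ℚ} (h : ∀ j, In (s j / 3 ^ j)) : Nul s :=
  ⟨0, fun j => by simpa using h j⟩

theorem nul_zero : Nul fun _ => 0 := nul_base fun j => by simpa using in_zero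

theorem nul_add (hB : RowBAS) {s t : ℕ → ℚ} (h : Nul s) (h' : Nul t) :
    Nul fun j => s j + t j := by
  obtain ⟨E, h⟩ := h
  obtain ⟨E', h'⟩ := h'
  refine ⟨E + E', fun j => in_of _ (in_add hB (in_mul hB (in_pow3 hB E') (h j))
    (in_mul hB (in_pow3 hB E) (h' j))) ?_⟩
  ring

theorem nul_mul (hB : RowBAS) (c : ℚ) {s : ℕ → ℚ} (h : Nul s) : Nul fun j => c * s j := by
  obtain ⟨E, h⟩ := h
  obtain ⟨E', h'⟩ := hB.big c
  refine ⟨E + E', fun j => in_of _ (in_mul hB h' (h j)) ?_⟩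
  ring

theorem nul_sub (hB : RowBAS) {s t : ℕ → ℚ} (h : Nul s) (h' : Nul t) :
    Nul fun j => s j - t j :=
  nul_of (nul_add hB h (nul_mul hB (-1) h')) fun j => by ring

theorem nul_sum (hB : RowBAS) {ι : Type} (s : Finset ι) {f : ι → ℕ → ℚ}
    (h : ∀ i, Nul (f i)) : Nul fun j => ∑ i ∈ s, f i j := by
  classical
  induction s using Finset.induction_on with
  | empty => simpa using nul_zero
  | insert i s hi ih =>
    exact nul_of (nul_add hB (h i) ih) fun j => Finset.sum_insert hi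

/-- agreement of two sequences -/
def Sim (s t : ℕ → ℚ) : Prop := Nul fun j => s j - t j

theorem Sim.symm (hB : RowBAS) {s t : ℕ → ℚ} (h : Sim s t) : Sim t s :=
  nul_of (nul_mul hB (-1) h) fun j => by ring

theorem Sim.trans (hB : RowBAS) {s t u : ℕ → ℚ} (h : Sim s t) (h' : Sim t u) : Sim s u :=
  nul_of (nul_add hB h h') fun j => by ring

/-! ### Weights -/

theorem dt_sr (v w : V) (s : ℚ) : dt v (s • w) = s * dt v w := by
  simp only [dt, Prod.smul_fst, Prod.smul_snd, smul_eq_mul]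
  ring

theorem dt_sl (v w : V) (s : ℚ) : dt (s • v) w = s * dt v w := by
  simp only [dt, Prod.smul_fst, Prod.smul_snd, smul_eq_mul]
  ring

/-- the weights of interpolation -/
def wt {m : ℕ} (X : Fin (m + 1) → V) (a : Fin (m + 1)) (x : V) : ℚ :=
  (∏ b ∈ Finset.univ.erase a, dt x (X b)) * (∏ b ∈ Finset.univ.erase a, dt (X a) (X b))⁻¹

theorem card_er {m : ℕ} (a : Fin (m + 1)) : (Finset.univ.erase a).card = m := by
  rw [Finset.card_erase_of_mem (Finset.mem_univ a), Finset.card_univ, Fintype.card_fin,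
    Nat.add_sub_cancel]

theorem wt_hp {m : ℕ} (X : Fin (m + 1) → V) (a : Fin (m + 1)) (κ : ℚ) :
    Hp m fun x => wt X a x * κ := by
  have := INTA.prodLin (Finset.univ.erase a) (fun b => (X b).2) (fun b => -(X b).1)
    ((∏ b ∈ Finset.univ.erase a, dt (X a) (X b))⁻¹ * κ)
  rw [card_er] at this
  have e : ∀ (w : V) b, dt w (X b) = (X b).2 * w.1 + -(X b).1 * w.2 := fun w b => by
    unfold dt
    ring
  simp only [smul_eq_mul, ← e, ← mul_assoc] at this
  exact this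

/-- pairwise independent -/
def Pw {m : ℕ} (X : Fin (m + 1) → V) : Prop := ∀ a b, a ≠ b → dt (X a) (X b) ≠ 0

theorem wt_int {m : ℕ} {X : Fin (m + 1) → V} (hX : Pw X) {P : V → ℚ} (hP : Hp m P) (x : V) :
    ∑ a, wt X a x * P (X a) = P x :=
  (INTA.interp X hX hP x).symm

theorem wt_ap {m : ℕ} (X : Fin (m + 1) → V) (a : Fin (m + 1)) (x : V) (g : Mt)
    (hg : (det g : ℚ) ≠ 0) : wt (fun b => ap g (X b)) a (ap g x) = wt X a x := by
  simp only [wt, dt_ap, Finset.prod_mul_distrib, Finset.prod_const, mul_inv]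
  have : (det g : ℚ) ^ (Finset.univ.erase a).card ≠ 0 := pow_ne_zero _ hg
  field_simp

theorem wt_smul {m : ℕ} (X : Fin (m + 1) → V) (a : Fin (m + 1)) (x : V) (s : ℚ) (hs : s ≠ 0) :
    wt (fun b => s • X b) a x * s ^ m = wt X a x := by
  simp only [wt, dt_sr, dt_sl, Finset.prod_mul_distrib, Finset.prod_const, mul_inv, card_er]
  have : s ^ m ≠ 0 := pow_ne_zero _ hs
  field_simp

/-- the interpolated sum -/
def JJ {m : ℕ} (Z : ℕ → V → V → ℚ) (X Y : Fin (m + 1) → V) (x y : V) (j : ℕ) : ℚ :=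
  ∑ a, ∑ b, wt X a x * wt Y b y * (dt (X a) (Y b) ^ m * Z j (X a) ((3 : ℚ) • Y b))

/-- the local data -/
structure Dat (m : ℕ) (G : V → V → V → V → ℚ) (Z : ℕ → V → V → ℚ) : Prop where
  r0 : ∀ x y, R0 1 fun v w => G v w x y
  p1 : ∀ v w y, Hp m fun x => G v w x y
  p2 : ∀ v w x, Hp m fun y => G v w x y
  rk : ∀ j, ∃ n, 1 ≤ n ∧ RK n (Z j)
  cob : ∀ j v w,
    In (((dt v w)⁻¹ ^ m * G v w v w - (Z j v w - Z j v ((3 : ℚ) • w))) / 3 ^ j)

variable {m : ℕ} {G : V → V → V → V → ℚ} {Z : ℕ → V → V → ℚ}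

theorem hp_mul (r : ℚ) {P : V → ℚ} (hP : Hp m P) : Hp m fun z => P z * r := by
  have := (INTA.HM ℚ m).smul_mem r hP
  have e : (fun z => P z * r) = r • P := by
    funext z
    rw [Pi.smul_apply, smul_eq_mul, mul_comm]
  rw [e]
  exact this

theorem tel (hB : RowBAS) (D : Dat m G Z) (j : ℕ) (X Y : V) (s : ℚ) (hs : s ≠ 0) (k : ℕ) :
    In ((Z j X (s • Y) - Z j X ((3 ^ k * s) • Y) -
      (dt X Y)⁻¹ ^ m * ∑ i ∈ Finset.range k, G X ((3 ^ i * s) • Y) X Y) / 3 ^ j) := by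
  induction k with
  | zero => simpa using in_zero
  | succ k ih =>
    have h := D.cob j X ((3 ^ k * s) • Y)
    have e1 := INTA.homog (D.p2 X ((3 ^ k * s) • Y) X) (3 ^ k * s) Y
    have e2 : (3 : ℚ) • (3 ^ k * s) • Y = (3 ^ (k + 1) * s) • Y := by
      rw [smul_smul]; congr 1; ring
    have e3 : (3 ^ k * s) ^ m ≠ 0 := by positivity
    have e4 : (dt X ((3 ^ k * s) • Y))⁻¹ ^ m * G X ((3 ^ k * s) • Y) X ((3 ^ k * s) • Y) =
        (dt X Y)⁻¹ ^ m * G X ((3 ^ k * s) • Y) X Y := by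
      rw [e1, dt_sr, mul_inv, mul_pow, inv_pow, smul_eq_mul]
      field_simp
    rw [e2, e4] at h
    refine in_of _ (in_sub hB ih h) ?_
    rw [Finset.sum_range_succ]
    ring

theorem locA (hB : RowBAS) (hI : RowINT) (D : Dat m G Z) (j : ℕ) (X Y0 : V) :
    ∃ Q : V → ℚ, Hp m Q ∧ ∀ (Y : V) (y c : ℚ), Un y → In c → Y = y • Y0 + c • X → dt X Y ≠ 0 →
      In ((Z j X ((3 : ℚ) • Y) - (dt X Y)⁻¹ ^ m * Q Y) / 3 ^ j) := by
  obtain ⟨n, -, hn⟩ := D.rk j
  refine ⟨fun Y => dt X Y ^ m * Z j X ((3 ^ n * 3 : ℚ) • Y0) +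
    ∑ i ∈ Finset.range n, G X ((3 ^ i * 3 : ℚ) • Y0) X Y, ?_, ?_⟩
  · exact (INTA.HM ℚ m).add_mem (hp_mul _ (hI.lin m X).1)
      (INTA.hsum _ _ fun i _ => D.p2 _ _ _)
  · intro Y y c hy hc hY hd
    have h := tel hB D j X Y 3 (by norm_num) n
    have e1 : Z j X ((3 ^ n * 3 : ℚ) • Y) = Z j X ((3 ^ n * 3 : ℚ) • Y0) := by
      rw [← hn X ((3 ^ n * 3 : ℚ) • Y0) 1 y 0 (3 * c) un_one hy in_zero
        (in_mul hB (by simpa using in_pow3 hB 1) hc), hY]
      congr 1
      · module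
      · module
    have e2 : ∀ i : ℕ, G X ((3 ^ i * 3 : ℚ) • Y) X Y = G X ((3 ^ i * 3 : ℚ) • Y0) X Y := by
      intro i
      have := D.r0 X Y X ((3 ^ i * 3 : ℚ) • Y0) 1 y 0 (3 ^ i * c) un_one hy in_zero
        (in_mul hB (in_pow3 hB i) hc)
      simp only at this
      rw [← this]
      congr 1
      · module
      · rw [hY]; module
    simp only [e1, e2] at h
    refine in_of _ h ?_
    have e3 : (dt X Y)⁻¹ ^ m * dt X Y ^ m = 1 := by
      rw [← mul_pow, inv_mul_cancel₀ hd, one_pow]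
    rw [mul_add, ← mul_assoc, e3]
    ring

theorem locB (hB : RowBAS) (hI : RowINT) (D : Dat m G Z) (j : ℕ) (X0 Y : V) :
    ∃ Q : V → ℚ, Hp m Q ∧ ∀ (X : V) (x b : ℚ), Un x → In b → X = x • X0 + b • Y → dt X Y ≠ 0 →
      In ((Z j X ((3 : ℚ) • Y) - (dt X Y)⁻¹ ^ m * Q X) / 3 ^ j) := by
  obtain ⟨n, -, hn⟩ := D.rk j
  refine ⟨fun X => dt X Y ^ m * Z j X0 ((3 ^ n : ℚ)⁻¹ • Y) -
    ∑ i ∈ Finset.range (n + 1), G X0 ((3 ^ i * (3 ^ n : ℚ)⁻¹) • Y) X Y, ?_, ?_⟩
  · exact (INTA.HM ℚ m).sub_mem (hp_mul _ (hI.lin m Y).2)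
      (INTA.hsum _ _ fun i _ => D.p1 _ _ _)
  · intro X x b hx hb hX hd
    have h3 : (3 ^ n : ℚ) ≠ 0 := by positivity
    have h := tel hB D j X Y (3 ^ n : ℚ)⁻¹ (inv_ne_zero h3) (n + 1)
    have e0 : (3 ^ (n + 1) * (3 ^ n : ℚ)⁻¹) = 3 := by field_simp; ring
    have e1 : Z j X ((3 ^ n : ℚ)⁻¹ • Y) = Z j X0 ((3 ^ n : ℚ)⁻¹ • Y) := by
      rw [← hn X0 ((3 ^ n : ℚ)⁻¹ • Y) x 1 b 0 hx un_one hb in_zero, hX]
      congr 1
      · rw [smul_smul, show 3 ^ n * b * (3 ^ n : ℚ)⁻¹ = b by field_simp]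
      · module
    have e2 : ∑ i ∈ Finset.range (n + 1), G X ((3 ^ i * (3 ^ n : ℚ)⁻¹) • Y) X Y =
        ∑ i ∈ Finset.range (n + 1), G X0 ((3 ^ i * (3 ^ n : ℚ)⁻¹) • Y) X Y := by
      refine Finset.sum_congr rfl fun i hi => ?_
      obtain ⟨r, hr⟩ := Nat.exists_eq_add_of_le (Nat.lt_succ_iff.1 (Finset.mem_range.1 hi))
      have := D.r0 X Y X0 ((3 ^ i * (3 ^ n : ℚ)⁻¹) • Y) x 1 (3 ^ r * b) 0 hx un_one
        (in_mul hB (in_pow3 hB r) hb) in_zero
      simp only at this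
      rw [← this]
      congr 1
      · rw [smul_smul, show 3 ^ r * b * (3 ^ i * (3 ^ n : ℚ)⁻¹) = b by
          rw [hr]; field_simp; ring]
        exact hX
      · module
    rw [e0, e1, e2] at h
    refine in_of _ (in_neg hB h) ?_
    have e3 : (dt X Y)⁻¹ ^ m * dt X Y ^ m = 1 := by
      rw [← mul_pow, inv_mul_cancel₀ hd, one_pow]
    rw [mul_sub, ← mul_assoc, e3]
    ring

theorem simA (hB : RowBAS) (hI : RowINT) (D : Dat m G Z) (X Y Y' : Fin (m + 1) → V) (Y0 x y : V)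
    (hY : Pw Y) (hY' : Pw Y')
    (h : ∀ a b, dt (X a) (Y b) ≠ 0 ∧ ∃ u c, Un u ∧ In c ∧ Y b = u • Y0 + c • X a)
    (h' : ∀ a b, dt (X a) (Y' b) ≠ 0 ∧ ∃ u c, Un u ∧ In c ∧ Y' b = u • Y0 + c • X a) :
    Sim (JJ Z X Y x y) (JJ Z X Y' x y) := by
  choose Q hQ hQ' using fun j a => locA hB hI D j (X a) Y0
  have key : ∀ Y : Fin (m + 1) → V, Pw Y →
      (∀ a b, dt (X a) (Y b) ≠ 0 ∧ ∃ u c, Un u ∧ In c ∧ Y b = u • Y0 + c • X a) →
      Sim (JJ Z X Y x y) fun j => ∑ a, wt X a x * Q j a y := by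
    intro Y hY h
    refine nul_of (nul_sum hB Finset.univ fun a => nul_sum hB Finset.univ fun b =>
      nul_mul hB (wt X a x * wt Y b y * dt (X a) (Y b) ^ m) (nul_base (s := fun j =>
        Z j (X a) ((3 : ℚ) • Y b) - (dt (X a) (Y b))⁻¹ ^ m * Q j a (Y b)) fun j => ?_)) ?_
    · obtain ⟨hd, u, c, hu, hc, e⟩ := h a b
      exact hQ' j a _ u c hu hc e hd
    · intro j
      rw [JJ, ← Finset.sum_sub_distrib]
      refine Finset.sum_congr rfl fun a _ => ?_
      rw [← wt_int hY (hQ j a) y, Finset.mul_sum, ← Finset.sum_sub_distrib]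
      refine Finset.sum_congr rfl fun b _ => ?_
      have e3 : dt (X a) (Y b) ^ m * (dt (X a) (Y b))⁻¹ ^ m = 1 := by
        rw [← mul_pow, mul_inv_cancel₀ (h a b).1, one_pow]
      linear_combination (wt X a x * wt Y b y * Q j a (Y b)) * e3
  exact (key Y hY h).trans hB ((key Y' hY' h').symm hB)

theorem simB (hB : RowBAS) (hI : RowINT) (D : Dat m G Z) (X X' Y : Fin (m + 1) → V) (X0 x y : V)
    (hX : Pw X) (hX' : Pw X')
    (h : ∀ a b, dt (X a) (Y b) ≠ 0 ∧ ∃ u c, Un u ∧ In c ∧ X a = u • X0 + c • Y b)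
    (h' : ∀ a b, dt (X' a) (Y b) ≠ 0 ∧ ∃ u c, Un u ∧ In c ∧ X' a = u • X0 + c • Y b) :
    Sim (JJ Z X Y x y) (JJ Z X' Y x y) := by
  choose Q hQ hQ' using fun j b => locB hB hI D j X0 (Y b)
  have key : ∀ X : Fin (m + 1) → V, Pw X →
      (∀ a b, dt (X a) (Y b) ≠ 0 ∧ ∃ u c, Un u ∧ In c ∧ X a = u • X0 + c • Y b) →
      Sim (JJ Z X Y x y) fun j => ∑ b, wt Y b y * Q j b x := by
    intro X hX h
    refine nul_of (nul_sum hB Finset.univ fun b => nul_sum hB Finset.univ fun a =>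
      nul_mul hB (wt X a x * wt Y b y * dt (X a) (Y b) ^ m) (nul_base (s := fun j =>
        Z j (X a) ((3 : ℚ) • Y b) - (dt (X a) (Y b))⁻¹ ^ m * Q j b (X a)) fun j => ?_)) ?_
    · obtain ⟨hd, u, c, hu, hc, e⟩ := h a b
      exact hQ' j b _ u c hu hc e hd
    · intro j
      rw [JJ, Finset.sum_comm, ← Finset.sum_sub_distrib]
      refine Finset.sum_congr rfl fun b _ => ?_
      rw [← wt_int hX (hQ j b) x, Finset.mul_sum, ← Finset.sum_sub_distrib]
      refine Finset.sum_congr rfl fun a _ => ?_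
      have e3 : dt (X a) (Y b) ^ m * (dt (X a) (Y b))⁻¹ ^ m = 1 := by
        rw [← mul_pow, mul_inv_cancel₀ (h a b).1, one_pow]
      linear_combination (wt X a x * wt Y b y * Q j b (X a)) * e3
  exact (key X hX h).trans hB ((key X' hX' h').symm hB)

/-! ### Coordinates -/

/-- the vector with given coordinates -/
def cv (v w u : V) : V := u.1 • v + u.2 • w

theorem dt_cv (v w u u' : V) : dt (cv v w u) (cv v w u') = dt u u' * dt v w := by
  simp only [dt, cv, Prod.fst_add, Prod.snd_add, Prod.smul_fst, Prod.smul_snd, smul_eq_mul]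
  ring

/-- integral vectors -/
def Io (u : V) : Prop := In u.1 ∧ In u.2

/-- a family close to a vector -/
def Nr (u : V) (P : Fin (m + 1) → V) : Prop :=
  Pw P ∧ ∀ a, ∃ t, Io t ∧ P a = u + (3 : ℚ) • t

theorem io_dt (hB : RowBAS) {u u' : V} (h : Io u) (h' : Io u') : In (dt u u') :=
  in_sub hB (in_mul hB h.1 h'.2) (in_mul hB h.2 h'.1)

theorem io_sh (hB : RowBAS) {u t : V} (h : Io u) (h' : Io t) : Io (u + (3 : ℚ) • t) := by
  have h3 : In 3 := by simpa using in_pow3 hB 1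
  exact ⟨in_add hB h.1 (in_mul hB h3 h'.1), in_add hB h.2 (in_mul hB h3 h'.2)⟩

theorem un_sh (hB : RowBAS) {u t u' t' : V} (h : Io u) (h' : Io t) (k : Io u') (k' : Io t')
    (hd : Un (dt u u')) : Un (dt (u + (3 : ℚ) • t) (u' + (3 : ℚ) • t')) := by
  have := hB.unAdd _ _ hd (in_add hB (io_dt hB h k') (io_dt hB h' (io_sh hB k k')))
  rwa [show dt u u' + 3 * (dt u t' + dt t (u' + (3 : ℚ) • t')) =
      dt (u + (3 : ℚ) • t) (u' + (3 : ℚ) • t') by
    simp only [dt, Prod.fst_add, Prod.snd_add, Prod.smul_fst, Prod.smul_snd, smul_eq_mul]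
    ring] at this

theorem pw_cv {v w : V} (h : dt v w ≠ 0) {P : Fin (m + 1) → V} (hP : Pw P) :
    Pw fun a => cv v w (P a) := fun a b hab => by
  rw [dt_cv]
  exact mul_ne_zero (hP a b hab) h

theorem cramer (v w p r u : V) (h : dt p r ≠ 0) :
    cv v w u = (dt p u / dt p r) • cv v w r + (dt u r / dt p r) • cv v w p := by
  simp only [cv]
  match_scalars
  · field_simp
    simp only [dt]; ring
  · field_simp
    simp only [dt]; ring

theorem dt_neg (v w : V) : dt w v = -dt v w := by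
  simp only [dt]
  ring

/-- the sum in coordinates -/
def JC (Z : ℕ → V → V → ℚ) (v w x y : V) (P R : Fin (m + 1) → V) : ℕ → ℚ :=
  JJ Z (fun a => cv v w (P a)) (fun b => cv v w (R b)) x y

theorem movA (hB : RowBAS) (hI : RowINT) (D : Dat m G Z) {v w : V} (x y : V) (hd : dt v w ≠ 0)
    {u r r' : V} {P R R' : Fin (m + 1) → V} (hu : Io u) (hr : Io r) (hr' : Io r')
    (h : Un (dt u r)) (h' : Un (dt u r')) (hP : Nr u P) (hR : Nr r R) (hR' : Nr r' R') :
    Sim (JC Z v w x y P R) (JC Z v w x y P R') := by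
  have key : ∀ (s : V) (S : Fin (m + 1) → V), Io s → Un (dt u s) → Nr s S → ∀ a b,
      dt (cv v w (P a)) (cv v w (S b)) ≠ 0 ∧
        ∃ k c, Un k ∧ In c ∧ cv v w (S b) = k • cv v w r + c • cv v w (P a) := by
    intro s S hs h1 hS a b
    obtain ⟨t, ht, e⟩ := hP.2 a
    obtain ⟨t', ht', e'⟩ := hS.2 b
    have u1 : Un (dt (P a) (S b)) := by rw [e, e']; exact un_sh hB hu ht hs ht' h1
    have u2 : Un (dt (P a) r) := by
      have := un_sh hB hu ht hr (t' := 0) ⟨in_zero, in_zero⟩ h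
      rwa [smul_zero, add_zero, ← e] at this
    refine ⟨by rw [dt_cv]; exact mul_ne_zero (un_ne hB u1) hd, _, _, (hB.unMul _ _ u1 u2).2.1,
      hB.div _ _ (io_dt hB (by rw [e']; exact io_sh hB hs ht') hr) u2,
      cramer v w (P a) r (S b) (un_ne hB u2)⟩
  exact simA hB hI D _ _ _ (cv v w r) x y (pw_cv hd hR.1) (pw_cv hd hR'.1)
    (key r R hr h hR) (key r' R' hr' h' hR')

theorem movB (hB : RowBAS) (hI : RowINT) (D : Dat m G Z) {v w : V} (x y : V) (hd : dt v w ≠ 0)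
    {u u' r : V} {P P' R : Fin (m + 1) → V} (hu : Io u) (hu' : Io u') (hr : Io r)
    (h : Un (dt u r)) (h' : Un (dt u' r)) (hP : Nr u P) (hP' : Nr u' P') (hR : Nr r R) :
    Sim (JC Z v w x y P R) (JC Z v w x y P' R) := by
  have key : ∀ (s : V) (S : Fin (m + 1) → V), Io s → Un (dt s r) → Nr s S → ∀ a b,
      dt (cv v w (S a)) (cv v w (R b)) ≠ 0 ∧
        ∃ k c, Un k ∧ In c ∧ cv v w (S a) = k • cv v w u + c • cv v w (R b) := by
    intro s S hs h1 hS a b
    obtain ⟨t, ht, e⟩ := hS.2 a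
    obtain ⟨t', ht', e'⟩ := hR.2 b
    have u1 : Un (dt (S a) (R b)) := by rw [e, e']; exact un_sh hB hs ht hr ht' h1
    have u2 : Un (dt u (R b)) := by
      have := un_sh hB hu (t := 0) ⟨in_zero, in_zero⟩ hr ht' h
      rwa [smul_zero, add_zero, ← e'] at this
    have u3 : Un (dt (R b) (S a)) := by rw [dt_neg]; exact (hB.unMul _ _ u1 u1).2.2.2
    have u4 : Un (dt (R b) u) := by rw [dt_neg]; exact (hB.unMul _ _ u2 u2).2.2.2
    refine ⟨by rw [dt_cv]; exact mul_ne_zero (un_ne hB u1) hd, _, _, (hB.unMul _ _ u3 u4).2.1,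
      hB.div _ _ (io_dt hB (by rw [e]; exact io_sh hB hs ht) hu) u4,
      cramer v w (R b) u (S a) (un_ne hB u4)⟩
  exact simB hB hI D _ _ _ (cv v w u) x y (pw_cv hd hP.1) (pw_cv hd hP'.1)
    (key u P hu h hP) (key u' P' hu' h' hP')

/-- the standard family -/
def fam (m : ℕ) (u u' : V) : Fin (m + 1) → V := fun a => u + (3 * ((a : ℕ) : ℚ)) • u'

theorem nr_fam (hB : RowBAS) {u u' : V} (h : Io u') (hd : dt u u' ≠ 0) : Nr u (fam m u u') := by
  refine ⟨fun a b hab h0 => hab ?_, fun a => ⟨((a : ℕ) : ℚ) • u',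
    ⟨in_mul hB (in_nat hB a) h.1, in_mul hB (in_nat hB a) h.2⟩, by rw [fam, smul_smul]⟩⟩
  have e : dt (fam m u u' a) (fam m u u' b) = 3 * (((b : ℕ) : ℚ) - (a : ℕ)) * dt u u' := by
    simp only [fam, dt, Prod.fst_add, Prod.snd_add, Prod.smul_fst, Prod.smul_snd, smul_eq_mul]
    ring
  rw [e] at h0
  have h1 := (mul_eq_zero.1 ((mul_eq_zero.1 h0).resolve_right hd)).resolve_left (by norm_num)
  rw [sub_eq_zero, Nat.cast_inj] at h1
  exact Fin.ext h1.symm

theorem io_e1 : Io e1 := ⟨in_one, in_zero⟩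

theorem io_e2 : Io e2 := ⟨in_zero, in_one⟩

theorem un_e : Un (dt e1 e2) := by
  rw [show dt e1 e2 = 1 by simp [dt, e1, e2]]
  exact un_one

theorem chain (hB : RowBAS) (hI : RowINT) (D : Dat m G Z) {v w : V} (x y : V) (hd : dt v w ≠ 0)
    {u r : V} {P R P0 R0 : Fin (m + 1) → V} (hu : Io u) (hr : Io r) (h : Un (dt u r))
    (hP : Nr u P) (hR : Nr r R) (hP0 : Nr e1 P0) (hR0 : Nr e2 R0) :
    Sim (JC Z v w x y P R) (JC Z v w x y P0 R0) := by
  have key : ∀ t : ℚ, In t → Un (dt u (t, 1)) →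
      Sim (JC Z v w x y P R) (JC Z v w x y P0 R0) := by
    intro t ht h1
    have i1 : Io (t, 1) := ⟨ht, in_one⟩
    have h2 : Un (dt e1 (t, 1)) := by
      rw [show dt e1 (t, 1) = 1 by simp [dt, e1]]
      exact un_one
    have n1 : Nr (t, 1) (fam m (t, 1) e1) := nr_fam hB io_e1 (by simp [dt, e1])
    exact ((movA hB hI D x y hd hu hr i1 h h1 hP hR n1).trans hB
      (movB hB hI D x y hd hu io_e1 i1 h1 h2 hP hP0 n1)).trans hB
      (movA hB hI D x y hd io_e1 i1 io_e2 h2 un_e hP0 n1 hR0)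
  by_cases h1 : In (u.1 / 3)
  · refine key 1 in_one ?_
    have h2 : Un u.2 := by
      refine (hB.un _).2 ⟨hu.2, fun h2 => ((hB.un _).1 h).2 ?_⟩
      refine in_of _ (in_sub hB (in_mul hB h1 hr.2) (in_mul hB h2 hr.1)) ?_
      simp only [dt]
      ring
    have := hB.unAdd _ _ (hB.unMul _ _ h2 h2).2.2.2 h1
    rwa [show -u.2 + 3 * (u.1 / 3) = dt u (1, 1) by simp only [dt]; ring] at this
  · refine key 0 in_zero ?_
    rw [show dt u (0, 1) = u.1 by simp [dt]]
    exact (hB.un _).2 ⟨hu.1, h1⟩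

/-- the approximate symbol -/
def II (m : ℕ) (Z : ℕ → V → V → ℚ) (v w x y : V) : ℕ → ℚ := JJ Z (fam m v w) (fam m w v) x y

theorem cv_fam (v w u u' : V) :
    (fun a => cv v w (fam m u u' a)) = fam m (cv v w u) (cv v w u') := by
  funext a
  simp only [fam, cv, Prod.fst_add, Prod.snd_add, Prod.smul_fst, Prod.smul_snd, smul_eq_mul]
  module

theorem cv_e1 (v w : V) : cv v w e1 = v := by simp [cv, e1]

theorem cv_e2 (v w : V) : cv v w e2 = w := by simp [cv, e2]

theorem ii_jc (v w x y u u' : V) :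
    JC Z v w x y (fam m u u') (fam m u' u) = II m Z (cv v w u) (cv v w u') x y := by
  rw [JC, cv_fam, cv_fam, II]

theorem ii_zero (hZ : ∀ j v w, dt v w = 0 → Z j v w = 0) {v w : V} (x y : V) (h : dt v w = 0)
    (j : ℕ) : II m Z v w x y j = 0 := by
  unfold II JJ
  refine Finset.sum_eq_zero fun a _ => Finset.sum_eq_zero fun b _ => ?_
  rw [hZ, mul_zero, mul_zero]
  have e : dt (fam m v w a) ((3 : ℚ) • fam m w v b) =
      3 * (1 - 9 * ((a : ℕ) : ℚ) * (b : ℕ)) * dt v w := by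
    simp only [fam, dt, Prod.fst_add, Prod.snd_add, Prod.smul_fst, Prod.smul_snd, smul_eq_mul]
    ring
  rw [e, h, mul_zero]

theorem ii_lat (hB : RowBAS) (hI : RowINT) (D : Dat m G Z)
    (hZ : ∀ j v w, dt v w = 0 → Z j v w = 0) (v w x y : V) {u u' : V} (hu : Io u) (hu' : Io u')
    (h : Un (dt u u')) : Sim (II m Z (cv v w u) (cv v w u') x y) (II m Z v w x y) := by
  by_cases hd : dt v w = 0
  · refine nul_of nul_zero fun j => ?_
    rw [ii_zero hZ x y hd, ii_zero hZ x y (by rw [dt_cv, hd, mul_zero]), sub_zero]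
  · have h0 := un_ne hB h
    have := chain hB hI D x y hd hu hu' h (nr_fam hB hu' h0)
      (nr_fam hB hu (by rw [dt_neg]; exact neg_ne_zero.2 h0))
      (nr_fam hB io_e2 (un_ne hB un_e))
      (nr_fam hB io_e1 (by rw [dt_neg]; exact neg_ne_zero.2 (un_ne hB un_e)))
    rwa [ii_jc, ii_jc, cv_e1, cv_e2] at this

theorem ii_cob (hB : RowBAS) (hI : RowINT) (D : Dat m G Z) (v w x y : V) (hd : dt v w ≠ 0) :
    Nul fun j => G v w x y - (II m Z v ((1 / 3 : ℚ) • w) x y j - II m Z v w x y j) := by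
  have i3 : In 3 := by simpa using in_pow3 hB 1
  have n1 : Nr e1 (fam m e1 e2) := nr_fam hB io_e2 (un_ne hB un_e)
  have n2 : Nr e2 (fam m e2 e1) :=
    nr_fam hB io_e1 (by rw [dt_neg]; exact neg_ne_zero.2 (un_ne hB un_e))
  have n3 : Nr e1 (fam m e1 (0, 3)) := nr_fam hB ⟨in_zero, i3⟩ (by simp [dt, e1])
  have n4 : Nr e2 (fam m e2 (3, 0)) := nr_fam hB ⟨i3, in_zero⟩ (by simp [dt, e2])
  have hd' : dt v ((1 / 3 : ℚ) • w) ≠ 0 := by
    rw [dt_sr]
    exact mul_ne_zero (by norm_num) hd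
  have s1 := chain hB hI D x y hd io_e1 io_e2 un_e n1 n2 n1 n4
  have s2 := chain hB hI D x y hd' io_e1 io_e2 un_e n1 n2 n3 n2
  rw [ii_jc, cv_e1, cv_e2] at s1 s2
  set X : Fin (m + 1) → V := fam m v w with hX
  set Y : Fin (m + 1) → V := fam m w ((3 : ℚ) • v) with hY
  have e1' : JC Z v w x y (fam m e1 e2) (fam m e2 (3, 0)) = JJ Z X Y x y := by
    rw [JC, cv_fam, cv_fam, cv_e1, cv_e2]
    simp [cv, hX, hY]
  have e2' : JC Z v ((1 / 3 : ℚ) • w) x y (fam m e1 (0, 3)) (fam m e2 e1) =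
      JJ Z X (fun b => (1 / 3 : ℚ) • Y b) x y := by
    rw [JC, cv_fam, cv_fam, cv_e1, cv_e2]
    congr 1
    · simp [cv, hX, smul_smul]
    · funext b
      simp only [hY, fam]
      module
  rw [e1'] at s1
  rw [e2'] at s2
  have pX : Pw X := by
    have := pw_cv hd n1.1
    rwa [cv_fam, cv_e1, cv_e2] at this
  have pY : Pw Y := by
    have := pw_cv hd n4.1
    rw [cv_fam, cv_e2] at this
    simpa [cv, hY] using this
  have dXY : ∀ a b, dt (X a) (Y b) ≠ 0 := by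
    intro a b
    have e : dt (X a) (Y b) = (1 + 3 * (-(9 * ((a : ℕ) : ℚ) * (b : ℕ)))) * dt v w := by
      simp only [hX, hY, fam, dt, Prod.fst_add, Prod.snd_add, Prod.smul_fst, Prod.smul_snd,
        smul_eq_mul]
      ring
    rw [e]
    refine mul_ne_zero (un_ne hB (hB.unAdd _ _ un_one (in_neg hB (in_mul hB (in_mul hB ?_
      (in_nat hB a)) (in_nat hB b))))) hd
    exact in_of _ (in_pow3 hB 2) (by norm_num)
  have gXY : ∀ a b, G (X a) (Y b) (X a) (Y b) = G v w (X a) (Y b) := by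
    intro a b
    have := D.r0 (X a) (Y b) v w 1 1 (3 * ((a : ℕ) : ℚ)) (3 * ((b : ℕ) : ℚ)) un_one un_one
      (in_mul hB i3 (in_nat hB a)) (in_mul hB i3 (in_nat hB b))
    simp only at this
    rw [← this]
    congr 1
    · simp only [hX, fam]
      module
    · simp only [hY, fam]
      module
  have gs : G v w x y = ∑ a, ∑ b, wt X a x * wt Y b y * G (X a) (Y b) (X a) (Y b) := by
    rw [← wt_int pX (D.p1 v w y) x]
    refine Finset.sum_congr rfl fun a _ => ?_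
    rw [← wt_int pY (D.p2 v w (X a)) y, Finset.mul_sum]
    refine Finset.sum_congr rfl fun b _ => ?_
    rw [gXY]
    ring
  have s3 : Nul fun j => G v w x y -
      (JJ Z X (fun b => (1 / 3 : ℚ) • Y b) x y j - JJ Z X Y x y j) := by
    refine nul_of (nul_sum hB Finset.univ fun a => nul_sum hB Finset.univ fun b =>
      nul_mul hB (wt X a x * wt Y b y * dt (X a) (Y b) ^ m)
        (nul_base fun j => D.cob j (X a) (Y b))) fun j => ?_
    rw [gs, JJ, JJ]
    simp only [← Finset.sum_sub_distrib]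
    refine Finset.sum_congr rfl fun a _ => Finset.sum_congr rfl fun b _ => ?_
    have e3 : dt (X a) (Y b) ^ m * (dt (X a) (Y b))⁻¹ ^ m = 1 := by
      rw [← mul_pow, mul_inv_cancel₀ (dXY a b), one_pow]
    have e4 := wt_smul Y b y (1 / 3) (by norm_num)
    rw [smul_smul, show (3 : ℚ) * (1 / 3) = 1 by norm_num, one_smul, dt_sr, mul_pow]
    linear_combination (-(wt X a x * wt Y b y * G (X a) (Y b) (X a) (Y b))) * e3 -
      (wt X a x * dt (X a) (Y b) ^ m * Z j (X a) (Y b)) * e4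
  exact nul_of (nul_add hB (nul_sub hB s3 s2) s1) fun j => by ring

theorem red_val (hB : RowBAS) (j : ℕ) (a : ZMod (3 ^ j)) : red (3 ^ j) (a.val : ℚ) = a := by
  have := hB.redInt j (a.val : ℤ)
  simpa using this

theorem red_sub (hB : RowBAS) (j : ℕ) {x y : ℚ} (hx : In x) (hy : In y) :
    red (3 ^ j) (x - y) = red (3 ^ j) x - red (3 ^ j) y := by
  have := hB.redAdd j (x - y) y (in_sub hB hx hy) hy
  rw [sub_add_cancel] at this
  rw [this, add_sub_cancel_right]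

end VIA

open VIA FORMA in
theorem rowVI : OfVI := by
  intro hB hI m e B hBD hR hIn hz
  choose z hSL hz using hz
  set Z : V → V → ℕ → V → V → ℚ := fun c c' j v w => ((z j c c' v w).val : ℚ) with hZ
  have iZ : ∀ c c' j v w, In (Z c c' j v w) := fun c c' j v w => in_nat hB _
  have D : ∀ c c', Dat m (fun v w x y => 3 ^ e * B c c' v w x y) (Z c c') := by
    intro c c'
    refine ⟨fun x y v w a b s t h1 h2 h3 h4 => ?_, fun v w y => ?_, fun v w x => ?_,
      fun j => ?_, fun j v w => ?_⟩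
    · exact congrArg _ (hR c c' x y v w a b s t h1 h2 h3 h4)
    · simpa only [mul_comm] using hp_mul (m := m) (3 ^ e) (hBD.p1 c c' v w y)
    · simpa only [mul_comm] using hp_mul (m := m) (3 ^ e) (hBD.p2 c c' v w x)
    · obtain ⟨n, h1, h2⟩ := (hSL j).2
      refine ⟨n, h1, fun v w a b s t h3 h4 h5 h6 => ?_⟩
      simp only [hZ]
      rw [h2 c c' v w a b s t h3 h4 h5 h6]
    · have h1 := congrFun (congrFun (congrFun (congrFun (hz j) c) c') v) w
      have h2 := hIn c c' v w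
      have h3 := in_sub hB (iZ c c' j v w) (iZ c c' j v ((3 : ℚ) • w))
      have h4 := (hB.redZero j _ (in_sub hB h2 h3)).1 (by
        rw [red_sub hB j h2 h3, red_sub hB j (iZ _ _ _ _ _) (iZ _ _ _ _ _), h1]
        simp only [hZ, red_val hB, Pi.sub_apply, tt, sub_self])
      refine in_of _ h4 ?_
      simp only [ph, Nat.add_sub_cancel, smul_eq_mul]
      ring
  have Z0 : ∀ c c' j v w, dt v w = 0 → Z c c' j v w = 0 := by
    intro c c' j v w h
    simp only [hZ]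
    rw [(hSL j).1.junk c c' v w (Or.inr (Or.inr h))]
    simp
  refine ⟨fun j c c' v w x y => II m (Z c c') v w x y j, ?_, ?_, ?_, ?_, ?_, ?_, ?_⟩
  · intro j c c' v w y
    unfold II JJ
    refine INTA.hsum _ _ fun a _ => INTA.hsum _ _ fun b _ => ?_
    simpa only [mul_assoc] using wt_hp (fam m v w) a _
  · intro j c c' v w x
    unfold II JJ
    refine INTA.hsum _ _ fun a _ => INTA.hsum _ _ fun b _ => ?_
    simpa only [mul_assoc, mul_left_comm (wt (fam m v w) a x)] using wt_hp (fam m w v) b _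
  · intro c l v w x y hc hl
    refine nul_of nul_zero fun j => ?_
    unfold II JJ
    refine Finset.sum_eq_zero fun a _ => Finset.sum_eq_zero fun b _ => ?_
    have := ((hSL j).1.ad (fam m v w a) ((3 : ℚ) • fam m w v b)).hom c l hc hl
    simp only [hZ]
    rw [this]
    simp
  · intro c c' c'' v w x y h1 h2 h3
    refine nul_of (nul_sum hB Finset.univ fun a => nul_sum hB Finset.univ fun b =>
      nul_mul hB (wt (fam m v w) a x * wt (fam m w v) b y * dt (fam m v w a) (fam m w v b) ^ m)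
        (nul_base (s := fun j => Z c c' j (fam m v w a) ((3 : ℚ) • fam m w v b) +
          Z c' c'' j (fam m v w a) ((3 : ℚ) • fam m w v b) -
          Z c c'' j (fam m v w a) ((3 : ℚ) • fam m w v b)) fun j => ?_)) fun j => ?_
    · have := ((hSL j).1.ad (fam m v w a) ((3 : ℚ) • fam m w v b)).add c c' c'' h1 h2 h3
      have i1 := in_add hB (iZ c c' j (fam m v w a) ((3 : ℚ) • fam m w v b))
        (iZ c' c'' j (fam m v w a) ((3 : ℚ) • fam m w v b))
      refine (hB.redZero j _ (in_sub hB i1 (iZ _ _ _ _ _))).1 ?_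
      rw [red_sub hB j i1 (iZ _ _ _ _ _), hB.redAdd j _ _ (iZ _ _ _ _ _) (iZ _ _ _ _ _)]
      simp only [hZ, red_val hB, this, sub_self]
    · simp only [II, JJ, ← Finset.sum_add_distrib, ← Finset.sum_sub_distrib]
      exact Finset.sum_congr rfl fun a _ => Finset.sum_congr rfl fun b _ => by ring
  · intro g a hg c c' v w x y
    have h0 : (det g : ℚ) ≠ 0 := by rw [hg]; positivity
    have e1 : ∀ v w : V, fam m (ap g v) (ap g w) = fun b => ap g (fam m v w b) := by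
      intro v w
      funext b
      simp only [fam, ap, Prod.fst_add, Prod.snd_add, Prod.smul_fst, Prod.smul_snd, smul_eq_mul,
        Prod.smul_mk, Prod.mk_add_mk, Prod.mk.injEq]
      constructor <;> ring
    refine nul_of nul_zero fun j => ?_
    rw [sub_eq_zero]
    simp only [II, JJ, Finset.mul_sum, e1, wt_ap _ _ _ g h0, dt_ap, mul_pow]
    refine Finset.sum_congr rfl fun s _ => Finset.sum_congr rfl fun t _ => ?_
    have := congrFun (congrFun (congrFun (congrFun ((hSL j).1.inv g a hg) c) c') (fam m v w s))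
      ((3 : ℚ) • fam m w v t)
    simp only [lf, ap_smul] at this
    simp only [hZ, this]
    ring
  · intro c c' v w x y p q r s h1 h2 h3 h4 h5
    exact ii_lat hB hI (D c c') (Z0 c c') v w x y (u := (p, q)) (u' := (r, s)) ⟨h1, h2⟩ ⟨h3, h4⟩ h5
  · intro c c' v w x y
    by_cases hd : dt v w = 0
    · refine nul_of nul_zero fun j => ?_
      rw [ii_zero (Z0 c c') x y hd, ii_zero (Z0 c c') x y (by rw [dt_sr, hd, mul_zero]),
        hBD.junk c c' v w x y (Or.inr (Or.inr hd))]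
      ring
    · exact ii_cob hB hI (D c c') v w x y hd

end

end Pool.Agent.MP_5f72fe_nt.MS
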