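import Pool.Agent.MP_5f72fe_nt.H25.SpecP

/-! A form whose period polynomial is a boundary vanishes. -/

namespace Pool.Agent.MP_5f72fe_nt.MS

noncomputable section

namespace BDYA

/-- the boundary symbol -/
def be (m : ℕ) (a b : ℂ) (c x : V) : ℂ :=
  if c.2 = 0 then -b * (x.2 : ℂ) ^ (2 * m) else
    (if 3 ∣ (c.1 / c.2).den then -b else a) *
      (((c.1 / c.2).num : ℂ) * x.2 - ((c.1 / c.2).den : ℂ) * x.1) ^ (2 * m)

theorem be_smul (m : ℕ) (a b : ℂ) (c x : V) {l : ℚ} (hl : l ≠ 0) :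
    be m a b (l • c) x = be m a b c x := by
  have h1 : (l • c).1 / (l • c).2 = c.1 / c.2 := mul_div_mul_left _ _ hl
  have h2 : (l • c).2 = 0 ↔ c.2 = 0 := by simp [hl]
  unfold be
  rw [h1, if_congr h2 rfl rfl]

theorem be_pos (m : ℕ) (a b : ℂ) (x : V) {p r : ℤ} (hr : 0 < r) (h : IsCoprime p r) :
    be m a b (p, r) x = (if 3 ∣ r then -b else a) * ((p : ℂ) * x.2 - (r : ℂ) * x.1) ^ (2 * m) := by
  have hc : Nat.Coprime p.natAbs r.natAbs := Int.isCoprime_iff_gcd_eq_one.1 h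
  have h1 := Rat.num_div_eq_of_coprime hr hc
  have h2 := Rat.den_div_eq_of_coprime hr hc
  have h3 : (r : ℚ) ≠ 0 := Int.cast_ne_zero.2 hr.ne'
  have h4 : 3 ∣ ((p : ℚ) / r).den ↔ 3 ∣ r := by
    rw [← Int.natCast_dvd_natCast, h2]
    rfl
  have h5 : ((((p : ℚ) / r).den : ℕ) : ℂ) = r := by
    rw [← Int.cast_natCast, h2]
  unfold be
  rw [if_neg h3, if_congr h4 rfl rfl, h1, h5]

theorem be_int (m : ℕ) (a b : ℂ) (x : V) {p r : ℤ} (h : IsCoprime p r) :
    be m a b (p, r) x = (if 3 ∣ r then -b else a) * ((p : ℂ) * x.2 - (r : ℂ) * x.1) ^ (2 * m) := by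
  rcases lt_trichotomy r 0 with hr | rfl | hr
  · have h1 := be_pos m a b x (neg_pos.2 hr) h.neg_neg
    have h2 : (((-p : ℤ) : ℚ), ((-r : ℤ) : ℚ)) = (-1 : ℚ) • ((p : ℚ), (r : ℚ)) := by simp
    rw [h2, be_smul _ _ _ _ _ (by norm_num)] at h1
    rw [h1, if_congr dvd_neg rfl rfl, pow_mul, pow_mul]
    push_cast
    ring
  · have hp : (p : ℂ) ^ 2 = 1 := by
      rcases Int.isUnit_iff.1 (isCoprime_zero_right.1 h) with rfl | rfl <;> simp
    unfold be
    rw [if_pos (by simp), if_pos (dvd_zero _), Int.cast_zero, zero_mul, sub_zero, mul_pow,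
      pow_mul (p : ℂ), hp, one_pow, one_mul]
  · exact be_pos m a b x hr h

theorem ad_smul {A : Type} [AddCommGroup A] {f : V → V → A} (h : Ad f) {c c' : V} {l : ℚ}
    (hc : c ≠ 0) (hc' : c' ≠ 0) (hl : l ≠ 0) : f (l • c) c' = f c c' := by
  have h1 := h.add c (l • c) c' hc (smul_ne_zero hl hc) hc'
  rwa [h.hom c l hc hl, zero_add] at h1

theorem e1_ne : e1 ≠ 0 := by simp [e1]

theorem e2_ne : e2 ≠ 0 := by simp [e2]

theorem apN (x : V) : ap mN x = (-x.1, x.2) := by simp [ap, mN]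

theorem apN_ne {c : V} (hc : c ≠ 0) : ap mN c ≠ 0 := by
  rw [apN]
  intro h
  rw [Prod.mk_eq_zero, neg_eq_zero] at h
  exact hc (Prod.ext h.1 h.2)

theorem apN_smul (l : ℚ) (c : V) : ap mN (l • c) = l • ap mN c := by simp [apN]

theorem apN_e1 : ap mN e1 = (-1 : ℚ) • e1 := by simp [apN, e1]

theorem apN_e2 : ap mN e2 = e2 := by simp [apN, e2]

theorem apN_ap (g : Mt) (x : V) :
    ap mN (ap g x) = ap (g.1, -g.2.1, -g.2.2.1, g.2.2.2) (ap mN x) := by
  rw [apN, apN]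
  simp only [ap, Int.cast_neg]
  exact Prod.ext (by ring) (by ring)

theorem ap_adj {g : Mt} (hg : det g = 1) (x : V) : ap g (ap (adj g) x) = x := by
  have h : (g.1 : ℚ) * g.2.2.2 - g.2.1 * g.2.2.1 = 1 := by exact_mod_cast hg
  simp only [ap, adj, Int.cast_neg]
  exact Prod.ext (by linear_combination x.1 * h) (by linear_combination x.2 * h)

/-- the difference of the periods and the boundary symbol -/
def sig (m : ℕ) (h : ℂ → ℂ) (η a b : ℂ) (c c' : V) : V → ℂ := fun x =>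
  Per (m + 1) h x x c c' + η * Per (m + 1) h (ap mN x) (ap mN x) (ap mN c) (ap mN c') -
    (be m a b c' x - be m a b c x)

theorem sig_ad (hC : RowCU) (m : ℕ) (h : ℂ → ℂ) (η a b : ℂ) : Ad (sig m h η a b) := by
  constructor
  · intro c l hc hl
    funext x
    rw [sig, apN_smul, (hC.perAd _ _ _ _).hom c l hc hl, (hC.perAd _ _ _ _).hom _ l (apN_ne hc) hl,
      be_smul _ _ _ _ _ hl]
    simp
  · intro c c' c'' hc hc' hc''
    funext x
    have h1 := (hC.perAd (m + 1) h x x).add c c' c'' hc hc' hc''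
    have h2 := (hC.perAd (m + 1) h (ap mN x) (ap mN x)).add _ _ _ (apN_ne hc) (apN_ne hc')
      (apN_ne hc'')
    simp only [Pi.add_apply, sig]
    linear_combination h1 + η * h2

theorem per_inv (hP : RowPER) {m : ℕ} {h : ℂ → ℂ} (hh : Cu (m + 1) h) {g : Mt} (hg : det g = 1)
    (hi : sl (m + 1) g h = h) (x : V) {c c' : V} (hc : c ≠ 0) (hc' : c' ≠ 0) :
    Per (m + 1) h (ap g x) (ap g x) (ap g c) (ap g c') = Per (m + 1) h x x c c' := by
  rw [hP (m + 1) g h x x c c' (Nat.le_add_left 1 m) (by rw [hg]; exact one_pos) hh hc hc', hi, hg]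
  simp

theorem be_inv (m : ℕ) (a b : ℂ) {g : Mt} (hg : det g = 1) (h3 : 3 ∣ g.2.2.1) (x : V) :
    be m a b (ap g e2) (ap g x) - be m a b (ap g e1) (ap g x) =
      a * (x.1 : ℂ) ^ (2 * m) + b * (x.2 : ℂ) ^ (2 * m) := by
  obtain ⟨p, q, r, s⟩ := g
  have hd : p * s - q * r = 1 := hg
  have hc : (p : ℂ) * s - q * r = 1 := by exact_mod_cast hd
  have h1 : ap (p, q, r, s) e1 = ((p : ℚ), (r : ℚ)) := by simp [ap, e1]
  have h2 : ap (p, q, r, s) e2 = ((q : ℚ), (s : ℚ)) := by simp [ap, e2]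
  have c1 : IsCoprime p r := ⟨s, -q, by linear_combination hd⟩
  have c2 : IsCoprime q s := ⟨-r, p, by linear_combination hd⟩
  have hs : ¬ 3 ∣ s := by
    intro h
    have : (3 : ℤ) ∣ p * s - q * r := (h.mul_left p).sub (Dvd.dvd.mul_left h3 q)
    rw [hd] at this
    norm_num at this
  have u1 : (p : ℂ) * (ap (p, q, r, s) x).2 - (r : ℂ) * (ap (p, q, r, s) x).1 = x.2 := by
    simp only [ap]
    push_cast
    linear_combination (x.2 : ℂ) * hc
  have u2 : (q : ℂ) * (ap (p, q, r, s) x).2 - (s : ℂ) * (ap (p, q, r, s) x).1 = -x.1 := by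
    simp only [ap]
    push_cast
    linear_combination (-x.1 : ℂ) * hc
  rw [h1, h2, be_int _ _ _ _ c1, be_int _ _ _ _ c2, if_pos h3, if_neg hs, u1, u2,
    (even_two_mul m).neg_pow]
  ring

end BDYA

open BDYA in
theorem rowBDY : OfBDY := by
  intro hC hP hI hJ m h η a b hm hh hi hr
  have h0 : ∀ g : Mt, det g = 1 → 3 ∣ g.2.2.1 →
      sig m h η a b (ap g e1) (ap g e2) ∈ (⊥ : AddSubgroup (V → ℂ)) := by
    intro g hg h3
    rw [AddSubgroup.mem_bot]
    funext x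
    have hg' : det (g.1, -g.2.1, -g.2.2.1, g.2.2.2) = 1 := by
      rw [← hg]
      simp [det]
    have h1 := hr (ap (adj g) x)
    rw [← ap_adj hg x, sig, be_inv m a b hg h3, per_inv hP hh hg (hi g hg h3) _ e1_ne e2_ne,
      apN_ap g, apN_ap g, apN_ap g,
      per_inv hP hh hg' (hi _ hg' (dvd_neg.2 h3)) _ (apN_ne e1_ne) (apN_ne e2_ne), apN_e1, apN_e2,
      ad_smul (hC.perAd _ _ _ _) e1_ne e2_ne (by norm_num)]
    exact sub_eq_zero.2 h1
  have hg : Cg (m + 1) h := ⟨1, fun g hg _ _ h3 _ => hi g hg (by simpa using h3)⟩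
  refine hJ (m + 1) h h η b (by omega) hh hh hg hg fun q => ?_
  have hq : ((q, 1) : V) ≠ 0 := by simp
  have hq' : ((-q, 1) : V) ≠ 0 := by simp
  have h1 := congrFun (AddSubgroup.mem_bot.1
    (hI _ _ _ (sig_ad hC m h η a b) h0 e1 (q, 1) e1_ne hq)) (q, 1)
  have b1 : be m a b e1 (q, 1) = -b := by simp [be, e1]
  have b2 : be m a b (q, 1) (q, 1) = 0 := by
    have e : ((q.num : ℤ) : ℂ) - (q.den : ℂ) * q = 0 := by
      rw [sub_eq_zero]
      exact_mod_cast (Rat.den_mul_eq_num q).symm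
    simp only [be, one_ne_zero, if_false, div_one, Rat.cast_one, mul_one]
    rw [e, zero_pow (by omega), mul_zero]
  rw [sig, b1, b2, apN_e1, apN, ad_smul (hC.perAd _ _ _ _) e1_ne hq' (by norm_num)] at h1
  rw [Pi.zero_apply] at h1
  linear_combination h1

end

end Pool.Agent.MP_5f72fe_nt.MS
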