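import Pool.Agent.MP_5f72fe_nt.H25.SpecP

/-! Even period polynomials come from cusp forms of level one. -/

namespace Pool.Agent.MP_5f72fe_nt.MS

open Complex
open scoped UpperHalfPlane MatrixGroups

noncomputable section

namespace ESA

theorem mono {K : Type} [AddCommGroup K] [Module ℚ K] (m n : ℕ) (hn : n ≤ m) (c : K) :
    Hp m fun x : V => (x.1 ^ n * x.2 ^ (m - n)) • c := by
  refine ⟨fun i => if i = n then c else 0, fun x => ?_⟩
  rw [Finset.sum_eq_single n]
  · simp
  · intro i _ hi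
    simp [hi]
  · intro h
    exact absurd (Finset.mem_range.mpr (by omega)) h

/-- the diagonal of a function that is homogeneous in each variable -/
theorem diag (IN : RowINT) {K : Type} [AddCommGroup K] [Module ℚ K] (m : ℕ) (B : V → V → K)
    (h1 : ∀ y, Hp m fun x => B x y) (h2 : ∀ x, Hp m fun y => B x y) :
    Hp (2 * m) fun x => B x x := by
  obtain ⟨M, hM⟩ := IN.sub K m
  obtain ⟨M2, hM2⟩ := IN.sub K (2 * m)
  choose β hβ using h1
  beta_reduce at hβ
  set A : Matrix (Fin (m + 1)) (Fin (m + 1)) ℚ :=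
    Matrix.vandermonde fun a : Fin (m + 1) => ((a : ℕ) : ℚ) with hA
  have hdet : IsUnit A.det := by
    rw [isUnit_iff_ne_zero, hA, Matrix.det_vandermonde_ne_zero_iff]
    intro a b hab
    have hab' : ((a : ℕ) : ℚ) = ((b : ℕ) : ℚ) := hab
    exact Fin.ext (by exact_mod_cast hab')
  have hinv : A⁻¹ * A = 1 := Matrix.nonsing_inv_mul A hdet
  have hb : ∀ j : Fin (m + 1), Hp m fun y => β y j := by
    intro j
    have e : (fun y => β y j) = ∑ a : Fin (m + 1), A⁻¹ j a • fun y => B (((a : ℕ) : ℚ), 1) y := by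
      funext y
      rw [Finset.sum_apply]
      simp only [Pi.smul_apply]
      have e1 : ∀ a : Fin (m + 1), B (((a : ℕ) : ℚ), 1) y = ∑ i : Fin (m + 1), A a i • β y i := by
        intro a
        rw [hβ y, Finset.sum_range]
        simp [hA]
      simp only [e1, Finset.smul_sum, smul_smul]
      rw [Finset.sum_comm]
      simp only [← Finset.sum_smul, ← Matrix.mul_apply, hinv]
      rw [Finset.sum_eq_single j]
      · simp
      · intro i _ hi
        simp [Matrix.one_apply_ne hi.symm]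
      · simp
    rw [e, ← hM]
    exact M.sum_mem fun a _ => M.smul_mem _ ((hM _).mpr (h2 _))
  choose γ hγ using hb
  beta_reduce at hγ
  have e : (fun x => B x x) = ∑ j : Fin (m + 1), ∑ i ∈ Finset.range (m + 1),
      fun x : V => (x.1 ^ ((j : ℕ) + i) * x.2 ^ (2 * m - ((j : ℕ) + i))) • γ j i := by
    funext x
    rw [hβ x x, Finset.sum_range, Finset.sum_apply]
    refine Finset.sum_congr rfl fun j _ => ?_
    rw [hγ j x, Finset.smul_sum, Finset.sum_apply]
    refine Finset.sum_congr rfl fun i hi => ?_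
    have hi' := Finset.mem_range.mp hi
    have hj := j.2
    rw [smul_smul, show 2 * m - ((j : ℕ) + i) = (m - j) + (m - i) by omega, pow_add, pow_add]
    congr 1
    ring
  rw [e, ← hM2]
  refine M2.sum_mem fun j _ => M2.sum_mem fun i hi => (hM2 _).mpr (mono _ _ ?_ _)
  have hi' := Finset.mem_range.mp hi
  have hj := j.2
  omega

theorem NN (x : V) : ap mN (ap mN x) = x := by simp [ap, mN]

theorem wrN (P : V → ℂ) (h : WR P) : WR fun x => P (ap mN x) := by
  refine ⟨fun x => ?_, fun x => ?_⟩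
  · have a := h.1 (ap mN (ap mS x))
    have e : ap mS (ap mN (ap mS x)) = ap mN x := by simp [ap, mN, mS]
    rw [e] at a
    linear_combination a
  · have a := h.2 (ap mN (ap (adj mT) x))
    have b := h.1 (ap (adj mU) (ap mN (ap (adj mT) x)))
    have e1 : ap (adj mT) (ap mN (ap (adj mT) x)) = ap mN x := by simp [ap, mN, mT, adj]
    have e2 : ap mS (ap (adj mU) (ap mN (ap (adj mT) x))) = ap mN (ap (adj mU) x) := by
      simp [ap, mN, mT, mU, mS, adj, add_comm]
    rw [e1] at a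
    rw [e2] at b
    linear_combination -a - b

/-- the space of period polynomials -/
def W (m : ℕ) : Submodule ℂ (V → ℂ) where
  carrier := {P | Hp (2 * m) P ∧ WR P}
  zero_mem' := ⟨⟨0, fun x => by simp⟩, fun x => by simp, fun x => by simp⟩
  add_mem' := by
    rintro P Q ⟨⟨β, hβ⟩, p1, p2⟩ ⟨⟨γ, hγ⟩, q1, q2⟩
    refine ⟨⟨β + γ, fun x => ?_⟩, fun x => ?_, fun x => ?_⟩
    · simp [hβ, hγ, Finset.sum_add_distrib]
    · simp only [Pi.add_apply]
      linear_combination p1 x + q1 x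
    · simp only [Pi.add_apply]
      linear_combination p2 x + q2 x
  smul_mem' := by
    rintro c P ⟨⟨β, hβ⟩, p1, p2⟩
    refine ⟨⟨c • β, fun x => ?_⟩, fun x => ?_, fun x => ?_⟩
    · simp [hβ, Finset.mul_sum]
    · simp only [Pi.smul_apply, smul_eq_mul]
      linear_combination c * p1 x
    · simp only [Pi.smul_apply, smul_eq_mul]
      linear_combination c * p2 x

theorem wN (IN : RowINT) (m : ℕ) (P : V → ℂ) (h : P ∈ W m) : (fun x => P (ap mN x)) ∈ W m :=
  ⟨(IN.hom ℂ _ P h.1).2.2 mN, wrN P h.2⟩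

theorem perW (IN : RowINT) (CU : RowCU) (PER : RowPER) (m : ℕ) (h : ℂ → ℂ) (hc : Cu (m + 1) h)
    (hi : ∀ g : Mt, det g = 1 → sl (m + 1) g h = h) :
    (fun x => Per (m + 1) h x x e1 e2) ∈ W m := by
  have n1 : e1 ≠ 0 := by simp [e1]
  have n2 : e2 ≠ 0 := by simp [e2]
  have T : ∀ (g : Mt) (x c c' : V), det g = 1 → c ≠ 0 → c' ≠ 0 →
      Per (m + 1) h (ap g x) (ap g x) (ap g c) (ap g c') = Per (m + 1) h x x c c' := by
    intro g x c c' hg h1 h2
    rw [PER (m + 1) g h x x c c' (by omega) (by omega) hc h1 h2, hi g hg, hg]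
    simp
  refine ⟨?_, fun x => ?_, fun x => ?_⟩
  · refine diag IN m (fun x y => Per (m + 1) h x y e1 e2) (fun y => ?_) fun x => ?_
    · exact (CU.perPol (m + 1) h e1 e2 y hc).1
    · have := (CU.perPol (m + 1) h e1 e2 x hc).1
      have e : (fun y => Per (m + 1) h x y e1 e2) = fun y => Per (m + 1) h y x e1 e2 :=
        funext fun y => ((CU.perPol (m + 1) h e1 e2 x hc).2 y).symm
      rw [e]
      exact this
  · have a := T mS x (0, -1) e1 (by simp [det, mS]) (by simp) n1
    have a1 : ap mS (0, -1) = e1 := by simp [ap, mS, e1]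
    have a2 : ap mS e1 = e2 := by simp [ap, mS, e1, e2]
    rw [a1, a2] at a
    show Per (m + 1) h x x e1 e2 + Per (m + 1) h (ap mS x) (ap mS x) e1 e2 = 0
    rw [a]
    simp [Per, Pc, e1, e2]
  · have a := T mT (ap (adj mT) x) e1 e2 (by simp [det, mT]) n1 n2
    have b := T mU (ap (adj mU) x) e1 e2 (by simp [det, mU]) n1 n2
    have a0 : ap mT (ap (adj mT) x) = x := by simp [ap, mT, adj]
    have b0 : ap mU (ap (adj mU) x) = x := by simp [ap, mU, adj]
    have a1 : ap mT e1 = e1 := by simp [ap, mT, e1]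
    have a2 : ap mT e2 = (1, 1) := by simp [ap, mT, e2]
    have b1 : ap mU e1 = (1, 1) := by simp [ap, mU, e1]
    have b2 : ap mU e2 = e2 := by simp [ap, mU, e2]
    rw [a0, a1, a2] at a
    rw [b0, b1, b2] at b
    show Per (m + 1) h x x e1 e2 = Per (m + 1) h (ap (adj mT) x) (ap (adj mT) x) e1 e2 +
      Per (m + 1) h (ap (adj mU) x) (ap (adj mU) x) e1 e2
    rw [← a, ← b]
    simp only [Per]
    ring

theorem rpW (IN : RowINT) (CU : RowCU) (PER : RowPER) (m : ℕ) (h : ℂ → ℂ) (hc : Cu (m + 1) h)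
    (hi : ∀ g : Mt, det g = 1 → sl (m + 1) g h = h) (η : ℂ) : rp (m + 1) h η ∈ W m :=
  (W m).add_mem (perW IN CU PER m h hc hi)
    ((W m).smul_mem η (wN IN m _ (perW IN CU PER m h hc hi)))

/-- the boundary polynomial -/
def E (m : ℕ) : V → ℂ := fun x => (x.1 : ℂ) ^ (2 * m) - (x.2 : ℂ) ^ (2 * m)

theorem EN (m : ℕ) (x : V) : E m (ap mN x) = E m x := by
  simp [E, ap, mN]

theorem EW (IN : RowINT) (m : ℕ) : E m ∈ W m := by
  obtain ⟨M, hM⟩ := IN.sub ℂ (2 * m)
  refine ⟨?_, fun x => ?_, fun x => ?_⟩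
  · have e : E m = (fun x : V => (x.1 ^ (2 * m) * x.2 ^ (2 * m - 2 * m)) • (1 : ℂ)) -
        fun x : V => (x.1 ^ 0 * x.2 ^ (2 * m - 0)) • (1 : ℂ) := by
      funext x
      simp [E, Rat.smul_def]
    rw [e, ← hM]
    exact M.sub_mem ((hM _).mpr (mono _ _ le_rfl _)) ((hM _).mpr (mono _ _ (Nat.zero_le _) _))
  · simp [E, ap, mS]
  · have e : ((x.1 : ℂ) + -x.2) ^ (2 * m) = (-(x.1 : ℂ) + x.2) ^ (2 * m) := by
      rw [pow_mul, pow_mul]
      congr 1
      ring
    simp [E, ap, mT, mU, adj, e]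

theorem fc_add (k : ℕ) (f g : C1 k) : fc (f + g) = fc f + fc g := by
  funext z
  simp only [fc, Pi.add_apply]
  split_ifs
  · rfl
  · simp

theorem fc_smul (k : ℕ) (a : ℂ) (f : C1 k) : fc (a • f) = a • fc f := by
  funext z
  simp only [fc, Pi.smul_apply]
  split_ifs
  · rfl
  · simp

theorem fc_zero (k : ℕ) (f : C1 k) (h : fc f = 0) : f = 0 := by
  ext z
  have := congrFun h z
  simp only [fc, z.coe_im, z.im_pos, dif_pos] at this
  exact this

/-- the period polynomial as a linear map -/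
def R (CU : RowCU) (CUF : RowCUF) (m : ℕ) (η : ℂ) : C1 (m + 1) →ₗ[ℂ] (V → ℂ) where
  toFun g := rp (m + 1) (fc g) η
  map_add' f g := by
    funext x
    have hf := (CUF 0 (m + 1) f (by omega)).1
    have hg := (CUF 0 (m + 1) g (by omega)).1
    have e : fc (⇑(f + g)) = fc f + fc g := fc_add _ f g
    simp only [rp, e, Pi.add_apply, (CU.perLin (m + 1) _ _ _ _ _ _ 1 hf hg).1]
    ring
  map_smul' a f := by
    funext x
    have hf := (CUF 0 (m + 1) f (by omega)).1
    have e : fc (⇑(a • f)) = a • fc f := fc_smul _ a f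
    simp only [rp, e, Pi.smul_apply, (CU.perLin (m + 1) _ _ _ _ _ _ a hf hf).2, smul_eq_mul,
      RingHom.id_apply]
    ring

theorem rpN (k : ℕ) (h : ℂ → ℂ) (x : V) :
    rp k h 1 (ap mN x) = rp k h 1 x ∧ rp k h (-1) (ap mN x) = -rp k h (-1) x := by
  simp only [rp, NN]
  constructor <;> ring

end ESA

open ESA in
theorem rowES : OfES := by
  intro IN CU PER CUF ESD BDY m P hm hP hW hN
  obtain ⟨hfin, hdim⟩ := ESD m hm
  let Φ : (C1 (m + 1) × C1 (m + 1) × ℂ) →ₗ[ℂ] (V → ℂ) :=
    (R CU CUF m 1).coprod ((R CU CUF m (-1)).coprod (LinearMap.toSpanSingleton ℂ _ (E m)))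
  have hΦ : ∀ (g g' : C1 (m + 1)) (c : ℂ) (x : V),
      Φ (g, g', c) x = rp (m + 1) (fc g) 1 x + (rp (m + 1) (fc g') (-1) x + c * E m x) :=
    fun g g' c x => rfl
  have cu : ∀ g : C1 (m + 1), Cu (m + 1) (fc g) := fun g => (CUF 0 (m + 1) g (by omega)).1
  have iv : ∀ (g : C1 (m + 1)) (γ : Mt), det γ = 1 → sl (m + 1) γ (fc g) = fc g :=
    fun g γ h => (CUF 0 (m + 1) g (by omega)).2.1 γ h (by simp)
  have hin : ∀ y, Φ y ∈ W m := by
    rintro ⟨g, g', c⟩
    exact (W m).add_mem (rpW IN CU PER m _ (cu g) (iv g) 1)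
      ((W m).add_mem (rpW IN CU PER m _ (cu g') (iv g') (-1)) ((W m).smul_mem c (EW IN m)))
  have hinj : LinearMap.ker Φ = ⊥ := by
    rw [LinearMap.ker_eq_bot']
    rintro ⟨g, g', c⟩ h0
    have a : ∀ x, rp (m + 1) (fc g) 1 x + (rp (m + 1) (fc g') (-1) x + c * E m x) = 0 :=
      fun x => (hΦ g g' c x).symm.trans (congrFun h0 x)
    have b : ∀ x, rp (m + 1) (fc g) 1 x + (-rp (m + 1) (fc g') (-1) x + c * E m x) = 0 := by
      intro x
      have := a (ap mN x)
      rwa [(rpN _ _ x).1, (rpN _ _ x).2, EN] at this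
    have p := BDY m (fc g) 1 (-c) c hm (cu g) (fun γ h _ => iv g γ h) fun x => by
      have a' := a x
      have b' := b x
      simp only [E] at a' b'
      linear_combination (1 / 2) * a' + (1 / 2) * b'
    have q := BDY m (fc g') (-1) 0 0 hm (cu g') (fun γ h _ => iv g' γ h) fun x => by
      linear_combination (1 / 2) * a x - (1 / 2) * b x
    rw [fc_zero _ g p.1, fc_zero _ g' q.1, p.2]
    rfl
  have hr : P ∈ LinearMap.range Φ := by
    by_contra hn
    let b := Module.finBasis ℂ (C1 (m + 1) × C1 (m + 1) × ℂ)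
    have li : LinearIndependent ℂ (Φ ∘ b) := b.linearIndependent.map' Φ hinj
    have ns : P ∉ Submodule.span ℂ (Set.range (Φ ∘ b)) := by
      intro h
      refine hn (Submodule.span_le.mpr ?_ h)
      rintro _ ⟨i, rfl⟩
      exact ⟨b i, rfl⟩
    have l2 : LinearIndependent ℂ (Fin.cons P (Φ ∘ b) : Fin _ → V → ℂ) :=
      linearIndependent_finCons.mpr ⟨li, ns⟩
    have := hdim _ _ l2 fun i => by
      refine Fin.cases ?_ (fun j => ?_) i
      · exact ⟨hP, hW⟩
      · exact hin (b j)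
    simp only [Module.finrank_prod, Module.finrank_self] at this
    omega
  obtain ⟨⟨g, g', c⟩, h⟩ := hr
  refine ⟨g, c, fun x => ?_⟩
  have a := (congrFun h x).symm.trans (hΦ g g' c x)
  have b := (congrFun h (ap mN x)).symm.trans (hΦ g g' c (ap mN x))
  rw [hN, (rpN _ _ x).1, (rpN _ _ x).2, EN] at b
  simp only [E] at a b
  linear_combination (1 / 2) * a + (1 / 2) * b

end

end Pool.Agent.MP_5f72fe_nt.MS
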