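import Pool.Agent.MP_5f72fe_nt.MS.S3
import Pool.Agent.MP_5f72fe_nt.MS.SOC

/-! One of four classes of twists has no vanishing central value. -/

namespace Pool.Agent.MP_5f72fe_nt.MS

open Complex Filter
open scoped NumberTheorySymbols

namespace FOURA

theorem big (k : ℕ) (a b : ℕ → ℂ) (C : ℝ) (h : a =O[atTop] fun n : ℕ => (n : ℝ) ^ (k : ℝ))
    (hb : ∀ n, ‖b n‖ ≤ C * ‖a n‖) : b =O[atTop] fun n : ℕ => (n : ℝ) ^ (k : ℝ) :=
  (Asymptotics.IsBigO.of_bound C (Eventually.of_forall hb)).trans h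

/-- a vanishing central value kills the functional -/
theorem van (hB : RowBAS) (hM : RowMELC) (k r N : ℕ) (F : Af) (b : ℕ → ℂ) (hk : 1 ≤ k)
    (h1 : Odd N) (h2 : Squarefree N) (h3 : ¬ 3 ∣ N) (hF : Aut k r F) (hR : R0 r F)
    (hq : QE (F e2 e1) b) (hb : b =O[atTop] fun n : ℕ => (n : ℝ) ^ (k : ℝ)) (h : ¬ CNe k N b) :
    ell N (sy k F) = 0 := by
  obtain ⟨L, l1, l2, l3⟩ := hM k N _ b hk h1 h2 (hF.cu e2 e1) hq hb
  have l4 := l3.1 (by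
    by_contra e
    exact h ⟨L, l1, l2, e⟩)
  have uN : Un N := by
    have := (hB.int N).2.2 (by exact_mod_cast h3)
    exact_mod_cast this
  have u1 : Un 1 := by
    have := (hB.int 1).2.2 (by decide)
    exact_mod_cast this
  have N0 : (N : ℚ) ≠ 0 := ((hB.un' _).1 uN).1
  have e : ∀ m : ℕ, sy k F e1 (m, N) (m, N) e1 =
      ((-(N : ℚ))⁻¹ ^ (k - 1)) • Per k (F e2 e1) (m, N) e1 e1 (m, N) := fun m => by
    have := hR e2 e1 N 1 m 0 uN u1 (by simp [In]) (by simp [In])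
    have e0 : F (m, N) e1 = F e2 e1 := by
      rw [← this]
      simp [e1, e2]
    simp only [sy, ph, sB, e0]
    rw [if_neg (by simp [e1, N0])]
    simp [dt, e1]
  simp only [ell, e, smul_comm _ ((-(N : ℚ))⁻¹ ^ (k - 1)), ← Finset.smul_sum]
  simp only [zsmul_eq_mul, l4, smul_zero]

theorem rect (hS : RowSOC) (hA : RowTHMA) (k r N N' : ℕ) (F : Af) (hk : 1 ≤ k) (hr : 1 ≤ r)
    (hF : Aut k r F) (h2 : Hk k 2 F) (h7 : Hk k 7 F) (g : G7 N) (g' : G5 N')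
    (e : ell N (sy k F) = 0) (e' : ell N' (sy k F) = 0) : Rect (-1) (r + 1) F := by
  have a := hA (-1) (-1) N k r (r + 1) F (Or.inr rfl) (Or.inr rfl) (hS.1 N g.1 g.2.1 g.2.2)
    (Nat.odd_iff.2 (by have := g.1; omega)) (by have := g.1; omega) (SOCA.jac N (Or.inl g.1)) hk hr
    le_rfl hF h2 h7 e
  have b := hA (-1) 1 N' k r (r + 1) F (Or.inr rfl) (Or.inl rfl) (hS.2 N' g'.1 g'.2.1 g'.2.2)
    (Nat.odd_iff.2 (by have := g'.1; omega)) (by have := g'.1; omega) (SOCA.jac N' (Or.inr g'.1)) hk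
    hr le_rfl hF h2 h7 e'
  intro v w α β c1 c2 c3 c4
  have s := congrArg₂ (· + ·) (a v w α β c1 c2 c3 c4) (b v w α β c1 c2 c3 c4)
  simp only [← Finset.sum_add_distrib, add_zero] at s
  have : (2 : ℂ) • ∑ i ∈ Finset.range (2 * (r + 1) + 1),
      (-1 : ℤ) ^ i • Rc F (3 ^ i / 3 ^ (r + 1)) v w α β = 0 := by
    rw [← s, Finset.smul_sum]
    refine Finset.sum_congr rfl fun i _ => ?_
    rw [← smul_add, smul_comm]
    congr 1
    simp only [Rc, Pi.add_apply, Pi.smul_apply]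
    push_cast
    module
  exact (smul_eq_zero.1 this).resolve_left two_ne_zero

theorem conv (k N : ℕ) (a : ℕ → ℂ)
    (h : CNe k N fun n => I * (√3 : ℝ) * (a n * J(n | 3))) (hN : N ≠ 0) : CNe k (3 * N) a := by
  obtain ⟨L, l1, l2, l3⟩ := h
  have c0 : (I * (√3 : ℝ) : ℂ) ≠ 0 := mul_ne_zero I_ne_zero (by simp)
  refine ⟨fun s => (I * (√3 : ℝ) : ℂ)⁻¹ * L s, l1.const_mul _, fun s hs => ?_,
    mul_ne_zero (inv_ne_zero c0) l3⟩
  refine Eq.mp (congrArg (fun g => LSeriesHasSum g s _) (funext fun m => ?_))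
    ((l2 s hs).smul (I * (√3 : ℝ) : ℂ)⁻¹)
  rw [jacobiSym.mul_right' _ (by norm_num) hN]
  simp only [Pi.smul_apply, smul_eq_mul]
  push_cast
  field_simp

end FOURA

open FOURA in
theorem rowFOUR : OfFOUR := by
  intro hB hL hT hS hC hA hF hH hQ hU hM hTA r k f hk h0 he
  obtain ⟨u1, u2, u3, u4⟩ := hU r k f hk
  obtain ⟨F, f1, f2, f3⟩ := hF k (r + 2) _ (by omega) u1 fun g a b =>
    u2 g a ((pow_dvd_pow 3 (by omega)).trans b)
  have hk0 : ∀ l, l = 2 ∨ l = 7 → Hk k l F := fun l hl => by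
    obtain ⟨c, hc⟩ := he l hl
    exact ⟨_, hH k (r + 2) l F _ (by omega) hl f1 f2 (f3 ▸ hQ.hecke k l _ _ c hk
      (by rcases hl with rfl | rfl <;> norm_num) u1 u3 hc)⟩
  obtain ⟨d1, -, d3⟩ := hA.loc k (r + 2) F (by omega) f1 f2
  obtain ⟨d4, -, d5⟩ := hL.ops _ F (r + 2) (by omega) f2
  obtain ⟨-, t1, t3⟩ := hA.loc k (r + 2) _ (by omega) d1 d4
  obtain ⟨-, t4, -⟩ := hL.ops _ _ (r + 2) (by omega) d4
  have q1 := (hQ.loc k _ F _ f1 (f3 ▸ u3)).1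
  have q2 := (hQ.loc k _ _ _ d1 q1).2
  have b1 := big k _ (a3 (H3.aF f)) 1 u4 fun n => by
    unfold a3
    split_ifs <;> simp
  have b2 := big k _ (fun n => I * (√3 : ℝ) * (a3 (H3.aF f) n * J(n | 3))) (√3) b1 fun n => by
    have := mul_nonneg (Real.sqrt_nonneg 3) (norm_nonneg (a3 (H3.aF f) n))
    rcases jacobiSym.trichotomy n 3 with h | h | h <;> simp [h, this, abs_of_nonneg]
  have o7 : ∀ N, G7 N → Odd N ∧ ¬ 3 ∣ N ∧ N ≠ 0 := fun N g => by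
    have := g.1
    exact ⟨Nat.odd_iff.2 (by omega), by omega, by omega⟩
  have o5 : ∀ N, G5 N → Odd N ∧ ¬ 3 ∣ N ∧ N ≠ 0 := fun N g => by
    have := g.1
    exact ⟨Nat.odd_iff.2 (by omega), by omega, by omega⟩
  by_contra hn
  simp only [not_or, not_forall] at hn
  obtain ⟨⟨N1, g1, n1⟩, ⟨N2, g2, n2⟩, ⟨N3, g3, n3⟩, N4, g4, n4⟩ := hn
  have r1 := rect hS hTA k _ N1 N2 _ hk (by omega) d1 (d3 2 (by simp) (hk0 2 (by simp))).1
    (d3 7 (by simp) (hk0 7 (by simp))).1 g1 g2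
    (van hB hM k _ N1 _ _ hk (o7 _ g1).1 g1.2.1 (o7 _ g1).2.1 d1 d4 q1 b1 n1)
    (van hB hM k _ N2 _ _ hk (o5 _ g2).1 g2.2.1 (o5 _ g2).2.1 d1 d4 q1 b1 n2)
  have r2 := rect hS hTA k _ N3 N4 _ hk (by omega) t1
    (t3 2 (by simp) (d3 2 (by simp) (hk0 2 (by simp))).1).2
    (t3 7 (by simp) (d3 7 (by simp) (hk0 7 (by simp))).1).2 g3 g4
    (van hB hM k _ N3 _ _ hk (o7 _ g3).1 g3.2.1 (o7 _ g3).2.1 t1 t4 q2 b2
      fun h => n3 (conv k N3 _ h (o7 _ g3).2.2))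
    (van hB hM k _ N4 _ _ hk (o5 _ g4).1 g4.2.1 (o5 _ g4).2.1 t1 t4 q2 b2
      fun h => n4 (conv k N4 _ h (o5 _ g4).2.2))
  have z := hT _ _ (-1) (-1) r _ _ (Or.inr rfl) (Or.inr rfl) (by omega) (by omega) d4 d5 d1.junk
    r1 r2
  exact h0 (hQ.uniq _ _ q1 (by rw [z]; rfl))

end Pool.Agent.MP_5f72fe_nt.MS
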