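import Pool.Agent.MP_5f72fe_nt.MS.S1

/-! From symbols to the chart. -/

namespace Pool.Agent.MP_5f72fe_nt.MS

open scoped NumberTheorySymbols

namespace CHA

variable {A : Type} [AddCommGroup A] {f : V → V → A} {φ : Sb A}

theorem e1_ne : e1 ≠ 0 := by simp [e1]

theorem e2_ne : e2 ≠ 0 := by simp [e2]

theorem ad_self (h : Ad f) {c : V} (hc : c ≠ 0) : f c c = 0 := by
  simpa using h.hom c 1 hc one_ne_zero

theorem ad_right (h : Ad f) {c c' : V} {l : ℚ} (hc : c ≠ 0) (hc' : c' ≠ 0) (hl : l ≠ 0) :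
    f c (l • c') = f c c' := by
  rw [← h.add c c' (l • c') hc hc' (smul_ne_zero hl hc'), h.hom c' l hc' hl, add_zero]

theorem ad_left (h : Ad f) {c c' : V} {l : ℚ} (hc : c ≠ 0) (hc' : c' ≠ 0) (hl : l ≠ 0) :
    f (l • c) c' = f c c' := by
  rw [← h.add c (l • c) c' hc (smul_ne_zero hl hc) hc', h.hom c l hc hl, zero_add]

theorem inv_app (h : Sy φ) (g : Mt) (a : ℕ) (hg : det g = 3 ^ a) (c c' v w : V) :
    φ (ap g c) (ap g c') (ap g v) (ap g w) = φ c c' v w :=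
  congrFun (congrFun (congrFun (congrFun (h.inv g a hg) c) c') v) w

theorem three (h : Sy φ) (c c' v w : V) :
    φ c c' ((3 : ℚ) • v) ((3 : ℚ) • w) = φ c c' v w := by
  have e : ∀ x : V, ap (3, 0, 0, 3) x = (3 : ℚ) • x := fun x => by
    ext <;> simp [ap]
  by_cases hc : c = 0
  · rw [h.junk _ _ _ _ (Or.inl hc), h.junk _ _ _ _ (Or.inl hc)]
  by_cases hc' : c' = 0
  · rw [h.junk _ _ _ _ (Or.inr (Or.inl hc')), h.junk _ _ _ _ (Or.inr (Or.inl hc'))]
  rw [← inv_app h (3, 0, 0, 3) 2 (by simp [det]) c c' v w, e, e, e, e]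
  have h3 : (3 : ℚ) ≠ 0 := by norm_num
  exact ((ad_left (h.ad _ _) hc (smul_ne_zero h3 hc') h3).trans
    (ad_right (h.ad _ _) hc hc' h3)).symm

theorem three_pow (h : Sy φ) (c c' : V) (m : ℕ) (v w : V) :
    φ c c' ((3 ^ m : ℚ) • v) ((3 ^ m : ℚ) • w) = φ c c' v w := by
  induction m with
  | zero => simp
  | succ m ih => rw [pow_succ', mul_smul, mul_smul, three h, ih]

theorem key (hM : RowMOB) (h : Sy φ) {g : Mt} (hg : G0 g) (c c' : V) {u y : ℚ} (hu : In u)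
    (hy : In y) : φ c c' (ap g (u, 1)) (ap g (1, 3 * y)) = act g (res φ c c') u y := by
  rw [(hM.vec g hg u hu).1, (hM.vec g hg y hy).2,
    h.tor _ _ _ _ _ _ (hM.pres g hg u hu).2.2.1 (hM.pres g hg y hy).2.2.2]
  rfl

theorem key1 (hM : RowMOB) (h : Sy φ) {g : Mt} (hg : G0 g) (hd : det g = 1) (c c' : V) :
    EqO (act g (res φ (ap g c) (ap g c'))) (res φ c c') := fun u y hu hy => by
  rw [← key hM h hg _ _ hu hy, inv_app h g 0 (by simpa using hd)]
  rfl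

theorem sy0 (hM : RowMOB) (h : Sy φ) : Sy0 (res φ) where
  ad := fun _ _ _ _ => h.ad _ _
  invT := fun c c' _ _ => key1 hM h (by simp [G0, mT]) (by simp [det, mT]) c c'
  invL := fun c c' _ _ => key1 hM h (by simp [G0, mL]) (by simp [det, mL]) c c'

theorem res_sg (h : Sy φ) (c c' : V) : EqO (res (sg φ) c c') (sg0 (res φ) c c') := by
  intro u y _ _
  have e : ∀ x : V, ap (0, 1, -3, 0) (ap mN x) = ap mW x := fun x => by
    ext <;> simp [ap, mN, mW]
  have e3 : ap (0, 1, -3, 0) (ap mN (1, 3 * y)) = (3 : ℚ) • ((y, 1) : V) := by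
    ext <;> simp [ap, mN]
  have e4 : ap (0, 1, -3, 0) ((3 : ℚ) • ap mN (u, 1)) = (3 : ℚ) • ((1, 3 * u) : V) := by
    ext <;> simp [ap, mN]
  simp only [res, sg, sg0]
  rw [← inv_app h (0, 1, -3, 0) 1 (by simp [det]), e c, e c', e3, e4, three h]

theorem ell_res (hB : RowBAS) (h : Sy φ) (N : ℕ) (hN : ¬ 3 ∣ N) : ell N φ = ell0 N (res φ) := by
  have hu : Un (N : ℚ) := by
    have := (hB.int N).2.2 (by exact_mod_cast hN)
    exact_mod_cast this
  have h1 : Un (1 : ℚ) := by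
    have := (hB.int 1).2.2 (by decide)
    exact_mod_cast this
  have h0 : (N : ℚ) ≠ 0 := ((hB.un' _).1 hu).1
  refine Finset.sum_congr rfl fun m _ => ?_
  have e : (((m : ℚ), (N : ℚ)) : V) = (N : ℚ) • (((m : ℚ) / N, 1) : V) := by
    ext
    · simp only [Prod.smul_mk, smul_eq_mul]
      field_simp
    · simp
  have e' : e1 = (1 : ℚ) • ((1, 3 * 0) : V) := by simp [e1]
  have := h.tor e1 (m, N) ((m : ℚ) / N, 1) (1, 3 * 0) N 1 hu h1
  rw [← e, ← e'] at this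
  simp only [res]
  rw [this]

theorem step (hB : RowBAS) (h : Sy φ) (j : ℤ) (u y : ℚ) (hy : In y) :
    ch (tt φ) u y = res φ e1 (-j, 3) ((u - j) / 3) (3 * y / (1 - 3 * j * y)) ∧
      In (3 * y / (1 - 3 * j * y)) := by
  obtain ⟨O, hO⟩ := hB.ring
  have h1 : Un (1 : ℚ) := by
    have := (hB.int 1).2.2 (by decide)
    exact_mod_cast this
  have hy' := (hO y).2 hy
  have hu : Un (1 - 3 * j * y) := by
    have := hB.unAdd 1 (-(j * y)) h1 ((hO _).1 (neg_mem (mul_mem (intCast_mem O j) hy')))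
    rwa [show 1 + 3 * -(j * y) = 1 - 3 * j * y by ring] at this
  have h0 : 1 - 3 * j * y ≠ 0 := ((hB.un' _).1 hu).1
  refine ⟨?_, hB.div _ _ ((hO _).1 (mul_mem (ofNat_mem O 3) hy')) hu⟩
  have a1 : ap (1, -j, 0, 3) e1 = e1 := by ext <;> simp [ap, e1]
  have a2 : ap (1, -j, 0, 3) e2 = ((-j : ℚ), (3 : ℚ)) := by ext <;> simp [ap, e2]
  have a3 : ap (1, -j, 0, 3) (u, 1) = (3 : ℚ) • (1 : ℚ) • (((u - j) / 3, 1) : V) := by
    ext
    · simp only [ap, Prod.smul_mk, smul_eq_mul]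
      push_cast
      ring
    · simp [ap]
  have a4 : ap (1, -j, 0, 3) ((3 : ℚ) • ((1, 3 * y) : V)) =
      (3 : ℚ) • (1 - 3 * j * y) • ((1, 3 * (3 * y / (1 - 3 * j * y))) : V) := by
    ext
    · simp only [ap, Prod.smul_mk, smul_eq_mul]
      push_cast
      ring
    · simp only [ap, Prod.smul_mk, smul_eq_mul]
      push_cast
      generalize 1 - 3 * j * y = D at h0
      field_simp
      ring
  simp only [ch, res, tt]
  rw [← inv_app h (1, -j, 0, 3) 1 (by simp [det]), a1, a2, a3, a4, three h,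
    h.tor _ _ _ _ _ _ h1 hu]

theorem cut (hM : RowMOB) (h : Sy φ) {g : Mt} (hg : G0 g) (hd : det g = 1) {c : V} (hc : c ≠ 0)
    (h1 : ap g c = e1) (h2 : ap g e2 = e2) {u y : ℚ} (hu : In u) (hy : In y) :
    res φ e1 c u y = (ch φ - act g (ch φ)) u y := by
  have k := key1 hM h hg hd c e2 u y hu hy
  rw [h1, h2] at k
  have a := (h.ad (u, 1) (1, 3 * y)).add e1 c e2 e1_ne hc e2_ne
  simp only [Pi.sub_apply, ch]
  rw [k]
  exact eq_sub_of_add_eq a

theorem ch_tt (hB : RowBAS) (hM : RowMOB) (h : Sy φ) : EqO (ch (tt φ)) (tch (ch φ)) := by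
  intro u y hu hy
  unfold tch
  split_ifs with h0 h1
  · have k := (step hB h 0 u y hy).1
    have e : (((-((0 : ℤ) : ℚ)), (3 : ℚ)) : V) = (3 : ℚ) • e2 := by ext <;> simp [e2]
    rw [k, e]
    simp only [Int.cast_zero, sub_zero, mul_zero, zero_mul, div_one]
    exact ad_right (h.ad _ _) e1_ne e2_ne (by norm_num)
  · obtain ⟨k, k'⟩ := step hB h 1 u y hy
    have e : (((-((1 : ℤ) : ℚ)), (3 : ℚ)) : V) = (-1 : ℚ) • ((1, -3) : V) := by ext <;> simp
    rw [e] at k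
    simp only [Int.cast_one, mul_one] at k k'
    rw [k, ← cut hM h (g := mL) (c := (1, -3)) (by simp [G0, mL]) (by simp [det, mL]) (by simp)
      (by ext <;> simp [ap, mL, e1]) (by ext <;> simp [ap, mL, e2]) h1 k']
    exact ad_right (h.ad _ _) e1_ne (by simp) (by norm_num)
  · have h2 := ((hB.tri u hu).resolve_left h0).resolve_left h1
    obtain ⟨k, k'⟩ := step hB h (-1) u y hy
    simp only [Int.cast_neg, Int.cast_one, mul_neg, mul_one, neg_mul, sub_neg_eq_add,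
      neg_neg] at k k'
    rw [k]
    exact cut hM h (g := adj mL) (c := (1, 3)) (by simp [G0, mL, adj]) (by simp [det, mL, adj])
      (by simp) (by ext <;> simp [ap, mL, adj, e1]) (by ext <;> simp [ap, mL, adj, e2]) h2 k'

theorem ch_cj (hM : RowMOB) (h : Sy φ) : EqO (ch (cj φ)) (act mN (ch φ)) := by
  intro u y hu hy
  have a1 : ap mN e1 = (-1 : ℚ) • e1 := by ext <;> simp [ap, mN, e1]
  have a2 : ap mN e2 = e2 := by ext <;> simp [ap, mN, e2]
  have k := key hM h (g := mN) (by simp [G0, mN]) e1 e2 hu hy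
  unfold ch
  rw [← k]
  simp only [res, cj, lf]
  rw [a1, a2]
  exact ad_left (h.ad _ _) e1_ne e2_ne (by norm_num)

theorem ch_lc (hB : RowBAS) (h : SL φ) : LC2 (ch φ) := by
  obtain ⟨-, n, -, hn⟩ := h
  obtain ⟨O, hO⟩ := hB.ring
  refine ⟨n, fun u y b c hu hy hb hc => ?_⟩
  have h1 : Un (1 : ℚ) := by
    have := (hB.int 1).2.2 (by decide)
    exact_mod_cast this
  have hu' := (hO u).2 hu
  have hy' := (hO y).2 hy
  have h3 : (3 : ℚ) ∈ O := ofNat_mem O 3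
  have hD : Un (1 + 3 * -(u * y)) := hB.unAdd 1 _ h1 ((hO _).1 (neg_mem (mul_mem hu' hy')))
  have h0 : 1 + 3 * -(u * y) ≠ 0 := ((hB.un' _).1 hD).1
  have hb' := hB.div b _ hb hD
  have hc' := hB.div c _ hc hD
  generalize hD' : 1 + 3 * -(u * y) = D at *
  have k := hn e1 e2 (u, 1) (1, 3 * y) (1 + 3 * -(3 ^ n * (b / D) * y))
    (1 + 3 * -(3 ^ n * (c / D) * u)) (b / D) (3 * (c / D))
    (hB.unAdd 1 _ h1 ((hO _).1 (neg_mem (mul_mem (mul_mem (pow_mem h3 n) ((hO _).2 hb')) hy'))))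
    (hB.unAdd 1 _ h1 ((hO _).1 (neg_mem (mul_mem (mul_mem (pow_mem h3 n) ((hO _).2 hc')) hu'))))
    hb' ((hO _).1 (mul_mem h3 ((hO _).2 hc')))
  have b1 : b = b / D * D := (div_mul_cancel₀ b h0).symm
  have c1 : c = c / D * D := (div_mul_cancel₀ c h0).symm
  generalize b / D = b' at *
  generalize c / D = c' at *
  have a1 : (1 + 3 * -(3 ^ n * b' * y)) • ((u, 1) : V) + (3 ^ n * b') • ((1, 3 * y) : V) =
      (u + 3 ^ n * b, 1) := by
    rw [b1, ← hD']
    ext <;> simp only [Prod.smul_mk, smul_eq_mul, Prod.mk_add_mk] <;> ring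
  have a2 : (1 + 3 * -(3 ^ n * c' * u)) • ((1, 3 * y) : V) + (3 ^ n * (3 * c')) • ((u, 1) : V) =
      (1, 3 * (y + 3 ^ n * c)) := by
    rw [c1, ← hD']
    ext <;> simp only [Prod.smul_mk, smul_eq_mul, Prod.mk_add_mk] <;> ring
  rw [a1, a2] at k
  exact k

theorem pre {g : Mt} {a : ℕ} (hg : det g = 3 ^ a) {c : V} (hc : c ≠ 0) :
    ∃ c1 : V, c1 ≠ 0 ∧ ap g c1 = c := by
  have hd : (g.1 : ℚ) * g.2.2.2 - g.2.1 * g.2.2.1 = 3 ^ a := by
    unfold det at hg
    exact_mod_cast hg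
  have h3 : (3 : ℚ) ^ a ≠ 0 := by positivity
  have e : ap g (((3 : ℚ) ^ a)⁻¹ • ap (adj g) c) = c := by
    ext
    · simp only [ap, adj, Prod.smul_mk, smul_eq_mul]
      push_cast
      field_simp
      linear_combination c.1 * hd
    · simp only [ap, adj, Prod.smul_mk, smul_eq_mul]
      push_cast
      field_simp
      linear_combination c.2 * hd
  refine ⟨_, fun h0 => hc ?_, e⟩
  rw [← e, h0]
  ext <;> simp [ap]

theorem uni (hB : RowBAS) (hS : RowSA) (hM : RowMOB) (hI : RowIND0) (P : AddSubgroup A)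
    (h : Sy φ) (hP : ∀ u y, In u → In y → ch φ u y ∈ P) (c c' v w : V) : φ c c' v w ∈ P := by
  by_cases h0 : c = 0 ∨ c' = 0 ∨ dt v w = 0
  · rw [h.junk _ _ _ _ h0]
    exact P.zero_mem
  push Not at h0
  obtain ⟨g, a, m, x, y, b, d, hg, hx, hy, hb, hd, ev, ew⟩ := hS 1 v w h0.2.2
  obtain ⟨c1, k1, rfl⟩ := pre hg h0.1
  obtain ⟨c2, k2, rfl⟩ := pre hg h0.2.1
  obtain ⟨O, hO⟩ := hB.ring
  have x0 : x ≠ 0 := ((hB.un' _).1 hx).1
  have y0 : y ≠ 0 := ((hB.un' _).1 hy).1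
  have a1 : ((3 ^ 1 * b, x) : V) = x • ((3 * b / x, 1) : V) := by
    ext
    · simp only [Prod.smul_mk, smul_eq_mul]
      field_simp
    · simp
  have a2 : ((y, 3 ^ 1 * d) : V) = y • ((1, 3 * (d / y)) : V) := by
    ext
    · simp
    · simp only [Prod.smul_mk, smul_eq_mul]
      field_simp
  rw [← three_pow h _ _ m, ev, ew, inv_app h g a hg, a1, a2, h.tor _ _ _ _ _ _ hx hy]
  exact hI.ind A (res φ) P (sy0 hM h) hP c1 c2 _ _ k1 k2
    (hB.div _ _ ((hO _).1 (mul_mem (ofNat_mem O 3) ((hO _).2 hb))) hx) (hB.div _ _ hd hy)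

end CHA

open CHA in
theorem rowCH : OfCH := fun hB hS hM hI =>
  { toRes := fun _ _ _ h => ⟨sy0 hM h, res_sg h, ell_res hB h⟩
    ops := fun A _ φ h => ⟨hI.rel A (res φ) (sy0 hM h), ch_tt hB hM h, ch_cj hM h,
      fun u y hu hy => (res_sg h e1 e2 u y hu hy).trans
        ((hI.flip A (res φ) (sy0 hM h)).2.1 u y hu hy)⟩
    lc := fun _ _ _ h => ch_lc hB h
    uni := fun _ _ _ P h hP => uni hB hS hM hI P h hP }

end Pool.Agent.MP_5f72fe_nt.MS
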