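import Pool.Agent.MP_5f72fe_nt.H25.SpecN

/-! The arithmetic identity between root counts and divisor sums of the Jacobi symbol. -/

namespace Pool.Agent.MP_5f72fe_nt.H25N

open scoped NumberTheorySymbols

noncomputable section

namespace IDL2B

/-- roots of `x² + x + c` -/
def rt (c a : ℕ) : ℕ := Nat.card {x : ZMod a // x ^ 2 + x + c = 0}

theorem rho_eq {n c : ℕ} (h : 4 * c = n + 1) (a : ℕ) [NeZero a] : rho n a = rt c a := by
  classical
  rw [rt, Nat.card_eq_fintype_card, Fintype.card_subtype, rho]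
  have key : ∀ t : ℕ, 4 * a ∣ (2 * t + 1) ^ 2 + n ↔ (t : ZMod a) ^ 2 + t + c = 0 := fun t => by
    rw [show (2 * t + 1) ^ 2 + n = 4 * (t ^ 2 + t + c) by nlinarith,
      Nat.mul_dvd_mul_iff_left (by norm_num), ← ZMod.natCast_eq_zero_iff]
    push_cast
    rfl
  symm
  refine Finset.card_bij (fun x _ => 2 * x.val + 1) (fun x hx => ?_) (fun x _ y _ e => ?_)
    (fun b hb => ?_)
  · have := x.val_lt
    simp only [Finset.mem_filter, Finset.mem_range, Finset.mem_univ, true_and] at hx ⊢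
    exact ⟨by omega, (key _).2 (by rwa [ZMod.natCast_zmod_val])⟩
  · exact ZMod.val_injective a (by omega)
  · simp only [Finset.mem_filter, Finset.mem_range] at hb
    obtain ⟨t, rfl | rfl⟩ := Nat.even_or_odd' b
    · have h2 : 4 ∣ (2 * t) ^ 2 + n := (Dvd.intro _ rfl).trans hb.2
      rw [show (2 * t) ^ 2 = 4 * t ^ 2 by ring] at h2
      omega
    · exact ⟨t, by simpa using (key t).1 hb.2, by rw [ZMod.val_cast_of_lt (by omega)]⟩

theorem rt_mul (c : ℕ) {a b : ℕ} (h : a.Coprime b) : rt c (a * b) = rt c a * rt c b := by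
  rw [rt, rt, rt, ← Nat.card_prod]
  refine Nat.card_congr (((ZMod.chineseRemainder h).toEquiv.subtypeEquiv fun x => ?_).trans
    Equiv.subtypeProdEquivProd)
  rw [← (ZMod.chineseRemainder h).map_eq_zero_iff, Prod.ext_iff]
  simp

theorem rt_one (c : ℕ) : rt c 1 = 1 :=
  Nat.card_eq_one_iff_exists.2 ⟨⟨0, Subsingleton.elim _ _⟩, fun _ => Subsingleton.elim _ _⟩

theorem rt_zero_iff (c a : ℕ) [NeZero a] : rt c a = 0 ↔ ¬ ∃ t : ℤ, (a : ℤ) ∣ t ^ 2 + t + c := by
  rw [rt, Nat.card_eq_zero, or_iff_left (not_infinite_iff_finite.2 inferInstance), isEmpty_subtype,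
    not_exists]
  refine ⟨fun H t ht => H t ?_, fun H x hx => H x.val ?_⟩
  · have := (ZMod.intCast_zmod_eq_zero_iff_dvd _ a).2 ht
    push_cast at this
    exact this
  · rw [← ZMod.intCast_zmod_eq_zero_iff_dvd]
    push_cast
    rwa [ZMod.natCast_zmod_val]

variable {n c p : ℕ} (h : 4 * c = n + 1) (hp : p.Prime)
include h hp

omit hp in
theorem not_dvd (hn : ¬ p ∣ n) {t : ℤ} (ht : (p : ℤ) ∣ t ^ 2 + t + c) : ¬ (p : ℤ) ∣ 2 * t + 1 := by
  intro e
  have h' : (n : ℤ) = 4 * (t ^ 2 + t + c) - (2 * t + 1) * (2 * t + 1) := by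
    have : (4 * c : ℤ) = n + 1 := by exact_mod_cast h
    linear_combination -this
  exact hn (Int.natCast_dvd_natCast.1 (h' ▸ (ht.mul_left _).sub (e.mul_left _)))

theorem lift (hn : ¬ p ∣ n) {t : ℤ} (ht : (p : ℤ) ∣ t ^ 2 + t + c) (j : ℕ) :
    ∃ s : ℤ, (p : ℤ) ^ (j + 1) ∣ s ^ 2 + s + c := by
  induction j with
  | zero => exact ⟨t, by simpa⟩
  | succ j ih =>
    obtain ⟨s, hs⟩ := ih
    have h1 : (p : ℤ) ∣ s ^ 2 + s + c := (dvd_pow_self _ j.succ_ne_zero).trans hs
    obtain ⟨v, u, e⟩ := ((Nat.prime_iff_prime_int.1 hp).irreducible.coprime_iff_not_dvd).2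
      (not_dvd h hn h1)
    obtain ⟨k, hk⟩ := h1
    refine ⟨s - u * (s ^ 2 + s + c), ?_⟩
    have : (s - u * (s ^ 2 + s + c)) ^ 2 + (s - u * (s ^ 2 + s + c)) + c =
        (s ^ 2 + s + c) * (p * (v + u ^ 2 * k)) := by
      linear_combination (-(s ^ 2 + s + c)) * e + (s ^ 2 + s + c) * u ^ 2 * hk
    rw [this, pow_succ]
    exact mul_dvd_mul hs (Dvd.intro _ rfl)

theorem rt_two (hn : ¬ p ∣ n) {t : ℤ} (ht : (p : ℤ) ∣ t ^ 2 + t + c) (j : ℕ) :
    rt c (p ^ (j + 1)) = 2 := by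
  obtain ⟨s, hs⟩ := lift h hp hn ht j
  have h1 := not_dvd h hn ((dvd_pow_self _ j.succ_ne_zero).trans hs)
  have hp' := Nat.prime_iff_prime_int.1 hp
  have cast : ∀ z : ℤ, (z : ZMod (p ^ (j + 1))) = 0 ↔ (p : ℤ) ^ (j + 1) ∣ z := fun z => by
    rw [ZMod.intCast_zmod_eq_zero_iff_dvd]; push_cast; rfl
  have hs' : (s : ZMod (p ^ (j + 1))) ^ 2 + s + c = 0 := by
    have := (cast _).2 hs
    push_cast at this
    exact this
  rw [rt, Nat.card_eq_two_iff]
  refine ⟨⟨s, hs'⟩, ⟨-1 - s, by linear_combination hs'⟩, fun e => h1 ?_, ?_⟩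
  · refine (dvd_pow_self _ j.succ_ne_zero).trans ((cast _).1 ?_)
    push_cast
    linear_combination congrArg Subtype.val e
  · refine Set.eq_univ_of_forall fun ⟨x, hx⟩ => ?_
    obtain ⟨y, rfl⟩ := ZMod.intCast_surjective x
    have h2 : (p : ℤ) ^ (j + 1) ∣ (y - s) * (y + s + 1) := by
      rw [← cast]
      push_cast
      linear_combination hx - hs'
    simp only [Set.mem_insert_iff, Set.mem_singleton_iff, Subtype.mk.injEq]
    by_cases h3 : (p : ℤ) ∣ y - s
    · have h4 : ¬ (p : ℤ) ∣ y + s + 1 := fun e =>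
        h1 ((by ring : y + s + 1 - (y - s) = 2 * s + 1) ▸ e.sub h3)
      have := (cast _).2 (hp'.pow_dvd_of_dvd_mul_right _ h4 h2)
      push_cast at this
      exact Or.inl (by linear_combination this)
    · have := (cast _).2 (hp'.pow_dvd_of_dvd_mul_left _ h3 h2)
      push_cast at this
      exact Or.inr (by linear_combination this)

theorem root_iff (hn : ¬ p ∣ n) : (∃ t : ℤ, (p : ℤ) ∣ t ^ 2 + t + c) ↔ J(p | n) = 1 := by
  have hc : (4 * c : ℤ) = n + 1 := by exact_mod_cast h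
  rcases hp.eq_two_or_odd' with rfl | ho
  · rw [Nat.cast_ofNat, jacobiSym.at_two (Nat.odd_iff.2 (by omega)), ZMod.χ₈_nat_eq_if_mod_eight,
      if_neg (by omega)]
    constructor
    · rintro ⟨t, ht⟩
      have := Int.even_mul_succ_self t
      rw [show t ^ 2 + t + c = t * (t + 1) + c by ring, dvd_add_right this.two_dvd] at ht
      rw [if_pos (by omega)]
    · intro e
      refine ⟨0, ?_⟩
      split_ifs at e with e'
      omega
  have : Fact p.Prime := ⟨hp⟩
  have e1 : J(p | n) = legendreSym p (-n) := by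
    rw [jacobiSym.legendreSym.to_jacobiSym, jacobiSym.neg _ ho]
    rcases Nat.odd_mod_four_iff.1 (Nat.odd_iff.1 ho) with e | e
    · rw [ZMod.χ₄_nat_one_mod_four e, one_mul,
        jacobiSym.quadratic_reciprocity_one_mod_four e (Nat.odd_iff.2 (by omega))]
    · rw [ZMod.χ₄_nat_three_mod_four e, neg_one_mul,
        jacobiSym.quadratic_reciprocity_three_mod_four e (by omega)]
  rw [e1, legendreSym.eq_one_iff p (by
    rwa [Ne, ZMod.intCast_zmod_eq_zero_iff_dvd, dvd_neg, Int.natCast_dvd_natCast])]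
  have hc' : (4 * c : ZMod p) = n + 1 := by exact_mod_cast congrArg (Nat.cast : ℕ → ZMod p) h
  constructor
  · rintro ⟨t, ht⟩
    have := (ZMod.intCast_zmod_eq_zero_iff_dvd _ p).2 ht
    refine ⟨2 * t + 1, ?_⟩
    push_cast at this ⊢
    linear_combination hc' - 4 * this
  · rintro ⟨r, hr⟩
    have h2 : (2 : ZMod p) ≠ 0 := by
      have := (ZMod.natCast_eq_zero_iff 2 p).not.2 fun e =>
        absurd ((Nat.prime_dvd_prime_iff_eq hp Nat.prime_two).1 e ▸ ho) (by decide)
      exact_mod_cast this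
    obtain ⟨t, ht⟩ := ZMod.intCast_surjective ((r - 1) / 2)
    refine ⟨t, (ZMod.intCast_zmod_eq_zero_iff_dvd _ p).1 ?_⟩
    have h3 : r = 2 * t + 1 := by rw [ht]; field_simp; ring
    refine mul_left_cancel₀ (mul_ne_zero h2 h2) ?_
    push_cast at hr ⊢
    rw [h3] at hr
    linear_combination hc' - hr

theorem rt_pow (hs : Squarefree n) (j : ℕ) :
    (rt c (p ^ (j + 1)) : ℤ) = J(p | n) ^ j + J(p | n) ^ (j + 1) := by
  have : NeZero n := ⟨hs.ne_zero⟩
  have : NeZero (p ^ (j + 1)) := ⟨pow_ne_zero _ hp.ne_zero⟩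
  have hc : (4 * c : ℤ) = n + 1 := by exact_mod_cast h
  by_cases hn : p ∣ n
  · have e : J(p | n) = 0 := jacobiSym.eq_zero_iff_not_coprime.2 (by
      rw [Int.gcd_natCast_natCast, Nat.gcd_eq_left hn]; exact hp.ne_one)
    rw [e]
    rcases j with _ | j
    · have : Fact p.Prime := ⟨hp⟩
      have h0 : (n : ZMod p) = 0 := (ZMod.natCast_eq_zero_iff _ _).2 hn
      have hc' : (4 * c : ZMod p) = n + 1 := by exact_mod_cast congrArg (Nat.cast : ℕ → ZMod p) h
      have h2 : (2 : ZMod p) ≠ 0 := fun e => by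
        have : (1 : ZMod p) = 0 := by linear_combination 2 * c * e - hc' - h0
        exact one_ne_zero this
      have key : ∀ x : ZMod p, x ^ 2 + x + c = 0 ↔ x = -1 / 2 := fun x => by
        rw [eq_div_iff h2, ← mul_eq_zero_iff_left (mul_ne_zero h2 h2), ← sub_eq_zero (a := x * 2),
          ← pow_eq_zero_iff (a := x * 2 - -1) two_ne_zero]
        exact Eq.congr_left (by linear_combination hc' + h0)
      have h1 : rt c p = 1 := Nat.card_eq_one_iff_exists.2
        ⟨⟨-1 / 2, (key _).2 rfl⟩, fun y => Subtype.ext ((key _).1 y.2)⟩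
      rw [zero_add, pow_one, h1]
      simp
    · rw [(rt_zero_iff c _).2]
      · simp
      rintro ⟨t, ht⟩
      have hp' := Nat.prime_iff_prime_int.1 hp
      have h1 : (p : ℤ) * p ∣ (2 * t + 1) * (2 * t + 1) + n := by
        rw [show (2 * t + 1) * (2 * t + 1) + n = 4 * (t ^ 2 + t + c) by linear_combination -hc]
        exact Dvd.dvd.mul_left (Dvd.dvd.trans ⟨(p : ℤ) ^ j, by push_cast; ring⟩ ht) _
      have h2 : (p : ℤ) ∣ 2 * t + 1 := (or_self_iff).1 (hp'.dvd_or_dvd
        ((dvd_add_left (Int.natCast_dvd_natCast.2 hn)).1 ((Dvd.intro _ rfl).trans h1)))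
      have h3 := (dvd_add_right (mul_dvd_mul h2 h2)).1 h1
      exact hp.prime.not_isUnit (hs p (by exact_mod_cast h3))
  · rcases jacobiSym.eq_one_or_neg_one (a := p) (b := n)
      (by rw [Int.gcd_natCast_natCast]; exact (hp.coprime_iff_not_dvd).2 hn) with e | e
    · obtain ⟨t, ht⟩ := (root_iff h hp hn).2 e
      rw [rt_two h hp hn ht, e]
      simp
    · rw [(rt_zero_iff c _).2, e, pow_succ]
      · simp
      rintro ⟨t, ht⟩
      have := (root_iff h hp hn).1 ⟨t, Dvd.dvd.trans ⟨p ^ j, by push_cast; ring⟩ ht⟩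
      omega

omit h hp

open ArithmeticFunction

open Classical in
/-- the indicator of squares -/
def Q : ArithmeticFunction ℤ := ⟨fun k => if k ≠ 0 ∧ IsSquare k then 1 else 0, by simp⟩

/-- the number of roots -/
def R (c : ℕ) : ArithmeticFunction ℤ := ⟨fun a => if a = 0 then 0 else rt c a, by simp⟩

/-- the character -/
def X (n : ℕ) : ArithmeticFunction ℤ := ⟨fun a => if a = 0 then 0 else J(a | n), by simp⟩

theorem Q_mul : Q.IsMultiplicative := by
  refine IsMultiplicative.iff_ne_zero.2 ⟨by simp [Q], fun {a b} ha hb hab => ?_⟩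
  have : IsSquare (a * b) ↔ IsSquare a ∧ IsSquare b := by
    refine ⟨fun ⟨r, hr⟩ => ⟨?_, ?_⟩, fun e => e.1.mul e.2⟩
    · obtain ⟨d, hd⟩ := exists_eq_pow_of_mul_eq_pow (a := a) (b := b) (k := 2)
        (Nat.isUnit_iff.2 hab) (hr.trans (sq r).symm)
      exact ⟨d, hd.trans (sq d)⟩
    · obtain ⟨d, hd⟩ := exists_eq_pow_of_mul_eq_pow (a := b) (b := a) (k := 2)
        (Nat.isUnit_iff.2 hab.symm) ((mul_comm _ _).trans (hr.trans (sq r).symm))
      exact ⟨d, hd.trans (sq d)⟩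
  by_cases h1 : IsSquare a <;> by_cases h2 : IsSquare b <;> simp [Q, ha, hb, this, h1, h2]

theorem R_mul (c : ℕ) : (R c).IsMultiplicative :=
  IsMultiplicative.iff_ne_zero.2 ⟨by simp [R, rt_one], fun {a b} ha hb hab => by
    simp [R, ha, hb, rt_mul c hab]⟩

theorem X_mul (n : ℕ) : (X n).IsMultiplicative :=
  IsMultiplicative.iff_ne_zero.2 ⟨by simp [X], fun {a b} ha hb _ => by
    simp [X, ha, hb, jacobiSym.mul_left]⟩

theorem Q_pow (hp : p.Prime) (i : ℕ) : Q (p ^ i) = if Even i then 1 else 0 := by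
  have : IsSquare (p ^ i) ↔ Even i := by
    refine ⟨fun ⟨r, hr⟩ => ?_, fun ⟨k, hk⟩ => ⟨p ^ k, by rw [hk, pow_add]⟩⟩
    have hr0 : r ≠ 0 := fun e => pow_ne_zero i hp.ne_zero (by rw [hr, e, mul_zero])
    have := congrArg (fun z => z.factorization p) hr
    simp only [Nat.factorization_mul hr0 hr0, hp.factorization_pow, Finsupp.single_eq_same,
      Finsupp.add_apply] at this
    exact ⟨_, this⟩
  simp [Q, hp.ne_zero, this]

theorem main (h : 4 * c = n + 1) (hs : Squarefree n) : Q * R c = X n * (zeta : ArithmeticFunction ℕ) := by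
  refine (IsMultiplicative.eq_iff_eq_on_prime_powers _ (Q_mul.mul (R_mul c)) _
    ((X_mul n).mul isMultiplicative_zeta.natCast)).2 fun p i hp => ?_
  rw [coe_mul_zeta_apply, mul_apply, Nat.sum_divisorsAntidiagonal fun a b => Q a * R c b,
    Nat.divisors_prime_pow hp, Finset.sum_map, Finset.sum_map]
  simp only [Function.Embedding.coeFn_mk]
  rw [Finset.sum_congr rfl fun k hk => by
    rw [Nat.pow_div (Nat.lt_succ_iff.1 (Finset.mem_range.1 hk)) hp.pos, Q_pow hp]]
  have hX : ∀ k, X n (p ^ k) = J(p | n) ^ k := fun k => by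
    simp [X, hp.ne_zero, jacobiSym.pow_left]
  have hR : ∀ k, R c (p ^ (k + 1)) = J(p | n) ^ k + J(p | n) ^ (k + 1) := fun k => by
    rw [← rt_pow h hp hs]; simp [R, hp.ne_zero]
  simp only [hX]
  induction i using Nat.twoStepInduction with
  | zero => rw [Finset.sum_range_one, Finset.sum_range_one]; simp [(R_mul c).1]
  | one => simp [Finset.sum_range_succ, (by simpa using hR 0 : R c p = 1 + J(p | n))]
  | more i ih _ =>
    rw [Finset.sum_range_succ', Finset.sum_range_succ', Finset.sum_range_succ _ (i + 2),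
      Finset.sum_range_succ _ (i + 1), ← ih, Nat.sub_zero, hR]
    simp [Nat.even_add_one, add_assoc, show ∀ k, i + 2 - (k + 1 + 1) = i - k from fun k => by omega]

end IDL2B

open IDL2B ArithmeticFunction in
theorem rowIDL2b : RowIDL2 := by
  intro n m hn hs hm
  have h : 4 * ((n + 1) / 4) = n + 1 := by omega
  have e := DFunLike.congr_fun (main h hs) m
  rw [coe_mul_zeta_apply, mul_apply, Nat.sum_divisorsAntidiagonal fun a b => Q a * R ((n + 1) / 4) b] at e
  rw [Finset.sum_congr rfl fun d hd => (show J((d : ℕ) | n) = X n d by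
    simp [X, (Nat.pos_of_mem_divisors hd).ne']), ← e, Nat.cast_sum]
  classical
  rw [← Finset.sum_filter_of_ne (p := IsSquare) (s := m.divisors)
    fun k _ hk => by by_contra h'; simp [Q, h'] at hk]
  refine Finset.sum_bij (fun e _ => e ^ 2) (fun e he => ?_) (fun a _ b _ e => ?_) (fun k hk => ?_)
    fun e he => ?_
  · simp only [Finset.mem_filter, Nat.mem_divisors] at he ⊢
    exact ⟨⟨he.2, he.1.2⟩, ⟨e, sq e⟩⟩
  · exact Nat.pow_left_injective two_ne_zero e
  · simp only [Finset.mem_filter, Nat.mem_divisors] at hk ⊢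
    obtain ⟨⟨h1, h2⟩, r, rfl⟩ := hk
    exact ⟨r, ⟨⟨(Dvd.intro _ rfl).trans h1, h2⟩, by rwa [sq]⟩, sq r⟩
  · simp only [Finset.mem_filter, Nat.mem_divisors] at he
    have h1 : e ≠ 0 := by rintro rfl; exact he.1.2 (zero_dvd_iff.1 he.1.1)
    have h2 : m / e ^ 2 ≠ 0 := (Nat.div_pos (Nat.le_of_dvd hm he.2) (by positivity)).ne'
    have : NeZero (m / e ^ 2) := ⟨h2⟩
    simp only [Q, R, coe_mk, if_neg h2, rho_eq h]
    rw [if_pos ⟨pow_ne_zero _ h1, e, sq e⟩, one_mul]

end

end Pool.Agent.MP_5f72fe_nt.H25N
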