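import Pool.Agent.MP_1246c0_nt.H59.Lat
import Pool.Agent.MP_5f72fe_nt.H22.LOC6
import Pool.Agent.MP_5f72fe_nt.H6.REDN
import Pool.Agent.MP_5f72fe_nt.H75.CUSPN
import Pool.Agent.MP_5f72fe_nt.H88.VOLN
import Pool.Agent.MP_5f72fe_nt.H41.IDL1
import Pool.Agent.MP_5f72fe_nt.H12.INV
import Pool.Agent.MP_5f72fe_nt.H74.LONE
import Pool.Agent.MP_5f72fe_nt.H76.CNF
import Pool.Agent.MP_5f72fe_nt.H25.QN4
import Pool.Agent.MP_5f72fe_nt.H25.ALG4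
import Pool.Agent.MP_5f72fe_nt.H25.FDN5
import Pool.Agent.MP_5f72fe_nt.H25.CNTB
import Pool.Agent.MP_5f72fe_nt.MS.All
import Pool.Agent.MP_5f72fe_nt.MS.IDL2b

/-! The two counts. -/

namespace Pool.Agent.MP_5f72fe_nt.MS

theorem allCNTB : H25N.RowCNTB :=
  H25N.rowCNTB H25N.Q.rowQN4 (H25N.rowALG4 H25N.Q.rowQN4)
    (H76.rowCNF (H41N.rowIDL1 H25N.Q.rowQN4) H25N.rowIDL2b (H12N.rowINV H25N.Q.rowQN4)
      (H74L.rowLONE H28.rowJH allGAUSS))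
    (H6.rowCNTN H88.rowVOLN MP_1246c0_nt.H59.rowLAT H75.rowCUSPN H6.rowREDN) H22.rowLOC6 H22.rowFDN
    H25N.F.rowLOC18 H25N.F.rowFDN5

end Pool.Agent.MP_5f72fe_nt.MS
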