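import Pool.Agent.MP_5f72fe_nt.MS.S3

/-! Primitives on the upper half plane and the maximum principle. -/

namespace Pool.Agent.MP_5f72fe_nt.MS.INJ1A

open Complex MeasureTheory Set Filter Topology

theorem isOpenH : IsOpen {z : ℂ | 0 < z.im} := isOpen_lt continuous_const continuous_im

theorem convH (y : ℝ) : Convex ℝ {z : ℂ | y < z.im} := convex_halfSpace_im_gt y

theorem exists_prim (h : ℂ → ℂ) (hd : DifferentiableOn ℂ h {z | 0 < z.im}) :
    ∃ F : ℂ → ℂ, ∀ z : ℂ, 0 < z.im → HasDerivAt F (h z) z := by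
  have hφ : ∀ w ∈ Metric.ball (0 : ℂ) 1, 1 - w ≠ 0 ∧ 0 < (I * (1 + w) / (1 - w)).im := by
    intro w hw
    have h1 : ‖w‖ < 1 := by simpa using hw
    have h2 : 1 - w ≠ 0 := by
      intro e
      have : w = 1 := by linear_combination -e
      rw [this] at h1
      simp at h1
    refine ⟨h2, ?_⟩
    have h3 : 0 < normSq (1 - w) := normSq_pos.mpr h2
    have h4 : w.re ^ 2 + w.im ^ 2 < 1 := by
      have := Complex.sq_norm w
      rw [normSq_apply] at this
      nlinarith [norm_nonneg w]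
    rw [div_im, ← sub_div]
    apply div_pos _ h3
    simp
    nlinarith
  have hG : DifferentiableOn ℂ (fun w => h (I * (1 + w) / (1 - w)) * (2 * I / (1 - w) ^ 2))
      (Metric.ball 0 1) := by
    intro w hw
    obtain ⟨h1, h2⟩ := hφ w hw
    have h3 : DifferentiableAt ℂ (fun w : ℂ => I * (1 + w) / (1 - w)) w := by
      fun_prop (disch := exact h1)
    have h4 : DifferentiableAt ℂ (fun w : ℂ => 2 * I / (1 - w) ^ 2) w := by
      fun_prop (disch := exact pow_ne_zero 2 h1)
    have h5 := (hd.differentiableAt (isOpenH.mem_nhds h2)).comp w h3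
    exact (h5.mul h4).differentiableWithinAt
  obtain ⟨Φ, hΦ⟩ := hG.isExactOn_ball
  refine ⟨fun z => Φ ((z - I) / (z + I)), fun z hz => ?_⟩
  have h1 : z + I ≠ 0 := by
    intro e
    have := congrArg Complex.im e
    simp at this
    linarith
  have h2 : (z - I) / (z + I) ∈ Metric.ball (0 : ℂ) 1 := by
    rw [mem_ball_zero_iff, norm_div, div_lt_one (norm_pos_iff.mpr h1)]
    have e1 := Complex.sq_norm (z - I)
    have e2 := Complex.sq_norm (z + I)
    rw [normSq_apply] at e1 e2
    simp at e1 e2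
    have : ‖z - I‖ ^ 2 < ‖z + I‖ ^ 2 := by nlinarith
    exact lt_of_pow_lt_pow_left₀ 2 (norm_nonneg _) this
  have h3 : HasDerivAt (fun z : ℂ => (z - I) / (z + I)) ((1 * (z + I) - (z - I) * 1) / (z + I) ^ 2)
      z := ((hasDerivAt_id z).sub_const I).div ((hasDerivAt_id z).add_const I) h1
  have h4 := (hΦ _ h2).comp z h3
  have e1 : 1 - (z - I) / (z + I) = 2 * I / (z + I) := by
    field_simp
    ring
  have e2 : I * (1 + (z - I) / (z + I)) / (1 - (z - I) / (z + I)) = z := by
    rw [e1]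
    field_simp
    ring
  beta_reduce at h4
  rw [e2, e1] at h4
  have e3 : h z * (2 * I / (2 * I / (z + I)) ^ 2) * ((1 * (z + I) - (z - I) * 1) / (z + I) ^ 2) =
      h z := by
    field_simp
    ring
  rw [e3] at h4
  exact h4

theorem inv_sq (C y : ℝ) (hC : 0 ≤ C) (hy : 0 < y) :
    IntegrableOn (fun t : ℝ => C / t ^ 2) (Ioi y) ∧ ∫ t in Ioi y, C / t ^ 2 = C / y := by
  have h1 : ∀ t ∈ Ici y, HasDerivAt (fun t : ℝ => -C * t⁻¹) (C / t ^ 2) t := by
    intro t ht
    have h0 : t ≠ 0 := (lt_of_lt_of_le hy ht).ne'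
    have := (hasDerivAt_inv h0).const_mul (-C)
    have e : -C * -(t ^ 2)⁻¹ = C / t ^ 2 := by ring
    rwa [e] at this
  have h2 : ∀ t ∈ Ioi y, 0 ≤ C / t ^ 2 := fun t _ => by positivity
  have h3 : Tendsto (fun t : ℝ => -C * t⁻¹) atTop (𝓝 0) := by
    simpa using tendsto_inv_atTop_zero.const_mul (-C)
  refine ⟨integrableOn_Ioi_deriv_of_nonneg' h1 h2 h3, ?_⟩
  rw [integral_Ioi_of_hasDerivAt_of_nonneg' h1 h2 h3]
  ring

/-- the primitive that vanishes at infinity -/
theorem exists_H (h : ℂ → ℂ) (hd : DifferentiableOn ℂ h {z | 0 < z.im}) (C : ℝ)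
    (hb : ∀ z : ℂ, 0 < z.im → ‖h z‖ ≤ C / z.im ^ 2) :
    ∃ H : ℂ → ℂ, (∀ z : ℂ, 0 < z.im → HasDerivAt H (h z) z) ∧
      (∀ z : ℂ, 0 < z.im → ‖H z‖ ≤ C / z.im) ∧
      ∀ x y : ℝ, 0 < y → H (x + y * I) = -I * ∫ t in Ioi y, h (x + t * I) := by
  obtain ⟨F, hF⟩ := exists_prim h hd
  have hC : 0 ≤ C := by
    have := (norm_nonneg _).trans (hb I (by simp))
    simpa using this
  have him : ∀ x t : ℝ, ((x : ℂ) + t * I).im = t := by intro x t; simp
  have hder : ∀ x t : ℝ, 0 < t →
      HasDerivAt (fun t : ℝ => F (x + t * I)) (h (x + t * I) * I) t := by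
    intro x t ht
    have h1 : HasDerivAt (fun w : ℂ => (x : ℂ) + w * I) (1 * I) (t : ℂ) :=
      ((hasDerivAt_id (t : ℂ)).mul_const I).const_add _
    have h2 := ((hF (x + t * I) (by rw [him]; exact ht)).comp (t : ℂ) h1).comp_ofReal
    rw [one_mul] at h2
    exact h2
  have hint : ∀ x y : ℝ, 0 < y → IntegrableOn (fun t : ℝ => h (x + t * I)) (Ioi y) := by
    intro x y hy
    refine Integrable.mono' (inv_sq C y hC hy).1 ?_ ?_
    · refine ContinuousOn.aestronglyMeasurable ?_ measurableSet_Ioi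
      refine hd.continuousOn.comp (by fun_prop) ?_
      intro t ht
      show 0 < ((x : ℂ) + t * I).im
      rw [him]
      exact lt_trans hy ht
    · refine (ae_restrict_iff' measurableSet_Ioi).mpr (Eventually.of_forall fun t ht => ?_)
      have := hb (x + t * I) (by rw [him]; exact lt_trans hy ht)
      rwa [him] at this
  obtain ⟨L, hL⟩ : ∃ L, Tendsto (fun t : ℝ => F ((0 : ℝ) + t * I)) atTop (𝓝 L) :=
    ⟨_, tendsto_limUnder_of_hasDerivAt_of_integrableOn_Ioi (a := 1)
      (fun t ht => hder 0 t (lt_trans one_pos ht)) ((hint 0 1 one_pos).mul_const I)⟩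
  have hLx : ∀ x : ℝ, Tendsto (fun t : ℝ => F (x + t * I)) atTop (𝓝 L) := by
    intro x
    have h1 : Tendsto (fun t : ℝ => F (x + t * I) - F ((0 : ℝ) + t * I)) atTop (𝓝 0) := by
      have h2 : Tendsto (fun t : ℝ => 4 * C * |x| * (t⁻¹ * t⁻¹)) atTop (𝓝 0) := by
        simpa using (tendsto_inv_atTop_zero.mul tendsto_inv_atTop_zero).const_mul (4 * C * |x|)
      refine squeeze_zero_norm' ?_ h2
      filter_upwards [eventually_gt_atTop (0 : ℝ)] with t ht
      have h3 := (convH (t / 2)).norm_image_sub_le_of_norm_hasDerivWithin_le (f := F) (f' := h)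
        (C := C / (t / 2) ^ 2) (x := (0 : ℝ) + t * I) (y := x + t * I)
        (fun z hz => (hF z (lt_trans (by positivity) hz)).hasDerivWithinAt)
        (fun z hz => (hb z (lt_trans (by positivity) hz)).trans (by
          have hz' : t / 2 < z.im := hz
          gcongr))
        (by show t / 2 < _; rw [him]; linarith) (by show t / 2 < _; rw [him]; linarith)
      have e : (x : ℂ) + t * I - ((0 : ℝ) + t * I) = x := by simp
      rw [e, Complex.norm_real, Real.norm_eq_abs] at h3
      refine h3.trans (le_of_eq ?_)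
      field_simp
      ring
    simpa using h1.add hL
  have hkey : ∀ x y : ℝ, 0 < y → F (x + y * I) - L = -I * ∫ t in Ioi y, h (x + t * I) := by
    intro x y hy
    have h1 := integral_Ioi_of_hasDerivAt_of_tendsto' (a := y)
      (fun t ht => hder x t (lt_of_lt_of_le hy ht)) ((hint x y hy).mul_const I) (hLx x)
    rw [integral_mul_const] at h1
    linear_combination h1
  refine ⟨fun z => F z - L, fun z hz => (hF z hz).sub_const L, fun z hz => ?_, hkey⟩
  have h1 := hkey z.re z.im hz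
  rw [re_add_im] at h1
  beta_reduce
  rw [h1, norm_mul, norm_neg, norm_I, one_mul, ← (inv_sq C z.im hC hz).2]
  refine norm_integral_le_of_norm_le (inv_sq C z.im hC hz).1 ?_
  refine (ae_restrict_iff' measurableSet_Ioi).mpr (Eventually.of_forall fun t ht => ?_)
  have := hb (z.re + t * I) (by rw [him]; exact lt_trans hz ht)
  rwa [him] at this

theorem tendsto_Ioi (f : ℝ → ℂ) (hf : IntegrableOn f (Ioi 0)) :
    Tendsto (fun s : ℝ => ∫ t in Ioi s, f t) (𝓝[>] 0) (𝓝 (∫ t in Ioi 0, f t)) := by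
  have h1 : IntervalIntegrable f volume (min 0 0) (max 0 1) := by
    rw [min_self, max_eq_right zero_le_one, intervalIntegrable_iff_integrableOn_Ioc_of_le zero_le_one]
    exact hf.mono_set Ioc_subset_Ioi_self
  have h2 := (intervalIntegral.continuousWithinAt_primitive (b₀ := (0 : ℝ)) (by simp)
    h1).mono_of_mem_nhdsWithin (Icc_mem_nhdsGT zero_lt_one)
  have h3 : Tendsto (fun b : ℝ => ∫ x in (0 : ℝ)..b, f x) (𝓝[>] 0) (𝓝 0) := by
    simpa using h2.tendsto
  have h4 := h3.const_sub (∫ t in Ioi 0, f t)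
  rw [sub_zero] at h4
  refine h4.congr' ?_
  filter_upwards [self_mem_nhdsWithin] with s hs
  rw [← intervalIntegral.integral_Ioi_sub_Ioi hf (le_of_lt hs)]
  ring

/-- a holomorphic function whose real part has a maximum in absolute value is constant -/
theorem max_const (G d : ℂ → ℂ) (hG : ∀ z : ℂ, 0 < z.im → HasDerivAt G (d z) z) (z0 : ℂ)
    (h0 : 0 < z0.im) (hm : ∀ z : ℂ, 0 < z.im → |(G z).re| ≤ |(G z0).re|) (z : ℂ) (hz : 0 < z.im) :
    d z = 0 := by
  obtain ⟨σ, hσ, hσ'⟩ : ∃ σ : ℝ, |σ| = 1 ∧ σ * (G z0).re = |(G z0).re| := by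
    rcases abs_cases (G z0).re with h | h
    · exact ⟨1, by simp, by rw [h.1, one_mul]⟩
    · exact ⟨-1, by simp, by rw [h.1]; ring⟩
  have hf : ∀ z : ℂ, 0 < z.im →
      HasDerivAt (fun z => cexp (σ * G z)) (cexp (σ * G z) * (σ * d z)) z :=
    fun z hz => ((hG z hz).const_mul (σ : ℂ)).cexp
  have hc := Complex.eqOn_of_isPreconnected_of_isMaxOn_norm (f := fun z => cexp (σ * G z))
    (convH 0).isPreconnected isOpenH
    (fun z hz => (hf z hz).differentiableAt.differentiableWithinAt) h0 (by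
      intro w hw
      show ‖cexp (σ * G w)‖ ≤ ‖cexp (σ * G z0)‖
      rw [norm_exp, norm_exp, re_ofReal_mul, re_ofReal_mul, hσ', Real.exp_le_exp]
      refine (le_abs_self _).trans ?_
      rw [abs_mul, hσ, one_mul]
      exact hm w hw)
  have h1 : HasDerivAt (fun z => cexp (σ * G z)) 0 z :=
    (hasDerivAt_const z (cexp (σ * G z0))).congr_of_eventuallyEq
      (hc.eventuallyEq_of_mem (isOpenH.mem_nhds hz))
  have h2 := (hf z hz).unique h1
  have h3 : (σ : ℂ) ≠ 0 := by
    intro e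
    have : σ = 0 := by exact_mod_cast e
    rw [this] at hσ
    simp at hσ
  simpa [Complex.exp_ne_zero, h3] using h2

end Pool.Agent.MP_5f72fe_nt.MS.INJ1A
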