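import Pool.Agent.MP_5f72fe_nt.MS.S2

/-! Row LIFTJ: lifting a symbol along a surjection with kernel of order three. -/

namespace Pool.Agent.MP_5f72fe_nt.MS

namespace LIFTJA

theorem app_map {A B : Type} [AddCommGroup A] [AddCommGroup B] (f : A →+ B) (o : Op) (a : Ch A)
    (u y : ℚ) : f (app o a u y) = app o (fun u y => f (a u y)) u y := by
  induction o with
  | nil => simp [app]
  | cons x o ih =>
    simp only [app, List.map_cons, List.sum_cons, Pi.add_apply, Pi.smul_apply, map_add,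
      map_zsmul] at ih ⊢
    rw [ih]
    rfl

theorem app_sub {A : Type} [AddCommGroup A] (o : Op) (a b : Ch A) (u y : ℚ) :
    app o (a - b) u y = app o a u y - app o b u y := by
  induction o with
  | nil => simp [app]
  | cons x o ih =>
    simp only [app, List.map_cons, List.sum_cons, Pi.add_apply, Pi.smul_apply] at ih ⊢
    rw [ih]
    simp only [act, Pi.sub_apply, smul_sub]
    abel

theorem lc_comp {A B : Type} (f : A → B) {a : Ch A} (h : LC2 a) : LC2 fun u y => f (a u y) := by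
  obtain ⟨n, hn⟩ := h
  exact ⟨n, fun u y b c hu hy hb hc => by simp only [hn u y b c hu hy hb hc]⟩

theorem rho_G0 : ∀ x ∈ rho, G0 x.2 := by
  simp [rho, G0, mI, mR]

end LIFTJA

open LIFTJA in
theorem rowLIFTJ : OfLIFTJ := by
  intro hM hO hC hE hN hS A A' _ _ i π z' hi hπ hker hz'
  have hlc : LC2 (ch z') := hC.lc A' z' hz'
  have hr : EqO (app rho (ch z')) 0 := (hC.ops A' z' hz'.1).1
  set a1 : Ch A := fun u y => Function.surjInv hπ (ch z' u y) with ha1
  have hπa : ∀ u y, π (a1 u y) = ch z' u y := fun u y => Function.surjInv_eq hπ _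
  have hlc1 : LC2 a1 := lc_comp _ hlc
  have hlr : LC2 (app rho a1) := (hM.lc A a1 hlc1).2.1 rho rho_G0
  set w : Ch F3 := fun u y => Function.invFun i (app rho a1 u y) with hw
  have hiw : ∀ u y, In u → In y → i (w u y) = app rho a1 u y := by
    intro u y hu hy
    refine Function.invFun_eq ((hker _).1 ?_)
    rw [app_map]
    simp only [hπa]
    exact hr u y hu hy
  have hlw : LC2 w := lc_comp _ hlr
  have hRw : EqO (act mR w) w := by
    intro u y hu hy
    have := hM.rhoR A a1 u y hu hy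
    simp only [act, hw] at this ⊢
    rw [this]
  obtain ⟨n, hn1, hn2⟩ := hN.fin w hlw
  have hup : Up 0 0 (2 * n) (co w) := by
    intro i' j' _ _ h
    by_cases h1 : n ≤ i'
    · exact hn1 i' j' h1 (Nat.zero_le _) (Nat.zero_le _)
    · exact hn2 i' j' (Nat.zero_le _) (by omega) (Nat.zero_le _)
  obtain ⟨z1, hz1, hz2, -, -⟩ := hS w (2 * n) n hlw hRw hup hn1
  obtain ⟨M, hMm⟩ := hM.grp A
  have hla : LC2 (a1 - fun u y => i (z1 u y)) :=
    (hMm _).1 (M.sub_mem ((hMm _).2 hlc1) ((hMm _).2 (lc_comp _ hz1)))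
  have hra : EqO (app rho (a1 - fun u y => i (z1 u y))) 0 := by
    intro u y hu hy
    rw [app_sub, ← app_map, hz2 u y hu hy, hiw u y hu hy, sub_self]
    rfl
  obtain ⟨φ, hφ, hφa⟩ := hE A _ hla hra
  refine ⟨φ, hφ, fun c c' v x => ?_⟩
  obtain ⟨P, hP⟩ := hO.sy A'
  have hsy : Sy ((fun c c' v w => π (φ c c' v w)) - z') :=
    (hP _).1 (P.sub_mem ((hP _).2 ((hO.map A A' π φ).1 hφ.1)) ((hP _).2 hz'.1))
  have key := hC.uni A' _ ⊥ hsy (fun u y hu hy => by
    rw [AddSubgroup.mem_bot]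
    show π (ch φ u y) - ch z' u y = 0
    rw [hφa u y hu hy]
    show π (a1 u y - i (z1 u y)) - ch z' u y = 0
    rw [map_sub, hπa, (hker _).2 ⟨_, rfl⟩, sub_zero, sub_self]) c c' v x
  rw [AddSubgroup.mem_bot] at key
  exact sub_eq_zero.1 key

end Pool.Agent.MP_5f72fe_nt.MS
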