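import Pool.Agent.MP_5f72fe_nt.MS.S3

/-! Primitives on the upper half plane and their limits at the cusps. -/

namespace Pool.Agent.MP_5f72fe_nt.MS.PERA

open Complex MeasureTheory Set Filter
open scoped Real Topology

noncomputable section

/-- a holomorphic function on the upper half plane has a primitive -/
theorem exists_prim {f : ℂ → ℂ} (hf : DifferentiableOn ℂ f {z | 0 < z.im}) :
    ∃ F : ℂ → ℂ, ∀ z : ℂ, 0 < z.im → HasDerivAt F (f z) z := by
  have hU : IsOpen {z : ℂ | 0 < z.im} := isOpen_lt continuous_const Complex.continuous_im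
  have hb : ∀ w : ℂ, w ∈ Metric.ball (0 : ℂ) 1 → (1 - w ≠ 0 ∧ 0 < (I * (1 + w) / (1 - w)).im) := by
    intro w hw
    have hw1 : ‖w‖ < 1 := by simpa using hw
    have hn : w.re ^ 2 + w.im ^ 2 < 1 := by
      have h1 : ‖w‖ ^ 2 < 1 := by nlinarith [norm_nonneg w]
      rw [Complex.sq_norm, Complex.normSq_apply] at h1
      nlinarith
    have h0 : 1 - w ≠ 0 := by
      intro h
      have : w = 1 := by linear_combination -h
      rw [this] at hw1; simp at hw1
    refine ⟨h0, ?_⟩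
    have hp : 0 < Complex.normSq (1 - w) := Complex.normSq_pos.2 h0
    rw [Complex.div_im]
    rw [← sub_div]
    apply div_pos _ hp
    simp
    nlinarith
  have hg : DifferentiableOn ℂ (fun w => f (I * (1 + w) / (1 - w)) * (2 * I / (1 - w) ^ 2))
      (Metric.ball (0 : ℂ) 1) := by
    intro w hw
    obtain ⟨h0, h1⟩ := hb w hw
    apply DifferentiableAt.differentiableWithinAt
    apply DifferentiableAt.mul
    · have h2 : DifferentiableAt ℂ f (I * (1 + w) / (1 - w)) :=
        (hf _ h1).differentiableAt (hU.mem_nhds h1)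
      have h3 : DifferentiableAt ℂ (fun w : ℂ => I * (1 + w) / (1 - w)) w := by
        apply DifferentiableAt.div <;> [fun_prop; fun_prop; exact h0]
      exact h2.comp w h3
    · apply DifferentiableAt.div <;> [fun_prop; fun_prop; exact pow_ne_zero 2 h0]
  obtain ⟨G, hG⟩ := hg.isExactOn_ball
  refine ⟨fun z => G ((z - I) / (z + I)), fun z hz => ?_⟩
  have h0 : z + I ≠ 0 := by
    intro h
    have := congrArg Complex.im h
    simp at this
    linarith
  have hm : (z - I) / (z + I) ∈ Metric.ball (0 : ℂ) 1 := by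
    rw [mem_ball_zero_iff, norm_div, div_lt_one (norm_pos_iff.2 h0)]
    have : ‖z - I‖ ^ 2 < ‖z + I‖ ^ 2 := by
      rw [Complex.sq_norm, Complex.sq_norm, Complex.normSq_apply, Complex.normSq_apply]
      simp
      nlinarith
    exact lt_of_pow_lt_pow_left₀ 2 (norm_nonneg _) this
  have hd : HasDerivAt (fun z : ℂ => (z - I) / (z + I)) (2 * I / (z + I) ^ 2) z := by
    have h1 : HasDerivAt (fun z : ℂ => z - I) 1 z := (hasDerivAt_id z).sub_const I
    have h2 : HasDerivAt (fun z : ℂ => z + I) 1 z := (hasDerivAt_id z).add_const I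
    refine (h1.div h2 h0).congr_deriv ?_
    congr 1
    ring
  have h := (hG _ hm).comp z hd
  have e1 : 1 - (z - I) / (z + I) = 2 * I / (z + I) := by field_simp; ring
  have e2 : I * (1 + (z - I) / (z + I)) / (1 - (z - I) / (z + I)) = z := by
    rw [e1]; field_simp; ring
  refine h.congr_deriv ?_
  simp only []
  rw [e2, e1]
  field_simp

/-- the analytic data used at the cusps -/
structure Good (f : ℂ → ℂ) : Prop where
  int : ∀ q : ℚ, IntegrableOn (fun t : ℝ => f ((q : ℝ) + t * I)) (Ioi 0)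
  fin : ∀ q : ℚ, ∃ C : ℝ, ∀ z : ℂ, 0 < z.im → z.im ≤ 1 → |z.re - q| ≤ z.im → ‖f z‖ ≤ C
  inf : ∀ R : ℝ, ∃ C : ℝ, ∀ z : ℂ, 1 ≤ z.im → |z.re| ≤ R → ‖f z‖ ≤ C / z.im

/-- horizontal comparison -/
theorem horiz {f F : ℂ → ℂ} (hF : ∀ z : ℂ, 0 < z.im → HasDerivAt F (f z) z) {a b t C : ℝ}
    (ht : 0 < t) (hC : ∀ z : ℂ, z.im = t → z.re ∈ uIcc a b → ‖f z‖ ≤ C) :
    ‖F (b + t * I) - F (a + t * I)‖ ≤ C * |b - a| := by
  have hc : Convex ℝ {z : ℂ | z.im = t ∧ z.re ∈ uIcc a b} := by
    intro z hz w hw u v hu hv huv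
    refine ⟨?_, ?_⟩
    · simp [hz.1, hw.1, ← add_mul, huv]
    · simpa using (convex_uIcc a b) hz.2 hw.2 hu hv huv
  have := hc.norm_image_sub_le_of_norm_hasDerivWithin_le (𝕜 := ℂ) (f := F) (f' := f) (C := C)
    (fun z hz => (hF z (by rw [hz.1]; exact ht)).hasDerivWithinAt) (fun z hz => hC z hz.1 hz.2)
    (x := a + t * I) (y := b + t * I) (by simp) (by simp)
  convert this using 2
  rw [show (b : ℂ) + t * I - (a + t * I) = ((b - a : ℝ) : ℂ) by push_cast; ring, Complex.norm_real,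
    Real.norm_eq_abs]

theorem vder {f F : ℂ → ℂ} (hF : ∀ z : ℂ, 0 < z.im → HasDerivAt F (f z) z) (u : ℝ) {t : ℝ}
    (ht : 0 < t) : HasDerivAt (fun t : ℝ => F (u + t * I)) (I * f (u + t * I)) t := by
  have h1 : HasDerivAt (fun s : ℂ => F (u + s * I)) (f (u + t * I) * I) (t : ℂ) := by
    have h2 : HasDerivAt (fun s : ℂ => (u : ℂ) + s * I) I (t : ℂ) := by
      simpa using ((hasDerivAt_id (t : ℂ)).mul_const I).const_add (u : ℂ)
    exact (hF _ (by simpa using ht)).comp (t : ℂ) h2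
  simpa [mul_comm] using h1.comp_ofReal

/-- limits along vertical lines -/
theorem vert {f F : ℂ → ℂ} (hF : ∀ z : ℂ, 0 < z.im → HasDerivAt F (f z) z) (hg : Good f) :
    ∃ L : ℂ, ∀ q : ℚ, Tendsto (fun t : ℝ => F ((q : ℝ) + t * I)) atTop (𝓝 L) ∧
      Tendsto (fun t : ℝ => F ((q : ℝ) + t * I)) (𝓝[>] 0)
        (𝓝 (L + -I * ∫ t in Ioi (0 : ℝ), f ((q : ℝ) + t * I))) := by
  have hI : ∀ q : ℚ, IntegrableOn (fun t : ℝ => I * f ((q : ℝ) + t * I)) (Ioi 0) :=
    fun q => (hg.int q).const_mul I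
  have h0 := tendsto_limUnder_of_hasDerivAt_of_integrableOn_Ioi
    (fun t (ht : t ∈ Ioi (0 : ℝ)) => vder hF ((0 : ℚ) : ℝ) ht) (hI 0)
  set L := limUnder atTop (fun t : ℝ => F (((0 : ℚ) : ℝ) + t * I)) with hL
  refine ⟨L, fun q => ?_⟩
  have h1 : Tendsto (fun t : ℝ => F ((q : ℝ) + t * I)) atTop (𝓝 L) := by
    obtain ⟨C, hC⟩ := hg.inf |(q : ℝ)|
    have h2 : Tendsto (fun t : ℝ => F ((q : ℝ) + t * I) - F (((0 : ℚ) : ℝ) + t * I)) atTop (𝓝 0) := by
      have h3 : Tendsto (fun t : ℝ => C / t * |(q : ℝ) - ((0 : ℚ) : ℝ)|) atTop (𝓝 0) := by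
        simpa using (tendsto_const_nhds (x := C).div_atTop tendsto_id).mul_const
          |(q : ℝ) - ((0 : ℚ) : ℝ)|
      refine squeeze_zero_norm' ?_ h3
      filter_upwards [eventually_ge_atTop (1 : ℝ)] with t ht
      refine horiz hF (by linarith) fun z hz hr => ?_
      rw [← hz]
      refine hC z (by rw [hz]; exact ht) ?_
      rw [abs_le]
      rcases mem_uIcc.1 hr with h | h <;> simp only [Rat.cast_zero] at h <;> constructor <;>
        linarith [le_abs_self (q : ℝ), neg_abs_le (q : ℝ), h.1, h.2]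
    simpa using h2.add h0
  refine ⟨h1, ?_⟩
  have h4 := ((hI q).continuousWithinAt_Ici_primitive_Ioi).tendsto.mono_left
    (nhdsWithin_mono (0 : ℝ) Ioi_subset_Ici_self)
  have h5 := h4.const_sub L
  rw [integral_const_mul] at h5
  have e : L - I * ∫ t in Ioi (0 : ℝ), f ((q : ℝ) + t * I) =
      L + -I * ∫ t in Ioi (0 : ℝ), f ((q : ℝ) + t * I) := by ring
  rw [e] at h5
  refine h5.congr' ?_
  filter_upwards [self_mem_nhdsWithin] with s hs
  have hs' : 0 < s := hs
  rw [integral_Ioi_of_hasDerivAt_of_tendsto' (f := fun t : ℝ => F ((q : ℝ) + t * I))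
    (fun t ht => vder hF (q : ℝ) (lt_of_lt_of_le hs' ht))
    ((hI q).mono_set (Ioi_subset_Ioi hs'.le)) h1]
  ring

/-- the geodesic from `c'` to `c` -/
def path (c c' : V) (t : ℝ) : ℂ := ((c.1 : ℂ) + t * I * c'.1) / ((c.2 : ℂ) + t * I * c'.2)

theorem den_ne {c c' : V} (h : 0 < dt c' c) {t : ℝ} (ht : 0 < t) :
    (c.2 : ℂ) + t * I * c'.2 ≠ 0 := by
  intro h0
  have h1 := congrArg Complex.re h0
  have h2 := congrArg Complex.im h0
  simp at h1 h2
  rcases h2 with h2 | h2
  · exact ht.ne' h2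
  · simp [dt, h1, h2] at h

theorem path_eq {c c' : V} (h : 0 < dt c' c) {t : ℝ} (ht : 0 < t) :
    path c c' t = (((c.1 * c.2 + t ^ 2 * c'.1 * c'.2) / (c.2 ^ 2 + t ^ 2 * c'.2 ^ 2) : ℝ) : ℂ) +
      ((t * dt c' c / (c.2 ^ 2 + t ^ 2 * c'.2 ^ 2) : ℝ) : ℂ) * I := by
  have h0 := den_ne h ht
  have h1 : (c.2 : ℂ) - t * I * c'.2 ≠ 0 := by
    intro h1
    have h2 := congrArg Complex.re h1
    have h3 := congrArg Complex.im h1
    simp at h2 h3
    rcases h3 with h3 | h3
    · exact ht.ne' h3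
    · simp [dt, h2, h3] at h
  have e : (c.2 : ℂ) ^ 2 + t ^ 2 * c'.2 ^ 2 = (c.2 + t * I * c'.2) * (c.2 - t * I * c'.2) := by
    linear_combination ((t : ℂ) ^ 2 * c'.2 ^ 2) * I_sq
  unfold path dt
  push_cast
  rw [e]
  field_simp
  linear_combination (-(t : ℂ) ^ 2 * c'.1 * c'.2) * I_sq

theorem N_pos {c c' : V} (h : 0 < dt c' c) {t : ℝ} (ht : 0 < t) :
    (0 : ℝ) < c.2 ^ 2 + t ^ 2 * c'.2 ^ 2 := by
  by_cases h2 : c.2 = 0
  · have : c'.2 ≠ 0 := by
      intro h3; simp [dt, h2, h3] at h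
    have : (c'.2 : ℝ) ≠ 0 := by exact_mod_cast this
    positivity
  · have : (c.2 : ℝ) ≠ 0 := by exact_mod_cast h2
    positivity

theorem path_im {c c' : V} (h : 0 < dt c' c) {t : ℝ} (ht : 0 < t) : 0 < (path c c' t).im := by
  rw [path_eq h ht]
  have h1 := N_pos h ht
  have h2 : (0 : ℝ) < dt c' c := by exact_mod_cast h
  simp only [add_im, ofReal_im, mul_im, ofReal_re, I_im, I_re, mul_one, mul_zero, zero_add, add_zero]
  positivity

/-- the limit of a primitive along a geodesic ending at a cusp -/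
theorem lim {f F : ℂ → ℂ} (hF : ∀ z : ℂ, 0 < z.im → HasDerivAt F (f z) z) (hg : Good f) :
    ∃ L : ℂ, ∀ c c' : V, 0 < dt c' c →
      Tendsto (fun t => F (path c c' t)) (𝓝[>] 0) (𝓝 (L + Pc f c)) := by
  obtain ⟨L, hL⟩ := vert hF hg
  refine ⟨L, fun c c' h => ?_⟩
  have hD : (0 : ℝ) < dt c' c := by exact_mod_cast h
  by_cases h2 : c.2 = 0
  · have h3 : c'.2 ≠ 0 := by
      intro h3; simp [dt, h2, h3] at h
    have h3' : (c'.2 : ℝ) ≠ 0 := by exact_mod_cast h3
    have h4 : Tendsto (fun t : ℝ => (dt c' c : ℝ) / c'.2 ^ 2 * t⁻¹) (𝓝[>] 0) atTop :=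
      Tendsto.const_mul_atTop (by positivity) tendsto_inv_nhdsGT_zero
    have h5 := (hL (c'.1 / c'.2)).1.comp h4
    simp only [Pc, h2, if_true, add_zero]
    refine h5.congr' ?_
    filter_upwards [self_mem_nhdsWithin] with t ht
    have ht' : 0 < t := ht
    simp only [Function.comp]
    rw [path_eq h ht', h2]
    congr 3
    · congr 1
      push_cast
      field_simp
      ring
    · congr 1
      push_cast
      field_simp
      ring
  · have h2' : (c.2 : ℝ) ≠ 0 := by exact_mod_cast h2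
    set q : ℚ := c.1 / c.2 with hq
    set y : ℝ → ℝ := fun t => t * dt c' c / (c.2 ^ 2 + t ^ 2 * c'.2 ^ 2) with hy
    set x : ℝ → ℝ := fun t => (c.1 * c.2 + t ^ 2 * c'.1 * c'.2) / (c.2 ^ 2 + t ^ 2 * c'.2 ^ 2) with hx
    have hy0 : Tendsto y (𝓝[>] 0) (𝓝 0) := by
      have : ContinuousAt y 0 := by
        apply ContinuousAt.div (by fun_prop) (by fun_prop)
        simpa using h2
      simpa [hy] using this.tendsto.mono_left nhdsWithin_le_nhds
    have hyp : ∀ t : ℝ, 0 < t → 0 < y t := fun t ht => by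
      have := N_pos h ht
      simp only [hy]
      positivity
    have hy1 : Tendsto y (𝓝[>] 0) (𝓝[>] 0) := by
      refine tendsto_nhdsWithin_iff.2 ⟨hy0, ?_⟩
      filter_upwards [self_mem_nhdsWithin] with t ht using hyp t ht
    have hxy : ∀ t : ℝ, 0 < t → x t - q = t * c'.2 / c.2 * y t := fun t ht => by
      have := (N_pos h ht).ne'
      simp only [hx, hy, hq, dt]
      push_cast
      field_simp
      ring
    have hr : Tendsto (fun t : ℝ => |t * c'.2 / c.2|) (𝓝[>] 0) (𝓝 0) := by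
      have : ContinuousAt (fun t : ℝ => |t * c'.2 / c.2|) 0 := by fun_prop
      simpa using this.tendsto.mono_left nhdsWithin_le_nhds
    obtain ⟨C, hC⟩ := hg.fin q
    have h6 : Tendsto (fun t => F (x t + y t * I) - F ((q : ℝ) + y t * I)) (𝓝[>] 0) (𝓝 0) := by
      have h7 : Tendsto (fun t => |C| * y t) (𝓝[>] 0) (𝓝 0) := by simpa using hy0.const_mul |C|
      refine squeeze_zero_norm' ?_ h7
      filter_upwards [self_mem_nhdsWithin, hy0.eventually (eventually_le_nhds zero_lt_one),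
        hr.eventually (eventually_le_nhds zero_lt_one)] with t ht h8 h9
      have ht' : 0 < t := ht
      have h10 : |x t - q| ≤ y t := by
        rw [hxy t ht', abs_mul, abs_of_pos (hyp t ht')]
        exact mul_le_of_le_one_left (hyp t ht').le h9
      refine (horiz hF (C := |C|) (hyp t ht') fun z hz hz' => ?_).trans
        (mul_le_mul_of_nonneg_left h10 (abs_nonneg C))
      refine (hC z (by rw [hz]; exact hyp t ht') (by rw [hz]; exact h8) ?_).trans (le_abs_self C)
      rw [hz]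
      rw [abs_le] at h10 ⊢
      rcases mem_uIcc.1 hz' with h11 | h11 <;> constructor <;>
        linarith [h11.1, h11.2, h10.1, h10.2, hyp t ht']
    have h11 := h6.add ((hL q).2.comp hy1)
    simp only [Pc, h2, if_false]
    rw [zero_add] at h11
    have e : ∀ t : ℝ, (((q : ℚ) : ℝ) : ℂ) + t * I = ((q : ℚ) : ℂ) + t * I := fun t => by
      push_cast; rfl
    simp only [e] at h11
    refine h11.congr' ?_
    filter_upwards [self_mem_nhdsWithin] with t ht
    simp only [Function.comp]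
    rw [path_eq h ht]
    simp only [hx, hy]
    ring

end

end Pool.Agent.MP_5f72fe_nt.MS.PERA
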