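import Pool.Agent.MP_5f72fe_nt.MS.S1

/-! Lowering the degree of a symbol. -/

namespace Pool.Agent.MP_5f72fe_nt.MS

namespace REDA

theorem tt_add (a b : Sb F3) : tt (a + b) = tt a + tt b := rfl
theorem tt_sub (a b : Sb F3) : tt (a - b) = tt a - tt b := rfl
theorem tt_smul (k : ℤ) (a : Sb F3) : tt (k • a) = k • tt a := rfl
theorem cj_add (a b : Sb F3) : cj (a + b) = cj a + cj b := rfl
theorem cj_sub (a b : Sb F3) : cj (a - b) = cj a - cj b := rfl
theorem cj_smul (k : ℤ) (a : Sb F3) : cj (k • a) = k • cj a := rfl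

theorem sg_add (a b : Sb F3) : sg (a + b) = sg a + sg b := by
  funext c c' v w
  simp only [sg, Pi.add_apply]
  ring

theorem sg_sub (a b : Sb F3) : sg (a - b) = sg a - sg b := by
  funext c c' v w
  simp only [sg, Pi.sub_apply]
  ring

theorem sg_smul (k : ℤ) (a : Sb F3) : sg (k • a) = k • sg a := by
  funext c c' v w
  simp only [sg, Pi.smul_apply, smul_neg]

theorem cf_add (h : RowN2) (a b : Sb F3) (i j : ℕ) : cf (a + b) i j = cf a i j + cf b i j := by
  obtain ⟨C, hC⟩ := h.lin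
  have e : ch (a + b) = ch a + ch b := rfl
  simp only [cf, ← hC, e, map_add, Pi.add_apply]

theorem cf_sub (h : RowN2) (a b : Sb F3) (i j : ℕ) : cf (a - b) i j = cf a i j - cf b i j := by
  obtain ⟨C, hC⟩ := h.lin
  have e : ch (a - b) = ch a - ch b := rfl
  simp only [cf, ← hC, e, map_sub, Pi.sub_apply]

theorem cf_smul (h : RowN2) (k : ℤ) (a : Sb F3) (i j : ℕ) :
    cf (k • a) i j = (k : F3) * cf a i j := by
  obtain ⟨C, hC⟩ := h.lin
  have e : ch (k • a) = k • ch a := rfl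
  unfold cf
  rw [← hC, ← hC, e, map_zsmul, Pi.smul_apply, Pi.smul_apply, zsmul_eq_mul]

theorem cf_sg (hc : RowCH) (h : RowN2) (a : Sb F3) (ha : Sy a) (i j : ℕ) :
    cf (sg a) i j = cf a j i := by
  have e := h.congr _ _ (hc.ops F3 a ha).2.2.2
  simp only [cf]
  rw [e, h.swap]

theorem rgr_congr (d : ℕ) (c c' : Ar) (h : ∀ i j, i + j = d → c i j = c' i j) (i j : ℕ)
    (hd : i + j + 3 = d) : rgr c i j = rgr c' i j := by
  unfold rgr
  split_ifs with h1
  · refine Finset.sum_congr rfl fun m hm => h _ _ ?_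
    have := (Finset.mem_Icc.mp hm).2
    omega
  · rfl

theorem rgr_lin (x y : F3) (c c' : Ar) (i j : ℕ) :
    rgr (fun i j => x * c i j + y * c' i j) i j = x * rgr c i j + y * rgr c' i j := by
  unfold rgr
  split_ifs with h1
  · rw [Finset.sum_add_distrib, Finset.mul_sum, Finset.mul_sum]
  · ring

theorem rgr_swap (c : Ar) (i j : ℕ) : rgr (fun i j => c j i) i j = rgr c j i := by
  unfold rgr
  by_cases h1 : i % 3 + j % 3 ≤ 2
  · have h2 : j % 3 + i % 3 ≤ 2 := by omega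
    rw [if_pos h1, if_pos h2]
    refine Finset.sum_nbij' (fun m => 3 - m) (fun m => 3 - m) ?_ ?_ ?_ ?_ ?_
    · intro m hm
      simp only [Finset.mem_Icc] at hm ⊢
      omega
    · intro m hm
      simp only [Finset.mem_Icc] at hm ⊢
      omega
    · intro m hm
      simp only [Finset.mem_Icc] at hm ⊢
      omega
    · intro m hm
      simp only [Finset.mem_Icc] at hm ⊢
      omega
    · intro m hm
      simp only [Finset.mem_Icc] at hm
      have e1 : j + 3 - m = j + (3 - m) := by omega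
      have e2 : i + m = i + 3 - (3 - m) := by omega
      rw [e1, ← e2]
  · have h2 : ¬ (j % 3 + i % 3 ≤ 2) := by omega
    rw [if_neg h1, if_neg h2]

theorem ker (c : Ar) (B j : ℕ) (hj : j % 3 = 0) (h0 : rgr c B j = 0)
    (hs : ∀ i k, B < i → c i k = 0) : c B (j + 3) = 0 := by
  unfold rgr at h0
  rw [if_pos (by omega), hj] at h0
  rw [Finset.sum_eq_single 0] at h0
  · simpa using h0
  · intro m _ hm
    exact hs _ _ (by omega)
  · intro hm
    exact absurd (Finset.mem_Icc.mpr ⟨le_rfl, Nat.zero_le _⟩) hm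

theorem rgr_cf (hc : RowCH) (h : RowN2) (hr : RowRT) (a : Sb F3) (ha : SL a) (d : ℕ)
    (hu : Up 0 0 (d + 1) (cf a)) (i j : ℕ) (hd : i + j + 3 = d) : rgr (cf a) i j = 0 := by
  have h1 := (hr (ch a) i j (hc.lc F3 a ha)).2
    (fun i' j' _ _ hn => hu i' j' (Nat.zero_le _) (Nat.zero_le _) (by omega))
  have h2 := h.congr _ _ (hc.ops F3 a ha.1).1
  obtain ⟨C, hC⟩ := h.lin
  have h3 : co (0 : Ch F3) = 0 := by rw [← hC, map_zero]
  rw [h2, h3] at h1
  exact h1.symm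

/-- the data carried along -/
structure St (τ : ℤ) (d : ℕ) (φ : Sb F3) : Prop where
  sl : SL φ
  par : cj φ = (-1 : ℤ) ^ d • φ
  sym : sg φ = τ • φ
  up : Up 0 0 (d + 1) (cf φ)
  mid : Mid d (cf φ)

theorem St.sub (ho : RowOPS) (h : RowN2) {τ : ℤ} {d : ℕ} {a b : Sb F3} (k : ℤ) (ha : St τ d a)
    (hb : St τ d b) : St τ d (a - k • b) := by
  obtain ⟨M, hM⟩ := ho.sl F3
  refine ⟨(hM _).mp (M.sub_mem ((hM _).mpr ha.sl) (M.zsmul_mem ((hM _).mpr hb.sl) k)), ?_, ?_,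
    ?_, ?_⟩
  · rw [cj_sub, cj_smul, ha.par, hb.par, smul_sub, smul_comm k]
  · rw [sg_sub, sg_smul, ha.sym, hb.sym, smul_sub, smul_comm k]
  · intro i j h1 h2 h3
    rw [cf_sub h, cf_smul h, ha.up i j h1 h2 h3, hb.up i j h1 h2 h3]
    ring
  · intro i j h1 h2 h3
    rw [cf_sub h, cf_smul h, ha.mid i j h1 h2 h3, hb.mid i j h1 h2 h3]
    ring

/-- the symmetrised coboundary -/
theorem nz (ho : RowOPS) (hc : RowCH) (h : RowN2) (τ : ℤ) (hτ : τ = 1 ∨ τ = -1) (d : ℕ)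
    (hd : 1 ≤ d) (z : Sb F3) (hz : SL z) (hp : cj z = (-1 : ℤ) ^ d • z)
    (h1 : Up 0 0 (d + 1) (cf z)) (h2 : Up ((d + 1) / 4 + 1) 0 0 (cf z))
    (h3 : Up 0 0 (d + 1) (cf (tt z)))
    (h4 : ∀ i j, i + j = d → (d + 1) / 4 < j → cf (tt z) i j = 0) :
    ∃ w : Sb F3, SL w ∧ cj w = (-1 : ℤ) ^ d • w ∧ St τ d (w - τ • tt w) ∧
      ∀ i j, i + j = d → i ≤ (d + 1) / 4 → cf (w - τ • tt w) i j = cf z i j - cf (tt z) j i := by
  obtain ⟨M, hM⟩ := ho.sl F3
  have ht : SL (tt z) := (ho.slOp F3 z hz).1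
  have hst : SL (sg (tt z)) := (ho.slOp F3 _ ht).2.2.1
  have hw : SL (z - sg (tt z)) := (hM _).mp (M.sub_mem ((hM _).mpr hz) ((hM _).mpr hst))
  have htw : SL (tt (z - sg (tt z))) := (ho.slOp F3 _ hw).1
  have a1 := ho.alg F3 z hz.1
  have a2 := ho.alg F3 (tt z) ht.1
  have hτ2 : τ * τ = 1 := by rcases hτ with rfl | rfl <;> norm_num
  have hpw : cj (z - sg (tt z)) = (-1 : ℤ) ^ d • (z - sg (tt z)) := by
    rw [cj_sub, a2.2.2.2.2.1, a1.2.2.2.1, hp, tt_smul, sg_smul, smul_sub]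
  have e : z - sg (tt z) - τ • tt (z - sg (tt z)) =
      z - sg (tt z) - τ • tt z + τ • sg z := by
    rw [tt_sub, a1.2.2.1, smul_sub]
    abel
  have hcf : ∀ i j, cf (z - sg (tt z) - τ • tt (z - sg (tt z))) i j =
      cf z i j - cf (tt z) j i - (τ : F3) * cf (tt z) i j + (τ : F3) * cf z j i := by
    intro i j
    rw [e, cf_add h, cf_sub h, cf_sub h, cf_smul h, cf_smul h, cf_sg hc h _ ht.1,
      cf_sg hc h _ hz.1]
  refine ⟨z - sg (tt z), hw, hpw, ⟨?_, ?_, ?_, ?_, ?_⟩, ?_⟩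
  · exact (hM _).mp (M.sub_mem ((hM _).mpr hw) (M.zsmul_mem ((hM _).mpr htw) τ))
  · rw [cj_sub, cj_smul, (ho.alg F3 _ hw.1).2.2.2.1, hpw, tt_smul, smul_sub ((-1 : ℤ) ^ d)
      (z - sg (tt z)), smul_comm τ]
  · rw [e, sg_add, sg_sub, sg_sub, sg_smul, sg_smul, a1.2.1, a2.2.1, smul_add, smul_sub,
      smul_sub, smul_smul, smul_smul, hτ2, one_smul, one_smul]
    abel
  · intro i j g1 g2 g3
    rw [hcf, h1 i j g1 g2 g3, h3 i j g1 g2 g3, h1 j i g2 g1 (by omega), h3 j i g2 g1 (by omega)]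
    ring
  · intro i j g1 g2 g3
    rw [hcf, h2 i j g2 (Nat.zero_le _) (Nat.zero_le _), h2 j i g3 (Nat.zero_le _) (Nat.zero_le _),
      h4 i j g1 g3, h4 j i (by omega) g2]
    ring
  · intro i j g1 g2
    rw [hcf, h2 j i (by omega) (Nat.zero_le _) (Nat.zero_le _), h4 i j g1 (by omega)]
    ring

theorem lo_up (B : ℕ) (c : Ar) : Up B 0 0 (lo B c) := by
  intro i j h _ _
  simp only [lo]
  rw [if_neg (by omega)]

/-- the second step -/
theorem step2 (ho : RowOPS) (hc : RowCH) (h : RowN2) (hl : RowLIFT) (ht : RowTZ) (τ : ℤ)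
    (hτ : τ = 1 ∨ τ = -1) (d : ℕ) (hd : 1 ≤ d) (φ : Sb F3) (hφ : St τ d φ)
    (hg : ∀ i j, i + j + 3 = d → rgr (lo ((d + 1) / 4 + 1) (cf φ)) i j = 0)
    (hA : d % 4 ≠ 0 → cf φ ((d + 1) / 4) (d - (d + 1) / 4) = 0) :
    ∃ w : Sb F3, SL w ∧ cj w = (-1 : ℤ) ^ d • w ∧ St τ d (w - τ • tt w) ∧
      Up 0 0 d (cf (φ - (w - τ • tt w))) := by
  have hk : ∀ i j, i + j = d → d / 4 ≤ i → i ≤ (d + 1) / 4 → cf φ i j = 0 := by
    intro i j g1 g2 g3
    by_cases hi : d % 4 ≠ 0 ∧ i = (d + 1) / 4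
    · have e : j = d - (d + 1) / 4 := by omega
      rw [hi.2, e]
      exact hA hi.1
    · obtain ⟨j', rfl⟩ : ∃ j', j = j' + 3 := ⟨j - 3, by omega⟩
      have h0 : rgr (lo (i + 1) (cf φ)) i j' = 0 := by
        rw [← hg i j' (by omega)]
        refine rgr_congr d _ _ ?_ i j' (by omega)
        intro a b hab
        simp only [lo]
        by_cases c1 : a < i + 1
        · rw [if_pos c1, if_pos (by omega)]
        · rw [if_neg c1]
          by_cases c2 : a < (d + 1) / 4 + 1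
          · rw [if_pos c2]
            have e1 : a = (d + 1) / 4 := by omega
            have e2 : b = d - (d + 1) / 4 := by omega
            rw [e1, e2]
            exact (hA (by omega)).symm
          · rw [if_neg c2]
      have h1 := ker _ i j' (by omega) h0 (fun a b hab => by
        simp only [lo]
        rw [if_neg (by omega)])
      simp only [lo] at h1
      rwa [if_pos (by omega)] at h1
  obtain ⟨z, z1, z2, z3, z4, z5⟩ := hl d (d / 4) (lo (d / 4) (cf φ)) (lo_up _ _) (by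
    intro i j hij
    rw [← hg i j hij]
    refine rgr_congr d _ _ ?_ i j hij
    intro a b hab
    simp only [lo]
    by_cases c1 : a < d / 4
    · rw [if_pos c1, if_pos (by omega)]
    · rw [if_neg c1]
      by_cases c2 : a < (d + 1) / 4 + 1
      · rw [if_pos c2]
        exact (hk a b hab (by omega) (by omega)).symm
      · rw [if_neg c2])
  have hdeep := ht.deep z d z1 z3 z4
  obtain ⟨w, w1, w2, w3, w4⟩ := nz ho hc h τ hτ d hd z z1 z2 z3
    (fun i j g1 g2 g3 => z4 i j (by omega) g2 g3)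
    (fun i j g1 g2 g3 => hdeep i j g1 g2 (by omega))
    (fun i j g1 _ => hdeep i j (Nat.zero_le _) (Nat.zero_le _) (by omega))
  refine ⟨w, w1, w2, w3, ?_⟩
  have hs := hφ.sub ho h 1 w3
  rw [one_smul] at hs
  have hlo : ∀ i j, i + j = d → i ≤ (d + 1) / 4 → cf (φ - (w - τ • tt w)) i j = 0 := by
    intro i j g1 g2
    rw [cf_sub h, w4 i j g1 g2, hdeep j i (Nat.zero_le _) (Nat.zero_le _) (by omega), z5 i j g1]
    simp only [lo]
    by_cases c1 : i < d / 4
    · rw [if_pos c1]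
      ring
    · rw [if_neg c1, hk i j g1 (by omega) g2]
      ring
  intro i j g1 g2 g3
  by_cases c0 : d + 1 ≤ i + j
  · exact hs.up i j g1 g2 c0
  · have e : i + j = d := by omega
    by_cases c1 : i ≤ (d + 1) / 4
    · exact hlo i j e c1
    · by_cases c2 : j ≤ (d + 1) / 4
      · rw [← cf_sg hc h _ hs.sl.1, hs.sym, cf_smul h, hlo j i (by omega) c2, mul_zero]
      · exact hs.mid i j e (by omega) (by omega)

/-- a lift that meets the extra hypotheses in low degree -/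
theorem lift1 (ho : RowOPS) (h : RowN2) (hl : RowLIFT) (d : ℕ) (c : Ar)
    (h1 : Up ((d + 1) / 4 + 1) 0 0 c) (h2 : ∀ i j, i + j + 3 = d → rgr c i j = 0) :
    ∃ z : Sb F3, SL z ∧ cj z = (-1 : ℤ) ^ d • z ∧ Up 0 0 (d + 1) (cf z) ∧
      Up ((d + 1) / 4 + 1) 0 0 (cf z) ∧ (∀ i j, i + j = d → cf z i j = c i j) ∧
      (d = 2 → cf z 0 0 = cf z 0 2) ∧ (d = 3 → cf z 1 0 = cf z 1 2) := by
  obtain ⟨z, z1, z2, z3, z4, z5⟩ := hl d _ c h1 h2
  obtain ⟨M, hM⟩ := ho.sl F3
  by_cases c1 : d = 2 ∨ d = 3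
  · obtain ⟨e, rfl⟩ : ∃ e, d = e + 2 := ⟨d - 2, by omega⟩
    obtain ⟨y, y1, y2, y3, y4, y5⟩ := hl e ((e + 2 + 1) / 4 + 1)
      (lo ((e + 2 + 1) / 4 + 1) fun _ _ => cf z e 2 - cf z e 0) (lo_up _ _)
      (fun i j hij => absurd hij (by omega))
    have hy : cf y e 0 = cf z e 2 - cf z e 0 := by
      rw [y5 e 0 (by omega)]
      simp only [lo]
      rw [if_pos (by omega)]
    have hk : cf (z + y) e 0 = cf (z + y) e 2 := by
      rw [cf_add h, cf_add h, hy, y3 e 2 (Nat.zero_le _) (Nat.zero_le _) (by omega)]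
      ring
    refine ⟨z + y, (hM _).mp (M.add_mem ((hM _).mpr z1) ((hM _).mpr y1)), ?_, ?_, ?_, ?_, ?_, ?_⟩
    · rw [cj_add, z2, y2, smul_add, pow_add]
      norm_num
    · intro i j g1 g2 g3
      rw [cf_add h, z3 i j g1 g2 g3, y3 i j g1 g2 (by omega), add_zero]
    · intro i j g1 g2 g3
      rw [cf_add h, z4 i j g1 g2 g3, y4 i j g1 g2 g3, add_zero]
    · intro i j g1
      rw [cf_add h, z5 i j g1, y3 i j (Nat.zero_le _) (Nat.zero_le _) (by omega), add_zero]
    · intro g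
      have e0 : e = 0 := by omega
      subst e0
      exact hk
    · intro g
      have e0 : e = 1 := by omega
      subst e0
      exact hk
  · exact ⟨z, z1, z2, z3, z4, z5, fun g => absurd (Or.inl g) c1, fun g => absurd (Or.inr g) c1⟩

end REDA

open REDA in
theorem rowRED : OfRED := by
  intro ho hc h hr hl ht τ φ d hτ hd p1 p2 p3 p4 p5
  have hφ : St τ d φ := ⟨p1, p2, p3, p4, p5.1⟩
  by_cases h4 : d % 4 = 0
  · obtain ⟨w, w1, w2, w3, w4⟩ := step2 ho hc h hl ht τ hτ d hd φ hφ p5.2 (fun g => absurd h4 g)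
    exact ⟨w, w1, w2, w3.sym, w4⟩
  · obtain ⟨z, z1, z2, z3, z4, z5, z6, z7⟩ := lift1 ho h hl d _ (lo_up _ (cf φ)) p5.2
    obtain ⟨t1, t2, t3⟩ := ht.edge z d z1 h4 z2 z3 z4 z6 z7
    obtain ⟨u, u1, u2, u3, u4⟩ := nz ho hc h τ hτ d hd z z1 z2 z3 z4 t1 t2
    obtain ⟨k, hk⟩ : ∃ k : ℤ, k = if d % 4 = 2 then 1 else -1 := ⟨_, rfl⟩
    have hs := hφ.sub ho h k u3
    have hlo : ∀ i j, i + j = d → lo ((d + 1) / 4 + 1) (cf (φ - k • (u - τ • tt u))) i j =
        (1 - (k : F3)) * lo ((d + 1) / 4 + 1) (cf φ) i j + (k : F3) * cf (tt z) j i := by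
      intro i j g
      by_cases c1 : i < (d + 1) / 4 + 1
      · have e := z5 i j g
        simp only [lo] at e ⊢
        rw [if_pos c1] at e
        rw [if_pos c1, if_pos c1, cf_sub h, cf_smul h, u4 i j g (by omega), e]
        ring
      · simp only [lo]
        rw [if_neg c1, if_neg c1, t2 j i (by omega) (by omega)]
        ring
    obtain ⟨w, w1, w2, w3, w4⟩ := step2 ho hc h hl ht τ hτ d hd _ hs (by
      intro i j g
      rw [rgr_congr d _ _ hlo i j g,
        rgr_lin (1 - (k : F3)) (k : F3) (lo ((d + 1) / 4 + 1) (cf φ)) (fun i j => cf (tt z) j i),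
        p5.2 i j g, rgr_swap, rgr_cf hc h hr _ (ho.slOp F3 z z1).1 d t1 j i (by omega)]
      ring) (by
      intro _
      have g : (d + 1) / 4 + (d - (d + 1) / 4) = d := by omega
      have e := z5 _ _ g
      simp only [lo] at e
      rw [if_pos (by omega)] at e
      rw [cf_sub h, cf_smul h, u4 _ _ g le_rfl, t3, e, hk]
      by_cases c1 : d % 4 = 2
      · rw [if_pos c1, if_pos c1]
        push_cast
        ring
      · rw [if_neg c1, if_neg c1]
        have h3 : (3 : F3) = 0 := rfl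
        push_cast
        linear_combination cf φ ((d + 1) / 4) (d - (d + 1) / 4) * h3)
    obtain ⟨M, hM⟩ := ho.sl F3
    have e : k • u + w - τ • tt (k • u + w) = k • (u - τ • tt u) + (w - τ • tt w) := by
      rw [tt_add, tt_smul, smul_add, smul_sub, smul_comm τ k]
      abel
    refine ⟨k • u + w, (hM _).mp (M.add_mem (M.zsmul_mem ((hM _).mpr u1) k) ((hM _).mpr w1)),
      ?_, ?_, ?_⟩
    · rw [cj_add, cj_smul, u2, w2, smul_add, smul_comm k]
    · rw [e, sg_add, sg_smul, u3.sym, w3.sym, smul_add, smul_comm k]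
    · rw [e, ← sub_sub]
      exact w4

end Pool.Agent.MP_5f72fe_nt.MS
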