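import Mathlib

/-! Modular symbols at `3`, statements, part 1: symbols, charts, the degree filtration. -/

namespace Pool.Agent.MP_5f72fe_nt.MS

open scoped NumberTheorySymbols

noncomputable section

/-! ### Numbers, vectors, matrices -/

/-- integral at `3` -/
def In (x : ℚ) : Prop := ¬ 3 ∣ x.den

/-- a unit at `3` -/
def Un (x : ℚ) : Prop := In x ∧ ¬ (3 : ℤ) ∣ x.num

instance (x : ℚ) : Decidable (In x) := inferInstanceAs (Decidable (¬ 3 ∣ x.den))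

/-- reduction modulo `m` -/
def red (m : ℕ) (x : ℚ) : ZMod m := (x.num : ZMod m) * (x.den : ZMod m)⁻¹

abbrev V := ℚ × ℚ

def dt (v w : V) : ℚ := v.1 * w.2 - v.2 * w.1

def e1 : V := (1, 0)

def e2 : V := (0, 1)

/-- the matrix with rows `(p, q)` and `(r, s)` -/
abbrev Mt := ℤ × ℤ × ℤ × ℤ

def det (g : Mt) : ℤ := g.1 * g.2.2.2 - g.2.1 * g.2.2.1

def mul (g h : Mt) : Mt :=
  (g.1 * h.1 + g.2.1 * h.2.2.1, g.1 * h.2.1 + g.2.1 * h.2.2.2,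
    g.2.2.1 * h.1 + g.2.2.2 * h.2.2.1, g.2.2.1 * h.2.1 + g.2.2.2 * h.2.2.2)

def adj (g : Mt) : Mt := (g.2.2.2, -g.2.1, -g.2.2.1, g.1)

def ap (g : Mt) (v : V) : V := (g.1 * v.1 + g.2.1 * v.2, g.2.2.1 * v.1 + g.2.2.2 * v.2)

def mI : Mt := (1, 0, 0, 1)
def mS : Mt := (0, -1, 1, 0)
def mT : Mt := (1, 1, 0, 1)
def mL : Mt := (1, 0, 3, 1)
def mU : Mt := (1, 0, 1, 1)
def mR : Mt := (1, -1, 3, -2)
def mD : Mt := (3, 0, 0, 1)
def mN : Mt := (-1, 0, 0, 1)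
def mW : Mt := (0, 1, 3, 0)
def mH : Mt := (13, -3, 9, -2)

def pw (g : Mt) : ℕ → Mt
  | 0 => mI
  | n + 1 => mul (pw g n) g

/-- arithmetic at `3` -/
structure RowBAS : Prop where
  ring : ∃ O : Subring ℚ, ∀ x, x ∈ O ↔ In x
  int : ∀ n : ℤ, (In ((n : ℚ) / 3) ↔ 3 ∣ n) ∧ (Un n ↔ ¬ 3 ∣ n)
  un : ∀ x, Un x ↔ In x ∧ ¬ In (x / 3)
  un' : ∀ x, Un x ↔ x ≠ 0 ∧ In x ∧ In x⁻¹
  unMul : ∀ x y, Un x → Un y → Un (x * y) ∧ Un (x / y) ∧ Un x⁻¹ ∧ Un (-x)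
  unAdd : ∀ x y, Un x → In y → Un (x + 3 * y)
  div : ∀ x y, In x → Un y → In (x / y)
  prime : ∀ x y, In x → In y → In (x * y / 3) → In (x / 3) ∨ In (y / 3)
  tri : ∀ x, In x → In (x / 3) ∨ In ((x - 1) / 3) ∨ In ((x + 1) / 3)
  nat : ∀ (x : ℚ) (n : ℕ), In x → ∃ m : ℕ, m < 3 ^ n ∧ In ((x - m) / 3 ^ n)
  val : ∀ x : ℚ, x ≠ 0 → ∃ e : ℤ, Un (x * 3 ^ e)
  big : ∀ x : ℚ, ∃ e : ℕ, In (3 ^ e * x)
  sep : ∀ x : ℚ, (∀ j : ℕ, In (x / 3 ^ j)) → x = 0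
  zint : ∀ (x : ℚ) (e : ℕ) (n : ℤ), In x → 3 ^ e * x = n → ∃ m : ℤ, x = m
  redAdd : ∀ (j : ℕ) (x y : ℚ), In x → In y → red (3 ^ j) (x + y) = red (3 ^ j) x + red (3 ^ j) y
  redMul : ∀ (j : ℕ) (x y : ℚ), In x → In y → red (3 ^ j) (x * y) = red (3 ^ j) x * red (3 ^ j) y
  redInt : ∀ (j : ℕ) (n : ℤ), red (3 ^ j) n = n
  redZero : ∀ (j : ℕ) (x : ℚ), In x → (red (3 ^ j) x = 0 ↔ In (x / 3 ^ j))
  red3 : (∀ x y, In x → In y → red 3 (x + y) = red 3 x + red 3 y) ∧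
    (∀ x y, In x → In y → red 3 (x * y) = red 3 x * red 3 y) ∧ (∀ n : ℤ, red 3 n = n) ∧
    ∀ x, In x → (red 3 x = 0 ↔ In (x / 3))

/-- strong approximation -/
def RowSA : Prop :=
  ∀ (n : ℕ) (v w : V), dt v w ≠ 0 → ∃ (g : Mt) (a m : ℕ) (x y b c : ℚ), det g = 3 ^ a ∧
    Un x ∧ Un y ∧ In b ∧ In c ∧ (3 ^ m : ℚ) • v = ap g (3 ^ n * b, x) ∧
    (3 ^ m : ℚ) • w = ap g (y, 3 ^ n * c)

/-- generators -/
structure RowGEN : Prop where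
  all : ∀ P : Mt → Prop, P mI → (∀ g, P g → P (mul mS g)) → (∀ g, P g → P (mul mT g)) →
    (∀ g, P g → P (mul (adj mT) g)) → (∀ g, P g → P (mul mD g)) →
    ∀ (g : Mt) (a : ℕ), det g = 3 ^ a → P g
  one : ∀ P : Mt → Prop, P mI → (∀ g, P g → P (mul mS g)) → (∀ g, P g → P (mul mT g)) →
    (∀ g, P g → P (mul (adj mT) g)) → ∀ g : Mt, det g = 1 → P g
  three : ∀ P : Mt → Prop, P mI → P (-1, 0, 0, -1) → (∀ g, P g → P (mul mT g)) →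
    (∀ g, P g → P (mul (adj mT) g)) → (∀ g, P g → P (mul mL g)) → (∀ g, P g → P (mul (adj mL) g)) →
    ∀ g : Mt, det g = 1 → 3 ∣ g.2.2.1 → P g

/-! ### Symbols -/

/-- an additive function of pairs of cusps -/
structure Ad {A : Type} [AddCommGroup A] (f : V → V → A) : Prop where
  hom : ∀ (c : V) (l : ℚ), c ≠ 0 → l ≠ 0 → f c (l • c) = 0
  add : ∀ c c' c'' : V, c ≠ 0 → c' ≠ 0 → c'' ≠ 0 → f c c' + f c' c'' = f c c''

/-- unimodular pairs generate -/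
def RowIND1 : Prop :=
  ∀ (A : Type) [AddCommGroup A] (f : V → V → A) (P : AddSubgroup A), Ad f →
    (∀ g : Mt, det g = 1 → f (ap g e1) (ap g e2) ∈ P) → ∀ c c' : V, c ≠ 0 → c' ≠ 0 → f c c' ∈ P

/-- the relations of Manin are complete -/
def RowMANIN : Prop :=
  ∀ (A : Type) [AddCommGroup A] (μ : Mt → A),
    (∀ g, det g = 1 → μ g + μ (mul g mS) = 0) →
    (∀ g, det g = 1 → μ g = μ (mul g mT) + μ (mul g mU)) →
    ∃ f : V → V → A, Ad f ∧ ∀ g, det g = 1 → f (ap g e1) (ap g e2) = μ g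

abbrev Sb (A : Type) := V → V → V → V → A

/-- left translation -/
def lf {A : Type} (g : Mt) (φ : Sb A) : Sb A :=
  fun c c' v w => φ (ap g c) (ap g c') (ap g v) (ap g w)

/-- a symbol -/
structure Sy {A : Type} [AddCommGroup A] (φ : Sb A) : Prop where
  junk : ∀ c c' v w : V, c = 0 ∨ c' = 0 ∨ dt v w = 0 → φ c c' v w = 0
  ad : ∀ v w : V, Ad fun c c' => φ c c' v w
  inv : ∀ (g : Mt) (a : ℕ), det g = 3 ^ a → lf g φ = φ
  tor : ∀ (c c' v w : V) (x y : ℚ), Un x → Un y → φ c c' (x • v) (y • w) = φ c c' v w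

/-- invariance on the right, level `n` -/
def RK {B : Type} (n : ℕ) (F : V → V → B) : Prop :=
  ∀ (v w : V) (x y b c : ℚ), Un x → Un y → In b → In c →
    F (x • v + (3 ^ n * b) • w) (y • w + (3 ^ n * c) • v) = F v w

/-- a locally constant symbol -/
def SL {A : Type} [AddCommGroup A] (φ : Sb A) : Prop :=
  Sy φ ∧ ∃ n : ℕ, 1 ≤ n ∧ ∀ c c', RK n (φ c c')

def tt {A : Type} (φ : Sb A) : Sb A := fun c c' v w => φ c c' v ((3 : ℚ) • w)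

def cj {A : Type} (φ : Sb A) : Sb A := lf mN φ

def sg {A : Type} [AddCommGroup A] (φ : Sb A) : Sb A :=
  fun c c' v w => -φ (ap mN c) (ap mN c') (ap mN w) ((3 : ℚ) • ap mN v)

/-- the Hecke operator -/
def Tl {A : Type} [AddCommGroup A] (l : ℕ) (φ : Sb A) : Sb A :=
  lf (l, 0, 0, 1) φ + ∑ j ∈ Finset.range l, lf (1, j, 0, l) φ

/-- words in two Hecke operators -/
def wd {A : Type} [AddCommGroup A] : List Bool → Sb A → Sb A
  | [], φ => φ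
  | b :: l, φ => wd l (Tl (if b then 2 else 7) φ)

/-- the twisted central value -/
def ell {A : Type} [AddCommGroup A] (N : ℕ) (φ : Sb A) : A :=
  ∑ m ∈ Finset.range N, J(m | N) • φ e1 (m, N) (m, N) e1

/-- the permutation of cosets -/
def RowHK : Prop :=
  ∀ (B : Type) [AddCommGroup B] (Ψ : Mt → B) (l : ℕ), l = 2 ∨ l = 7 →
    (∀ (g m : Mt) (a : ℕ), det g = 3 ^ a → Ψ (mul g m) = Ψ m) →
    (∀ (g : Mt) (a : ℕ), det g = 3 ^ a →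
      Ψ (mul (l, 0, 0, 1) g) + ∑ j ∈ Finset.range l, Ψ (mul (1, j, 0, l) g) =
        Ψ (l, 0, 0, 1) + ∑ j ∈ Finset.range l, Ψ (1, j, 0, l)) ∧
    Ψ (mul (l, 0, 0, 1) mN) + ∑ j ∈ Finset.range l, Ψ (mul (1, j, 0, l) mN) =
      Ψ (mul mN (l, 0, 0, 1)) + ∑ j ∈ Finset.range l, Ψ (mul mN (1, j, 0, l))

/-- the operators -/
structure RowOPS : Prop where
  sy : ∀ (A : Type) [AddCommGroup A], ∃ M : AddSubgroup (Sb A), ∀ φ, φ ∈ M ↔ Sy φ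
  sl : ∀ (A : Type) [AddCommGroup A], ∃ M : AddSubgroup (Sb A), ∀ φ, φ ∈ M ↔ SL φ
  syOp : ∀ (A : Type) [AddCommGroup A] (φ : Sb A), Sy φ →
    Sy (tt φ) ∧ Sy (cj φ) ∧ Sy (sg φ) ∧ Sy (Tl 2 φ) ∧ Sy (Tl 7 φ) ∧ ∀ l, Sy (wd l φ)
  slOp : ∀ (A : Type) [AddCommGroup A] (φ : Sb A), SL φ →
    SL (tt φ) ∧ SL (cj φ) ∧ SL (sg φ) ∧ SL (Tl 2 φ) ∧ SL (Tl 7 φ) ∧ ∀ l, SL (wd l φ)
  map : ∀ (A B : Type) [AddCommGroup A] [AddCommGroup B] (i : A →+ B) (φ : Sb A),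
    (Sy φ → Sy fun c c' v w => i (φ c c' v w)) ∧ (SL φ → SL fun c c' v w => i (φ c c' v w)) ∧
    ∀ l N, ell N (wd l fun c c' v w => i (φ c c' v w)) = i (ell N (wd l φ))
  comap : ∀ (A B : Type) [AddCommGroup A] [AddCommGroup B] (i : A →+ B) (φ : Sb A),
    Function.Injective i → (SL fun c c' v w => i (φ c c' v w)) → SL φ
  lin : ∀ (A : Type) [AddCommGroup A], ∃ (t c s : Sb A →+ Sb A) (T : ℕ → Sb A →+ Sb A)
    (W : List Bool → Sb A →+ Sb A) (L : ℕ → Sb A →+ A), ∀ φ, t φ = tt φ ∧ c φ = cj φ ∧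
      s φ = sg φ ∧ (∀ l, T l φ = Tl l φ) ∧ (∀ l, W l φ = wd l φ) ∧ ∀ N, L N φ = ell N φ
  alg : ∀ (A : Type) [AddCommGroup A] (φ : Sb A), Sy φ → cj (cj φ) = φ ∧ sg (sg φ) = φ ∧
    tt (sg (tt φ)) = sg φ ∧ cj (tt φ) = tt (cj φ) ∧ cj (sg φ) = sg (cj φ) ∧
    ∀ l, wd l (tt φ) = tt (wd l φ) ∧ wd l (cj φ) = cj (wd l φ) ∧ wd l (sg φ) = sg (wd l φ)

/-- the functional is an eigenvector -/
def RowELL : Prop :=
  ∀ (A : Type) [AddCommGroup A] (φ : Sb A) (N : ℕ), Sy φ → Odd N → ¬ 3 ∣ N →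
    ell N (tt φ) = J(3 | N) • ell N φ ∧ ell N (cj φ) = J(-1 | N) • ell N φ ∧
      ell N (sg φ) = J(3 | N) • ell N φ

/-! ### The chart -/

abbrev Ch (A : Type) := ℚ → ℚ → A

def mu (g : Mt) (u : ℚ) : ℚ := (g.1 * u + g.2.1) / (g.2.2.1 * u + g.2.2.2)

def my (g : Mt) (y : ℚ) : ℚ := (g.2.2.1 / 3 + g.2.2.2 * y) / (g.1 + 3 * g.2.1 * y)

def act {A : Type} (g : Mt) (a : Ch A) : Ch A := fun u y => a (mu g u) (my g y)

def G0 (g : Mt) : Prop := 3 ∣ g.2.2.1 ∧ ¬ 3 ∣ g.1 ∧ ¬ 3 ∣ g.2.2.2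

abbrev Op := List (ℤ × Mt)

def app {A : Type} [AddCommGroup A] (o : Op) (a : Ch A) : Ch A :=
  (o.map fun x => x.1 • act x.2 a).sum

def EqO {A : Type} (a b : Ch A) : Prop := ∀ u y, In u → In y → a u y = b u y

/-- locally constant -/
def LC2 {A : Type} (a : Ch A) : Prop :=
  ∃ n : ℕ, ∀ u y b c, In u → In y → In b → In c → a (u + 3 ^ n * b) (y + 3 ^ n * c) = a u y

def sw {A : Type} (a : Ch A) : Ch A := fun u y => a y u

def rho : Op := [(1, mI), (-1, (1, -1, 0, 1)), (1, (-2, 1, -3, 1)), (-1, (1, 0, -3, 1)), (1, mR),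
  (-1, (-2, 1, 3, -2))]

def T2p : Op := [(1, (-2, 0, 0, 1)), (1, (-1, 0, 0, 2)), (1, (-1, 1, 0, 2)), (1, (2, 0, 3, -1)),
  (-1, (-1, 1, 3, -1))]

def T7c : Op := [(1, (7, 0, 0, 1)), (1, (1, -3, 0, 7)), (-1, (1, -3, 3, -2)), (1, (2, 1, -3, 2)),
  (1, (7, 0, 9, 1)), (-1, (2, 1, -9, -1)), (1, (1, -2, 0, 7)), (-1, (1, -2, 3, 1)),
  (1, (7, 0, 3, 1)), (1, (1, -1, 0, 7)), (1, (7, 0, 6, 1)), (-1, (1, -1, 6, 1)), (1, (1, 0, 0, 7)),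
  (1, (1, 1, 0, 7)), (-1, (1, 1, -6, 1)), (1, (7, 0, -6, 1)), (1, (1, 2, 0, 7)),
  (-1, (1, 2, -3, 1)), (1, (7, 0, -3, 1)), (1, (1, 3, 0, 7)), (1, (2, -1, 3, 2)),
  (-1, (1, 3, -3, -2)), (-1, (2, -1, 9, -1)), (1, (7, 0, -9, 1))]

/-- the operator `tt` in the chart -/
def tch {A : Type} [AddCommGroup A] (a : Ch A) : Ch A := fun u y =>
  if In (u / 3) then a (u / 3) (3 * y)
  else if In ((u - 1) / 3) then (a - act mL a) ((u - 1) / 3) (3 * y / (1 - 3 * y))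
  else (a - act (adj mL) a) ((u + 1) / 3) (3 * y / (1 + 3 * y))

/-- the restriction of a symbol to the chart -/
def res {A : Type} (φ : Sb A) : V → V → Ch A := fun c c' u y => φ c c' (u, 1) (1, 3 * y)

def ch {A : Type} (φ : Sb A) : Ch A := res φ e1 e2

/-- a symbol on the chart -/
structure Sy0 {A : Type} [AddCommGroup A] (Ψ : V → V → Ch A) : Prop where
  ad : ∀ u y, In u → In y → Ad fun c c' => Ψ c c' u y
  invT : ∀ c c' : V, c ≠ 0 → c' ≠ 0 → EqO (act mT (Ψ (ap mT c) (ap mT c'))) (Ψ c c')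
  invL : ∀ c c' : V, c ≠ 0 → c' ≠ 0 → EqO (act mL (Ψ (ap mL c) (ap mL c'))) (Ψ c c')

def sg0 {A : Type} [AddCommGroup A] (Ψ : V → V → Ch A) : V → V → Ch A :=
  fun c c' u y => -Ψ (ap mW c) (ap mW c') y u

def ell0 {A : Type} [AddCommGroup A] (N : ℕ) (Ψ : V → V → Ch A) : A :=
  ∑ m ∈ Finset.range N, J(m | N) • Ψ e1 (m, N) (m / N) 0

/-- the action on the chart -/
structure RowMOB : Prop where
  pres : ∀ g, G0 g → ∀ u, In u → In (mu g u) ∧ In (my g u) ∧ Un (g.2.2.1 * u + g.2.2.2) ∧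
    Un (g.1 + 3 * g.2.1 * u)
  comp : ∀ g h, G0 g → G0 h → G0 (mul g h) ∧ ∀ u, In u → mu (mul g h) u = mu g (mu h u) ∧
    my (mul g h) u = my g (my h u)
  vec : ∀ g, G0 g → ∀ u, In u → ap g (u, 1) = (g.2.2.1 * u + g.2.2.2) • (mu g u, 1) ∧
    ap g (1, 3 * u) = (g.1 + 3 * g.2.1 * u) • (1, 3 * my g u)
  lip : ∀ g, G0 g → ∀ (u b : ℚ) (n : ℕ), In u → In b → (∃ b', In b' ∧
    mu g (u + 3 ^ n * b) = mu g u + 3 ^ n * b') ∧ ∃ b', In b' ∧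
    my g (u + 3 ^ n * b) = my g u + 3 ^ n * b'
  lc : ∀ (A : Type) [AddCommGroup A] (a : Ch A), LC2 a → (∀ g, G0 g → LC2 (act g a)) ∧
    (∀ o : Op, (∀ x ∈ o, G0 x.2) → LC2 (app o a)) ∧ LC2 (sw a) ∧ LC2 (tch a)
  grp : ∀ (A : Type) [AddCommGroup A], ∃ M : AddSubgroup (Ch A), ∀ a, a ∈ M ↔ LC2 a
  congr : ∀ (A : Type) [AddCommGroup A] (a b : Ch A), EqO a b →
    (∀ g, G0 g → EqO (act g a) (act g b)) ∧
    (∀ o : Op, (∀ x ∈ o, G0 x.2) → EqO (app o a) (app o b)) ∧ EqO (tch a) (tch b)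
  rhoR : ∀ (A : Type) [AddCommGroup A] (a : Ch A), EqO (act mR (app rho a)) (app rho a)

/-- symbols on the chart -/
structure RowIND0 : Prop where
  inv : ∀ (A : Type) [AddCommGroup A] (Ψ : V → V → Ch A), Sy0 Ψ → ∀ g : Mt, det g = 1 →
    3 ∣ g.2.2.1 → ∀ c c' : V, c ≠ 0 → c' ≠ 0 → EqO (act g (Ψ (ap g c) (ap g c'))) (Ψ c c')
  ind : ∀ (A : Type) [AddCommGroup A] (Ψ : V → V → Ch A) (P : AddSubgroup A), Sy0 Ψ →
    (∀ u y, In u → In y → Ψ e1 e2 u y ∈ P) →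
    ∀ (c c' : V) (u y : ℚ), c ≠ 0 → c' ≠ 0 → In u → In y → Ψ c c' u y ∈ P
  rel : ∀ (A : Type) [AddCommGroup A] (Ψ : V → V → Ch A), Sy0 Ψ → EqO (app rho (Ψ e1 e2)) 0
  flip : ∀ (A : Type) [AddCommGroup A] (Ψ : V → V → Ch A), Sy0 Ψ → Sy0 (sg0 Ψ) ∧
    EqO (sg0 Ψ e1 e2) (sw (Ψ e1 e2)) ∧
    ∀ N : ℕ, Odd N → ¬ 3 ∣ N → ell0 N (sg0 Ψ) = J(3 | N) • ell0 N Ψ

/-- from symbols to the chart -/
structure RowCH : Prop where
  toRes : ∀ (A : Type) [AddCommGroup A] (φ : Sb A), Sy φ → Sy0 (res φ) ∧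
    (∀ c c', EqO (res (sg φ) c c') (sg0 (res φ) c c')) ∧
    ∀ N : ℕ, ¬ 3 ∣ N → ell N φ = ell0 N (res φ)
  ops : ∀ (A : Type) [AddCommGroup A] (φ : Sb A), Sy φ → EqO (app rho (ch φ)) 0 ∧
    EqO (ch (tt φ)) (tch (ch φ)) ∧ EqO (ch (cj φ)) (act mN (ch φ)) ∧ EqO (ch (sg φ)) (sw (ch φ))
  lc : ∀ (A : Type) [AddCommGroup A] (φ : Sb A), SL φ → LC2 (ch φ)
  uni : ∀ (A : Type) [AddCommGroup A] (φ : Sb A) (P : AddSubgroup A), Sy φ →
    (∀ u y, In u → In y → ch φ u y ∈ P) → ∀ c c' v w, φ c c' v w ∈ P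

/-- Hecke operators in the chart -/
def RowCHT : Prop :=
  ∀ (A : Type) [AddCommGroup A] (φ : Sb A), Sy φ →
    EqO (ch (cj (Tl 2 φ))) (app T2p (ch φ)) ∧ EqO (ch (Tl 7 φ)) (app T7c (ch φ))

/-- bases of the standard lattice -/
def X1 (v w : V) : Prop := In v.1 ∧ In v.2 ∧ In w.1 ∧ In w.2 ∧ Un (dt v w)

/-- the value on the basic path, for all bases of the standard lattice -/
def RowEXT1 : Prop :=
  ∀ (A : Type) [AddCommGroup A] (a : Ch A), LC2 a → EqO (app rho a) 0 →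
    ∃ (ψ : V → V → A) (n : ℕ), 1 ≤ n ∧ RK n ψ ∧ (∀ v w, ¬ X1 v w → ψ v w = 0) ∧
      (∀ u y, In u → In y → ψ (u, 1) (1, 3 * y) = a u y) ∧
      (∀ v w, ψ v w + ψ (ap (adj mS) v) (ap (adj mS) w) = 0) ∧
      ∀ v w, ψ v w = ψ (ap (adj mT) v) (ap (adj mT) w) + ψ (ap (adj mU) v) (ap (adj mU) w)

/-- from the chart to symbols -/
def RowEXT : Prop :=
  ∀ (A : Type) [AddCommGroup A] (a : Ch A), LC2 a → EqO (app rho a) 0 →
    ∃ φ : Sb A, SL φ ∧ EqO (ch φ) a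

/-! ### One variable -/

abbrev F3 := ZMod 3

def LC1 (b : ℚ → F3) : Prop := ∃ n : ℕ, ∀ u x, In u → In x → b (u + 3 ^ n * x) = b u

/-- the Newton coefficients -/
def co1 (b : ℚ → F3) (i : ℕ) : F3 := (fwdDiff (1 : ℚ))^[i] b 0

/-- degree less than `n` -/
def Z1 (n : ℕ) (b : ℚ → F3) : Prop := ∀ i, n ≤ i → co1 b i = 0

/-- the binomial coefficient modulo `3` -/
def bn (k : ℕ) (x : ℚ) : F3 := ((red (3 ^ (k + 1)) x).val.choose k : ℕ)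

structure RowBN : Prop where
  congr : ∀ b b' : ℚ → F3, (∀ m : ℕ, b m = b' m) → co1 b = co1 b'
  grp : ∃ M : Subring (ℚ → F3), ∀ b, b ∈ M ↔ LC1 b
  fin : ∀ (b : ℚ → F3) (n : ℕ), (∀ u x, In u → In x → b (u + 3 ^ n * x) = b u) → Z1 (3 ^ n) b
  diff : ∀ b : ℚ → F3, LC1 b → ∀ k, LC1 ((fwdDiff (1 : ℚ))^[k] b)
  iff : ∀ (b : ℚ → F3) (n : ℕ), LC1 b → (Z1 n b ↔ ∀ u, In u → (fwdDiff (1 : ℚ))^[n] b u = 0)
  nat : ∀ k m : ℕ, bn k m = (m.choose k : ℕ)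
  per : ∀ (k n : ℕ) (u x : ℚ), k < 3 ^ n → In u → In x → bn k (u + 3 ^ n * x) = bn k u
  basis : ∀ k i : ℕ, co1 (bn k) i = if i = k then 1 else 0
  low : ∀ x, In x → bn 0 x = 1 ∧ bn 1 x = red 3 x
  newton : ∀ (b : ℚ → F3) (n : ℕ) (x h : ℚ), LC1 b → Z1 n b → In x → In h →
    b (x + h) = ∑ k ∈ Finset.range n, bn k h * (fwdDiff (1 : ℚ))^[k] b x
  three : ∀ (k : ℕ) (x : ℚ), In x → bn k (3 * x) = if 3 ∣ k then bn (k / 3) x else 0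
  vdm : ∀ (k : ℕ) (x y : ℚ), In x → In y →
    bn k (x + y) = ∑ i ∈ Finset.range (k + 1), bn i x * bn (k - i) y
  mul : ∀ (b b' : ℚ → F3) (m n : ℕ), Z1 (m + 1) b → Z1 (n + 1) b' → Z1 (m + n + 1) (b * b') ∧
    co1 (b * b') (m + n) = ((m + n).choose m : ℕ) * co1 b m * co1 b' n
  mul0 : ∀ (b b' : ℚ → F3), Z1 0 b' → Z1 0 (b * b')
  poly : ∀ (P : Polynomial ℕ) (e k : ℕ), P.natDegree ≤ e →
    ∀ b : ℚ → F3, (∀ m : ℕ, b m = ((P.eval m).choose k : ℕ)) → Z1 (e * k + 1) b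

/-- a fractional linear map -/
def mob (p q r s u : ℚ) : ℚ := (p * u + q) / (r * u + s)

def Mb (p q r s : ℚ) : Prop := Un p ∧ In q ∧ In (r / 3) ∧ Un s

/-- degrees of binomial coefficients of rational functions -/
structure RowDGM : Prop where
  one : ∀ p q r s, Mb p q r s → ∀ k, LC1 (fun u => bn k (mob p q r s u)) ∧
    Z1 (k + 1) (fun u => bn k (mob p q r s u)) ∧
    co1 (fun u => bn k (mob p q r s u)) k = red 3 (p / s) ^ k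
  two : ∀ a b c r s : ℚ, In a → In b → In c → In (r / 3) → Un s → ∀ k,
    LC1 (fun u => bn k ((a * u ^ 2 + b * u + c) / (r * u + s))) ∧
    Z1 (2 * k + 1) fun u => bn k ((a * u ^ 2 + b * u + c) / (r * u + s))

/-- substitutions in one variable -/
structure RowD1 : Prop where
  tri : ∀ p q r s, Mb p q r s → ∀ (b : ℚ → F3) (n : ℕ), LC1 b → LC1 (fun u => b (mob p q r s u)) ∧
    (Z1 n b → Z1 n fun u => b (mob p q r s u)) ∧
    (Z1 (n + 1) b → co1 (fun u => b (mob p q r s u)) n = red 3 (p / s) ^ n * co1 b n)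
  dr1 : ∀ p q r s, Mb p q r s → In ((p - s) / 3) → ∀ (b : ℚ → F3) (n : ℕ), LC1 b → Z1 (n + 1) b →
    Z1 n fun u => b (mob p q r s u) - b u
  dr7 : ∀ p q r s, Mb p q r s → In ((p - s) / 9) → In (q / 9) → In (r / 9) →
    ∀ (b : ℚ → F3) (n : ℕ), LC1 b → Z1 (n + 7) b → Z1 n fun u => b (mob p q r s u) - b u
  top : ∀ (b : ℚ → F3) (n : ℕ), LC1 b → Z1 (n + 2) b →
    co1 (fun u => b (mob 1 0 3 1 u) - b u) n = if n % 3 = 2 then co1 b (n + 1) else 0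

/-- the coefficients of the indicator of a class modulo `3` -/
def kap (j m : ℕ) : F3 := if m < j then 0 else if j = 0 ∧ m = 1 then -1 else 1

/-- multiplication and division by `3` -/
structure RowX3 : Prop where
  mul : ∀ (b : ℚ → F3) (n : ℕ), co1 (fun u => b (3 * u)) n = co1 b (3 * n)
  div : ∀ (b : ℚ → F3) (j i m : ℕ), j < 3 → m < 3 →
    co1 (fun u => if In ((u - j) / 3) then b ((u - j) / 3) else 0) (3 * i + m) = kap j m * co1 b i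
  shift : ∀ (b : ℚ → F3) (n : ℕ), co1 (fun u => b (u + 1) - b u) n = co1 b (n + 1)

/-! ### Two variables -/

abbrev Ar := ℕ → ℕ → F3

def co (a : Ch F3) : Ar := fun i j => co1 (fun u => co1 (a u) j) i

/-- vanishing above `(i, j)` in degree at least `n` -/
def Up (i j n : ℕ) (c : Ar) : Prop := ∀ i' j', i ≤ i' → j ≤ j' → n ≤ i' + j' → c i' j' = 0

structure RowN2 : Prop where
  lin : ∃ C : Ch F3 →ₗ[F3] Ar, ∀ a, C a = co a
  congr : ∀ a b : Ch F3, EqO a b → co a = co b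
  swap : ∀ (a : Ch F3) (i j : ℕ), co (sw a) i j = co a j i
  col : ∀ a : Ch F3, LC2 a → ∀ j, LC1 (fun u => co1 (a u) j) ∧ ∀ u, In u → LC1 (a u)
  fin : ∀ a : Ch F3, LC2 a → ∃ n, Up n 0 0 (co a) ∧ Up 0 n 0 (co a)
  ext : ∀ a : Ch F3, LC2 a → co a = 0 → EqO a 0
  ex : ∀ (c : Ar) (n : ℕ), Up n 0 0 c → Up 0 n 0 c → ∃ a : Ch F3, LC2 a ∧ co a = c

def Deep (g : Mt) : Prop := 9 ∣ g.2.1 ∧ 27 ∣ g.2.2.1 ∧ 9 ∣ g.1 - g.2.2.2 ∧ ¬ 3 ∣ g.1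

def egr (c : Ar) : Ar := fun i j => c (i + 1) j + if j % 3 = 2 then c i (j + 1) else 0

def fgr (c : Ar) : Ar := fun i j => c i (j + 1) + if i % 3 = 2 then c (i + 1) j else 0

/-- the action and the filtration -/
structure RowACT : Prop where
  tri : ∀ g, G0 g → ∀ (a : Ch F3) (i j n : ℕ), LC2 a → Up i j n (co a) → Up i j n (co (act g a))
  dr1 : ∀ g, G0 g → 3 ∣ g.1 - g.2.2.2 → ∀ (a : Ch F3) (i j n : ℕ), LC2 a → Up i j (n + 1) (co a) →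
    Up i j n (co (act g a - a))
  dr7 : ∀ g, Deep g → ∀ (a : Ch F3) (i j n : ℕ), LC2 a → Up i j (n + 7) (co a) →
    Up i j n (co (act g a - a))
  drH : ∀ (a : Ch F3) (i j n : ℕ), LC2 a → Up i j (n + 2) (co a) → Up i j n (co (act mH a - a))
  topT : ∀ (a : Ch F3) (i j : ℕ), LC2 a → Up i j (i + j + 2) (co a) →
    co (act mT a - a) i j = egr (co a) i j
  topL : ∀ (a : Ch F3) (i j : ℕ), LC2 a → Up i j (i + j + 2) (co a) →
    co (act mL a - a) i j = fgr (co a) i j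
  neg : ∀ (a : Ch F3) (i j : ℕ), LC2 a → Up i j (i + j + 1) (co a) →
    co (act mN a) i j = (-1) ^ (i + j) * co a i j

def Wd (d : ℕ × ℕ × ℕ) : Mt := mul (mul (pw mT d.1) (pw mL d.2.1)) (pw mH d.2.2)

/-- a certificate that an operator lowers the degree by `w` -/
def Cert (w : ℕ) (o : Op) : Prop :=
  ∃ d : Mt → ℕ × ℕ × ℕ, (∀ x ∈ o, Deep (mul x.2 (adj (Wd (d x.2))))) ∧
    ∀ i j k : ℕ, i + j + 2 * k < w → (o.map fun x => (x.1 : F3) *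
      (((d x.2).1.choose i * (d x.2).2.1.choose j * (d x.2).2.2.choose k : ℕ) : F3)).sum = 0

def RowNF : Prop :=
  ∀ (w : ℕ) (o : Op), w ≤ 7 → Cert w o → ∀ (a : Ch F3) (i j n : ℕ), LC2 a →
    Up i j (n + w) (co a) → Up i j n (co (app o a))

def rgr (c : Ar) : Ar := fun i j =>
  if i % 3 + j % 3 ≤ 2 then ∑ m ∈ Finset.Icc (j % 3) (3 - i % 3), c (i + m) (j + 3 - m) else 0

def xgr (c : Ar) : Ar := fun i j =>
  (if i % 3 = 0 then 0 else c (i + 2) j) +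
    (if i % 3 = 2 ∧ j % 3 = 2 then 1 else -1) * c (i + 1) (j + 1) +
    if j % 3 = 0 then 0 else c i (j + 2)

def RowRT : Prop :=
  ∀ (a : Ch F3) (i j : ℕ), LC2 a → (∀ n, Up i j (n + 3) (co a) → Up i j n (co (app rho a))) ∧
    (Up i j (i + j + 4) (co a) → co (app rho a) i j = rgr (co a) i j)

def RowXT : Prop :=
  ∀ (a : Ch F3) (i j : ℕ), LC2 a → (∀ n, Up i j (n + 2) (co a) → Up i j n (co (app T2p a))) ∧
    (Up i j (i + j + 3) (co a) → co (app T2p a) i j = xgr (co a) i j)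

def RowYT : Prop :=
  ∀ (a : Ch F3) (i j : ℕ), LC2 a → EqO (app rho a) 0 →
    (∀ n, Up i j (n + 6) (co a) →
      Up i j n (co (app T7c a - (2 : ℤ) • a - app T2p (app T2p a)))) ∧
    (Up i j (i + j + 7) (co a) →
      co (app T7c a - (2 : ℤ) • a - app T2p (app T2p a)) i j = -co a (i + 3) (j + 3))

/-- the operator `tch` and the coefficients -/
structure RowTS : Prop where
  van : ∀ (a : Ch F3) (i b : ℕ), LC2 a → Up i (3 * b) 0 (co a) → Up (3 * i) b 0 (co (tch a))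
  key : ∀ (a : Ch F3) (i b : ℕ), LC2 a → Up (i + 1) (3 * b) 0 (co a) → Up i (3 * b + 3) 0 (co a) →
    co (tch a) (3 * i) b = co a i (3 * b) ∧
    co (tch a) (3 * i + 1) b = -co a i (3 * b) - co a i (3 * b + 1) ∧
    co (tch a) (3 * i + 2) b = co a i (3 * b) - co a i (3 * b + 2)

def RowSOLVE : Prop :=
  ∀ (w : Ch F3) (n B : ℕ), LC2 w → EqO (act mR w) w → Up 0 0 n (co w) → Up B 0 0 (co w) →
    ∃ z : Ch F3, LC2 z ∧ EqO (app rho z) w ∧ Up 0 0 (n + 3) (co z) ∧ Up B 0 0 (co z)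

/-! ### The graded argument -/

/-- the coefficients of a symbol -/
def cf (φ : Sb F3) : Ar := co (ch φ)

def RowLIFT : Prop :=
  ∀ (d B : ℕ) (c : Ar), Up B 0 0 c → (∀ i j, i + j + 3 = d → rgr c i j = 0) →
    ∃ z : Sb F3, SL z ∧ cj z = (-1 : ℤ) ^ d • z ∧ Up 0 0 (d + 1) (cf z) ∧ Up B 0 0 (cf z) ∧
      ∀ i j, i + j = d → cf z i j = c i j

/-- parity -/
def RowPAR : Prop :=
  ∀ (φ : Sb F3) (d : ℕ), SL φ → cj φ = (-1 : ℤ) ^ (d + 1) • φ → Up 0 0 (d + 1) (cf φ) →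
    Up 0 0 d (cf φ)

def Mid (d : ℕ) (c : Ar) : Prop :=
  ∀ i j, i + j = d → (d + 1) / 4 < i → (d + 1) / 4 < j → c i j = 0

def RowNEC : Prop :=
  ∀ (τ : ℤ) (z : Sb F3) (d : ℕ), τ = 1 ∨ τ = -1 → SL z → Up 0 0 (d + 1) (cf (z - τ • tt z)) →
    Mid d (cf (z - τ • tt z))

/-- the part near the second axis -/
def lo (B : ℕ) (c : Ar) : Ar := fun i j => if i < B then c i j else 0

def Good (d : ℕ) (c : Ar) : Prop :=
  Mid d c ∧ ∀ i j, i + j + 3 = d → rgr (lo ((d + 1) / 4 + 1) c) i j = 0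

/-- the top of `tt z` -/
structure RowTZ : Prop where
  deep : ∀ (z : Sb F3) (d : ℕ), SL z → Up 0 0 (d + 1) (cf z) → Up (d / 4) 0 0 (cf z) →
    Up 0 0 d (cf (tt z))
  edge : ∀ (z : Sb F3) (d : ℕ), SL z → d % 4 ≠ 0 → cj z = (-1 : ℤ) ^ d • z →
    Up 0 0 (d + 1) (cf z) → Up ((d + 1) / 4 + 1) 0 0 (cf z) →
    (d = 2 → cf z 0 0 = cf z 0 2) → (d = 3 → cf z 1 0 = cf z 1 2) →
    Up 0 0 (d + 1) (cf (tt z)) ∧ (∀ i j, i + j = d → (d + 1) / 4 < j → cf (tt z) i j = 0) ∧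
      cf (tt z) (d - (d + 1) / 4) ((d + 1) / 4) =
        if d % 4 = 2 then 0 else -cf z ((d + 1) / 4) (d - (d + 1) / 4)

/-- lowering the degree -/
def RowRED : Prop :=
  ∀ (τ : ℤ) (φ : Sb F3) (d : ℕ), τ = 1 ∨ τ = -1 → 1 ≤ d → SL φ → cj φ = (-1 : ℤ) ^ d • φ →
    sg φ = τ • φ → Up 0 0 (d + 1) (cf φ) → Good d (cf φ) →
    ∃ z : Sb F3, SL z ∧ cj z = (-1 : ℤ) ^ d • z ∧ sg (z - τ • tt z) = τ • (z - τ • tt z) ∧
      Up 0 0 d (cf (φ - (z - τ • tt z)))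

def Ref (d : ℕ) (c : Ar) : Prop := (d = 3 → c 0 3 + c 1 2 = 0) ∧ (d = 4 → c 1 3 = 0)

/-- the graded kernel, sign `-1` -/
def RowGK : Prop :=
  ∀ (d : ℕ) (c : Ar), (∀ i j, i + j = d → c i j = -c j i) →
    (∀ i j, i + j + 3 = d → rgr c i j = 0) → Ref d c →
    (∀ e, e + 2 = d → Mid e (xgr c) ∧ Ref e (xgr c)) →
    (∀ e, e + 6 = d → Mid e (fun i j => c (i + 3) (j + 3)) ∧ Ref e fun i j => c (i + 3) (j + 3)) →
    Good d c

/-- the socle statement -/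
def Soc (τ ε : ℤ) (N : ℕ) : Prop :=
  ∀ φ : Sb F3, SL φ → cj φ = ε • φ → sg φ = τ • φ → (∀ l, ell N (wd l φ) = 0) →
    ∃ z : Sb F3, SL z ∧ φ = z - τ • tt z

/-! ### The shape of the rows -/

def OfSA : Prop := RowBAS → RowSA
def OfHK : Prop := RowGEN → RowHK
def OfOPS : Prop := RowBAS → RowHK → RowOPS
def OfMOB : Prop := RowBAS → RowMOB
def OfIND0 : Prop := RowBAS → RowGEN → RowMOB → RowIND0
def OfCH : Prop := RowBAS → RowSA → RowMOB → RowIND0 → RowCH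
def OfELL : Prop := RowBAS → RowOPS → RowIND0 → RowCH → RowELL
def OfCHT : Prop := RowBAS → RowMOB → RowCHT
def OfEXT1 : Prop := RowBAS → RowMOB → RowEXT1
def OfEXT : Prop := RowBAS → RowSA → RowIND1 → RowMANIN → RowEXT1 → RowEXT
def OfBN : Prop := RowBAS → RowBN
def OfDGM : Prop := RowBAS → RowBN → RowDGM
def OfD1 : Prop := RowBAS → RowBN → RowDGM → RowD1
def OfX3 : Prop := RowBAS → RowBN → RowX3
def OfN2 : Prop := RowBAS → RowBN → RowN2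
def OfACT : Prop := RowBAS → RowMOB → RowBN → RowD1 → RowX3 → RowN2 → RowACT
def OfNF : Prop := RowMOB → RowN2 → RowACT → RowNF
def OfRT : Prop := RowMOB → RowN2 → RowACT → RowNF → RowRT
def OfXT : Prop := RowMOB → RowN2 → RowACT → RowNF → RowXT
def OfYT : Prop := RowMOB → RowN2 → RowACT → RowNF → RowYT
def OfTS : Prop := RowBAS → RowMOB → RowBN → RowD1 → RowX3 → RowN2 → RowACT → RowTS
def OfSOLVE : Prop := RowBAS → RowMOB → RowBN → RowD1 → RowX3 → RowN2 → RowACT → RowSOLVE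
def OfLIFT : Prop :=
  RowMOB → RowOPS → RowCH → RowEXT → RowN2 → RowACT → RowRT → RowSOLVE → RowLIFT
def OfPAR : Prop := RowMOB → RowCH → RowN2 → RowACT → RowPAR
def OfNEC : Prop := RowOPS → RowCH → RowN2 → RowTS → RowNEC
def OfTZ : Prop := RowOPS → RowCH → RowN2 → RowRT → RowTS → RowPAR → RowTZ
def OfRED : Prop := RowOPS → RowCH → RowN2 → RowRT → RowLIFT → RowTZ → RowRED

end

end Pool.Agent.MP_5f72fe_nt.MS
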