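import Pool.Agent.MP_5f72fe_nt.MS.S1

/-! Modular symbols at `3`, statements, part 2: Dedekind sums, generators, the `3`-adic step. -/

namespace Pool.Agent.MP_5f72fe_nt.MS

open scoped NumberTheorySymbols

noncomputable section

/-! ### Dedekind sums -/

def saw (x : ℚ) : ℚ := if x.den = 1 then 0 else Int.fract x - 1 / 2

/-- twelve times the Dedekind sum `s(num x, den x)` -/
def DD (x : ℚ) : ℚ := 12 * ∑ i ∈ Finset.range x.den, saw (i / x.den) * saw (i * x)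

def sn (x : ℚ) : ℚ := if 0 < x then 1 else -1

structure RowDREC : Prop where
  per : ∀ (x : ℚ) (n : ℤ), DD (x + n) = DD x
  odd : ∀ x : ℚ, DD (-x) = -DD x
  recip : ∀ x : ℚ, x ≠ 0 → DD x + DD x⁻¹ = x + x⁻¹ + 1 / (x.num * x.den) - 3 * sn x

/-- the transformation law -/
def RowDTR : Prop :=
  ∀ (g : Mt) (x r j : ℚ), det g = 1 → r = g.2.2.1 → j = r * x + g.2.2.2 → r ≠ 0 → j ≠ 0 →
    DD (mu g x) = DD x + DD (g.1 / r) - 1 / (j * r) - j / r - r / (x.den ^ 2 * j) + 3 * sn (j * r)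

/-- the generalised Bernoulli number -/
def BB (N : ℕ) : ℚ := (∑ a ∈ Finset.range N, (a : ℚ) * J(a | N)) / N

def RowDSUM : Prop :=
  ∀ N : ℕ, N % 4 = 3 → Squarefree N →
    ∑ m ∈ Finset.range N, (J(m | N) : ℚ) * DD (m / N) = 12 * BB N ^ 2

/-- the residue modulo `3` in `{0, 1, -1}` -/
def chi (u : ℚ) : ℚ := if In (u / 3) then 0 else if In ((u - 1) / 3) then 1 else -1

def RowXIM : Prop :=
  ∃ Ψ : V → V → Ch ℚ, Sy0 Ψ ∧
    (∀ u y, In u → In y → Ψ e1 e2 u y = -(6 * u * y * (u - y) / (1 - 3 * u * y))) ∧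
    ∀ m N : ℕ, ¬ 3 ∣ N → Nat.Coprime m N → Ψ e1 (m, N) (m / N) 0 = DD (3 * m / N) - DD (m / N)

def RowXIP : Prop :=
  ∃ Ψ : V → V → Ch ℚ, Sy0 Ψ ∧
    (∀ u y, In u → In y → Ψ e1 e2 u y = -(4 / 3) - 8 * chi u * y) ∧
    ∀ m N : ℕ, ¬ 3 ∣ N → Nat.Coprime m N → Ψ e1 (m, N) (m / N) 0 =
      DD ((m / N - chi (m / N) - 1) / 3) - DD ((m / N - chi (m / N) + 1) / 3)

def a0m : Ch F3 := fun u y => red 3 (u * y * (u - y))

def a0p : Ch F3 := fun u y => red 3 (u * y * (u ^ 2 - y ^ 2) / 3)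

structure RowA0 : Prop where
  m : LC2 a0m ∧ EqO (act mN a0m) (-a0m) ∧ EqO (sw a0m) (-a0m) ∧ Up 0 0 4 (co a0m) ∧
    co a0m 0 3 + co a0m 1 2 = 1
  p : LC2 a0p ∧ EqO (act mN a0p) a0p ∧ EqO (sw a0p) (-a0p) ∧ Up 0 0 5 (co a0p) ∧ co a0p 1 3 = 1
  q : ∀ u y, In u → In y → In ((chi u * y - chi y * u) / 3) ∧
    red 3 ((chi u * y - chi y * u) / 3) = a0p u y

def RowGENM : Prop :=
  ∃ φ : Sb F3, SL φ ∧ EqO (ch φ) a0m ∧
    ∀ N : ℕ, N % 12 = 7 → Squarefree N → ¬ (3 : ℤ) ∣ (BB N).num → ell N φ ≠ 0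

def RowGENP : Prop :=
  ∃ φ : Sb F3, SL φ ∧ EqO (ch φ) a0p ∧
    ∀ N : ℕ, N % 12 = 5 → Squarefree N → ¬ (3 : ℤ) ∣ (BB (3 * N)).num → ell N φ ≠ 0

def RowSOC : Prop :=
  (∀ N : ℕ, N % 12 = 7 → Squarefree N → ¬ (3 : ℤ) ∣ (BB N).num → Soc (-1) (-1) N) ∧
    ∀ N : ℕ, N % 12 = 5 → Squarefree N → ¬ (3 : ℤ) ∣ (BB (3 * N)).num → Soc (-1) 1 N

/-! ### The `3`-adic step -/

def RowLIFTJ : Prop :=
  ∀ (A A' : Type) [AddCommGroup A] [AddCommGroup A'] (i : F3 →+ A) (π : A →+ A') (z' : Sb A'),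
    Function.Injective i → Function.Surjective π → (∀ x, π x = 0 ↔ ∃ y, i y = x) → SL z' →
    ∃ z : Sb A, SL z ∧ ∀ c c' v w, π (z c c' v w) = z' c c' v w

/-- uniform continuity -/
def CK (φ : Sb ℚ) : Prop :=
  ∀ j : ℕ, ∃ n : ℕ, 1 ≤ n ∧ ∀ (c c' v w : V) (x y b d : ℚ), Un x → Un y → In b → In d →
    In ((φ c c' (x • v + (3 ^ n * b) • w) (y • w + (3 ^ n * d) • v) - φ c c' v w) / 3 ^ j)

/-- a coboundary modulo every power of `3` -/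
def Cob (τ : ℤ) (f : V → V → ℚ) : Prop :=
  ∀ j : ℕ, ∃ (n : ℕ) (Z : V → V → ℚ), 1 ≤ n ∧ RK n Z ∧ ∀ v w, In (Z v w) ∧
    In ((f v w - (Z v w - τ * Z v ((3 : ℚ) • w))) / 3 ^ j)

def RowTHMP : Prop :=
  ∀ (τ ε : ℤ) (N : ℕ) (φ : Sb ℚ), τ = 1 ∨ τ = -1 → ε = 1 ∨ ε = -1 → Soc τ ε N → Odd N → ¬ 3 ∣ N →
    J(3 | N) = τ → Sy φ → (∀ c c' v w, In (φ c c' v w)) → CK φ → cj φ = ε • φ → sg φ = τ • φ →
    (∀ l, ell N (wd l φ) = 0) → ∀ c c', Cob τ (φ c c')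

/-- a homogeneous polynomial of degree `m` -/
def Hp {K : Type} [AddCommGroup K] [Module ℚ K] (m : ℕ) (P : V → K) : Prop :=
  ∃ β : ℕ → K, ∀ x : V, P x = ∑ i ∈ Finset.range (m + 1), (x.1 ^ i * x.2 ^ (m - i)) • β i

structure RowINT : Prop where
  sub : ∀ (K : Type) [AddCommGroup K] [Module ℚ K] (m : ℕ), ∃ M : Submodule ℚ (V → K),
    ∀ P, P ∈ M ↔ Hp m P
  hom : ∀ (K : Type) [AddCommGroup K] [Module ℚ K] (m : ℕ) (P : V → K), Hp m P →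
    (∀ (l : ℚ) (x : V), P (l • x) = l ^ m • P x) ∧ (∀ v w : V, Hp m fun x => P (x.1 • v + x.2 • w)) ∧
    ∀ g : Mt, Hp m fun x => P (ap g x)
  lin : ∀ (m : ℕ) (v : V), Hp m (fun x => dt v x ^ m) ∧ Hp m fun x => dt x v ^ m
  int : ∀ (m : ℕ) (x : Fin (m + 1) → V) (w : V), (∀ a b, a ≠ b → dt (x a) (x b) ≠ 0) →
    ∃ l : Fin (m + 1) → ℚ, ∀ (K : Type) [AddCommGroup K] [Module ℚ K] (P : V → K), Hp m P →
      P w = ∑ a, l a • P (x a)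
  bd : ∀ m : ℕ, ∃ e : ℕ, ∀ P : V → ℚ, Hp m P → (∀ a : ℕ, a ≤ m → In (P (1, a))) →
    ∀ (x y : V) (n : ℕ), In x.1 → In x.2 → In y.1 → In y.2 →
      In (3 ^ e * P x) ∧ In (3 ^ e * (P (x + (3 ^ n : ℚ) • y) - P x) / 3 ^ n)

abbrev Bf (K : Type) := V → V → V → V → V → V → K

/-- symbols with polynomial coefficients -/
structure BD {K : Type} [AddCommGroup K] [Module ℚ K] (k n : ℕ) (B : Bf K) : Prop where
  junk : ∀ c c' v w x y : V, c = 0 ∨ c' = 0 ∨ dt v w = 0 → B c c' v w x y = 0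
  ad : ∀ v w x y : V, Ad fun c c' => B c c' v w x y
  inv : ∀ (g : Mt) (a : ℕ), det g = 3 ^ a → ∀ c c' v w x y : V,
    B (ap g c) (ap g c') (ap g v) (ap g w) (ap g x) (ap g y) =
      ((det g : ℚ) ^ (k - 1)) • B c c' v w x y
  rk : ∀ c c' x y : V, RK n fun v w => B c c' v w x y
  p1 : ∀ c c' v w y : V, Hp (k - 1) fun x => B c c' v w x y
  p2 : ∀ c c' v w x : V, Hp (k - 1) fun y => B c c' v w x y

def ph {K : Type} [AddCommGroup K] [Module ℚ K] (k : ℕ) (B : Bf K) : Sb K :=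
  fun c c' v w => ((dt v w)⁻¹ ^ (k - 1)) • B c c' v w v w

def RowBD : Prop :=
  ∀ (K : Type) [AddCommGroup K] [Module ℚ K] (k n : ℕ) (B : Bf K), BD k n B → Sy (ph k B) ∧
    (∀ l : K →ₗ[ℚ] ℚ, BD k n fun c c' v w x y => l (B c c' v w x y)) ∧
    (∀ η : ℚ, BD k n fun c c' v w x y => B c c' v w x y +
      η • B (ap mN c) (ap mN c') (ap mN v) (ap mN w) (ap mN x) (ap mN y)) ∧
    ∀ ε : ℤ, (ph k fun c c' v w x y => B c c' v w x y + ((ε : ℚ) * (-1) ^ (k - 1)) •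
      B (ap mN c) (ap mN c') (ap mN v) (ap mN w) (ap mN x) (ap mN y)) = ph k B + ε • cj (ph k B)

def RowBND : Prop :=
  ∀ (k n : ℕ) (B : Bf ℚ), 1 ≤ n → BD k n B → ∃ e : ℕ,
    (∀ c c' v w, In (3 ^ e * ph k B c c' v w)) ∧ CK fun c c' v w => 3 ^ e * ph k B c c' v w

/-- a rectangle -/
def Rc {B : Type} [AddCommGroup B] (F : V → V → B) (s : ℚ) (v w : V) (α β : ℚ) : B :=
  F v (s • w) - F (v + α • w) (s • w) - F v (s • (w + β • v)) + F (v + α • w) (s • (w + β • v))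

def Rect {B : Type} [AddCommGroup B] (τ : ℤ) (M : ℕ) (F : V → V → B) : Prop :=
  ∀ (v w : V) (α β : ℚ), dt v w ≠ 0 → In α → In β → Un (1 - α * β) →
    ∑ i ∈ Finset.range (2 * M + 1), τ ^ i • Rc F (3 ^ i / 3 ^ M) v w α β = 0

def RowRECT : Prop :=
  ∀ (τ : ℤ) (m n e : ℕ) (B : V → V → V → V → ℚ), τ = 1 ∨ τ = -1 → 1 ≤ n →
    (∀ x y, RK n fun v w => B v w x y) → (∀ v w y, Hp m fun x => B v w x y) →
    (∀ v w x, Hp m fun y => B v w x y) →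
    Cob τ (fun v w => 3 ^ e * ((dt v w)⁻¹ ^ m * B v w v w)) →
    ∀ (M : ℕ) (x y : V), n ≤ M → Rect τ M fun v w => B v w x y

def RowTHMB : Prop :=
  ∀ (τ ε : ℤ) (N k n : ℕ) (K : Type) [AddCommGroup K] [Module ℚ K] (B : Bf K), τ = 1 ∨ τ = -1 →
    ε = 1 ∨ ε = -1 → Soc τ ε N → Odd N → ¬ 3 ∣ N → J(3 | N) = τ → 1 ≤ n → BD k n B →
    cj (ph k B) = ε • ph k B → sg (ph k B) = τ • ph k B → (∀ l, ell N (wd l (ph k B)) = 0) →
    ∀ (M : ℕ) (c c' x y : V), n ≤ M → Rect τ M fun v w => B c c' v w x y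

/-! ### The local argument -/

/-- invariance on the right under the group of level `3 ^ r` -/
def R0 {B : Type} (r : ℕ) (F : V → V → B) : Prop :=
  ∀ (v w : V) (x y b c : ℚ), Un x → Un y → In b → In c →
    F (x • v + b • w) (y • w + (3 ^ r * c) • v) = F v w

/-- the quadratic character of conductor `3` -/
def om (x : ℚ) : ℚ := chi (x / 3 ^ padicValRat 3 x)

def RowOM : Prop :=
  (∀ x y, om (x * y) = om x * om y) ∧ om 3 = 1 ∧ (∀ x, Un x → om x = chi x) ∧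
    (∀ x y, In x → In y → chi (x * y) = chi x * chi y) ∧
    (∀ x y, In x → In y → chi (x + 3 * y) = chi x) ∧ (∀ x, In x → In ((x - chi x) / 3)) ∧
    ∀ x, x ≠ 0 → om x = 1 ∨ om x = -1

def dep {B : Type} [AddCommGroup B] [Module ℚ B] (F : V → V → B) : V → V → B := fun v w =>
  F v w - (1 / 3 : ℚ) • (F v w + F (v + (1 / 3 : ℚ) • w) w + F (v - (1 / 3 : ℚ) • w) w)

def tw {B : Type} [AddCommGroup B] [Module ℚ B] (F : V → V → B) : V → V → B := fun v w =>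
  om (dt v w) • (F (v + (1 / 3 : ℚ) • w) w - F (v - (1 / 3 : ℚ) • w) w)

def Dp {B : Type} [AddCommGroup B] (F : V → V → B) : Prop :=
  ∀ v w : V, F v w + F (v + (1 / 3 : ℚ) • w) w + F (v - (1 / 3 : ℚ) • w) w = 0

structure RowLOC : Prop where
  rk : ∀ (B : Type) (F : V → V → B) (r : ℕ), 1 ≤ r → R0 r F → RK r F ∧ R0 (r + 1) F
  ops : ∀ (B : Type) [AddCommGroup B] [Module ℚ B] (F : V → V → B) (r : ℕ), 2 ≤ r → R0 r F →
    R0 r (dep F) ∧ R0 r (tw F) ∧ Dp (dep F)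
  one : ∀ (B : Type) [AddCommGroup B] (F : V → V → B) (τ : ℤ) (r M : ℕ), τ = 1 ∨ τ = -1 →
    1 ≤ M → R0 (r + 2) F → Rect τ M F → ∀ (v w : V) (α β : ℚ), dt v w ≠ 0 → In α → In β →
      Un (1 - α * (3 ^ r * β)) → Rc F 3 v w α (3 ^ r * β) = 0
  low : ∀ (B : Type) [AddCommGroup B] [Module ℚ B] (F : V → V → B) (τ : ℤ) (r M : ℕ),
    τ = 1 ∨ τ = -1 → 1 ≤ M → R0 (r + 2) F → Dp F → (∀ v w, dt v w = 0 → F v w = 0) → Rect τ M F →
      R0 2 F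

def RowTREE : Prop :=
  ∀ (B : Type) [AddCommGroup B] [Module ℚ B] (F : V → V → B) (τ τ' : ℤ) (r M M' : ℕ),
    τ = 1 ∨ τ = -1 → τ' = 1 ∨ τ' = -1 → 1 ≤ M → 1 ≤ M' → R0 (r + 2) F → Dp F →
    (∀ v w, dt v w = 0 → F v w = 0) → Rect τ M F → Rect τ' M' (tw F) → F = 0

/-! ### The shape of the rows -/

def OfDTR : Prop := RowGEN → RowDREC → RowDTR
def OfDSUM : Prop := RowDREC → RowDSUM
def OfXIM : Prop := RowBAS → RowMOB → RowDREC → RowDTR → RowXIM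
def OfXIP : Prop := RowBAS → RowMOB → RowOM → RowDREC → RowDTR → RowXIP
def OfA0 : Prop := RowBAS → RowBN → RowN2 → RowOM → RowA0
def OfGENM : Prop :=
  RowBAS → RowMOB → RowIND0 → RowCH → RowEXT → RowDREC → RowDSUM → RowXIM → RowA0 → RowGENM
def OfGENP : Prop := RowBAS → RowMOB → RowIND0 → RowCH → RowEXT → RowOM → RowDREC → RowDSUM →
  RowXIP → RowA0 → RowGENP
def OfSOC : Prop := RowOPS → RowELL → RowMOB → RowCH → RowCHT → RowN2 → RowRT → RowXT → RowYT →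
  RowPAR → RowNEC → RowRED → RowGK → RowA0 → RowGENM → RowGENP → RowSOC
def OfLIFTJ : Prop := RowMOB → RowOPS → RowCH → RowEXT → RowN2 → RowSOLVE → RowLIFTJ
def OfTHMP : Prop := RowBAS → RowOPS → RowELL → RowLIFTJ → RowTHMP
def OfINT : Prop := RowBAS → RowINT
def OfBD : Prop := RowBAS → RowINT → RowBD
def OfBND : Prop := RowBAS → RowSA → RowIND1 → RowINT → RowBND
def OfRECT : Prop := RowBAS → RowINT → RowRECT
def OfTHMB : Prop := RowOPS → RowBD → RowBND → RowTHMP → RowRECT → RowTHMB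
def OfOM : Prop := RowBAS → RowOM
def OfLOC : Prop := RowBAS → RowOM → RowLOC
def OfTREE : Prop := RowBAS → RowOM → RowLOC → RowTREE

end

end Pool.Agent.MP_5f72fe_nt.MS
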