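import Pool.Agent.MP_5f72fe_nt.MS.S2

/-! Row XIM: the Eisenstein symbol of sign `-1`. -/

namespace Pool.Agent.MP_5f72fe_nt.MS

namespace XIMA

theorem den_div (a b : ℤ) (hb : b ≠ 0) (h : IsCoprime a b) :
    (((a : ℚ) / b).den : ℤ) = |b| := by
  rcases lt_or_gt_of_ne hb with h1 | h1
  · have := Rat.den_div_eq_of_coprime (a := -a) (b := -b) (by omega)
      (Int.isCoprime_iff_nat_coprime.1 (h.neg_neg))
    rw [abs_of_neg h1, ← this]
    push_cast
    rw [neg_div_neg_eq]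
  · rw [abs_of_pos h1]
    exact Rat.den_div_eq_of_coprime h1 (Int.isCoprime_iff_nat_coprime.1 h)

theorem cop (x : ℚ) : IsCoprime x.num (x.den : ℤ) :=
  Int.isCoprime_iff_nat_coprime.2 (by simpa using x.reduced)

theorem num_eq (x : ℚ) : (x.num : ℚ) = x.den * x := by
  rw [mul_comm]; exact (Rat.mul_den_eq_num x).symm

theorem den_ne (x : ℚ) : (x.den : ℚ) ≠ 0 := by exact_mod_cast x.den_nz

theorem den_L (x : ℚ) (h : 3 * x + 1 ≠ 0) :
    ((x / (3 * x + 1)).den : ℤ) = |3 * x.num + x.den| := by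
  have h1 : ((3 * x.num + x.den : ℤ) : ℚ) = x.den * (3 * x + 1) := by
    push_cast; rw [num_eq]; ring
  have h2 : (3 * x.num + x.den : ℤ) ≠ 0 := by
    intro h3
    rw [h3] at h1
    exact mul_ne_zero (den_ne x) h (by exact_mod_cast h1.symm)
  rw [← den_div x.num _ h2 (by rw [add_comm]; exact (cop x).add_mul_right_right 3), h1, num_eq x,
    mul_div_mul_left _ _ (den_ne x)]

theorem den_L_sq (x : ℚ) (h : 3 * x + 1 ≠ 0) :
    ((x / (3 * x + 1)).den : ℚ) ^ 2 = (x.den : ℚ) ^ 2 * (3 * x + 1) ^ 2 := by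
  have h1 : (((x / (3 * x + 1)).den : ℤ) : ℚ) ^ 2 = ((|3 * x.num + x.den| : ℤ) : ℚ) ^ 2 := by
    rw [den_L x h]
  push_cast at h1
  rw [h1, sq_abs, num_eq x]
  ring

theorem den_L_dvd (x : ℚ) (h : 3 * x + 1 ≠ 0) : 3 ∣ (x / (3 * x + 1)).den ↔ 3 ∣ x.den := by
  rw [← Int.natCast_dvd_natCast, den_L x h, dvd_abs]
  omega

theorem den_three (x : ℚ) (h : ¬ 3 ∣ x.den) : (3 * x).den = x.den := by
  have h1 : IsCoprime (3 * x.num) (x.den : ℤ) := by
    refine IsCoprime.mul_left ?_ (cop x)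
    exact Int.isCoprime_iff_nat_coprime.2
      (by simpa using (Nat.Prime.coprime_iff_not_dvd Nat.prime_three).2 h)
  have h2 := den_div _ _ (by exact_mod_cast x.den_nz) h1
  push_cast at h2
  rw [mul_div_assoc, Rat.num_div_den, abs_of_nonneg (by positivity)] at h2
  exact_mod_cast h2

theorem den_three' (x : ℚ) (h : 3 ∣ x.den) : (x.den : ℚ) = 3 * (3 * x).den := by
  obtain ⟨k, hk⟩ := h
  have hk0 : k ≠ 0 := by
    rintro rfl
    simp at hk
  have h1 : IsCoprime x.num (k : ℤ) := by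
    have := cop x
    rw [hk] at this
    push_cast at this
    exact this.of_mul_right_right
  have h2 := den_div _ _ (by exact_mod_cast hk0) h1
  have h3 : (x.num : ℚ) / ((k : ℤ) : ℚ) = 3 * x := by
    have : (k : ℚ) ≠ 0 := by exact_mod_cast hk0
    rw [num_eq x, hk]
    push_cast
    field_simp
  rw [h3, abs_of_nonneg (by positivity)] at h2
  have h4 : (3 * x).den = k := by exact_mod_cast h2
  rw [h4, hk]
  push_cast
  ring

/-- the primitive at a finite cusp -/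
noncomputable def Q (x u y : ℚ) : ℚ :=
  DD (3 * x) - DD x - 2 * (x - u) +
    if 3 ∣ x.den then -2 / (x.den ^ 2 * (x - u)) +
      (2 / 3 * x.den ^ 2 * (x - u) * (3 * x * y - 1) - 2 * y) / (3 * u * y - 1)
    else 2 * y / (x.den ^ 2 * (3 * x * y - 1)) +
      (2 * x.den ^ 2 * (x - u) * (3 * x * y - 1) - 2 * y) / (3 * u * y - 1)

/-- the primitive -/
noncomputable def P (c : V) (u y : ℚ) : ℚ := if c.2 = 0 then 0 else Q (c.1 / c.2) u y

theorem ne1 (hB : RowBAS) {y : ℚ} (hy : In y) : 1 + 3 * y ≠ 0 :=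
  ((hB.un' _).1 (hB.unAdd 1 y (by simpa using (hB.int 1).2.2 (by decide)) hy)).1

theorem ne2 (hB : RowBAS) {u y : ℚ} (hu : In u) (hy : In y) : 3 * u * y - 1 ≠ 0 := by
  obtain ⟨O, hO⟩ := hB.ring
  have := ne1 hB ((hO _).1 (O.neg_mem (O.mul_mem ((hO _).2 hu) ((hO _).2 hy))))
  intro h
  apply this
  linarith

theorem ne3 {x u : ℚ} (hx : 3 ∣ x.den) (hu : In u) : x - u ≠ 0 := by
  intro h
  obtain rfl : x = u := by linarith
  exact hu hx

theorem dd0 (hD : RowDREC) : DD 0 = 0 := by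
  have := hD.odd 0
  rw [neg_zero] at this
  linarith

theorem dd1 (hD : RowDREC) : DD 1 = 0 := by
  have := hD.per 0 1
  rw [dd0 hD] at this
  simpa using this

theorem dd3 (hD : RowDREC) : DD (1 / 3) = 2 / 3 := by
  have h1 := hD.per 0 3
  have h2 := hD.recip 3 (by norm_num)
  rw [dd0 hD] at h1
  norm_num [sn] at h1 h2
  rw [h1] at h2
  norm_num at h2 ⊢
  exact h2

theorem QT (hB : RowBAS) (hD : RowDREC) (x : ℚ) {u y : ℚ} (hu : In u) (hy : In y) :
    Q (x + 1) (u + 1) (y / (1 + 3 * y)) = Q x u y := by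
  have h1 := ne1 hB hy
  have h2 := ne2 hB hu hy
  have h3 : (x + 1).den = x.den := by simp
  have h4 : DD (x + 1) = DD x := by simpa using hD.per x 1
  have h5 : DD (3 * (x + 1)) = DD (3 * x) := by
    rw [← hD.per (3 * x) 3]; congr 1; push_cast; ring
  have e1 : ∀ z : ℚ, 3 * (z + 1) * (y / (1 + 3 * y)) - 1 = (3 * z * y - 1) / (1 + 3 * y) :=
    fun z => by field_simp; ring
  have hk := den_ne x
  simp only [Q, h3, h4, h5, e1, add_sub_add_right_eq_sub]
  split_ifs with h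
  · field_simp
  · have h6 := ne2 hB (u := x) h hy
    field_simp

theorem Q3 (hB : RowBAS) (hD : RowDREC) {u y : ℚ} (hu : In u) (hy : In y) :
    Q (1 / 3) (u / (3 * u + 1)) (y + 1) = -(2 / 3) - 2 / (3 * (3 * u + 1)) - 2 * (3 * u + 1) / 3 +
      (2 * y - 2 * (y + 1) * (3 * u + 1)) / (3 * u * y - 1) := by
  have h1 : 3 * u + 1 ≠ 0 := by rw [add_comm]; exact ne1 hB hu
  have h2 := ne2 hB hu hy
  have h3 : (1 / 3 : ℚ).den = 3 := by norm_num
  have e1 : 1 / 3 - u / (3 * u + 1) = 1 / (3 * (3 * u + 1)) := by field_simp; ring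
  have e2 : 3 * (u / (3 * u + 1)) * (y + 1) - 1 = (3 * u * y - 1) / (3 * u + 1) := by
    field_simp; ring
  simp only [Q, h3, dvd_refl, if_true, e1, e2, dd3 hD, show (3 : ℚ) * (1 / 3) = 1 by norm_num,
    dd1 hD]
  push_cast
  field_simp
  ring

theorem QL0 (hB : RowBAS) (hD : RowDREC) {u y : ℚ} (hu : In u) (hy : In y) :
    0 - Q (1 / 3) (u / (3 * u + 1)) (y + 1) = Q (-(1 / 3)) u y := by
  have h1 : 3 * u + 1 ≠ 0 := by rw [add_comm]; exact ne1 hB hu
  have h2 := ne2 hB hu hy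
  have h3 : (-(1 / 3) : ℚ).den = 3 := by norm_num
  have e1 : -(1 / 3) - u = -((3 * u + 1) / 3) := by ring
  rw [Q3 hB hD hu hy]
  simp only [Q, h3, dvd_refl, if_true, e1, hD.odd, dd3 hD,
    show (3 : ℚ) * -(1 / 3) = -1 by norm_num, dd1 hD]
  push_cast
  field_simp
  ring

theorem QL (hB : RowBAS) (hD : RowDREC) (hT : RowDTR) {x u y : ℚ} (hx : 3 * x + 1 ≠ 0)
    (hu : In u) (hy : In y) :
    Q (x / (3 * x + 1)) (u / (3 * u + 1)) (y + 1) - Q (1 / 3) (u / (3 * u + 1)) (y + 1) =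
      Q x u y := by
  have h1 : 3 * u + 1 ≠ 0 := by rw [add_comm]; exact ne1 hB hu
  have h2 := ne2 hB hu hy
  have hk := den_ne x
  have t1 := hT mL x 3 (3 * x + 1) (by decide) (by simp [mL]) (by simp [mL]) (by norm_num) hx
  have t2 := hT mU (3 * x) 1 (3 * x + 1) (by decide) (by simp [mU]) (by simp [mU]) (by norm_num) hx
  have s1 : sn ((3 * x + 1) * 3) = sn ((3 * x + 1) * 1) := by
    simp only [sn, mul_one, mul_pos_iff_of_pos_right (show (0 : ℚ) < 3 by norm_num)]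
  have m1 : mu mL x = x / (3 * x + 1) := by simp [mu, mL]
  have m2 : mu mU (3 * x) = 3 * (x / (3 * x + 1)) := by simp [mu, mU, mul_div_assoc]
  have c1 : ((mL.1 : ℤ) : ℚ) / 3 = 1 / 3 := by simp [mL]
  have c2 : ((mU.1 : ℤ) : ℚ) / 1 = 1 := by simp [mU]
  rw [m1, c1, dd3 hD, s1] at t1
  rw [m2, c2, dd1 hD] at t2
  have e1 : x / (3 * x + 1) - u / (3 * u + 1) = (x - u) / ((3 * x + 1) * (3 * u + 1)) := by
    rw [div_sub_div _ _ hx h1]; congr 1; ring
  have e2 : ∀ z : ℚ, 3 * z + 1 ≠ 0 →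
      3 * (z / (3 * z + 1)) * (y + 1) - 1 = (3 * z * y - 1) / (3 * z + 1) := fun z hz => by
    field_simp; ring
  rw [Q3 hB hD hu hy]
  simp only [Q, den_L_sq x hx, den_L_dvd x hx, e1, e2 x hx, e2 u h1, t1, t2]
  split_ifs with h
  · have h3 := ne3 h hu
    have h4 := den_ne (3 * x)
    rw [den_three' x h]
    field_simp
    ring
  · have h3 := ne2 hB (u := x) h hy
    rw [den_three x h]
    field_simp
    ring

theorem PT (hB : RowBAS) (hD : RowDREC) (c : V) {u y : ℚ} (hu : In u) (hy : In y) :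
    P (ap mT c) (mu mT u) (my mT y) = P c u y := by
  have e1 : mu mT u = u + 1 := by simp [mu, mT]
  have e2 : my mT y = y / (1 + 3 * y) := by simp [my, mT]
  have e3 : ap mT c = (c.1 + c.2, c.2) := by simp [ap, mT]
  rw [e1, e2, e3]
  simp only [P]
  split_ifs with h
  · rfl
  · rw [add_div, div_self h, QT hB hD _ hu hy]

theorem PL (hB : RowBAS) (hD : RowDREC) (hT : RowDTR) {c : V} (hc : c ≠ 0) {u y : ℚ} (hu : In u)
    (hy : In y) : P (ap mL c) (mu mL u) (my mL y) - Q (1 / 3) (mu mL u) (my mL y) = P c u y := by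
  have e1 : mu mL u = u / (3 * u + 1) := by simp [mu, mL]
  have e2 : my mL y = y + 1 := by simp [my, mL, add_comm]
  have e3 : ap mL c = (c.1, 3 * c.1 + c.2) := by simp [ap, mL]
  rw [e1, e2, e3]
  simp only [P]
  by_cases h : c.2 = 0
  · have h1 : c.1 ≠ 0 := fun h1 => hc (Prod.ext h1 h)
    have h2 : c.1 / (3 * c.1) = 1 / 3 := by field_simp
    simp [h, h1, h2]
  · rw [if_neg h]
    by_cases h1 : 3 * c.1 + c.2 = 0
    · rw [if_pos h1, QL0 hB hD hu hy]
      congr 1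
      field_simp
      linarith
    · have h2 : 3 * (c.1 / c.2) + 1 = (3 * c.1 + c.2) / c.2 := by field_simp
      rw [if_neg h1, ← QL hB hD hT (x := c.1 / c.2) (by rw [h2]; exact div_ne_zero h1 h) hu hy, h2,
        div_div_div_cancel_right₀ h]

end XIMA

theorem rowXIM : OfXIM := by
  intro hB _ hD hT
  refine ⟨fun c c' u y => XIMA.P c' u y - XIMA.P c u y, ⟨fun u y _ _ => ⟨?_, ?_⟩, ?_, ?_⟩, ?_, ?_⟩
  · intro c l _ hl
    simp [XIMA.P, hl, mul_div_mul_left]
  · intro c c' c'' _ _ _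
    ring
  · intro c c' _ _ u y hu hy
    simp only [act, XIMA.PT hB hD _ hu hy]
  · intro c c' hc hc' u y hu hy
    simp only [act]
    rw [← XIMA.PL hB hD hT hc hu hy, ← XIMA.PL hB hD hT hc' hu hy]
    ring
  · intro u y hu hy
    have h2 := XIMA.ne2 hB hu hy
    have h3 : XIMA.P e2 u y - XIMA.P e1 u y = 2 * (u - y) + 2 * (u - y) / (3 * u * y - 1) := by
      simp [XIMA.P, XIMA.Q, e1, e2]
      ring
    show XIMA.P e2 u y - XIMA.P e1 u y = _
    rw [h3, show 1 - 3 * u * y = -(3 * u * y - 1) by ring, div_neg, neg_neg, eq_div_iff h2, add_mul,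
      div_mul_cancel₀ _ h2]
    ring
  · intro m N hN _
    have h0 : (N : ℚ) ≠ 0 := by
      rintro h
      obtain rfl : N = 0 := by exact_mod_cast h
      exact hN (dvd_zero 3)
    have h1 : In ((m : ℚ) / N) := by
      refine hB.div _ _ (show ¬ 3 ∣ (m : ℚ).den by simp) ?_
      simpa using (hB.int N).2.2 (by exact_mod_cast hN)
    have h2 : ¬ 3 ∣ ((m : ℚ) / N).den := h1
    simp [XIMA.P, XIMA.Q, e1, h0, h2, mul_div_assoc]

end Pool.Agent.MP_5f72fe_nt.MS
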